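import Pool.Agent.Lib.MP_7b7e48_nt.TC.Fin

/-!
# FinB: theorem TC1+ in the form of the hand-in
-/

set_option autoImplicit false

open Finset Filter
open Pool.Agent.Lib.MP_45349e_nt.LS (lam)
open ArithmeticFunction (cardFactors)

namespace Pool.Agent.Lib.TC

/-- a number `< N` all whose prime factors are `> N ^ (1 / C)` has fewer than `C` prime factors -/
theorem finb_Omega {N m C : ℕ} (hm0 : 0 < m) (hm : m < N) (hC : 0 < C) (h : ∀ p ∈ m.primeFactors, (N : ℝ) ^ (1 / (C : ℝ)) < p) :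
    cardFactors m < C := by
  by_contra hcon
  rw [not_lt] at hcon
  have hN0 : (0 : ℝ) ≤ N := Nat.cast_nonneg _
  have hC0 : (C : ℝ) ≠ 0 := by
    have : (0 : ℝ) < C := by exact_mod_cast hC
    exact this.ne'
  have h1 : ∀ p ∈ m.primeFactorsList, ⌊(N : ℝ) ^ (1 / (C : ℝ))⌋₊ + 1 ≤ p := by
    intro p hp
    have h2 := h p (by rwa [Nat.mem_primeFactors_iff_mem_primeFactorsList])
    exact (Nat.floor_lt (Real.rpow_nonneg hN0 _)).2 h2
  have h3 : (⌊(N : ℝ) ^ (1 / (C : ℝ))⌋₊ + 1) ^ m.primeFactorsList.length ≤ m := by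
    have h4 := List.pow_card_le_prod m.primeFactorsList _ h1
    rwa [Nat.prod_primeFactorsList hm0.ne'] at h4
  have h5 : (⌊(N : ℝ) ^ (1 / (C : ℝ))⌋₊ + 1) ^ C ≤ (⌊(N : ℝ) ^ (1 / (C : ℝ))⌋₊ + 1) ^ m.primeFactorsList.length := by
    rw [ArithmeticFunction.cardFactors_apply] at hcon
    exact Nat.pow_le_pow_right (Nat.succ_pos _) hcon
  have h6 : (N : ℝ) < (⌊(N : ℝ) ^ (1 / (C : ℝ))⌋₊ + 1 : ℕ) ^ C ∨ (N : ℝ) ≤ (⌊(N : ℝ) ^ (1 / (C : ℝ))⌋₊ + 1 : ℕ) ^ C := by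
    right
    have h7 : (N : ℝ) ^ (1 / (C : ℝ)) ≤ ((⌊(N : ℝ) ^ (1 / (C : ℝ))⌋₊ + 1 : ℕ) : ℝ) := by
      push_cast
      exact (Nat.lt_floor_add_one _).le
    calc (N : ℝ) = ((N : ℝ) ^ (1 / (C : ℝ))) ^ C := by
          rw [← Real.rpow_natCast, ← Real.rpow_mul hN0, one_div, inv_mul_cancel₀ hC0, Real.rpow_one]
      _ ≤ _ := pow_le_pow_left₀ (Real.rpow_nonneg hN0 _) h7 C
  have h8 : (N : ℝ) ≤ (⌊(N : ℝ) ^ (1 / (C : ℝ))⌋₊ + 1 : ℕ) ^ C := h6.elim le_of_lt id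
  have h9 : N ≤ (⌊(N : ℝ) ^ (1 / (C : ℝ))⌋₊ + 1) ^ C := by exact_mod_cast h8
  omega

theorem finb_lam {a b : ℕ} {i : ℕ} (hi : i < 2) (h : lam a * lam b = (-1) ^ i) :
    (cardFactors a + cardFactors b) % 2 = i := by
  unfold lam at h
  rw [← pow_add] at h
  rcases Nat.even_or_odd (cardFactors a + cardFactors b) with he | ho
  · rw [he.neg_one_pow] at h
    interval_cases i
    · exact Nat.even_iff.1 he
    · norm_num at h
  · rw [ho.neg_one_pow] at h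
    interval_cases i
    · norm_num at h
    · exact Nat.odd_iff.1 ho

open Classical in
theorem tc1_hand (A : ℕ) (ε : ℝ) (hε : 0 < ε) : ∃ C : ℕ, ∃ N₀ : ℕ, ∀ N : ℕ, N₀ ≤ N → Even N → ∀ i : ℕ, i < 2 →
    (N : ℝ) ^ (1 - ε) ≤ (((Ioo 0 N).filter fun a => a.Coprime N ∧ a ≠ N - a ∧ (cardFactors a + cardFactors (N - a)) % 2 = i ∧
    (∀ p ∈ a.primeFactors, Real.log N ^ A < p) ∧ (∀ p ∈ (N - a).primeFactors, (N : ℝ) ^ (1 / (C : ℝ)) < p) ∧
    cardFactors (N - a) < C).card : ℝ) := by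
  obtain ⟨δ, hδ, N0, h⟩ := tc1 A (min ε 1) (lt_min hε one_pos) (min_le_right _ _)
  obtain ⟨C, hC⟩ := exists_nat_gt (1 / δ)
  have hC0 : (0 : ℝ) < C := lt_trans (by positivity) hC
  have hCn : 0 < C := by exact_mod_cast hC0
  refine ⟨C, max N0 3, fun N hN hev i hi => ?_⟩
  have hN0 : N0 ≤ N := (le_max_left _ _).trans hN
  have hN3 : 3 ≤ N := (le_max_right _ _).trans hN
  have hN1 : (1 : ℝ) ≤ N := by exact_mod_cast (by omega : 1 ≤ N)
  have h1 := h N hN0 hev ((-1) ^ i) (by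
    interval_cases i
    · left; norm_num
    · right; norm_num)
  have h2 : (N : ℝ) ^ (1 - ε) ≤ (N : ℝ) ^ (1 - min ε 1) :=
    Real.rpow_le_rpow_of_exponent_le hN1 (by linarith [min_le_left ε 1])
  refine h2.trans (h1.le.trans ?_)
  have h3 : fset A δ ((-1) ^ i) N ⊆ (Ioo 0 N).filter fun a => a.Coprime N ∧ a ≠ N - a ∧ (cardFactors a + cardFactors (N - a)) % 2 = i ∧
    (∀ p ∈ a.primeFactors, Real.log N ^ A < p) ∧ (∀ p ∈ (N - a).primeFactors, (N : ℝ) ^ (1 / (C : ℝ)) < p) ∧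
    cardFactors (N - a) < C := by
    intro a ha
    unfold fset at ha
    rw [mem_filter, mem_Ioo] at ha
    obtain ⟨⟨ha1, ha2⟩, hc, hl, hp, hq⟩ := ha
    have hq' : ∀ p ∈ (N - a).primeFactors, (N : ℝ) ^ (1 / (C : ℝ)) < p := by
      intro p hpp
      refine lt_of_le_of_lt ?_ (hq p (Nat.prime_of_mem_primeFactors hpp) (Nat.dvd_of_mem_primeFactors hpp))
      refine Real.rpow_le_rpow_of_exponent_le hN1 ?_
      rw [div_le_iff₀ hC0]
      rw [div_lt_iff₀ hδ] at hC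
      linarith
    rw [mem_filter, mem_Ioo]
    refine ⟨⟨ha1, ha2⟩, hc, ?_, finb_lam hi hl, fun p hpp => hp p (Nat.prime_of_mem_primeFactors hpp)
      (Nat.dvd_of_mem_primeFactors hpp), hq', finb_Omega (by omega) (by omega) hCn hq'⟩
    intro he
    have h4 : N = 2 * a := by omega
    rw [h4] at hc
    have h5 : a = 1 := by
      have := Nat.Coprime.eq_one_of_dvd hc (Dvd.intro_left 2 rfl)
      exact this
    omega
  exact_mod_cast card_le_card h3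

end Pool.Agent.Lib.TC
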