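import Pool.Agent.Lib.MP_7b7e48_nt.TC.Cyc
import Pool.Agent.Lib.MP_45349e_nt.LS.LamB

/-!
# Cycles (TC1): the Liouville relation

If all the numbers `n = e i * A i` and `n = e i * B i` of a cycle satisfy `λ(N - n) = κ λ(n)`, then
`λ(∏ al i * A i) = λ(∏ be i * B i)`. Moreover `e i * A i < N`, `e i * B i < N`.
-/

set_option autoImplicit false

open Finset
open Pool.Agent.Lib.MP_45349e_nt.LS (lam)

namespace Pool.Agent.Lib.TC

theorem lam_pm (a : ℕ) : lam a = 1 ∨ lam a = -1 := by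
  unfold Pool.Agent.Lib.MP_45349e_nt.LS.lam
  exact neg_one_pow_eq_or ℝ _

theorem lam_sq (a : ℕ) : lam a * lam a = 1 := by
  rcases lam_pm a with q | q <;> rw [q] <;> norm_num

theorem lam_one' : lam 1 = 1 := by
  have h := Pool.Agent.Lib.MP_45349e_nt.LS.lam_mul 1 1 one_ne_zero one_ne_zero
  rw [mul_one] at h
  rcases lam_pm 1 with q | q
  · exact q
  · rw [q] at h; norm_num at h

theorem lam_prod (f : ℕ → ℕ) : ∀ m : ℕ, (∀ i < m, 0 < f i) → lam (∏ i ∈ range m, f i) = ∏ i ∈ range m, lam (f i) := by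
  intro m
  induction m with
  | zero => intro _; simpa using lam_one'
  | succ m ih =>
    intro h
    rw [prod_range_succ, prod_range_succ, Pool.Agent.Lib.MP_45349e_nt.LS.lam_mul, ih fun i hi => h i (by omega)]
    · exact (prod_pos fun i hi => h i (by rw [mem_range] at hi; omega)).ne'
    · exact (h m (by omega)).ne'

namespace Cyc

variable {N m : ℕ} {A B al be e t : ℕ → ℕ}

theorem subE (c : Cyc N m A B al be e t) {i : ℕ} (hi : i < m) : N - e i * A i = t i * be i := by
  have := c.E i hi; omega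

theorem subF (c : Cyc N m A B al be e t) {i : ℕ} (hi : i < m) :
    N - e i * B i = t ((i + 1) % m) * al ((i + 1) % m) := by
  have := c.F i hi; omega

theorem ltE (c : Cyc N m A B al be e t) (hb : ∀ i < m, 0 < be i) {i : ℕ} (hi : i < m) : e i * A i < N := by
  have h1 := c.E i hi
  have h2 := Nat.mul_pos (c.t0 i hi) (hb i hi)
  omega

theorem ltF (c : Cyc N m A B al be e t) (ha : ∀ i < m, 0 < al i) {i : ℕ} (hi : i < m) : e i * B i < N := by
  have h1 := c.F i hi
  have h0 : (i + 1) % m < m := Nat.mod_lt _ (by omega)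
  have h2 := Nat.mul_pos (c.t0 _ h0) (ha _ h0)
  omega

/-- the relation of a cycle -/
theorem lam_eq (c : Cyc N m A B al be e t) (hm : 0 < m) (hA : ∀ i < m, 0 < A i) (hB : ∀ i < m, 0 < B i)
    (ha : ∀ i < m, 0 < al i) (hb : ∀ i < m, 0 < be i) {κ : ℝ} (hκ : κ ^ 2 = 1)
    (h1 : ∀ i < m, lam (N - e i * A i) = κ * lam (e i * A i))
    (h2 : ∀ i < m, lam (N - e i * B i) = κ * lam (e i * B i)) :
    lam (∏ i ∈ range m, al i * A i) = lam (∏ i ∈ range m, be i * B i) := by
  have hκ2 : κ * κ = 1 := by rw [← sq]; exact hκ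
  rw [lam_prod _ m fun i hi => Nat.mul_pos (ha i hi) (hA i hi),
    lam_prod _ m fun i hi => Nat.mul_pos (hb i hi) (hB i hi)]
  -- lam (A i) = κ lam (e i) lam (t i) lam (be i)
  have e1 : ∀ i ∈ range m, lam (A i) = κ * lam (e i) * (lam (t i) * lam (be i)) := by
    intro i hi
    rw [mem_range] at hi
    have h := h1 i hi
    rw [c.subE hi, Pool.Agent.Lib.MP_45349e_nt.LS.lam_mul _ _ (c.t0 i hi).ne' (hb i hi).ne',
      Pool.Agent.Lib.MP_45349e_nt.LS.lam_mul _ _ (c.e0 i hi).ne' (hA i hi).ne'] at h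
    rw [h]
    calc lam (A i) = (κ * κ) * (lam (e i) * lam (e i)) * lam (A i) := by rw [hκ2, lam_sq]; ring
      _ = _ := by ring
  have e2 : ∀ i ∈ range m, lam (B i) = κ * lam (e i) * (lam (t ((i + 1) % m)) * lam (al ((i + 1) % m))) := by
    intro i hi
    rw [mem_range] at hi
    have h := h2 i hi
    have h0 : (i + 1) % m < m := Nat.mod_lt _ hm
    rw [c.subF hi, Pool.Agent.Lib.MP_45349e_nt.LS.lam_mul _ _ (c.t0 _ h0).ne' (ha _ h0).ne',
      Pool.Agent.Lib.MP_45349e_nt.LS.lam_mul _ _ (c.e0 i hi).ne' (hB i hi).ne'] at h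
    rw [h]
    calc lam (B i) = (κ * κ) * (lam (e i) * lam (e i)) * lam (B i) := by rw [hκ2, lam_sq]; ring
      _ = _ := by ring
  have f1 : ∏ i ∈ range m, lam (al i * A i) = (∏ i ∈ range m, lam (al i)) * ∏ i ∈ range m, lam (A i) := by
    rw [← prod_mul_distrib]
    refine prod_congr rfl fun i hi => ?_
    rw [mem_range] at hi
    exact Pool.Agent.Lib.MP_45349e_nt.LS.lam_mul _ _ (ha i hi).ne' (hA i hi).ne'
  have f2 : ∏ i ∈ range m, lam (be i * B i) = (∏ i ∈ range m, lam (be i)) * ∏ i ∈ range m, lam (B i) := by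
    rw [← prod_mul_distrib]
    refine prod_congr rfl fun i hi => ?_
    rw [mem_range] at hi
    exact Pool.Agent.Lib.MP_45349e_nt.LS.lam_mul _ _ (hb i hi).ne' (hB i hi).ne'
  have g1 := prod_cyc hm fun i => lam (t i)
  have g2 := prod_cyc hm fun i => lam (al i)
  rw [f1, f2, prod_congr rfl e1, prod_congr rfl e2]
  simp only [prod_mul_distrib]
  rw [g1, g2]
  ring

end Cyc

end Pool.Agent.Lib.TC
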