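import Pool.Agent.Lib.MP_7b7e48_nt.TC.PDefs

/-!
# POK: the properties of the data and of the mark system; further definitions for the pair lemma

`Dat.OK T W0`, `MS.OK S T W0 Z` (combinatorial properties), `MS.An S T ...` (distribution of the primes of the windows and of the pieces).
-/

set_option autoImplicit false

open Finset

namespace Pool.Agent.Lib.TC

/-- the properties of the numerical data; `W0` is the product of the primes `< p0` -/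
structure Dat.OK (T : Dat) (W0 : ℕ) : Prop where
  N_even : Even T.N
  N_pos : 2 < T.N
  W0_pr : ∀ p : ℕ, p.Prime → (p ∣ W0 ↔ p < T.p0)
  W0_sq : Squarefree W0
  W0_D : W0 ^ 2 ∣ T.D
  D_pos : 0 < T.D
  D_le : T.D ≤ T.y0
  p0_le : T.p0 ≤ T.y
  y_le : T.y ≤ T.y0
  y0_lt : T.y0 < T.z
  np : ∀ p : ℕ, p.Prime → p < T.p0 → ¬ p ∣ T.np p ∧ ¬ T.N ≡ T.np p [MOD p]

/-- the combinatorial properties of a mark system -/
structure MS.OK (S : MS) (T : Dat) (W0 : ℕ) (Z : Fin (S.k + 1) → ℕ) : Prop where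
  k_odd : Odd S.k
  k_lo : 3 ≤ S.k
  p0_lo : 64 * (S.k + 1) ^ 2 ≤ T.p0
  WX_mem : ∀ i, ∀ l ∈ S.WX i, l.Prime ∧ ¬ l ∣ T.N ∧ 3 * Z i < l ∧ l ≤ 4 * Z i ∧ l ≡ 1 [MOD W0 ^ 2]
  WY_mem : ∀ i, ∀ l ∈ S.WY i, l.Prime ∧ ¬ l ∣ T.N ∧ Z i < l ∧ l ≤ 2 * Z i ∧
    ∀ p : ℕ, p.Prime → p ∣ W0 → (l : ℤ) ≡ 1 - (-1) ^ (i : ℕ) * p [ZMOD ((p ^ 2 : ℕ) : ℤ)]
  Z_lt : ∀ i j, i < j → 4 * Z i < Z j
  Z_lo : ∀ i, T.z ^ 2 ≤ Z i
  FX_mem : ∀ f, ∀ l ∈ S.FX f, l.Prime ∧ ¬ l ∣ T.N ∧ T.y0 < l ∧ l ≤ T.z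
  FY_mem : ∀ f, ∀ l ∈ S.FY f, l.Prime ∧ ¬ l ∣ T.N ∧ T.y0 < l ∧ l ≤ T.z
  OX_mem : ∀ e, ∀ l ∈ S.OX e, l.Prime ∧ ¬ l ∣ T.N ∧ T.y0 < l ∧ l ≤ T.z
  OY_mem : ∀ e, ∀ l ∈ S.OY e, l.Prime ∧ ¬ l ∣ T.N ∧ T.y0 < l ∧ l ≤ T.z
  FX_dis : ∀ f f', f ≠ f' → Disjoint (S.FX f) (S.FX f')
  FY_dis : ∀ f f', f ≠ f' → Disjoint (S.FY f) (S.FY f')
  OX_dis : ∀ e e', e ≠ e' → Disjoint (S.OX e) (S.OX e')
  OY_dis : ∀ e e', e ≠ e' → Disjoint (S.OY e) (S.OY e')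
  FOX_dis : ∀ f e, Disjoint (S.FX f) (S.OX e)
  FOY_dis : ∀ f e, Disjoint (S.FY f) (S.OY e)
  num : ((2 * (S.k + 1) + 2 * S.n0 + S.nX + S.nY : ℕ) : ℝ) ≤ Real.log T.N
  AB : ∀ c ∈ S.CC, ∀ μ ∈ S.MX, ∀ ν ∈ S.MY, ∀ X Y : ℕ, ∀ i < S.k,
    S.BB T.N c μ ν Y i < S.AA T.N c μ ν X i ∧ (S.AA T.N c μ ν X i : ℝ) ≤ Real.exp 16 * S.BB T.N c μ ν Y i
  small : ∀ μ ∈ S.MX, ∀ ν ∈ S.MY, (((S.prX id μ * S.prY id ν : ℕ)) : ℝ) ≤ (T.N : ℝ) ^ (1 / 10 : ℝ)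

/-- the residues of the free primes modulo the prime powers of a finite set of primes -/
noncomputable def MS.frP (S : MS) (T : Dat) (Q : Finset ℕ) (μ : S.TX) (ν : S.TY) : FE S.n0 → (∀ p : Q, HP T.D p) :=
  fun e p => S.fr _ μ ν e

/-- equidistribution of the primes of one piece in the cells and residue classes, for the weight `h` -/
def SWc (N D : ℕ) (h : ℕ → ℝ) (η : ℝ) (Q0 : ℕ) (P : Finset ℕ) : Prop :=
  ∀ Q : Finset ℕ, (∀ p ∈ Q, p.Prime) → ∏ p ∈ Q, p ^ (padicValNat p D + 1) ≤ Q0 → ∀ κ : ℕ, ∀ u : (∀ p : Q, HP D p),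
    open Classical in
    |∑ l ∈ P.filter (fun l => cell N l = κ ∧ ∀ p : Q, toU _ l = u p), h l -
      (∑ l ∈ P.filter (fun l => cell N l = κ), h l) / (Nat.card (∀ p : Q, HP D p) : ℝ)| ≤
      η * ((∑ l ∈ P.filter (fun l => cell N l = κ), h l) / (Nat.card (∀ p : Q, HP D p) : ℝ))

/-- upper bound for the primes of a window in residue classes -/
def BTc (D : ℕ) (h : ℕ → ℝ) (C : ℝ) (Q0 : ℕ) (P : Finset ℕ) : Prop :=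
  ∀ Q : Finset ℕ, (∀ p ∈ Q, p.Prime) → ∏ p ∈ Q, p ^ (padicValNat p D + 1) ≤ Q0 → ∀ u : (∀ p : Q, HP D p),
    open Classical in
    ∑ l ∈ P.filter (fun l => ∀ p : Q, toU _ l = u p), h l ≤ C * ((∑ l ∈ P, h l) / (Nat.card (∀ p : Q, HP D p) : ℝ))

/-- the analytic properties of a mark system, for the weights `1 / l` -/
structure MS.An (S : MS) (T : Dat) (p1 Q0 : ℕ) (η Cα : ℝ) : Prop where
  p1_pr : p1.Prime
  p1_lo : T.y0 < p1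
  p1_N : ¬ p1 ∣ T.N
  p1_W : ∀ i, p1 ∉ S.WX i ∧ p1 ∉ S.WY i
  p1_F : ∀ f, p1 ∉ S.FX f ∧ p1 ∉ S.FY f
  p1_OX : ∀ e, p1 ∉ S.OX e
  p1_OY : ∀ e, p1 ∉ S.OY e
  η_nn : 0 ≤ η
  Cα_lo : 1 ≤ Cα
  swX : ∀ f, SWc T.N T.D (fun l => 1 / (l : ℝ)) η Q0 (S.FX f)
  swY : ∀ f, SWc T.N T.D (fun l => 1 / (l : ℝ)) η Q0 (S.FY f)
  bt : ∀ i, BTc T.D (fun l => 1 / (l : ℝ)) Cα Q0 (S.WX i)
  F_lo : ∀ f, ∀ l ∈ S.FX f ∪ S.FY f, Real.exp ((Real.log T.N) ^ (1 / 5 : ℝ)) ≤ l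
  F_mass : ∀ f, 1 / (Real.log T.N) ^ 2 ≤ ∑ l ∈ S.FX f, 1 / (l : ℝ) ∧ 1 / (Real.log T.N) ^ 2 ≤ ∑ l ∈ S.FY f, 1 / (l : ℝ)
  W_mass : ∀ i, 1 / (Real.log T.N) ^ 2 ≤ ∑ l ∈ S.WX i, 1 / (l : ℝ) ∧ 1 / (Real.log T.N) ^ 2 ≤ ∑ l ∈ S.WY i, 1 / (l : ℝ)
  OX_mass : ∀ e, 1 / (Real.log T.N) ^ 2 ≤ ∑ l ∈ S.OX e, 1 / (l : ℝ)
  OY_mass : ∀ e, 1 / (Real.log T.N) ^ 2 ≤ ∑ l ∈ S.OY e, 1 / (l : ℝ)

/-! ### roots -/

/-- the roots modulo `p`: classes of `n` such that `p` divides some `t_i` (empty for the special primes) -/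
noncomputable def Msr.rts {S : MS} (M : Msr S) (T : Dat) (c : S.Col) (μ : S.TX) (ν : S.TY) (p : ℕ) : Finset ℕ := by
  classical
  exact (range p).filter fun r => p ∉ S.spec T M.v M.x0 M.t2 c μ ν ∧ S.hit T c μ ν (M.v * (M.tau μ ν * r : ℕ) + M.x0) p

/-- the exceptional primes of the large sieve -/
noncomputable def Msr.exc {S : MS} (M : Msr S) (T : Dat) (c c' : S.Col) (μ : S.TX) (ν : S.TY) : Finset ℕ := by
  classical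
  exact T.PL.filter fun p => ¬ ((M.rts T c μ ν p).card = S.k + 1 ∧ (M.rts T c' μ ν p).card = S.k + 1 ∧
    Disjoint (M.rts T c μ ν p) (M.rts T c' μ ν p))

/-- coinciding roots modulo `q` -/
def coin (T : Dat) (k q : ℕ) (x0 : ℤ) (t2 : Prop) (al be P P' : ℕ → (ZMod q)ˣ) : Prop :=
  (∃ i ≤ k, ∃ j ≤ k, Loc.Mi al be P i * Loc.Sg (k + 1) al be P' = Loc.Mi al be P' j * Loc.Sg (k + 1) al be P) ∨
  (t2 ∧ x0 ≠ 0 ∧ ((∃ i ≤ k, Loc.Ti (k + 1) al be P ((T.D : ZMod q) * T.N) ((x0 : ZMod q) - T.D * T.N) i = 0) ∨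
    ∃ i ≤ k, Loc.Ti (k + 1) al be P' ((T.D : ZMod q) * T.N) ((x0 : ZMod q) - T.D * T.N) i = 0))

/-- coinciding roots of two colourings modulo `p1` -/
def Msr.co {S : MS} (M : Msr S) (T : Dat) (p1 : ℕ) (c c' : S.Col) (μ : S.TX) (ν : S.TY) : Prop :=
  coin T S.k (p1 ^ (padicValNat p1 T.D + 1)) M.x0 M.t2 (aq _ μ.1) (aq _ ν.1) (S.pq T.N _ c μ ν) (S.pq T.N _ c' μ ν)

/-- `c'` is a function of `c` -/
def Fun {k : ℕ} {E : Type*} (c c' : E → Fin (k + 1)) : Prop := ∃ ψ : Fin (k + 1) → Fin (k + 1), c' = ψ ∘ c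

/-! ### averages -/

/-- the average of `G (X)` over the classes of `n` modulo `q` -/
noncomputable def Msr.ax {S : MS} (M : Msr S) (q : ℕ) (G : ℤ → ℝ) : ℝ := by
  classical
  exact ∑ r ∈ (range q).filter (fun r => M.t2 → r.Coprime q), M.gq q * G (M.xr r)

/-- the proportion of the residues of the free primes with the conditions at `p` for two colourings -/
noncomputable def lav2 (T : Dat) {k : ℕ} {E : Type*} [Fintype E] (p yn : ℕ) (B B' : Prop) (c c' : E → Fin (k + 1)) (α : Fin (k + 1) → HP T.D p)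
    (y y' : Fin k → HP T.D p) (be : ℕ → HP T.D p) : ℝ :=
  av fun s : E → HP T.D p => ind (cb T k p yn B (Loc.ex (k + 1) α) be (pj c α y s)) * ind (cb T k p yn B' (Loc.ex (k + 1) α) be (pj c' α y' s))

/-- `lav2` for a pair of tuples -/
noncomputable def MS.l2 (S : MS) (T : Dat) (c c' : S.Col) (μ : S.TX) (ν : S.TY) (X : ℤ) (B B' : Prop) (p : ℕ) : ℝ :=
  lav2 T p (ycl T p X) B B' c c' (rs _ μ.1) (S.yy T.N _ c μ ν) (S.yy T.N _ c' μ ν) (aq _ ν.1)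

/-- the proportion of the residues of the free primes with coinciding roots modulo `p1` -/
noncomputable def Msr.lco {S : MS} (M : Msr S) (T : Dat) (p1 : ℕ) (c c' : S.Col) (μ : S.TX) (ν : S.TY) : ℝ :=
  av fun s : FE S.n0 → HP T.D p1 => ind (coin T S.k (p1 ^ (padicValNat p1 T.D + 1)) M.x0 M.t2 (aq _ μ.1) (aq _ ν.1)
    (pj c (rs _ μ.1) (S.yy T.N _ c μ ν) s) (pj c' (rs _ μ.1) (S.yy T.N _ c' μ ν) s))

/-- two tuples of `X` with the same key: same `α`, same cells of the free primes, same other marks -/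
def MS.sX (S : MS) (N : ℕ) (μ μ' : S.TX) : Prop := μ.1 = μ'.1 ∧ (∀ f, cell N (μ.2.1 f) = cell N (μ'.2.1 f)) ∧ μ.2.2 = μ'.2.2

/-- the same for `Y` -/
def MS.sY (S : MS) (N : ℕ) (ν ν' : S.TY) : Prop := ν.1 = ν'.1 ∧ (∀ f, cell N (ν.2.1 f) = cell N (ν'.2.1 f)) ∧ ν.2.2 = ν'.2.2

/-- the subsets `d` of the small sieve which occur -/
noncomputable def Dat.DS (T : Dat) (b1 : ℕ) : Finset (Finset ℕ) := T.PS.powerset.filter fun d => ∏ p ∈ d, p ≤ T.y0 ^ (12 * b1)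

/-- good pairs of tuples -/
def Msr.gp {S : MS} (M : Msr S) (T : Dat) (μ : S.TX) (ν : S.TY) : Prop := M.adm μ ν ∧ ¬ S.badpair T 0 T.y0 μ ν

/-- the sum over `c` of the sieve weights -/
noncomputable def Msr.RR {S : MS} (M : Msr S) (T : Dat) (b1 b2 : ℕ) (μ : S.TX) (ν : S.TY) (X : ℤ) : ℝ := ∑ c ∈ S.CC, M.w T b1 b2 c μ ν X

noncomputable def Msr.RR1 {S : MS} (M : Msr S) (T : Dat) (b1 b2 : ℕ) (μ : S.TX) (ν : S.TY) (X : ℤ) : ℝ := ∑ c ∈ S.CC, M.w1 T b1 b2 c μ ν X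

/-- the product of the local factors `1 + 3 m g(p)` of the large sieve -/
noncomputable def Msr.V3 {S : MS} (M : Msr S) (T : Dat) : ℝ := ∏ p ∈ T.PL, (1 + 3 * (((S.k + 1 : ℕ) : ℝ) * M.g p))

end Pool.Agent.Lib.TC
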