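import Mathlib

/-!
# T07: greedy subset sums

`s_0 ≤ g`, `s_{k+1} ≤ g + s_0 + .. + s_k`. Every `T` in `[0, s_0 + .. + s_{n-1}]` is `≤` some subset sum `≤ T + g`.
Induction on `n`. `n = 0`: `T = 0`, empty set (`g ≥ 0`). Step `n → n+1` (elements `s_0..s_n`): if `T ≤ ∑_{j<n} s_j`: induction. Otherwise
`T > ∑_{j<n} s_j`. If `T ≥ s_n` apply the induction hypothesis to `T - s_n ∈ [0, ∑_{j<n} s_j]` and add `n` to the set. If `T < s_n`:
`s_n ≤ g + ∑_{j<n} s_j < g + T` (for `n = 0`: `s_0 ≤ g ≤ g + T`): take `S = {n}`.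
-/

set_option autoImplicit false

open Finset

namespace Pool.Agent.Lib.TC

theorem T07 {s : ℕ → ℝ} {g : ℝ} (hg : 0 ≤ g) (n : ℕ) (h0 : ∀ k < n, 0 ≤ s k) (h : ∀ k < n, s k ≤ g + ∑ j ∈ range k, s j)
    {T : ℝ} (hT0 : 0 ≤ T) (hT : T ≤ ∑ j ∈ range n, s j) :
    ∃ S ⊆ range n, T ≤ ∑ j ∈ S, s j ∧ ∑ j ∈ S, s j ≤ T + g := by
  induction n generalizing T with
  | zero =>
    refine ⟨∅, by simp, ?_, ?_⟩
    · simpa using hT
    · simp only [sum_empty]; linarith
  | succ n ih =>
    have h0' : ∀ k < n, 0 ≤ s k := fun k hk => h0 k (Nat.lt_succ_of_lt hk)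
    have h' : ∀ k < n, s k ≤ g + ∑ j ∈ range k, s j := fun k hk => h k (Nat.lt_succ_of_lt hk)
    rw [sum_range_succ] at hT
    have hn := h n (Nat.lt_succ_self n)
    by_cases h1 : T ≤ ∑ j ∈ range n, s j
    · obtain ⟨S, hS, h2, h3⟩ := ih h0' h' hT0 h1
      exact ⟨S, hS.trans (range_subset_range.mpr (Nat.le_succ n)), h2, h3⟩
    · by_cases h4 : s n ≤ T
      · obtain ⟨S, hS, h2, h3⟩ := ih h0' h' (T := T - s n) (by linarith) (by linarith)
        have hnS : n ∉ S := fun hh => by simpa using hS hh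
        refine ⟨insert n S, ?_, ?_, ?_⟩
        · intro x hx
          rcases mem_insert.mp hx with rfl | hx
          · exact self_mem_range_succ _
          · exact mem_range.mpr (Nat.lt_succ_of_lt (mem_range.mp (hS hx)))
        · rw [sum_insert hnS]; linarith
        · rw [sum_insert hnS]; linarith
      · push Not at h1 h4
        refine ⟨{n}, by simp, ?_, ?_⟩
        · rw [sum_singleton]; exact h4.le
        · rw [sum_singleton]; linarith

end Pool.Agent.Lib.TC
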