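import Pool.Agent.Lib.MP_7b7e48_nt.TC.QN6
import Pool.Agent.Lib.MP_7b7e48_nt.BR.D0

/-!
# QF: the pair theorem in the form of the bridge (`PLem`)

`PLem S T W0 y1 δ0 δ1 δ2 ε`: for every measure `M` with `M.OK T W0 δ0 δ1`: `Wbad M T W0 y1 ≤ ε tot + N^(-δ2) W`. For every `M` apply `PAIR` with `pb = y1`; the filter of `Wbad` implies `Cd` (`CR T W0 X`: `X` coprime to `W0 N`, free of primes `≤ y`).
-/

set_option autoImplicit false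

open Finset

namespace Pool.Agent.Lib.TC

/-- the hypotheses on the mark system and the data (without the measure), with exponents -/
structure PD (k B CD Cp Cf A B' W1 : ℕ) (Cα δ1 δz : ℝ) (S : MS) (T : Dat) (W0 : ℕ) (Z : Fin (S.k + 1) → ℕ) (p1 Q0 y1 : ℕ) (η : ℝ) : Prop where
  hT : T.OK W0
  hS : S.OK T W0 Z
  hA : S.An T p1 Q0 η Cα
  hk : S.k = k
  hW : W0 ≤ W1
  hD : (T.D : ℝ) ≤ (Real.log T.N) ^ CD
  hy1 : (Real.log T.N) ^ (Cp - 1) ≤ T.y0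
  hy2 : (T.y0 : ℝ) ≤ (Real.log T.N) ^ Cp
  hz1 : Real.exp (Real.log T.N / (Real.log (Real.log T.N)) ^ 2) ≤ T.z
  hz2 : (T.z : ℝ) ≤ (T.N : ℝ) ^ δz
  hp2 : (p1 : ℝ) ≤ (Real.log T.N) ^ (2 * Cp + 3)
  hQ : (Real.log T.N) ^ A ≤ Q0
  hη : η ≤ 1 / (Real.log T.N) ^ B'
  hC1 : T.D * (Real.log T.N) ^ (5 * (k + 1) + B + 10) ≤ S.CC.card
  hC2 : ((k + 1 : ℕ) : ℝ) ^ (2 * S.n0) ≤ 2 * S.CC.card
  hC3 : 4 ^ k * ((k * (k + 1) : ℕ) : ℝ) ^ (2 * S.n0) * (Real.log T.N) ^ (B + 10) ≤ (S.CC.card : ℝ) ^ 2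
  hcard : (S.MX.card : ℝ) * S.MY.card ≤ (T.N : ℝ) ^ (δ1 / 8)
  hrX : 1 / (Real.log T.N) ^ Cf ≤ ∑ μ ∈ S.MX, S.prX (fun l => 1 / (l : ℝ)) μ
  hrY : 1 / (Real.log T.N) ^ Cf ≤ ∑ ν ∈ S.MY, S.prY (fun l => 1 / (l : ℝ)) ν
  hpb : Real.log T.N ≤ y1

/-- **the pair lemma** for the frame -/
theorem pair_lem (k B CD Cp Cf W1 : ℕ) (Cα δ0 δ1 δ2 : ℝ) (hk : 4 * (B + 12) ≤ k + 1) (hCp : CD + 12 * (k + 1) + B + 21 ≤ Cp) (hα : 1 ≤ Cα)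
    (h0 : 0 < δ0) (h1 : 0 < δ1) (h11 : δ1 ≤ 1) :
    ∃ (A B' : ℕ) (δz : ℝ), 0 < δz ∧ ∃ N0 : ℕ, ∀ (S : MS) (T : Dat) (W0 : ℕ) (Z : Fin (S.k + 1) → ℕ) (p1 Q0 y1 : ℕ) (η : ℝ),
      PD k B CD Cp Cf A B' W1 Cα δ1 δz S T W0 Z p1 Q0 y1 η → N0 ≤ T.N → TCB.PLem S T W0 y1 δ0 δ1 δ2 (1 / (Real.log T.N) ^ B) := by
  obtain ⟨b1, hb1, hf1⟩ : ∃ b : ℕ, 1 ≤ b ∧ flK (8 * ((k + 1 : ℕ) : ℝ)) * (1 / 2) ^ b ≤ 1 / 2 := by
    have h := (tendsto_pow_atTop_nhds_zero_of_lt_one (by norm_num : (0 : ℝ) ≤ 1 / 2) (by norm_num)).const_mul (flK (8 * ((k + 1 : ℕ) : ℝ)))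
    rw [mul_zero] at h
    obtain ⟨b, hb⟩ := Filter.eventually_atTop.1 (h.eventually (gt_mem_nhds (by norm_num : (0 : ℝ) < 1 / 2)))
    exact ⟨max b 1, le_max_right _ _, (hb _ (le_max_left _ _)).le⟩
  obtain ⟨b2, hb2, hf2⟩ : ∃ b : ℕ, 1 ≤ b ∧ flK (2 * ((k + 1 : ℕ) : ℝ)) * (1 / 2) ^ b ≤ 1 / 20 := by
    have h := (tendsto_pow_atTop_nhds_zero_of_lt_one (by norm_num : (0 : ℝ) ≤ 1 / 2) (by norm_num)).const_mul (flK (2 * ((k + 1 : ℕ) : ℝ)))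
    rw [mul_zero] at h
    obtain ⟨b, hb⟩ := Filter.eventually_atTop.1 (h.eventually (gt_mem_nhds (by norm_num : (0 : ℝ) < 1 / 20)))
    exact ⟨max b 1, le_max_right _ _, (hb _ (le_max_left _ _)).le⟩
  have hb2' : (0 : ℝ) < b2 := by exact_mod_cast hb2
  have hCp1 : Cp - 1 + 1 = Cp := by omega
  let c : PC := PC.mk k B CD (Cp - 1) Cf b1 b2 W1 (2 * CD + 24 * b1 * (Cp - 1 + 1) + 2 * (Cp - 1) + 10)
    (2 * CD + 24 * b1 * (Cp - 1 + 1) + B + 20) Cα δ0 δ1 (min δ0 δ1 / (800 * b2))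
  have hm : 0 < min δ0 δ1 := lt_min h0 h1
  have hc : c.OK := by
    refine ⟨hk, ?_, le_rfl, le_rfl, hb1, hb2, hf1, hf2, hα, h0, h1, h11, ?_, ?_, ?_⟩
    · show CD + 12 * (k + 1) + B + 20 ≤ Cp - 1
      omega
    · show 0 < min δ0 δ1 / (800 * b2)
      positivity
    · show 50 * (b2 : ℝ) * (min δ0 δ1 / (800 * b2)) ≤ δ0
      have : 50 * (b2 : ℝ) * (min δ0 δ1 / (800 * b2)) = min δ0 δ1 / 16 := by field_simp; ring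
      rw [this]
      linarith [min_le_left δ0 δ1]
    · show 800 * (b2 : ℝ) * (min δ0 δ1 / (800 * b2)) ≤ δ1
      have : 800 * (b2 : ℝ) * (min δ0 δ1 / (800 * b2)) = min δ0 δ1 := by field_simp
      rw [this]
      exact min_le_right _ _
  obtain ⟨N0, hN0⟩ := PAIR c hc
  refine ⟨c.A, c.Cη, c.ζ, hc.ζp, N0, fun S T W0 Z p1 Q0 y1 η h hN M hM => ?_⟩
  have hPH : PH c S T M W0 Z p1 Q0 y1 η := by
    refine ⟨h.hT, h.hS, h.hA, hM, h.hk, h.hW, h.hD, h.hy1, ?_, h.hz1, h.hz2, ?_, h.hQ, h.hη, h.hC1, h.hC2, h.hC3, h.hcard, h.hrX, h.hrY, h.hpb⟩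
    · show (T.y0 : ℝ) ≤ (Real.log T.N) ^ (Cp - 1 + 1)
      rw [hCp1]
      exact h.hy2
    · show (p1 : ℝ) ≤ (Real.log T.N) ^ (2 * (Cp - 1) + 5)
      have : 2 * (Cp - 1) + 5 = 2 * Cp + 3 := by omega
      rw [this]
      exact h.hp2
  have hP := hN0 S T M W0 Z p1 Q0 y1 η hPH hN
  have hle : TCB.Wbad M T W0 y1 ≤ ∑ μ ∈ S.MX, ∑ ν ∈ S.MY, ind (¬ S.badpair T 0 y1 μ ν) * ∑ n ∈ range (M.nm + 1), M.Om μ ν n *
      (ind (M.Cd T μ ν n) * ind (¬ S.Linked T μ ν (M.X μ ν n))) := by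
    unfold TCB.Wbad
    refine sum_le_sum fun μ _ => sum_le_sum fun ν _ => ?_
    rw [mul_sum, sum_filter]
    refine sum_le_sum fun n _ => ?_
    split_ifs with hf
    · obtain ⟨h1', h2', h3', h4'⟩ := hf
      have hCd : M.Cd T μ ν n := by
        refine ⟨Nat.Coprime.coprime_mul_left_right h3'.1, fun p hp hpy => ⟨fun hd => ?_, fun hd => ?_⟩⟩
        · exact absurd (h3'.2 p hp hd) (by omega)
        · exact absurd (h4'.2 p hp hd) (by omega)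
      rw [ind_true h1', ind_true hCd, ind_true h2']
      simp
    · exact mul_nonneg (ind_nonneg _) (mul_nonneg (hM.Om_nonneg _ _ _) (mul_nonneg (ind_nonneg _) (ind_nonneg _)))
  have hpos : 0 ≤ (T.N : ℝ) ^ (-δ2) * M.W := mul_nonneg (Real.rpow_nonneg (Nat.cast_nonneg _) _) hM.W_pos.le
  calc TCB.Wbad M T W0 y1 ≤ _ := hle
    _ ≤ M.tot / (Real.log T.N) ^ B := hP
    _ = 1 / (Real.log T.N) ^ B * M.tot := by ring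
    _ ≤ _ := by linarith

end Pool.Agent.Lib.TC
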