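import Pool.Agent.Lib.MP_7b7e48_nt.TC.T09
import Pool.Agent.Lib.MP_7b7e48_nt.TC.T10

/-!
# U09: colourings
-/

set_option autoImplicit false

open Finset

namespace Pool.Agent.Lib.TC

theorem U09_cc (k : ℕ) {E : Type*} [Fintype E] [DecidableEq E] :
    open Classical in ((univ : Finset (E → Fin (k + 1))).filter fun c => ¬ ∀ j : Fin k, ∃ e, c e = j.castSucc).card ≤
      k * k ^ Fintype.card E := by
  classical
  have h1 : ((univ : Finset (E → Fin (k + 1))).filter fun c => ¬ ∀ j : Fin k, ∃ e, c e = j.castSucc) ⊆
      (univ : Finset (Fin k)).biUnion fun j =>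
        Fintype.piFinset fun _ : E => (univ : Finset (Fin (k + 1))).erase j.castSucc := by
    intro c hc
    rw [mem_filter] at hc
    obtain ⟨_, hc⟩ := hc
    push Not at hc
    obtain ⟨j, hj⟩ := hc
    rw [mem_biUnion]
    refine ⟨j, mem_univ _, ?_⟩
    rw [Fintype.mem_piFinset]
    intro e
    rw [mem_erase]
    exact ⟨hj e, mem_univ _⟩
  have h2 : ∀ j : Fin k, (Fintype.piFinset fun _ : E => (univ : Finset (Fin (k + 1))).erase j.castSucc).card =
      k ^ Fintype.card E := by
    intro j
    rw [Fintype.card_piFinset, prod_const, card_erase_of_mem (mem_univ _), card_univ, card_univ, Fintype.card_fin,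
      Nat.add_sub_cancel]
  calc ((univ : Finset (E → Fin (k + 1))).filter fun c => ¬ ∀ j : Fin k, ∃ e, c e = j.castSucc).card
      ≤ ((univ : Finset (Fin k)).biUnion fun j =>
        Fintype.piFinset fun _ : E => (univ : Finset (Fin (k + 1))).erase j.castSucc).card := by
        refine le_trans (le_of_eq ?_) (card_le_card h1)
        congr 1
    _ ≤ ∑ j : Fin k, (Fintype.piFinset fun _ : E => (univ : Finset (Fin (k + 1))).erase j.castSucc).card :=
        card_biUnion_le
    _ = k * k ^ Fintype.card E := by
        rw [sum_congr rfl fun j _ => h2 j, sum_const, card_univ, Fintype.card_fin, smul_eq_mul]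

theorem U09_conn {k : ℕ} (hk : 2 ≤ k) {E : Type*} {c c' : E → Fin (k + 1)} (h : Conn k c c') :
    ¬ ∃ ψ : Fin (k + 1) → Fin (k + 1), c' = ψ ∘ c := by
  classical
  rintro ⟨ψ, hψ⟩
  obtain ⟨r, hr⟩ : ∃ r : Fin k, r.castSucc ≠ ψ (Fin.last k) := by
    by_cases h0 : (⟨0, by omega⟩ : Fin k).castSucc = ψ (Fin.last k)
    · refine ⟨⟨1, by omega⟩, fun h1 => ?_⟩
      have h2 := h0.trans h1.symm
      have h3 := congrArg Fin.val h2
      simp at h3
    · exact ⟨⟨0, by omega⟩, h0⟩
  set U : Finset (Option (Fin k ⊕ Fin k)) := insert (some (Sum.inr r))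
    ((univ.filter fun j : Fin k => ψ j.castSucc = r.castSucc).image fun j => some (Sum.inl j)) with hU
  have hmem : ∀ z, z ∈ U ↔ z = some (Sum.inr r) ∨ ∃ j : Fin k, ψ j.castSucc = r.castSucc ∧
      some (Sum.inl j) = z := by
    intro z
    rw [hU, mem_insert, mem_image]
    simp only [mem_filter, mem_univ, true_and]
  obtain ⟨e, he⟩ := h U ⟨some (Sum.inr r), (hmem _).2 (Or.inl rfl)⟩ (by
    rw [hmem]
    rintro (h1 | ⟨j, _, h1⟩)
    · exact absurd h1 (by simp)
    · exact absurd h1 (by simp))
  have hc' : c' e = ψ (c e) := by rw [hψ]; rfl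
  rcases he with ⟨h1, h2⟩ | ⟨h1, h2⟩
  · -- left end in `U`
    rw [hmem] at h1
    unfold vL at h1
    by_cases hlt : (c e).val < k
    · rw [dif_pos hlt] at h1
      rcases h1 with h1 | ⟨j, hj, h1⟩
      · simp at h1
      · have h3 : j = ⟨(c e).val, hlt⟩ := Sum.inl.inj (Option.some.inj h1)
        have h4 : j.castSucc = c e := by rw [h3]; rfl
        rw [h4, ← hc'] at hj
        apply h2
        rw [hmem]
        left
        unfold vR
        have h5 : (c' e).val = r.val := by rw [hj]; rfl
        rw [dif_pos (by rw [h5]; exact r.2)]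
        congr 2
        exact Fin.ext h5
    · rw [dif_neg hlt] at h1
      rcases h1 with h1 | ⟨j, _, h1⟩
      · simp at h1
      · simp at h1
  · rw [hmem] at h2
    unfold vR at h2
    by_cases hlt : (c' e).val < k
    · rw [dif_pos hlt] at h2
      rcases h2 with h2 | ⟨j, _, h2⟩
      · have h3 : (⟨(c' e).val, hlt⟩ : Fin k) = r := Sum.inr.inj (Option.some.inj h2)
        have h4 : c' e = r.castSucc := by rw [← h3]; rfl
        apply h1
        rw [hmem]
        right
        have h5 : (c e).val < k := by
          by_contra hcon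
          have h6 : c e = Fin.last k := by
            apply Fin.ext
            have := (c e).2
            simp only [Fin.val_last]
            omega
          apply hr
          rw [← h4, hc', h6]
        refine ⟨⟨(c e).val, h5⟩, ?_, ?_⟩
        · have h7 : (⟨(c e).val, h5⟩ : Fin k).castSucc = c e := rfl
          rw [h7, ← hc', h4]
        · unfold vL
          rw [dif_pos h5]
      · simp at h2
    · rw [dif_neg hlt] at h2
      rcases h2 with h2 | ⟨j, _, h2⟩
      · simp at h2
      · simp at h2

end Pool.Agent.Lib.TC
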