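import Pool.Agent.Lib.MP_7b7e48_nt.TC.S7B4

/-!
# S7D1: the integer vectors of a pair of tuples

`μ ∈ MX`, `ν ∈ MY`, `cop μ ν`. All marks are primes `> y0`; the marks of `μ` are distinct (`ix`), those of `ν` too (`iy`), and no prime occurs in both.
For `i < k`, `AA i` is the product of the non-window marks of `X` of colour `i` (PDefs: `fX id * oX id`), `BB i` the same for `Y`; they do not depend on the
windows (`kX`, `kY` use only `μ.2`, `ν.2`).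
* `SI_eq`: `Sm_cast` (`β_i ≤ 2 Z i < 3 Z i < α_i`) and `SmR_congr` (only `A_l`, `B_l` with `l < k` occur).
-/

set_option autoImplicit false

open Finset

namespace Pool.Agent.Lib.TC

variable {S : MS} {T : Dat} {Z : ℕ → ℕ} {hX hY : ℕ → ℝ} {V : ℝ}

theorem AI_inv (c : S.Col) {μ μ' : S.TX} {ν ν' : S.TY} (h : μ.2 = μ'.2) (h' : ν.2 = ν'.2) : S.AI T.N c μ ν = S.AI T.N c μ' ν' := by
  obtain ⟨μ1, μ2⟩ := μ
  obtain ⟨μ1', μ2'⟩ := μ'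
  obtain ⟨ν1, ν2⟩ := ν
  obtain ⟨ν1', ν2'⟩ := ν'
  obtain rfl : μ2 = μ2' := h
  obtain rfl : ν2 = ν2' := h'
  funext i
  rw [MS.AI, MS.AI]
  by_cases hi : i < S.k
  · rw [if_pos hi, if_pos hi, MS.AA, MS.AA, if_pos hi, if_pos hi]
    rfl
  · rw [if_neg hi, if_neg hi]

theorem BI_inv (c : S.Col) {μ μ' : S.TX} {ν ν' : S.TY} (h : μ.2 = μ'.2) (h' : ν.2 = ν'.2) : S.BI T.N c μ ν = S.BI T.N c μ' ν' := by
  obtain ⟨μ1, μ2⟩ := μ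
  obtain ⟨μ1', μ2'⟩ := μ'
  obtain ⟨ν1, ν2⟩ := ν
  obtain ⟨ν1', ν2'⟩ := ν'
  obtain rfl : μ2 = μ2' := h
  obtain rfl : ν2 = ν2' := h'
  funext i
  rw [MS.BI, MS.BI]
  by_cases hi : i < S.k
  · rw [if_pos hi, if_pos hi, MS.BB, MS.BB, if_pos hi, if_pos hi]
    rfl
  · rw [if_neg hi, if_neg hi]

theorem lX_inv (c : S.Col) {μ μ' : S.TX} {ν ν' : S.TY} (h : μ.2 = μ'.2) (h' : ν.2 = ν'.2) : S.lX T.N c μ ν = S.lX T.N c μ' ν' := by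
  obtain ⟨μ1, μ2⟩ := μ
  obtain ⟨μ1', μ2'⟩ := μ'
  obtain ⟨ν1, ν2⟩ := ν
  obtain ⟨ν1', ν2'⟩ := ν'
  obtain rfl : μ2 = μ2' := h
  obtain rfl : ν2 = ν2' := h'
  rfl

theorem lY_inv (c : S.Col) {μ μ' : S.TX} {ν ν' : S.TY} (h : μ.2 = μ'.2) (h' : ν.2 = ν'.2) : S.lY T.N c μ ν = S.lY T.N c μ' ν' := by
  obtain ⟨μ1, μ2⟩ := μ
  obtain ⟨μ1', μ2'⟩ := μ'
  obtain ⟨ν1, ν2⟩ := ν
  obtain ⟨ν1', ν2'⟩ := ν'
  obtain rfl : μ2 = μ2' := h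
  obtain rfl : ν2 = ν2' := h'
  rfl

private theorem S7D1_X {μ : S.TX} (hμ : μ ∈ S.MX) :
    (∀ i, μ.1 i ∈ S.WX i) ∧ (∀ f, μ.2.1 f ∈ S.FX f) ∧ ∀ e, μ.2.2 e ∈ S.OX e := by
  rw [MS.MX, mem_product, mem_product, Fintype.mem_piFinset, Fintype.mem_piFinset, Fintype.mem_piFinset] at hμ
  exact ⟨hμ.1, hμ.2.1, hμ.2.2⟩

private theorem S7D1_Y {ν : S.TY} (hν : ν ∈ S.MY) :
    (∀ i, ν.1 i ∈ S.WY i) ∧ (∀ f, ν.2.1 f ∈ S.FY f) ∧ ∀ e, ν.2.2 e ∈ S.OY e := by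
  rw [MS.MY, mem_product, mem_product, Fintype.mem_piFinset, Fintype.mem_piFinset, Fintype.mem_piFinset] at hν
  exact ⟨hν.1, hν.2.1, hν.2.2⟩

private theorem S7D1_lt (hG : S.Geo T Z hX hY V) {μ : S.TX} {ν : S.TY} (hμ : μ ∈ S.MX) (hν : ν ∈ S.MY) :
    ∀ i < S.k + 1, ext1 ν.1 i < ext1 μ.1 i := by
  intro i hi
  rw [ext1, ext1, dif_pos hi, dif_pos hi]
  have h1 := hG.wx _ _ ((S7D1_X hμ).1 ⟨i, hi⟩)
  have h2 := hG.wy _ _ ((S7D1_Y hν).1 ⟨i, hi⟩)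
  have h3 := h1.2.1
  have h4 := h2.2.2.1
  omega

theorem SI_eq (hG : S.Geo T Z hX hY V) (c : S.Col) {μ : S.TX} {ν : S.TY} (hμ : μ ∈ S.MX) (hν : ν ∈ S.MY) :
    ((S.SI T.N c μ ν : ℕ) : ℤ) = SmR (S.AI T.N c μ ν) (S.BI T.N c μ ν) (aI μ.1) (aI ν.1) (S.k + 1) := by
  rw [MS.SI, Sm_cast fun i hi => (S7D1_lt hG hμ hν i hi).le]
  apply SmR_congr
  · intro l hl
    rw [MS.AI, if_pos (by omega)]
  · intro l hl
    rw [MS.BI, if_pos (by omega)]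
  · intro l _
    rfl
  · intro l _
    rfl

/-- all the integer vectors are positive, and `β_i < α_i` -/
theorem vec_pos (hG : S.Geo T Z hX hY V) (c : S.Col) {μ : S.TX} {ν : S.TY} (hμ : μ ∈ S.MX) (hν : ν ∈ S.MY) :
    (∀ i, 0 < S.AI T.N c μ ν i) ∧ (∀ i, 0 < S.BI T.N c μ ν i) ∧ (∀ i, 0 < aI μ.1 i) ∧ (∀ i, 0 < aI ν.1 i) ∧
      ∀ i < S.k + 1, aI ν.1 i < aI μ.1 i := by
  refine ⟨?_, ?_, ?_, ?_, ?_⟩
  · intro i
    rw [MS.AI]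
    by_cases hi : i < S.k
    · rw [if_pos hi, MS.AA, if_pos hi, Nat.cast_pos]
      apply Nat.mul_pos
      · exact prod_pos fun f _ => (hG.fx f _ ((S7D1_X hμ).2.1 f)).1.pos
      · exact prod_pos fun e _ => (hG.ox e _ ((S7D1_X hμ).2.2 e)).1.pos
    · rw [if_neg hi]
      exact one_pos
  · intro i
    rw [MS.BI]
    by_cases hi : i < S.k
    · rw [if_pos hi, MS.BB, if_pos hi, Nat.cast_pos]
      apply Nat.mul_pos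
      · exact prod_pos fun f _ => (hG.fy f _ ((S7D1_Y hν).2.1 f)).1.pos
      · exact prod_pos fun e _ => (hG.oy e _ ((S7D1_Y hν).2.2 e)).1.pos
    · rw [if_neg hi]
      exact one_pos
  · intro i
    rw [aI, ext1, Nat.cast_pos]
    split_ifs with hi
    · exact (hG.wx _ _ ((S7D1_X hμ).1 ⟨i, hi⟩)).1.pos
    · exact one_pos
  · intro i
    rw [aI, ext1, Nat.cast_pos]
    split_ifs with hi
    · exact (hG.wy _ _ ((S7D1_Y hν).1 ⟨i, hi⟩)).1.pos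
    · exact one_pos
  · intro i hi
    rw [aI, aI, Nat.cast_lt]
    exact S7D1_lt hG hμ hν i hi

end Pool.Agent.Lib.TC
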