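import Pool.Agent.Lib.MP_7b7e48_nt.TC.U01

/-!
# U02: divisibility by `p` modulo `p^(a+1)`

`D = p^a u`, `p ∤ u`. For a natural number `z` and a unit `w` of `ZMod (p^(a+1))`: `D (w z) = 0` in `ZMod (p^(a+1))` iff `p^(a+1) ∣ D z` iff `p ∣ z`
(`U02_iff`; `w` can be cancelled; then `ZMod.natCast_eq_zero_iff`, `Nat.pow_dvd_pow_iff`-type argument: `p^(a+1) ∣ p^a u z ↔ p ∣ u z ↔ p ∣ z`). Apply it to `U01` with `R = ZMod (p^(a+1))`.
`U02_n`: `D (e B) = n D` in `ZMod (p^(a+1))` iff `e B = n` in `ZMod p` (`D (e B - n) = 0`, with integers).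
-/

set_option autoImplicit false

open Finset
open Pool.Agent.Lib.TC.Loc

namespace Pool.Agent.Lib.TC

theorem U02_iff {p a u D : ℕ} (hp : p.Prime) (hD : D = p ^ a * u) (hu : ¬ p ∣ u) (w : (ZMod (p ^ (a + 1)))ˣ) (z : ℤ) :
    (D : ZMod (p ^ (a + 1))) * ((w : ZMod (p ^ (a + 1))) * (z : ZMod (p ^ (a + 1)))) = 0 ↔ (p : ℤ) ∣ z := by
  have h1 : (D : ZMod (p ^ (a + 1))) * ((w : ZMod (p ^ (a + 1))) * (z : ZMod (p ^ (a + 1)))) =
      (w : ZMod (p ^ (a + 1))) * (((D * z : ℤ)) : ZMod (p ^ (a + 1))) := by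
    push_cast
    ring
  rw [h1, Units.mul_right_eq_zero, ZMod.intCast_zmod_eq_zero_iff_dvd, hD]
  push_cast
  have hp0 : (p : ℤ) ^ a ≠ 0 := pow_ne_zero _ (by exact_mod_cast hp.ne_zero)
  rw [pow_succ, mul_assoc, mul_dvd_mul_iff_left hp0]
  have hpi : Prime (p : ℤ) := Nat.prime_iff_prime_int.1 hp
  constructor
  · intro h
    rcases hpi.dvd_or_dvd h with h2 | h2
    · exact absurd (Int.natCast_dvd_natCast.1 h2) hu
    · exact h2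
  · intro h
    exact Dvd.dvd.mul_left h _


theorem U02 {p a u N m D : ℕ} (hp : p.Prime) (hD : D = p ^ a * u) (hu : ¬ p ∣ u) (hm : 1 ≤ m) {A B al be e t : ℕ → ℕ}
    (h : Cyc N m A B al be e t) (hab : ∀ i < m, be i < al i) (hS : D * e (m - 1) = Sm A B al be m)
    (α β ca cb x : ℕ → (ZMod (p ^ (a + 1)))ˣ)
    (ha : ∀ i < m, (α i : ZMod (p ^ (a + 1))) = al i) (hb : ∀ i < m, (β i : ZMod (p ^ (a + 1))) = be i)
    (hA : ∀ i < m - 1, (ca i : ZMod (p ^ (a + 1))) = A i) (hB : ∀ i < m - 1, (cb i : ZMod (p ^ (a + 1))) = B i)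
    (hx : ∀ i < m - 1, x i = α (i + 1) * ca i * (β i)⁻¹ * (cb i)⁻¹) {i : ℕ} (hi : i < m) :
    (p ∣ t i ↔ Ti m α β (pk x) ((D : ZMod (p ^ (a + 1))) * N) (∏ l ∈ range m, ((be l : ZMod (p ^ (a + 1))) * B l)) i = 0) ∧
    (p ∣ e i * A i ↔ Ei m α β (pk x) ((D : ZMod (p ^ (a + 1))) * N) (∏ l ∈ range m, ((be l : ZMod (p ^ (a + 1))) * B l)) i = 0) := by
  obtain ⟨h1, h2⟩ := U01 (R := ZMod (p ^ (a + 1))) hm h hab hS α β ca cb x ha hb hA hB hx hi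
  constructor
  · rw [← h1]
    have h3 := U02_iff hp hD hu (pk x i) ((t i : ℕ) : ℤ)
    rw [Int.cast_natCast] at h3
    rw [h3]
    exact Int.natCast_dvd_natCast.symm
  · have h3 := U02_iff hp hD hu (pk x i) ((e i * A i : ℕ) : ℤ)
    rw [Int.cast_natCast, Nat.cast_mul] at h3
    rw [← Units.mul_right_eq_zero (β i), ← h2, h3]
    exact Int.natCast_dvd_natCast.symm


theorem U02_n {p a u N m D : ℕ} (hp : p.Prime) (hD : D = p ^ a * u) (hu : ¬ p ∣ u) (hm : 1 ≤ m) {A B al be e t : ℕ → ℕ}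
    (h : Cyc N m A B al be e t) (hab : ∀ i < m, be i < al i) (hS : D * e (m - 1) = Sm A B al be m)
    (α β ca cb x : ℕ → (ZMod (p ^ (a + 1)))ˣ)
    (ha : ∀ i < m, (α i : ZMod (p ^ (a + 1))) = al i) (hb : ∀ i < m, (β i : ZMod (p ^ (a + 1))) = be i)
    (hA : ∀ i < m - 1, (ca i : ZMod (p ^ (a + 1))) = A i) (hB : ∀ i < m - 1, (cb i : ZMod (p ^ (a + 1))) = B i)
    (hx : ∀ i < m - 1, x i = α (i + 1) * ca i * (β i)⁻¹ * (cb i)⁻¹) (n : ℕ) :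
    ((e (m - 1) : ZMod p) * B (m - 1) = n) ↔
      (α 0 : ZMod (p ^ (a + 1))) * (∏ l ∈ range m, ((be l : ZMod (p ^ (a + 1))) * B l)) * Sg m α β (pk x) = (n : ZMod (p ^ (a + 1))) * D := by
  have h1 := U01_G (R := ZMod (p ^ (a + 1))) hm h hab hS α β ca cb x ha hb hA hB hx
  rw [← h1]
  have h3 := U02_iff hp hD hu (1 : (ZMod (p ^ (a + 1)))ˣ) (((e (m - 1) * B (m - 1) : ℕ) : ℤ) - (n : ℤ))
  have h4 : ((D : ZMod (p ^ (a + 1))) * ((e (m - 1) : ZMod (p ^ (a + 1))) * (B (m - 1) : ZMod (p ^ (a + 1)))) = (n : ZMod (p ^ (a + 1))) * D) ↔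
      (D : ZMod (p ^ (a + 1))) * (((1 : (ZMod (p ^ (a + 1)))ˣ) : ZMod (p ^ (a + 1))) *
        (((((e (m - 1) * B (m - 1) : ℕ) : ℤ) - (n : ℤ) : ℤ)) : ZMod (p ^ (a + 1)))) = 0 := by
    push_cast
    rw [one_mul, mul_sub, sub_eq_zero, mul_comm (n : ZMod (p ^ (a + 1)))]
  rw [h4, h3, ← ZMod.intCast_zmod_eq_zero_iff_dvd]
  push_cast
  rw [sub_eq_zero]


end Pool.Agent.Lib.TC
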