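import Pool.Agent.Lib.MP_7b7e48_nt.TC.Cyc

/-!
# U03: the small primes (3.1)

Modulo `p`: `al i = be i = 1` (`i < m`), `A i = B i` (`i < m - 1`), `e_{m-1} B_{m-1} = c`. Then `t_i = N - c`, `e_i A_i = c`, `e_i B_i = c` for all `i < m`.
Induction on `i`: `t_0 = N - e_{m-1} B_{m-1} = N - c` (`h.F (m-1)`), `e_i A_i = N - t_i be_i = c` (`h.E`), for `i + 1 < m`: `e_i B_i = e_i A_i = c` and
`t_{i+1} = N - e_i B_i` (`h.F`). `U03_nd`: if `c ≠ 0` and `N ≠ c` in `ZMod p` then `p` divides none of the `e_i`, `t_i`.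
-/

set_option autoImplicit false

open Finset

namespace Pool.Agent.Lib.TC

theorem U03 {p N m : ℕ} (hm : 1 ≤ m) {A B al be e t : ℕ → ℕ} (h : Cyc N m A B al be e t)
    (ha : ∀ i < m, (al i : ZMod p) = 1) (hb : ∀ i < m, (be i : ZMod p) = 1) (hAB : ∀ i < m - 1, (A i : ZMod p) = B i) (c : ZMod p)
    (hc : (e (m - 1) : ZMod p) * B (m - 1) = c) {i : ℕ} (hi : i < m) :
    (t i : ZMod p) = N - c ∧ (e i : ZMod p) * A i = c ∧ (e i : ZMod p) * B i = c := by
  have hE : ∀ j < m, (e j : ZMod p) * A j + (t j : ZMod p) * be j = N := by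
    intro j hj
    have := congrArg (fun n : ℕ => (n : ZMod p)) (h.E j hj)
    push_cast at this
    exact this
  have hF : ∀ j < m, (e j : ZMod p) * B j + (t ((j + 1) % m) : ZMod p) * al ((j + 1) % m) = N := by
    intro j hj
    have := congrArg (fun n : ℕ => (n : ZMod p)) (h.F j hj)
    push_cast at this
    exact this
  -- from `t` to `e`
  have step : ∀ j < m, (t j : ZMod p) = N - c → (e j : ZMod p) * A j = c ∧ (e j : ZMod p) * B j = c := by
    intro j hj htj
    have h1 := hE j hj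
    rw [hb j hj, mul_one, htj] at h1
    have h2 : (e j : ZMod p) * A j = c := by linear_combination h1
    refine ⟨h2, ?_⟩
    rcases Nat.lt_or_ge j (m - 1) with h3 | h3
    · rw [← hAB j h3]
      exact h2
    · obtain rfl : j = m - 1 := by omega
      exact hc
  have key : ∀ j < m, (t j : ZMod p) = N - c := by
    intro j
    induction j with
    | zero =>
      intro h0
      have h1 := hF (m - 1) (by omega)
      rw [Nat.sub_add_cancel hm, Nat.mod_self, ha 0 h0, mul_one, hc] at h1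
      linear_combination h1
    | succ j ih =>
      intro hj
      have h1 := hF j (by omega)
      rw [Nat.mod_eq_of_lt hj, ha (j + 1) hj, mul_one, (step j (by omega) (ih (by omega))).2] at h1
      linear_combination h1
  exact ⟨key i hi, step i hi (key i hi)⟩

theorem U03_nd {p N m : ℕ} (hm : 1 ≤ m) {A B al be e t : ℕ → ℕ} (h : Cyc N m A B al be e t)
    (ha : ∀ i < m, (al i : ZMod p) = 1) (hb : ∀ i < m, (be i : ZMod p) = 1) (hAB : ∀ i < m - 1, (A i : ZMod p) = B i) (c : ZMod p)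
    (hc : (e (m - 1) : ZMod p) * B (m - 1) = c) (hc0 : c ≠ 0) (hcN : (N : ZMod p) ≠ c) {i : ℕ} (hi : i < m) :
    ¬ p ∣ e i ∧ ¬ p ∣ t i := by
  obtain ⟨h1, h2, _⟩ := U03 hm h ha hb hAB c hc hi
  constructor
  · intro hd
    rw [(ZMod.natCast_eq_zero_iff (e i) p).2 hd, zero_mul] at h2
    exact hc0 h2.symm
  · intro hd
    rw [(ZMod.natCast_eq_zero_iff (t i) p).2 hd] at h1
    exact hcN (by linear_combination -h1)

end Pool.Agent.Lib.TC
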