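import Pool.Agent.Lib.MP_7b7e48_nt.TC.KC

/-!
# K4: the primes of the small sieve

`a = v_p(D)`, `q = p^(a+1)`, `D = p^a u`. `U02` (with `α = aq q μ.1`, `β = aq q ν.1`, `ca l = toU q (AA l)`, `cb l = toU q (BB l)`, `x = xs`, `pk x = S.pq` on `≤ k`, `L5_pk`, `Sg_congr`,
`Mi_congr`): `p ∣ t_i` iff `Ti (k+1) … (D N) Y i = 0` in `ZMod q`, `p ∣ e_i A_i` iff `Ei … = 0`, `Y = ∏ β_l B_l = X - D N` (`prodB`). By `hcD` `p^a ∣ Sg`, and `yn = ycl T p X ≡ Y` modulo `p`, so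
`Y Sg = yn Sg` in `ZMod q` and `Y` may be replaced by `yn` in `Ti`, `Ei` (the partial sums in `Ei` do not contain `Y`).
`¬ bP` (with `hcD`): if `p ∣ N`: `Sg ≠ 0` in `ZMod q`, i.e. `p^(a+1) ∤ SI = D e_k` (`L5_dvd`, `b = a + 1`), i.e. `p ∤ e_k`. If `p ∤ N`: no `Ti` vanishes, and if `p ≤ y`, `p ∤ yn`, `p ∤ yn + D N` (i.e. `p ∤ Y`,
`p ∤ X`), no `Ei` vanishes.
-/

set_option autoImplicit false

open Finset

namespace Pool.Agent.Lib.TC

theorem K4 {S : MS} {T : Dat} {c : S.Col} {μ : S.TX} {ν : S.TY} {X : ℕ} {e t : ℕ → ℕ} (h : S.CF T c μ ν X e t) {p : ℕ} (hp : p.Prime)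
    (hD : T.D ≠ 0) (hX : T.D * T.N < X) (hc : S.CopM p μ ν) (hab : ∀ i, ν.1 i < μ.1 i)
    (hcD : cD T S.k p (aq _ μ.1) (aq _ ν.1) (S.pq T.N _ c μ ν))
    (hb : ¬ bP T S.k p (ycl T p X) (aq _ μ.1) (aq _ ν.1) (S.pq T.N _ c μ ν)) :
    (p ∣ T.N → ¬ p ∣ e S.k) ∧
    (¬ p ∣ T.N → (∀ i ≤ S.k, ¬ p ∣ t i) ∧
      (p ≤ T.y → ¬ p ∣ X → ¬ p ∣ X - T.D * T.N → ∀ i ≤ S.k, ¬ p ∣ e i * S.AA T.N c μ ν X i)) := by
  set a := padicValNat p T.D with ha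
  obtain ⟨u, hu⟩ : p ^ a ∣ T.D := pow_padicValNat_dvd
  have hpu : ¬ p ∣ u := by
    intro hd
    have : p ^ (a + 1) ∣ T.D := by
      rw [hu, pow_succ]
      exact Nat.mul_dvd_mul_left _ hd
    exact pow_succ_padicValNat_not_dvd (hp := Fact.mk hp) hD this
  have hcq : S.CopM (p ^ (a + 1)) μ ν :=
    ⟨fun i => ⟨Nat.Coprime.pow_right _ (hc.1 i).1, Nat.Coprime.pow_right _ (hc.1 i).2⟩,
      fun f => ⟨Nat.Coprime.pow_right _ (hc.2.1 f).1, Nat.Coprime.pow_right _ (hc.2.1 f).2⟩,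
      fun f => Nat.Coprime.pow_right _ (hc.2.2.1 f), fun f => Nat.Coprime.pow_right _ (hc.2.2.2 f)⟩
  -- the class of `Y`
  have hyn : ((ycl T p X : ℕ) : ℤ) = ((X : ℤ) - T.D * T.N) % p := by
    unfold ycl
    exact Int.toNat_of_nonneg (Int.emod_nonneg _ (by exact_mod_cast hp.ne_zero))
  have hyn2 : (p : ℤ) ∣ ((X : ℤ) - T.D * T.N) - (ycl T p X : ℕ) := by
    rw [hyn]
    exact Int.dvd_self_sub_emod
  have hYS : ((X : ZMod (p ^ (a + 1))) - (T.D : ZMod (p ^ (a + 1))) * (T.N : ZMod (p ^ (a + 1)))) *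
      Loc.Sg (S.k + 1) (aq (p ^ (a + 1)) μ.1) (aq (p ^ (a + 1)) ν.1) (S.pq T.N (p ^ (a + 1)) c μ ν) =
      (ycl T p X : ZMod (p ^ (a + 1))) * Loc.Sg (S.k + 1) (aq (p ^ (a + 1)) μ.1) (aq (p ^ (a + 1)) ν.1) (S.pq T.N (p ^ (a + 1)) c μ ν) := by
    obtain ⟨w, hw⟩ := hcD
    obtain ⟨v, hv⟩ := hyn2
    have h1 : ((X : ZMod (p ^ (a + 1))) - (T.D : ZMod (p ^ (a + 1))) * (T.N : ZMod (p ^ (a + 1)))) =
        (ycl T p X : ZMod (p ^ (a + 1))) + (p : ZMod (p ^ (a + 1))) * (v : ZMod (p ^ (a + 1))) := by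
      have h2 : ((X : ℤ) - T.D * T.N) = (ycl T p X : ℕ) + p * v := by linarith
      have h3 := congrArg (fun z : ℤ => (z : ZMod (p ^ (a + 1)))) h2
      push_cast at h3
      exact h3
    rw [h1, add_mul]
    have h4 : (p : ZMod (p ^ (a + 1))) * (v : ZMod (p ^ (a + 1))) *
        Loc.Sg (S.k + 1) (aq (p ^ (a + 1)) μ.1) (aq (p ^ (a + 1)) ν.1) (S.pq T.N (p ^ (a + 1)) c μ ν) = 0 := by
      have hw' : Loc.Sg (S.k + 1) (aq (p ^ (a + 1)) μ.1) (aq (p ^ (a + 1)) ν.1) (S.pq T.N (p ^ (a + 1)) c μ ν) =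
        (p : ZMod (p ^ (a + 1))) ^ a * w := hw
      rw [hw']
      have h5 : (p : ZMod (p ^ (a + 1))) ^ (a + 1) = 0 := by
        have := ZMod.natCast_self (p ^ (a + 1))
        push_cast at this
        exact this
      calc (p : ZMod (p ^ (a + 1))) * (v : ZMod (p ^ (a + 1))) * ((p : ZMod (p ^ (a + 1))) ^ a * w) =
          (p : ZMod (p ^ (a + 1))) ^ (a + 1) * (v * w) := by ring
        _ = 0 := by rw [h5, zero_mul]
    rw [h4, add_zero]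
  have hTi : ∀ i, Loc.Ti (S.k + 1) (aq (p ^ (a + 1)) μ.1) (aq (p ^ (a + 1)) ν.1) (S.pq T.N (p ^ (a + 1)) c μ ν) ((T.D : ZMod (p ^ (a + 1))) * T.N)
      ((X : ZMod (p ^ (a + 1))) - T.D * T.N) i =
      Loc.Ti (S.k + 1) (aq (p ^ (a + 1)) μ.1) (aq (p ^ (a + 1)) ν.1) (S.pq T.N (p ^ (a + 1)) c μ ν) ((T.D : ZMod (p ^ (a + 1))) * T.N)
      (ycl T p X : ZMod (p ^ (a + 1))) i := by
    intro i
    unfold Loc.Ti
    rw [hYS]
  have hEi : ∀ i, Loc.Ei (S.k + 1) (aq (p ^ (a + 1)) μ.1) (aq (p ^ (a + 1)) ν.1) (S.pq T.N (p ^ (a + 1)) c μ ν) ((T.D : ZMod (p ^ (a + 1))) * T.N)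
      ((X : ZMod (p ^ (a + 1))) - T.D * T.N) i =
      Loc.Ei (S.k + 1) (aq (p ^ (a + 1)) μ.1) (aq (p ^ (a + 1)) ν.1) (S.pq T.N (p ^ (a + 1)) c μ ν) ((T.D : ZMod (p ^ (a + 1))) * T.N)
      (ycl T p X : ZMod (p ^ (a + 1))) i := by
    intro i
    unfold Loc.Ei
    rw [hYS]
  have ht : ∀ i ≤ S.k, (p ∣ t i ↔ Loc.Ti (S.k + 1) (aq (p ^ (a + 1)) μ.1) (aq (p ^ (a + 1)) ν.1) (S.pq T.N (p ^ (a + 1)) c μ ν)
      ((T.D : ZMod (p ^ (a + 1))) * T.N) (ycl T p X : ZMod (p ^ (a + 1))) i = 0) := by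
    intro i hi
    have h1 := (KC h hX hcq hab hi).1
    rw [hTi i] at h1
    rw [← h1]
    have h2 := U02_iff hp hu hpu (S.pq T.N (p ^ (a + 1)) c μ ν i) (t i : ℤ)
    rw [Int.cast_natCast] at h2
    rw [h2, Int.natCast_dvd_natCast]
  have he : ∀ i ≤ S.k, (p ∣ e i * S.AA T.N c μ ν X i ↔ Loc.Ei (S.k + 1) (aq (p ^ (a + 1)) μ.1) (aq (p ^ (a + 1)) ν.1) (S.pq T.N (p ^ (a + 1)) c μ ν)
      ((T.D : ZMod (p ^ (a + 1))) * T.N) (ycl T p X : ZMod (p ^ (a + 1))) i = 0) := by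
    intro i hi
    have h1 := (KC h hX hcq hab hi).2
    rw [hEi i] at h1
    have h2 := U02_iff hp hu hpu (S.pq T.N (p ^ (a + 1)) c μ ν i) ((e i * S.AA T.N c μ ν X i : ℕ) : ℤ)
    rw [Int.cast_natCast, Int.natCast_dvd_natCast] at h2
    push_cast at h2
    rw [h1] at h2
    rw [← h2]
    constructor
    · intro h3
      exact (Units.mul_right_eq_zero _).1 h3
    · intro h3
      rw [h3, mul_zero]
  have hXY : ¬ p ∣ X → ¬ p ∣ ycl T p X + T.D * T.N := by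
    intro h1 h2
    apply h1
    have h3 : (p : ℤ) ∣ (ycl T p X : ℕ) + T.D * T.N := by exact_mod_cast h2
    have h4 : (X : ℤ) = (((X : ℤ) - T.D * T.N) - (ycl T p X : ℕ)) + ((ycl T p X : ℕ) + T.D * T.N) := by ring
    have h5 : (p : ℤ) ∣ X := by rw [h4]; exact dvd_add hyn2 h3
    exact_mod_cast h5
  have hYY : ¬ p ∣ X - T.D * T.N → ¬ p ∣ ycl T p X := by
    intro h1 h2
    apply h1
    have h3 : (p : ℤ) ∣ (ycl T p X : ℕ) := by exact_mod_cast h2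
    have h5 : (p : ℤ) ∣ (X : ℤ) - T.D * T.N := by
      have := dvd_add hyn2 h3
      simpa using this
    have h6 : (((X - T.D * T.N : ℕ)) : ℤ) = (X : ℤ) - T.D * T.N := by
      rw [Nat.cast_sub hX.le]
      push_cast
      rfl
    rw [← h6] at h5
    exact_mod_cast h5
  unfold bP at hb
  rw [not_and] at hb
  have hb := hb hcD
  constructor
  · intro hN hek
    rw [if_pos hN] at hb
    apply hb
    have h1 : p ^ (a + 1) ∣ S.SI T.N c μ ν := by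
      rw [← h.last, hu, pow_succ]
      calc p ^ a * p ∣ p ^ a * e S.k := Nat.mul_dvd_mul_left _ hek
        _ ∣ p ^ a * u * e S.k := by
          rw [mul_assoc]
          exact Nat.mul_dvd_mul_left _ (Dvd.intro_left u rfl)
    have h2 := (L5_dvd S (N := T.N) (c := c) (μ := μ) (ν := ν) (a := a) (b := a + 1) hp le_rfl hc hab).2 h1
    have h5 : (p : ZMod (p ^ (a + 1))) ^ (a + 1) = 0 := by
      have := ZMod.natCast_self (p ^ (a + 1))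
      push_cast at this
      exact this
    rw [h5, zero_dvd_iff] at h2
    exact h2
  · intro hN
    rw [if_neg hN, not_or] at hb
    obtain ⟨hb1, hb2⟩ := hb
    constructor
    · intro i hi hd
      exact hb1 ⟨i, hi, (ht i hi).1 hd⟩
    · intro hy hpX hpY i hi hd
      exact hb2 ⟨hy, hYY hpY, hXY hpX, i, hi, (he i hi).1 hd⟩

end Pool.Agent.Lib.TC
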