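import Pool.Agent.Lib.MP_7b7e48_nt.TC.KC

/-!
# K5: the primes of the large sieve

`p` prime, `p ∤ D`, `p` coprime to all marks. `U01` with `R = ZMod p`, `a = aq p μ.1`, `b = aq p ν.1`, `ca l = toU p (AA l)`, `cb l = toU p (BB l)`, `x = xs` (`L5_pk`): `D (p_i t_i) = Ti … (D N) Y i`
with `Y = ∏ β_l B_l = X - D N` (`prodB`); `D` and `p_i` are units of `ZMod p`, so `Ti = 0` iff `p ∣ t_i`. `hit` is `∃ i ≤ k, Ti = 0` with `(X : ZMod p) - D N`, `X` the cast of the natural number.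
-/

set_option autoImplicit false

open Finset

namespace Pool.Agent.Lib.TC

theorem K5 {S : MS} {T : Dat} {c : S.Col} {μ : S.TX} {ν : S.TY} {X : ℕ} {e t : ℕ → ℕ} (h : S.CF T c μ ν X e t) {p : ℕ} (hp : p.Prime)
    (hpD : ¬ p ∣ T.D) (hX : T.D * T.N < X) (hc : S.CopM p μ ν) (hab : ∀ i, ν.1 i < μ.1 i) :
    S.hit T c μ ν X p ↔ ∃ i ≤ S.k, p ∣ t i := by
  haveI := Fact.mk hp
  have hD : (T.D : ZMod p) ≠ 0 := fun h0 => hpD ((ZMod.natCast_eq_zero_iff _ _).1 h0)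
  have key : ∀ i ≤ S.k, (Loc.Ti (S.k + 1) (aq p μ.1) (aq p ν.1) (S.pq T.N p c μ ν) ((T.D : ZMod p) * T.N) (((X : ℤ) : ZMod p) - T.D * T.N) i = 0 ↔
      p ∣ t i) := by
    intro i hi
    have h1 := (KC h hX hc hab hi).1
    rw [Int.cast_natCast, ← h1, mul_eq_zero, mul_eq_zero, ZMod.natCast_eq_zero_iff (t i) p]
    constructor
    · rintro (h2 | h2 | h2)
      · exact absurd h2 hD
      · exact absurd h2 (Units.ne_zero _)
      · exact h2
    · intro h2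
      exact Or.inr (Or.inr h2)
  unfold MS.hit
  constructor
  · rintro ⟨i, hi, h2⟩
    exact ⟨i, hi, (key i hi).1 h2⟩
  · rintro ⟨i, hi, h2⟩
    exact ⟨i, hi, (key i hi).2 h2⟩

end Pool.Agent.Lib.TC
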