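import Pool.Agent.Lib.MP_7b7e48_nt.TC.Cyc

/-!
# K6: a prime divisor of `N`

`p ∣ N`, `p` divides no `A_i`, `B_i`, `α_i`, `β_i`. If `p ∣ t_i` then `e_i A_i = N - t_i β_i` gives `p ∣ e_i`. If `p ∣ e_i`, `i + 1 < m`, then `t_{i+1} α_{i+1} = N - e_i B_i` gives `p ∣ t_{i+1}`.
Going up: `p ∣ e_{m-1}`.
-/

set_option autoImplicit false

open Finset

namespace Pool.Agent.Lib.TC

theorem K6 {N m : ℕ} {A B al be e t : ℕ → ℕ} (h : Cyc N m A B al be e t) {p : ℕ} (hp : p.Prime) (hpN : p ∣ N)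
    (hA : ∀ i < m, ¬ p ∣ A i) (_hB : ∀ i < m, ¬ p ∣ B i) (hal : ∀ i < m, ¬ p ∣ al i) (_hbe : ∀ i < m, ¬ p ∣ be i) {i : ℕ} (hi : i < m)
    (hd : p ∣ t i ∨ p ∣ e i) : p ∣ e (m - 1) := by
  have h1 : ∀ j < m, p ∣ t j → p ∣ e j := by
    intro j hj ht
    have hE := h.E j hj
    have h2 : p ∣ e j * A j := by
      rw [← Nat.dvd_add_left (Dvd.dvd.mul_right ht (be j)), hE]
      exact hpN
    exact (hp.dvd_mul.1 h2).resolve_right (hA j hj)
  have h2 : ∀ j, j + 1 < m → p ∣ e j → p ∣ t (j + 1) := by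
    intro j hj he
    have hF := h.F j (by omega)
    rw [Nat.mod_eq_of_lt hj] at hF
    have h3 : p ∣ t (j + 1) * al (j + 1) := by
      rw [← Nat.dvd_add_right (Dvd.dvd.mul_right he (B j)), hF]
      exact hpN
    exact (hp.dvd_mul.1 h3).resolve_right (hal (j + 1) hj)
  have h3 : ∀ n j, j + n = m - 1 → j < m → p ∣ e j → p ∣ e (m - 1) := by
    intro n
    induction n with
    | zero => intro j hj _ he; rw [← hj]; simpa using he
    | succ n ih =>
      intro j hj hjm he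
      exact ih (j + 1) (by omega) (by omega) (h1 (j + 1) (by omega) (h2 j (by omega) he))
  have h4 : p ∣ e i := by
    rcases hd with h | h
    · exact h1 i hi h
    · exact h
  exact h3 (m - 1 - i) i (by omega) hi h4

end Pool.Agent.Lib.TC
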