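import Pool.Agent.Lib.MP_7b7e48_nt.TC.K2
import Pool.Agent.Lib.MP_7b7e48_nt.TC.K3
import Pool.Agent.Lib.MP_7b7e48_nt.TC.K4
import Pool.Agent.Lib.MP_7b7e48_nt.TC.K5
import Pool.Agent.Lib.MP_7b7e48_nt.TC.K6
import Pool.Agent.Lib.MP_7b7e48_nt.TC.S7D3

/-!
# K7: the bridge (5.2): a colouring without bad, hit and forbidden primes gives a good cycle

* `CopM`: all marks are primes `> y0` (windows `> 3 z²`), not dividing `N` (`MS.OK`), so they are coprime to `p` for `p ≤ y0`, for `p ∣ N`, and for `p ∤ prX prY`. `β_i ≤ 2 Z_i < 3 Z_i < α_i`.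
* `D ∣ SI`: `L6` (`D ≤ y0`; for `p < p0`: `p ≤ y`, `p ∤ X - D N` by `hR`). `tI_facts` (with `Geo` from `K2`) gives `CF` and `tI i = t i`.
* For every prime `p ≤ z` and `i ≤ k`: `p ∤ t_i`. `p < p0`: `p ∈ base`, `LL` gives `cS`; `K3` (`α_i ≡ 1` modulo `W0²`, `β_i ≡ 1 - (-1)^i p` modulo `p²`, so both `≡ 1` modulo `p`, `p ∣ W0`; `Dat.OK.np`).
  `p0 ≤ p ≤ y0`: `p ∈ PS`; `cD`: for `p ∣ D` from `LL`, for `p ∤ D` trivial (`v_p(D) = 0`); `bad = ∅` gives `¬ bP`; `K4`: if `p ∤ N` done; if `p ∣ N`: `p ∤ e_k`, and `K6` (contrapositive) gives `p ∤ t_i`; here `A_i`, `B_i` (`i < k`)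
  are products of marks and `A_k ∣ X`, `B_k ∣ X - D N`, `(X, N) = 1`, `(X - D N, N) = 1`. `y0 < p ≤ z`: `p ∈ PL`; `p ∈ spec`: `hf1` and `tI = t`; otherwise `p ∤ N v prX prY SI`, `p ∉ hits`, so `¬ hit`, `p ∤ D` (`D ≤ y0 < p`), `K5`.
* `n = e_i A_i`: `0 < n < N`, `N - n = t_i β_i` (`h.E`, `t_i, β_i > 0`); a prime `p ≤ z` divides neither `t_i` nor `β_i` (a prime `> z`). `n` is coprime to `N`: a prime `p ∣ (n, N)` divides `t_i β_i`, `p ≠ β_i` (`β_i ∤ N`), so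
  `p ∣ t_i`, `p > z`, and `K6` gives `p ∣ e_k ∣ SI`, against `hf2`. `p ≤ y`: if `p ∣ N` then `p ∤ n` by this; `p < p0`: `K3`; otherwise `K4` (`p ≤ y ≤ y0`, `p ∤ X`, `p ∤ X - D N`).
* `n = e_i B_i`: `N - n = t_{i+1} α_{i+1}` (index modulo `k + 1`), the same; `p ≤ y`, `p ∤ N`: `p ∤ e_i` (from `p ∤ e_i A_i`) and `p ∤ B_i` (`i < k`: marks `> y0`; `i = k`: `B_k ∣ X - D N`).
* `(SI, prX prY) = 1`: `hf3`.
-/

set_option autoImplicit false

open Finset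

namespace Pool.Agent.Lib.TC

private theorem K7_one {T : Dat} {P p l : ℕ} (hp : p.Prime) (hl : l.Prime) (hN : ¬ l ∣ T.N) (hy : T.y0 < l) (hP : l ∣ P)
    (h : p ≤ T.y0 ∨ p ∣ T.N ∨ ¬ p ∣ P) : l.Coprime p := by
  rw [Nat.coprime_primes hl hp]
  rintro rfl
  rcases h with h | h | h
  · omega
  · exact hN h
  · exact h hP

private theorem K7_win {S : MS} {T : Dat} {W0 : ℕ} {Z : Fin (S.k + 1) → ℕ} (hT : T.OK W0) (hS : S.OK T W0 Z) {μ : S.TX} {ν : S.TY} (hμ : μ ∈ S.MX)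
    (hν : ν ∈ S.MY) (i : Fin (S.k + 1)) : ((μ.1 i).Prime ∧ ¬ μ.1 i ∣ T.N ∧ T.z < μ.1 i) ∧
      ((ν.1 i).Prime ∧ ¬ ν.1 i ∣ T.N ∧ T.z < ν.1 i) ∧ ν.1 i < μ.1 i := by
  have hμ1 : μ.1 i ∈ S.WX i := Fintype.mem_piFinset.1 (mem_product.1 hμ).1 i
  have hν1 : ν.1 i ∈ S.WY i := Fintype.mem_piFinset.1 (mem_product.1 hν).1 i
  obtain ⟨a1, a2, a3, a4, -⟩ := hS.WX_mem i _ hμ1
  obtain ⟨b1, b2, b3, b4, -⟩ := hS.WY_mem i _ hν1
  have hz := hS.Z_lo i
  have hy := hT.y0_lt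
  have hzz : T.z ≤ T.z ^ 2 := Nat.le_self_pow two_ne_zero _
  exact ⟨⟨a1, a2, by omega⟩, ⟨b1, b2, by omega⟩, by omega⟩

theorem K7_CopM {S : MS} {T : Dat} {W0 : ℕ} {Z : Fin (S.k + 1) → ℕ} (hT : T.OK W0) (hS : S.OK T W0 Z) {μ : S.TX} {ν : S.TY} (hμ : μ ∈ S.MX)
    (hν : ν ∈ S.MY) {p : ℕ} (hp : p.Prime) (h : p ≤ T.y0 ∨ p ∣ T.N ∨ ¬ p ∣ S.prX id μ * S.prY id ν) : S.CopM p μ ν := by
  have hμ2 := mem_product.1 hμ
  have hμ3 := mem_product.1 hμ2.2
  have hν2 := mem_product.1 hν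
  have hν3 := mem_product.1 hν2.2
  have hy := hT.y0_lt
  have d1 : ∀ i, μ.1 i ∣ S.prX id μ * S.prY id ν := fun i => by
    refine Dvd.dvd.mul_right ?_ _
    unfold MS.prX
    exact Dvd.dvd.mul_right (Dvd.dvd.mul_right (dvd_prod_of_mem (fun i => id (μ.1 i)) (mem_univ i)) _) _
  have d2 : ∀ f, μ.2.1 f ∣ S.prX id μ * S.prY id ν := fun f => by
    refine Dvd.dvd.mul_right ?_ _
    unfold MS.prX
    exact Dvd.dvd.mul_right (Dvd.dvd.mul_left (dvd_prod_of_mem (fun f => id (μ.2.1 f)) (mem_univ f)) _) _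
  have d3 : ∀ e, μ.2.2 e ∣ S.prX id μ * S.prY id ν := fun e => by
    refine Dvd.dvd.mul_right ?_ _
    unfold MS.prX
    exact Dvd.dvd.mul_left (dvd_prod_of_mem (fun e => id (μ.2.2 e)) (mem_univ e)) _
  have d4 : ∀ i, ν.1 i ∣ S.prX id μ * S.prY id ν := fun i => by
    refine Dvd.dvd.mul_left ?_ _
    unfold MS.prY
    exact Dvd.dvd.mul_right (Dvd.dvd.mul_right (dvd_prod_of_mem (fun i => id (ν.1 i)) (mem_univ i)) _) _
  have d5 : ∀ f, ν.2.1 f ∣ S.prX id μ * S.prY id ν := fun f => by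
    refine Dvd.dvd.mul_left ?_ _
    unfold MS.prY
    exact Dvd.dvd.mul_right (Dvd.dvd.mul_left (dvd_prod_of_mem (fun f => id (ν.2.1 f)) (mem_univ f)) _) _
  have d6 : ∀ e, ν.2.2 e ∣ S.prX id μ * S.prY id ν := fun e => by
    refine Dvd.dvd.mul_left ?_ _
    unfold MS.prY
    exact Dvd.dvd.mul_left (dvd_prod_of_mem (fun e => id (ν.2.2 e)) (mem_univ e)) _
  refine ⟨fun i => ?_, fun f => ⟨?_, ?_⟩, fun e => ?_, fun e => ?_⟩
  · obtain ⟨⟨a1, a2, a3⟩, ⟨b1, b2, b3⟩, -⟩ := K7_win hT hS hμ hν i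
    exact ⟨K7_one hp a1 a2 (by omega) (d1 i) h, K7_one hp b1 b2 (by omega) (d4 i) h⟩
  · obtain ⟨a1, a2, a3, -⟩ := hS.FX_mem f _ (Fintype.mem_piFinset.1 hμ3.1 f)
    exact K7_one hp a1 a2 a3 (d2 f) h
  · obtain ⟨a1, a2, a3, -⟩ := hS.FY_mem f _ (Fintype.mem_piFinset.1 hν3.1 f)
    exact K7_one hp a1 a2 a3 (d5 f) h
  · obtain ⟨a1, a2, a3, -⟩ := hS.OX_mem e _ (Fintype.mem_piFinset.1 hμ3.2 e)
    exact K7_one hp a1 a2 a3 (d3 e) h
  · obtain ⟨a1, a2, a3, -⟩ := hS.OY_mem e _ (Fintype.mem_piFinset.1 hν3.2 e)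
    exact K7_one hp a1 a2 a3 (d6 e) h

private theorem K7_pow_dvd {R : Type*} [CommSemiring R] (x y : R) {a : ℕ} (h : a = 0) : x ^ a ∣ y := by
  rw [h, pow_zero]
  exact one_dvd y

private theorem K7_ext {n : ℕ} (a : Fin n → ℕ) {i : ℕ} (h : i < n) : ext1 a i = a ⟨i, h⟩ := by
  simp [ext1, h]

theorem K7 {S : MS} {T : Dat} {W0 : ℕ} {Z : Fin (S.k + 1) → ℕ} (hT : T.OK W0) (hS : S.OK T W0 Z) {c : S.Col} (hc : c ∈ S.CC) {μ : S.TX} {ν : S.TY}
    (hμ : μ ∈ S.MX) (hν : ν ∈ S.MY) (hcop : (S.prX id μ).Coprime (S.prY id ν)) {v : ℕ} {x0 : ℤ} {t2 : Prop} {X : ℕ}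
    (h1 : S.prX id μ ∣ X) (h2 : S.prY id ν ∣ X - T.D * T.N) (h3 : T.D * T.N < X)
    (h4 : Real.exp (18 * (S.k + 1)) * ((X : ℝ) - T.D * T.N) ≤ X) (hN : X.Coprime T.N)
    (hR : ∀ p : ℕ, p.Prime → p ≤ T.y → ¬ p ∣ X ∧ ¬ p ∣ X - T.D * T.N)
    (hLL : S.LL T c μ ν X) (hbad : S.bad T c μ ν X = ∅) (hhits : S.hits T v x0 t2 c μ ν X = ∅)
    (hf1 : ∀ p ∈ S.spec T v x0 t2 c μ ν, ∀ i < S.k + 1, ¬ p ∣ S.tI T c μ ν X i)
    (hf2 : ∀ p : ℕ, p.Prime → p ∣ T.N → T.z < p → ¬ p ∣ S.SI T.N c μ ν)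
    (hf3 : ∀ p : ℕ, p.Prime → p ∣ S.prX id μ * S.prY id ν → ¬ p ∣ S.SI T.N c μ ν) : S.Linked T μ ν X := by
  classical
  have hwin := K7_win hT hS hμ hν
  have hab : ∀ i, ν.1 i < μ.1 i := fun i => (hwin i).2.2
  have hy0z := hT.y0_lt
  have hyy0 := hT.y_le
  have hp0y := hT.p0_le
  have hDy0 := hT.D_le
  have hDpos := hT.D_pos
  -- `D ∣ SI`
  have hDSI : T.D ∣ S.SI T.N c μ ν := by
    refine L6 S T hLL hDpos.ne' (fun p _ hpD => (Nat.le_of_dvd hDpos hpD).trans hDy0)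
      (fun p hp hpD => K7_CopM hT hS hμ hν hp (Or.inl ((Nat.le_of_dvd hDpos hpD).trans hDy0))) hab ?_
    intro p hp hlt _ hd
    refine (hR p hp (by omega)).2 ?_
    have h5 : ((X - T.D * T.N : ℕ) : ℤ) = (X : ℤ) - T.D * T.N := by
      rw [Nat.cast_sub h3.le, Nat.cast_mul]
    rw [← h5] at hd
    exact_mod_cast hd
  obtain ⟨Z', V, hG, -⟩ := K2 hT hS hμ hν
  obtain ⟨e, t, hcyc, hlast, hpA, hpB, hAB, htI⟩ := tI_facts hG hc hμ hν hcop h1 h2 h3 h4 hDSI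
  have hCF : S.CF T c μ ν X e t := ⟨hcyc, hlast, hpA, hpB⟩
  -- divisors of `X`, `X - D N`
  have hAX : ∀ i < S.k + 1, S.AA T.N c μ ν X i ∣ X := fun i hi => by
    have h := dvd_prod_of_mem (fun i => ext1 μ.1 i * S.AA T.N c μ ν X i) (mem_range.2 hi)
    rw [hpA] at h
    exact (dvd_mul_left _ _).trans h
  have hBY : ∀ i < S.k + 1, S.BB T.N c μ ν (X - T.D * T.N) i ∣ X - T.D * T.N := fun i hi => by
    have h := dvd_prod_of_mem (fun i => ext1 ν.1 i * S.BB T.N c μ ν (X - T.D * T.N) i) (mem_range.2 hi)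
    rw [hpB] at h
    exact (dvd_mul_left _ _).trans h
  have halX : ∀ i < S.k + 1, ext1 μ.1 i ∣ X := fun i hi => by
    have h := dvd_prod_of_mem (fun i => ext1 μ.1 i * S.AA T.N c μ ν X i) (mem_range.2 hi)
    rw [hpA] at h
    exact (dvd_mul_right _ _).trans h
  have hbeY : ∀ i < S.k + 1, ext1 ν.1 i ∣ X - T.D * T.N := fun i hi => by
    have h := dvd_prod_of_mem (fun i => ext1 ν.1 i * S.BB T.N c μ ν (X - T.D * T.N) i) (mem_range.2 hi)
    rw [hpB] at h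
    exact (dvd_mul_right _ _).trans h
  have hNX : ∀ p : ℕ, p.Prime → p ∣ T.N → ¬ p ∣ X := fun p hp hpN hpX => by
    have h := Nat.dvd_gcd hpX hpN
    rw [Nat.Coprime] at hN
    rw [hN] at h
    exact hp.one_lt.ne' (Nat.dvd_one.1 h)
  have hNY : ∀ p : ℕ, p.Prime → p ∣ T.N → ¬ p ∣ X - T.D * T.N := fun p hp hpN hpY => by
    refine hNX p hp hpN ?_
    have h5 : X = (X - T.D * T.N) + T.D * T.N := by omega
    rw [h5]
    exact dvd_add hpY (Dvd.dvd.mul_left hpN _)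
  -- K6
  have hK6 : ∀ p : ℕ, p.Prime → p ∣ T.N → ∀ i < S.k + 1, p ∣ t i → p ∣ e S.k := fun p hp hpN i hi hd => by
    have h := K6 hcyc hp hpN (fun j hj h => hNX p hp hpN (h.trans (hAX j hj))) (fun j hj h => hNY p hp hpN (h.trans (hBY j hj)))
      (fun j hj h => hNX p hp hpN (h.trans (halX j hj))) (fun j hj h => hNY p hp hpN (h.trans (hbeY j hj))) hi (Or.inl hd)
    rwa [Nat.add_sub_cancel] at h
  -- small primes
  have hsm : ∀ p : ℕ, p.Prime → p < T.p0 → ∀ i ≤ S.k, ¬ p ∣ t i ∧ ¬ p ∣ e i * S.AA T.N c μ ν X i ∧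
      ¬ p ∣ e i * S.BB T.N c μ ν (X - T.D * T.N) i := by
    intro p hp hlt i hi
    have hpb : p ∈ T.base := by
      unfold Dat.base
      rw [mem_filter, mem_range]
      exact ⟨by omega, hp, Or.inl hlt⟩
    have h5 := hLL p hpb
    unfold cP at h5
    rw [if_pos hlt] at h5
    obtain ⟨n1, n2⟩ := hT.np p hp hlt
    have hpW : p ∣ W0 := (hT.W0_pr p hp).2 hlt
    refine K3 hCF hp hDpos.ne' h3 (hR p hp (by omega)).2 (K7_CopM hT hS hμ hν hp (Or.inl (by omega))) hab ?_ n1 n2 h5 hi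
    intro j
    have hμ1 : μ.1 j ∈ S.WX j := Fintype.mem_piFinset.1 (mem_product.1 hμ).1 j
    have hν1 : ν.1 j ∈ S.WY j := Fintype.mem_piFinset.1 (mem_product.1 hν).1 j
    obtain ⟨-, -, -, -, a5⟩ := hS.WX_mem j _ hμ1
    obtain ⟨-, -, -, -, b5⟩ := hS.WY_mem j _ hν1
    refine ⟨Nat.ModEq.of_dvd (hpW.trans (dvd_pow_self W0 two_ne_zero)) a5, ?_⟩
    have b6 := b5 p hp hpW
    have b7 : ((ν.1 j : ℕ) : ℤ) ≡ 1 - (-1) ^ (j : ℕ) * p [ZMOD (p : ℤ)] := by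
      refine Int.ModEq.of_dvd ?_ b6
      push_cast
      exact dvd_pow_self _ two_ne_zero
    have b8 : (1 : ℤ) - (-1) ^ (j : ℕ) * p ≡ 1 [ZMOD (p : ℤ)] := by
      refine (Int.modEq_iff_dvd.2 ?_)
      exact ⟨(-1) ^ (j : ℕ), by ring⟩
    have b9 : ((ν.1 j : ℕ) : ℤ) ≡ ((1 : ℕ) : ℤ) [ZMOD (p : ℤ)] := by
      rw [Nat.cast_one]
      exact b7.trans b8
    exact Int.natCast_modEq_iff.1 b9
  -- primes of the small sieve
  have hps : ∀ p : ℕ, p.Prime → T.p0 ≤ p → p ≤ T.y0 → (p ∣ T.N → ¬ p ∣ e S.k) ∧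
      (¬ p ∣ T.N → (∀ i ≤ S.k, ¬ p ∣ t i) ∧
        (p ≤ T.y → ¬ p ∣ X → ¬ p ∣ X - T.D * T.N → ∀ i ≤ S.k, ¬ p ∣ e i * S.AA T.N c μ ν X i)) := by
    intro p hp hge hle
    have hcD : cD T S.k p (aq _ μ.1) (aq _ ν.1) (S.pq T.N _ c μ ν) := by
      by_cases hpD : p ∣ T.D
      · have hpb : p ∈ T.base := by
          unfold Dat.base
          rw [mem_filter, mem_range]
          exact ⟨by omega, hp, Or.inr hpD⟩
        have h5 := hLL p hpb
        unfold cP at h5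
        rw [if_neg (by omega)] at h5
        exact h5
      · unfold cD
        have h5 : padicValNat p T.D = 0 := padicValNat.eq_zero_of_not_dvd hpD
        exact K7_pow_dvd _ _ h5
    have hb : ¬ bP T S.k p (ycl T p X) (aq _ μ.1) (aq _ ν.1) (S.pq T.N _ c μ ν) := by
      intro hb
      have h5 : p ∈ S.bad T c μ ν X := by
        unfold MS.bad
        rw [mem_filter]
        refine ⟨?_, hb⟩
        unfold Dat.PS
        rw [mem_filter, mem_range]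
        exact ⟨by omega, hp, hge⟩
      rw [hbad] at h5
      exact absurd h5 (notMem_empty p)
    exact K4 hCF hp hDpos.ne' h3 (K7_CopM hT hS hμ hν hp (Or.inl hle)) hab hcD hb
  -- no prime `≤ z` divides a `t_i`
  have htz : ∀ p : ℕ, p.Prime → p ≤ T.z → ∀ i < S.k + 1, ¬ p ∣ t i := by
    intro p hp hpz i hi
    rcases Nat.lt_or_ge p T.p0 with hlt | hge
    · exact (hsm p hp hlt i (by omega)).1
    rcases Nat.lt_or_ge T.y0 p with hgt | hle
    · by_cases hsp : p ∈ S.spec T v x0 t2 c μ ν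
      · have h5 := hf1 p hsp i hi
        rwa [(htI i hi).1] at h5
      · have hPL : p ∈ T.PL := by
          unfold Dat.PL
          rw [mem_filter, mem_range]
          exact ⟨by omega, hp, hgt⟩
        have hnd : ¬ p ∣ T.N * v * S.prX id μ * S.prY id ν * S.SI T.N c μ ν := by
          intro hd
          apply hsp
          unfold MS.spec
          rw [mem_filter]
          exact ⟨hPL, Or.inl hd⟩
        have hnP : ¬ p ∣ S.prX id μ * S.prY id ν := by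
          intro hd
          apply hnd
          obtain ⟨w, hw⟩ := hd
          exact ⟨T.N * v * S.SI T.N c μ ν * w, by
            calc T.N * v * S.prX id μ * S.prY id ν * S.SI T.N c μ ν =
                T.N * v * S.SI T.N c μ ν * (S.prX id μ * S.prY id ν) := by ring
              _ = _ := by rw [hw]; ring⟩
        have hnh : ¬ S.hit T c μ ν X p := by
          intro hh
          have h5 : p ∈ S.hits T v x0 t2 c μ ν X := by
            unfold MS.hits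
            rw [mem_filter, mem_sdiff]
            exact ⟨⟨hPL, hsp⟩, hh⟩
          rw [hhits] at h5
          exact absurd h5 (notMem_empty p)
        have hpD : ¬ p ∣ T.D := fun hd => by
          have := Nat.le_of_dvd hDpos hd
          omega
        intro hd
        exact hnh ((K5 hCF hp hpD h3 (K7_CopM hT hS hμ hν hp (Or.inr (Or.inr hnP))) hab).2 ⟨i, by omega, hd⟩)
    · obtain ⟨g1, g2⟩ := hps p hp hge hle
      by_cases hpN : p ∣ T.N
      · intro hd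
        exact g1 hpN (hK6 p hp hpN i hi hd)
      · exact (g2 hpN).1 i (by omega)
  -- a common prime divisor of `t_i` and `N` does not exist
  have htN : ∀ p : ℕ, p.Prime → p ∣ T.N → ∀ i < S.k + 1, ¬ p ∣ t i := by
    intro p hp hpN i hi hd
    have h5 : T.z < p := by
      by_contra hcon
      exact htz p hp (by omega) i hi hd
    refine hf2 p hp hpN h5 ?_
    rw [← hlast]
    exact Dvd.dvd.mul_left (hK6 p hp hpN i hi hd) _
  have hA0 : ∀ i < S.k + 1, 0 < S.AA T.N c μ ν X i := fun i hi => by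
    have := hAB i hi
    omega
  have hY0 : 0 < X - T.D * T.N := by omega
  have hB0 : ∀ i < S.k + 1, 0 < S.BB T.N c μ ν (X - T.D * T.N) i := fun i hi => Nat.pos_of_dvd_of_pos (hBY i hi) hY0
  -- the common part: `n + t q = N`, `q` a prime `> z` not dividing `N`
  have hset : ∀ n j q : ℕ, j < S.k + 1 → 0 < n → q.Prime → ¬ q ∣ T.N → T.z < q → n + t j * q = T.N →
      (∀ p : ℕ, p.Prime → p ≤ T.y → ¬ p ∣ T.N → ¬ p ∣ n) → T.SSet n := by
    intro n j q hj hn hq hqN hqz hE hny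
    have htq : 0 < t j * q := Nat.mul_pos (hcyc.t0 j hj) hq.pos
    have hcopN : n.Coprime T.N := by
      refine Nat.coprime_of_dvd fun p hp hpn hpN => ?_
      have h5 : p ∣ t j * q := by
        have h6 : t j * q = T.N - n := by omega
        rw [h6]
        exact Nat.dvd_sub hpN hpn
      rcases (Nat.Prime.dvd_mul hp).1 h5 with h6 | h6
      · exact htN p hp hpN j hj h6
      · rw [(Nat.prime_dvd_prime_iff_eq hp hq).1 h6] at hpN
        exact hqN hpN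
    refine ⟨hn, by omega, hcopN, ?_, ?_⟩
    · intro p hp hpy
      by_cases hpN : p ∣ T.N
      · intro hd
        have h5 := Nat.dvd_gcd hd hpN
        rw [Nat.Coprime] at hcopN
        rw [hcopN] at h5
        exact hp.one_lt.ne' (Nat.dvd_one.1 h5)
      · exact hny p hp hpy hpN
    · intro p hp hpz hd
      have h6 : T.N - n = t j * q := by omega
      rw [h6] at hd
      rcases (Nat.Prime.dvd_mul hp).1 hd with h7 | h7
      · exact htz p hp hpz j hj h7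
      · rw [(Nat.prime_dvd_prime_iff_eq hp hq).1 h7] at hpz
        omega
  refine ⟨c, e, t, hcyc, hc, hlast, ?_, ?_, ?_, hpA, hpB⟩
  · refine Nat.coprime_of_dvd fun p hp hpS hpP => ?_
    exact hf3 p hp hpP hpS
  · intro i hi
    have hb := (hwin ⟨i, hi⟩).2.1
    rw [← K7_ext ν.1 hi] at hb
    refine hset _ i _ hi (Nat.mul_pos (hcyc.e0 i hi) (hA0 i hi)) hb.1 hb.2.1 hb.2.2 (hcyc.E i hi) ?_
    intro p hp hpy hpN
    rcases Nat.lt_or_ge p T.p0 with hlt | hge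
    · exact (hsm p hp hlt i (by omega)).2.1
    · obtain ⟨r1, r2⟩ := hR p hp hpy
      exact ((hps p hp hge (by omega)).2 hpN).2 hpy r1 r2 i (by omega)
  · intro i hi
    have hj : (i + 1) % (S.k + 1) < S.k + 1 := Nat.mod_lt _ (Nat.succ_pos _)
    have ha := (hwin ⟨(i + 1) % (S.k + 1), hj⟩).1
    rw [← K7_ext μ.1 hj] at ha
    refine hset _ _ _ hj (Nat.mul_pos (hcyc.e0 i hi) (hB0 i hi)) ha.1 ha.2.1 ha.2.2 (hcyc.F i hi) ?_
    intro p hp hpy hpN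
    rcases Nat.lt_or_ge p T.p0 with hlt | hge
    · exact (hsm p hp hlt i (by omega)).2.2
    · obtain ⟨r1, r2⟩ := hR p hp hpy
      have h5 := ((hps p hp hge (by omega)).2 hpN).2 hpy r1 r2 i (by omega)
      intro hd
      rcases (Nat.Prime.dvd_mul hp).1 hd with h6 | h6
      · exact h5 (Dvd.dvd.mul_right h6 _)
      · exact r2 (h6.trans (hBY i hi))

end Pool.Agent.Lib.TC
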