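import Pool.Agent.Lib.MP_7b7e48_nt.TC.Loc

/-!
# U04: change of variables, Chinese remainder theorem for tuples of units

* `U04_pr`: the map `x ↦ (pr k x 1, …, pr k x k)` is a bijection of `Fin k → H` (inverse `P ↦ (P 0, P 1/P 0, …)`, i.e. `x_j = pp k P (j+1)/pp k P j`).
* `U04_pp`: `pp k` of it is `pr k x` on the indices `≤ k`.
* `U04_crt`: sum of a product of functions of the residues modulo pairwise coprime `q i`: `ZMod.prodEquivPi` gives
  `ZMod (∏ q i) ≃+* ∀ i, ZMod (q i)`; units (`Units.mapEquiv`, `MulEquiv.piUnits`), functions on `E`; the left side is the sum over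
  `∀ i, E → (ZMod (q i))ˣ` of `∏ i, f i (s i)`, which is `∏ i, ∑ s, f i s` (`Finset.prod_univ_sum`, `Fintype.piFinset_univ`).
* `U04_two`: the same for two coprime moduli (`ZMod.chineseRemainder`).
-/

set_option autoImplicit false

open Finset
open Pool.Agent.Lib.TC.Loc

namespace Pool.Agent.Lib.TC

theorem U04_pp {H : Type*} [CommGroup H] (k : ℕ) (x : Fin k → H) {j : ℕ} (hj : j ≤ k) :
    pp k (fun i => pr k x (i.val + 1)) j = pr k x j := by
  rcases j with _ | j
  · rw [pr_zero]; rfl
  · rw [pp_succ _ (show j < k by omega)]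

private theorem U04_tel {H : Type*} [CommGroup H] (k : ℕ) (P : Fin k → H) :
    ∀ j ≤ k, pr k (fun i => pp k P (i.val + 1) / pp k P i.val) j = pp k P j := by
  intro j
  induction j with
  | zero => intro _; rw [pr_zero]; rfl
  | succ j ih =>
    intro hj
    rw [pr_succ, ih (by omega), ex_lt _ (show j < k by omega)]
    simp

theorem U04_pr {H : Type*} [CommGroup H] [Fintype H] [DecidableEq H] (k : ℕ) (Φ : (Fin k → H) → ℝ) :
    ∑ x : Fin k → H, Φ (fun j => pr k x (j.val + 1)) = ∑ P : Fin k → H, Φ P := by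
  let e : (Fin k → H) ≃ (Fin k → H) :=
    { toFun := fun x j => pr k x (j.val + 1)
      invFun := fun P j => pp k P (j.val + 1) / pp k P j.val
      left_inv := by
        intro x
        funext j
        have h1 := U04_pp k x (j := j.val + 1) (by omega)
        have h2 := U04_pp k x (j := j.val) (by omega)
        show pp k (fun i => pr k x (i.val + 1)) (j.val + 1) / pp k (fun i => pr k x (i.val + 1)) j.val = x j
        rw [h1, h2, pr_succ, ex_lt _ j.isLt]
        simp
      right_inv := by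
        intro P
        funext j
        show pr k (fun i => pp k P (i.val + 1) / pp k P i.val) (j.val + 1) = P j
        rw [U04_tel k P (j.val + 1) (by omega), pp_succ _ j.isLt] }
  exact Equiv.sum_comp e Φ

theorem U04_crt {ι E : Type*} [Fintype ι] [DecidableEq ι] [Fintype E] [DecidableEq E] (q : ι → ℕ) [∀ i, NeZero (q i)]
    [NeZero (∏ i, q i)] (hq : Pairwise (Function.onFun Nat.Coprime q)) (f : ∀ i, (E → (ZMod (q i))ˣ) → ℝ) :
    ∑ s : E → (ZMod (∏ i, q i))ˣ,
        ∏ i, f i (fun e => Units.map (ZMod.castHom (dvd_prod_of_mem q (mem_univ i)) (ZMod (q i)) : ZMod (∏ i, q i) →* ZMod (q i)) (s e)) =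
      ∏ i, ∑ s : E → (ZMod (q i))ˣ, f i s := by
  classical
  let C := ZMod.prodEquivPi q hq
  have hC : ∀ (x : ZMod (∏ i, q i)) (i : ι), C x i = ZMod.castHom (dvd_prod_of_mem q (mem_univ i)) (ZMod (q i)) x := by
    intro x i
    have h : (Pi.evalRingHom (fun i => ZMod (q i)) i).comp C.toRingHom =
        ZMod.castHom (dvd_prod_of_mem q (mem_univ i)) (ZMod (q i)) := Subsingleton.elim _ _
    exact DFunLike.congr_fun h x
  let φ : (E → (ZMod (∏ i, q i))ˣ) → ∀ i, E → (ZMod (q i))ˣ := fun s i e =>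
    Units.map (ZMod.castHom (dvd_prod_of_mem q (mem_univ i)) (ZMod (q i)) : ZMod (∏ i, q i) →* ZMod (q i)) (s e)
  have hφ : Function.Bijective φ := by
    constructor
    · intro s s' h
      funext e
      refine Units.ext (C.injective ?_)
      funext i
      rw [hC, hC]
      have h1 := congrArg Units.val (congrFun (congrFun h i) e)
      exact h1
    · intro t
      refine ⟨fun e => ⟨C.symm (fun i => (t i e : ZMod (q i))), C.symm (fun i => (((t i e)⁻¹ : (ZMod (q i))ˣ) : ZMod (q i))), ?_, ?_⟩, ?_⟩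
      · rw [← map_mul, ← map_one C.symm]
        congr 1
        funext i
        simp
      · rw [← map_mul, ← map_one C.symm]
        congr 1
        funext i
        simp
      · funext i e
        refine Units.ext ?_
        show ZMod.castHom (dvd_prod_of_mem q (mem_univ i)) (ZMod (q i)) (C.symm (fun i => (t i e : ZMod (q i)))) = (t i e : ZMod (q i))
        rw [← hC, RingEquiv.apply_symm_apply]
  rw [Finset.prod_univ_sum, Fintype.piFinset_univ]
  exact Fintype.sum_bijective φ hφ _ _ (fun s => rfl)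

theorem U04_two {E : Type*} [Fintype E] [DecidableEq E] (q₁ q₂ : ℕ) [NeZero q₁] [NeZero q₂] [NeZero (q₁ * q₂)] (hq : q₁.Coprime q₂)
    (f₁ : (E → (ZMod q₁)ˣ) → ℝ) (f₂ : (E → (ZMod q₂)ˣ) → ℝ) :
    ∑ s : E → (ZMod (q₁ * q₂))ˣ,
        f₁ (fun e => Units.map (ZMod.castHom (dvd_mul_right q₁ q₂) (ZMod q₁) : ZMod (q₁ * q₂) →* ZMod q₁) (s e)) *
          f₂ (fun e => Units.map (ZMod.castHom (dvd_mul_left q₂ q₁) (ZMod q₂) : ZMod (q₁ * q₂) →* ZMod q₂) (s e)) =
      (∑ s : E → (ZMod q₁)ˣ, f₁ s) * ∑ s : E → (ZMod q₂)ˣ, f₂ s := by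
  classical
  let C := ZMod.chineseRemainder hq
  have hC1 : ∀ x : ZMod (q₁ * q₂), (C x).1 = ZMod.castHom (dvd_mul_right q₁ q₂) (ZMod q₁) x := by
    intro x
    have h : (RingHom.fst (ZMod q₁) (ZMod q₂)).comp C.toRingHom =
        ZMod.castHom (dvd_mul_right q₁ q₂) (ZMod q₁) := Subsingleton.elim _ _
    exact DFunLike.congr_fun h x
  have hC2 : ∀ x : ZMod (q₁ * q₂), (C x).2 = ZMod.castHom (dvd_mul_left q₂ q₁) (ZMod q₂) x := by
    intro x
    have h : (RingHom.snd (ZMod q₁) (ZMod q₂)).comp C.toRingHom =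
        ZMod.castHom (dvd_mul_left q₂ q₁) (ZMod q₂) := Subsingleton.elim _ _
    exact DFunLike.congr_fun h x
  let φ : (E → (ZMod (q₁ * q₂))ˣ) → (E → (ZMod q₁)ˣ) × (E → (ZMod q₂)ˣ) := fun s =>
    (fun e => Units.map (ZMod.castHom (dvd_mul_right q₁ q₂) (ZMod q₁) : ZMod (q₁ * q₂) →* ZMod q₁) (s e),
      fun e => Units.map (ZMod.castHom (dvd_mul_left q₂ q₁) (ZMod q₂) : ZMod (q₁ * q₂) →* ZMod q₂) (s e))
  have hφ : Function.Bijective φ := by
    constructor
    · intro s s' h
      funext e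
      refine Units.ext (C.injective ?_)
      have h1 := congrArg Units.val (congrFun (congrArg Prod.fst h) e)
      have h2 := congrArg Units.val (congrFun (congrArg Prod.snd h) e)
      refine Prod.ext ?_ ?_
      · rw [hC1, hC1]; exact h1
      · rw [hC2, hC2]; exact h2
    · intro t
      refine ⟨fun e => ⟨C.symm ((t.1 e : ZMod q₁), (t.2 e : ZMod q₂)),
        C.symm ((((t.1 e)⁻¹ : (ZMod q₁)ˣ) : ZMod q₁), (((t.2 e)⁻¹ : (ZMod q₂)ˣ) : ZMod q₂)), ?_, ?_⟩, ?_⟩
      · rw [← map_mul, ← map_one C.symm]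
        congr 1
        simp
      · rw [← map_mul, ← map_one C.symm]
        congr 1
        simp
      · refine Prod.ext ?_ ?_
        · funext e
          refine Units.ext ?_
          show ZMod.castHom (dvd_mul_right q₁ q₂) (ZMod q₁) (C.symm ((t.1 e : ZMod q₁), (t.2 e : ZMod q₂))) = (t.1 e : ZMod q₁)
          rw [← hC1, RingEquiv.apply_symm_apply]
        · funext e
          refine Units.ext ?_
          show ZMod.castHom (dvd_mul_left q₂ q₁) (ZMod q₂) (C.symm ((t.1 e : ZMod q₁), (t.2 e : ZMod q₂))) = (t.2 e : ZMod q₂)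
          rw [← hC2, RingEquiv.apply_symm_apply]
  rw [Finset.sum_mul_sum, ← Finset.sum_product']
  exact Fintype.sum_bijective φ hφ _ _ (fun s => rfl)

end Pool.Agent.Lib.TC
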