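import Pool.Agent.Lib.MP_7b7e48_nt.TC.Q08
import Pool.Agent.Lib.MP_7b7e48_nt.TC.POK
import Pool.Agent.Lib.MP_7b7e48_nt.TC.T08
import Pool.Agent.Lib.MP_7b7e48_nt.TC.U04

/-!
# Q12: uniformity of the slot vectors (4.1), (4.2)

`pj c α y s = Loc.pr k (fun l => α l.succ * Loc.sl c y s l)`.
* `Q12_one`: if every colour `< k` is used: the map `s ↦ (Loc.sl c 1 s l)_l` is a surjective homomorphism `(E → H) → (Fin k → H)` (choose one `e_l` of each colour `l`), so by `av_hom` the average over
  `s` of a function of `x l = α l.succ * y l * (φ s) l` is the average over `x : Fin k → H`; then `U04_pr`, `U04_pp`: the average over `x` of `F (Loc.pr k x)` is the average over `P` of `F (Loc.pp k P)` (`F` depends only on the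
  indices `≤ k`; in the form of averages: divide by the numbers of elements, all types are finite).
* `Q12_two`: for a connected pair `s ↦ (φ_c s, φ_c' s)` is onto `(Fin k → H) × (Fin k → H)`: `T08` with `V = Option (Fin k ⊕ Fin k)`, root `none`, `a e = vL k (c e)`, `b e = vR k (c' e)`, cut condition `Conn`
  (see the head of U08; if `U08_two` is on main you may use it with `Fintype` instances instead); then `av_hom`, `av_fub`.
* `Q12_cb`: the conditions depend only on `P j`, `j ≤ k` (`Loc.Sg_congr`, `Loc.Mi_congr`).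
* `Q12_l1`, `Q12_l2`: consequences for `lav`, `lav2` (`ind P * ind Q`); `Conn` implies nothing about `CC`, but `Q12_l2` follows from `Q12_two` directly, its right side being `av_fub` of a product.
-/

set_option autoImplicit false

open Finset

namespace Pool.Agent.Lib.TC

/-- the homomorphism of a colouring -/
private def Q12_phi {k : ℕ} {E : Type*} [Fintype E] {H : Type} [CommGroup H] (c : E → Fin (k + 1)) :
    (E → H) →* (Fin k → H) where
  toFun s j := ∏ e, if c e = j.castSucc then s e else 1
  map_one' := by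
    funext j
    exact Finset.prod_eq_one fun e _ => by rw [Pi.one_apply, ite_self]
  map_mul' s s' := by
    funext j
    rw [Pi.mul_apply, ← Finset.prod_mul_distrib]
    refine Finset.prod_congr rfl fun e _ => ?_
    by_cases h : c e = j.castSucc
    · rw [if_pos h, if_pos h, if_pos h, Pi.mul_apply]
    · rw [if_neg h, if_neg h, if_neg h, one_mul]

private theorem Q12_phi_apply {k : ℕ} {E : Type*} [Fintype E] {H : Type} [CommGroup H] (c : E → Fin (k + 1))
    (s : E → H) (j : Fin k) : Q12_phi c s j = ∏ e, if c e = j.castSucc then s e else 1 := rfl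

private theorem Q12_pj {k : ℕ} {E : Type*} [Fintype E] {H : Type} [CommGroup H] (c : E → Fin (k + 1))
    (α : Fin (k + 1) → H) (y : Fin k → H) (s : E → H) :
    pj c α y s = Loc.pr k ((fun l => α l.succ * y l) * Q12_phi c s) := by
  have h : (fun l => α l.succ * Loc.sl c y s l) = (fun l => α l.succ * y l) * Q12_phi c s := by
    funext l
    exact (mul_assoc _ _ _).symm
  unfold pj
  rw [h]

private theorem Q12_surj {k : ℕ} {E : Type*} [Fintype E] [DecidableEq E] {H : Type} [CommGroup H] (c : E → Fin (k + 1))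
    (hc : ∀ j : Fin k, ∃ e, c e = j.castSucc) : Function.Surjective (Q12_phi (H := H) c) := by
  intro u
  choose e he using hc
  refine ⟨fun e' => ∏ j : Fin k, if e' = e j then u j else 1, ?_⟩
  funext j
  rw [Q12_phi_apply, Finset.prod_eq_single (e j)]
  · rw [if_pos (he j), Finset.prod_eq_single j]
    · rw [if_pos rfl]
    · intro j' _ hj
      rw [if_neg]
      intro h
      apply hj
      have h1 := he j'
      rw [← h, he j] at h1
      exact (Fin.castSucc_injective k h1).symm
    · intro h
      exact absurd (Finset.mem_univ j) h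
  · intro e' _ he'
    by_cases h : c e' = j.castSucc
    · rw [if_pos h]
      refine Finset.prod_eq_one fun j' _ => ?_
      rw [if_neg]
      rintro rfl
      apply he'
      have h1 := he j'
      rw [h] at h1
      rw [Fin.castSucc_injective k h1]
    · rw [if_neg h]
  · intro h
    exact absurd (Finset.mem_univ _) h

private theorem Q12_prpp {k : ℕ} {H : Type} [CommGroup H] [Finite H] (F : (ℕ → H) → ℝ)
    (hF : ∀ P P' : ℕ → H, (∀ j ≤ k, P j = P' j) → F P = F P') :
    av (fun x : Fin k → H => F (Loc.pr k x)) = av fun P : Fin k → H => F (Loc.pp k P) := by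
  classical
  letI := Fintype.ofFinite H
  rw [av_eq, av_eq, ← U04_pr k (fun P => F (Loc.pp k P))]
  exact congrArg (fun z : ℝ => z / (Fintype.card (Fin k → H) : ℝ))
    (sum_congr rfl fun x _ => hF _ _ fun j hj => (U04_pp k x hj).symm)

theorem Q12_one {k : ℕ} {E : Type*} [Fintype E] [DecidableEq E] {H : Type} [CommGroup H] [Finite H] (c : E → Fin (k + 1))
    (hc : ∀ j : Fin k, ∃ e, c e = j.castSucc) (α : Fin (k + 1) → H) (y : Fin k → H) (F : (ℕ → H) → ℝ) (hF : ∀ P P' : ℕ → H, (∀ j ≤ k, P j = P' j) → F P = F P') :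
    av (fun s : E → H => F (pj c α y s)) = av fun P : Fin k → H => F (Loc.pp k P) := by
  rw [← Q12_prpp F hF, ← av_hom (Q12_phi (H := H) c) (Q12_surj c hc) (fun l => α l.succ * y l) (fun x => F (Loc.pr k x))]
  exact congrArg av (funext fun s => congrArg F (Q12_pj c α y s))

private theorem Q12_vL {k : ℕ} (x : Fin (k + 1)) (j : Fin k) :
    vL k x = some (Sum.inl j) ↔ x = j.castSucc := by
  unfold vL
  by_cases h : x.val < k
  · rw [dif_pos h]
    constructor
    · intro h1
      have h2 : (⟨x.val, h⟩ : Fin k) = j := Sum.inl_injective (Option.some_injective _ h1)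
      rw [← h2]
      rfl
    · rintro rfl
      rfl
  · rw [dif_neg h]
    constructor
    · intro h1
      exact absurd h1 (by simp)
    · rintro rfl
      exact absurd j.2 h

private theorem Q12_vR {k : ℕ} (x : Fin (k + 1)) (j : Fin k) :
    vR k x = some (Sum.inr j) ↔ x = j.castSucc := by
  unfold vR
  by_cases h : x.val < k
  · rw [dif_pos h]
    constructor
    · intro h1
      have h2 : (⟨x.val, h⟩ : Fin k) = j := Sum.inr_injective (Option.some_injective _ h1)
      rw [← h2]
      rfl
    · rintro rfl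
      rfl
  · rw [dif_neg h]
    constructor
    · intro h1
      exact absurd h1 (by simp)
    · rintro rfl
      exact absurd j.2 h

private theorem Q12_vL' {k : ℕ} (x : Fin (k + 1)) (j : Fin k) : vL k x ≠ some (Sum.inr j) := by
  unfold vL
  by_cases h : x.val < k
  · rw [dif_pos h]
    simp
  · rw [dif_neg h]
    simp

private theorem Q12_vR' {k : ℕ} (x : Fin (k + 1)) (j : Fin k) : vR k x ≠ some (Sum.inl j) := by
  unfold vR
  by_cases h : x.val < k
  · rw [dif_pos h]
    simp
  · rw [dif_neg h]
    simp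

private theorem Q12_prod {E H : Type*} [Fintype E] [DecidableEq E] [CommGroup H] (T : Finset E)
    (x : T → H) (p : E → Prop) [DecidablePred p] :
    (∏ e : E, if p e then (if h : e ∈ T then x ⟨e, h⟩ else 1) else 1) =
      ∏ e : T, if p e then x e else 1 := by
  have h1 : ∀ e : T, (if p e then x e else 1) =
      (fun e : E => if p e then (if h : e ∈ T then x ⟨e, h⟩ else 1) else 1) e := by
    intro e
    have h2 : (if h : e.1 ∈ T then x ⟨e.1, h⟩ else 1) = x e := dif_pos e.2
    simp only [h2]
  rw [Finset.prod_congr rfl fun e _ => h1 e, Finset.prod_coe_sort T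
    (fun e : E => if p e then (if h : e ∈ T then x ⟨e, h⟩ else 1) else 1)]
  symm
  refine Finset.prod_subset (Finset.subset_univ _) fun e _ he => ?_
  rw [dif_neg he, ite_self]

private theorem Q12_surj2 {k : ℕ} {E : Type*} [Fintype E] [DecidableEq E] {H : Type} [CommGroup H]
    (c c' : E → Fin (k + 1)) (h : Conn k c c') :
    Function.Surjective ((Q12_phi (H := H) c).prod (Q12_phi (H := H) c')) := by
  rintro ⟨u, u'⟩
  obtain ⟨T, -, hT⟩ := T08 (none : Option (Fin k ⊕ Fin k)) (fun e => vL k (c e)) (fun e => vR k (c' e)) h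
  obtain ⟨x, hx⟩ := (hT H).2 (fun v => match v.1 with
    | none => 1
    | some (Sum.inl j) => u j
    | some (Sum.inr j) => u' j)
  refine ⟨fun e => if h : e ∈ T then x ⟨e, h⟩ else 1, ?_⟩
  have hL : ∀ j : Fin k, Q12_phi c (fun e => if h : e ∈ T then x ⟨e, h⟩ else 1) j = u j := by
    intro j
    have h1 := congrFun hx ⟨some (Sum.inl j), by simp⟩
    simp only at h1
    rw [← h1, Q12_phi_apply, Q12_prod]
    unfold inc
    refine Finset.prod_congr rfl fun e _ => ?_
    simp only
    rw [if_neg (Q12_vR' (c' e) j), mul_one]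
    by_cases h2 : c e = j.castSucc
    · rw [if_pos h2, if_pos ((Q12_vL _ _).2 h2)]
    · rw [if_neg h2, if_neg fun h3 => h2 ((Q12_vL _ _).1 h3)]
  have hR : ∀ j : Fin k, Q12_phi c' (fun e => if h : e ∈ T then x ⟨e, h⟩ else 1) j = u' j := by
    intro j
    have h1 := congrFun hx ⟨some (Sum.inr j), by simp⟩
    simp only at h1
    rw [← h1, Q12_phi_apply, Q12_prod]
    unfold inc
    refine Finset.prod_congr rfl fun e _ => ?_
    simp only
    rw [if_neg (Q12_vL' (c e) j), one_mul]
    by_cases h2 : c' e = j.castSucc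
    · rw [if_pos h2, if_pos ((Q12_vR _ _).2 h2)]
    · rw [if_neg h2, if_neg fun h3 => h2 ((Q12_vR _ _).1 h3)]
  exact Prod.ext (funext hL) (funext hR)

theorem Q12_two {k : ℕ} {E : Type*} [Fintype E] [DecidableEq E] {H : Type} [CommGroup H] [Finite H] (c c' : E → Fin (k + 1))
    (h : Conn k c c') (α : Fin (k + 1) → H) (y y' : Fin k → H) (F F' : (ℕ → H) → ℝ) (hF : ∀ P P' : ℕ → H, (∀ j ≤ k, P j = P' j) → F P = F P')
    (hF' : ∀ P P' : ℕ → H, (∀ j ≤ k, P j = P' j) → F' P = F' P') :
    av (fun s : E → H => F (pj c α y s) * F' (pj c' α y' s)) = av (fun P : Fin k → H => F (Loc.pp k P)) * av fun P : Fin k → H => F' (Loc.pp k P) := by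
  have h1 : av (fun s : E → H => F (pj c α y s) * F' (pj c' α y' s)) =
      av (fun z : (Fin k → H) × (Fin k → H) => F (Loc.pr k z.1) * F' (Loc.pr k z.2)) := by
    rw [← av_hom ((Q12_phi (H := H) c).prod (Q12_phi (H := H) c')) (Q12_surj2 c c' h)
      ((fun l => α l.succ * y l), (fun l => α l.succ * y' l))
      (fun z : (Fin k → H) × (Fin k → H) => F (Loc.pr k z.1) * F' (Loc.pr k z.2))]
    refine congrArg av (funext fun s => ?_)
    rw [Q12_pj c α y s, Q12_pj c' α y' s]
    rfl
  rw [h1, av_fub]
  have h2 : (fun a : Fin k → H => av fun b : Fin k → H => F (Loc.pr k a) * F' (Loc.pr k b)) =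
      fun a : Fin k → H => (av fun b : Fin k → H => F' (Loc.pr k b)) * F (Loc.pr k a) := by
    funext a
    rw [av_mul_left, mul_comm]
  rw [h2, av_mul_left, mul_comm, Q12_prpp F hF, Q12_prpp F' hF']

theorem Q12_cb (T : Dat) (k p yn : ℕ) (B : Prop) (al be P P' : ℕ → HP T.D p) (h : ∀ j ≤ k, P j = P' j) :
    cb T k p yn B al be P ↔ cb T k p yn B al be P' := by
  have hS : Loc.Sg (k + 1) al be P = Loc.Sg (k + 1) al be P' :=
    Loc.Sg_congr (fun _ _ => rfl) (fun _ _ => rfl) (fun j hj => h j (by omega))
  have hT : ∀ (DN Y : RP T.D p) (i : ℕ), i ≤ k →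
      Loc.Ti (k + 1) al be P DN Y i = Loc.Ti (k + 1) al be P' DN Y i := by
    intro DN Y i hi
    unfold Loc.Ti
    rw [hS, Loc.Mi_congr (fun _ _ => rfl) (fun _ _ => rfl) (fun j hj => h j (by omega))]
  have hE : ∀ (DN Y : RP T.D p) (i : ℕ), i ≤ k →
      Loc.Ei (k + 1) al be P DN Y i = Loc.Ei (k + 1) al be P' DN Y i := by
    intro DN Y i hi
    unfold Loc.Ei
    rw [hS, sum_congr rfl fun j hj => by rw [h j (by rw [mem_range] at hj; omega)]]
  have hcS : cS T k p yn al be P ↔ cS T k p yn al be P' := by
    unfold cS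
    rw [hS]
    refine and_congr_left fun _ => forall_congr' fun j => ?_
    constructor
    · intro h1 hj
      rw [← h j hj]
      exact h1 hj
    · intro h1 hj
      rw [h j hj]
      exact h1 hj
  have hcD : cD T k p al be P ↔ cD T k p al be P' := by
    unfold cD
    rw [hS]
  have hcP : cP T k p yn al be P ↔ cP T k p yn al be P' := by
    unfold cP
    by_cases hp : p < T.p0
    · rw [if_pos hp, if_pos hp]
      exact hcS
    · rw [if_neg hp, if_neg hp]
      exact hcD
  have hbP : bP T k p yn al be P ↔ bP T k p yn al be P' := by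
    unfold bP
    rw [hS]
    refine and_congr hcD ?_
    by_cases hN : p ∣ T.N
    · rw [if_pos hN, if_pos hN]
    · rw [if_neg hN, if_neg hN]
      refine or_congr (exists_congr fun i => and_congr_right fun hi => by rw [hT _ _ i hi]) ?_
      exact and_congr_right fun _ => and_congr_right fun _ => and_congr_right fun _ =>
        exists_congr fun i => and_congr_right fun hi => by rw [hE _ _ i hi]
  unfold cb
  rw [hcP, hbP]

theorem Q12_l1 (T : Dat) {k : ℕ} {E : Type*} [Fintype E] [DecidableEq E] (p yn : ℕ) (B : Prop) (c : E → Fin (k + 1)) (hc : ∀ j : Fin k, ∃ e, c e = j.castSucc)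
    (α : Fin (k + 1) → HP T.D p) (y : Fin k → HP T.D p) (be : ℕ → HP T.D p) :
    av (fun s : E → HP T.D p => ind (cb T k p yn B (Loc.ex (k + 1) α) be (pj c α y s))) = lav T k p yn B (Loc.ex (k + 1) α) be := by
  unfold lav
  exact Q12_one c hc α y (fun P => ind (cb T k p yn B (Loc.ex (k + 1) α) be P))
    fun P P' h => congrArg ind (propext (Q12_cb T k p yn B _ be P P' h))

theorem Q12_l2 (T : Dat) {k : ℕ} {E : Type*} [Fintype E] [DecidableEq E] (p yn : ℕ) (B B' : Prop) (c c' : E → Fin (k + 1)) (h : Conn k c c')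
    (α : Fin (k + 1) → HP T.D p) (y y' : Fin k → HP T.D p) (be : ℕ → HP T.D p) :
    lav2 T p yn B B' c c' α y y' be = lav T k p yn B (Loc.ex (k + 1) α) be * lav T k p yn B' (Loc.ex (k + 1) α) be := by
  unfold lav2 lav
  exact Q12_two c c' h α y y' (fun P => ind (cb T k p yn B (Loc.ex (k + 1) α) be P))
    (fun P => ind (cb T k p yn B' (Loc.ex (k + 1) α) be P))
    (fun P P' h => congrArg ind (propext (Q12_cb T k p yn B _ be P P' h)))
    fun P P' h => congrArg ind (propext (Q12_cb T k p yn B' _ be P P' h))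

end Pool.Agent.Lib.TC
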