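import Pool.Agent.Lib.MP_7b7e48_nt.TC.U06

/-!
# U07: the bad event (3.3)(ii)

`R = ZMod (p^(a+1))`, `D = p^a u`, `p ∤ u`, `X = Y + D N`. `k`, the units `al`, `be` with THREE indices `≤ k` for which `et` is a unit. `p ≥ 5`.
`dvdA P` : `p^a ∣ Sg (k+1) al be (pp k P)`. Claim: `#{dvdA and Bad} p ≤ 8 (k+1) #{dvdA}`.

* `U07_a` (`a = 0`, `p ∤ N`). Everything is modulo `p`, `#{dvdA} = (p-1)^k`. Since `p ∤ D N` not both of `X, Y` are `0`. Write
  `Ti i = DN M_i - Y Sg`: the coefficient of `p_j` is `-X et_j` for `j < i` (as `-DN et_j - Y et_j`, `DN + Y = X`), `(DN/al_i) - Y et_i = X/al_i - Y/be_i`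
  for `j = i`, `-Y et_j` for `j > i`. There is `j ≥ 1` with a nonzero coefficient, or `Ti i` is a nonzero constant: if `X, Y ≠ 0`: among the three
  indices with unit `et` one is `≥ 1` and `≠ i`. If `X = 0` (`Y ≠ 0`): for `i ≥ 1` take `j = i` (coefficient `-Y/be_i`), for `i = 0` take a good `j ≥ 1` (coefficient `-Y et_j`).
  If `Y = 0`: for `i ≥ 1` take `j = i` (`X/al_i`), for `i = 0`: `Ti 0 = X/al_0 ≠ 0`, no zero at all. A linear equation with a nonzero coefficient has at most `(p-1)^(k-1)`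
  solutions (`T12_p`). `Ei i = DN ∑_{j ≤ i} p_j et_j + Y Sg` (`X, Y ≠ 0`): the coefficient of `p_j` is `X et_j` or `Y et_j`: take a good `j ≥ 1`.
  So at most `2 (k+1) (p-1)^(k-1)` bad `P`, and `2 (k+1) p ≤ 8 (k+1)(p-1)`.
* `U07_b` (`a ≥ 1`, digits). `F` a function of `P` depending only on the residues modulo `p` (`hF`). Then
  `#{P : dvdA, Sg = F P} p ≤ #{dvdA}`: the group `s ∈ ZMod p` acts by `P_{j₁-1} ↦ P_{j₁-1} + p^a s` (`p^a s` is well defined modulo `p^(a+1)`, units stay units, residues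
  modulo `p` do not change because `a ≥ 1`); `Sg` changes by `p^a s et(j₁)`, `p` different values. So the `p` images of the set `{dvdA, Sg = F P}` are pairwise disjoint subsets of `{dvdA}`.
* `U07_N` (`p ∣ N`): `a = 0`: `#{Sg = 0} p ≤ (p-1)^(k-1) p ≤ 2 (p-1)^k`; `a ≥ 1`: `U07_b` with `F = 0`.
* `U07_c` (`a ≥ 1`, `p ∤ N`, `p ∤ Y`): for `dvdA P`: `Ti i = 0` iff `Sg = D N M_i/Y`, and `D N M_i/Y = p^a (u N M_i/Y)` depends only on `M_i` modulo `p`: `U07_b`. The same for
  `Ei i = 0` iff `Sg = -D N (∑_{j≤i} p_j et_j)/Y`. So `2 (k+1)` applications.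
* `U07_d` (`a ≥ 1`, `p ∤ N`, `p ∣ Y`; then the `Ei` part of `Bad` is void): `Y Sg = 0` for `dvdA P`, `Ti i = 0` iff `M_i = 0` modulo `p`; also `Sg = 0` modulo `p`, so
  `N_i = p_i/be_i + ∑_{j > i} p_j et_j = 0` modulo `p` (`Ni_eq`). For `i = 0` `M_0 = 1/al_0` is a unit. For `i ≥ 1`: number of `Q` modulo `p` with `M_i = 0`, `N_i = 0`: `M_i = 0` determines `Q_{i-1}`
  by the `Q_{j}`, `j < i - 1`. If all `et_j`, `j > i`, are zero modulo `p` then `N_i` is a unit; otherwise `N_i = 0` determines one more `Q_{j-1}`, `j > i`. So at most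
  `(p-1)^(k-2)` tuples `Q`, each has `p^(ak)/p^(a-1)` lifts with `dvdA` (`U06_lift`). Compare with `#{dvdA} ≥ (p-1)^(k-2) (p-2) p^(ak)/p^(a-1)` (`U06_mod`, `U06_lift`): `p ≤ 8 (p - 2)`.
-/

set_option autoImplicit false

open Finset
open Pool.Agent.Lib.TC.Loc

namespace Pool.Agent.Lib.TC

/-- three indices `≤ k` with a unit `et` -/
def Good3 {R : Type*} [CommRing R] (k : ℕ) (al be : ℕ → Rˣ) : Prop :=
  ∃ j₁ j₂ j₃ : ℕ, j₁ < j₂ ∧ j₂ < j₃ ∧ j₃ ≤ k ∧ IsUnit (et al be j₁) ∧ IsUnit (et al be j₂) ∧ IsUnit (et al be j₃)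

/-- the bad event (3.3) at `p`; `Yn` is the second number `Y`, the first is `Yn + D N` -/
def Bad (p a k N D Yn y : ℕ) (al be q : ℕ → (ZMod (p ^ (a + 1)))ˣ) : Prop :=
  (p ∣ N ∧ Sg (k + 1) al be q = 0) ∨
  (¬ p ∣ N ∧ ∃ i ≤ k, Ti (k + 1) al be q ((D : ZMod (p ^ (a + 1))) * N) Yn i = 0) ∨
  (¬ p ∣ N ∧ p ≤ y ∧ ¬ p ∣ Yn ∧ ¬ p ∣ Yn + D * N ∧ ∃ i ≤ k, Ei (k + 1) al be q ((D : ZMod (p ^ (a + 1))) * N) Yn i = 0)

section lin

variable {R : Type*} [CommRing R]

private theorem U07_lin {k : ℕ} (c : ℕ → R) (P : Fin k → Rˣ) :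
    ∑ j ∈ range (k + 1), c j * ((pp k P j : Rˣ) : R) = c 0 + ∑ j : Fin k, c (j + 1) * (P j : R) := by
  rw [sum_range_succ', add_comm, sum_range]
  congr 1
  · simp [pp]
  · refine sum_congr rfl fun j _ => ?_
    rw [pp_succ P j.2]

private theorem U07_Ti {k i : ℕ} (hi : i ≤ k) (al be q : ℕ → Rˣ) (DN Y : R) :
    Ti (k + 1) al be q DN Y i = ∑ j ∈ range (k + 1),
      (DN * ((if j = i then (((al j)⁻¹ : Rˣ) : R) else 0) - (if j < i then et al be j else 0)) - Y * et al be j) *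
        (q j : R) := by
  have h1 : ∑ j ∈ range i, (q j : R) * et al be j =
      ∑ j ∈ range (k + 1), if j < i then (q j : R) * et al be j else 0 := by
    rw [← sum_filter]
    apply sum_congr _ fun _ _ => rfl
    ext j
    rw [mem_filter, mem_range, mem_range]
    constructor
    · intro h
      exact ⟨by omega, h⟩
    · rintro ⟨_, h⟩
      exact h
  have h2 : (q i : R) * (((al i)⁻¹ : Rˣ) : R) =
      ∑ j ∈ range (k + 1), if j = i then (q j : R) * (((al j)⁻¹ : Rˣ) : R) else 0 := by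
    rw [Finset.sum_ite_eq' (range (k + 1)) i (fun j => (q j : R) * (((al j)⁻¹ : Rˣ) : R)),
      if_pos (mem_range.2 (by omega))]
  unfold Ti Mi Sg
  rw [h1, h2, ← sum_sub_distrib, mul_sum, mul_sum, ← sum_sub_distrib]
  refine sum_congr rfl fun j _ => ?_
  split_ifs <;> ring

private theorem U07_Ei {k i : ℕ} (hi : i ≤ k) (al be q : ℕ → Rˣ) (DN Y : R) :
    Ei (k + 1) al be q DN Y i = ∑ j ∈ range (k + 1),
      (DN * (if j < i + 1 then et al be j else 0) + Y * et al be j) * (q j : R) := by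
  have h1 : ∑ j ∈ range (i + 1), (q j : R) * et al be j =
      ∑ j ∈ range (k + 1), if j < i + 1 then (q j : R) * et al be j else 0 := by
    rw [← sum_filter]
    apply sum_congr _ fun _ _ => rfl
    ext j
    rw [mem_filter, mem_range, mem_range]
    constructor
    · intro h
      exact ⟨by omega, h⟩
    · rintro ⟨_, h⟩
      exact h
  unfold Ei Sg
  rw [h1, mul_sum, mul_sum, ← sum_add_distrib]
  refine sum_congr rfl fun j _ => ?_
  split_ifs <;> ring

end lin

private theorem U07_cnt {p k j : ℕ} [Fact p.Prime] (c : ℕ → ZMod p) (h1 : 1 ≤ j) (h2 : j ≤ k) (hc : c j ≠ 0) :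
    ((univ : Finset (Fin k → (ZMod p)ˣ)).filter fun P => ∑ j ∈ range (k + 1), c j * ((pp k P j : (ZMod p)ˣ) : ZMod p) = 0).card ≤
      (p - 1) ^ (k - 1) := by
  obtain ⟨l, rfl⟩ : ∃ l, j = l + 1 := ⟨j - 1, by omega⟩
  have h3 := T12_p (fun j : Fin k => c (j + 1)) (- c 0) ⟨l, by omega⟩ hc
  refine le_trans (le_of_eq ?_) h3
  congr 1
  apply filter_congr
  intro P _
  rw [U07_lin, add_comm, add_eq_zero_iff_eq_neg]

private theorem U07_good {R : Type*} [CommRing R] {k : ℕ} {al be : ℕ → Rˣ} (hg : Good3 k al be) (i : ℕ) :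
    ∃ j, 1 ≤ j ∧ j ≤ k ∧ j ≠ i ∧ IsUnit (et al be j) := by
  obtain ⟨j₁, j₂, j₃, h12, h23, h3, _, u2, u3⟩ := hg
  by_cases h : j₂ = i
  · exact ⟨j₃, by omega, h3, by omega, u3⟩
  · exact ⟨j₂, by omega, by omega, h, u2⟩

theorem U07_a {p k : ℕ} [Fact p.Prime] (al be : ℕ → (ZMod p)ˣ) (hg : Good3 k al be) (DN Y : ZMod p) (hDN : DN ≠ 0) {i : ℕ} (hi : i ≤ k) :
    ((univ : Finset (Fin k → (ZMod p)ˣ)).filter fun P => Ti (k + 1) al be (pp k P) DN Y i = 0).card ≤ (p - 1) ^ (k - 1) ∧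
    (Y ≠ 0 → DN + Y ≠ 0 →
      ((univ : Finset (Fin k → (ZMod p)ˣ)).filter fun P => Ei (k + 1) al be (pp k P) DN Y i = 0).card ≤ (p - 1) ^ (k - 1)) := by
  have hT : ((univ : Finset (Fin k → (ZMod p)ˣ)).filter fun P => Ti (k + 1) al be (pp k P) DN Y i = 0) =
      ((univ : Finset (Fin k → (ZMod p)ˣ)).filter fun P => ∑ j ∈ range (k + 1),
      (DN * ((if j = i then (((al j)⁻¹ : (ZMod p)ˣ) : ZMod p) else 0) - (if j < i then et al be j else 0)) -
        Y * et al be j) * ((pp k P j : (ZMod p)ˣ) : ZMod p) = 0) := by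
    apply filter_congr
    intro P _
    rw [U07_Ti hi]
  have hE : ((univ : Finset (Fin k → (ZMod p)ˣ)).filter fun P => Ei (k + 1) al be (pp k P) DN Y i = 0) =
      ((univ : Finset (Fin k → (ZMod p)ˣ)).filter fun P => ∑ j ∈ range (k + 1),
      (DN * (if j < i + 1 then et al be j else 0) + Y * et al be j) * ((pp k P j : (ZMod p)ˣ) : ZMod p) = 0) := by
    apply filter_congr
    intro P _
    rw [U07_Ei hi]
  constructor
  · by_cases hY : Y = 0
    · by_cases hi0 : i = 0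
      · refine le_trans (le_of_eq ?_) (Nat.zero_le _)
        rw [card_eq_zero, filter_eq_empty_iff]
        intro P _ h
        unfold Ti Mi at h
        rw [hY, hi0, zero_mul, sub_zero, range_zero, sum_empty, sub_zero] at h
        exact mul_ne_zero hDN (mul_ne_zero (Units.ne_zero _) (Units.ne_zero _)) h
      · rw [hT]
        refine U07_cnt _ (Nat.one_le_iff_ne_zero.2 hi0) hi ?_
        rw [if_pos rfl, if_neg (lt_irrefl i), hY, zero_mul, sub_zero, sub_zero]
        exact mul_ne_zero hDN (Units.ne_zero _)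
    · by_cases hX : DN + Y = 0
      · by_cases hi0 : i = 0
        · obtain ⟨j, j1, j2, _, j4⟩ := U07_good hg i
          rw [hT]
          refine U07_cnt _ j1 j2 ?_
          rw [if_neg (by omega), if_neg (by omega), sub_zero, mul_zero, zero_sub]
          exact neg_ne_zero.2 (mul_ne_zero hY j4.ne_zero)
        · rw [hT]
          refine U07_cnt _ (Nat.one_le_iff_ne_zero.2 hi0) hi ?_
          rw [if_pos rfl, if_neg (lt_irrefl i)]
          have h1 : DN * ((((al i)⁻¹ : (ZMod p)ˣ) : ZMod p) - 0) - Y * et al be i =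
              - (Y * (((be i)⁻¹ : (ZMod p)ˣ) : ZMod p)) := by
            unfold et
            linear_combination (((al i)⁻¹ : (ZMod p)ˣ) : ZMod p) * hX
          rw [h1]
          exact neg_ne_zero.2 (mul_ne_zero hY (Units.ne_zero _))
      · obtain ⟨j, j1, j2, j3, j4⟩ := U07_good hg i
        rw [hT]
        refine U07_cnt _ j1 j2 ?_
        rw [if_neg j3]
        by_cases hji : j < i
        · rw [if_pos hji]
          have h1 : DN * (0 - et al be j) - Y * et al be j = - ((DN + Y) * et al be j) := by ring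
          rw [h1]
          exact neg_ne_zero.2 (mul_ne_zero hX j4.ne_zero)
        · rw [if_neg hji, sub_zero, mul_zero, zero_sub]
          exact neg_ne_zero.2 (mul_ne_zero hY j4.ne_zero)
  · intro hY hX
    obtain ⟨j, j1, j2, _, j4⟩ := U07_good hg i
    rw [hE]
    refine U07_cnt _ j1 j2 ?_
    by_cases hji : j < i + 1
    · rw [if_pos hji, ← add_mul]
      exact mul_ne_zero hX j4.ne_zero
    · rw [if_neg hji, mul_zero, zero_add]
      exact mul_ne_zero hY j4.ne_zero

private theorem U07_ann {p a : ℕ} [Fact p.Prime] (x : ZMod (p ^ (a + 1))) :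
    (p : ZMod (p ^ (a + 1))) ^ a * x = 0 ↔ rd p a x = 0 := by
  have hp := (Fact.out : p.Prime)
  have : NeZero (p ^ (a + 1)) := ⟨pow_ne_zero _ hp.ne_zero⟩
  obtain ⟨n, rfl⟩ : ∃ n : ℕ, (n : ZMod (p ^ (a + 1))) = x := ⟨x.val, ZMod.natCast_zmod_val x⟩
  rw [map_natCast, ← Nat.cast_pow, ← Nat.cast_mul, ZMod.natCast_eq_zero_iff, ZMod.natCast_eq_zero_iff, pow_succ]
  exact Nat.mul_dvd_mul_iff_left (pow_pos hp.pos a)

private theorem U07_unit {p a : ℕ} (ha : 1 ≤ a) (x : (ZMod (p ^ (a + 1)))ˣ) (s : ℕ) :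
    IsUnit ((x : ZMod (p ^ (a + 1))) + (p : ZMod (p ^ (a + 1))) ^ a * s) := by
  refine IsNilpotent.isUnit_add_left_of_commute ?_ x.isUnit (Commute.all _ _)
  refine ⟨a + 1, ?_⟩
  have h1 : (p : ZMod (p ^ (a + 1))) ^ (a + 1) = 0 := by
    rw [← Nat.cast_pow]
    exact ZMod.natCast_self _
  rw [mul_pow, ← pow_mul, mul_comm a (a + 1), pow_mul, h1, zero_pow (by omega), zero_mul]

private theorem U07_upd {R : Type*} [CommRing R] {k : ℕ} (al be : ℕ → Rˣ) (P : Fin k → Rˣ) (j : Fin k) (v : Rˣ) :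
    Sg (k + 1) al be (pp k (Function.update P j v)) =
      Sg (k + 1) al be (pp k P) + ((v : R) - P j) * et al be (j + 1) := by
  classical
  have h1 : ∀ Q : Fin k → Rˣ, Sg (k + 1) al be (pp k Q) =
      et al be 0 + ∑ l : Fin k, et al be (l + 1) * (Q l : R) := by
    intro Q
    rw [← U07_lin]
    exact sum_congr rfl fun _ _ => mul_comm _ _
  rw [h1, h1, Fintype.sum_eq_add_sum_subtype_ne _ j, Fintype.sum_eq_add_sum_subtype_ne (fun l : Fin k => et al be (l + 1) * (P l : R)) j,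
    Function.update_self]
  have h2 : ∑ l : {l : Fin k // l ≠ j}, et al be ((l.1 : ℕ) + 1) * ((Function.update P j v l.1 : Rˣ) : R) =
      ∑ l : {l : Fin k // l ≠ j}, et al be ((l.1 : ℕ) + 1) * ((P l.1 : Rˣ) : R) :=
    sum_congr rfl fun l _ => by rw [Function.update_of_ne l.2]
  rw [h2]
  ring

private theorem U07_prod {α β : Type*} (S : Finset α) (T : Finset β) (n : ℕ) (f : α → ℕ → β)
    (h1 : ∀ x ∈ S, ∀ s < n, f x s ∈ T)
    (h2 : ∀ x ∈ S, ∀ s < n, ∀ y ∈ S, ∀ t < n, f x s = f y t → x = y ∧ s = t) : S.card * n ≤ T.card := by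
  have h3 : S.card * n = (S ×ˢ range n).card := by rw [card_product, card_range]
  rw [h3]
  refine card_le_card_of_injOn (fun x => f x.1 x.2) ?_ ?_
  · intro x hx
    rw [mem_coe, mem_product, mem_range] at hx
    exact h1 _ hx.1 _ hx.2
  · rintro ⟨x, s⟩ hx ⟨y, t⟩ hy hxy
    rw [mem_coe, mem_product, mem_range] at hx hy
    obtain ⟨e1, e2⟩ := h2 x hx.1 s hx.2 y hy.1 t hy.2 hxy
    rw [e1, e2]

theorem U07_b {p a k : ℕ} [Fact p.Prime] [NeZero (p ^ (a + 1))] (ha : 1 ≤ a) (al be : ℕ → (ZMod (p ^ (a + 1)))ˣ) {j₁ : ℕ} (h1 : 1 ≤ j₁) (h2 : j₁ ≤ k)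
    (hu1 : IsUnit (et al be j₁)) (F : (Fin k → (ZMod (p ^ (a + 1)))ˣ) → ZMod (p ^ (a + 1)))
    (hF : ∀ P P', (∀ j, rdu p a (P j) = rdu p a (P' j)) → F P = F P') :
    open Classical in ((univ : Finset (Fin k → (ZMod (p ^ (a + 1)))ˣ)).filter fun P =>
      (p : ZMod (p ^ (a + 1))) ^ a ∣ Sg (k + 1) al be (pp k P) ∧ Sg (k + 1) al be (pp k P) = F P).card * p ≤
    ((univ : Finset (Fin k → (ZMod (p ^ (a + 1)))ˣ)).filter fun P => (p : ZMod (p ^ (a + 1))) ^ a ∣ Sg (k + 1) al be (pp k P)).card := by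
  classical
  have hp := (Fact.out : p.Prime)
  obtain ⟨l, rfl⟩ : ∃ l, j₁ = l + 1 := ⟨j₁ - 1, by omega⟩
  obtain ⟨j0, hj0⟩ : ∃ j0 : Fin k, (j0 : ℕ) = l := ⟨⟨l, by omega⟩, rfl⟩
  subst hj0
  obtain ⟨act, hact⟩ : ∃ act : (Fin k → (ZMod (p ^ (a + 1)))ˣ) → ℕ → (ZMod (p ^ (a + 1)))ˣ,
      ∀ P s, ((act P s : (ZMod (p ^ (a + 1)))ˣ) : ZMod (p ^ (a + 1))) =
        ((P j0 : (ZMod (p ^ (a + 1)))ˣ) : ZMod (p ^ (a + 1))) + (p : ZMod (p ^ (a + 1))) ^ a * s :=
    ⟨fun P s => (U07_unit ha (P j0) s).unit, fun P s => IsUnit.unit_spec _⟩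
  have hrd : ∀ P s, ∀ j, rdu p a (Function.update P j0 (act P s) j) = rdu p a (P j) := by
    intro P s j
    by_cases hj : j = j0
    · subst hj
      rw [Function.update_self]
      apply Units.ext
      show rd p a (act P s : ZMod (p ^ (a + 1))) = rd p a (P j : ZMod (p ^ (a + 1)))
      rw [hact, map_add, map_mul, map_pow, map_natCast, ZMod.natCast_self, zero_pow (by omega), zero_mul, add_zero]
    · rw [Function.update_of_ne hj]
  have hSg : ∀ P s, Sg (k + 1) al be (pp k (Function.update P j0 (act P s))) =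
      Sg (k + 1) al be (pp k P) + (p : ZMod (p ^ (a + 1))) ^ a * (s * et al be (j0 + 1)) := by
    intro P s
    rw [U07_upd, hact]
    ring
  refine U07_prod _ _ p (fun P s => Function.update P j0 (act P s)) ?_ ?_
  · intro P hx s _
    rw [mem_filter] at hx
    rw [mem_filter]
    refine ⟨mem_univ _, ?_⟩
    rw [hSg]
    exact dvd_add hx.2.1 (Dvd.intro _ rfl)
  · intro P hx s hs P' hy s' hs' hxy
    rw [mem_filter] at hx hy
    have e1 : ∀ j, rdu p a (P j) = rdu p a (P' j) := by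
      intro j
      rw [← hrd P s j, ← hrd P' s' j, hxy]
    have e2 := hF P P' e1
    have e3 := hSg P s
    rw [hxy, hSg, hx.2.2, hy.2.2, e2, add_right_inj] at e3
    have e4 : (p : ZMod (p ^ (a + 1))) ^ a * (((s : ZMod (p ^ (a + 1))) - s') * et al be (j0 + 1)) = 0 := by
      linear_combination - e3
    rw [U07_ann, map_mul] at e4
    have e5 : rd p a ((s : ZMod (p ^ (a + 1))) - s') = 0 :=
      (mul_eq_zero.1 e4).resolve_right (hu1.map (rd p a)).ne_zero
    rw [map_sub, map_natCast, map_natCast, sub_eq_zero, ZMod.natCast_eq_natCast_iff] at e5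
    have e6 : s = s' := Nat.ModEq.eq_of_lt_of_lt e5 hs hs'
    subst e6
    have e7 : P = P' := by
      funext j
      by_cases hj : j = j0
      · subst hj
        have e8 := congrFun hxy j
        rw [Function.update_self, Function.update_self] at e8
        have e9 := congrArg (fun v : (ZMod (p ^ (a + 1)))ˣ => (v : ZMod (p ^ (a + 1)))) e8
        rw [hact, hact, add_left_inj] at e9
        exact Units.ext e9
      · have e8 := congrFun hxy j
        rwa [Function.update_of_ne hj, Function.update_of_ne hj] at e8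
    exact ⟨e7, rfl⟩

theorem U07_d {p k : ℕ} [Fact p.Prime] (al be : ℕ → (ZMod p)ˣ) {i : ℕ} (hi : i ≤ k) :
    ((univ : Finset (Fin k → (ZMod p)ˣ)).filter fun P => Mi al be (pp k P) i = 0 ∧ Ni (k + 1) al be (pp k P) i = 0).card ≤ (p - 1) ^ (k - 2) := by
  classical
  by_cases hi0 : i = 0
  · refine le_trans (le_of_eq ?_) (Nat.zero_le _)
    rw [card_eq_zero, filter_eq_empty_iff]
    rintro P _ ⟨h, _⟩
    rw [hi0] at h
    unfold Mi at h
    rw [range_zero, sum_empty, sub_zero] at h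
    exact mul_ne_zero (Units.ne_zero _) (Units.ne_zero _) h
  by_cases hj : ∃ j, i < j ∧ j ≤ k ∧ et al be j ≠ 0
  swap
  · refine le_trans (le_of_eq ?_) (Nat.zero_le _)
    rw [card_eq_zero, filter_eq_empty_iff]
    rintro P _ ⟨_, h⟩
    rw [Ni_eq _ _ _ _ _ (by omega), sum_eq_zero, add_zero] at h
    · exact mul_ne_zero (Units.ne_zero _) (Units.ne_zero _) h
    · intro j hj'
      rw [mem_Ico] at hj'
      have h0 : et al be j = 0 := by
        by_contra h0
        exact hj ⟨j, by omega, by omega, h0⟩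
      rw [h0, mul_zero]
  obtain ⟨j, hij, hjk, hj0⟩ := hj
  obtain ⟨i', rfl⟩ : ∃ i', i = i' + 1 := ⟨i - 1, by omega⟩
  obtain ⟨j', rfl⟩ : ∃ j', j = j' + 1 := ⟨j - 1, by omega⟩
  have hi'' : i' < k := by omega
  have hj'' : j' < k := by omega
  have h1 : ((univ : Finset (Fin k → (ZMod p)ˣ)).filter fun P =>
      Mi al be (pp k P) (i' + 1) = 0 ∧ Ni (k + 1) al be (pp k P) (i' + 1) = 0).card ≤
      (univ : Finset ({l : Fin k // l ≠ ⟨i', hi''⟩ ∧ l ≠ ⟨j', hj''⟩} → (ZMod p)ˣ)).card := by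
    refine card_le_card_of_injOn (fun P l => P l.1) (fun _ _ => mem_coe.2 (mem_univ _)) ?_
    intro P hP Q hQ hPQ
    rw [mem_coe, mem_filter] at hP hQ
    have h2 : ∀ l : Fin k, l ≠ ⟨i', hi''⟩ → l ≠ ⟨j', hj''⟩ → P l = Q l := fun l a b => congrFun hPQ ⟨l, a, b⟩
    have h3 : ∀ l, l ≤ k → l ≠ i' + 1 → l ≠ j' + 1 → pp k P l = pp k Q l := by
      intro l
      cases l with
      | zero => intro _ _ _; rfl
      | succ l =>
        intro a b c
        rw [pp_succ P (by omega), pp_succ Q (by omega)]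
        refine h2 ⟨l, by omega⟩ ?_ ?_
        · intro h
          rw [Fin.mk.injEq] at h
          omega
        · intro h
          rw [Fin.mk.injEq] at h
          omega
    have e1 : pp k P (i' + 1) = pp k Q (i' + 1) := by
      have a1 := hP.2.1
      have a2 := hQ.2.1
      unfold Mi at a1 a2
      have a3 : ∑ j ∈ range (i' + 1), ((pp k P j : (ZMod p)ˣ) : ZMod p) * et al be j =
          ∑ j ∈ range (i' + 1), ((pp k Q j : (ZMod p)ˣ) : ZMod p) * et al be j := by
        refine sum_congr rfl fun l hl => ?_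
        rw [mem_range] at hl
        rw [h3 l (by omega) (by omega) (by omega)]
      rw [a3] at a1
      have a4 : ((pp k P (i' + 1) : (ZMod p)ˣ) : ZMod p) * (((al (i' + 1))⁻¹ : (ZMod p)ˣ) : ZMod p) =
          ((pp k Q (i' + 1) : (ZMod p)ˣ) : ZMod p) * (((al (i' + 1))⁻¹ : (ZMod p)ˣ) : ZMod p) := by
        linear_combination a1 - a2
      exact Units.ext (mul_right_cancel₀ (Units.ne_zero _) a4)
    have e2 : pp k P (j' + 1) = pp k Q (j' + 1) := by
      have a1 := hP.2.2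
      have a2 := hQ.2.2
      rw [Ni_eq _ _ _ _ _ (by omega),
        ← add_sum_erase _ _ (mem_Ico.2 ⟨by omega, by omega⟩ : j' + 1 ∈ Ico (i' + 1 + 1) (k + 1))] at a1 a2
      have a3 : ∑ l ∈ (Ico (i' + 1 + 1) (k + 1)).erase (j' + 1), ((pp k P l : (ZMod p)ˣ) : ZMod p) * et al be l =
          ∑ l ∈ (Ico (i' + 1 + 1) (k + 1)).erase (j' + 1), ((pp k Q l : (ZMod p)ˣ) : ZMod p) * et al be l := by
        refine sum_congr rfl fun l hl => ?_
        rw [mem_erase, mem_Ico] at hl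
        rw [h3 l (by omega) (by omega) hl.1]
      rw [a3, e1] at a1
      have a4 : ((pp k P (j' + 1) : (ZMod p)ˣ) : ZMod p) * et al be (j' + 1) =
          ((pp k Q (j' + 1) : (ZMod p)ˣ) : ZMod p) * et al be (j' + 1) := by
        linear_combination a1 - a2
      exact Units.ext (mul_right_cancel₀ hj0 a4)
    funext l
    rcases l with ⟨l, hl⟩
    by_cases hl1 : l = i'
    · subst hl1
      rwa [pp_succ P hl, pp_succ Q hl] at e1
    · by_cases hl2 : l = j'
      · subst hl2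
        rwa [pp_succ P hl, pp_succ Q hl] at e2
      · exact h2 ⟨l, hl⟩ (fun h => hl1 (Fin.mk.inj h)) (fun h => hl2 (Fin.mk.inj h))
  rw [card_univ, Fintype.card_fun, ZMod.card_units] at h1
  have h5 : Fintype.card {l : Fin k // l ≠ ⟨i', hi''⟩ ∧ l ≠ ⟨j', hj''⟩} = k - 2 := by
    have h6 : ((univ : Finset (Fin k)).filter fun l => l ≠ ⟨i', hi''⟩ ∧ l ≠ ⟨j', hj''⟩) =
        ((univ : Finset (Fin k)).erase ⟨i', hi''⟩).erase ⟨j', hj''⟩ := by
      ext l
      rw [mem_filter, mem_erase, mem_erase]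
      constructor
      · rintro ⟨_, h7, h8⟩
        exact ⟨h8, h7, mem_univ _⟩
      · rintro ⟨h8, h7, _⟩
        exact ⟨mem_univ _, h7, h8⟩
    rw [Fintype.card_subtype, h6, card_erase_of_mem, card_erase_of_mem (mem_univ _), card_univ, Fintype.card_fin]
    · rfl
    · rw [mem_erase]
      refine ⟨?_, mem_univ _⟩
      intro h
      rw [Fin.mk.injEq] at h
      omega
  rwa [h5] at h1

private theorem U07_union {α : Type*} (B : Finset α) (n c p : ℕ) (f g : ℕ → Finset α)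
    (hB : ∀ x ∈ B, ∃ i < n, x ∈ f i ∨ x ∈ g i) (hf : ∀ i < n, (f i).card * p ≤ c) (hg : ∀ i < n, (g i).card * p ≤ c) :
    B.card * p ≤ 2 * n * c := by
  classical
  have h1 : B ⊆ (range n).biUnion fun i => f i ∪ g i := by
    intro x hx
    obtain ⟨i, hi, h⟩ := hB x hx
    rw [mem_biUnion]
    exact ⟨i, mem_range.2 hi, mem_union.2 h⟩
  have h2 : B.card ≤ ∑ i ∈ range n, (f i ∪ g i).card := (card_le_card h1).trans card_biUnion_le
  have h3 : ∑ i ∈ range n, (f i ∪ g i).card * p ≤ ∑ i ∈ range n, 2 * c := by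
    refine sum_le_sum fun i hi => ?_
    rw [mem_range] at hi
    have h4 := Nat.mul_le_mul_right p (card_union_le (f i) (g i))
    have h5 := hf i hi
    have h6 := hg i hi
    rw [add_mul] at h4
    omega
  have h7 := Nat.mul_le_mul_right p h2
  rw [sum_mul] at h7
  have h8 : ∑ i ∈ range n, 2 * c = 2 * n * c := by
    rw [sum_const, card_range, smul_eq_mul]
    ring
  rw [h8] at h3
  exact h7.trans h3

private theorem U07_pow {p k : ℕ} (hp : 5 ≤ p) (hk : 1 ≤ k) : (p - 1) ^ (k - 1) * p ≤ 2 * (p - 1) ^ k := by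
  obtain ⟨l, rfl⟩ : ∃ l, k = l + 1 := ⟨k - 1, by omega⟩
  rw [Nat.add_sub_cancel, pow_succ]
  have h1 : p ≤ 2 * (p - 1) := by omega
  calc (p - 1) ^ l * p ≤ (p - 1) ^ l * (2 * (p - 1)) := Nat.mul_le_mul_left _ h1
    _ = 2 * ((p - 1) ^ l * (p - 1)) := by ring

private theorem U07_zero {p k : ℕ} [Fact p.Prime] (hp : 5 ≤ p) (al be : ℕ → (ZMod p)ˣ) (hg : Good3 k al be)
    (DN Y : ZMod p) (hDN : DN ≠ 0) (B : Finset (Fin k → (ZMod p)ˣ))
    (hB : ∀ P ∈ B, (∃ i ≤ k, Ti (k + 1) al be (pp k P) DN Y i = 0) ∨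
      (Y ≠ 0 ∧ DN + Y ≠ 0 ∧ ∃ i ≤ k, Ei (k + 1) al be (pp k P) DN Y i = 0)) :
    B.card * p ≤ 2 * (k + 1) * (2 * (p - 1) ^ k) := by
  classical
  obtain ⟨j, j1, j2, _, _⟩ := U07_good hg 0
  have hpw := U07_pow hp (show 1 ≤ k by omega)
  refine U07_union B (k + 1) (2 * (p - 1) ^ k) p
    (fun i => (univ : Finset (Fin k → (ZMod p)ˣ)).filter fun P => Ti (k + 1) al be (pp k P) DN Y i = 0)
    (fun i => if Y ≠ 0 ∧ DN + Y ≠ 0 then
      (univ : Finset (Fin k → (ZMod p)ˣ)).filter fun P => Ei (k + 1) al be (pp k P) DN Y i = 0 else ∅) ?_ ?_ ?_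
  · intro P hP
    rcases hB P hP with ⟨i, hi, h⟩ | ⟨h1, h2, i, hi, h⟩
    · exact ⟨i, by omega, Or.inl (mem_filter.2 ⟨mem_univ _, h⟩)⟩
    · refine ⟨i, by omega, Or.inr ?_⟩
      rw [if_pos ⟨h1, h2⟩]
      exact mem_filter.2 ⟨mem_univ _, h⟩
  · intro i hi
    exact (Nat.mul_le_mul_right p (U07_a al be hg DN Y hDN (by omega)).1).trans hpw
  · intro i hi
    split_ifs with h
    · exact (Nat.mul_le_mul_right p ((U07_a al be hg DN Y hDN (by omega)).2 h.1 h.2)).trans hpw
    · rw [card_empty, zero_mul]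
      exact Nat.zero_le _

private theorem U07_zeroN {p k : ℕ} [Fact p.Prime] (hp : 5 ≤ p) (al be : ℕ → (ZMod p)ˣ) (hg : Good3 k al be)
    (B : Finset (Fin k → (ZMod p)ˣ)) (hB : ∀ P ∈ B, Sg (k + 1) al be (pp k P) = 0) :
    B.card * p ≤ 2 * (p - 1) ^ k := by
  obtain ⟨j, j1, j2, _, j4⟩ := U07_good hg 0
  have h1 := U07_cnt (et al be) j1 j2 j4.ne_zero
  have h2 : B.card ≤ ((univ : Finset (Fin k → (ZMod p)ˣ)).filter fun P =>
      ∑ j ∈ range (k + 1), et al be j * ((pp k P j : (ZMod p)ˣ) : ZMod p) = 0).card := by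
    refine card_le_card fun P hP => ?_
    rw [mem_filter]
    refine ⟨mem_univ _, ?_⟩
    have h3 := hB P hP
    unfold Sg at h3
    rw [← h3]
    exact sum_congr rfl fun _ _ => mul_comm _ _
  exact (Nat.mul_le_mul_right p (h2.trans h1)).trans (U07_pow hp (by omega))

private theorem U07_F {p a D u N : ℕ} [Fact p.Prime] (hD : D = p ^ a * u) {x x' : ZMod (p ^ (a + 1))}
    (h : rd p a x = rd p a x') :
    (D : ZMod (p ^ (a + 1))) * N * x = (D : ZMod (p ^ (a + 1))) * N * x' := by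
  have h1 : (p : ZMod (p ^ (a + 1))) ^ a * (x - x') = 0 := by
    rw [U07_ann, map_sub, h, sub_self]
  have h2 : (D : ZMod (p ^ (a + 1))) = (p : ZMod (p ^ (a + 1))) ^ a * u := by
    rw [hD]
    push_cast
    rfl
  rw [h2]
  linear_combination (u : ZMod (p ^ (a + 1))) * N * h1

private theorem U07_rdpp {p a k : ℕ} (P P' : Fin k → (ZMod (p ^ (a + 1)))ˣ) (h : ∀ j, rdu p a (P j) = rdu p a (P' j))
    (j : ℕ) : rd p a (pp k P j : (ZMod (p ^ (a + 1)))ˣ) = rd p a (pp k P' j : (ZMod (p ^ (a + 1)))ˣ) := by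
  cases j with
  | zero => rfl
  | succ l =>
    by_cases hl : l < k
    · rw [pp_succ P hl, pp_succ P' hl]
      exact congrArg Units.val (h ⟨l, hl⟩)
    · have e : ∀ Q : Fin k → (ZMod (p ^ (a + 1)))ˣ, pp k Q (l + 1) = 1 := fun Q => ex_ge Q (Nat.not_lt.1 hl)
      rw [e, e]

private theorem U07_rdS {p a k : ℕ} (al be : ℕ → (ZMod (p ^ (a + 1)))ˣ) (P P' : Fin k → (ZMod (p ^ (a + 1)))ˣ)
    (h : ∀ j, rdu p a (P j) = rdu p a (P' j)) (i : ℕ) :
    rd p a (∑ j ∈ range i, ((pp k P j : (ZMod (p ^ (a + 1)))ˣ) : ZMod (p ^ (a + 1))) * et al be j) =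
      rd p a (∑ j ∈ range i, ((pp k P' j : (ZMod (p ^ (a + 1)))ˣ) : ZMod (p ^ (a + 1))) * et al be j) := by
  rw [map_sum, map_sum]
  refine sum_congr rfl fun j _ => ?_
  rw [map_mul, map_mul, U07_rdpp P P' h]

private theorem U07_rdM {p a k : ℕ} (al be : ℕ → (ZMod (p ^ (a + 1)))ˣ) (P P' : Fin k → (ZMod (p ^ (a + 1)))ˣ)
    (h : ∀ j, rdu p a (P j) = rdu p a (P' j)) (i : ℕ) :
    rd p a (Mi al be (pp k P) i) = rd p a (Mi al be (pp k P') i) := by
  unfold Mi
  rw [map_sub, map_sub, U07_rdS al be P P' h, map_mul, map_mul, U07_rdpp P P' h]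

private theorem U07_ppm {H K : Type*} [CommGroup H] [CommGroup K] (f : H →* K) {k : ℕ} (P : Fin k → H) (j : ℕ) :
    f (pp k P j) = pp k (fun l => f (P l)) j := by
  cases j with
  | zero => exact map_one f
  | succ l =>
    by_cases hl : l < k
    · rw [pp_succ P hl, pp_succ _ hl]
    · have e1 : pp k P (l + 1) = 1 := ex_ge P (Nat.not_lt.1 hl)
      have e2 : pp k (fun l => f (P l)) (l + 1) = 1 := ex_ge (fun l => f (P l)) (Nat.not_lt.1 hl)
      rw [e1, e2, map_one]

private theorem U07_rdet {p a : ℕ} (al be : ℕ → (ZMod (p ^ (a + 1)))ˣ) (j : ℕ) :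
    rd p a (et al be j) = et (fun j => rdu p a (al j)) (fun j => rdu p a (be j)) j := by
  unfold et
  rw [map_sub]
  rfl

private theorem U07_rdMi {p a k : ℕ} (al be : ℕ → (ZMod (p ^ (a + 1)))ˣ) (P : Fin k → (ZMod (p ^ (a + 1)))ˣ) (i : ℕ) :
    rd p a (Mi al be (pp k P) i) =
      Mi (fun j => rdu p a (al j)) (fun j => rdu p a (be j)) (pp k fun l => rdu p a (P l)) i := by
  unfold Mi
  have h1 : ∀ j, rd p a ((pp k P j : (ZMod (p ^ (a + 1)))ˣ) : ZMod (p ^ (a + 1))) =
      ((pp k (fun l => rdu p a (P l)) j : (ZMod p)ˣ) : ZMod p) := by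
    intro j
    rw [← U07_ppm]
    rfl
  rw [map_sub, map_mul, map_sum, h1]
  congr 1
  refine sum_congr rfl fun j _ => ?_
  rw [map_mul, h1, U07_rdet]

private theorem U07_rdSg {p a k : ℕ} (al be : ℕ → (ZMod (p ^ (a + 1)))ˣ) (P : Fin k → (ZMod (p ^ (a + 1)))ˣ) :
    rd p a (Sg (k + 1) al be (pp k P)) =
      Sg (k + 1) (fun j => rdu p a (al j)) (fun j => rdu p a (be j)) (pp k fun l => rdu p a (P l)) := by
  rw [U06_Sg]
  congr 1
  funext j
  exact U07_ppm _ _ _

private theorem U07_e {p a k : ℕ} [Fact p.Prime] [NeZero (p ^ (a + 1))] (hp : 5 ≤ p) (ha : 1 ≤ a)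
    (al be : ℕ → (ZMod (p ^ (a + 1)))ˣ) (hg : Good3 k al be) {i : ℕ} (hi : i ≤ k)
    (A₁ A₀ : Finset (Fin k → (ZMod (p ^ (a + 1)))ˣ))
    (h1 : ∀ P ∈ A₁, (p : ZMod (p ^ (a + 1))) ^ a ∣ Sg (k + 1) al be (pp k P) ∧ rd p a (Mi al be (pp k P) i) = 0)
    (h0 : ∀ P, (p : ZMod (p ^ (a + 1))) ^ a ∣ Sg (k + 1) al be (pp k P) → P ∈ A₀) :
    A₁.card * p ≤ 2 * A₀.card := by
  classical
  obtain ⟨j₁, j₂, j₃, h12, h23, h3, _, u2, u3⟩ := hg
  obtain ⟨L, hL⟩ : ∃ L : (Fin k → (ZMod p)ˣ) → Finset (Fin k → (ZMod (p ^ (a + 1)))ˣ), L = fun Q =>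
    (univ : Finset (Fin k → (ZMod (p ^ (a + 1)))ˣ)).filter fun P =>
      (∀ j, rdu p a (P j) = Q j) ∧ (p : ZMod (p ^ (a + 1))) ^ a ∣ Sg (k + 1) al be (pp k P) := ⟨_, rfl⟩
  have hlift : ∀ Q : Fin k → (ZMod p)ˣ,
      Sg (k + 1) (fun j => rdu p a (al j)) (fun j => rdu p a (be j)) (pp k Q) = 0 →
      (L Q).card * p ^ (a - 1) = p ^ (a * k) := by
    intro Q hQ
    rw [hL]
    exact U06_lift ha al be (show 1 ≤ j₂ by omega) (by omega) u2 Q hQ
  have hpow : 0 < p ^ (a - 1) := pow_pos (by omega) _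
  -- upper bound
  have hup : A₁.card * p ^ (a - 1) ≤ (p - 1) ^ (k - 2) * p ^ (a * k) := by
    have hsub : A₁ ⊆ ((univ : Finset (Fin k → (ZMod p)ˣ)).filter fun Q =>
        Mi (fun j => rdu p a (al j)) (fun j => rdu p a (be j)) (pp k Q) i = 0 ∧
        Ni (k + 1) (fun j => rdu p a (al j)) (fun j => rdu p a (be j)) (pp k Q) i = 0).biUnion L := by
      intro P hP
      obtain ⟨e1, e2⟩ := h1 P hP
      rw [mem_biUnion]
      refine ⟨fun l => rdu p a (P l), ?_, ?_⟩
      · rw [mem_filter]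
        rw [U07_rdMi] at e2
        refine ⟨mem_univ _, e2, ?_⟩
        unfold Ni
        rw [e2, zero_add, ← U07_rdSg]
        obtain ⟨w, hw⟩ := e1
        rw [hw, map_mul, map_pow, map_natCast, ZMod.natCast_self, zero_pow (by omega), zero_mul]
      · rw [hL]
        exact mem_filter.2 ⟨mem_univ _, fun _ => rfl, e1⟩
    have h4 := (card_le_card hsub).trans card_biUnion_le
    have h5 := Nat.mul_le_mul_right (p ^ (a - 1)) h4
    rw [sum_mul] at h5
    refine h5.trans ?_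
    have h6 := U07_d (fun j => rdu p a (al j)) (fun j => rdu p a (be j)) hi
    refine le_trans (le_of_eq ?_) (Nat.mul_le_mul_right (p ^ (a * k)) h6)
    rw [← smul_eq_mul, ← sum_const]
    refine sum_congr rfl fun Q hQ => hlift Q ?_
    rw [mem_filter] at hQ
    have h7 := hQ.2.2
    unfold Ni at h7
    rw [hQ.2.1, zero_add] at h7
    exact h7
  -- lower bound
  have hlo : (p - 1) ^ (k - 2) * (p - 2) * p ^ (a * k) ≤ A₀.card * p ^ (a - 1) := by
    have hsub : ((univ : Finset (Fin k → (ZMod p)ˣ)).filter fun Q =>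
        Sg (k + 1) (fun j => rdu p a (al j)) (fun j => rdu p a (be j)) (pp k Q) = 0).biUnion L ⊆ A₀ := by
      intro P hP
      rw [mem_biUnion] at hP
      obtain ⟨Q, _, hQ⟩ := hP
      rw [hL, mem_filter] at hQ
      exact h0 P hQ.2.2
    have hdisj : ∀ Q ∈ ((univ : Finset (Fin k → (ZMod p)ˣ)).filter fun Q =>
        Sg (k + 1) (fun j => rdu p a (al j)) (fun j => rdu p a (be j)) (pp k Q) = 0),
        ∀ Q' ∈ ((univ : Finset (Fin k → (ZMod p)ˣ)).filter fun Q =>
        Sg (k + 1) (fun j => rdu p a (al j)) (fun j => rdu p a (be j)) (pp k Q) = 0), Q ≠ Q' → Disjoint (L Q) (L Q') := by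
      intro Q _ Q' _ hne
      rw [disjoint_left]
      intro P hP hP'
      rw [hL, mem_filter] at hP hP'
      exact hne (funext fun j => (hP.2.1 j).symm.trans (hP'.2.1 j))
    have h4 := card_le_card hsub
    rw [card_biUnion hdisj] at h4
    have h5 := Nat.mul_le_mul_right (p ^ (a - 1)) h4
    rw [sum_mul] at h5
    refine le_trans ?_ h5
    have hu2 : IsUnit (et (fun j => rdu p a (al j)) (fun j => rdu p a (be j)) j₂) := by
      rw [← U07_rdet]
      exact u2.map _
    have hu3 : IsUnit (et (fun j => rdu p a (al j)) (fun j => rdu p a (be j)) j₃) := by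
      rw [← U07_rdet]
      exact u3.map _
    have h6 := (U06_mod (fun j => rdu p a (al j)) (fun j => rdu p a (be j)) (show 1 ≤ j₂ by omega) h23 h3 hu2 hu3).1
    refine (Nat.mul_le_mul_right (p ^ (a * k)) h6).trans (le_of_eq ?_)
    rw [← smul_eq_mul, ← sum_const]
    refine sum_congr rfl fun Q hQ => (hlift Q ?_).symm
    rw [mem_filter] at hQ
    exact hQ.2
  refine Nat.le_of_mul_le_mul_right ?_ hpow
  have h8 : p ≤ 2 * (p - 2) := by omega
  calc A₁.card * p * p ^ (a - 1) = (A₁.card * p ^ (a - 1)) * p := by ring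
    _ ≤ ((p - 1) ^ (k - 2) * p ^ (a * k)) * (2 * (p - 2)) := Nat.mul_le_mul hup h8
    _ = 2 * ((p - 1) ^ (k - 2) * (p - 2) * p ^ (a * k)) := by ring
    _ ≤ 2 * (A₀.card * p ^ (a - 1)) := Nat.mul_le_mul_left _ hlo
    _ = 2 * A₀.card * p ^ (a - 1) := by ring

private theorem U07_cast {p a n : ℕ} (hn : ¬ p ∣ n) : rd p a (n : ZMod (p ^ (a + 1))) ≠ 0 := by
  rw [map_natCast]
  intro h
  exact hn ((ZMod.natCast_eq_zero_iff _ _).1 h)

theorem U07 {p a k N D u Yn y : ℕ} [Fact p.Prime] [NeZero (p ^ (a + 1))] (hp : 5 ≤ p) (hD : D = p ^ a * u) (hu : ¬ p ∣ u)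
    (al be : ℕ → (ZMod (p ^ (a + 1)))ˣ) (hg : Good3 k al be) :
    open Classical in ((univ : Finset (Fin k → (ZMod (p ^ (a + 1)))ˣ)).filter fun P =>
      (p : ZMod (p ^ (a + 1))) ^ a ∣ Sg (k + 1) al be (pp k P) ∧ Bad p a k N D Yn y al be (pp k P)).card * p ≤
    8 * (k + 1) * ((univ : Finset (Fin k → (ZMod (p ^ (a + 1)))ˣ)).filter fun P =>
      (p : ZMod (p ^ (a + 1))) ^ a ∣ Sg (k + 1) al be (pp k P)).card := by
  classical
  have hpp := (Fact.out : p.Prime)
  obtain ⟨B, hB⟩ : ∃ B : Finset (Fin k → (ZMod (p ^ (a + 1)))ˣ), B = (univ : Finset (Fin k → (ZMod (p ^ (a + 1)))ˣ)).filter fun P =>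
      (p : ZMod (p ^ (a + 1))) ^ a ∣ Sg (k + 1) al be (pp k P) ∧ Bad p a k N D Yn y al be (pp k P) := ⟨_, rfl⟩
  have hBm : ∀ P ∈ B, (p : ZMod (p ^ (a + 1))) ^ a ∣ Sg (k + 1) al be (pp k P) ∧ Bad p a k N D Yn y al be (pp k P) := by
    intro P hP
    rw [hB, mem_filter] at hP
    exact hP.2
  rw [← hB]
  clear hB
  obtain ⟨A, hA⟩ : ∃ A : Finset (Fin k → (ZMod (p ^ (a + 1)))ˣ), A = (univ : Finset (Fin k → (ZMod (p ^ (a + 1)))ˣ)).filter fun P =>
      (p : ZMod (p ^ (a + 1))) ^ a ∣ Sg (k + 1) al be (pp k P) := ⟨_, rfl⟩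
  rw [← hA]
  rcases Nat.eq_zero_or_pos a with ha | ha
  · subst ha
    have hq : (p ^ (0 + 1)).Prime := by simpa using hpp
    have : Fact (p ^ (0 + 1)).Prime := ⟨hq⟩
    have hpe : p ^ (0 + 1) = p := by rw [zero_add, pow_one]
    have hq5 : 5 ≤ p ^ (0 + 1) := by rw [hpe]; exact hp
    have hAc : A.card = (p ^ (0 + 1) - 1) ^ k := by
      rw [hA, filter_true_of_mem, card_univ, Fintype.card_fun, ZMod.card_units, Fintype.card_fin]
      intro P _
      rw [pow_zero]
      exact one_dvd _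
    by_cases hN : p ∣ N
    · have h1 := U07_zeroN hq5 al be hg B (fun P hP => by
        rcases (hBm P hP).2 with h | h | h
        · exact h.2
        · exact absurd hN h.1
        · exact absurd hN h.1)
      rw [← hAc] at h1
      have h2 : B.card * p ^ (0 + 1) = B.card * p := congrArg _ hpe
      rw [h2] at h1
      refine h1.trans (Nat.mul_le_mul_right _ (by omega))
    · have hDN : (D : ZMod (p ^ (0 + 1))) * N ≠ 0 := by
        rw [hD, pow_zero, one_mul]
        have e1 : ∀ n : ℕ, ¬ p ∣ n → (n : ZMod (p ^ (0 + 1))) ≠ 0 := by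
          intro n hn h
          rw [ZMod.natCast_eq_zero_iff, hpe] at h
          exact hn h
        exact mul_ne_zero (e1 u hu) (e1 N hN)
      have h1 := U07_zero hq5 al be hg ((D : ZMod (p ^ (0 + 1))) * N) (Yn : ZMod (p ^ (0 + 1))) hDN B (fun P hP => by
        rcases (hBm P hP).2 with h | h | h
        · exact absurd h.1 hN
        · exact Or.inl h.2
        · refine Or.inr ⟨?_, ?_, h.2.2.2.2⟩
          · intro h2
            rw [ZMod.natCast_eq_zero_iff, hpe] at h2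
            exact h.2.2.1 h2
          · intro h2
            have h3 : ((Yn + D * N : ℕ) : ZMod (p ^ (0 + 1))) = 0 := by
              push_cast
              rw [add_comm]
              exact h2
            rw [ZMod.natCast_eq_zero_iff, hpe] at h3
            exact h.2.2.2.1 h3)
      rw [← hAc] at h1
      have h2 : B.card * p ^ (0 + 1) = B.card * p := congrArg _ hpe
      rw [h2] at h1
      refine h1.trans ?_
      have h3 : 2 * (k + 1) * (2 * A.card) = 4 * (k + 1) * A.card := by ring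
      rw [h3]
      exact Nat.mul_le_mul_right _ (by omega)
  · obtain ⟨j, j1, j2, _, j4⟩ := U07_good hg 0
    have hb : ∀ (F : (Fin k → (ZMod (p ^ (a + 1)))ˣ) → ZMod (p ^ (a + 1))) (C : Finset (Fin k → (ZMod (p ^ (a + 1)))ˣ)),
        (∀ P P', (∀ j, rdu p a (P j) = rdu p a (P' j)) → F P = F P') →
        (∀ P ∈ C, (p : ZMod (p ^ (a + 1))) ^ a ∣ Sg (k + 1) al be (pp k P) ∧ Sg (k + 1) al be (pp k P) = F P) →
        C.card * p ≤ A.card := by
      intro F C hF hC
      have h1 := U07_b ha al be j1 j2 j4 F hF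
      rw [hA]
      refine le_trans (Nat.mul_le_mul_right p (card_le_card ?_)) h1
      intro P hP
      rw [mem_filter]
      exact ⟨mem_univ _, hC P hP⟩
    by_cases hN : p ∣ N
    · have h1 := hb (fun _ => 0) B (fun _ _ _ => rfl) (fun P hP => ⟨(hBm P hP).1, by
        rcases (hBm P hP).2 with h | h | h
        · exact h.2
        · exact absurd hN h.1
        · exact absurd hN h.1⟩)
      refine h1.trans ?_
      have h2 : A.card = 1 * A.card := (one_mul _).symm
      conv_lhs => rw [h2]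
      exact Nat.mul_le_mul_right _ (by omega)
    · by_cases hY : p ∣ Yn
      · have h1 := U07_union B (k + 1) (2 * A.card) p
          (fun i => (univ : Finset (Fin k → (ZMod (p ^ (a + 1)))ˣ)).filter fun P =>
            (p : ZMod (p ^ (a + 1))) ^ a ∣ Sg (k + 1) al be (pp k P) ∧ rd p a (Mi al be (pp k P) i) = 0) (fun _ => ∅) ?_ ?_ ?_
        · refine h1.trans ?_
          have h3 : 2 * (k + 1) * (2 * A.card) = 4 * (k + 1) * A.card := by ring
          rw [h3]
          exact Nat.mul_le_mul_right _ (by omega)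
        · intro P hP
          obtain ⟨e1, e2⟩ := hBm P hP
          rcases e2 with h | h | h
          · exact absurd h.1 hN
          · obtain ⟨_, i, hi, h⟩ := h
            refine ⟨i, by omega, Or.inl ?_⟩
            rw [mem_filter]
            refine ⟨mem_univ _, e1, ?_⟩
            unfold Ti at h
            have e3 : (Yn : ZMod (p ^ (a + 1))) * Sg (k + 1) al be (pp k P) = 0 := by
              obtain ⟨w, hw⟩ := e1
              obtain ⟨z, hz⟩ := hY
              have e4 : (p : ZMod (p ^ (a + 1))) ^ (a + 1) = 0 := by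
                rw [← Nat.cast_pow]
                exact ZMod.natCast_self _
              rw [hw, hz, Nat.cast_mul]
              linear_combination (z : ZMod (p ^ (a + 1))) * w * e4
            rw [e3, sub_zero, hD, Nat.cast_mul, Nat.cast_pow] at h
            have e5 : (p : ZMod (p ^ (a + 1))) ^ a * ((u : ZMod (p ^ (a + 1))) * N * Mi al be (pp k P) i) = 0 := by
              rw [← h]
              ring
            rw [U07_ann, map_mul, map_mul] at e5
            rcases mul_eq_zero.1 e5 with e6 | e6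
            · rcases mul_eq_zero.1 e6 with e7 | e7
              · exact absurd e7 (U07_cast hu)
              · exact absurd e7 (U07_cast hN)
            · exact e6
          · exact absurd hY h.2.2.1
        · intro i hi
          refine U07_e hp ha al be hg (show i ≤ k by omega) _ A ?_ ?_
          · intro P hP
            rw [mem_filter] at hP
            exact hP.2
          · intro P hP
            rw [hA, mem_filter]
            exact ⟨mem_univ _, hP⟩
        · intro i hi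
          rw [card_empty, zero_mul]
          exact Nat.zero_le _
      · obtain ⟨Yu, hYu⟩ : ∃ Yu : (ZMod (p ^ (a + 1)))ˣ, (Yu : ZMod (p ^ (a + 1))) = Yn := by
          have h1 : Nat.Coprime Yn (p ^ (a + 1)) := Nat.Coprime.pow_right _ ((Nat.Prime.coprime_iff_not_dvd hpp).2 hY).symm
          exact ⟨ZMod.unitOfCoprime Yn h1, ZMod.coe_unitOfCoprime Yn h1⟩
        have hYi : ∀ x z : ZMod (p ^ (a + 1)), (Yn : ZMod (p ^ (a + 1))) * x = z →
            x = ((Yu⁻¹ : (ZMod (p ^ (a + 1)))ˣ) : ZMod (p ^ (a + 1))) * z := by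
          intro x z h
          rw [← h, ← hYu, Units.inv_mul_cancel_left]
        have h1 := U07_union B (k + 1) A.card p
          (fun i => (univ : Finset (Fin k → (ZMod (p ^ (a + 1)))ˣ)).filter fun P =>
            (p : ZMod (p ^ (a + 1))) ^ a ∣ Sg (k + 1) al be (pp k P) ∧ Sg (k + 1) al be (pp k P) =
              ((Yu⁻¹ : (ZMod (p ^ (a + 1)))ˣ) : ZMod (p ^ (a + 1))) * ((D : ZMod (p ^ (a + 1))) * N * Mi al be (pp k P) i))
          (fun i => (univ : Finset (Fin k → (ZMod (p ^ (a + 1)))ˣ)).filter fun P =>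
            (p : ZMod (p ^ (a + 1))) ^ a ∣ Sg (k + 1) al be (pp k P) ∧ Sg (k + 1) al be (pp k P) =
              ((Yu⁻¹ : (ZMod (p ^ (a + 1)))ˣ) : ZMod (p ^ (a + 1))) * (- ((D : ZMod (p ^ (a + 1))) * N *
                ∑ j ∈ range (i + 1), ((pp k P j : (ZMod (p ^ (a + 1)))ˣ) : ZMod (p ^ (a + 1))) * et al be j))) ?_ ?_ ?_
        · refine h1.trans ?_
          exact Nat.mul_le_mul_right _ (by omega)
        · intro P hP
          obtain ⟨e1, e2⟩ := hBm P hP
          rcases e2 with h | h | h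
          · exact absurd h.1 hN
          · obtain ⟨_, i, hi, h⟩ := h
            refine ⟨i, by omega, Or.inl ?_⟩
            rw [mem_filter]
            refine ⟨mem_univ _, e1, hYi _ _ ?_⟩
            unfold Ti at h
            linear_combination - h
          · obtain ⟨_, _, _, _, i, hi, h⟩ := h
            refine ⟨i, by omega, Or.inr ?_⟩
            rw [mem_filter]
            refine ⟨mem_univ _, e1, hYi _ _ ?_⟩
            unfold Ei at h
            linear_combination h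
        · intro i hi
          refine hb (fun P => ((Yu⁻¹ : (ZMod (p ^ (a + 1)))ˣ) : ZMod (p ^ (a + 1))) *
            ((D : ZMod (p ^ (a + 1))) * N * Mi al be (pp k P) i)) _ ?_ ?_
          · intro P P' h
            rw [U07_F hD (U07_rdM al be P P' h i)]
          · intro P hP
            rw [mem_filter] at hP
            exact hP.2
        · intro i hi
          refine hb (fun P => ((Yu⁻¹ : (ZMod (p ^ (a + 1)))ˣ) : ZMod (p ^ (a + 1))) * (- ((D : ZMod (p ^ (a + 1))) * N *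
                ∑ j ∈ range (i + 1), ((pp k P j : (ZMod (p ^ (a + 1)))ˣ) : ZMod (p ^ (a + 1))) * et al be j))) _ ?_ ?_
          · intro P P' h
            rw [U07_F hD (U07_rdS al be P P' h (i + 1))]
          · intro P hP
            rw [mem_filter] at hP
            exact hP.2

end Pool.Agent.Lib.TC
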