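import Pool.Agent.Lib.MP_7b7e48_nt.TC.Q08
import Pool.Agent.Lib.MP_7b7e48_nt.TC.POK
import Pool.Agent.Lib.MP_7b7e48_nt.TC.U05
import Pool.Agent.Lib.MP_7b7e48_nt.TC.U07

/-!
# Q14: the local proportions (3.2), (3.3)

`lav` is the number of `P : Fin k → HP T.D p` with `cb` divided by `(p^v (p-1))^k`, `v = padicValNat p T.D` (`av_eq`, `ZMod.card_units_eq_totient`, `Nat.totient_prime_pow_succ`).
* `Q14_cls`: `α_j ≡ 1` modulo `W0²` (so modulo `p²`), `β_j ≡ 1 - (-1)^j p` modulo `p²`; `toU q n = n` as `n` is a prime `> y0`, coprime to `q`.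
* `Q14_small`: `p < p0`, so `p ∈ base`, `v ≥ 2` (`p² ∣ W0² ∣ D`), the condition is `cS`: `P j ≡ 1` modulo `p` for all `j` and `Sg = τ` with `τ = n_p D/(α_0 yn)`, `p² ∣ τ`: `U05` (with `U05_et`, `ε = (-1)^j`;
  `(p : R) ∣ x - 1` iff `castHom x = 1`): the number is `p^(vk)/p^(v-1)`.
* `Q14_D`: `p ≥ p0`, `p ∣ D` (so `p ∈ base`, `v ≥ 1`), `Good3`: `U06` (from three good indices two are `≥ 1`).
* `Q14_bad`: `p ∈ PS`: `cb .. False` is `cD` (trivial for `v = 0`), `cb .. True` implies `cD` and `Bad` of `U07` (`a = v`, `u = D / p^v`): `U07`.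
* `Q14_one`: for `p ∉ base` the condition `cb .. False` is void.
* `Q14_good`: not `badpair`: for `p ∈ PS` at least three `j ≤ k` with `p ∤ α_j - β_j`; then `1/β_j - 1/α_j` is a unit.
-/

set_option autoImplicit false

open Finset

namespace Pool.Agent.Lib.TC

variable {S : MS} {T : Dat} {W0 : ℕ} {Z : Fin (S.k + 1) → ℕ} {μ : S.TX} {ν : S.TY}

/-! ### auxiliary lemmas -/

private theorem Q14_finite (n : ℕ) : Finite (ZMod n)ˣ := by
  rcases Nat.eq_zero_or_pos n with h | h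
  · subst h
    exact inferInstanceAs (Finite ℤˣ)
  · have : NeZero n := ⟨h.ne'⟩
    infer_instance

private theorem Q14_toU {p l : ℕ} (hp : p.Prime) (hl : l.Prime) (h : p < l) (n : ℕ) :
    ((toU (p ^ n) l : (ZMod (p ^ n))ˣ) : ZMod (p ^ n)) = (l : ZMod (p ^ n)) := by
  have h1 : l.Coprime (p ^ n) := ((Nat.coprime_primes hl hp).2 h.ne').pow_right n
  unfold toU
  rw [dif_pos h1, ZMod.coe_unitOfCoprime]

private theorem Q14_aq {p n : ℕ} (hp : p.Prime) (v : ℕ) (α : Fin n → ℕ) (hα : ∀ i, (α i).Prime ∧ p < α i) {j : ℕ} (hj : j < n) :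
    ((aq (p ^ v) α j : (ZMod (p ^ v))ˣ) : ZMod (p ^ v)) = (α ⟨j, hj⟩ : ZMod (p ^ v)) := by
  unfold aq rs
  rw [Loc.ex_lt _ hj]
  exact Q14_toU hp (hα _).1 (hα _).2 v

private theorem Q14_wX (hT : T.OK W0) (hS : S.OK T W0 Z) (hμ : μ ∈ S.MX) (i : Fin (S.k + 1)) :
    μ.1 i ∈ S.WX i ∧ (μ.1 i).Prime ∧ T.y0 < μ.1 i := by
  unfold MS.MX at hμ
  rw [mem_product, Fintype.mem_piFinset] at hμ
  obtain ⟨h1, -, h2, -⟩ := hS.WX_mem i _ (hμ.1 i)
  have h3 := hS.Z_lo i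
  have h4 := hT.y0_lt
  exact ⟨hμ.1 i, h1, by nlinarith⟩

private theorem Q14_wY (hT : T.OK W0) (hS : S.OK T W0 Z) (hν : ν ∈ S.MY) (i : Fin (S.k + 1)) :
    ν.1 i ∈ S.WY i ∧ (ν.1 i).Prime ∧ T.y0 < ν.1 i := by
  unfold MS.MY at hν
  rw [mem_product, Fintype.mem_piFinset] at hν
  obtain ⟨h1, -, h2, -⟩ := hS.WY_mem i _ (hν.1 i)
  have h3 := hS.Z_lo i
  have h4 := hT.y0_lt
  exact ⟨hν.1 i, h1, by nlinarith⟩

private theorem Q14_cast {q : ℕ} (m a b : ℤ) (h : m ∣ a - b) : (m : ZMod q) ∣ (a : ZMod q) - (b : ZMod q) := by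
  obtain ⟨t, ht⟩ := h
  refine ⟨(t : ZMod q), ?_⟩
  have := congrArg (fun x : ℤ => (x : ZMod q)) ht
  push_cast at this
  exact this

private theorem Q14_dvd {p a : ℕ} [NeZero (p ^ (a + 1))] (x : ZMod (p ^ (a + 1))) :
    ZMod.castHom (dvd_pow_self p (Nat.succ_ne_zero a)) (ZMod p) x = 0 ↔ (p : ZMod (p ^ (a + 1))) ∣ x := by
  constructor
  · intro h
    have hx : x = ((x.val : ℕ) : ZMod (p ^ (a + 1))) := (ZMod.natCast_zmod_val x).symm
    rw [hx, map_natCast, ZMod.natCast_eq_zero_iff] at h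
    obtain ⟨t, ht⟩ := h
    rw [hx, ht, Nat.cast_mul]
    exact dvd_mul_right _ _
  · rintro ⟨t, rfl⟩
    rw [map_mul, map_natCast, ZMod.natCast_self, zero_mul]

private theorem Q14_card {p : ℕ} (hp : p.Prime) (v k : ℕ) [NeZero (p ^ (v + 1))] :
    Fintype.card (Fin k → (ZMod (p ^ (v + 1)))ˣ) = (p ^ v * (p - 1)) ^ k := by
  rw [Fintype.card_fun, Fintype.card_fin, ZMod.card_units_eq_totient, Nat.totient_prime_pow_succ hp]

open Classical in
private theorem Q14_lav {T : Dat} {k p : ℕ} (hp : p.Prime) (yn : ℕ) (B : Prop) (al be : ℕ → HP T.D p)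
    [NeZero (p ^ (padicValNat p T.D + 1))] : lav T k p yn B al be =
      (((univ : Finset (Fin k → HP T.D p)).filter fun P => cb T k p yn B al be (Loc.pp k P)).card : ℝ) /
        (((p ^ padicValNat p T.D * (p - 1)) ^ k : ℕ) : ℝ) := by
  unfold lav
  rw [av_eq, Q14_card hp]
  congr 1
  rw [Finset.card_filter]
  push_cast
  refine sum_congr rfl fun P _ => ?_
  by_cases h : cb T k p yn B al be (Loc.pp k P)
  · rw [ind_true h, if_pos h]
  · rw [ind_false h, if_neg h]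

private theorem Q14_vpos {D : ℕ} (hD : 0 < D) {p : ℕ} (hp : p.Prime) : p ∣ D ↔ 1 ≤ padicValNat p D := by
  have : Fact p.Prime := ⟨hp⟩
  rw [← padicValNat_dvd_iff_le hD.ne', pow_one]

theorem Q14_cls (hT : T.OK W0) (hS : S.OK T W0 Z) (hμ : μ ∈ S.MX) (hν : ν ∈ S.MY) {p : ℕ} (hp : p.Prime) (hp0 : p < T.p0) :
    (∀ j ≤ S.k, (p : RP T.D p) ^ 2 ∣ (aq (p ^ (padicValNat p T.D + 1)) μ.1 j : RP T.D p) - 1) ∧
    ∀ j ≤ S.k, (p : RP T.D p) ^ 2 ∣ (aq (p ^ (padicValNat p T.D + 1)) ν.1 j : RP T.D p) - (1 - (-1) ^ j * (p : RP T.D p)) := by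
  have hpy : p ≤ T.y0 := by
    have h1 := hT.p0_le
    have h2 := hT.y_le
    omega
  have hpW : p ∣ W0 := (hT.W0_pr p hp).2 hp0
  constructor
  · intro j hj
    rw [Q14_aq hp _ _ (fun i => ⟨(Q14_wX hT hS hμ i).2.1, lt_of_le_of_lt hpy (Q14_wX hT hS hμ i).2.2⟩) (show j < S.k + 1 by omega)]
    obtain ⟨h1, -, -⟩ := Q14_wX hT hS hμ ⟨j, by omega⟩
    obtain ⟨-, -, -, -, h2⟩ := hS.WX_mem _ _ h1
    have h3 : ((p ^ 2 : ℕ) : ℤ) ∣ (μ.1 ⟨j, by omega⟩ : ℤ) - (1 : ℕ) := by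
      have h4 : (μ.1 ⟨j, by omega⟩) ≡ 1 [MOD p ^ 2] := h2.of_dvd (pow_dvd_pow_of_dvd hpW 2)
      exact (Nat.modEq_iff_dvd.1 h4.symm)
    have h5 := Q14_cast (q := p ^ (padicValNat p T.D + 1)) _ _ _ h3
    push_cast at h5
    exact h5
  · intro j hj
    rw [Q14_aq hp _ _ (fun i => ⟨(Q14_wY hT hS hν i).2.1, lt_of_le_of_lt hpy (Q14_wY hT hS hν i).2.2⟩) (show j < S.k + 1 by omega)]
    obtain ⟨h1, -, -⟩ := Q14_wY hT hS hν ⟨j, by omega⟩
    obtain ⟨-, -, -, -, h2⟩ := hS.WY_mem _ _ h1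
    have h3 : ((p ^ 2 : ℕ) : ℤ) ∣ (ν.1 ⟨j, by omega⟩ : ℤ) - (1 - (-1) ^ j * p) := by
      have h4 := h2 p hp hpW
      exact (Int.modEq_iff_dvd.1 h4.symm)
    have h5 := Q14_cast (q := p ^ (padicValNat p T.D + 1)) _ _ _ h3
    push_cast at h5
    exact h5

theorem Q14_good (hT : T.OK W0) (hS : S.OK T W0 Z) (hμ : μ ∈ S.MX) (hν : ν ∈ S.MY) (hb : ¬ S.badpair T 0 T.y0 μ ν) {p : ℕ} (hp : p ∈ T.PS) :
    Good3 S.k (aq (p ^ (padicValNat p T.D + 1)) μ.1) (aq (p ^ (padicValNat p T.D + 1)) ν.1) := by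
  have hp' := hp
  unfold Dat.PS at hp'
  rw [mem_filter, mem_range] at hp'
  obtain ⟨hpy, hpp, hp0⟩ := hp'
  have hpy' : p ≤ T.y0 := by omega
  have hcard : 3 ≤ (univ.filter fun i : Fin (S.k + 1) => ¬ (μ.1 i ≡ ν.1 i [MOD p])).card := by
    by_contra h
    exact hb ⟨p, hp, hpp.pos, hpy', by omega⟩
  have hun : ∀ j : Fin (S.k + 1), ¬ (μ.1 j ≡ ν.1 j [MOD p]) →
      IsUnit (Loc.et (aq (p ^ (padicValNat p T.D + 1)) μ.1) (aq (p ^ (padicValNat p T.D + 1)) ν.1) j) := by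
    intro j hj
    have hα := Q14_aq hpp (padicValNat p T.D + 1) μ.1
      (fun i => ⟨(Q14_wX hT hS hμ i).2.1, lt_of_le_of_lt hpy' (Q14_wX hT hS hμ i).2.2⟩) j.isLt
    have hβ := Q14_aq hpp (padicValNat p T.D + 1) ν.1
      (fun i => ⟨(Q14_wY hT hS hν i).2.1, lt_of_le_of_lt hpy' (Q14_wY hT hS hν i).2.2⟩) j.isLt
    set a := aq (p ^ (padicValNat p T.D + 1)) μ.1 j with ha
    set b := aq (p ^ (padicValNat p T.D + 1)) ν.1 j with hb
    have h1 : Loc.et (aq (p ^ (padicValNat p T.D + 1)) μ.1) (aq (p ^ (padicValNat p T.D + 1)) ν.1) j =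
        ((a : ZMod (p ^ (padicValNat p T.D + 1))) - b) * ((a⁻¹ * b⁻¹ : (ZMod (p ^ (padicValNat p T.D + 1)))ˣ) :
          ZMod (p ^ (padicValNat p T.D + 1))) := by
      unfold Loc.et
      rw [← ha, ← hb, Units.val_mul]
      have e1 : (a : ZMod (p ^ (padicValNat p T.D + 1))) * ((a⁻¹ : (ZMod (p ^ (padicValNat p T.D + 1)))ˣ) :
          ZMod (p ^ (padicValNat p T.D + 1))) = 1 := Units.mul_inv a
      have e2 : (b : ZMod (p ^ (padicValNat p T.D + 1))) * ((b⁻¹ : (ZMod (p ^ (padicValNat p T.D + 1)))ˣ) :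
          ZMod (p ^ (padicValNat p T.D + 1))) = 1 := Units.mul_inv b
      linear_combination (-((b⁻¹ : (ZMod (p ^ (padicValNat p T.D + 1)))ˣ) : ZMod (p ^ (padicValNat p T.D + 1)))) * e1 +
        ((a⁻¹ : (ZMod (p ^ (padicValNat p T.D + 1)))ˣ) : ZMod (p ^ (padicValNat p T.D + 1))) * e2
    rw [h1]
    refine IsUnit.mul ?_ (Units.isUnit _)
    rw [hα, hβ]
    have h2 : ((μ.1 ⟨j, j.isLt⟩ : ZMod (p ^ (padicValNat p T.D + 1))) - (ν.1 ⟨j, j.isLt⟩ : ZMod (p ^ (padicValNat p T.D + 1)))) =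
        (((μ.1 j : ℤ) - (ν.1 j : ℤ) : ℤ) : ZMod (p ^ (padicValNat p T.D + 1))) := by
      push_cast
      rfl
    rw [h2, ZMod.coe_int_isUnit_iff_isCoprime]
    push_cast
    refine IsCoprime.pow_left ?_
    rw [Int.isCoprime_iff_gcd_eq_one]
    have h3 : ¬ (p : ℤ) ∣ (μ.1 j : ℤ) - (ν.1 j : ℤ) := fun h => hj ((Nat.modEq_iff_dvd.2 h).symm)
    have h4 := (Int.gcd_dvd_left (a := (p : ℤ)) (b := (μ.1 j : ℤ) - (ν.1 j : ℤ)))
    have h5 := (Int.gcd_dvd_right (a := (p : ℤ)) (b := (μ.1 j : ℤ) - (ν.1 j : ℤ)))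
    rcases (Nat.dvd_prime hpp).1 (Int.natCast_dvd_natCast.1 h4) with h6 | h6
    · exact h6
    · rw [h6] at h5
      exact absurd h5 h3
  set s := univ.filter fun i : Fin (S.k + 1) => ¬ (μ.1 i ≡ ν.1 i [MOD p]) with hs
  have hm : ∀ i : Fin s.card, ¬ (μ.1 (s.orderEmbOfFin rfl i) ≡ ν.1 (s.orderEmbOfFin rfl i) [MOD p]) := by
    intro i
    have h1 : s.orderEmbOfFin rfl i ∈ univ.filter fun i : Fin (S.k + 1) => ¬ (μ.1 i ≡ ν.1 i [MOD p]) :=
      s.orderEmbOfFin_mem rfl i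
    exact (mem_filter.1 h1).2
  refine ⟨(s.orderEmbOfFin rfl ⟨0, by omega⟩ : Fin (S.k + 1)), (s.orderEmbOfFin rfl ⟨1, by omega⟩ : Fin (S.k + 1)),
    (s.orderEmbOfFin rfl ⟨2, by omega⟩ : Fin (S.k + 1)), ?_, ?_, by omega, hun _ (hm _), hun _ (hm _), hun _ (hm _)⟩
  · exact (s.orderEmbOfFin rfl).strictMono (by simp [Fin.lt_def])
  · exact (s.orderEmbOfFin rfl).strictMono (by simp [Fin.lt_def])

theorem Q14_small {k : ℕ} (hT : T.OK W0) (hk : Odd k) {p : ℕ} (hp : p.Prime) (hp0 : p < T.p0) {al be : ℕ → HP T.D p}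
    (ha : ∀ j ≤ k, (p : RP T.D p) ^ 2 ∣ (al j : RP T.D p) - 1) (hb : ∀ j ≤ k, (p : RP T.D p) ^ 2 ∣ (be j : RP T.D p) - (1 - (-1) ^ j * (p : RP T.D p)))
    {yn : ℕ} (hyn : ¬ p ∣ yn) : lav T k p yn False al be = 1 / (((p : ℝ) - 1) ^ k * (p : ℝ) ^ (padicValNat p T.D - 1)) := by
  classical
  have hF : Fact p.Prime := ⟨hp⟩
  have hNZ : NeZero (p ^ (padicValNat p T.D + 1)) := ⟨(pow_pos hp.pos _).ne'⟩
  have hpW : p ∣ W0 := (hT.W0_pr p hp).2 hp0
  have hpD : p ^ 2 ∣ T.D := (pow_dvd_pow_of_dvd hpW 2).trans hT.W0_D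
  have hv : 2 ≤ padicValNat p T.D := (padicValNat_dvd_iff_le hT.D_pos.ne').1 hpD
  have hbase : p ∈ T.base := by
    unfold Dat.base
    rw [mem_filter, mem_range]
    have h1 := hT.p0_le
    have h2 := hT.y_le
    exact ⟨by omega, hp, Or.inl hp0⟩
  obtain ⟨yu, hyu⟩ : ∃ yu : HP T.D p, (yu : RP T.D p) = (yn : RP T.D p) := by
    have h1 : Nat.Coprime yn (p ^ (padicValNat p T.D + 1)) :=
      Nat.Coprime.pow_right _ ((Nat.Prime.coprime_iff_not_dvd hp).2 hyn).symm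
    exact ⟨ZMod.unitOfCoprime yn h1, ZMod.coe_unitOfCoprime yn h1⟩
  set τ : RP T.D p := (((al 0 * yu)⁻¹ : HP T.D p) : RP T.D p) * ((T.np p : RP T.D p) * T.D) with hτ
  have hτd : (p : RP T.D p) ^ 2 ∣ τ := by
    obtain ⟨t, ht⟩ := hpD
    refine ⟨(((al 0 * yu)⁻¹ : HP T.D p) : RP T.D p) * ((T.np p : RP T.D p) * t), ?_⟩
    have h1 : (T.D : RP T.D p) = (p : RP T.D p) ^ 2 * (t : RP T.D p) := by
      have h2 := congrArg (fun n : ℕ => (n : RP T.D p)) ht
      simp only [Nat.cast_mul, Nat.cast_pow] at h2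
      exact h2
    rw [hτ, h1]
    ring
  have het : ∀ j ≤ k, ∃ c : RP T.D p, Loc.et al be j = (-1) ^ j * (p : RP T.D p) + (p : RP T.D p) ^ 2 * c := by
    intro j hj
    exact U05_et (p : RP T.D p) ((-1) ^ j) (by rw [← mul_pow]; norm_num) (al j) (be j) (ha j hj) (hb j hj)
  have hcount := U05 hv (by rcases hk with ⟨r, hr⟩; exact ⟨r + 1, by omega⟩) (by rcases hk with ⟨r, hr⟩; omega) al be het τ hτd
  have hset : ((univ : Finset (Fin k → HP T.D p)).filter fun P => cb T k p yn False al be (Loc.pp k P)) =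
      ((univ : Finset (Fin k → (ZMod (p ^ (padicValNat p T.D + 1)))ˣ)).filter fun P =>
        (∀ j, ZMod.castHom (dvd_pow_self p (Nat.succ_ne_zero (padicValNat p T.D))) (ZMod p)
          (P j : ZMod (p ^ (padicValNat p T.D + 1))) = 1) ∧ Loc.Sg (k + 1) al be (Loc.pp k P) = τ) := by
    ext P
    rw [mem_filter, mem_filter]
    refine and_congr_right fun _ => ?_
    unfold cb cP cS
    rw [if_pos hp0]
    have e1 : (∀ j ≤ k, (p : RP T.D p) ∣ ((Loc.pp k P j : HP T.D p) : RP T.D p) - 1) ↔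
        ∀ j, ZMod.castHom (dvd_pow_self p (Nat.succ_ne_zero (padicValNat p T.D))) (ZMod p)
          (P j : ZMod (p ^ (padicValNat p T.D + 1))) = 1 := by
      have e2 : ∀ x : RP T.D p, ((p : RP T.D p) ∣ x - 1) ↔
          ZMod.castHom (dvd_pow_self p (Nat.succ_ne_zero (padicValNat p T.D))) (ZMod p) x = 1 := by
        intro x
        rw [← Q14_dvd, map_sub, map_one, sub_eq_zero]
      constructor
      · intro h j
        have h1 := h (j + 1) (by omega)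
        rw [Loc.pp_succ P j.isLt] at h1
        exact (e2 _).1 h1
      · intro h j hj
        rcases j with _ | j
        · have h1 : Loc.pp k P 0 = 1 := rfl
          rw [h1, Units.val_one, sub_self]
          exact dvd_zero _
        · rw [Loc.pp_succ P (show j < k by omega)]
          exact (e2 _).2 (h _)
    have e3 : ((al 0 : RP T.D p) * yn * Loc.Sg (k + 1) al be (Loc.pp k P) = (T.np p : RP T.D p) * T.D) ↔
        Loc.Sg (k + 1) al be (Loc.pp k P) = τ := by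
      rw [hτ, ← hyu, ← Units.val_mul]
      constructor
      · intro h
        rw [← h, Units.inv_mul_cancel_left]
      · intro h
        rw [h, Units.mul_inv_cancel_left]
    rw [← e1, ← e3]
    constructor
    · rintro ⟨h1, -⟩
      exact h1 hbase
    · intro h
      exact ⟨fun _ => h, False.elim⟩
  rw [Q14_lav hp, hset]
  have hp1 : (1 : ℝ) < p := by exact_mod_cast hp.one_lt
  have hp0' : (0 : ℝ) < p := by linarith
  have hcr : ((((univ : Finset (Fin k → (ZMod (p ^ (padicValNat p T.D + 1)))ˣ)).filter fun P =>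
        (∀ j, ZMod.castHom (dvd_pow_self p (Nat.succ_ne_zero (padicValNat p T.D))) (ZMod p)
          (P j : ZMod (p ^ (padicValNat p T.D + 1))) = 1) ∧ Loc.Sg (k + 1) al be (Loc.pp k P) = τ).card : ℕ) : ℝ) *
        (p : ℝ) ^ (padicValNat p T.D - 1) = (p : ℝ) ^ (padicValNat p T.D * k) := by
    exact_mod_cast hcount
  have hp2 : ((p - 1 : ℕ) : ℝ) = (p : ℝ) - 1 := by
    rw [Nat.cast_sub hp.one_lt.le, Nat.cast_one]
  rw [Nat.cast_pow, Nat.cast_mul, hp2, Nat.cast_pow, div_eq_div_iff (by positivity) (by positivity)]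
  rw [mul_pow, ← pow_mul, ← hcr]
  ring

theorem Q14_one {k : ℕ} {p : ℕ} (hp : p ∉ T.base) (yn : ℕ) (al be : ℕ → HP T.D p) : lav T k p yn False al be = 1 := by
  have hf : Finite (HP T.D p) := Q14_finite _
  unfold lav
  have h1 : (fun P : Fin k → HP T.D p => ind (cb T k p yn False al be (Loc.pp k P))) = fun _ => (1 : ℝ) := by
    funext P
    exact ind_true ⟨fun h => absurd h hp, False.elim⟩
  rw [h1]
  exact av_const 1

theorem Q14_D {k : ℕ} (hT : T.OK W0) (h5 : 5 ≤ T.p0) {p : ℕ} (hp : p.Prime) (hp0 : T.p0 ≤ p) (hpD : p ∣ T.D) {al be : ℕ → HP T.D p} (hg : Good3 k al be) (yn : ℕ) :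
    1 / (2 * (p : ℝ) ^ padicValNat p T.D) ≤ lav T k p yn False al be ∧ lav T k p yn False al be ≤ 2 / (p : ℝ) ^ padicValNat p T.D := by
  classical
  have hF : Fact p.Prime := ⟨hp⟩
  have hNZ : NeZero (p ^ (padicValNat p T.D + 1)) := ⟨(pow_pos hp.pos _).ne'⟩
  have hv : 1 ≤ padicValNat p T.D := (Q14_vpos hT.D_pos hp).1 hpD
  have hbase : p ∈ T.base := by
    unfold Dat.base
    rw [mem_filter, mem_range]
    have h1 := Nat.le_of_dvd hT.D_pos hpD
    have h2 := hT.D_le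
    exact ⟨by omega, hp, Or.inr hpD⟩
  obtain ⟨j₁, j₂, j₃, g1, g2, g3, -, g5, g6⟩ := hg
  obtain ⟨hlo, hup⟩ := U06 (h5.trans hp0) hv al be (show 1 ≤ j₂ by omega) g2 g3 g5 g6
  have hset : ((univ : Finset (Fin k → HP T.D p)).filter fun P => cb T k p yn False al be (Loc.pp k P)) =
      ((univ : Finset (Fin k → (ZMod (p ^ (padicValNat p T.D + 1)))ˣ)).filter fun P =>
        (p : ZMod (p ^ (padicValNat p T.D + 1))) ^ padicValNat p T.D ∣ Loc.Sg (k + 1) al be (Loc.pp k P)) := by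
    ext P
    rw [mem_filter, mem_filter]
    refine and_congr_right fun _ => ?_
    unfold cb cP cD
    rw [if_neg (by omega)]
    exact ⟨fun h => h.1 hbase, fun h => ⟨fun _ => h, False.elim⟩⟩
  rw [Nat.totient_prime_pow_succ hp] at hlo hup
  rw [Q14_lav hp, hset]
  set X := ((univ : Finset (Fin k → (ZMod (p ^ (padicValNat p T.D + 1)))ˣ)).filter fun P =>
        (p : ZMod (p ^ (padicValNat p T.D + 1))) ^ padicValNat p T.D ∣ Loc.Sg (k + 1) al be (Loc.pp k P)).card with hX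
  have hpr : (0 : ℝ) < p := by exact_mod_cast hp.pos
  have hφ : (0 : ℝ) < (((p ^ padicValNat p T.D * (p - 1)) ^ k : ℕ) : ℝ) := by
    have : 0 < (p ^ padicValNat p T.D * (p - 1)) ^ k :=
      pow_pos (Nat.mul_pos (pow_pos hp.pos _) (Nat.sub_pos_of_lt hp.one_lt)) _
    exact_mod_cast this
  have hlo' : (((p ^ padicValNat p T.D * (p - 1)) ^ k : ℕ) : ℝ) ≤ 2 * ((X : ℝ) * (p : ℝ) ^ padicValNat p T.D) := by
    exact_mod_cast hlo
  have hup' : (X : ℝ) * (p : ℝ) ^ padicValNat p T.D ≤ 2 * (((p ^ padicValNat p T.D * (p - 1)) ^ k : ℕ) : ℝ) := by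
    exact_mod_cast hup
  constructor
  · rw [div_le_div_iff₀ (by positivity) hφ]
    linarith
  · rw [div_le_div_iff₀ hφ (by positivity)]
    linarith

theorem Q14_bad {k : ℕ} (hT : T.OK W0) (h5 : 5 ≤ T.p0) {p : ℕ} (hp : p ∈ T.PS) {al be : ℕ → HP T.D p} (hg : Good3 k al be) (yn : ℕ) :
    lav T k p yn True al be ≤ 8 * ((k + 1 : ℕ) : ℝ) / p * lav T k p yn False al be := by
  classical
  unfold Dat.PS at hp
  rw [mem_filter, mem_range] at hp
  obtain ⟨hpy, hpp, hp0⟩ := hp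
  have hF : Fact p.Prime := ⟨hpp⟩
  have hNZ : NeZero (p ^ (padicValNat p T.D + 1)) := ⟨(pow_pos hpp.pos _).ne'⟩
  obtain ⟨u, hu⟩ : p ^ padicValNat p T.D ∣ T.D := pow_padicValNat_dvd
  have hund : ¬ p ∣ u := by
    intro h
    have h1 := pow_succ_padicValNat_not_dvd (p := p) hT.D_pos.ne'
    apply h1
    conv_rhs => rw [hu]
    rw [pow_succ]
    exact Nat.mul_dvd_mul_left _ h
  have key := U07 (Yn := yn) (y := T.y) (N := T.N) (h5.trans hp0) hu hund al be hg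
  rw [Q14_lav hpp, Q14_lav hpp]
  have hpr : (0 : ℝ) < p := by exact_mod_cast hpp.pos
  have hφ : (0 : ℝ) < (((p ^ padicValNat p T.D * (p - 1)) ^ k : ℕ) : ℝ) := by
    have : 0 < (p ^ padicValNat p T.D * (p - 1)) ^ k :=
      pow_pos (Nat.mul_pos (pow_pos hpp.pos _) (Nat.sub_pos_of_lt hpp.one_lt)) _
    exact_mod_cast this
  have hs1 : ((univ : Finset (Fin k → HP T.D p)).filter fun P => cb T k p yn True al be (Loc.pp k P)).card ≤
      ((univ : Finset (Fin k → (ZMod (p ^ (padicValNat p T.D + 1)))ˣ)).filter fun P =>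
      (p : ZMod (p ^ (padicValNat p T.D + 1))) ^ padicValNat p T.D ∣ Loc.Sg (k + 1) al be (Loc.pp k P) ∧
        Bad p (padicValNat p T.D) k T.N T.D yn T.y al be (Loc.pp k P)).card := by
    refine card_le_card fun P hP => ?_
    rw [mem_filter] at hP ⊢
    refine ⟨mem_univ _, ?_⟩
    obtain ⟨h1, h2⟩ := hP.2.2 trivial
    refine ⟨h1, ?_⟩
    unfold Bad
    split_ifs at h2 with h3
    · exact Or.inl ⟨h3, h2⟩
    · rcases h2 with h4 | ⟨h4, h5, h6, h7⟩
      · exact Or.inr (Or.inl ⟨h3, h4⟩)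
      · exact Or.inr (Or.inr ⟨h3, h4, h5, h6, h7⟩)
  have hs2 : ((univ : Finset (Fin k → (ZMod (p ^ (padicValNat p T.D + 1)))ˣ)).filter fun P =>
      (p : ZMod (p ^ (padicValNat p T.D + 1))) ^ padicValNat p T.D ∣ Loc.Sg (k + 1) al be (Loc.pp k P)).card ≤
      ((univ : Finset (Fin k → HP T.D p)).filter fun P => cb T k p yn False al be (Loc.pp k P)).card := by
    refine card_le_card fun P hP => ?_
    rw [mem_filter] at hP ⊢
    refine ⟨mem_univ _, fun _ => ?_, False.elim⟩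
    unfold cP
    rw [if_neg (by omega)]
    exact hP.2
  have h1 : ((univ : Finset (Fin k → HP T.D p)).filter fun P => cb T k p yn True al be (Loc.pp k P)).card * p ≤
      8 * (k + 1) * ((univ : Finset (Fin k → HP T.D p)).filter fun P => cb T k p yn False al be (Loc.pp k P)).card :=
    (Nat.mul_le_mul_right p hs1).trans (key.trans (Nat.mul_le_mul_left _ hs2))
  have h2 : ((((univ : Finset (Fin k → HP T.D p)).filter fun P => cb T k p yn True al be (Loc.pp k P)).card : ℕ) : ℝ) * p ≤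
      8 * ((k + 1 : ℕ) : ℝ) *
        (((univ : Finset (Fin k → HP T.D p)).filter fun P => cb T k p yn False al be (Loc.pp k P)).card : ℕ) := by
    exact_mod_cast h1
  rw [div_mul_div_comm, div_le_div_iff₀ hφ (by positivity)]
  calc _ = ((((univ : Finset (Fin k → HP T.D p)).filter fun P => cb T k p yn True al be (Loc.pp k P)).card : ℕ) : ℝ) * p *
        (((p ^ padicValNat p T.D * (p - 1)) ^ k : ℕ) : ℝ) := by ring
    _ ≤ 8 * ((k + 1 : ℕ) : ℝ) *
        (((univ : Finset (Fin k → HP T.D p)).filter fun P => cb T k p yn False al be (Loc.pp k P)).card : ℕ) *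
        (((p ^ padicValNat p T.D * (p - 1)) ^ k : ℕ) : ℝ) := mul_le_mul_of_nonneg_right h2 hφ.le
    _ = _ := by ring

end Pool.Agent.Lib.TC
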