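import Pool.Agent.Lib.MP_7b7e48_nt.TC.Q08
import Pool.Agent.Lib.MP_7b7e48_nt.TC.POK

/-!
# Q17: the conditions depend on `X` only modulo `qd`; expansions of the weights; (5.1)

`qd T W0 d = W0 ∏_{p ∈ d, p ∤ N} p`.
* `Q17_qd`: squarefree for `d ⊆ PS` (`W0` is the product of the primes `< p0`, the primes of `d` are `≥ p0`), primes `≤ y0` and dividing `W0` or not dividing `N`; `qd ≤ W0 ∏_{p ∈ d} p`.
* `Q17_FF`, `Q17_Pb`: `ycl T p x` depends on `x` modulo `p`; it enters only for `p < p0` (`p ∣ W0`), and for `p ∈ d`, `p ∤ N` (in `cP` for `p ≥ p0` and in `bP` for `p ∣ N` there is no `yn`).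
* `Q17_prod`: `FF` is a product of indicators over `base ∪ d` (`d ⊆ PS`).
* `Q17_w`: expansion of `w - w1` (`Ls` is the sum over `d ⊆ bad`, i.e. over `d ⊆ PS` with `FF`; `ind LL * [d ⊆ bad] = FF`).
* `Q17_51` (5.1): with `le_sum_flUp`, `sum_flLo_le`: `Ls false ≤ [bad = ∅] ≤ Ls true`, `Ll false ≤ [hits = ∅] ≤ Ll true`; `w ≤ [bad = ∅] Ll true - [bad = ∅] (Ll true - Ll false)`.
-/

set_option autoImplicit false

open Finset

namespace Pool.Agent.Lib.TC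

/-- the modulus of `X` -/
def Dat.qd (T : Dat) (W0 : ℕ) (d : Finset ℕ) : ℕ := W0 * ∏ p ∈ d.filter (fun p => ¬ p ∣ T.N), p

variable {S : MS} {T : Dat} {W0 : ℕ} {M : Msr S} {c : S.Col} {μ : S.TX} {ν : S.TY} {d : Finset ℕ}

private theorem q17_sqf (s : Finset ℕ) (hs : ∀ p ∈ s, p.Prime) : Squarefree (∏ p ∈ s, p) := by
  classical
  induction s using Finset.induction_on with
  | empty => simp
  | insert a s ha ih =>
    rw [Finset.prod_insert ha, Nat.squarefree_mul_iff]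
    have h1 : a.Prime := hs a (Finset.mem_insert_self _ _)
    have h2 : ∀ p ∈ s, p.Prime := fun p hp => hs p (Finset.mem_insert_of_mem hp)
    refine ⟨?_, h1.prime.squarefree, ih h2⟩
    refine Nat.Coprime.prod_right fun p hp => ?_
    rw [Nat.coprime_primes h1 (h2 p hp)]
    rintro rfl
    exact ha hp

private theorem q17_PS {p : ℕ} (hp : p ∈ T.PS) : p.Prime ∧ T.p0 ≤ p ∧ p ≤ T.y0 := by
  unfold Dat.PS at hp
  rw [mem_filter, mem_range] at hp
  exact ⟨hp.2.1, hp.2.2, by omega⟩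

private theorem q17_base {p : ℕ} (hp : p ∈ T.base) : p.Prime ∧ p ≤ T.y0 ∧ (p < T.p0 ∨ p ∣ T.D) := by
  unfold Dat.base at hp
  rw [mem_filter, mem_range] at hp
  exact ⟨hp.2.1, by omega, hp.2.2⟩

private theorem q17_dvd (hT : T.OK W0) {p : ℕ} (hp : p.Prime) (h : p < T.p0) : p ∣ T.qd W0 d :=
  Dvd.dvd.mul_right ((hT.W0_pr p hp).2 h) _

private theorem q17_dvd' {p : ℕ} (hp : p ∈ d) (h : ¬ p ∣ T.N) : p ∣ T.qd W0 d :=
  Dvd.dvd.mul_left (dvd_prod_of_mem (fun p => p) (mem_filter.2 ⟨hp, h⟩)) _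

private theorem q17_ycl {p q : ℕ} (h : p ∣ q) {x x' : ℤ} (hx : x ≡ x' [ZMOD q]) : ycl T p x = ycl T p x' := by
  have h1 : x ≡ x' [ZMOD p] := hx.of_dvd (Int.natCast_dvd_natCast.2 h)
  have h2 : x - T.D * T.N ≡ x' - T.D * T.N [ZMOD p] := h1.sub_right _
  unfold ycl
  rw [h2.eq]

private theorem q17_cP {k p yn yn' : ℕ} {al be P : ℕ → HP T.D p} (h : p < T.p0 → yn = yn') :
    cP T k p yn al be P ↔ cP T k p yn' al be P := by
  by_cases h1 : p < T.p0
  · rw [h h1]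
  · unfold cP
    rw [if_neg h1, if_neg h1]

private theorem q17_bP {k p yn yn' : ℕ} {al be P : ℕ → HP T.D p} (h : ¬ p ∣ T.N → yn = yn') :
    bP T k p yn al be P ↔ bP T k p yn' al be P := by
  by_cases h1 : p ∣ T.N
  · unfold bP
    rw [if_pos h1, if_pos h1]
  · rw [h h1]

private theorem q17_LL (hT : T.OK W0) {d' : Finset ℕ} {x x' : ℤ} (hx : x ≡ x' [ZMOD T.qd W0 d']) :
    S.LL T c μ ν x ↔ S.LL T c μ ν x' := by
  unfold MS.LL
  refine forall_congr' fun p => forall_congr' fun hp => q17_cP fun h => ?_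
  exact q17_ycl (q17_dvd hT (q17_base hp).1 h) hx

private theorem q17_bad {d' : Finset ℕ} (hd : d ⊆ d') {x x' : ℤ} (hx : x ≡ x' [ZMOD T.qd W0 d']) :
    d ⊆ S.bad T c μ ν x ↔ d ⊆ S.bad T c μ ν x' := by
  classical
  refine forall_congr' fun p => ?_
  refine forall_congr' fun hp => ?_
  unfold MS.bad
  rw [mem_filter, mem_filter]
  refine and_congr Iff.rfl (q17_bP fun h => ?_)
  exact q17_ycl (q17_dvd' (hd hp) h) hx

theorem Q17_qd (hT : T.OK W0) (hd : d ⊆ T.PS) :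
    Squarefree (T.qd W0 d) ∧ (∀ p : ℕ, p.Prime → p ∣ T.qd W0 d → p ≤ T.y0 ∧ (p ∣ W0 ∨ ¬ p ∣ T.N)) ∧ T.qd W0 d ≤ W0 * ∏ p ∈ d, p ∧ 0 < T.qd W0 d := by
  have hp : ∀ p ∈ d.filter (fun p => ¬ p ∣ T.N), p.Prime := fun p hp =>
    (q17_PS (hd (mem_filter.1 hp).1)).1
  have h0 : Squarefree (T.qd W0 d) := by
    unfold Dat.qd
    rw [Nat.squarefree_mul_iff]
    refine ⟨?_, hT.W0_sq, q17_sqf _ hp⟩
    refine Nat.Coprime.prod_right fun p hp' => ?_
    rw [Nat.coprime_comm, (hp p hp').coprime_iff_not_dvd, hT.W0_pr p (hp p hp')]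
    have := (q17_PS (hd (mem_filter.1 hp').1)).2.1
    omega
  refine ⟨h0, ?_, ?_, Nat.pos_of_ne_zero h0.ne_zero⟩
  · intro p hpp hpd
    unfold Dat.qd at hpd
    rcases hpp.dvd_mul.1 hpd with h1 | h1
    · have h2 := (hT.W0_pr p hpp).1 h1
      have h3 := hT.p0_le
      have h4 := hT.y_le
      exact ⟨by omega, Or.inl h1⟩
    · obtain ⟨r, hr, hpr⟩ := hpp.prime.exists_mem_finset_dvd h1
      have h2 : p = r := (Nat.prime_dvd_prime_iff_eq hpp (hp r hr)).1 hpr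
      subst h2
      rw [mem_filter] at hr
      exact ⟨(q17_PS (hd hr.1)).2.2, Or.inr hr.2⟩
  · unfold Dat.qd
    refine Nat.mul_le_mul_left _ (Nat.le_of_dvd ?_ (prod_dvd_prod_of_subset _ _ _ (filter_subset _ _)))
    exact prod_pos fun p hp => (q17_PS (hd hp)).1.pos

theorem Q17_FF (hT : T.OK W0) {d' : Finset ℕ} (hd : d ⊆ d') (hd' : d' ⊆ T.PS) {x x' : ℤ} (hx : x ≡ x' [ZMOD T.qd W0 d']) : S.FF T c μ ν x d = S.FF T c μ ν x' d := by
  have _ := hd'
  unfold MS.FF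
  have h1 : (S.LL T c μ ν x ∧ d ⊆ S.bad T c μ ν x) ↔ (S.LL T c μ ν x' ∧ d ⊆ S.bad T c μ ν x') :=
    and_congr (q17_LL hT hx) (q17_bad hd hx)
  rw [propext h1]

theorem Q17_Pb (hT : T.OK W0) {d' : Finset ℕ} (hd : d ⊆ d') (hd' : d' ⊆ T.PS) {x x' : ℤ} (hx : x ≡ x' [ZMOD T.qd W0 d']) : S.Pb T μ ν x d = S.Pb T μ ν x' d := by
  have _ := hd'
  classical
  unfold MS.Pb
  refine prod_congr rfl fun p hp => ?_
  unfold lav
  have h1 : ∀ P : Fin S.k → HP T.D p,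
      cb T S.k p (ycl T p x) (p ∈ d) (aq _ μ.1) (aq _ ν.1) (Loc.pp S.k P) ↔
      cb T S.k p (ycl T p x') (p ∈ d) (aq _ μ.1) (aq _ ν.1) (Loc.pp S.k P) := by
    intro P
    unfold cb
    refine and_congr (forall_congr' fun hb => q17_cP fun h => ?_)
      (forall_congr' fun hb => q17_bP fun h => ?_)
    · exact q17_ycl (q17_dvd hT (q17_base hb).1 h) hx
    · exact q17_ycl (q17_dvd' (hd hb) h) hx
  have h2 : (fun P : Fin S.k → HP T.D p => ind (cb T S.k p (ycl T p x) (p ∈ d) (aq _ μ.1) (aq _ ν.1) (Loc.pp S.k P))) =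
      fun P : Fin S.k → HP T.D p => ind (cb T S.k p (ycl T p x') (p ∈ d) (aq _ μ.1) (aq _ ν.1) (Loc.pp S.k P)) :=
    funext fun P => by rw [propext (h1 P)]
  rw [h2]

theorem Q17_prod (hd : d ⊆ T.PS) (x : ℤ) :
    S.FF T c μ ν x d = ∏ p ∈ T.base ∪ d, ind (cb T S.k p (ycl T p x) (p ∈ d) (aq _ μ.1) (aq _ ν.1) (S.pq T.N _ c μ ν)) := by
  classical
  rw [ind_prod]
  unfold MS.FF
  have h1 : (S.LL T c μ ν x ∧ d ⊆ S.bad T c μ ν x) ↔
      ∀ p ∈ T.base ∪ d, cb T S.k p (ycl T p x) (p ∈ d) (aq _ μ.1) (aq _ ν.1) (S.pq T.N _ c μ ν) := by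
    constructor
    · rintro ⟨h2, h3⟩ p _
      refine ⟨fun hb => h2 p hb, fun hb => ?_⟩
      have h4 := h3 hb
      unfold MS.bad at h4
      rw [mem_filter] at h4
      exact h4.2
    · intro h2
      refine ⟨fun p hp => (h2 p (mem_union_left _ hp)).1 hp, fun p hp => ?_⟩
      unfold MS.bad
      rw [mem_filter]
      exact ⟨hd hp, (h2 p (mem_union_right _ hp)).2 hp⟩
  rw [propext h1]

private theorem q17_Ls (s : Bool) (b : ℕ) (x : ℤ) : ind (S.LL T c μ ν x) * S.Ls T s b c μ ν x =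
    ∑ d ∈ T.PS.powerset, S.FF T c μ ν x d * wt s b T.y0 T.PS d := by
  classical
  have hsub : S.bad T c μ ν x ⊆ T.PS := by
    unfold MS.bad
    exact filter_subset _ _
  have h1 : (S.bad T c μ ν x).powerset = T.PS.powerset.filter fun d => d ⊆ S.bad T c μ ν x := by
    ext d
    rw [mem_filter, mem_powerset, mem_powerset]
    exact ⟨fun h => ⟨h.trans hsub, h⟩, fun h => h.2⟩
  unfold MS.Ls
  rw [h1, sum_filter, mul_sum]
  refine sum_congr rfl fun d _ => ?_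
  unfold MS.FF
  by_cases h2 : S.LL T c μ ν x
  · by_cases h3 : d ⊆ S.bad T c μ ν x
    · rw [if_pos h3, ind_true h2, ind_true ⟨h2, h3⟩]
    · rw [if_neg h3, ind_false fun h : S.LL T c μ ν x ∧ d ⊆ S.bad T c μ ν x => h3 h.2, mul_zero, zero_mul]
  · rw [ind_false h2, ind_false fun h : S.LL T c μ ν x ∧ d ⊆ S.bad T c μ ν x => h2 h.1, zero_mul, zero_mul]

theorem Q17_w (b1 b2 : ℕ) (x : ℤ) :
    M.w T b1 b2 c μ ν x - M.w1 T b1 b2 c μ ν x = ∑ d ∈ T.PS.powerset, S.FF T c μ ν x d *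
      ((wt false b1 T.y0 T.PS d - wt true b1 T.y0 T.PS d) * (M.Ll T true b2 c μ ν x - M.Ml T true b2) +
        wt true b1 T.y0 T.PS d * (M.Ll T false b2 c μ ν x - M.Ml T false b2)) := by
  have h1 : M.w T b1 b2 c μ ν x = (ind (S.LL T c μ ν x) * S.Ls T false b1 c μ ν x) * M.Ll T true b2 c μ ν x -
      (ind (S.LL T c μ ν x) * S.Ls T true b1 c μ ν x) * (M.Ll T true b2 c μ ν x - M.Ll T false b2 c μ ν x) := by
    unfold Msr.w
    ring
  rw [h1, q17_Ls, q17_Ls]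
  unfold Msr.w1 Msr.kap
  rw [sum_mul, sum_mul, ← sum_sub_distrib, ← sum_sub_distrib]
  exact sum_congr rfl fun d _ => by ring

theorem Q17_51 (h2 : 2 ≤ T.y0) (hz : 2 ≤ T.z) (b1 b2 : ℕ) (x : ℤ) :
    M.w T b1 b2 c μ ν x ≤ ind (S.LL T c μ ν x ∧ S.bad T c μ ν x = ∅ ∧ S.hits T M.v M.x0 M.t2 c μ ν x = ∅) := by
  have _ := h2
  have _ := hz
  classical
  have hsub : S.bad T c μ ν x ⊆ T.PS := by
    unfold MS.bad
    exact filter_subset _ _
  have hsub' : S.hits T M.v M.x0 M.t2 c μ ν x ⊆ T.PL := by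
    unfold MS.hits
    exact (filter_subset _ _).trans sdiff_subset
  have hPS : ∀ r ∈ T.PS, r.Prime ∧ r ≤ T.y0 := fun r hr => ⟨(q17_PS hr).1, (q17_PS hr).2.2⟩
  have hPL : ∀ r ∈ T.PL, r.Prime ∧ r ≤ T.z := by
    intro r hr
    unfold Dat.PL at hr
    rw [mem_filter, mem_range] at hr
    exact ⟨hr.2.1, by omega⟩
  have a1 : (if S.bad T c μ ν x = ∅ then (1 : ℝ) else 0) ≤ S.Ls T true b1 c μ ν x := by
    have h3 := le_sum_flUp hPS b1 hsub
    unfold MS.Ls wt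
    simpa using h3
  have a2 : S.Ls T false b1 c μ ν x ≤ (if S.bad T c μ ν x = ∅ then (1 : ℝ) else 0) := by
    have h3 := sum_flLo_le hPS b1 hsub
    unfold MS.Ls wt
    simpa using h3
  have a3 : (if S.hits T M.v M.x0 M.t2 c μ ν x = ∅ then (1 : ℝ) else 0) ≤ M.Ll T true b2 c μ ν x := by
    have h3 := le_sum_flUp hPL b2 hsub'
    unfold Msr.Ll wt
    simpa using h3
  have a4 : M.Ll T false b2 c μ ν x ≤ (if S.hits T M.v M.x0 M.t2 c μ ν x = ∅ then (1 : ℝ) else 0) := by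
    have h3 := sum_flLo_le hPL b2 hsub'
    unfold Msr.Ll wt
    simpa using h3
  by_cases hLL : S.LL T c μ ν x
  · unfold Msr.w
    rw [ind_true hLL, one_mul]
    have b1' : (if S.bad T c μ ν x = ∅ then (1 : ℝ) else 0) * (if S.hits T M.v M.x0 M.t2 c μ ν x = ∅ then (1 : ℝ) else 0) ≤
        ind (S.LL T c μ ν x ∧ S.bad T c μ ν x = ∅ ∧ S.hits T M.v M.x0 M.t2 c μ ν x = ∅) := by
      by_cases h5 : S.bad T c μ ν x = ∅
      · by_cases h6 : S.hits T M.v M.x0 M.t2 c μ ν x = ∅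
        · rw [if_pos h5, if_pos h6, ind_true ⟨hLL, h5, h6⟩, one_mul]
        · rw [if_neg h6, mul_zero]
          exact ind_nonneg _
      · rw [if_neg h5, zero_mul]
        exact ind_nonneg _
    refine le_trans ?_ b1'
    have c1 : (0 : ℝ) ≤ (if S.bad T c μ ν x = ∅ then (1 : ℝ) else 0) := by split_ifs <;> norm_num
    have c2 : (0 : ℝ) ≤ (if S.hits T M.v M.x0 M.t2 c μ ν x = ∅ then (1 : ℝ) else 0) := by split_ifs <;> norm_num
    generalize (if S.bad T c μ ν x = ∅ then (1 : ℝ) else 0) = B at *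
    generalize (if S.hits T M.v M.x0 M.t2 c μ ν x = ∅ then (1 : ℝ) else 0) = H at *
    generalize S.Ls T true b1 c μ ν x = LT at *
    generalize S.Ls T false b1 c μ ν x = LF at *
    generalize M.Ll T true b2 c μ ν x = MT at *
    generalize M.Ll T false b2 c μ ν x = MF at *
    have d1 : LF * MT ≤ B * MT := mul_le_mul_of_nonneg_right a2 (c2.trans a3)
    have d2 : B * (MT - MF) ≤ LT * (MT - MF) := mul_le_mul_of_nonneg_right a1 (by linarith)
    have d3 : B * MF ≤ B * H := mul_le_mul_of_nonneg_left a4 c1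
    linarith
  · unfold Msr.w
    rw [ind_false hLL, zero_mul]
    exact ind_nonneg _

end Pool.Agent.Lib.TC
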