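import Pool.Agent.Lib.MP_7b7e48_nt.TC.PDefs

/-!
# Q13: sums over sets of primes of products of local factors

`P`, `b` finite sets, `f p B B'` the local factor at `p` (`B`: `p ∈ d`, `B'`: `p ∈ d'`), `f p False False = 1` for `p ∉ b`.
* `Q13_two`: for `d, d' ⊆ P`: `∏_{p ∈ b ∪ d ∪ d'} f p (p ∈ d) (p ∈ d') = ∏_{p ∈ b ∪ P} f p (p ∈ d) (p ∈ d')`. Sum over `d, d' ⊆ P`: `∏_{p ∈ b \ P} f p False False * ∏_{p ∈ P} (sum of the four values)`
  (induction on `P`, `Finset.sum_powerset_insert`). Then bound: `p ∈ P \ b`: the four values add up to at most `A p`; `p ∈ b ∩ P`: each is at most `Bd p` (`0 ≤` all), so `4 Bd p`; `p ∈ b \ P`: `≤ Bd p ≤ 4 Bd p`.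
* `Q13_one`: the same for one set.
* `Q13_id`: the exact form for one set, with coefficients: `∏_{p ∈ b ∪ d} f p (p ∈ d) = ∏_{p ∈ b} f p False * ∏_{p ∈ d} (f p True / f p False)` (`f p False ≠ 0` for all `p`, `= 1` off `b`).
-/

set_option autoImplicit false

open Finset

namespace Pool.Agent.Lib.TC

private theorem Q13_add (P : Finset ℕ) (g : ℕ → Prop → ℝ) :
    ∑ d ∈ P.powerset, ∏ p ∈ P, g p (p ∈ d) = ∏ p ∈ P, (g p True + g p False) := by
  classical
  rw [prod_add]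
  refine sum_congr rfl fun d hd => ?_
  rw [mem_powerset] at hd
  rw [← prod_sdiff hd, mul_comm]
  congr 1
  · refine prod_congr rfl fun p hp => ?_
    rw [eq_true hp]
  · refine prod_congr rfl fun p hp => ?_
    rw [eq_false (mem_sdiff.1 hp).2]

private theorem Q13_un (P b S : Finset ℕ) (hS : S ⊆ P) (h : ℕ → ℝ) (h1 : ∀ p ∈ P, p ∉ b → p ∉ S → h p = 1) :
    ∏ p ∈ b ∪ S, h p = (∏ p ∈ b \ P, h p) * ∏ p ∈ P, h p := by
  classical
  rw [← prod_union sdiff_disjoint, sdiff_union_self_eq_union]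
  refine prod_subset (union_subset_union_right hS) fun p hp hp' => ?_
  rw [mem_union, not_or] at hp'
  rw [mem_union] at hp
  rcases hp with hp | hp
  · exact absurd hp hp'.1
  · exact h1 p hp hp'.1 hp'.2

private theorem Q13_bd (P b : Finset ℕ) (u v : ℕ → ℝ) (m : ℕ) (A Bd : ℕ → ℝ) (hu : ∀ p, 0 ≤ u p) (hv : ∀ p, 0 ≤ v p)
    (h1 : ∀ p ∈ P, p ∉ b → v p ≤ A p) (h2 : ∀ p ∈ P, p ∈ b → v p ≤ m * Bd p) (h3 : ∀ p ∈ b, p ∉ P → u p ≤ m * Bd p) :
    (∏ p ∈ b \ P, u p) * ∏ p ∈ P, v p ≤ (∏ p ∈ P \ b, A p) * ((m : ℝ) ^ b.card * ∏ p ∈ b, Bd p) := by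
  classical
  have e1 : (m : ℝ) ^ b.card * ∏ p ∈ b, Bd p = ∏ p ∈ b, ((m : ℝ) * Bd p) := by
    rw [prod_mul_distrib, prod_const]
  have e2 : ∏ p ∈ b, ((m : ℝ) * Bd p) = (∏ p ∈ b \ P, ((m : ℝ) * Bd p)) * ∏ p ∈ b ∩ P, ((m : ℝ) * Bd p) := by
    rw [← prod_union (disjoint_sdiff_inter b P), sdiff_union_inter]
  have e3 : ∏ p ∈ P, v p = (∏ p ∈ P \ b, v p) * ∏ p ∈ b ∩ P, v p := by
    rw [inter_comm b P, ← prod_union (disjoint_sdiff_inter P b), sdiff_union_inter]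
  rw [e1, e2, e3]
  have i1 : ∏ p ∈ P \ b, v p ≤ ∏ p ∈ P \ b, A p :=
    prod_le_prod (fun p _ => hv p) fun p hp => h1 p (mem_sdiff.1 hp).1 (mem_sdiff.1 hp).2
  have i2 : ∏ p ∈ b ∩ P, v p ≤ ∏ p ∈ b ∩ P, ((m : ℝ) * Bd p) :=
    prod_le_prod (fun p _ => hv p) fun p hp => h2 p (mem_inter.1 hp).2 (mem_inter.1 hp).1
  have i3 : ∏ p ∈ b \ P, u p ≤ ∏ p ∈ b \ P, ((m : ℝ) * Bd p) :=
    prod_le_prod (fun p _ => hu p) fun p hp => h3 p (mem_sdiff.1 hp).1 (mem_sdiff.1 hp).2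
  have p1 : 0 ≤ ∏ p ∈ P \ b, v p := prod_nonneg fun p _ => hv p
  have p2 : 0 ≤ ∏ p ∈ b ∩ P, v p := prod_nonneg fun p _ => hv p
  have p3 : 0 ≤ ∏ p ∈ b \ P, u p := prod_nonneg fun p _ => hu p
  calc (∏ p ∈ b \ P, u p) * ((∏ p ∈ P \ b, v p) * ∏ p ∈ b ∩ P, v p)
      = (∏ p ∈ P \ b, v p) * ((∏ p ∈ b \ P, u p) * ∏ p ∈ b ∩ P, v p) := by ring
    _ ≤ _ := mul_le_mul i1 (mul_le_mul i3 i2 p2 (p3.trans i3)) (mul_nonneg p3 p2) (p1.trans i1)

theorem Q13_two (P b : Finset ℕ) (f : ℕ → Prop → Prop → ℝ) (h0 : ∀ p B B', 0 ≤ f p B B') (h1 : ∀ p, p ∉ b → f p False False = 1) (A Bd : ℕ → ℝ)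
    (hA : ∀ p ∈ P, p ∉ b → f p False False + f p True False + f p False True + f p True True ≤ A p)
    (hB : ∀ p ∈ b, ∀ B B', (p ∉ P → B = False ∧ B' = False) → f p B B' ≤ Bd p) :
    ∑ d ∈ P.powerset, ∑ d' ∈ P.powerset, ∏ p ∈ b ∪ d ∪ d', f p (p ∈ d) (p ∈ d') ≤ (∏ p ∈ P \ b, A p) * (4 ^ b.card * ∏ p ∈ b, Bd p) := by
  classical
  have hT : ∀ d ∈ P.powerset, ∀ d' ∈ P.powerset, ∏ p ∈ b ∪ d ∪ d', f p (p ∈ d) (p ∈ d') =
      (∏ p ∈ b \ P, f p False False) * ∏ p ∈ P, f p (p ∈ d) (p ∈ d') := by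
    intro d hd d' hd'
    rw [mem_powerset] at hd hd'
    rw [union_assoc, Q13_un P b (d ∪ d') (union_subset hd hd') (fun p => f p (p ∈ d) (p ∈ d'))]
    · congr 1
      refine prod_congr rfl fun p hp => ?_
      have hp' := (mem_sdiff.1 hp).2
      rw [eq_false (fun h => hp' (hd h)), eq_false (fun h => hp' (hd' h))]
    · intro p _ hpb hps
      rw [mem_union, not_or] at hps
      beta_reduce
      rw [eq_false hps.1, eq_false hps.2]
      exact h1 p hpb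
  have hS : ∑ d ∈ P.powerset, ∑ d' ∈ P.powerset, ∏ p ∈ b ∪ d ∪ d', f p (p ∈ d) (p ∈ d') =
      (∏ p ∈ b \ P, f p False False) * ∏ p ∈ P, ((f p True True + f p True False) + (f p False True + f p False False)) := by
    calc ∑ d ∈ P.powerset, ∑ d' ∈ P.powerset, ∏ p ∈ b ∪ d ∪ d', f p (p ∈ d) (p ∈ d')
        = ∑ d ∈ P.powerset, (∏ p ∈ b \ P, f p False False) * ∏ p ∈ P, (f p (p ∈ d) True + f p (p ∈ d) False) := by
          refine sum_congr rfl fun d hd => ?_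
          rw [sum_congr rfl (hT d hd), ← mul_sum, Q13_add P (fun p B => f p (p ∈ d) B)]
      _ = _ := by
          rw [← mul_sum, Q13_add P (fun p B => f p B True + f p B False)]
  rw [hS]
  have h4 : (4 : ℝ) = ((4 : ℕ) : ℝ) := by norm_num
  rw [h4]
  refine Q13_bd P b (fun p => f p False False) (fun p => (f p True True + f p True False) + (f p False True + f p False False)) 4 A Bd
    (fun p => h0 _ _ _) (fun p => ?_) ?_ ?_ ?_
  · have a1 := h0 p True True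
    have a2 := h0 p True False
    have a3 := h0 p False True
    have a4 := h0 p False False
    beta_reduce
    linarith
  · intro p hp hpb
    have := hA p hp hpb
    beta_reduce
    linarith
  · intro p hp hpb
    have a1 := hB p hpb True True (fun h => absurd hp h)
    have a2 := hB p hpb True False (fun h => absurd hp h)
    have a3 := hB p hpb False True (fun h => absurd hp h)
    have a4 := hB p hpb False False (fun h => absurd hp h)
    push_cast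
    linarith
  · intro p hpb _
    have a4 := hB p hpb False False (fun _ => ⟨rfl, rfl⟩)
    have a5 := h0 p False False
    push_cast
    linarith

theorem Q13_one (P b : Finset ℕ) (f : ℕ → Prop → ℝ) (h0 : ∀ p B, 0 ≤ f p B) (h1 : ∀ p, p ∉ b → f p False = 1) (A Bd : ℕ → ℝ)
    (hA : ∀ p ∈ P, p ∉ b → f p False + f p True ≤ A p) (hB : ∀ p ∈ b, ∀ B, (p ∉ P → B = False) → f p B ≤ Bd p) :
    ∑ d ∈ P.powerset, ∏ p ∈ b ∪ d, f p (p ∈ d) ≤ (∏ p ∈ P \ b, A p) * (2 ^ b.card * ∏ p ∈ b, Bd p) := by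
  classical
  have hT : ∀ d ∈ P.powerset, ∏ p ∈ b ∪ d, f p (p ∈ d) = (∏ p ∈ b \ P, f p False) * ∏ p ∈ P, f p (p ∈ d) := by
    intro d hd
    rw [mem_powerset] at hd
    rw [Q13_un P b d hd (fun p => f p (p ∈ d))]
    · congr 1
      refine prod_congr rfl fun p hp => ?_
      have hp' := (mem_sdiff.1 hp).2
      rw [eq_false (fun h => hp' (hd h))]
    · intro p _ hpb hps
      beta_reduce
      rw [eq_false hps]
      exact h1 p hpb
  rw [sum_congr rfl hT, ← mul_sum, Q13_add P f]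
  have h4 : (2 : ℝ) = ((2 : ℕ) : ℝ) := by norm_num
  rw [h4]
  refine Q13_bd P b (fun p => f p False) (fun p => f p True + f p False) 2 A Bd (fun p => h0 _ _) (fun p => ?_) ?_ ?_ ?_
  · exact add_nonneg (h0 _ _) (h0 _ _)
  · intro p hp hpb
    have := hA p hp hpb
    beta_reduce
    linarith
  · intro p hp hpb
    have a1 := hB p hpb True (fun h => absurd hp h)
    have a4 := hB p hpb False (fun h => absurd hp h)
    push_cast
    linarith
  · intro p hpb _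
    have a4 := hB p hpb False (fun _ => rfl)
    have a5 := h0 p False
    push_cast
    linarith

theorem Q13_id (P b : Finset ℕ) (f : ℕ → Prop → ℝ) (h1 : ∀ p, p ∉ b → f p False = 1) (h2 : ∀ p ∈ b, f p False ≠ 0) (w : Finset ℕ → ℝ) :
    ∑ d ∈ P.powerset, w d * ∏ p ∈ b ∪ d, f p (p ∈ d) = (∏ p ∈ b, f p False) * ∑ d ∈ P.powerset, w d * ∏ p ∈ d, (f p True / f p False) := by
  classical
  rw [mul_sum]
  refine sum_congr rfl fun d _ => ?_
  have hne : ∀ p, f p False ≠ 0 := by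
    intro p
    by_cases hp : p ∈ b
    · exact h2 p hp
    · rw [h1 p hp]
      exact one_ne_zero
  have e1 : ∏ p ∈ b ∪ d, f p (p ∈ d) = ∏ p ∈ b ∪ d, (f p False * (if p ∈ d then f p True / f p False else 1)) := by
    refine prod_congr rfl fun p _ => ?_
    by_cases hp : p ∈ d
    · rw [if_pos hp, eq_true hp, mul_div_cancel₀ _ (hne p)]
    · rw [if_neg hp, eq_false hp, mul_one]
  have e2 : ∏ p ∈ b ∪ d, f p False = ∏ p ∈ b, f p False := by
    refine (prod_subset subset_union_left fun p _ hp => h1 p hp).symm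
  have e3 : ∏ p ∈ b ∪ d, (if p ∈ d then f p True / f p False else 1) = ∏ p ∈ d, (f p True / f p False) := by
    rw [prod_ite_mem, union_inter_cancel_right]
  rw [e1, prod_mul_distrib, e2, e3]
  ring

end Pool.Agent.Lib.TC
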