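import Pool.Agent.Lib.MP_7b7e48_nt.TC.Q09
import Pool.Agent.Lib.MP_7b7e48_nt.TC.POK

/-!
# Q11: change of the weight, uniform upper bound for the windows

* `Q11_sw`, `Q11_bt`: if `|h l - 1/l| ≤ ε (1/l)` on `P` then every sum of `h` over a subset of `P` is `(1 ± ε)` times the sum of `1/l`: from `(1 ± η) m/|H|` one gets
  `(1+ε)(1+η)/(1-ε) - 1 ≤ η + 8 ε` for `η ≤ 1`, `ε ≤ 1/4` (and below `1 - (1-ε)(1-η)/(1+ε) ≤ η + 8 ε`); `C (1+ε)/(1-ε) ≤ 3 C` for `ε ≤ 1/2`.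
* `Q11_X`: for fixed `β`, free primes and other marks the sum over the `α` (`Q09_up`, `ι = Fin (k+1)`, `P = S.WX`).
  `Φ ν'` may depend on all the other data: state it for one fixed function `Φ` of the residues of the `α`.
-/

set_option autoImplicit false

open Finset

namespace Pool.Agent.Lib.TC

private theorem Q11_close {h : ℕ → ℝ} {ε : ℝ} {P A : Finset ℕ} (hA : A ⊆ P)
    (hh : ∀ l ∈ P, |h l - 1 / l| ≤ ε * (1 / l)) : |∑ l ∈ A, h l - ∑ l ∈ A, 1 / (l : ℝ)| ≤ ε * ∑ l ∈ A, 1 / (l : ℝ) := by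
  rw [← sum_sub_distrib, mul_sum]
  exact (abs_sum_le_sum_abs _ _).trans (sum_le_sum fun l hl => hh l (hA hl))

private theorem Q11_div {b b' m ε : ℝ} (hm : 0 ≤ m) (h : |b' - b| ≤ ε * b) : |b' / m - b / m| ≤ ε * (b / m) := by
  rw [← sub_div, abs_div, abs_of_nonneg hm, ← mul_div_assoc]
  exact div_le_div_of_nonneg_right h hm

private theorem Q11_nn (A : Finset ℕ) (m : ℝ) (hm : 0 ≤ m) : 0 ≤ (∑ l ∈ A, 1 / (l : ℝ)) / m :=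
  div_nonneg (sum_nonneg fun l _ => div_nonneg zero_le_one (Nat.cast_nonneg l)) hm

private theorem Q11_ar {a a' t t' η ε : ℝ} (hη1 : η ≤ 1) (hη : 0 ≤ η) (hε : 0 ≤ ε) (hε1 : ε ≤ 1 / 4) (ht : 0 ≤ t)
    (h1 : |a - t| ≤ η * t) (h2 : |a' - a| ≤ ε * a) (h3 : |t' - t| ≤ ε * t) : |a' - t'| ≤ (η + 8 * ε) * t' := by
  have ha : a ≤ (1 + η) * t := by linarith [(abs_le.1 h1).2]
  have h4 : ε * a ≤ ε * ((1 + η) * t) := mul_le_mul_of_nonneg_left ha hε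
  have h5 : (1 - ε) * t ≤ t' := by linarith [(abs_le.1 h3).1]
  have h6 : (η + 8 * ε) * ((1 - ε) * t) ≤ (η + 8 * ε) * t' := mul_le_mul_of_nonneg_left h5 (by linarith)
  have h7 : 0 ≤ ε * t := mul_nonneg hε ht
  have h8 : ε * t * (2 * η + 8 * ε) ≤ ε * t * 6 := mul_le_mul_of_nonneg_left (by linarith) h7
  rw [abs_le] at h1 h2 h3 ⊢
  constructor
  · nlinarith [h1.1, h2.1, h3.2]
  · nlinarith [h1.2, h2.2, h3.1]

theorem Q11_sw {N D Q0 : ℕ} {h : ℕ → ℝ} {η ε : ℝ} {P : Finset ℕ} (hη : 0 ≤ η) (hη1 : η ≤ 1) (hε : 0 ≤ ε) (hε1 : ε ≤ 1 / 4) (hP : ∀ l ∈ P, 0 < l)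
    (hh : ∀ l ∈ P, |h l - 1 / l| ≤ ε * (1 / l)) (hs : SWc N D (fun l => 1 / (l : ℝ)) η Q0 P) : SWc N D h (η + 8 * ε) Q0 P := by
  intro Q hQ hQ0 κ u
  have h1 := hs Q hQ hQ0 κ u
  exact Q11_ar hη1 hη hε hε1 (Q11_nn _ _ (Nat.cast_nonneg _)) h1 (Q11_close (filter_subset _ _) hh)
    (Q11_div (Nat.cast_nonneg _) (Q11_close (filter_subset _ _) hh))

private theorem Q11_btar {h : ℕ → ℝ} {C ε m : ℝ} {A P : Finset ℕ} (hA : A ⊆ P) (hm : 0 ≤ m) (hC : 0 ≤ C) (hε : 0 ≤ ε) (hε1 : ε ≤ 1 / 2)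
    (hh : ∀ l ∈ P, |h l - 1 / l| ≤ ε * (1 / l)) (h1 : ∑ l ∈ A, 1 / (l : ℝ) ≤ C * ((∑ l ∈ P, 1 / (l : ℝ)) / m)) :
    ∑ l ∈ A, h l ≤ 3 * C * ((∑ l ∈ P, h l) / m) := by
  have h2 := Q11_div (m := m) hm (Q11_close (subset_refl P) hh)
  have h3 := Q11_nn P m hm
  have h4 := Q11_close hA hh
  have h5 := (abs_le.1 h4).2
  have h6 := mul_le_mul_of_nonneg_left h1 (show (0 : ℝ) ≤ 1 + ε by linarith)
  have h7 : (1 - ε) * ((∑ l ∈ P, 1 / (l : ℝ)) / m) ≤ (∑ l ∈ P, h l) / m := by linarith [(abs_le.1 h2).1]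
  have h8 := mul_le_mul_of_nonneg_left h7 (show (0 : ℝ) ≤ 3 * C by linarith)
  have h9 : (1 + ε) * (C * ((∑ l ∈ P, 1 / (l : ℝ)) / m)) ≤ (3 * (1 - ε)) * (C * ((∑ l ∈ P, 1 / (l : ℝ)) / m)) :=
    mul_le_mul_of_nonneg_right (by linarith) (mul_nonneg hC h3)
  refine le_trans ?_ h8
  refine le_trans ?_ (h9.trans (le_of_eq (by ring)))
  refine le_trans ?_ h6
  linarith

theorem Q11_bt {D Q0 : ℕ} {h : ℕ → ℝ} {C ε : ℝ} {P : Finset ℕ} (hC : 0 ≤ C) (hε : 0 ≤ ε) (hε1 : ε ≤ 1 / 2) (hP : ∀ l ∈ P, 0 < l)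
    (hh : ∀ l ∈ P, |h l - 1 / l| ≤ ε * (1 / l)) (hs : BTc D (fun l => 1 / (l : ℝ)) C Q0 P) : BTc D h (3 * C) Q0 P := by
  intro Q hQ hQ0 u
  have h1 := hs Q hQ hQ0 u
  exact Q11_btar (filter_subset _ _) (Nat.cast_nonneg _) hC hε hε1 hh h1

theorem Q11_X (S : MS) (D : ℕ) (h : ℕ → ℝ) (C : ℝ) (hC : 0 ≤ C) (Q0 : ℕ) (hb : ∀ i, BTc D h C Q0 (S.WX i)) (h0 : ∀ i, ∀ l ∈ S.WX i, 0 ≤ h l)
    (Q : Finset ℕ) (hQ : ∀ p ∈ Q, p.Prime) (hQ0 : ∏ p ∈ Q, p ^ (padicValNat p D + 1) ≤ Q0) (Φ : (∀ p : Q, Fin (S.k + 1) → HP D p) → ℝ) (hΦ : ∀ s, 0 ≤ Φ s) :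
    ∑ α ∈ Fintype.piFinset S.WX, (∏ i, h (α i)) * Φ (fun _ => rs _ α) ≤ C ^ (S.k + 1) * ((∏ i, ∑ l ∈ S.WX i, h l) * av Φ) := by
  classical
  have h1 := Q09_up S.WX (fun _ => h) h0 (fun _ l => (fun p : Q => (toU (p.1 ^ (padicValNat p D + 1)) l : HP D p))) C hC (by
    intro i u
    refine le_trans (le_of_eq (sum_congr ?_ fun _ _ => rfl)) (hb i Q hQ hQ0 u)
    ext l
    rw [mem_filter, mem_filter, funext_iff]) (fun s => Φ (fun p i => s i p)) (fun s => hΦ _)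
  rw [Fintype.card_fin] at h1
  have h2 : av (fun s : Fin (S.k + 1) → ∀ p : Q, HP D p => Φ (fun p i => s i p)) = av Φ :=
    av_equiv (Equiv.piComm (fun (_ : Fin (S.k + 1)) (p : Q) => HP D p)) Φ
  rw [h2] at h1
  exact h1

end Pool.Agent.Lib.TC
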