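import Pool.Agent.Lib.MP_7b7e48_nt.TC.Q10
import Pool.Agent.Lib.MP_7b7e48_nt.TC.Q11
import Pool.Agent.Lib.MP_7b7e48_nt.TC.Q17
import Pool.Agent.Lib.MP_7b7e48_nt.TC.Q18

/-!
# Q20: transfer to the model for two colourings

`hs`: the weights `hX`, `hY` are equidistributed (`Q11_sw`), error `η`. `Kp` a condition on the pairs of tuples which does not depend on the free primes inside their cells (`hK`). `d, d' ⊆ PS`.
Use `Q10` / `Q10_up` with `Q = base ∪ d ∪ d'` (and `p1` in `Q20_co`), `Ψ μ ν s = ind (Kp μ ν) * (..)` where in `FF c d = ∏_{p ∈ base ∪ d} ind (cb .. (pj c (rs _ μ.1) (S.yy ..) (S.fr _ μ ν)))` (`Q17_prod`) the residues `S.fr _ μ ν` are replaced by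
`fun e => s e p`. `Ψ` does not depend on the free primes inside the cells: `S.yy` contains the other marks and the colours `kX`, `kY`, which depend on the cells only; `Pb` contains only `μ.1`, `ν.1`.
`av` of the product over `p ∈ Q` is the product of the local averages (`av_pi`; write all products over `Q`, the factors at `p ∉ base ∪ d` of `FF c d` being `ind (cb .. False ..) = 1`):
* `av (FF c d) = ∏_{p ∈ base ∪ d} lav = Pb d` (`Q12_l1`), `av (FF c d * FF c' d') = ∏_{p ∈ base ∪ d ∪ d'} l2 (p ∈ d) (p ∈ d') p`, `= Pb d * Pb d'` for connected pairs (`Q12_l2`; `lav False = 1` off `base`).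
* `Q20_conn`: `av ((FF - Pb)(FF' - Pb')) = 0`, `|..| ≤ 1` (all of `FF`, `Pb` are in `[0, 1]`).
* `Q20_up`: `|(FF - Pb)(FF' - Pb')| ≤ FF FF' + FF Pb' + Pb FF' + Pb Pb'`, average `∏ l2 + 3 Pb Pb'`.
* `Q20_co`: `FF FF' (ϑ + ind co)`, average `∏ l2 * (ϑ + lco)` (`p1 ∉ base ∪ d ∪ d'`).
-/

set_option autoImplicit false

open Finset

namespace Pool.Agent.Lib.TC

variable {S : MS} {T : Dat} {W0 : ℕ} {Z : Fin (S.k + 1) → ℕ} {M : Msr S} {δ0 δ1 : ℝ} {p1 Q0 : ℕ} {η Cα : ℝ} {c c' : S.Col} {d d' : Finset ℕ} {X : ℤ}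

/-- the local condition as a function of the residues of the free primes -/
private noncomputable def q20g (S : MS) (T : Dat) (X : ℤ) (c : S.Col) (B : Prop) (μ : S.TX) (ν : S.TY) (p : ℕ)
    (s : FE S.n0 → HP T.D p) : ℝ :=
  ind (cb T S.k p (ycl T p X) B (aq _ μ.1) (aq _ ν.1) (pj c (rs _ μ.1) (S.yy T.N _ c μ ν) s))

/-- the product of the local conditions -/
private noncomputable def q20F (S : MS) (T : Dat) (X : ℤ) (Q : Finset ℕ) (c : S.Col) (d : Finset ℕ) (μ : S.TX) (ν : S.TY)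
    (s : FE S.n0 → ∀ p : Q, HP T.D p) : ℝ :=
  ∏ p : Q, q20g S T X c ((p : ℕ) ∈ d) μ ν p (fun e => s e p)

private theorem q20_yy {μ μ' : S.TX} {ν ν' : S.TY} {N : ℕ} (h1 : S.sX N μ μ') (h2 : S.sY N ν ν') (q : ℕ) (c : S.Col) :
    S.yy N q c μ ν = S.yy N q c μ' ν' := by
  obtain ⟨a1, a2, a3⟩ := h1
  obtain ⟨b1, b2, b3⟩ := h2
  have hkX : S.kX N c μ ν = S.kX N c μ' ν' := by
    unfold MS.kX
    rw [funext a2, funext b2, a3, b3]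
  have hkY : S.kY N c μ ν = S.kY N c μ' ν' := by
    unfold MS.kY
    rw [funext a2, funext b2, a3, b3]
  unfold MS.yy MS.oX MS.oY
  rw [hkX, hkY, a3, b3, b1]

private theorem q20_gc {μ μ' : S.TX} {ν ν' : S.TY} (h1 : S.sX T.N μ μ') (h2 : S.sY T.N ν ν') (c : S.Col) (B : Prop) (p : ℕ)
    (s : FE S.n0 → HP T.D p) : q20g S T X c B μ ν p s = q20g S T X c B μ' ν' p s := by
  unfold q20g
  rw [q20_yy h1 h2, h1.1, h2.1]

private theorem q20_Fc {Q : Finset ℕ} {μ μ' : S.TX} {ν ν' : S.TY} (h1 : S.sX T.N μ μ') (h2 : S.sY T.N ν ν') (c : S.Col)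
    (d : Finset ℕ) (s : FE S.n0 → ∀ p : Q, HP T.D p) : q20F S T X Q c d μ ν s = q20F S T X Q c d μ' ν' s := by
  unfold q20F
  exact prod_congr rfl fun p _ => q20_gc h1 h2 c _ p _

private theorem q20_Pbc {μ μ' : S.TX} {ν ν' : S.TY} (h1 : S.sX T.N μ μ') (h2 : S.sY T.N ν ν') (d : Finset ℕ) :
    S.Pb T μ ν X d = S.Pb T μ' ν' X d := by
  unfold MS.Pb
  rw [h1.1, h2.1]

private theorem q20_FF {Q : Finset ℕ} (hd : d ⊆ T.PS) (hQ : T.base ∪ d ⊆ Q) (c : S.Col) (μ : S.TX) (ν : S.TY) :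
    S.FF T c μ ν X d = ∏ p ∈ Q, q20g S T X c (p ∈ d) μ ν p (S.fr _ μ ν) := by
  rw [Q17_prod hd X]
  refine prod_subset hQ fun p _ hp => ?_
  rw [mem_union, not_or] at hp
  exact ind_true ⟨fun h => absurd h hp.1, fun h => absurd h hp.2⟩

private theorem q20_frP {Q : Finset ℕ} (hd : d ⊆ T.PS) (hQ : T.base ∪ d ⊆ Q) (c : S.Col) (μ : S.TX) (ν : S.TY) :
    q20F S T X Q c d μ ν (S.frP T Q μ ν) = S.FF T c μ ν X d := by
  rw [q20_FF hd hQ]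
  exact prod_coe_sort Q fun p => q20g S T X c (p ∈ d) μ ν p (S.fr _ μ ν)

private theorem q20_Pb {Q : Finset ℕ} (hQ : T.base ∪ d ⊆ Q) (μ : S.TX) (ν : S.TY) :
    S.Pb T μ ν X d = ∏ p ∈ Q, lav T S.k p (ycl T p X) (p ∈ d) (aq _ μ.1) (aq _ ν.1) := by
  unfold MS.Pb
  refine prod_subset hQ fun p _ hp => ?_
  rw [mem_union, not_or] at hp
  rw [propext (iff_false_intro hp.2)]
  exact Q14_one hp.1 _ _ _

private theorem q20_CC (hc : c ∈ S.CC) (j : Fin S.k) : ∃ e, c e = j.castSucc := by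
  unfold MS.CC at hc
  rw [mem_filter] at hc
  exact hc.2 j

private theorem q20_av1 (hc : c ∈ S.CC) (B : Prop) (μ : S.TX) (ν : S.TY) (p : ℕ) :
    av (q20g S T X c B μ ν p) = lav T S.k p (ycl T p X) B (aq _ μ.1) (aq _ ν.1) :=
  Q12_l1 T p (ycl T p X) B c (q20_CC hc) (rs _ μ.1) (S.yy T.N _ c μ ν) (aq _ ν.1)

private theorem q20_avF {Q : Finset ℕ} (hQ : T.base ∪ d ⊆ Q) (hc : c ∈ S.CC) (μ : S.TX) (ν : S.TY) :
    av (q20F S T X Q c d μ ν) = S.Pb T μ ν X d := by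
  have h1 := av_pi (E := FE S.n0) (ι := Q) (fun p : Q => HP T.D p) fun p : Q => q20g S T X c ((p : ℕ) ∈ d) μ ν p
  refine h1.trans ?_
  rw [q20_Pb hQ]
  rw [← prod_coe_sort Q fun p => lav T S.k p (ycl T p X) (p ∈ d) (aq _ μ.1) (aq _ ν.1)]
  exact prod_congr rfl fun p _ => q20_av1 hc _ μ ν p

private theorem q20_avFF {Q : Finset ℕ} (c c' : S.Col) (d d' : Finset ℕ) (μ : S.TX) (ν : S.TY) :
    av (fun s => q20F S T X Q c d μ ν s * q20F S T X Q c' d' μ ν s) =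
      ∏ p ∈ Q, S.l2 T c c' μ ν X (p ∈ d) (p ∈ d') p := by
  have h1 := av_pi (E := FE S.n0) (ι := Q) (fun p : Q => HP T.D p) fun p : Q => fun s =>
    q20g S T X c ((p : ℕ) ∈ d) μ ν p s * q20g S T X c' ((p : ℕ) ∈ d') μ ν p s
  have h2 : (fun s : FE S.n0 → ∀ p : Q, HP T.D p => q20F S T X Q c d μ ν s * q20F S T X Q c' d' μ ν s) =
      fun s => ∏ p : Q, (q20g S T X c ((p : ℕ) ∈ d) μ ν p (fun e => s e p) *
        q20g S T X c' ((p : ℕ) ∈ d') μ ν p (fun e => s e p)) := by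
    funext s
    unfold q20F
    rw [← prod_mul_distrib]
  rw [h2]
  refine h1.trans ?_
  rw [← prod_coe_sort Q fun p => S.l2 T c c' μ ν X (p ∈ d) (p ∈ d') p]
  exact prod_congr rfl fun p _ => rfl

private theorem q20_F01 {Q : Finset ℕ} (c : S.Col) (d : Finset ℕ) (μ : S.TX) (ν : S.TY) (s : FE S.n0 → ∀ p : Q, HP T.D p) :
    0 ≤ q20F S T X Q c d μ ν s ∧ q20F S T X Q c d μ ν s ≤ 1 := by
  unfold q20F
  exact ⟨prod_nonneg fun p _ => ind_nonneg _, prod_le_one (fun p _ => ind_nonneg _) fun p _ => ind_le_one _⟩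

private theorem q20_P01 (hc : c ∈ S.CC) (d : Finset ℕ) (μ : S.TX) (ν : S.TY) :
    0 ≤ S.Pb T μ ν X d ∧ S.Pb T μ ν X d ≤ 1 := by
  rw [← q20_avF (Q := T.base ∪ d) (subset_refl _) hc μ ν]
  refine ⟨av_nonneg fun s => (q20_F01 c d μ ν s).1, ?_⟩
  rw [← av_const (α := FE S.n0 → ∀ p : ↥(T.base ∪ d), HP T.D p) 1]
  exact av_mono fun s => (q20_F01 c d μ ν s).2

private theorem q20_prime {Q : Finset ℕ} (hd : d ⊆ T.PS) (hd' : d' ⊆ T.PS) (hQ : Q = T.base ∪ d ∪ d') :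
    ∀ p ∈ Q, p.Prime ∧ p ≤ T.y0 := by
  intro p hp
  rw [hQ, mem_union, mem_union] at hp
  rcases hp with (hp | hp) | hp
  · unfold Dat.base at hp
    rw [mem_filter, mem_range] at hp
    exact ⟨hp.2.1, by omega⟩
  · have h1 := hd hp
    unfold Dat.PS at h1
    rw [mem_filter, mem_range] at h1
    exact ⟨h1.2.1, by omega⟩
  · have h1 := hd' hp
    unfold Dat.PS at h1
    rw [mem_filter, mem_range] at h1
    exact ⟨h1.2.1, by omega⟩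

private theorem q20_0X (hS : S.OK T W0 Z) (hM : M.OK T W0 δ0 δ1) (l : ℕ)
    (h : (∃ i, l ∈ S.WX i) ∨ (∃ f, l ∈ S.FX f) ∨ (∃ e, l ∈ S.OX e)) : 0 ≤ M.hX l := by
  rcases h with ⟨i, h⟩ | ⟨f, h⟩ | ⟨e, h⟩
  · exact (hM.hX_nonneg l (hS.WX_mem _ _ h).1).1
  · exact (hM.hX_nonneg l (hS.FX_mem _ _ h).1).1
  · exact (hM.hX_nonneg l (hS.OX_mem _ _ h).1).1

private theorem q20_0Y (hS : S.OK T W0 Z) (hM : M.OK T W0 δ0 δ1) (l : ℕ)
    (h : (∃ i, l ∈ S.WY i) ∨ (∃ f, l ∈ S.FY f) ∨ (∃ e, l ∈ S.OY e)) : 0 ≤ M.hY l := by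
  rcases h with ⟨i, h⟩ | ⟨f, h⟩ | ⟨e, h⟩
  · exact (hM.hY_nonneg l (hS.WY_mem _ _ h).1).1
  · exact (hM.hY_nonneg l (hS.FY_mem _ _ h).1).1
  · exact (hM.hY_nonneg l (hS.OY_mem _ _ h).1).1

private theorem q20_m1 (hS : S.OK T W0 Z) (hM : M.OK T W0 δ0 δ1) {μ : S.TX} (hμ : μ ∈ S.MX) {ν : S.TY} (hν : ν ∈ S.MY) :
    0 ≤ M.m1 μ ν := by
  unfold MS.MX at hμ
  unfold MS.MY at hν
  rw [mem_product, mem_product, Fintype.mem_piFinset, Fintype.mem_piFinset, Fintype.mem_piFinset] at hμ hν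
  unfold Msr.m1 MS.prX MS.prY
  refine mul_nonneg (mul_nonneg (mul_nonneg ?_ ?_) ?_) (mul_nonneg (mul_nonneg ?_ ?_) ?_)
  · exact prod_nonneg fun i _ => q20_0X hS hM _ (Or.inl ⟨i, hμ.1 i⟩)
  · exact prod_nonneg fun i _ => q20_0X hS hM _ (Or.inr (Or.inl ⟨i, hμ.2.1 i⟩))
  · exact prod_nonneg fun i _ => q20_0X hS hM _ (Or.inr (Or.inr ⟨i, hμ.2.2 i⟩))
  · exact prod_nonneg fun i _ => q20_0Y hS hM _ (Or.inl ⟨i, hν.1 i⟩)
  · exact prod_nonneg fun i _ => q20_0Y hS hM _ (Or.inr (Or.inl ⟨i, hν.2.1 i⟩))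
  · exact prod_nonneg fun i _ => q20_0Y hS hM _ (Or.inr (Or.inr ⟨i, hν.2.2 i⟩))

theorem Q20_conn (hT : T.OK W0) (hS : S.OK T W0 Z) (hM : M.OK T W0 δ0 δ1) (hη : 0 ≤ η) (hsX : ∀ f, SWc T.N T.D M.hX η Q0 (S.FX f))
    (hsY : ∀ f, SWc T.N T.D M.hY η Q0 (S.FY f)) (hc : c ∈ S.CC) (hc' : c' ∈ S.CC) (hcc : Conn S.k c c') (hd : d ⊆ T.PS) (hd' : d' ⊆ T.PS)
    (hQ0 : ∏ p ∈ T.base ∪ d ∪ d', p ^ (padicValNat p T.D + 1) ≤ Q0) (Kp : S.TX → S.TY → Prop)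
    (hK : ∀ μ μ' ν ν', S.sX T.N μ μ' → S.sY T.N ν ν' → (Kp μ ν ↔ Kp μ' ν')) :
    |∑ μ ∈ S.MX, ∑ ν ∈ S.MY, M.m1 μ ν * (ind (Kp μ ν) * ((S.FF T c μ ν X d - S.Pb T μ ν X d) * (S.FF T c' μ ν X d' - S.Pb T μ ν X d')))| ≤
      ((1 + η) ^ (2 * S.n0) - 1) * ∑ μ ∈ S.MX, ∑ ν ∈ S.MY, M.m1 μ ν := by
  have _ := hT
  obtain ⟨Q, hQ⟩ : ∃ Q, Q = T.base ∪ d ∪ d' := ⟨_, rfl⟩
  have hQ1 : T.base ∪ d ⊆ Q := by
    rw [hQ]
    exact subset_union_left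
  have hQ2 : T.base ∪ d' ⊆ Q := by
    rw [hQ]
    exact union_subset_union_left subset_union_left
  obtain ⟨Ψ, hΨd⟩ : ∃ Ψ : S.TX → S.TY → (FE S.n0 → ∀ p : Q, HP T.D p) → ℝ, Ψ = fun μ ν s =>
      ind (Kp μ ν) * ((q20F S T X Q c d μ ν s - S.Pb T μ ν X d) * (q20F S T X Q c' d' μ ν s - S.Pb T μ ν X d')) := ⟨_, rfl⟩
  have hΨ : ∀ μ μ' ν ν' s, S.sX T.N μ μ' → S.sY T.N ν ν' → Ψ μ ν s = Ψ μ' ν' s := by
    intro μ μ' ν ν' s h1 h2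
    rw [hΨd]
    show ind (Kp μ ν) * _ = ind (Kp μ' ν') * _
    rw [propext (hK μ μ' ν ν' h1 h2), q20_Fc h1 h2, q20_Fc h1 h2, q20_Pbc h1 h2, q20_Pbc h1 h2]
  have hmain := Q10 S T M.hX M.hY η hη Q0 hsX hsY (q20_0X hS hM) (q20_0Y hS hM) Q
    (fun p hp => (q20_prime hd hd' hQ p hp).1) (by rw [hQ]; exact hQ0) Ψ hΨ
  have h0 : ∀ μ ν, av (Ψ μ ν) = 0 := by
    intro μ ν
    have e1 : Ψ μ ν = fun s => ind (Kp μ ν) * ((q20F S T X Q c d μ ν s * q20F S T X Q c' d' μ ν s -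
        S.Pb T μ ν X d' * q20F S T X Q c d μ ν s) - (S.Pb T μ ν X d * q20F S T X Q c' d' μ ν s -
        S.Pb T μ ν X d * S.Pb T μ ν X d')) := by
      rw [hΨd]
      funext s
      ring
    rw [e1, av_mul_left, av_sub, av_sub, av_sub, av_mul_left, av_mul_left, av_const, q20_avFF, q20_avF hQ1 hc,
      q20_avF hQ2 hc']
    have e2 : ∏ p ∈ Q, S.l2 T c c' μ ν X (p ∈ d) (p ∈ d') p = S.Pb T μ ν X d * S.Pb T μ ν X d' := by
      rw [q20_Pb hQ1, q20_Pb hQ2, ← prod_mul_distrib]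
      refine prod_congr rfl fun p _ => ?_
      exact Q12_l2 T p (ycl T p X) (p ∈ d) (p ∈ d') c c' hcc (rs _ μ.1) (S.yy T.N _ c μ ν) (S.yy T.N _ c' μ ν) (aq _ ν.1)
    rw [e2]
    ring
  have h1 : ∀ μ ν, av (fun s => |Ψ μ ν s|) ≤ 1 := by
    intro μ ν
    rw [← av_const (α := FE S.n0 → ∀ p : Q, HP T.D p) 1]
    refine av_mono fun s => ?_
    rw [hΨd]
    show |ind (Kp μ ν) * ((q20F S T X Q c d μ ν s - S.Pb T μ ν X d) * (q20F S T X Q c' d' μ ν s - S.Pb T μ ν X d'))| ≤ 1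
    rw [abs_mul, abs_mul, abs_of_nonneg (ind_nonneg _)]
    have a1 := q20_F01 (X := X) c d μ ν s
    have a2 := q20_F01 (X := X) c' d' μ ν s
    have a3 := q20_P01 (T := T) (X := X) hc d μ ν
    have a4 := q20_P01 (T := T) (X := X) hc d' μ ν
    have a5 : |q20F S T X Q c d μ ν s - S.Pb T μ ν X d| ≤ 1 := abs_le.2 ⟨by linarith, by linarith⟩
    have a6 : |q20F S T X Q c' d' μ ν s - S.Pb T μ ν X d'| ≤ 1 := abs_le.2 ⟨by linarith, by linarith⟩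
    exact mul_le_one₀ (ind_le_one _) (mul_nonneg (abs_nonneg _) (abs_nonneg _)) (mul_le_one₀ a5 (abs_nonneg _) a6)
  have h2 : ∑ μ ∈ S.MX, ∑ ν ∈ S.MY, S.prX M.hX μ * S.prY M.hY ν * av (Ψ μ ν) = 0 :=
    sum_eq_zero fun μ _ => sum_eq_zero fun ν _ => by rw [h0, mul_zero]
  rw [h2, sub_zero] at hmain
  have h3 : ∑ μ ∈ S.MX, ∑ ν ∈ S.MY, M.m1 μ ν * (ind (Kp μ ν) * ((S.FF T c μ ν X d - S.Pb T μ ν X d) *
      (S.FF T c' μ ν X d' - S.Pb T μ ν X d'))) =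
      ∑ μ ∈ S.MX, ∑ ν ∈ S.MY, S.prX M.hX μ * S.prY M.hY ν * Ψ μ ν (S.frP T Q μ ν) := by
    refine sum_congr rfl fun μ _ => sum_congr rfl fun ν _ => ?_
    rw [hΨd]
    show _ = S.prX M.hX μ * S.prY M.hY ν * (ind (Kp μ ν) * ((q20F S T X Q c d μ ν (S.frP T Q μ ν) - S.Pb T μ ν X d) *
      (q20F S T X Q c' d' μ ν (S.frP T Q μ ν) - S.Pb T μ ν X d')))
    rw [q20_frP hd hQ1, q20_frP hd' hQ2]
    rfl
  rw [h3]
  refine hmain.trans (mul_le_mul_of_nonneg_left ?_ ?_)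
  · refine sum_le_sum fun μ hμ => sum_le_sum fun ν hν => ?_
    have h4 := q20_m1 hS hM hμ hν
    have h5 : S.prX M.hX μ * S.prY M.hY ν * av (fun s => |Ψ μ ν s|) ≤ M.m1 μ ν * 1 :=
      mul_le_mul_of_nonneg_left (h1 μ ν) h4
    rw [mul_one] at h5
    exact h5
  · have : (1 : ℝ) ≤ (1 + η) ^ (2 * S.n0) := one_le_pow₀ (by linarith)
    linarith

theorem Q20_up (hT : T.OK W0) (hS : S.OK T W0 Z) (hM : M.OK T W0 δ0 δ1) (hη : 0 ≤ η) (hsX : ∀ f, SWc T.N T.D M.hX η Q0 (S.FX f))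
    (hsY : ∀ f, SWc T.N T.D M.hY η Q0 (S.FY f)) (hc : c ∈ S.CC) (hc' : c' ∈ S.CC) (hd : d ⊆ T.PS) (hd' : d' ⊆ T.PS)
    (hQ0 : ∏ p ∈ T.base ∪ d ∪ d', p ^ (padicValNat p T.D + 1) ≤ Q0) (Kp : S.TX → S.TY → Prop)
    (hK : ∀ μ μ' ν ν', S.sX T.N μ μ' → S.sY T.N ν ν' → (Kp μ ν ↔ Kp μ' ν')) :
    ∑ μ ∈ S.MX, ∑ ν ∈ S.MY, M.m1 μ ν * (ind (Kp μ ν) * |(S.FF T c μ ν X d - S.Pb T μ ν X d) * (S.FF T c' μ ν X d' - S.Pb T μ ν X d')|) ≤
      (1 + η) ^ (2 * S.n0) * ∑ μ ∈ S.MX, ∑ ν ∈ S.MY, M.m1 μ ν * (ind (Kp μ ν) *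
        (∏ p ∈ T.base ∪ d ∪ d', S.l2 T c c' μ ν X (p ∈ d) (p ∈ d') p + 3 * (S.Pb T μ ν X d * S.Pb T μ ν X d'))) := by
  have _ := hT
  obtain ⟨Q, hQ⟩ : ∃ Q, Q = T.base ∪ d ∪ d' := ⟨_, rfl⟩
  have hQ1 : T.base ∪ d ⊆ Q := by
    rw [hQ]
    exact subset_union_left
  have hQ2 : T.base ∪ d' ⊆ Q := by
    rw [hQ]
    exact union_subset_union_left subset_union_left
  obtain ⟨Ψ, hΨd⟩ : ∃ Ψ : S.TX → S.TY → (FE S.n0 → ∀ p : Q, HP T.D p) → ℝ, Ψ = fun μ ν s =>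
      ind (Kp μ ν) * |(q20F S T X Q c d μ ν s - S.Pb T μ ν X d) * (q20F S T X Q c' d' μ ν s - S.Pb T μ ν X d')| := ⟨_, rfl⟩
  have hΨ : ∀ μ μ' ν ν' s, S.sX T.N μ μ' → S.sY T.N ν ν' → Ψ μ ν s = Ψ μ' ν' s := by
    intro μ μ' ν ν' s h1 h2
    rw [hΨd]
    show ind (Kp μ ν) * _ = ind (Kp μ' ν') * _
    rw [propext (hK μ μ' ν ν' h1 h2), q20_Fc h1 h2, q20_Fc h1 h2, q20_Pbc h1 h2, q20_Pbc h1 h2]
  have hΨ0 : ∀ μ ν s, 0 ≤ Ψ μ ν s := by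
    intro μ ν s
    rw [hΨd]
    exact mul_nonneg (ind_nonneg _) (abs_nonneg _)
  have hmain := Q10_up S T M.hX M.hY η hη Q0 hsX hsY (q20_0X hS hM) (q20_0Y hS hM) Q
    (fun p hp => (q20_prime hd hd' hQ p hp).1) (by rw [hQ]; exact hQ0) Ψ hΨ hΨ0
  have h1 : ∀ μ ν, av (Ψ μ ν) ≤ ind (Kp μ ν) *
      (∏ p ∈ Q, S.l2 T c c' μ ν X (p ∈ d) (p ∈ d') p + 3 * (S.Pb T μ ν X d * S.Pb T μ ν X d')) := by
    intro μ ν
    have e1 : av (Ψ μ ν) ≤ av fun s => ind (Kp μ ν) * (((q20F S T X Q c d μ ν s * q20F S T X Q c' d' μ ν s +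
        S.Pb T μ ν X d' * q20F S T X Q c d μ ν s) + S.Pb T μ ν X d * q20F S T X Q c' d' μ ν s) +
        S.Pb T μ ν X d * S.Pb T μ ν X d') := by
      refine av_mono fun s => ?_
      rw [hΨd]
      refine mul_le_mul_of_nonneg_left ?_ (ind_nonneg _)
      have a1 := q20_F01 (X := X) c d μ ν s
      have a2 := q20_F01 (X := X) c' d' μ ν s
      have a3 := q20_P01 (T := T) (X := X) hc d μ ν
      have a4 := q20_P01 (T := T) (X := X) hc d' μ ν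
      have b1 := mul_nonneg a1.1 a2.1
      have b2 := mul_nonneg a4.1 a1.1
      have b3 := mul_nonneg a3.1 a2.1
      have b4 := mul_nonneg a3.1 a4.1
      rw [abs_le]
      constructor
      · nlinarith
      · nlinarith
    refine e1.trans (le_of_eq ?_)
    rw [av_mul_left, av_add, av_add, av_add, av_mul_left, av_mul_left, av_const, q20_avFF, q20_avF hQ1 hc,
      q20_avF hQ2 hc']
    ring
  have h3 : ∑ μ ∈ S.MX, ∑ ν ∈ S.MY, M.m1 μ ν * (ind (Kp μ ν) * |(S.FF T c μ ν X d - S.Pb T μ ν X d) *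
      (S.FF T c' μ ν X d' - S.Pb T μ ν X d')|) =
      ∑ μ ∈ S.MX, ∑ ν ∈ S.MY, S.prX M.hX μ * S.prY M.hY ν * Ψ μ ν (S.frP T Q μ ν) := by
    refine sum_congr rfl fun μ _ => sum_congr rfl fun ν _ => ?_
    rw [hΨd]
    show _ = S.prX M.hX μ * S.prY M.hY ν * (ind (Kp μ ν) * |(q20F S T X Q c d μ ν (S.frP T Q μ ν) - S.Pb T μ ν X d) *
      (q20F S T X Q c' d' μ ν (S.frP T Q μ ν) - S.Pb T μ ν X d')|)
    rw [q20_frP hd hQ1, q20_frP hd' hQ2]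
    rfl
  rw [h3, ← hQ]
  refine hmain.trans (mul_le_mul_of_nonneg_left ?_ (by positivity))
  refine sum_le_sum fun μ hμ => sum_le_sum fun ν hν => ?_
  exact mul_le_mul_of_nonneg_left (h1 μ ν) (q20_m1 hS hM hμ hν)

/-- coinciding roots as a function of the residues of the free primes -/
private noncomputable def q20c (M : Msr S) (T : Dat) (c c' : S.Col) (μ : S.TX) (ν : S.TY) (p : ℕ)
    (s : FE S.n0 → HP T.D p) : ℝ :=
  ind (coin T S.k (p ^ (padicValNat p T.D + 1)) M.x0 M.t2 (aq _ μ.1) (aq _ ν.1)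
    (pj c (rs _ μ.1) (S.yy T.N _ c μ ν) s) (pj c' (rs _ μ.1) (S.yy T.N _ c' μ ν) s))

private theorem q20_cc {μ μ' : S.TX} {ν ν' : S.TY} (h1 : S.sX T.N μ μ') (h2 : S.sY T.N ν ν') (c c' : S.Col) (p : ℕ)
    (s : FE S.n0 → HP T.D p) : q20c M T c c' μ ν p s = q20c M T c c' μ' ν' p s := by
  unfold q20c
  rw [q20_yy h1 h2, q20_yy h1 h2, h1.1, h2.1]

theorem Q20_co (hT : T.OK W0) (hS : S.OK T W0 Z) (hA : S.An T p1 Q0 η Cα) (hM : M.OK T W0 δ0 δ1) {η' : ℝ} (hη : 0 ≤ η') (hsX : ∀ f, SWc T.N T.D M.hX η' Q0 (S.FX f))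
    (hsY : ∀ f, SWc T.N T.D M.hY η' Q0 (S.FY f)) (hc : c ∈ S.CC) (hc' : c' ∈ S.CC) (hd : d ⊆ T.PS) (hd' : d' ⊆ T.PS)
    (hQ0 : (∏ p ∈ T.base ∪ d ∪ d', p ^ (padicValNat p T.D + 1)) * p1 ≤ Q0) (Kp : S.TX → S.TY → Prop)
    (hK : ∀ μ μ' ν ν', S.sX T.N μ μ' → S.sY T.N ν ν' → (Kp μ ν ↔ Kp μ' ν')) {ϑ : ℝ} (hϑ : 0 ≤ ϑ) :
    ∑ μ ∈ S.MX, ∑ ν ∈ S.MY, M.m1 μ ν * (ind (Kp μ ν) * (S.FF T c μ ν X d * S.FF T c' μ ν X d' * (ϑ + ind (M.co T p1 c c' μ ν)))) ≤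
      (1 + η') ^ (2 * S.n0) * ∑ μ ∈ S.MX, ∑ ν ∈ S.MY, M.m1 μ ν * (ind (Kp μ ν) *
        ((∏ p ∈ T.base ∪ d ∪ d', S.l2 T c c' μ ν X (p ∈ d) (p ∈ d') p) * (ϑ + M.lco T p1 c c' μ ν))) := by
  have _ := hc
  have _ := hc'
  obtain ⟨Q, hQ⟩ : ∃ Q, Q = T.base ∪ d ∪ d' := ⟨_, rfl⟩
  have hQ1 : T.base ∪ d ⊆ Q := by
    rw [hQ]
    exact subset_union_left
  have hQ2 : T.base ∪ d' ⊆ Q := by
    rw [hQ]
    exact union_subset_union_left subset_union_left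
  have hpr := q20_prime hd hd' hQ
  have hp1Q : p1 ∉ Q := by
    intro h
    have h1 := (hpr p1 h).2
    have h2 := hA.p1_lo
    omega
  have hv1 : padicValNat p1 T.D = 0 := by
    refine padicValNat.eq_zero_of_not_dvd fun h => ?_
    have h1 := Nat.le_of_dvd hT.D_pos h
    have h2 := hT.D_le
    have h3 := hA.p1_lo
    omega
  -- the local factors
  obtain ⟨φ, hφ⟩ : ∃ φ : S.TX → S.TY → (p : ℕ) → (FE S.n0 → HP T.D p) → ℝ, φ = fun μ ν p s =>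
      if p = p1 then ϑ + q20c M T c c' μ ν p s
      else q20g S T X c (p ∈ d) μ ν p s * q20g S T X c' (p ∈ d') μ ν p s := ⟨_, rfl⟩
  obtain ⟨Ψ, hΨd⟩ : ∃ Ψ : S.TX → S.TY → (FE S.n0 → ∀ p : ↥(insert p1 Q), HP T.D p) → ℝ, Ψ = fun μ ν s =>
      ind (Kp μ ν) * ∏ p : ↥(insert p1 Q), φ μ ν p (fun e => s e p) := ⟨_, rfl⟩
  have hφc : ∀ μ μ' ν ν' p s, S.sX T.N μ μ' → S.sY T.N ν ν' → φ μ ν p s = φ μ' ν' p s := by
    intro μ μ' ν ν' p s h1 h2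
    rw [hφ]
    show (if p = p1 then ϑ + q20c M T c c' μ ν p s
      else q20g S T X c (p ∈ d) μ ν p s * q20g S T X c' (p ∈ d') μ ν p s) =
      (if p = p1 then ϑ + q20c M T c c' μ' ν' p s
      else q20g S T X c (p ∈ d) μ' ν' p s * q20g S T X c' (p ∈ d') μ' ν' p s)
    rw [q20_cc h1 h2, q20_gc h1 h2, q20_gc h1 h2]
  have hΨ : ∀ μ μ' ν ν' s, S.sX T.N μ μ' → S.sY T.N ν ν' → Ψ μ ν s = Ψ μ' ν' s := by
    intro μ μ' ν ν' s h1 h2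
    rw [hΨd]
    show ind (Kp μ ν) * _ = ind (Kp μ' ν') * _
    rw [propext (hK μ μ' ν ν' h1 h2)]
    congr 1
    exact prod_congr rfl fun p _ => hφc μ μ' ν ν' p _ h1 h2
  have hφ0 : ∀ μ ν p s, 0 ≤ φ μ ν p s := by
    intro μ ν p s
    rw [hφ]
    show 0 ≤ if p = p1 then ϑ + q20c M T c c' μ ν p s
      else q20g S T X c (p ∈ d) μ ν p s * q20g S T X c' (p ∈ d') μ ν p s
    split_ifs
    · exact add_nonneg hϑ (ind_nonneg _)
    · exact mul_nonneg (ind_nonneg _) (ind_nonneg _)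
  have hΨ0 : ∀ μ ν s, 0 ≤ Ψ μ ν s := by
    intro μ ν s
    rw [hΨd]
    exact mul_nonneg (ind_nonneg _) (prod_nonneg fun p _ => hφ0 μ ν p _)
  have hmain := Q10_up S T M.hX M.hY η' hη Q0 hsX hsY (q20_0X hS hM) (q20_0Y hS hM) (insert p1 Q)
    (fun p hp => by
      rcases mem_insert.1 hp with h | h
      · rw [h]
        exact hA.p1_pr
      · exact (hpr p h).1)
    (by
      rw [prod_insert hp1Q, hv1, zero_add, pow_one, mul_comm, hQ]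
      exact hQ0) Ψ hΨ hΨ0
  have h1 : ∀ μ ν, av (Ψ μ ν) = ind (Kp μ ν) *
      ((∏ p ∈ Q, S.l2 T c c' μ ν X (p ∈ d) (p ∈ d') p) * (ϑ + M.lco T p1 c c' μ ν)) := by
    intro μ ν
    have e1 : av (Ψ μ ν) = ind (Kp μ ν) * ∏ p : ↥(insert p1 Q), av (φ μ ν p) := by
      rw [hΨd]
      show av (fun s : FE S.n0 → ∀ p : ↥(insert p1 Q), HP T.D p =>
        ind (Kp μ ν) * ∏ p : ↥(insert p1 Q), φ μ ν p (fun e => s e p)) = _
      rw [av_mul_left]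
      congr 1
      exact av_pi (E := FE S.n0) (ι := ↥(insert p1 Q)) (fun p => HP T.D p) fun p => φ μ ν p
    rw [e1, prod_coe_sort (insert p1 Q) fun p => av (φ μ ν p), prod_insert hp1Q, mul_comm (av (φ μ ν p1))]
    congr 2
    · refine prod_congr rfl fun p hp => ?_
      have hne : p ≠ p1 := fun h => hp1Q (h ▸ hp)
      have e2 : φ μ ν p = fun s => q20g S T X c (p ∈ d) μ ν p s * q20g S T X c' (p ∈ d') μ ν p s := by
        rw [hφ]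
        funext s
        exact if_neg hne
      rw [e2]
      rfl
    · have e2 : φ μ ν p1 = fun s => ϑ + q20c M T c c' μ ν p1 s := by
        rw [hφ]
        funext s
        exact if_pos rfl
      rw [e2, av_add, av_const]
      rfl
  have h3 : ∑ μ ∈ S.MX, ∑ ν ∈ S.MY, M.m1 μ ν * (ind (Kp μ ν) * (S.FF T c μ ν X d * S.FF T c' μ ν X d' *
      (ϑ + ind (M.co T p1 c c' μ ν)))) =
      ∑ μ ∈ S.MX, ∑ ν ∈ S.MY, S.prX M.hX μ * S.prY M.hY ν * Ψ μ ν (S.frP T (insert p1 Q) μ ν) := by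
    refine sum_congr rfl fun μ _ => sum_congr rfl fun ν _ => ?_
    rw [hΨd]
    show _ = S.prX M.hX μ * S.prY M.hY ν * (ind (Kp μ ν) *
      ∏ p : ↥(insert p1 Q), (fun p : ℕ => φ μ ν p (S.fr _ μ ν)) p)
    rw [prod_coe_sort (insert p1 Q) fun p : ℕ => φ μ ν p (S.fr _ μ ν), prod_insert hp1Q, q20_FF hd hQ1, q20_FF hd' hQ2,
      ← prod_mul_distrib]
    have e3 : ∏ p ∈ Q, φ μ ν p (S.fr _ μ ν) = ∏ p ∈ Q, q20g S T X c (p ∈ d) μ ν p (S.fr _ μ ν) *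
        q20g S T X c' (p ∈ d') μ ν p (S.fr _ μ ν) := by
      refine prod_congr rfl fun p hp => ?_
      have hne : p ≠ p1 := fun h => hp1Q (h ▸ hp)
      rw [hφ]
      exact if_neg hne
    have e4 : φ μ ν p1 (S.fr _ μ ν) = ϑ + ind (M.co T p1 c c' μ ν) := by
      rw [hφ]
      exact if_pos rfl
    rw [e3, e4]
    unfold Msr.m1
    ring
  rw [h3, ← hQ]
  refine hmain.trans (le_of_eq ?_)
  congr 1
  refine sum_congr rfl fun μ _ => sum_congr rfl fun ν _ => ?_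
  rw [h1]
  rfl

end Pool.Agent.Lib.TC
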