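import Pool.Agent.Lib.MP_7b7e48_nt.TC.POK

/-!
# Q07: sums over `n` of functions of `X` modulo `q`

`q` squarefree, all its primes `≤ y0` and dividing `W0` or not dividing `N`. `G : ℤ → ℝ` periodic modulo `q`. `τ = M.tau μ ν` is `1` or a product of marks, coprime to `q` (marks `> y0`).
* `Q07_one`: `ax q 1 = 1`: type 1: `q` classes of density `∏ 1/p = 1/q`; type 2: `φ(q)` classes of density `∏ 1/(p-1)` (`hM.g_small`).
* `Q07_tau`: `∑_{r < q, (t2 → r coprime)} G (v τ r + x0) = ∑_{r < q, (..)} G (v r + x0)`: `r ↦ τ r % q` is a bijection of the range of summation.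
* `Q07a`: `∑_n Om G(X n) = ∑_{r<q} ∑_{n ≡ r} Om G (v τ r + x0)` (`hM.X_eq` on the support, `G` periodic); in type 2 the classes `r` not coprime to `q` are empty (`hM.t2_small`: a prime `≤ y0` dividing `r` and `q`
  would divide `n`); then `hM.eq` for each allowed class.
* `Q07b`: the same with a factor `Ψ n` whose class sums are bounded by `ms gq Θ + ε`.
-/

set_option autoImplicit false

open Finset

namespace Pool.Agent.Lib.TC

variable {S : MS} {T : Dat} {W0 : ℕ} {Z : Fin (S.k + 1) → ℕ} {M : Msr S} {δ0 δ1 : ℝ} {μ : S.TX} {ν : S.TY} {q : ℕ}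


private theorem Q07_card (q : ℕ) : (((range q).filter (fun r => r.Coprime q)).card : ℕ) = q.totient := by
  rw [Nat.totient_eq_card_coprime]
  congr 1
  apply filter_congr
  intro r _
  exact Nat.coprime_comm

private theorem Q07_cop_of (hq2 : ∀ p : ℕ, p.Prime → p ∣ q → p ≤ T.y0 ∧ (p ∣ W0 ∨ ¬ p ∣ T.N)) {l : ℕ} (hl : l.Prime) (h : T.y0 < l) :
    l.Coprime q := by
  rw [Nat.Prime.coprime_iff_not_dvd hl]
  intro hd
  exact absurd (hq2 l hl hd).1 (not_le.2 h)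

private theorem Q07_z (hT : T.OK W0) (hS : S.OK T W0 Z) (i : Fin (S.k + 1)) : T.y0 < Z i := by
  have h1 := hS.Z_lo i
  have h2 := hT.y0_lt
  calc T.y0 < T.z := h2
    _ ≤ T.z ^ 2 := Nat.le_self_pow (by norm_num) _
    _ ≤ Z i := h1

private theorem Q07_copX (hT : T.OK W0) (hS : S.OK T W0 Z) (hμ : μ ∈ S.MX)
    (hq2 : ∀ p : ℕ, p.Prime → p ∣ q → p ≤ T.y0 ∧ (p ∣ W0 ∨ ¬ p ∣ T.N)) : (S.prX id μ).Coprime q := by
  simp only [MS.MX, mem_product, Fintype.mem_piFinset] at hμ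
  obtain ⟨h1, h2, h3⟩ := hμ
  unfold MS.prX
  refine Nat.Coprime.mul_left (Nat.Coprime.mul_left ?_ ?_) ?_
  · apply Nat.Coprime.prod_left
    intro i _
    obtain ⟨a, _, b, _⟩ := hS.WX_mem i _ (h1 i)
    have := Q07_z hT hS i
    exact Q07_cop_of hq2 a (by simp only [id]; omega)
  · apply Nat.Coprime.prod_left
    intro i _
    obtain ⟨a, _, b, _⟩ := hS.FX_mem i _ (h2 i)
    exact Q07_cop_of hq2 a b
  · apply Nat.Coprime.prod_left
    intro i _
    obtain ⟨a, _, b, _⟩ := hS.OX_mem i _ (h3 i)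
    exact Q07_cop_of hq2 a b

private theorem Q07_copY (hT : T.OK W0) (hS : S.OK T W0 Z) (hν : ν ∈ S.MY)
    (hq2 : ∀ p : ℕ, p.Prime → p ∣ q → p ≤ T.y0 ∧ (p ∣ W0 ∨ ¬ p ∣ T.N)) : (S.prY id ν).Coprime q := by
  simp only [MS.MY, mem_product, Fintype.mem_piFinset] at hν
  obtain ⟨h1, h2, h3⟩ := hν
  unfold MS.prY
  refine Nat.Coprime.mul_left (Nat.Coprime.mul_left ?_ ?_) ?_
  · apply Nat.Coprime.prod_left
    intro i _
    obtain ⟨a, _, b, _⟩ := hS.WY_mem i _ (h1 i)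
    have := Q07_z hT hS i
    exact Q07_cop_of hq2 a (by simp only [id]; omega)
  · apply Nat.Coprime.prod_left
    intro i _
    obtain ⟨a, _, b, _⟩ := hS.FY_mem i _ (h2 i)
    exact Q07_cop_of hq2 a b
  · apply Nat.Coprime.prod_left
    intro i _
    obtain ⟨a, _, b, _⟩ := hS.OY_mem i _ (h3 i)
    exact Q07_cop_of hq2 a b

private theorem Q07_ctau (hT : T.OK W0) (hS : S.OK T W0 Z) (hM : M.OK T W0 δ0 δ1) (hμ : μ ∈ S.MX)
    (hq2 : ∀ p : ℕ, p.Prime → p ∣ q → p ≤ T.y0 ∧ (p ∣ W0 ∨ ¬ p ∣ T.N)) : (M.tau μ ν).Coprime q := by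
  rcases hM.tau_cases with h | h
  · rw [h]
    exact Nat.coprime_one_left q
  · rw [h.1]
    exact Q07_copX hT hS hμ hq2

private theorem Q07_tau (hT : T.OK W0) (hS : S.OK T W0 Z) (hM : M.OK T W0 δ0 δ1) (hμ : μ ∈ S.MX)
    (hq1 : Squarefree q) (hq2 : ∀ p : ℕ, p.Prime → p ∣ q → p ≤ T.y0 ∧ (p ∣ W0 ∨ ¬ p ∣ T.N))
    (P : ℕ → Prop) [DecidablePred P] (hP : ∀ r, P r ↔ (M.t2 → r.Coprime q))
    (G : ℤ → ℝ) (hG : ∀ x x' : ℤ, x ≡ x' [ZMOD q] → G x = G x') :
    ∑ r ∈ (range q).filter P, G (M.v * (M.tau μ ν * r : ℕ) + M.x0) = ∑ r ∈ (range q).filter P, G (M.xr r) := by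
  have hq : 0 < q := Nat.pos_of_ne_zero hq1.ne_zero
  have hc : (M.tau μ ν).Coprime q := Q07_ctau (ν := ν) hT hS hM hμ hq2
  set τ := M.tau μ ν with hτ
  have hinj : Set.InjOn (fun r => τ * r % q) ((range q).filter P : Finset ℕ) := by
    intro a ha b hb hab
    simp only [coe_filter, mem_range, Set.mem_ofPred_eq] at ha hb
    have h1 : τ * a ≡ τ * b [MOD q] := hab
    have h2 : a ≡ b [MOD q] := Nat.ModEq.cancel_left_of_coprime (by rw [Nat.gcd_comm]; exact hc) h1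
    exact Nat.ModEq.eq_of_lt_of_lt h2 ha.1 hb.1
  have hmaps : ∀ r ∈ (range q).filter P, τ * r % q ∈ (range q).filter P := by
    intro r hr
    simp only [mem_filter, mem_range] at hr ⊢
    refine ⟨Nat.mod_lt _ hq, ?_⟩
    rw [hP]
    intro ht
    have h1 : r.Coprime q := (hP r).1 hr.2 ht
    have h2 : (τ * r).Coprime q := Nat.Coprime.mul_left hc h1
    unfold Nat.Coprime at h2 ⊢
    rw [← h2]
    exact (Nat.mod_modEq (τ * r) q).gcd_eq
  have himg : ((range q).filter P).image (fun r => τ * r % q) = (range q).filter P := by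
    apply eq_of_subset_of_card_le
    · intro x hx
      obtain ⟨r, hr, rfl⟩ := mem_image.1 hx
      exact hmaps r hr
    · rw [card_image_of_injOn hinj]
  conv_rhs => rw [← himg]
  rw [sum_image hinj]
  apply sum_congr rfl
  intro r _
  apply hG
  unfold Msr.xr
  apply Int.ModEq.add_right
  apply Int.ModEq.mul_left
  rw [Int.natCast_modEq_iff]
  exact (Nat.mod_modEq (τ * r) q).symm

private theorem Q07_split (hM : M.OK T W0 δ0 δ1)
    (hq1 : Squarefree q) (hq2 : ∀ p : ℕ, p.Prime → p ∣ q → p ≤ T.y0 ∧ (p ∣ W0 ∨ ¬ p ∣ T.N))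
    (P : ℕ → Prop) [DecidablePred P] (hP : ∀ r, P r ↔ (M.t2 → r.Coprime q))
    (G : ℤ → ℝ) (hG : ∀ x x' : ℤ, x ≡ x' [ZMOD q] → G x = G x') (Ψ : ℕ → ℝ) :
    ∑ n ∈ range (M.nm + 1), M.Om μ ν n * G (M.X μ ν n) * Ψ n =
      ∑ r ∈ (range q).filter P, G (M.v * (M.tau μ ν * r : ℕ) + M.x0) *
        ∑ n ∈ (range (M.nm + 1)).filter (fun n => n ≡ r [MOD q]), M.Om μ ν n * Ψ n := by
  have hq : 0 < q := Nat.pos_of_ne_zero hq1.ne_zero
  have h1 : ∑ n ∈ range (M.nm + 1), M.Om μ ν n * G (M.X μ ν n) * Ψ n =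
      ∑ r ∈ range q, ∑ n ∈ (range (M.nm + 1)).filter (fun n => n % q = r), M.Om μ ν n * G (M.X μ ν n) * Ψ n := by
    symm
    apply sum_fiberwise_of_maps_to
    intro n _
    exact mem_range.2 (Nat.mod_lt _ hq)
  rw [h1]
  have h2 : ∀ r ∈ range q, ∑ n ∈ (range (M.nm + 1)).filter (fun n => n % q = r), M.Om μ ν n * G (M.X μ ν n) * Ψ n =
      G (M.v * (M.tau μ ν * r : ℕ) + M.x0) *
        ∑ n ∈ (range (M.nm + 1)).filter (fun n => n ≡ r [MOD q]), M.Om μ ν n * Ψ n := by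
    intro r hr
    have hr' : r % q = r := Nat.mod_eq_of_lt (mem_range.1 hr)
    have h3 : (range (M.nm + 1)).filter (fun n => n ≡ r [MOD q]) = (range (M.nm + 1)).filter (fun n => n % q = r) := by
      apply filter_congr
      intro n _
      unfold Nat.ModEq
      rw [hr']
    rw [h3, mul_sum]
    apply sum_congr rfl
    intro n hn
    by_cases hO : M.Om μ ν n = 0
    · rw [hO]
      ring
    · have h4 : G (M.X μ ν n) = G (M.v * (M.tau μ ν * r : ℕ) + M.x0) := by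
        apply hG
        rw [hM.X_eq μ ν n hO]
        apply Int.ModEq.add_right
        rw [mul_assoc]
        apply Int.ModEq.mul_left
        push_cast
        apply Int.ModEq.mul_left
        rw [Int.natCast_modEq_iff]
        have := (mem_filter.1 hn).2
        unfold Nat.ModEq
        rw [this, hr']
      rw [h4]
      ring
  rw [sum_congr rfl h2]
  symm
  apply sum_subset (filter_subset _ _)
  intro r hr hnr
  have h5 : ¬ P r := fun h => hnr (mem_filter.2 ⟨hr, h⟩)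
  rw [hP] at h5
  push Not at h5
  obtain ⟨ht, hcop⟩ := h5
  obtain ⟨p, hp, hpr, hpq⟩ := Nat.Prime.not_coprime_iff_dvd.1 hcop
  have h6 : ∑ n ∈ (range (M.nm + 1)).filter (fun n => n ≡ r [MOD q]), M.Om μ ν n * Ψ n = 0 := by
    apply sum_eq_zero
    intro n hn
    by_cases hO : M.Om μ ν n = 0
    · rw [hO, zero_mul]
    · exfalso
      refine hM.t2_small ht μ ν n hO p hp (hq2 p hp hpq).1 ?_
      have h7 : n ≡ r [MOD p] := Nat.ModEq.of_dvd hpq (mem_filter.1 hn).2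
      exact (h7.dvd_iff (dvd_refl p)).2 hpr
  rw [h6, mul_zero]

private theorem Q07_g (hM : M.OK T W0 δ0 δ1) (hq2 : ∀ p : ℕ, p.Prime → p ∣ q → p ≤ T.y0 ∧ (p ∣ W0 ∨ ¬ p ∣ T.N)) :
    (¬ M.t2 → M.gq q = ∏ p ∈ q.primeFactors, (1 / (p : ℝ))) ∧ (M.t2 → M.gq q = ∏ p ∈ q.primeFactors, (1 / ((p : ℝ) - 1))) := by
  constructor
  · intro h
    unfold Msr.gq
    apply prod_congr rfl
    intro p hp
    have hp1 := Nat.prime_of_mem_primeFactors hp
    exact (hM.g_small p hp1 (hq2 p hp1 (Nat.dvd_of_mem_primeFactors hp)).1).1 h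
  · intro h
    unfold Msr.gq
    apply prod_congr rfl
    intro p hp
    have hp1 := Nat.prime_of_mem_primeFactors hp
    exact (hM.g_small p hp1 (hq2 p hp1 (Nat.dvd_of_mem_primeFactors hp)).1).2 h

private theorem Q07_tot (hq1 : Squarefree q) : (q.totient : ℝ) = ∏ p ∈ q.primeFactors, ((p : ℝ) - 1) := by
  have h := Nat.totient_eq_mul_prod_factors q
  have h2 : (q.totient : ℝ) = (q : ℝ) * ∏ p ∈ q.primeFactors, (1 - ((p : ℝ))⁻¹) := by
    have := congrArg (fun x : ℚ => (x : ℝ)) h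
    push_cast at this
    exact this
  have h3 : (q : ℝ) = ∏ p ∈ q.primeFactors, (p : ℝ) := by
    conv_lhs => rw [← Nat.prod_primeFactors_of_squarefree hq1]
    push_cast
    rfl
  rw [h2, h3, ← h3]
  conv_lhs => rw [h3]
  rw [← prod_mul_distrib]
  apply prod_congr rfl
  intro p hp
  have : (p : ℝ) ≠ 0 := by
    have := (Nat.prime_of_mem_primeFactors hp).pos
    positivity
  field_simp

theorem Q07_one (hM : M.OK T W0 δ0 δ1) (hq1 : Squarefree q) (hq2 : ∀ p : ℕ, p.Prime → p ∣ q → p ≤ T.y0 ∧ (p ∣ W0 ∨ ¬ p ∣ T.N)) :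
    M.ax q (fun _ => 1) = 1 := by
  classical
  have hq : 0 < q := Nat.pos_of_ne_zero hq1.ne_zero
  have hg := Q07_g hM hq2
  unfold Msr.ax
  by_cases ht : M.t2
  · have h1 : (range q).filter (fun r => M.t2 → r.Coprime q) = (range q).filter (fun r => r.Coprime q) := by
      apply filter_congr
      intro r _
      simp [ht]
    have h2 : ∑ r ∈ (range q).filter (fun r => M.t2 → r.Coprime q), M.gq q * (fun _ => (1 : ℝ)) (M.xr r) = (q.totient : ℝ) * M.gq q := by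
      rw [h1]
      simp only [mul_one, sum_const, nsmul_eq_mul]
      rw [Q07_card]
    refine Eq.trans ?_ (h2.trans ?_)
    · apply sum_congr
      · ext r
        simp
      · intro r _
        rfl
    · rw [hg.2 ht, Q07_tot hq1, ← prod_mul_distrib]
      apply prod_eq_one
      intro p hp
      have h3 : (2 : ℝ) ≤ (p : ℝ) := by exact_mod_cast (Nat.prime_of_mem_primeFactors hp).two_le
      have h4 : (p : ℝ) - 1 ≠ 0 := by linarith
      field_simp
  · have h1 : (range q).filter (fun r => M.t2 → r.Coprime q) = range q := by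
      apply filter_true_of_mem
      intro r _ h
      exact absurd h ht
    have h2 : ∑ r ∈ (range q).filter (fun r => M.t2 → r.Coprime q), M.gq q * (fun _ => (1 : ℝ)) (M.xr r) = (q : ℝ) * M.gq q := by
      rw [h1]
      simp only [mul_one, sum_const, nsmul_eq_mul, card_range]
    refine Eq.trans ?_ (h2.trans ?_)
    · apply sum_congr
      · ext r
        simp
      · intro r _
        rfl
    · rw [hg.1 ht]
      have h3 : (q : ℝ) = ∏ p ∈ q.primeFactors, (p : ℝ) := by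
        conv_lhs => rw [← Nat.prod_primeFactors_of_squarefree hq1]
        push_cast
        rfl
      rw [h3, ← h3]
      conv_lhs => rw [h3]
      rw [← prod_mul_distrib]
      apply prod_eq_one
      intro p hp
      have : (p : ℝ) ≠ 0 := by
        have := (Nat.prime_of_mem_primeFactors hp).pos
        positivity
      field_simp

theorem Q07_nonneg (hM : M.OK T W0 δ0 δ1) (hq1 : Squarefree q) (hq2 : ∀ p : ℕ, p.Prime → p ∣ q → p ≤ T.y0 ∧ (p ∣ W0 ∨ ¬ p ∣ T.N)) :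
    0 ≤ M.gq q := by
  have hg := Q07_g hM hq2
  by_cases ht : M.t2
  · rw [hg.2 ht]
    apply prod_nonneg
    intro p hp
    have h3 : (2 : ℝ) ≤ (p : ℝ) := by exact_mod_cast (Nat.prime_of_mem_primeFactors hp).two_le
    apply div_nonneg zero_le_one
    linarith
  · rw [hg.1 ht]
    apply prod_nonneg
    intro p hp
    positivity

theorem Q07a (hT : T.OK W0) (hS : S.OK T W0 Z) (hM : M.OK T W0 δ0 δ1) (hμ : μ ∈ S.MX) (hν : ν ∈ S.MY) (hadm : M.adm μ ν)
    (hq1 : Squarefree q) (hq2 : ∀ p : ℕ, p.Prime → p ∣ q → p ≤ T.y0 ∧ (p ∣ W0 ∨ ¬ p ∣ T.N)) (hq3 : (q : ℝ) ≤ (T.N : ℝ) ^ δ0)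
    (G : ℤ → ℝ) (hG : ∀ x x' : ℤ, x ≡ x' [ZMOD q] → G x = G x') (C : ℝ) (hC : ∀ x, |G x| ≤ C) :
    |∑ n ∈ range (M.nm + 1), M.Om μ ν n * G (M.X μ ν n) - M.ms μ ν * M.ax q G| ≤ (T.N : ℝ) ^ (-δ1) * M.W * q * C := by
  classical
  have hq : 0 < q := Nat.pos_of_ne_zero hq1.ne_zero
  have hcop : q.Coprime (S.prX id μ * S.prY id ν) :=
    Nat.Coprime.mul_right (Q07_copX hT hS hμ hq2).symm (Q07_copY hT hS hν hq2).symm
  have hC0 : 0 ≤ C := le_trans (abs_nonneg _) (hC 0)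
  have hE0 : 0 ≤ (T.N : ℝ) ^ (-δ1) * M.W := mul_nonneg (Real.rpow_nonneg (Nat.cast_nonneg _) _) hM.W_pos.le
  have h1 := Q07_split (μ := μ) (ν := ν) hM hq1 hq2 (fun r => M.t2 → r.Coprime q) (fun r => Iff.rfl) G hG (fun _ => 1)
  simp only [mul_one] at h1
  have h2 := Q07_tau (ν := ν) hT hS hM hμ hq1 hq2 (fun r => M.t2 → r.Coprime q) (fun r => Iff.rfl) G hG
  have h3 : M.ax q G = M.gq q * ∑ r ∈ (range q).filter (fun r => M.t2 → r.Coprime q), G (M.xr r) := by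
    unfold Msr.ax
    rw [mul_sum]
  rw [h1, h3, ← h2, mul_sum, mul_sum, ← sum_sub_distrib]
  refine le_trans (abs_sum_le_sum_abs _ _) ?_
  have h4 : ∀ r ∈ (range q).filter (fun r => M.t2 → r.Coprime q),
      |G (M.v * (M.tau μ ν * r : ℕ) + M.x0) * ∑ n ∈ (range (M.nm + 1)).filter (fun n => n ≡ r [MOD q]), M.Om μ ν n -
        M.ms μ ν * (M.gq q * G (M.v * (M.tau μ ν * r : ℕ) + M.x0))| ≤ C * ((T.N : ℝ) ^ (-δ1) * M.W) := by
    intro r hr
    have h5 := hM.eq μ hμ ν hν hadm q hq1 hq3 hcop (fun p hp hpq => (hq2 p hp hpq).2) r (mem_filter.1 hr).2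
    unfold Msr.cl at h5
    have h6 : G (M.v * (M.tau μ ν * r : ℕ) + M.x0) * ∑ n ∈ (range (M.nm + 1)).filter (fun n => n ≡ r [MOD q]), M.Om μ ν n -
        M.ms μ ν * (M.gq q * G (M.v * (M.tau μ ν * r : ℕ) + M.x0)) =
      G (M.v * (M.tau μ ν * r : ℕ) + M.x0) * (∑ n ∈ (range (M.nm + 1)).filter (fun n => n ≡ r [MOD q]), M.Om μ ν n -
        M.ms μ ν * M.gq q) := by ring
    rw [h6, abs_mul]
    exact mul_le_mul (hC _) h5 (abs_nonneg _) hC0
  refine le_trans (sum_le_sum h4) ?_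
  rw [sum_const, nsmul_eq_mul]
  have h7 : ((((range q).filter (fun r => M.t2 → r.Coprime q)).card : ℕ) : ℝ) ≤ q := by
    have := card_filter_le (range q) (fun r => M.t2 → r.Coprime q)
    rw [card_range] at this
    exact_mod_cast this
  calc _ ≤ (q : ℝ) * (C * ((T.N : ℝ) ^ (-δ1) * M.W)) := mul_le_mul_of_nonneg_right h7 (mul_nonneg hC0 hE0)
    _ = _ := by ring

theorem Q07b (hT : T.OK W0) (hS : S.OK T W0 Z) (hM : M.OK T W0 δ0 δ1) (hμ : μ ∈ S.MX) (hν : ν ∈ S.MY)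
    (hq1 : Squarefree q) (hq2 : ∀ p : ℕ, p.Prime → p ∣ q → p ≤ T.y0 ∧ (p ∣ W0 ∨ ¬ p ∣ T.N))
    (G : ℤ → ℝ) (hG : ∀ x x' : ℤ, x ≡ x' [ZMOD q] → G x = G x') (hG0 : ∀ x, 0 ≤ G x) (C : ℝ) (hC : ∀ x, G x ≤ C) (Ψ : ℕ → ℝ) (Θ ε : ℝ)
    (hε : 0 ≤ ε) (hΨ : ∀ r : ℕ, (M.t2 → r.Coprime q) →
      |∑ n ∈ (range (M.nm + 1)).filter (fun n => n ≡ r [MOD q]), M.Om μ ν n * Ψ n| ≤ M.ms μ ν * M.gq q * Θ + ε) :
    |∑ n ∈ range (M.nm + 1), M.Om μ ν n * G (M.X μ ν n) * Ψ n| ≤ Θ * M.ms μ ν * M.ax q G + q * C * ε := by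
  classical
  have hq : 0 < q := Nat.pos_of_ne_zero hq1.ne_zero
  have hC0 : 0 ≤ C := le_trans (hG0 0) (hC 0)
  have h1 := Q07_split (μ := μ) (ν := ν) hM hq1 hq2 (fun r => M.t2 → r.Coprime q) (fun r => Iff.rfl) G hG Ψ
  have h2 := Q07_tau (ν := ν) hT hS hM hμ hq1 hq2 (fun r => M.t2 → r.Coprime q) (fun r => Iff.rfl) G hG
  have h3 : M.ax q G = M.gq q * ∑ r ∈ (range q).filter (fun r => M.t2 → r.Coprime q), G (M.xr r) := by
    unfold Msr.ax
    rw [mul_sum]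
  rw [h1, h3, ← h2]
  refine le_trans (abs_sum_le_sum_abs _ _) ?_
  have h4 : ∀ r ∈ (range q).filter (fun r => M.t2 → r.Coprime q),
      |G (M.v * (M.tau μ ν * r : ℕ) + M.x0) * ∑ n ∈ (range (M.nm + 1)).filter (fun n => n ≡ r [MOD q]), M.Om μ ν n * Ψ n| ≤
        Θ * M.ms μ ν * (M.gq q * G (M.v * (M.tau μ ν * r : ℕ) + M.x0)) + C * ε := by
    intro r hr
    have h5 := hΨ r (mem_filter.1 hr).2
    rw [abs_mul, abs_of_nonneg (hG0 _)]
    calc _ ≤ G (M.v * (M.tau μ ν * r : ℕ) + M.x0) * (M.ms μ ν * M.gq q * Θ + ε) := mul_le_mul_of_nonneg_left h5 (hG0 _)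
      _ = Θ * M.ms μ ν * (M.gq q * G (M.v * (M.tau μ ν * r : ℕ) + M.x0)) + G (M.v * (M.tau μ ν * r : ℕ) + M.x0) * ε := by ring
      _ ≤ _ := by
        have := mul_le_mul_of_nonneg_right (hC (M.v * (M.tau μ ν * r : ℕ) + M.x0)) hε
        linarith
  refine le_trans (sum_le_sum h4) ?_
  rw [sum_add_distrib, sum_const, nsmul_eq_mul, ← mul_sum, ← mul_sum]
  have h7 : ((((range q).filter (fun r => M.t2 → r.Coprime q)).card : ℕ) : ℝ) ≤ q := by
    have := card_filter_le (range q) (fun r => M.t2 → r.Coprime q)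
    rw [card_range] at this
    exact_mod_cast this
  have h8 := mul_le_mul_of_nonneg_right h7 (mul_nonneg hC0 hε)
  linarith

end Pool.Agent.Lib.TC
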