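import Pool.Agent.Lib.MP_7b7e48_nt.TC.Q07
import Pool.Agent.Lib.MP_7b7e48_nt.TC.Q17

/-!
# QAx: the averages `ax` with respect to different moduli (auxiliary module for Q21, Q22)

`ax q G` is the average over the classes modulo `q`; for a function which is periodic modulo `q` it does not change when `q` is replaced by a multiple.
-/

set_option autoImplicit false

open Finset

namespace Pool.Agent.Lib.TC

variable {S : MS} {T : Dat} {W0 : ℕ} {Z : Fin (S.k + 1) → ℕ} {M : Msr S} {δ0 δ1 : ℝ} {q Q : ℕ}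

open Classical in
theorem QAx_eq (q : ℕ) (G : ℤ → ℝ) :
    M.ax q G = M.gq q * ∑ r ∈ (range q).filter (fun r => M.t2 → r.Coprime q), G (M.xr r) := by
  unfold Msr.ax
  rw [mul_sum]

theorem QAx_sum {ι : Type*} (s : Finset ι) (q : ℕ) (G : ι → ℤ → ℝ) :
    M.ax q (fun x => ∑ i ∈ s, G i x) = ∑ i ∈ s, M.ax q (G i) := by
  classical
  simp only [QAx_eq]
  rw [sum_comm, mul_sum]

theorem QAx_mul (q : ℕ) (a : ℝ) (G : ℤ → ℝ) : M.ax q (fun x => a * G x) = a * M.ax q G := by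
  classical
  simp only [QAx_eq]
  rw [← mul_sum]
  ring

theorem QAx_mono (hq : 0 ≤ M.gq q) {G G' : ℤ → ℝ} (h : ∀ x, G x ≤ G' x) : M.ax q G ≤ M.ax q G' := by
  classical
  simp only [QAx_eq]
  exact mul_le_mul_of_nonneg_left (sum_le_sum fun r _ => h _) hq

theorem QAx_le (hM : M.OK T W0 δ0 δ1) (hq1 : Squarefree q) (hq2 : ∀ p : ℕ, p.Prime → p ∣ q → p ≤ T.y0 ∧ (p ∣ W0 ∨ ¬ p ∣ T.N))
    {G : ℤ → ℝ} {C : ℝ} (h : ∀ x, G x ≤ C) : M.ax q G ≤ C := by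
  have h1 : M.ax q G ≤ M.ax q (fun _ => C * 1) := QAx_mono (Q07_nonneg hM hq1 hq2) fun x => by rw [mul_one]; exact h x
  rw [QAx_mul q C (fun _ => 1), Q07_one hM hq1 hq2, mul_one] at h1
  exact h1

theorem QAx_abs (hq : 0 ≤ M.gq q) {G G' : ℤ → ℝ} (h : ∀ x, |G x| ≤ G' x) : |M.ax q G| ≤ M.ax q G' := by
  classical
  simp only [QAx_eq]
  rw [abs_mul, abs_of_nonneg hq]
  refine mul_le_mul_of_nonneg_left ?_ hq
  exact (abs_sum_le_sum_abs _ _).trans (sum_le_sum fun r _ => h _)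

theorem QAx_ext (hM : M.OK T W0 δ0 δ1) (hQ1 : Squarefree Q) (hQ2 : ∀ p : ℕ, p.Prime → p ∣ Q → p ≤ T.y0 ∧ (p ∣ W0 ∨ ¬ p ∣ T.N))
    (hqQ : q ∣ Q) (G : ℤ → ℝ) (hG : ∀ x x' : ℤ, x ≡ x' [ZMOD q] → G x = G x') : M.ax q G = M.ax Q G := by
  classical
  obtain ⟨q', rfl⟩ := hqQ
  have hco : q.Coprime q' := Nat.coprime_of_squarefree_mul hQ1
  have hq1 : Squarefree q := hQ1.of_mul_left
  have hq1' : Squarefree q' := hQ1.of_mul_right
  have hq : q ≠ 0 := hq1.ne_zero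
  have hq' : q' ≠ 0 := hq1'.ne_zero
  have hgq : M.gq (q * q') = M.gq q * M.gq q' := by
    unfold Msr.gq
    rw [hco.primeFactors_mul, prod_union hco.disjoint_primeFactors]
  have h1 : M.ax q' (fun _ => 1) = 1 := Q07_one hM hq1' (fun p hp hpq => hQ2 p hp (hpq.mul_left q))
  rw [QAx_eq, QAx_eq, hgq]
  rw [QAx_eq] at h1
  have hgcd : ∀ {a b m : ℕ}, a ≡ b [MOD m] → (a.Coprime m ↔ b.Coprime m) := by
    intro a b m h
    rw [Nat.coprime_iff_gcd_eq_one, Nat.coprime_iff_gcd_eq_one, h.gcd_eq]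
  have h2 : ∑ r ∈ (range (q * q')).filter (fun r => M.t2 → r.Coprime (q * q')), G (M.xr r) =
      ∑ z ∈ ((range q).filter (fun r => M.t2 → r.Coprime q)) ×ˢ ((range q').filter (fun r => M.t2 → r.Coprime q')),
        G (M.xr z.1) := by
    refine sum_nbij' (fun r => (r % q, r % q')) (fun z => (Nat.chineseRemainder hco z.1 z.2 : ℕ)) ?_ ?_ ?_ ?_ ?_
    · intro r hr
      obtain ⟨hr1, hr2⟩ := mem_filter.1 hr
      rw [mem_product, mem_filter, mem_filter, mem_range, mem_range]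
      refine ⟨⟨Nat.mod_lt _ (Nat.pos_of_ne_zero hq), fun ht => ?_⟩, ⟨Nat.mod_lt _ (Nat.pos_of_ne_zero hq'), fun ht => ?_⟩⟩
      · exact (hgcd (Nat.mod_modEq r q)).2 (Nat.Coprime.coprime_mul_right_right (hr2 ht))
      · exact (hgcd (Nat.mod_modEq r q')).2 (Nat.Coprime.coprime_mul_left_right (hr2 ht))
    · rintro ⟨a, b⟩ hz
      rw [mem_product, mem_filter, mem_filter] at hz
      obtain ⟨⟨ha1, ha2⟩, hb1, hb2⟩ := hz
      rw [mem_filter, mem_range]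
      refine ⟨Nat.chineseRemainder_lt_mul hco a b hq hq', fun ht => ?_⟩
      have hk := (Nat.chineseRemainder hco a b).2
      exact Nat.Coprime.mul_right ((hgcd hk.1).2 (ha2 ht)) ((hgcd hk.2).2 (hb2 ht))
    · intro r hr
      have hr1 := mem_range.1 (mem_filter.1 hr).1
      have hk := (Nat.chineseRemainder hco (r % q) (r % q')).2
      have h3 : (Nat.chineseRemainder hco (r % q) (r % q') : ℕ) ≡ r [MOD q * q'] :=
        (Nat.modEq_and_modEq_iff_modEq_mul hco).1 ⟨hk.1.trans (Nat.mod_modEq r q), hk.2.trans (Nat.mod_modEq r q')⟩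
      exact Nat.ModEq.eq_of_lt_of_lt h3 (Nat.chineseRemainder_lt_mul hco _ _ hq hq') hr1
    · rintro ⟨a, b⟩ hz
      rw [mem_product, mem_filter, mem_filter, mem_range, mem_range] at hz
      obtain ⟨⟨ha1, -⟩, hb1, -⟩ := hz
      have hk := (Nat.chineseRemainder hco a b).2
      have h3 : (Nat.chineseRemainder hco a b : ℕ) % q = a % q := hk.1
      have h4 : (Nat.chineseRemainder hco a b : ℕ) % q' = b % q' := hk.2
      rw [Nat.mod_eq_of_lt ha1] at h3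
      rw [Nat.mod_eq_of_lt hb1] at h4
      show ((Nat.chineseRemainder hco a b : ℕ) % q, (Nat.chineseRemainder hco a b : ℕ) % q') = (a, b)
      rw [h3, h4]
    · intro r _
      apply hG
      unfold Msr.xr
      apply Int.ModEq.add_right
      apply Int.ModEq.mul_left
      rw [Int.natCast_modEq_iff]
      exact (Nat.mod_modEq r q).symm
  rw [h2, sum_product]
  have h3 : ∀ a ∈ (range q).filter (fun r => M.t2 → r.Coprime q),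
      ∑ b ∈ (range q').filter (fun r => M.t2 → r.Coprime q'), G (M.xr (a, b).1) =
        (∑ b ∈ (range q').filter (fun r => M.t2 → r.Coprime q'), (1 : ℝ)) * G (M.xr a) := by
    intro a _
    rw [sum_mul]
    exact sum_congr rfl fun b _ => by rw [one_mul]
  rw [sum_congr rfl h3, ← mul_sum]
  calc M.gq q * ∑ r ∈ (range q).filter (fun r => M.t2 → r.Coprime q), G (M.xr r) =
      (M.gq q' * ∑ b ∈ (range q').filter (fun r => M.t2 → r.Coprime q'), (1 : ℝ)) *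
        (M.gq q * ∑ r ∈ (range q).filter (fun r => M.t2 → r.Coprime q), G (M.xr r)) := by rw [h1, one_mul]
    _ = _ := by ring

/-- a sum of averages with respect to different moduli -/
theorem QAx_sumle (hM : M.OK T W0 δ0 δ1) (hQ1 : Squarefree Q) (hQ2 : ∀ p : ℕ, p.Prime → p ∣ Q → p ≤ T.y0 ∧ (p ∣ W0 ∨ ¬ p ∣ T.N))
    {ι : Type*} (s : Finset ι) (q : ι → ℕ) (hq : ∀ i ∈ s, q i ∣ Q) (K : ι → ℤ → ℝ)
    (hK : ∀ i ∈ s, ∀ x x' : ℤ, x ≡ x' [ZMOD q i] → K i x = K i x') {B : ℝ} (hB : ∀ x, ∑ i ∈ s, K i x ≤ B) :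
    ∑ i ∈ s, M.ax (q i) (K i) ≤ B := by
  have h1 : ∑ i ∈ s, M.ax (q i) (K i) = M.ax Q (fun x => ∑ i ∈ s, K i x) := by
    rw [QAx_sum]
    exact sum_congr rfl fun i hi => QAx_ext hM hQ1 hQ2 (hq i hi) (K i) (hK i hi)
  rw [h1]
  exact QAx_le hM hQ1 hQ2 hB

theorem QAx_qd_dvd {d d' : Finset ℕ} (h : d ⊆ d') : T.qd W0 d ∣ T.qd W0 d' := by
  unfold Dat.qd
  exact Nat.mul_dvd_mul_left _ (prod_dvd_prod_of_subset _ _ _ (filter_subset_filter _ h))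

theorem QAx_W0_dvd (d : Finset ℕ) : W0 ∣ T.qd W0 d := Dvd.intro _ rfl

theorem QAx_cop {d : Finset ℕ} {x x' : ℤ} (h : x ≡ x' [ZMOD T.qd W0 d]) : IsCoprime x (W0 : ℤ) ↔ IsCoprime x' (W0 : ℤ) := by
  have h1 : x ≡ x' [ZMOD (W0 : ℤ)] := h.of_dvd (Int.natCast_dvd_natCast.2 (QAx_W0_dvd d))
  obtain ⟨t, ht⟩ := h1.dvd
  have h2 : x' = x + (W0 : ℤ) * t := by linarith
  rw [h2]
  exact IsCoprime.add_mul_left_left_iff.symm

/-- the product of the primes of two sets of the small sieve -/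
theorem QAx_DS (hT : T.OK W0) {b1 : ℕ} {d d' : Finset ℕ} (hd : d ∈ T.DS b1) (hd' : d' ∈ T.DS b1) :
    (T.qd W0 (d ∪ d') : ℝ) ≤ (W0 : ℝ) * (T.y0 : ℝ) ^ (24 * b1) := by
  classical
  unfold Dat.DS at hd hd'
  rw [mem_filter, mem_powerset] at hd hd'
  have h1 := (Q17_qd hT (union_subset hd.1 hd'.1)).2.2.1
  have h2 : ∏ p ∈ d ∪ d', p ≤ (∏ p ∈ d, p) * ∏ p ∈ d', p := by
    rw [← prod_union_inter]
    refine Nat.le_mul_of_pos_right _ (prod_pos fun p hp => ?_)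
    have h3 := hd.1 (mem_inter.1 hp).1
    unfold Dat.PS at h3
    exact (mem_filter.1 h3).2.1.pos
  have h4 : T.qd W0 (d ∪ d') ≤ W0 * (T.y0 ^ (12 * b1) * T.y0 ^ (12 * b1)) :=
    h1.trans (Nat.mul_le_mul_left _ (h2.trans (Nat.mul_le_mul hd.2 hd'.2)))
  have h5 : T.y0 ^ (12 * b1) * T.y0 ^ (12 * b1) = T.y0 ^ (24 * b1) := by
    rw [← pow_add]
    congr 1
    ring
  rw [h5] at h4
  exact_mod_cast h4

/-! ### signs and sizes -/

theorem QAx_memX (hS : S.OK T W0 Z) {μ : S.TX} (hμ : μ ∈ S.MX) :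
    (∀ i, (μ.1 i).Prime) ∧ (∀ f, (μ.2.1 f).Prime) ∧ ∀ e, (μ.2.2 e).Prime := by
  unfold MS.MX at hμ
  rw [mem_product, mem_product, Fintype.mem_piFinset, Fintype.mem_piFinset, Fintype.mem_piFinset] at hμ
  exact ⟨fun i => (hS.WX_mem i _ (hμ.1 i)).1, fun f => (hS.FX_mem f _ (hμ.2.1 f)).1, fun e => (hS.OX_mem e _ (hμ.2.2 e)).1⟩

theorem QAx_memY (hS : S.OK T W0 Z) {ν : S.TY} (hν : ν ∈ S.MY) :
    (∀ i, (ν.1 i).Prime) ∧ (∀ f, (ν.2.1 f).Prime) ∧ ∀ e, (ν.2.2 e).Prime := by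
  unfold MS.MY at hν
  rw [mem_product, mem_product, Fintype.mem_piFinset, Fintype.mem_piFinset, Fintype.mem_piFinset] at hν
  exact ⟨fun i => (hS.WY_mem i _ (hν.1 i)).1, fun f => (hS.FY_mem f _ (hν.2.1 f)).1, fun e => (hS.OY_mem e _ (hν.2.2 e)).1⟩

theorem QAx_m1 (hS : S.OK T W0 Z) (hM : M.OK T W0 δ0 δ1) {μ : S.TX} {ν : S.TY} (hμ : μ ∈ S.MX) (hν : ν ∈ S.MY) : 0 ≤ M.m1 μ ν := by
  obtain ⟨a1, a2, a3⟩ := QAx_memX hS hμ
  obtain ⟨b1, b2, b3⟩ := QAx_memY hS hν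
  unfold Msr.m1 MS.prX MS.prY
  refine mul_nonneg (mul_nonneg (mul_nonneg ?_ ?_) ?_) (mul_nonneg (mul_nonneg ?_ ?_) ?_)
  · exact prod_nonneg fun i _ => (hM.hX_nonneg _ (a1 i)).1
  · exact prod_nonneg fun i _ => (hM.hX_nonneg _ (a2 i)).1
  · exact prod_nonneg fun i _ => (hM.hX_nonneg _ (a3 i)).1
  · exact prod_nonneg fun i _ => (hM.hY_nonneg _ (b1 i)).1
  · exact prod_nonneg fun i _ => (hM.hY_nonneg _ (b2 i)).1
  · exact prod_nonneg fun i _ => (hM.hY_nonneg _ (b3 i)).1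

theorem QAx_FF (c : S.Col) (μ : S.TX) (ν : S.TY) (x : ℤ) (d : Finset ℕ) : 0 ≤ S.FF T c μ ν x d ∧ S.FF T c μ ν x d ≤ 1 := by
  unfold MS.FF
  exact ⟨ind_nonneg _, ind_le_one _⟩

theorem QAx_lav {k p yn : ℕ} {B : Prop} {al be : ℕ → HP T.D p} : 0 ≤ lav T k p yn B al be ∧ lav T k p yn B al be ≤ 1 := by
  unfold lav
  refine ⟨av_nonneg fun _ => ind_nonneg _, ?_⟩
  refine (av_mono fun _ => ind_le_one _).trans ?_
  rw [av_const]

theorem QAx_Pb (μ : S.TX) (ν : S.TY) (x : ℤ) (d : Finset ℕ) : 0 ≤ S.Pb T μ ν x d ∧ S.Pb T μ ν x d ≤ 1 := by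
  unfold MS.Pb
  exact ⟨prod_nonneg fun _ _ => QAx_lav.1, prod_le_one (fun _ _ => QAx_lav.1) fun _ _ => QAx_lav.2⟩

theorem QAx_lco (p1 : ℕ) (c c' : S.Col) (μ : S.TX) (ν : S.TY) : 0 ≤ M.lco T p1 c c' μ ν ∧ M.lco T p1 c c' μ ν ≤ 1 := by
  unfold Msr.lco
  refine ⟨av_nonneg fun _ => ind_nonneg _, ?_⟩
  refine (av_mono fun _ => ind_le_one _).trans ?_
  rw [av_const]

theorem QAx_prod_abs {a b a' b' : ℝ} (ha : 0 ≤ a ∧ a ≤ 1) (hb : 0 ≤ b ∧ b ≤ 1) (ha' : 0 ≤ a' ∧ a' ≤ 1) (hb' : 0 ≤ b' ∧ b' ≤ 1) :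
    |(a - b) * (a' - b')| ≤ 1 := by
  rw [abs_mul]
  have h1 : |a - b| ≤ 1 := abs_le.2 ⟨by linarith [ha.1, hb.2], by linarith [ha.2, hb.1]⟩
  have h2 : |a' - b'| ≤ 1 := abs_le.2 ⟨by linarith [ha'.1, hb'.2], by linarith [ha'.2, hb'.1]⟩
  calc |a - b| * |a' - b'| ≤ 1 * 1 := mul_le_mul h1 h2 (abs_nonneg _) zero_le_one
    _ = 1 := one_mul 1

theorem QAx_bad {μ μ' : S.TX} {ν ν' : S.TY} (h : μ.1 = μ'.1) (h' : ν.1 = ν'.1) (a b : ℕ) :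
    S.badpair T a b μ ν ↔ S.badpair T a b μ' ν' := by
  unfold MS.badpair
  rw [h, h']

theorem QAx_Kbad (μ μ' : S.TX) (ν ν' : S.TY) (h : S.sX T.N μ μ') (h' : S.sY T.N ν ν') :
    (¬ S.badpair T 0 T.y0 μ ν) ↔ ¬ S.badpair T 0 T.y0 μ' ν' :=
  not_congr (QAx_bad h.1 h'.1 0 T.y0)

theorem QAx_Kadm (μ μ' : S.TX) (ν ν' : S.TY) (h : S.sX T.N μ μ') (h' : S.sY T.N ν ν') :
    (M.adm0 μ ν ∧ ¬ S.badpair T 0 T.y0 μ ν) ↔ (M.adm0 μ' ν' ∧ ¬ S.badpair T 0 T.y0 μ' ν') := by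
  refine and_congr ?_ (QAx_Kbad μ μ' ν ν' h h')
  unfold Msr.adm0
  rw [h.1, h.2.2, h'.1, h'.2.2]

theorem QAx_adm {μ : S.TX} {ν : S.TY} (h : M.adm μ ν) : M.adm0 μ ν := by
  have h1 : ((∏ i, μ.1 i) * ∏ e, μ.2.2 e) ∣ S.prX id μ := by
    unfold MS.prX
    exact Nat.mul_dvd_mul (Dvd.intro _ rfl) (dvd_refl _)
  have h2 : ((∏ i, ν.1 i) * ∏ e, ν.2.2 e) ∣ S.prY id ν := by
    unfold MS.prY
    exact Nat.mul_dvd_mul (Dvd.intro _ rfl) (dvd_refl _)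
  exact ⟨Nat.Coprime.coprime_dvd_left (Nat.mul_dvd_mul h1 h2) h.1,
    Nat.Coprime.coprime_dvd_left h1 (Nat.Coprime.coprime_dvd_right h2 h.2)⟩

/-- replacing the sums over `n` by averages -/
theorem QAx_first (hT : T.OK W0) (hS : S.OK T W0 Z) (hM : M.OK T W0 δ0 δ1) (hq1 : Squarefree q)
    (hq2 : ∀ p : ℕ, p.Prime → p ∣ q → p ≤ T.y0 ∧ (p ∣ W0 ∨ ¬ p ∣ T.N)) (hq3 : (q : ℝ) ≤ (T.N : ℝ) ^ δ0)
    (G : S.TX → S.TY → ℤ → ℝ) (hG : ∀ μ ν, ∀ x x' : ℤ, x ≡ x' [ZMOD q] → G μ ν x = G μ ν x') (hG1 : ∀ μ ν x, |G μ ν x| ≤ 1) :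
    |∑ μ ∈ S.MX, ∑ ν ∈ S.MY, ind (M.gp T μ ν) * ∑ n ∈ range (M.nm + 1), M.Om μ ν n * G μ ν (M.X μ ν n) -
      M.W * M.ax q (fun x => ∑ μ ∈ S.MX, ∑ ν ∈ S.MY, M.m1 μ ν * (ind (M.gp T μ ν) * G μ ν x))| ≤
      (S.MX.card : ℝ) * S.MY.card * ((T.N : ℝ) ^ (-δ1) * M.W * q) := by
  have h1 : M.W * M.ax q (fun x => ∑ μ ∈ S.MX, ∑ ν ∈ S.MY, M.m1 μ ν * (ind (M.gp T μ ν) * G μ ν x)) =
      ∑ μ ∈ S.MX, ∑ ν ∈ S.MY, ind (M.gp T μ ν) * (M.ms μ ν * M.ax q (G μ ν)) := by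
    rw [QAx_sum, mul_sum]
    refine sum_congr rfl fun μ _ => ?_
    rw [QAx_sum, mul_sum]
    refine sum_congr rfl fun ν _ => ?_
    have h2 : M.ax q (fun x => M.m1 μ ν * (ind (M.gp T μ ν) * G μ ν x)) =
        M.ax q (fun x => (M.m1 μ ν * ind (M.gp T μ ν)) * G μ ν x) := by
      congr 1
      funext x
      ring
    rw [h2, QAx_mul]
    unfold Msr.ms
    ring
  rw [h1, ← sum_sub_distrib]
  have hE : 0 ≤ (T.N : ℝ) ^ (-δ1) * M.W * q := mul_nonneg (mul_nonneg (Real.rpow_nonneg (Nat.cast_nonneg _) _) hM.W_pos.le) (Nat.cast_nonneg _)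
  have h3 : ∀ μ ∈ S.MX, |∑ ν ∈ S.MY, ind (M.gp T μ ν) * ∑ n ∈ range (M.nm + 1), M.Om μ ν n * G μ ν (M.X μ ν n) -
      ∑ ν ∈ S.MY, ind (M.gp T μ ν) * (M.ms μ ν * M.ax q (G μ ν))| ≤ S.MY.card * ((T.N : ℝ) ^ (-δ1) * M.W * q) := by
    intro μ hμ
    rw [← sum_sub_distrib]
    refine (abs_sum_le_sum_abs _ _).trans ?_
    rw [← nsmul_eq_mul]
    refine sum_le_card_nsmul _ _ _ fun ν hν => ?_
    by_cases h4 : M.gp T μ ν
    · rw [ind_true h4, one_mul, one_mul]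
      have h5 := Q07a hT hS hM hμ hν h4.1 hq1 hq2 hq3 (G μ ν) (hG μ ν) 1 (hG1 μ ν)
      rw [mul_one] at h5
      exact h5
    · rw [ind_false h4, zero_mul, zero_mul, sub_zero, abs_zero]
      exact hE
  refine (abs_sum_le_sum_abs _ _).trans ?_
  rw [mul_assoc, ← nsmul_eq_mul]
  exact sum_le_card_nsmul _ _ _ h3

end Pool.Agent.Lib.TC
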