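import Pool.Agent.Lib.MP_7b7e48_nt.TC.Cyc
import Pool.Agent.Lib.MP_7b7e48_nt.TC.Loc

/-!
# U01: the identities of a cycle over a commutative ring
-/

set_option autoImplicit false

open Finset
open Pool.Agent.Lib.TC.Loc

namespace Pool.Agent.Lib.TC

private theorem U01_P {R : Type*} [CommRing R] {m : ℕ} (a b ca cb x : ℕ → Rˣ)
    (hx : ∀ i < m - 1, x i = a (i + 1) * ca i * (b i)⁻¹ * (cb i)⁻¹) :
    ∀ k ≤ m - 1, (a 0 : R) * (∏ l ∈ range k, ((b l : R) * (cb l : R))) * (pk x k : R) =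
      (a k : R) * ∏ l ∈ range k, ((a l : R) * (ca l : R)) := by
  intro k
  induction k with
  | zero => intro _; simp [pk_zero]
  | succ k ih =>
    intro hk
    have ih := ih (by omega)
    have e : ((x k : Rˣ) : R) = (a (k + 1) : R) * (ca k : R) * (((b k)⁻¹ : Rˣ) : R) *
        (((cb k)⁻¹ : Rˣ) : R) := by
      rw [hx k (by omega)]
      push_cast
      rfl
    have h1 : (b k : R) * (((b k)⁻¹ : Rˣ) : R) = 1 := Units.mul_inv (b k)
    have h2 : (cb k : R) * (((cb k)⁻¹ : Rˣ) : R) = 1 := Units.mul_inv (cb k)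
    rw [prod_range_succ, prod_range_succ, pk_succ, Units.val_mul, e]
    linear_combination ((a (k + 1) : R) * ca k * ((b k : R) * (((b k)⁻¹ : Rˣ) : R)) *
      ((cb k : R) * (((cb k)⁻¹ : Rˣ) : R))) * ih +
      ((a k : R) * (∏ l ∈ range k, ((a l : R) * (ca l : R))) * a (k + 1) * ca k) *
        (((cb k : R) * (((cb k)⁻¹ : Rˣ) : R)) * h1 + h2)

private theorem U01_S' {R : Type*} [CommRing R] {m : ℕ} {A B al be : ℕ → ℕ} (hab : ∀ i < m, be i < al i) (a b ca cb x : ℕ → Rˣ)
    (ha : ∀ i < m, (a i : R) = (al i : R)) (hb : ∀ i < m, (b i : R) = (be i : R)) (hA : ∀ i < m - 1, (ca i : R) = (A i : R))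
    (hB : ∀ i < m - 1, (cb i : R) = (B i : R)) (hx : ∀ i < m - 1, x i = a (i + 1) * ca i * (b i)⁻¹ * (cb i)⁻¹) :
    ∀ k, k < m → (Sm A B al be (k + 1) : R) = a 0 * (∏ l ∈ range (k + 1), (b l : R)) *
      (∏ l ∈ range k, (cb l : R)) * Sg (k + 1) a b (pk x) := by
  have key : ∀ k < m, (a k : R) * (b k : R) * et a b k = ((al k - be k : ℕ) : R) := by
    intro k hk
    have h1 : (b k : R) * (((b k)⁻¹ : Rˣ) : R) = 1 := Units.mul_inv (b k)
    have h2 : (a k : R) * (((a k)⁻¹ : Rˣ) : R) = 1 := Units.mul_inv (a k)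
    rw [Nat.cast_sub (hab k hk).le, ← ha k hk, ← hb k hk]
    unfold et
    linear_combination (a k : R) * h1 - (b k : R) * h2
  intro k
  induction k with
  | zero =>
    intro hk
    have h1 := key 0 hk
    simp only [Sm, Sg, pk_zero, prod_range_succ, prod_range_zero, sum_range_succ, sum_range_zero,
      Units.val_one, zero_mul, zero_add, one_mul, mul_one]
    rw [← h1]
  | succ k ih =>
    intro hk
    have ih := ih (by omega)
    have hP := U01_P (R := R) a b ca cb x hx (k + 1) (by omega)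
    have h1 := key (k + 1) hk
    have hprod : (∏ l ∈ range (k + 1), ((al l : R) * (A l : R))) =
        ∏ l ∈ range (k + 1), ((a l : R) * (ca l : R)) := by
      refine prod_congr rfl fun l hl => ?_
      rw [mem_range] at hl
      rw [ha l (by omega), hA l (by omega)]
    have hSg : Sg (k + 1 + 1) a b (pk x) = Sg (k + 1) a b (pk x) + (pk x (k + 1) : R) * et a b (k + 1) := by
      unfold Sg
      rw [sum_range_succ]
    have hSm : (Sm A B al be (k + 1 + 1) : R) = (Sm A B al be (k + 1) : R) * ((be (k + 1) : R) * (B k : R)) +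
        ((al (k + 1) - be (k + 1) : ℕ) : R) * ∏ l ∈ range (k + 1), ((al l : R) * (A l : R)) := by
      have e1 : Sm A B al be (k + 1 + 1) = Sm A B al be (k + 1) * (be (k + 1) * B (k + 1 - 1)) +
          (al (k + 1) - be (k + 1)) * ∏ l ∈ range (k + 1), al l * A l := rfl
      rw [e1, Nat.add_sub_cancel]
      push_cast
      rfl
    rw [hSm, hprod, hSg, ← h1, ← hb (k + 1) hk, ← hB k (by omega), ih, prod_range_succ (fun l => (b l : R)) (k + 1),
      prod_range_succ (fun l => (cb l : R)) k]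
    have hmul : (∏ l ∈ range (k + 1), ((b l : R) * (cb l : R))) =
        (∏ l ∈ range (k + 1), (b l : R)) * ((∏ l ∈ range k, (cb l : R)) * (cb k : R)) := by
      rw [prod_mul_distrib, prod_range_succ (fun l => (cb l : R)) k]
    rw [hmul] at hP
    linear_combination (-(b (k + 1) : R) * et a b (k + 1)) * hP

theorem U01_S {R : Type*} [CommRing R] {m : ℕ} (hm : 1 ≤ m) {A B al be : ℕ → ℕ} (hab : ∀ i < m, be i < al i) (a b ca cb x : ℕ → Rˣ)
    (ha : ∀ i < m, (a i : R) = (al i : R)) (hb : ∀ i < m, (b i : R) = (be i : R)) (hA : ∀ i < m - 1, (ca i : R) = (A i : R))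
    (hB : ∀ i < m - 1, (cb i : R) = (B i : R)) (hx : ∀ i < m - 1, x i = a (i + 1) * ca i * (b i)⁻¹ * (cb i)⁻¹) :
    (Sm A B al be m : R) = a 0 * (∏ l ∈ range m, (be l : R)) * (∏ l ∈ range (m - 1), (B l : R)) * Sg m a b (pk x) := by
  have h := U01_S' (R := R) hab a b ca cb x ha hb hA hB hx (m - 1) (by omega)
  rw [Nat.sub_add_cancel hm] at h
  rw [h]
  have e1 : ∏ l ∈ range m, (b l : R) = ∏ l ∈ range m, (be l : R) :=
    prod_congr rfl fun l hl => hb l (mem_range.1 hl)
  have e2 : ∏ l ∈ range (m - 1), (cb l : R) = ∏ l ∈ range (m - 1), (B l : R) :=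
    prod_congr rfl fun l hl => hB l (mem_range.1 hl)
  rw [e1, e2]

theorem U01_G {R : Type*} [CommRing R] {N m D : ℕ} (hm : 1 ≤ m) {A B al be e t : ℕ → ℕ} (_h : Cyc N m A B al be e t)
    (hab : ∀ i < m, be i < al i) (hS : D * e (m - 1) = Sm A B al be m) (a b ca cb x : ℕ → Rˣ)
    (ha : ∀ i < m, (a i : R) = (al i : R)) (hb : ∀ i < m, (b i : R) = (be i : R)) (hA : ∀ i < m - 1, (ca i : R) = (A i : R))
    (hB : ∀ i < m - 1, (cb i : R) = (B i : R)) (hx : ∀ i < m - 1, x i = a (i + 1) * ca i * (b i)⁻¹ * (cb i)⁻¹) :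
    (D : R) * ((e (m - 1) : R) * (B (m - 1) : R)) = (a 0 : R) * (∏ l ∈ range m, ((be l : R) * B l)) * Sg m a b (pk x) := by
  have h := U01_S (R := R) hm hab a b ca cb x ha hb hA hB hx
  rw [← hS] at h
  push_cast at h
  have e1 : ∏ l ∈ range m, ((be l : R) * (B l : R)) =
      (∏ l ∈ range m, (be l : R)) * ((∏ l ∈ range (m - 1), (B l : R)) * (B (m - 1) : R)) := by
    rw [prod_mul_distrib]
    congr 1
    obtain ⟨k, rfl⟩ : ∃ k, m = k + 1 := ⟨m - 1, by omega⟩
    rw [Nat.add_sub_cancel, prod_range_succ]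
  rw [e1]
  linear_combination (B (m - 1) : R) * h

private theorem U01_TE {R : Type*} [CommRing R] {N m D : ℕ} (hm : 1 ≤ m) {A B al be e t : ℕ → ℕ} (h : Cyc N m A B al be e t)
    (hab : ∀ i < m, be i < al i) (hS : D * e (m - 1) = Sm A B al be m) (a b ca cb x : ℕ → Rˣ)
    (ha : ∀ i < m, (a i : R) = (al i : R)) (hb : ∀ i < m, (b i : R) = (be i : R)) (hA : ∀ i < m - 1, (ca i : R) = (A i : R))
    (hB : ∀ i < m - 1, (cb i : R) = (B i : R)) (hx : ∀ i < m - 1, x i = a (i + 1) * ca i * (b i)⁻¹ * (cb i)⁻¹) (i : ℕ) :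
    i < m →
    (D : R) * ((pk x i : R) * (t i : R)) = Ti m a b (pk x) ((D : R) * N) (∏ l ∈ range m, ((be l : R) * B l)) i ∧
    (D : R) * ((pk x i : R) * ((e i : R) * (A i : R))) = (b i : R) * Ei m a b (pk x) ((D : R) * N) (∏ l ∈ range m, ((be l : R) * B l)) i := by
  set Y : R := ∏ l ∈ range m, ((be l : R) * B l) with hY
  -- from T to E
  have step : ∀ i < m, (D : R) * ((pk x i : R) * (t i : R)) = Ti m a b (pk x) ((D : R) * N) Y i →
      (D : R) * ((pk x i : R) * ((e i : R) * (A i : R))) = (b i : R) * Ei m a b (pk x) ((D : R) * N) Y i := by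
    intro i hi hT
    have hE : ((e i : R) * (A i : R)) + (t i : R) * (be i : R) = N := by
      have := congrArg (fun n : ℕ => (n : R)) (h.E i hi)
      push_cast at this
      exact this
    have h1 : (b i : R) * (((b i)⁻¹ : Rˣ) : R) = 1 := Units.mul_inv (b i)
    rw [← hb i hi] at hE
    unfold Ti Mi at hT
    unfold Ei
    rw [sum_range_succ]
    unfold et at *
    linear_combination ((D : R) * (pk x i : R)) * hE - (b i : R) * hT - ((D : R) * N * (pk x i : R)) * h1
  induction i with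
  | zero =>
    intro h0
    have hG := U01_G (R := R) hm h hab hS a b ca cb x ha hb hA hB hx
    have hF : ((e (m - 1) : R) * (B (m - 1) : R)) + (t 0 : R) * (al 0 : R) = N := by
      have h1 := h.F (m - 1) (by omega)
      rw [Nat.sub_add_cancel hm, Nat.mod_self] at h1
      have := congrArg (fun n : ℕ => (n : R)) h1
      push_cast at this
      exact this
    rw [← ha 0 h0] at hF
    have h2 : (a 0 : R) * (((a 0)⁻¹ : Rˣ) : R) = 1 := Units.mul_inv (a 0)
    have hT : (D : R) * ((pk x 0 : R) * (t 0 : R)) = Ti m a b (pk x) ((D : R) * N) Y 0 := by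
      unfold Ti Mi
      rw [pk_zero, sum_range_zero, Units.val_one]
      rw [← hY] at hG
      linear_combination ((((a 0)⁻¹ : Rˣ) : R) * (D : R)) * hF - (((a 0)⁻¹ : Rˣ) : R) * hG -
        ((D : R) * (t 0 : R) + Y * Sg m a b (pk x)) * h2
    exact ⟨hT, step 0 h0 hT⟩
  | succ i ih =>
    intro hi
    obtain ⟨_, hEi⟩ := ih (by omega)
    have hF : ((e i : R) * (B i : R)) + (t (i + 1) : R) * (al (i + 1) : R) = N := by
      have h1 := h.F i (by omega)
      rw [Nat.mod_eq_of_lt hi] at h1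
      have := congrArg (fun n : ℕ => (n : R)) h1
      push_cast at this
      exact this
    rw [← ha (i + 1) hi, ← hB i (by omega)] at hF
    rw [← hA i (by omega)] at hEi
    have e1 : (pk x (i + 1) : R) = (pk x i : R) * ((a (i + 1) : R) * (ca i : R) *
        (((b i)⁻¹ : Rˣ) : R) * (((cb i)⁻¹ : Rˣ) : R)) := by
      rw [pk_succ, Units.val_mul, hx i (by omega)]
      push_cast
      rfl
    have h1 : (b i : R) * (((b i)⁻¹ : Rˣ) : R) = 1 := Units.mul_inv (b i)
    have h2 : (cb i : R) * (((cb i)⁻¹ : Rˣ) : R) = 1 := Units.mul_inv (cb i)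
    have h3 : (a (i + 1) : R) * (((a (i + 1))⁻¹ : Rˣ) : R) = 1 := Units.mul_inv (a (i + 1))
    have hT : (D : R) * ((pk x (i + 1) : R) * (t (i + 1) : R)) =
        Ti m a b (pk x) ((D : R) * N) Y (i + 1) := by
      unfold Ti Mi
      unfold Ei at hEi
      set Q : R := ∑ j ∈ range (i + 1), (pk x j : R) * et a b j with hQ
      -- multiply by inverse of `a`
      have f1 : (pk x (i + 1) : R) * (((a (i + 1))⁻¹ : Rˣ) : R) = (pk x i : R) * (ca i : R) *
          (((b i)⁻¹ : Rˣ) : R) * (((cb i)⁻¹ : Rˣ) : R) := by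
        rw [e1]
        linear_combination ((pk x i : R) * (ca i : R) *
          (((b i)⁻¹ : Rˣ) : R) * (((cb i)⁻¹ : Rˣ) : R)) * h3
      have f2 : (pk x (i + 1) : R) * (((a (i + 1))⁻¹ : Rˣ) : R) * ((D : R) * ((e i : R) * (cb i : R))) =
          (D : R) * N * Q + Y * Sg m a b (pk x) := by
        rw [f1]
        linear_combination ((((b i)⁻¹ : Rˣ) : R) * ((cb i : R) * (((cb i)⁻¹ : Rˣ) : R))) * hEi +
          (((D : R) * N * Q + Y * Sg m a b (pk x)) * ((cb i : R) * (((cb i)⁻¹ : Rˣ) : R))) * h1 +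
          ((D : R) * N * Q + Y * Sg m a b (pk x)) * h2
      linear_combination ((pk x (i + 1) : R) * (((a (i + 1))⁻¹ : Rˣ) : R) * (D : R)) * hF - f2 -
        ((D : R) * (pk x (i + 1) : R) * (t (i + 1) : R)) * h3
    exact ⟨hT, step (i + 1) hi hT⟩

theorem U01 {R : Type*} [CommRing R] {N m D : ℕ} (hm : 1 ≤ m) {A B al be e t : ℕ → ℕ} (h : Cyc N m A B al be e t)
    (hab : ∀ i < m, be i < al i) (hS : D * e (m - 1) = Sm A B al be m) (a b ca cb x : ℕ → Rˣ)
    (ha : ∀ i < m, (a i : R) = (al i : R)) (hb : ∀ i < m, (b i : R) = (be i : R)) (hA : ∀ i < m - 1, (ca i : R) = (A i : R))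
    (hB : ∀ i < m - 1, (cb i : R) = (B i : R)) (hx : ∀ i < m - 1, x i = a (i + 1) * ca i * (b i)⁻¹ * (cb i)⁻¹) {i : ℕ} (hi : i < m) :
    (D : R) * ((pk x i : R) * (t i : R)) = Ti m a b (pk x) ((D : R) * N) (∏ l ∈ range m, ((be l : R) * B l)) i ∧
    (D : R) * ((pk x i : R) * ((e i : R) * (A i : R))) = (b i : R) * Ei m a b (pk x) ((D : R) * N) (∏ l ∈ range m, ((be l : R) * B l)) i :=
  U01_TE hm h hab hS a b ca cb x ha hb hA hB hx i hi

end Pool.Agent.Lib.TC
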