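import Pool.Agent.Lib.MP_7b7e48_nt.TC.Loc

/-!
# U14: integer versions of `Sg`, `M_i`; positivity (1.4)

`x_l = u_l/v_l` (`l < m - 1`) with natural numbers `u`, `v`. `SgZ = V Sg`, `MiZ i = V M_i` with `V = ∏_{l<m-1} v_l ∏_{l<m} al_l be_l`.
* `U14_Sg`, `U14_Mi`: in every commutative ring in which `al l`, `be l` (`l < m`) and `v l` (`l < m-1`) are units `a`, `b`, `w` and `x l = (u l)/w l` is a unit
  (`u l` is a unit): term by term, `p_j ∏_{l<m-1} v_l = ∏_{l<j} u_l ∏_{j ≤ l < m-1} v_l` and `et j ∏ al be = (al_j - be_j) ∏_{l ≠ j} al_l be_l`;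
  `(1/al_i) ∏ al be = be_i ∏_{l ≠ i} al_l be_l`.
* `U14_pos`: `0 < be_l < al_l`, `0 < v_l`, `0 < u_l`: `SgZ > 0`. `al_{l+1} v_l ≤ …`: in the application `u_l = al_{l+1} A_l`, `v_l = be_l B_l`, `A_l > B_l`, so
  `be_l u_l > al_{l+1} v_l`. Then `MiZ 0 > 0` and `MiZ i < MiZ (i+1)`: `M_{i+1} - M_i = p_{i+1}/al_{i+1} - p_i/be_i = p_i (u_i/(v_i al_{i+1}) - 1/be_i) > 0`
  (compute in `ℚ` with `U14_Sg`, `U14_Mi`, or directly).
* `U14_le`: `|SgZ|, |MiZ i| ≤ (m+1) Q` if all products `∏_{l<m-1} u_l ∏_{l<m-1} v_l ∏_{l<m} al_l be_l ≤ Q` (all numbers `≥ 1`; each term is at most `Q`).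
-/

set_option autoImplicit false

open Finset
open Pool.Agent.Lib.TC.Loc

namespace Pool.Agent.Lib.TC

/-- `V p_j et_j` -/
def teZ (m : ℕ) (al be u v : ℕ → ℕ) (j : ℕ) : ℤ :=
  (∏ l ∈ range j, (u l : ℤ)) * (∏ l ∈ Ico j (m - 1), (v l : ℤ)) * ((al j : ℤ) - be j) * ∏ l ∈ (range m).erase j, ((al l : ℤ) * be l)

/-- `V Sg` -/
def SgZ (m : ℕ) (al be u v : ℕ → ℕ) : ℤ := ∑ j ∈ range m, teZ m al be u v j

/-- `V M_i` -/
def MiZ (m : ℕ) (al be u v : ℕ → ℕ) (i : ℕ) : ℤ :=
  (∏ l ∈ range i, (u l : ℤ)) * (∏ l ∈ Ico i (m - 1), (v l : ℤ)) * (be i : ℤ) * (∏ l ∈ (range m).erase i, ((al l : ℤ) * be l)) -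
    ∑ j ∈ range i, teZ m al be u v j

/-- `V` -/
def VZ (m : ℕ) (al be v : ℕ → ℕ) : ℕ := (∏ l ∈ range (m - 1), v l) * ∏ l ∈ range m, al l * be l

private theorem u14_v {R : Type*} [CommRing R] {m : ℕ} (u v : ℕ → ℕ) (w x : ℕ → Rˣ)
    (hw : ∀ i < m - 1, (w i : R) = (v i : R)) (hx : ∀ i < m - 1, (x i : R) * (w i : R) = (u i : R)) {j : ℕ} (hj : j ≤ m - 1) :
    (∏ l ∈ range (m - 1), (v l : R)) * (pk x j : R) = (∏ l ∈ range j, (u l : R)) * ∏ l ∈ Ico j (m - 1), (v l : R) := by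
  rw [← prod_range_mul_prod_Ico (fun l => (v l : R)) hj]
  have h1 : ∏ l ∈ range j, (u l : R) = (∏ l ∈ range j, (v l : R)) * (pk x j : R) := by
    rw [pk, Units.coe_prod, ← prod_mul_distrib]
    refine prod_congr rfl fun l hl => ?_
    rw [mem_range] at hl
    rw [← hx l (by omega), hw l (by omega), mul_comm]
  rw [h1]
  ring

private theorem u14_ab {R : Type*} [CommRing R] {m : ℕ} (al be : ℕ → ℕ) {j : ℕ} (hj : j < m) :
    (∏ l ∈ range m, ((al l : R) * be l)) = ((al j : R) * be j) * ∏ l ∈ (range m).erase j, ((al l : R) * be l) :=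
  (mul_prod_erase (range m) (fun l => (al l : R) * be l) (mem_range.2 hj)).symm

private theorem u14_te {R : Type*} [CommRing R] {m : ℕ} (al be u v : ℕ → ℕ) (a b w x : ℕ → Rˣ)
    (ha : ∀ i < m, (a i : R) = (al i : R)) (hb : ∀ i < m, (b i : R) = (be i : R)) (hw : ∀ i < m - 1, (w i : R) = (v i : R))
    (hx : ∀ i < m - 1, (x i : R) * (w i : R) = (u i : R)) {j : ℕ} (hj : j < m) :
    ((teZ m al be u v j : ℤ) : R) = (VZ m al be v : R) * ((pk x j : R) * et a b j) := by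
  have h1 := u14_v u v w x hw hx (j := j) (by omega)
  have h2 := u14_ab (R := R) al be hj
  have ea : (al j : R) * (((a j)⁻¹ : Rˣ) : R) = 1 := by rw [← ha j hj, Units.mul_inv]
  have eb : (be j : R) * (((b j)⁻¹ : Rˣ) : R) = 1 := by rw [← hb j hj, Units.mul_inv]
  unfold teZ VZ
  push_cast
  rw [h2, ← h1]
  unfold et
  linear_combination (∏ l ∈ range (m - 1), (v l : R)) * (pk x j : R) * (∏ l ∈ (range m).erase j, ((al l : R) * be l)) *
    ((be j : R) * ea - (al j : R) * eb)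

theorem U14_Sg {R : Type*} [CommRing R] {m : ℕ} (hm : 1 ≤ m) (al be u v : ℕ → ℕ) (a b w x : ℕ → Rˣ)
    (ha : ∀ i < m, (a i : R) = (al i : R)) (hb : ∀ i < m, (b i : R) = (be i : R)) (hw : ∀ i < m - 1, (w i : R) = (v i : R))
    (hx : ∀ i < m - 1, (x i : R) * (w i : R) = (u i : R)) :
    ((SgZ m al be u v : ℤ) : R) = (VZ m al be v : R) * Sg m a b (pk x) := by
  unfold SgZ Sg
  rw [Int.cast_sum, mul_sum]
  refine sum_congr rfl fun j hj => ?_
  exact u14_te al be u v a b w x ha hb hw hx (mem_range.1 hj)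

theorem U14_Mi {R : Type*} [CommRing R] {m i : ℕ} (hi : i < m) (al be u v : ℕ → ℕ) (a b w x : ℕ → Rˣ)
    (ha : ∀ i < m, (a i : R) = (al i : R)) (hb : ∀ i < m, (b i : R) = (be i : R)) (hw : ∀ i < m - 1, (w i : R) = (v i : R))
    (hx : ∀ i < m - 1, (x i : R) * (w i : R) = (u i : R)) :
    ((MiZ m al be u v i : ℤ) : R) = (VZ m al be v : R) * Mi a b (pk x) i := by
  have h1 := u14_v u v w x hw hx (j := i) (by omega)
  have h2 := u14_ab (R := R) al be hi
  have ea : (al i : R) * (((a i)⁻¹ : Rˣ) : R) = 1 := by rw [← ha i hi, Units.mul_inv]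
  unfold MiZ Mi
  rw [Int.cast_sub, Int.cast_sum, mul_sub, mul_sum]
  congr 1
  · unfold VZ
    push_cast
    rw [h2, ← h1]
    linear_combination -(∏ l ∈ range (m - 1), (v l : R)) * (pk x i : R) * (∏ l ∈ (range m).erase i, ((al l : R) * be l)) *
      (be i : R) * ea
  · refine sum_congr rfl fun j hj => ?_
    exact u14_te al be u v a b w x ha hb hw hx ((mem_range.1 hj).trans hi)

private theorem u14_p1 {f : ℕ → ℕ} (s : Finset ℕ) (h : ∀ i ∈ s, 0 < f i) : (1 : ℤ) ≤ ∏ l ∈ s, (f l : ℤ) := by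
  have h1 : 0 < ∏ l ∈ s, (f l : ℤ) := prod_pos fun i hi => by exact_mod_cast h i hi
  omega

private theorem u14_p2 {f g : ℕ → ℕ} (s : Finset ℕ) (h : ∀ i ∈ s, 0 < f i) (h' : ∀ i ∈ s, 0 < g i) :
    (1 : ℤ) ≤ ∏ l ∈ s, ((f l : ℤ) * g l) := by
  have h1 : 0 < ∏ l ∈ s, ((f l : ℤ) * g l) := prod_pos fun i hi => by
    have := h i hi
    have := h' i hi
    positivity
  omega

theorem U14_pos {m : ℕ} (hm : 1 ≤ m) {al be u v : ℕ → ℕ} (hb : ∀ i < m, 0 < be i) (hab : ∀ i < m, be i < al i) (hu : ∀ i < m - 1, 0 < u i)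
    (hv : ∀ i < m - 1, 0 < v i) : 0 < SgZ m al be u v ∧ 0 < MiZ m al be u v 0 := by
  constructor
  · unfold SgZ
    refine sum_pos (fun j hj => ?_) ⟨0, mem_range.2 hm⟩
    rw [mem_range] at hj
    unfold teZ
    have h1 := u14_p1 (f := u) (range j) fun i hi => hu i (by rw [mem_range] at hi; omega)
    have h2 := u14_p1 (f := v) (Ico j (m - 1)) fun i hi => hv i (by rw [mem_Ico] at hi; omega)
    have h3 : (0 : ℤ) < (al j : ℤ) - be j := by have := hab j hj; omega
    have h4 := u14_p2 (f := al) (g := be) ((range m).erase j)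
      (fun i hi => by have hi' := mem_range.1 (mem_of_mem_erase hi); have := hab i hi'; omega)
      (fun i hi => hb i (mem_range.1 (mem_of_mem_erase hi)))
    have h1' := lt_of_lt_of_le one_pos h1
    have h2' := lt_of_lt_of_le one_pos h2
    have h4' := lt_of_lt_of_le one_pos h4
    positivity
  · unfold MiZ
    rw [range_zero, sum_empty, prod_empty, sub_zero, one_mul]
    have h2 := u14_p1 (f := v) (Ico 0 (m - 1)) fun i hi => hv i (by rw [mem_Ico] at hi; omega)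
    have h3 := hb 0 hm
    have h4 := u14_p2 (f := al) (g := be) ((range m).erase 0)
      (fun i hi => by have hi' := mem_range.1 (mem_of_mem_erase hi); have := hab i hi'; omega)
      (fun i hi => hb i (mem_range.1 (mem_of_mem_erase hi)))
    have h2' := lt_of_lt_of_le one_pos h2
    have h4' := lt_of_lt_of_le one_pos h4
    positivity

theorem U14_mono {m : ℕ} {al be u v : ℕ → ℕ} (hb : ∀ i < m, 0 < be i) (hab : ∀ i < m, be i < al i)
    (hv : ∀ i < m - 1, 0 < v i) (huv : ∀ i < m - 1, al (i + 1) * v i < be i * u i) {i : ℕ} (hi : i + 1 < m) :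
    MiZ m al be u v i < MiZ m al be u v (i + 1) := by
  have hu : ∀ i < m - 1, 0 < u i := fun i hi => by
    rcases Nat.eq_zero_or_pos (u i) with h | h
    · have := huv i hi
      rw [h] at this
      omega
    · exact h
  have e1 : ∏ l ∈ Ico i (m - 1), (v l : ℤ) = v i * ∏ l ∈ Ico (i + 1) (m - 1), (v l : ℤ) :=
    prod_eq_prod_Ico_succ_bot (by omega) _
  have e2 : ∏ l ∈ range (i + 1), (u l : ℤ) = (∏ l ∈ range i, (u l : ℤ)) * u i := prod_range_succ _ _
  have e3 : ∏ l ∈ (range m).erase i, ((al l : ℤ) * be l) =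
      ((al (i + 1) : ℤ) * be (i + 1)) * ∏ l ∈ ((range m).erase i).erase (i + 1), ((al l : ℤ) * be l) :=
    (mul_prod_erase _ (fun l => (al l : ℤ) * be l) (by simp; omega)).symm
  have e4 : ∏ l ∈ (range m).erase (i + 1), ((al l : ℤ) * be l) =
      ((al i : ℤ) * be i) * ∏ l ∈ ((range m).erase i).erase (i + 1), ((al l : ℤ) * be l) := by
    rw [erase_right_comm]
    exact (mul_prod_erase _ (fun l => (al l : ℤ) * be l) (by simp; omega)).symm
  have h1 := u14_p1 (f := u) (range i) fun l hl => hu l (by rw [mem_range] at hl; omega)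
  have h2 := u14_p1 (f := v) (Ico (i + 1) (m - 1)) fun l hl => hv l (by rw [mem_Ico] at hl; omega)
  have h4 := u14_p2 (f := al) (g := be) (((range m).erase i).erase (i + 1))
    (fun l hl => by
      have hl' := mem_range.1 (mem_of_mem_erase (mem_of_mem_erase hl))
      have := hab l hl'
      omega)
    (fun l hl => hb l (mem_range.1 (mem_of_mem_erase (mem_of_mem_erase hl))))
  have h5 : (0 : ℤ) < be (i + 1) := by exact_mod_cast hb (i + 1) hi
  have h6 : (0 : ℤ) < al i := by have := hab i (by omega); omega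
  have h7 : (0 : ℤ) < (be i : ℤ) * u i - al (i + 1) * v i := by
    have := huv i (by omega)
    have h8 : ((al (i + 1) * v i : ℕ) : ℤ) < ((be i * u i : ℕ) : ℤ) := by exact_mod_cast this
    push_cast at h8
    linarith
  have h1' := lt_of_lt_of_le one_pos h1
  have h2' := lt_of_lt_of_le one_pos h2
  have h4' := lt_of_lt_of_le one_pos h4
  rw [← sub_pos]
  have key : MiZ m al be u v (i + 1) - MiZ m al be u v i = (∏ l ∈ range i, (u l : ℤ)) *
      (∏ l ∈ Ico (i + 1) (m - 1), (v l : ℤ)) * (∏ l ∈ ((range m).erase i).erase (i + 1), ((al l : ℤ) * be l)) *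
      be (i + 1) * al i * ((be i : ℤ) * u i - al (i + 1) * v i) := by
    unfold MiZ
    rw [sum_range_succ]
    unfold teZ
    rw [e1, e2, e3, e4]
    ring
  rw [key]
  positivity

private theorem u14_t {m Q : ℕ} {al be u v : ℕ → ℕ} (hb : ∀ i < m, 0 < be i) (hab : ∀ i < m, be i < al i) (hu : ∀ i < m - 1, 0 < u i)
    (hv : ∀ i < m - 1, 0 < v i) (hQ : (∏ l ∈ range (m - 1), u l * v l) * (∏ l ∈ range m, al l * be l) ≤ Q) {j : ℕ} (hj : j < m)
    {c : ℤ} (h0 : 0 ≤ c) (hc : c ≤ (al j : ℤ) * be j) :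
    0 ≤ (∏ l ∈ range j, (u l : ℤ)) * (∏ l ∈ Ico j (m - 1), (v l : ℤ)) * c * (∏ l ∈ (range m).erase j, ((al l : ℤ) * be l)) ∧
    (∏ l ∈ range j, (u l : ℤ)) * (∏ l ∈ Ico j (m - 1), (v l : ℤ)) * c * (∏ l ∈ (range m).erase j, ((al l : ℤ) * be l)) ≤ Q := by
  have hQ' : (∏ l ∈ range (m - 1), ((u l : ℤ) * v l)) * (∏ l ∈ range m, ((al l : ℤ) * be l)) ≤ Q := by exact_mod_cast hQ
  rw [prod_mul_distrib, ← prod_range_mul_prod_Ico (fun l => (u l : ℤ)) (show j ≤ m - 1 by omega),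
    ← prod_range_mul_prod_Ico (fun l => (v l : ℤ)) (show j ≤ m - 1 by omega), u14_ab (R := ℤ) al be hj] at hQ'
  have a1 := u14_p1 (f := u) (range j) fun l hl => hu l (by rw [mem_range] at hl; omega)
  have a2 := u14_p1 (f := u) (Ico j (m - 1)) fun l hl => hu l (by rw [mem_Ico] at hl; omega)
  have a3 := u14_p1 (f := v) (range j) fun l hl => hv l (by rw [mem_range] at hl; omega)
  have a4 := u14_p1 (f := v) (Ico j (m - 1)) fun l hl => hv l (by rw [mem_Ico] at hl; omega)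
  have a5 := u14_p2 (f := al) (g := be) ((range m).erase j)
    (fun i hi => by have hi' := mem_range.1 (mem_of_mem_erase hi); have := hab i hi'; omega)
    (fun i hi => hb i (mem_range.1 (mem_of_mem_erase hi)))
  generalize ∏ l ∈ range j, (u l : ℤ) = U1 at *
  generalize ∏ l ∈ Ico j (m - 1), (u l : ℤ) = U2 at *
  generalize ∏ l ∈ range j, (v l : ℤ) = V1 at *
  generalize ∏ l ∈ Ico j (m - 1), (v l : ℤ) = V2 at *
  generalize ∏ l ∈ (range m).erase j, ((al l : ℤ) * be l) = E at *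
  have b1 : 0 < U1 := by omega
  have b4 : 0 < V2 := by omega
  have b5 : 0 < E := by omega
  refine ⟨by positivity, ?_⟩
  have c1 : U1 * V2 * c * E ≤ U1 * V2 * ((al j : ℤ) * be j) * E := by gcongr
  have c2 : (1 : ℤ) ≤ U2 * V1 := by nlinarith
  have c3 : 0 ≤ U1 * V2 * ((al j : ℤ) * be j) * E := by positivity
  have c4 : U1 * V2 * ((al j : ℤ) * be j) * E * 1 ≤ U1 * V2 * ((al j : ℤ) * be j) * E * (U2 * V1) := by gcongr
  linarith

theorem U14_le {m Q : ℕ} {al be u v : ℕ → ℕ} (hb : ∀ i < m, 0 < be i) (hab : ∀ i < m, be i < al i) (hu : ∀ i < m - 1, 0 < u i)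
    (hv : ∀ i < m - 1, 0 < v i) (hQ : (∏ l ∈ range (m - 1), u l * v l) * (∏ l ∈ range m, al l * be l) ≤ Q) {i : ℕ} (hi : i < m) :
    |SgZ m al be u v| ≤ m * Q ∧ |MiZ m al be u v i| ≤ (m + 1) * Q := by
  have hte : ∀ j < m, 0 ≤ teZ m al be u v j ∧ teZ m al be u v j ≤ Q := by
    intro j hj
    have h1 := hab j hj
    have h2 := hb j hj
    have h3 : (al j : ℤ) ≤ (al j : ℤ) * be j := by
      have : (1 : ℤ) ≤ be j := by exact_mod_cast h2
      nlinarith
    exact u14_t hb hab hu hv hQ hj (c := (al j : ℤ) - be j) (by omega) (by omega)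
  have hsum : ∀ k ≤ m, 0 ≤ ∑ j ∈ range k, teZ m al be u v j ∧ ∑ j ∈ range k, teZ m al be u v j ≤ k * Q := by
    intro k hk
    refine ⟨sum_nonneg fun j hj => (hte j (by rw [mem_range] at hj; omega)).1, ?_⟩
    have h1 := sum_le_card_nsmul (range k) (fun j => teZ m al be u v j) (Q : ℤ)
      fun j hj => (hte j (by rw [mem_range] at hj; omega)).2
    rw [card_range, nsmul_eq_mul] at h1
    exact_mod_cast h1
  constructor
  · have h1 := hsum m le_rfl
    unfold SgZ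
    rw [abs_of_nonneg h1.1]
    exact h1.2
  · have h1 := hsum i hi.le
    have h2 := hab i hi
    have h3 : (be i : ℤ) ≤ (al i : ℤ) * be i := by
      have : (1 : ℤ) ≤ al i := by omega
      nlinarith
    have h4 := u14_t hb hab hu hv hQ hi (c := (be i : ℤ)) (by omega) h3
    have h5 : (i : ℤ) * Q ≤ m * Q := by gcongr
    unfold MiZ
    rw [abs_le]
    constructor
    · nlinarith [h4.1, h1.2]
    · nlinarith [h4.2, h1.1, h1.2]

end Pool.Agent.Lib.TC
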