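import Pool.Agent.Lib.MP_7b7e48_nt.TC.Q03

/-!
# Q04: the roots of the large sieve at one prime

`p ∈ T.PL` (prime, `y0 < p ≤ z`); if `p ∉ spec` then `p` divides none of `N`, `v`, the marks, `SI` (spec), nor `D` (`0 < D ≤ y0 < p`), nor `τ` (`= 1` or the product of the marks of `μ`).
* `Q04_iff`: on the support of `Om`, `X = v τ n + x0` in `ℤ`, so modulo `p` `X` is the value at `n % p`; `hit` depends on `X` only modulo `p`.
* `Q04_one`: `Ti i` at `X` is `DN (M_i + Sg) - X Sg` (`Y = X - DN`), `Sg` is a unit (`Q03_SI`, `p ∤ SI`): with `X = v τ r + x0` it vanishes for exactly one `r < p`.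
* `Q04_le`: `rts` is contained in the union over `i ≤ k` of the one-element sets of roots (empty if `p ∈ spec`).
* `Q04_card`: the root of `i` is `r_i` with `(v τ r_i + x0) Sg = DN (M_i + Sg)`; `r_i = r_j` iff `M_i = M_j` in `ZMod p` iff `p ∣ MiI j - MiI i` (`Q03_Mi`, `Q03_V`).
* `Q04_disj`: a common root `r` of `i` for `c` and `j` for `c'`: `(v τ r + x0) = DN (M_i + Sg)/Sg = DN (M'_j + Sg')/Sg'`, so `M_i Sg' = M'_j Sg`, `p ∣ MiI(c,i) SgI(c') - MiI(c',j) SgI(c)`.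
* `Q04_zero` (type 2): `0 ∉ rts` because the value at `r = 0` is `x0` and `hit .. x0 p` makes `p` special.
-/

set_option autoImplicit false

open Finset

namespace Pool.Agent.Lib.TC

variable {S : MS} {T : Dat} {W0 : ℕ} {Z : Fin (S.k + 1) → ℕ} {M : Msr S} {δ0 δ1 : ℝ} {c c' : S.Col} {μ : S.TX} {ν : S.TY} {p : ℕ}

private theorem q04_prime (hp : p ∈ T.PL) : p.Prime ∧ T.y0 < p := (Finset.mem_filter.1 hp).2

private theorem q04_mem {r : ℕ} : r ∈ M.rts T c μ ν p ↔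
    r < p ∧ p ∉ S.spec T M.v M.x0 M.t2 c μ ν ∧ S.hit T c μ ν (M.v * (M.tau μ ν * r : ℕ) + M.x0) p := by
  classical
  unfold Msr.rts
  rw [Finset.mem_filter, Finset.mem_range]

private theorem q04_hit {X Y : ℤ} (h : (X : ZMod p) = (Y : ZMod p)) : S.hit T c μ ν X p ↔ S.hit T c μ ν Y p := by
  unfold MS.hit
  rw [h]

private theorem q04_spec (hp : p ∈ T.PL) (hs : p ∉ S.spec T M.v M.x0 M.t2 c μ ν) :
    ¬ p ∣ T.N * M.v * S.prX id μ * S.prY id ν * S.SI T.N c μ ν := fun h => hs (by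
  classical
  unfold MS.spec
  exact Finset.mem_filter.2 ⟨hp, Or.inl h⟩)

theorem Q04_iff (hM : M.OK T W0 δ0 δ1) (hp : p ∈ T.PL) {n : ℕ} (hn : M.Om μ ν n ≠ 0) :
    p ∈ S.hits T M.v M.x0 M.t2 c μ ν (M.X μ ν n) ↔ n % p ∈ M.rts T c μ ν p := by
  have h1 : p ∈ S.hits T M.v M.x0 M.t2 c μ ν (M.X μ ν n) ↔
      p ∉ S.spec T M.v M.x0 M.t2 c μ ν ∧ S.hit T c μ ν (M.X μ ν n) p := by
    classical
    unfold MS.hits
    rw [Finset.mem_filter, Finset.mem_sdiff]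
    constructor
    · rintro ⟨⟨_, h2⟩, h3⟩
      exact ⟨h2, h3⟩
    · rintro ⟨h2, h3⟩
      exact ⟨⟨hp, h2⟩, h3⟩
  have h2 : (((M.X μ ν n : ℕ) : ℤ) : ZMod p) = ((M.v * (M.tau μ ν * (n % p) : ℕ) + M.x0 : ℤ) : ZMod p) := by
    rw [hM.X_eq μ ν n hn]
    push_cast
    ring
  rw [h1, q04_mem, q04_hit h2]
  constructor
  · rintro ⟨h3, h4⟩
    exact ⟨Nat.mod_lt _ (q04_prime hp).1.pos, h3, h4⟩
  · rintro ⟨_, h3, h4⟩
    exact ⟨h3, h4⟩

private theorem q04_root {F : Type*} [Field F] {d m s v x r : F} (hs : s ≠ 0) (hv : v ≠ 0) :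
    d * m - ((v * r + x) - d) * s = 0 ↔ r = ((d * m / s + d) - x) / v := by
  rw [eq_div_iff hv]
  constructor
  · intro h
    have h1 : (v * r + x - d) * s = d * m := by linear_combination -h
    have h2 : v * r + x - d = d * m / s := eq_div_of_mul_eq hs h1
    linear_combination h2
  · intro h
    have h1 : v * r + x - d = d * m / s := by linear_combination h
    rw [h1, div_mul_cancel₀ _ hs, sub_self]

/-- the root of the index `i` -/
private noncomputable def q04_R (M : Msr S) (T : Dat) (c : S.Col) (μ : S.TX) (ν : S.TY) (p : ℕ) [Fact p.Prime] (i : ℕ) : ZMod p :=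
  (((T.D : ZMod p) * T.N * Loc.Mi (aq p μ.1) (aq p ν.1) (S.pq T.N p c μ ν) i /
    Loc.Sg (S.k + 1) (aq p μ.1) (aq p ν.1) (S.pq T.N p c μ ν) + (T.D : ZMod p) * T.N) - (M.x0 : ZMod p)) / ((M.v : ZMod p) * (M.tau μ ν : ZMod p))

/-- everything nonzero modulo `p` -/
private theorem q04_units [Fact p.Prime] (hT : T.OK W0) (hS : S.OK T W0 Z) (hM : M.OK T W0 δ0 δ1) (hμ : μ ∈ S.MX) (hν : ν ∈ S.MY) (hp : p ∈ T.PL)
    (hs : p ∉ S.spec T M.v M.x0 M.t2 c μ ν) :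
    (S.prX id μ * S.prY id ν).Coprime p ∧ (T.D : ZMod p) * T.N ≠ 0 ∧
      Loc.Sg (S.k + 1) (aq p μ.1) (aq p ν.1) (S.pq T.N p c μ ν) ≠ 0 ∧ (M.v : ZMod p) * (M.tau μ ν : ZMod p) ≠ 0 := by
  have hpp := (q04_prime hp).1
  have h1 := q04_spec hp hs
  have hN : ¬ p ∣ T.N := fun h => h1 ((((h.mul_right _).mul_right _).mul_right _).mul_right _)
  have hv : ¬ p ∣ M.v := fun h => h1 ((((h.mul_left _).mul_right _).mul_right _).mul_right _)
  have hX : ¬ p ∣ S.prX id μ := fun h => h1 (((h.mul_left _).mul_right _).mul_right _)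
  have hY : ¬ p ∣ S.prY id ν := fun h => h1 ((h.mul_left _).mul_right _)
  have hSI : ¬ p ∣ S.SI T.N c μ ν := fun h => h1 (h.mul_left _)
  have hD : ¬ p ∣ T.D := fun h => by
    have h2 := Nat.le_of_dvd hT.D_pos h
    have h3 := hT.D_le
    have h4 := (q04_prime hp).2
    omega
  have hq : (S.prX id μ * S.prY id ν).Coprime p :=
    Nat.Coprime.mul_left ((Nat.Prime.coprime_iff_not_dvd hpp).2 hX).symm ((Nat.Prime.coprime_iff_not_dvd hpp).2 hY).symm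
  have h0 : ∀ {n : ℕ}, ¬ p ∣ n → (n : ZMod p) ≠ 0 := fun {n} h h' => h ((ZMod.natCast_eq_zero_iff n p).1 h')
  refine ⟨hq, mul_ne_zero (h0 hD) (h0 hN), ?_, mul_ne_zero (h0 hv) ?_⟩
  · intro h
    obtain ⟨w, hw⟩ := Q03_SI (c := c) hS hμ hν hq
    rw [h, mul_zero] at hw
    exact h0 hSI hw
  · rcases hM.tau_cases with h | ⟨h, _⟩
    · rw [h μ ν, Nat.cast_one]
      exact one_ne_zero
    · rw [h μ ν]
      exact h0 hX

private theorem q04_iff [Fact p.Prime] (hT : T.OK W0) (hS : S.OK T W0 Z) (hM : M.OK T W0 δ0 δ1) (hμ : μ ∈ S.MX) (hν : ν ∈ S.MY) (hp : p ∈ T.PL)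
    (hs : p ∉ S.spec T M.v M.x0 M.t2 c μ ν) {r : ℕ} :
    S.hit T c μ ν (M.v * (M.tau μ ν * r : ℕ) + M.x0) p ↔ ∃ i ≤ S.k, (r : ZMod p) = q04_R M T c μ ν p i := by
  obtain ⟨_, hd, hg, hv⟩ := q04_units hT hS hM hμ hν hp hs
  unfold MS.hit
  refine exists_congr fun i => and_congr_right fun _ => ?_
  unfold q04_R
  rw [← q04_root hg hv]
  unfold Loc.Ti
  push_cast
  rw [mul_assoc (M.v : ZMod p)]

theorem Q04_le (hT : T.OK W0) (hS : S.OK T W0 Z) (hM : M.OK T W0 δ0 δ1) (hμ : μ ∈ S.MX) (hν : ν ∈ S.MY) (hp : p ∈ T.PL) :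
    M.rts T c μ ν p ⊆ range p ∧ (M.rts T c μ ν p).card ≤ S.k + 1 := by
  classical
  have hF : Fact p.Prime := ⟨(q04_prime hp).1⟩
  have h1 : M.rts T c μ ν p ⊆ (range (S.k + 1)).image fun i => (q04_R M T c μ ν p i).val := by
    intro r hr
    obtain ⟨h1, h2, h3⟩ := q04_mem.1 hr
    obtain ⟨i, hi, h4⟩ := (q04_iff hT hS hM hμ hν hp h2).1 h3
    rw [Finset.mem_image]
    refine ⟨i, Finset.mem_range.2 (by omega), ?_⟩
    rw [← h4, ZMod.val_natCast, Nat.mod_eq_of_lt h1]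
  refine ⟨fun r hr => Finset.mem_range.2 (q04_mem.1 hr).1, ?_⟩
  refine (Finset.card_le_card h1).trans (Finset.card_image_le.trans ?_)
  rw [Finset.card_range]

theorem Q04_zero (hp : p ∈ T.PL) (h2 : M.t2) : 0 ∉ M.rts T c μ ν p := by
  intro h
  classical
  obtain ⟨_, h3, h4⟩ := q04_mem.1 h
  refine h3 ?_
  unfold MS.spec
  refine Finset.mem_filter.2 ⟨hp, Or.inr ⟨h2, ?_⟩⟩
  rw [mul_zero, Nat.cast_zero, mul_zero, zero_add] at h4
  exact h4

theorem Q04_spec (hp : p ∈ T.PL) {r : ℕ} (hr : r ∈ M.rts T c μ ν p) : ¬ p ∣ T.N * M.v * S.prX id μ * S.prY id ν * S.SI T.N c μ ν :=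
  q04_spec hp (q04_mem.1 hr).2.1

theorem Q04_card (hT : T.OK W0) (hS : S.OK T W0 Z) (hM : M.OK T W0 δ0 δ1) (hμ : μ ∈ S.MX) (hν : ν ∈ S.MY) (hp : p ∈ T.PL)
    (hs : p ∉ S.spec T M.v M.x0 M.t2 c μ ν) (h : ∀ i j, i < j → j ≤ S.k → ¬ (p : ℤ) ∣ S.MiI T.N c μ ν j - S.MiI T.N c μ ν i) :
    (M.rts T c μ ν p).card = S.k + 1 := by
  classical
  have hF : Fact p.Prime := ⟨(q04_prime hp).1⟩
  obtain ⟨hq, hd, hg, hv⟩ := q04_units hT hS hM hμ hν hp hs
  have h1 : M.rts T c μ ν p = (range (S.k + 1)).image fun i => (q04_R M T c μ ν p i).val := by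
    ext r
    rw [q04_mem, Finset.mem_image]
    constructor
    · rintro ⟨h1, h2, h3⟩
      obtain ⟨i, hi, h4⟩ := (q04_iff hT hS hM hμ hν hp h2).1 h3
      refine ⟨i, Finset.mem_range.2 (by omega), ?_⟩
      rw [← h4, ZMod.val_natCast, Nat.mod_eq_of_lt h1]
    · rintro ⟨i, hi, rfl⟩
      refine ⟨ZMod.val_lt _, hs, (q04_iff hT hS hM hμ hν hp hs).2 ⟨i, ?_, ?_⟩⟩
      · have := Finset.mem_range.1 hi
        omega
      · rw [ZMod.natCast_zmod_val]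
  have key : ∀ i j, i < j → j ≤ S.k → q04_R M T c μ ν p i ≠ q04_R M T c μ ν p j := by
    intro i j hij hj he
    unfold q04_R at he
    have h2 := sub_left_inj.1 ((div_left_inj' hv).1 he)
    have h3 := add_right_cancel h2
    have h4 := mul_left_cancel₀ hd ((div_left_inj' hg).1 h3)
    have h5 : ((S.MiI T.N c μ ν j : ℤ) : ZMod p) = ((S.MiI T.N c μ ν i : ℤ) : ZMod p) := by
      rw [Q03_Mi hq hj, Q03_Mi hq (hij.le.trans hj), h4]
    refine h i j hij hj ?_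
    rw [← ZMod.intCast_zmod_eq_zero_iff_dvd, Int.cast_sub, h5, sub_self]
  rw [h1, Finset.card_image_of_injOn, Finset.card_range]
  intro i hi j hj he
  have hi' := Finset.mem_range.1 (Finset.mem_coe.1 hi)
  have hj' := Finset.mem_range.1 (Finset.mem_coe.1 hj)
  have h2 : q04_R M T c μ ν p i = q04_R M T c μ ν p j := ZMod.val_injective p he
  rcases lt_trichotomy i j with h3 | h3 | h3
  · exact absurd h2 (key i j h3 (by omega))
  · exact h3
  · exact absurd h2.symm (key j i h3 (by omega))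

theorem Q04_disj (hT : T.OK W0) (hS : S.OK T W0 Z) (hM : M.OK T W0 δ0 δ1) (hμ : μ ∈ S.MX) (hν : ν ∈ S.MY) (hp : p ∈ T.PL)
    (hs : p ∉ S.spec T M.v M.x0 M.t2 c μ ν) (hs' : p ∉ S.spec T M.v M.x0 M.t2 c' μ ν)
    (h : ∀ i ≤ S.k, ∀ j ≤ S.k, ¬ (p : ℤ) ∣ S.MiI T.N c μ ν i * S.SgI T.N c' μ ν - S.MiI T.N c' μ ν j * S.SgI T.N c μ ν) :
    Disjoint (M.rts T c μ ν p) (M.rts T c' μ ν p) := by
  have hF : Fact p.Prime := ⟨(q04_prime hp).1⟩
  obtain ⟨hq, hd, hg, hv⟩ := q04_units hT hS hM hμ hν hp hs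
  obtain ⟨_, _, hg', _⟩ := q04_units hT hS hM hμ hν hp hs'
  rw [Finset.disjoint_left]
  intro r hr hr'
  obtain ⟨_, _, h1⟩ := q04_mem.1 hr
  obtain ⟨_, _, h2⟩ := q04_mem.1 hr'
  obtain ⟨i, hi, h3⟩ := (q04_iff hT hS hM hμ hν hp hs).1 h1
  obtain ⟨j, hj, h4⟩ := (q04_iff hT hS hM hμ hν hp hs').1 h2
  have he := h3.symm.trans h4
  unfold q04_R at he
  have h5 := add_right_cancel (sub_left_inj.1 ((div_left_inj' hv).1 he))
  rw [mul_div_assoc, mul_div_assoc] at h5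
  have h6 := mul_left_cancel₀ hd h5
  rw [div_eq_div_iff hg hg'] at h6
  refine h i hi j hj ?_
  rw [← ZMod.intCast_zmod_eq_zero_iff_dvd, Int.cast_sub, Int.cast_mul, Int.cast_mul, Q03_Mi hq hi, Q03_Mi hq hj, Q03_Sg hq, Q03_Sg hq,
    sub_eq_zero]
  linear_combination ((S.VI T.N c μ ν : ZMod p) * (S.VI T.N c' μ ν : ZMod p)) * h6

end Pool.Agent.Lib.TC
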