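import Pool.Agent.Lib.MP_7b7e48_nt.TC.Q02
import Pool.Agent.Lib.MP_7b7e48_nt.TC.Q04

/-!
# Q06: the large sieve for fixed tuples (9.1)

Apply `Q02` with `PL = T.PL`, `m = k + 1` (`m ≤ p`: `64 m² ≤ p0 ≤ y0 < p`), `g = M.g`, `gY = 2 (k+1)/y0` (`m g p ≤ m (1/p + 2/p²) ≤ 2 m/p`), `Ω = M.rts T c μ ν`, `Ω' = M.rts T c' μ ν` (`Q04_le`),
`w1 = wt s b2 z PL`, `w2 = wt s' b2 z PL`, `Cw = NJ z + 1` (`abs_flUp_le`, `abs_flLo_le`), `Z = z^(12 b2)` (`flUp_support`, `flLo_support`), `I = {n ≤ nm : n ≡ r (q1)}`, `Exc = M.exc`,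
`m0 = ms * gq q1`, `ε = N^(-δ1) W`.
`heq`: `q = q1 ∏_{p ∈ e} p` is squarefree (primes of `q1` are `≤ y0`, primes of `e` are `> y0`), `q ≤ N^δ0`, coprime to the marks (marks are `> y0`; primes of `e` are not special, `Q04_spec`), its primes
divide `W0` or do not divide `N` (`Q04_spec`); by the Chinese remainder theorem the conditions `n ≡ r (q1)`, `n % p = r p` are one class `r*` modulo `q`, in type 2 coprime to `q` (`Q04_zero`);
`gq q = gq q1 ∏_{p ∈ e} g p`; use `hM.eq`.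
For `Om n ≠ 0`: the hit primes are `PL.filter (n % p ∈ rts p)` (`Q04_iff`), so `Ll` is the sum of `Q02` (where `Om n = 0` nothing is needed). `V3` is the product over `PL`.
-/

set_option autoImplicit false

open Finset
open Pool.Agent.Lib.GT (NJ)

namespace Pool.Agent.Lib.TC

/-- the relative error of the large sieve for two colourings -/
noncomputable def Msr.Th {S : MS} (M : Msr S) (T : Dat) (c c' : S.Col) (μ : S.TX) (ν : S.TY) : ℝ :=
  4 * ((NJ T.z : ℝ) + 1) ^ 2 * min 1 ((3 * ((M.exc T c c' μ ν).card : ℝ) + 1) * (2 * ((S.k + 1 : ℕ) : ℝ) / T.y0)) * M.V3 T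

/-! ### auxiliary lemmas -/

private theorem Q06_crt (e : Finset ℕ) (q1 r : ℕ) (r' : ℕ → ℕ) (he : ∀ p ∈ e, p.Prime)
    (hc : ∀ p ∈ e, ¬ p ∣ q1) (hr : ∀ p ∈ e, r' p < p) :
    ∃ s : ℕ, ∀ n : ℕ, (n ≡ r [MOD q1] ∧ ∀ p ∈ e, n % p = r' p) ↔ n ≡ s [MOD q1 * ∏ p ∈ e, p] := by
  classical
  induction e using Finset.induction_on with
  | empty => exact ⟨r, fun n => by simp⟩
  | insert p e hp ih =>
    obtain ⟨s, hs⟩ := ih (fun q hq => he q (mem_insert_of_mem hq)) (fun q hq => hc q (mem_insert_of_mem hq))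
      (fun q hq => hr q (mem_insert_of_mem hq))
    have hpp := he p (mem_insert_self p e)
    have hcop : (q1 * ∏ q ∈ e, q).Coprime p := by
      rw [Nat.coprime_comm, hpp.coprime_iff_not_dvd]
      intro h
      rcases hpp.dvd_mul.1 h with h | h
      · exact hc p (mem_insert_self p e) h
      · obtain ⟨q, hq, h⟩ := (hpp.prime.dvd_finset_prod_iff _).1 h
        rw [Nat.prime_dvd_prime_iff_eq hpp (he q (mem_insert_of_mem hq))] at h
        exact hp (h ▸ hq)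
    obtain ⟨t, ht1, ht2⟩ := Nat.chineseRemainder hcop s (r' p)
    refine ⟨t, fun n => ?_⟩
    rw [prod_insert hp, show q1 * (p * ∏ q ∈ e, q) = (q1 * ∏ q ∈ e, q) * p by ring,
      ← Nat.modEq_and_modEq_iff_modEq_mul hcop]
    have h1 : n % p = r' p ↔ n ≡ r' p [MOD p] := by
      unfold Nat.ModEq
      rw [Nat.mod_eq_of_lt (hr p (mem_insert_self p e))]
    have h2 : n ≡ t [MOD q1 * ∏ q ∈ e, q] ↔ n ≡ s [MOD q1 * ∏ q ∈ e, q] :=
      ⟨fun h => h.trans ht1, fun h => h.trans ht1.symm⟩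
    have h3 : n ≡ t [MOD p] ↔ n ≡ r' p [MOD p] := ⟨fun h => h.trans ht2, fun h => h.trans ht2.symm⟩
    rw [h2, h3, ← hs n, ← h1]
    constructor
    · rintro ⟨h4, h5⟩
      exact ⟨⟨h4, fun q hq => h5 q (mem_insert_of_mem hq)⟩, h5 p (mem_insert_self p e)⟩
    · rintro ⟨⟨h4, h5⟩, h6⟩
      refine ⟨h4, fun q hq => ?_⟩
      rcases mem_insert.1 hq with rfl | hq
      · exact h6
      · exact h5 q hq

private theorem Q06_fac (e : Finset ℕ) (q1 : ℕ) (hq1 : Squarefree q1) (he : ∀ p ∈ e, p.Prime)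
    (hc : ∀ p ∈ e, ¬ p ∣ q1) : Squarefree (q1 * ∏ p ∈ e, p) ∧
      (q1 * ∏ p ∈ e, p).primeFactors = q1.primeFactors ∪ e := by
  classical
  induction e using Finset.induction_on with
  | empty => simpa using hq1
  | insert p e hp ih =>
    obtain ⟨h1, h2⟩ := ih (fun q hq => he q (mem_insert_of_mem hq)) (fun q hq => hc q (mem_insert_of_mem hq))
    have hpp := he p (mem_insert_self p e)
    have hcop : (q1 * ∏ q ∈ e, q).Coprime p := by
      rw [Nat.coprime_comm, hpp.coprime_iff_not_dvd]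
      intro h
      rcases hpp.dvd_mul.1 h with h | h
      · exact hc p (mem_insert_self p e) h
      · obtain ⟨q, hq, h⟩ := (hpp.prime.dvd_finset_prod_iff _).1 h
        rw [Nat.prime_dvd_prime_iff_eq hpp (he q (mem_insert_of_mem hq))] at h
        exact hp (h ▸ hq)
    rw [prod_insert hp, show q1 * (p * ∏ q ∈ e, q) = (q1 * ∏ q ∈ e, q) * p by ring]
    refine ⟨(Nat.squarefree_mul hcop).2 ⟨h1, hpp.prime.squarefree⟩, ?_⟩
    rw [hcop.primeFactors_mul, h2, hpp.primeFactors]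
    ext q
    simp only [mem_union, mem_insert, mem_singleton]
    tauto

section

variable {S : MS} {T : Dat} {W0 : ℕ} {Z : Fin (S.k + 1) → ℕ} {μ : S.TX} {ν : S.TY}

private theorem Q06_zsq (hT : T.OK W0) : T.y0 < T.z ^ 2 := by
  have h1 := hT.y0_lt
  nlinarith

private theorem Q06_mX (hT : T.OK W0) (hS : S.OK T W0 Z) (hμ : μ ∈ S.MX) :
    (∀ i, (μ.1 i).Prime ∧ T.y0 < μ.1 i) ∧ (∀ f, (μ.2.1 f).Prime ∧ T.y0 < μ.2.1 f) ∧
      ∀ e, (μ.2.2 e).Prime ∧ T.y0 < μ.2.2 e := by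
  unfold MS.MX at hμ
  rw [mem_product, mem_product, Fintype.mem_piFinset, Fintype.mem_piFinset, Fintype.mem_piFinset] at hμ
  have hz := Q06_zsq hT
  refine ⟨fun i => ?_, fun f => ?_, fun e => ?_⟩
  · obtain ⟨h1, -, h2, -⟩ := hS.WX_mem i _ (hμ.1 i)
    have := hS.Z_lo i
    exact ⟨h1, by omega⟩
  · obtain ⟨h1, -, h2, -⟩ := hS.FX_mem f _ (hμ.2.1 f)
    exact ⟨h1, h2⟩
  · obtain ⟨h1, -, h2, -⟩ := hS.OX_mem e _ (hμ.2.2 e)
    exact ⟨h1, h2⟩

private theorem Q06_mY (hT : T.OK W0) (hS : S.OK T W0 Z) (hν : ν ∈ S.MY) :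
    (∀ i, (ν.1 i).Prime ∧ T.y0 < ν.1 i) ∧ (∀ f, (ν.2.1 f).Prime ∧ T.y0 < ν.2.1 f) ∧
      ∀ e, (ν.2.2 e).Prime ∧ T.y0 < ν.2.2 e := by
  unfold MS.MY at hν
  rw [mem_product, mem_product, Fintype.mem_piFinset, Fintype.mem_piFinset, Fintype.mem_piFinset] at hν
  have hz := Q06_zsq hT
  refine ⟨fun i => ?_, fun f => ?_, fun e => ?_⟩
  · obtain ⟨h1, -, h2, -⟩ := hS.WY_mem i _ (hν.1 i)
    have := hS.Z_lo i
    exact ⟨h1, by omega⟩
  · obtain ⟨h1, -, h2, -⟩ := hS.FY_mem f _ (hν.2.1 f)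
    exact ⟨h1, h2⟩
  · obtain ⟨h1, -, h2, -⟩ := hS.OY_mem e _ (hν.2.2 e)
    exact ⟨h1, h2⟩

private theorem Q06_prod_dvd {ι : Type*} [Fintype ι] (f : ι → ℕ) (y p : ℕ) (hp : p.Prime)
    (hf : ∀ i, (f i).Prime ∧ y < f i) (h : p ∣ ∏ i, id (f i)) : y < p := by
  obtain ⟨i, -, h1⟩ := (hp.prime.dvd_finset_prod_iff _).1 h
  rw [id, Nat.prime_dvd_prime_iff_eq hp (hf i).1] at h1
  rw [h1]
  exact (hf i).2

private theorem Q06_mark_gt (hT : T.OK W0) (hS : S.OK T W0 Z) (hμ : μ ∈ S.MX) (hν : ν ∈ S.MY) {p : ℕ}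
    (hp : p.Prime) (h : p ∣ S.prX id μ * S.prY id ν) : T.y0 < p := by
  obtain ⟨a1, a2, a3⟩ := Q06_mX hT hS hμ
  obtain ⟨b1, b2, b3⟩ := Q06_mY hT hS hν
  rcases hp.dvd_mul.1 h with h | h
  · unfold MS.prX at h
    rcases hp.dvd_mul.1 h with h | h
    · rcases hp.dvd_mul.1 h with h | h
      · exact Q06_prod_dvd _ _ _ hp a1 h
      · exact Q06_prod_dvd _ _ _ hp a2 h
    · exact Q06_prod_dvd _ _ _ hp a3 h
  · unfold MS.prY at h
    rcases hp.dvd_mul.1 h with h | h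
    · rcases hp.dvd_mul.1 h with h | h
      · exact Q06_prod_dvd _ _ _ hp b1 h
      · exact Q06_prod_dvd _ _ _ hp b2 h
    · exact Q06_prod_dvd _ _ _ hp b3 h

private theorem Q06_ms (hT : T.OK W0) (hS : S.OK T W0 Z) {M : Msr S} {δ0 δ1 : ℝ} (hM : M.OK T W0 δ0 δ1)
    (hμ : μ ∈ S.MX) (hν : ν ∈ S.MY) : 0 ≤ M.ms μ ν := by
  obtain ⟨a1, a2, a3⟩ := Q06_mX hT hS hμ
  obtain ⟨b1, b2, b3⟩ := Q06_mY hT hS hν
  unfold Msr.ms Msr.m1 MS.prX MS.prY
  refine mul_nonneg hM.W_pos.le (mul_nonneg (mul_nonneg (mul_nonneg ?_ ?_) ?_) (mul_nonneg (mul_nonneg ?_ ?_) ?_))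
  · exact prod_nonneg fun i _ => (hM.hX_nonneg _ (a1 i).1).1
  · exact prod_nonneg fun i _ => (hM.hX_nonneg _ (a2 i).1).1
  · exact prod_nonneg fun i _ => (hM.hX_nonneg _ (a3 i).1).1
  · exact prod_nonneg fun i _ => (hM.hY_nonneg _ (b1 i).1).1
  · exact prod_nonneg fun i _ => (hM.hY_nonneg _ (b2 i).1).1
  · exact prod_nonneg fun i _ => (hM.hY_nonneg _ (b3 i).1).1

private theorem Q06_hits {M : Msr S} {δ0 δ1 : ℝ} (hM : M.OK T W0 δ0 δ1) (c : S.Col) {n : ℕ}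
    (hn : M.Om μ ν n ≠ 0) : S.hits T M.v M.x0 M.t2 c μ ν (M.X μ ν n) =
      T.PL.filter fun p => n % p ∈ M.rts T c μ ν p := by
  classical
  ext p
  rw [mem_filter]
  constructor
  · intro h
    have hp : p ∈ T.PL := by
      unfold MS.hits at h
      rw [mem_filter, mem_sdiff] at h
      exact h.1.1
    exact ⟨hp, (Q04_iff hM hp hn).1 h⟩
  · rintro ⟨hp, h⟩
    exact (Q04_iff hM hp hn).2 h

end

theorem Q06 {S : MS} {T : Dat} {W0 : ℕ} {Z : Fin (S.k + 1) → ℕ} {M : Msr S} {δ0 δ1 : ℝ} (hT : T.OK W0) (hS : S.OK T W0 Z) (hM : M.OK T W0 δ0 δ1)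
    {μ : S.TX} {ν : S.TY} (hμ : μ ∈ S.MX) (hν : ν ∈ S.MY) (hadm : M.adm μ ν) (c c' : S.Col) (s s' : Bool) {b2 : ℕ} (hb : 1 ≤ b2)
    {q1 : ℕ} (hq1 : Squarefree q1) (hq2 : ∀ p : ℕ, p.Prime → p ∣ q1 → p ≤ T.y0 ∧ (p ∣ W0 ∨ ¬ p ∣ T.N))
    (hq3 : (q1 : ℝ) * (T.z : ℝ) ^ (24 * b2) ≤ (T.N : ℝ) ^ δ0) (r : ℕ) (hr : M.t2 → r.Coprime q1) :
    |∑ n ∈ (range (M.nm + 1)).filter (fun n => n ≡ r [MOD q1]), M.Om μ ν n *
      ((M.Ll T s b2 c μ ν (M.X μ ν n) - M.Ml T s b2) * (M.Ll T s' b2 c' μ ν (M.X μ ν n) - M.Ml T s' b2))| ≤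
    M.ms μ ν * M.gq q1 * M.Th T c c' μ ν + (T.N : ℝ) ^ (-δ1) * M.W * (2 * ((NJ T.z : ℝ) + 1) * (T.z : ℝ) ^ (24 * b2)) ^ 2 := by
  classical
  have hy0 : 64 * (S.k + 1) ^ 2 ≤ T.y0 := hS.p0_lo.trans (hT.p0_le.trans hT.y_le)
  have hk1 : 4 ≤ S.k + 1 := by have := hS.k_lo; omega
  have hky : S.k + 1 ≤ T.y0 := by nlinarith
  have hz : 2 ≤ T.z := by have := hT.y0_lt; omega
  have hPL : ∀ p ∈ T.PL, p.Prime ∧ T.y0 < p ∧ p ≤ T.z := by
    intro p hp
    unfold Dat.PL at hp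
    rw [mem_filter, mem_range] at hp
    exact ⟨hp.2.1, hp.2.2, by omega⟩
  have hPL1 : ∀ p ∈ T.PL, p.Prime ∧ p ≤ T.z := fun p hp => ⟨(hPL p hp).1, (hPL p hp).2.2⟩
  have hy0r : (0 : ℝ) < T.y0 := by exact_mod_cast (by omega : 0 < T.y0)
  have hgq : 0 ≤ M.gq q1 := by
    unfold Msr.gq
    refine prod_nonneg fun p hp => ?_
    have hpp := Nat.prime_of_mem_primeFactors hp
    have h1 := hM.g_small p hpp (hq2 p hpp (Nat.dvd_of_mem_primeFactors hp)).1
    have h2 : (2 : ℝ) ≤ p := by exact_mod_cast hpp.two_le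
    by_cases ht : M.t2
    · rw [h1.2 ht]
      exact div_nonneg zero_le_one (by linarith)
    · rw [h1.1 ht]
      positivity
  have hms := Q06_ms hT hS hM hμ hν
  have hw : ∀ (s : Bool) (e : Finset ℕ), |wt s b2 T.z T.PL e| ≤ (NJ T.z : ℝ) + 1 := by
    intro s e
    unfold wt
    split_ifs
    · have h1 := abs_flUp_le b2 T.z T.PL e
      have h2 : (0 : ℝ) ≤ NJ T.z := Nat.cast_nonneg _
      linarith
    · exact abs_flLo_le b2 T.z T.PL e
  have hws : ∀ (s : Bool), ∀ e ⊆ T.PL, wt s b2 T.z T.PL e ≠ 0 → ∏ p ∈ e, p ≤ T.z ^ (12 * b2) := by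
    intro s e he h
    have h1 : ((∏ p ∈ e, p : ℕ) : ℝ) ≤ (T.z : ℝ) ^ (12 * b2) := by
      unfold wt at h
      split_ifs at h
      · exact flUp_support hPL1 hz hb he h
      · exact flLo_support hPL1 hz hb he h
    exact_mod_cast h1
  have key := Q02 T.PL (S.k + 1) (by omega) (fun p hp => ⟨(hPL p hp).1, by have := (hPL p hp).2.1; omega⟩)
    M.g (2 * ((S.k + 1 : ℕ) : ℝ) / T.y0) (by
      rw [div_le_one hy0r]
      have h1 : 2 * (S.k + 1) ≤ T.y0 := by nlinarith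
      exact_mod_cast h1) (div_nonneg (mul_nonneg zero_le_two (Nat.cast_nonneg _)) (Nat.cast_nonneg _)) (by
      intro p hp
      obtain ⟨h1, h2, h3⟩ := hPL p hp
      obtain ⟨h4, h5⟩ := hM.g_large p h1 h2
      refine ⟨h4, ?_⟩
      have h6 : (T.y0 : ℝ) < p := by exact_mod_cast h2
      have h7 : (2 : ℝ) ≤ p := by exact_mod_cast h1.two_le
      have h8 : M.g p ≤ 2 / T.y0 := by
        have h9 : M.g p ≤ 1 / p + 2 / (p : ℝ) ^ 2 := by
          have := (abs_le.1 h5).2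
          linarith
        have h10 : 2 / (p : ℝ) ^ 2 ≤ 1 / p := by
          rw [div_le_div_iff₀ (by positivity) (by positivity)]
          nlinarith
        have h11 : 2 / (p : ℝ) ≤ 2 / T.y0 := div_le_div_of_nonneg_left (by norm_num) hy0r h6.le
        have h12 : 2 / (p : ℝ) = 1 / p + 1 / p := by ring
        linarith
      calc ((S.k + 1 : ℕ) : ℝ) * M.g p ≤ ((S.k + 1 : ℕ) : ℝ) * (2 / T.y0) :=
            mul_le_mul_of_nonneg_left h8 (Nat.cast_nonneg _)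
        _ = 2 * ((S.k + 1 : ℕ) : ℝ) / T.y0 := by ring)
    (M.rts T c μ ν) (M.rts T c' μ ν) (fun p hp => Q04_le hT hS hM hμ hν hp) (fun p hp => Q04_le hT hS hM hμ hν hp)
    (wt s b2 T.z T.PL) (wt s' b2 T.z T.PL) ((NJ T.z : ℝ) + 1) (fun e => ⟨hw s e, hw s' e⟩) (T.z ^ (12 * b2))
    (fun e he h => h.elim (hws s e he) (hws s' e he)) ((range (M.nm + 1)).filter (fun n => n ≡ r [MOD q1]))
    (M.Om μ ν) (M.ms μ ν * M.gq q1) ((T.N : ℝ) ^ (-δ1) * M.W) (mul_nonneg hms hgq)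
    (mul_nonneg (Real.rpow_nonneg (Nat.cast_nonneg _) _) hM.W_pos.le) (by
      intro e he heZ r' hr'
      have hep : ∀ p ∈ e, p.Prime := fun p hp => (hPL p (he hp)).1
      have hnd : ∀ p ∈ e, ¬ p ∣ q1 := by
        intro p hp h
        have h1 := (hq2 p (hep p hp) h).1
        have h2 := (hPL p (he hp)).2.1
        omega
      have hroot : ∀ p ∈ e, r' p < p ∧ ¬ p ∣ T.N * M.v * S.prX id μ * S.prY id ν ∧ (M.t2 → r' p ≠ 0) := by
        intro p hp
        rcases mem_union.1 (hr' p hp) with h | h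
        · refine ⟨mem_range.1 ((Q04_le hT hS hM hμ hν (he hp)).1 h), fun h' => Q04_spec (he hp) h (h'.mul_right _), ?_⟩
          intro h2 h0
          rw [h0] at h
          exact Q04_zero (he hp) h2 h
        · refine ⟨mem_range.1 ((Q04_le hT hS hM hμ hν (he hp)).1 h), fun h' => Q04_spec (he hp) h (h'.mul_right _), ?_⟩
          intro h2 h0
          rw [h0] at h
          exact Q04_zero (he hp) h2 h
      obtain ⟨t, ht⟩ := Q06_crt e q1 r r' hep hnd fun p hp => (hroot p hp).1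
      obtain ⟨hsq, hpf⟩ := Q06_fac e q1 hq1 hep hnd
      have hpdvd : ∀ p : ℕ, p.Prime → p ∣ q1 * ∏ p ∈ e, p → p ∣ q1 ∨ p ∈ e := by
        intro p hp h
        have h1 : p ∈ (q1 * ∏ p ∈ e, p).primeFactors := Nat.mem_primeFactors.2 ⟨hp, h, hsq.ne_zero⟩
        rw [hpf, mem_union] at h1
        exact h1.imp (fun h => Nat.dvd_of_mem_primeFactors h) id
      have hle : ((q1 * ∏ p ∈ e, p : ℕ) : ℝ) ≤ (T.N : ℝ) ^ δ0 := by
        refine le_trans ?_ hq3
        rw [Nat.cast_mul]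
        refine mul_le_mul_of_nonneg_left ?_ (Nat.cast_nonneg _)
        have h1 : ((∏ p ∈ e, p : ℕ) : ℝ) ≤ (((T.z ^ (12 * b2)) ^ 2 : ℕ) : ℝ) := by exact_mod_cast heZ
        refine h1.trans (le_of_eq ?_)
        rw [← pow_mul, show 12 * b2 * 2 = 24 * b2 by ring]
        push_cast
        ring
      have hcopm : (q1 * ∏ p ∈ e, p).Coprime (S.prX id μ * S.prY id ν) := by
        rw [Nat.coprime_iff_gcd_eq_one]
        by_contra hne
        obtain ⟨p, hp, hpd⟩ := Nat.exists_prime_and_dvd hne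
        have h1 := hpd.trans (Nat.gcd_dvd_left _ _)
        have h2 := hpd.trans (Nat.gcd_dvd_right _ _)
        rcases hpdvd p hp h1 with h3 | h3
        · have h4 := (hq2 p hp h3).1
          have h5 := Q06_mark_gt hT hS hμ hν hp h2
          omega
        · refine (hroot p h3).2.1 ?_
          have h4 : T.N * M.v * S.prX id μ * S.prY id ν = T.N * M.v * (S.prX id μ * S.prY id ν) := by ring
          rw [h4]
          exact h2.mul_left _
      have hN : ∀ p : ℕ, p.Prime → p ∣ q1 * ∏ p ∈ e, p → p ∣ W0 ∨ ¬ p ∣ T.N := by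
        intro p hp h
        rcases hpdvd p hp h with h3 | h3
        · exact (hq2 p hp h3).2
        · refine Or.inr fun h4 => (hroot p h3).2.1 ?_
          exact ((h4.mul_right _).mul_right _).mul_right _
      have ht1 := (ht t).2 (Nat.ModEq.refl _)
      have htc : M.t2 → t.Coprime (q1 * ∏ p ∈ e, p) := by
        intro h2
        rw [Nat.coprime_iff_gcd_eq_one]
        by_contra hne
        obtain ⟨p, hp, hpd⟩ := Nat.exists_prime_and_dvd hne
        have h3 := hpd.trans (Nat.gcd_dvd_left _ _)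
        have h4 := hpd.trans (Nat.gcd_dvd_right _ _)
        rcases hpdvd p hp h4 with h5 | h5
        · have h6 : t ≡ r [MOD p] := ht1.1.of_dvd h5
          have h7 : p ∣ r := by
            have := (Nat.modEq_zero_iff_dvd.2 h3).symm.trans h6
            exact Nat.modEq_zero_iff_dvd.1 this.symm
          have h8 := hr h2
          have h9 : p ∣ r.gcd q1 := Nat.dvd_gcd h7 h5
          rw [Nat.coprime_iff_gcd_eq_one.1 h8] at h9
          exact hp.one_lt.ne' (Nat.dvd_one.1 h9)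
        · have h6 := ht1.2 p h5
          rw [Nat.mod_eq_zero_of_dvd h3] at h6
          exact (hroot p h5).2.2 h2 h6.symm
      have hmain := hM.eq μ hμ ν hν hadm (q1 * ∏ p ∈ e, p) hsq hle hcopm hN t htc
      have hgqe : M.gq (q1 * ∏ p ∈ e, p) = M.gq q1 * ∏ p ∈ e, M.g p := by
        unfold Msr.gq
        rw [hpf, prod_union]
        rw [disjoint_left]
        intro p hp hp'
        exact hnd p hp' (Nat.dvd_of_mem_primeFactors hp)
      have hcl : M.cl μ ν (q1 * ∏ p ∈ e, p) t =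
          ∑ n ∈ ((range (M.nm + 1)).filter (fun n => n ≡ r [MOD q1])).filter (fun n => ∀ p ∈ e, n % p = r' p),
            M.Om μ ν n := by
        unfold Msr.cl
        rw [filter_filter]
        refine sum_congr ?_ fun _ _ => rfl
        ext n
        rw [mem_filter, mem_filter, ht n]
      rw [hcl, hgqe, ← mul_assoc] at hmain
      exact hmain)
    (M.exc T c c' μ ν) (by
      intro p hp hpe
      unfold Msr.exc at hpe
      rw [mem_filter] at hpe
      by_contra hne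
      exact hpe ⟨hp, hne⟩)
  refine le_trans (le_of_eq ?_) (key.trans (le_of_eq ?_))
  · congr 1
    refine sum_congr rfl fun n _ => ?_
    by_cases hn : M.Om μ ν n = 0
    · rw [hn, zero_mul, zero_mul]
    · unfold Msr.Ll Msr.Ml
      rw [Q06_hits hM c hn, Q06_hits hM c' hn]
  · unfold Msr.Th Msr.V3
    push_cast
    rw [← pow_mul, show 12 * b2 * 2 = 24 * b2 by ring]

end Pool.Agent.Lib.TC
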