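import Pool.Agent.Lib.MP_7b7e48_nt.TC.U10
import Pool.Agent.Lib.MP_7b7e48_nt.TC.U13
import Pool.Agent.Lib.MP_7b7e48_nt.TC.T10

/-!
# U12: coinciding roots modulo a prime (8.3)

`c'` is not a function of `c`; `p` prime, `H = (ZMod p)ˣ`, `i, j ≤ k`. Number of `(al, s) ∈ H^(k+1) × H^E` with `M_i(c) Sg(c') = M_j(c') Sg(c)`: at most
`3 (p-1)^(k + |E|)`.

Proof. `T10_move`: `f₁, f₂`, `k₁ = c' f₁ < k₂ = c' f₂`. Put `P₂ = ∑_{k₁ < h ≤ k₂} p'_h et h` and `G` = the part of `M_j(c')` which is multiplied by `g` under the move: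
`G = 0` if `j ≤ k₁`; `G = p'_j/al_j - ∑_{k₁ < h < j} p'_h et h` if `k₁ < j ≤ k₂`; `G = -P₂` if `j > k₂`. For `s · mv g` the difference
`M_i(c) Sg(c') - M_j(c') Sg(c)` is `a₀ + g a₁`, `a₁ = M_i(c) P₂ - Sg(c) G`. So (`U10_sum`) `(p-1)·#` is at most the number of `(al, s)` with `a₁ ≠ 0` plus
`(p-1)` times the number of `(al, s)` with `a₁ = 0`. It is enough that `a₁ = 0` for at most `2 (p-1)^(k+|E|)` pairs `(al, s)`:
write (`U13_Sg`, `U13_Mi`, as a function of `al 0 = u`) `Sg(c) = s₀ - 1/u`, `M_i(c) = t₀ + 1/u`; `P₂` and `G` do not contain `al 0`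
(all `h, j ≥ 1` there).
* `j > k₂`: `a₁ = (M_i(c) + Sg(c)) P₂ = N_i(c) P₂`. `P₂ = 0` for at most one `al k₂` (`U13_aff`), `N_i(c) = p_i/be_i + ∑_{i<h≤k} p_h et h` (`Ni_eq`) is a unit for `i = k` and
  for `i < k` affine in `al k` with unit coefficient (`U13_aff` with `k₁ = i`, `k₂ = k`, the other terms do not contain `al k`): zero for at most one `al k`.
* `j ≤ k₂`: put `Hh = P₂ + G`. If `j ≤ k₁`: `Hh = P₂`. If `k₁ < j ≤ k₂`: `Hh = p'_j/be_j + ∑_{j < h ≤ k₂} p'_h et h`, a unit for `j = k₂`, affine in `al k₂` with unit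
  coefficient for `j < k₂`. So `Hh = 0` for at most one `al k₂`. If `Hh ≠ 0`: `a₁ = t₀ P₂ - s₀ G + Hh/u` vanishes for at most one `u = al 0`.
Each `at most one value of one coordinate` costs `(p-1)^(k+|E|)`.
-/

set_option autoImplicit false

open Finset
open Pool.Agent.Lib.TC.Loc

namespace Pool.Agent.Lib.TC

section ring

variable {R : Type*} [CommRing R]

/-- the part `k₁ < h ≤ k₂` of the sum -/
private def U12_P (k₁ k₂ : ℕ) (al be q : ℕ → Rˣ) : R := ∑ h ∈ Ioc k₁ k₂, (q h : R) * et al be h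

/-- the part of `Mi` with `k₁ < h ≤ k₂` -/
private def U12_G (k₁ k₂ j : ℕ) (al be q : ℕ → Rˣ) : R :=
  (if k₁ < j ∧ j ≤ k₂ then (q j : R) * (((al j)⁻¹ : Rˣ) : R) else 0) -
    ∑ h ∈ (range j).filter (fun h => k₁ < h ∧ h ≤ k₂), (q h : R) * et al be h

private theorem U12_Sg {k k₁ k₂ : ℕ} (hk : k₂ ≤ k) (al be q qg : ℕ → Rˣ) (g : Rˣ)
    (h : ∀ j ≤ k, qg j = (if k₁ < j ∧ j ≤ k₂ then g else 1) * q j) :
    Sg (k + 1) al be qg = Sg (k + 1) al be q + ((g : R) - 1) * U12_P k₁ k₂ al be q := by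
  unfold Sg U12_P
  have h1 : Ioc k₁ k₂ = (range (k + 1)).filter (fun h => k₁ < h ∧ h ≤ k₂) := by
    ext x
    rw [mem_Ioc, mem_filter, mem_range]
    omega
  rw [h1, sum_filter, mul_sum, ← sum_add_distrib]
  refine sum_congr rfl fun j hj => ?_
  rw [mem_range] at hj
  rw [h j (by omega)]
  split_ifs
  · rw [Units.val_mul]
    ring
  · rw [one_mul]
    ring

private theorem U12_Mi {k k₁ k₂ j : ℕ} (hj : j ≤ k) (al be q qg : ℕ → Rˣ) (g : Rˣ)
    (h : ∀ j ≤ k, qg j = (if k₁ < j ∧ j ≤ k₂ then g else 1) * q j) :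
    Mi al be qg j = Mi al be q j + ((g : R) - 1) * U12_G k₁ k₂ j al be q := by
  have h1 : ∑ h ∈ range j, (qg h : R) * et al be h = ∑ h ∈ range j, (q h : R) * et al be h +
      ((g : R) - 1) * ∑ h ∈ (range j).filter (fun h => k₁ < h ∧ h ≤ k₂), (q h : R) * et al be h := by
    rw [sum_filter, mul_sum, ← sum_add_distrib]
    refine sum_congr rfl fun l hl => ?_
    rw [mem_range] at hl
    rw [h l (by omega)]
    split_ifs
    · rw [Units.val_mul]
      ring
    · rw [one_mul]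
      ring
  unfold Mi U12_G
  rw [h1, h j hj]
  split_ifs
  · rw [Units.val_mul]
    ring
  · rw [one_mul]
    ring

end ring

section tup

variable {H : Type*} [CommGroup H]

private theorem U12_ex {k : ℕ} (al : Fin (k + 1) → H) (m : Fin (k + 1)) (w : H) :
    ex (k + 1) (Function.update al m w) = Function.update (ex (k + 1) al) m w := by
  funext l
  by_cases hl : l < k + 1
  · rw [ex_lt _ hl]
    by_cases h : l = m
    · subst h
      have e : (⟨(m : ℕ), hl⟩ : Fin (k + 1)) = m := rfl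
      rw [e, Function.update_self, Function.update_self]
    · rw [Function.update_of_ne h, ex_lt _ hl, Function.update_of_ne]
      intro h'
      exact h (congrArg Fin.val h')
  · have h : l ≠ m := by
      have := m.2
      omega
    rw [Function.update_of_ne h, ex_ge _ (by omega), ex_ge _ (by omega)]

private theorem U12_pr {k : ℕ} (al : Fin (k + 1) → H) (x : Fin k → H) (m : Fin (k + 1)) (w : H)
    {h : ℕ} (hk : h ≤ k) (hm : h < m) :
    pr k (xa (Function.update al m w) x) h = pr k (xa al x) h := by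
  rw [U10_pr _ _ hk, U10_pr _ _ hk]
  congr 1
  refine prod_congr rfl fun l hl => ?_
  rw [mem_range] at hl
  rw [U12_ex, Function.update_of_ne]
  omega

private theorem U12_pr0 {k : ℕ} (al : Fin (k + 1) → H) (x : Fin k → H) (w : H) :
    xa (Function.update al 0 w) x = xa al x := by
  funext l
  unfold xa
  rw [Function.update_of_ne (Fin.succ_ne_zero l)]

end tup

section ring2

variable {R : Type*} [CommRing R]

private theorem U12_et {k : ℕ} (al : Fin (k + 1) → Rˣ) (be : ℕ → Rˣ) (m : Fin (k + 1)) (w : Rˣ)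
    {h : ℕ} (hm : h ≠ m) :
    (et (ex (k + 1) (Function.update al m w)) be h : R) = et (ex (k + 1) al) be h := by
  unfold et
  rw [U12_ex, Function.update_of_ne hm]

private theorem U12_aff {k : ℕ} (al : Fin (k + 1) → Rˣ) (be : ℕ → Rˣ) (x : Fin k → Rˣ) {k₁ : ℕ}
    (m : Fin (k + 1)) (h12 : k₁ < m) : ∃ (a : Rˣ) (b : R), ∀ w : Rˣ,
    U12_P k₁ m (ex (k + 1) (Function.update al m w)) be
      (pr k (xa (Function.update al m w) x)) = (w : R) * a + b := by
  obtain ⟨n, hn⟩ : ∃ n : ℕ, (m : ℕ) = n + 1 := ⟨m - 1, by omega⟩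
  have hmk : (m : ℕ) ≤ k := by
    have := m.2
    omega
  obtain ⟨r, hr⟩ : ∃ r : Rˣ, r = (∏ l ∈ range n, ex (k + 1) al (l + 1)) * pr k x (n + 1) := ⟨_, rfl⟩
  refine ⟨r * (be m)⁻¹, ∑ h ∈ Ioo k₁ (m : ℕ), ((pr k (xa al x) h : Rˣ) : R) *
    et (ex (k + 1) al) be h - r, fun w => ?_⟩
  have h1 : ex (k + 1) (Function.update al m w) m = w := by
    rw [U12_ex, Function.update_self]
  have h2 : pr k (xa (Function.update al m w) x) m = w * r := by
    rw [U10_pr _ _ hmk, hn, prod_range_succ]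
    rw [← hn, h1, hr]
    have h3 : ∏ l ∈ range n, ex (k + 1) (Function.update al m w) (l + 1) =
        ∏ l ∈ range n, ex (k + 1) al (l + 1) := by
      refine prod_congr rfl fun l hl => ?_
      rw [mem_range] at hl
      rw [U12_ex, Function.update_of_ne]
      omega
    rw [h3, ← hn]
    rw [mul_comm _ w, mul_assoc]
  have h3 := U13_aff h12 (ex (k + 1) (Function.update al m w)) be
    (pr k (xa (Function.update al m w) x)) r w h1 h2
  unfold U12_P
  rw [h3]
  congr 1
  congr 1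
  refine sum_congr rfl fun h hh => ?_
  rw [mem_Ioo] at hh
  rw [U12_pr al x m w (by omega) hh.2, U12_et al be m w (by omega)]

end ring2

/-- at most one value of one coordinate -/
private theorem U12_coord {H E : Type*} [Fintype H] [Fintype E] [DecidableEq E] {k : ℕ}
    (m : Fin (k + 1)) (Q : (Fin (k + 1) → H) × (E → H) → Prop) [DecidablePred Q]
    (hQ : ∀ al s u u', Q (Function.update al m u, s) → Q (Function.update al m u', s) → u = u') :
    ((univ : Finset ((Fin (k + 1) → H) × (E → H))).filter Q).card ≤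
      Fintype.card H ^ (k + Fintype.card E) := by
  classical
  have h1 : ((univ : Finset ((Fin (k + 1) → H) × (E → H))).filter Q).card ≤
      (univ : Finset ((Fin k → H) × (E → H))).card := by
    refine card_le_card_of_injOn (fun w => (Fin.removeNth m w.1, w.2)) (fun _ _ => mem_univ _) ?_
    rintro ⟨al, s⟩ h ⟨al', s'⟩ h' he
    simp only [Prod.mk.injEq] at he
    obtain ⟨e1, e2⟩ := he
    subst e2
    rw [Finset.mem_coe, mem_filter] at h h'
    have k1 : al = Function.update al m (al m) := (Function.update_eq_self _ _).symm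
    have k2 : al' = Function.update al m (al' m) := by
      rw [← Fin.insertNth_removeNth, e1, Fin.insertNth_self_removeNth]
    have k3 : al m = al' m := by
      refine hQ al s (al m) (al' m) ?_ ?_
      · rw [← k1]
        exact h.2
      · rw [← k2]
        exact h'.2
    rw [k2, ← k3, ← k1]
  refine h1.trans (le_of_eq ?_)
  rw [card_univ, Fintype.card_prod, Fintype.card_fun, Fintype.card_fun, Fintype.card_fin, pow_add]

section count

variable {p k : ℕ} [Fact p.Prime] {E : Type*} [Fintype E] [DecidableEq E]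

private theorem U12_uniq {a : (ZMod p)ˣ} {b : ZMod p} {u u' : (ZMod p)ˣ}
    (h : (u : ZMod p) * a + b = 0) (h' : (u' : ZMod p) * a + b = 0) : u = u' := by
  have h1 : (u : ZMod p) * a = (u' : ZMod p) * a := by
    linear_combination h - h'
  exact Units.ext (a.mul_left_inj.mp h1)

private theorem U12_ne (a b : (ZMod p)ˣ) : (a : ZMod p) * ((b⁻¹ : (ZMod p)ˣ) : ZMod p) ≠ 0 :=
  mul_ne_zero a.ne_zero (b⁻¹).ne_zero

/-- the coefficient of `g` vanishes rarely -/
private theorem U12_a1 (c c' : E → Fin (k + 1)) (y y' : Fin k → (ZMod p)ˣ) (be : ℕ → (ZMod p)ˣ)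
    {i j : ℕ} (hi : i ≤ k) (hj : j ≤ k) {m₁ m₂ : Fin (k + 1)} (hm : m₁ < m₂) :
    ((univ : Finset ((Fin (k + 1) → (ZMod p)ˣ) × (E → (ZMod p)ˣ))).filter fun w =>
      Mi (ex (k + 1) w.1) be (pr k (xa w.1 (sl c y w.2))) i *
        U12_P m₁ m₂ (ex (k + 1) w.1) be (pr k (xa w.1 (sl c' y' w.2))) -
      Sg (k + 1) (ex (k + 1) w.1) be (pr k (xa w.1 (sl c y w.2))) *
        U12_G m₁ m₂ j (ex (k + 1) w.1) be (pr k (xa w.1 (sl c' y' w.2))) = 0).card ≤
      2 * (p - 1) ^ (k + Fintype.card E) := by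
  classical
  have hH : Fintype.card (ZMod p)ˣ = p - 1 := ZMod.card_units p
  have hm' : (m₁ : ℕ) < m₂ := hm
  have hmk : (m₂ : ℕ) ≤ k := by
    have := m₂.2
    omega
  -- the coordinate `m₂` and the sum `P`
  have cP : ∀ (al : Fin (k + 1) → (ZMod p)ˣ) (x : Fin k → (ZMod p)ˣ) (u u' : (ZMod p)ˣ),
      U12_P m₁ m₂ (ex (k + 1) (Function.update al m₂ u)) be
        (pr k (xa (Function.update al m₂ u) x)) = 0 →
      U12_P m₁ m₂ (ex (k + 1) (Function.update al m₂ u')) be
        (pr k (xa (Function.update al m₂ u') x)) = 0 → u = u' := by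
    intro al x u u' h h'
    obtain ⟨a, b, hab⟩ := U12_aff al be x m₂ hm'
    rw [hab] at h h'
    exact U12_uniq h h'
  -- a unit plus a sum, coordinate `m`
  have cU : ∀ (l : ℕ) (m : Fin (k + 1)), l ≤ m →
      ∀ (al : Fin (k + 1) → (ZMod p)ˣ) (x : Fin k → (ZMod p)ˣ) (u u' : (ZMod p)ˣ),
      ((pr k (xa (Function.update al m u) x) l : (ZMod p)ˣ) : ZMod p) * (((be l)⁻¹ : (ZMod p)ˣ) : ZMod p) +
        U12_P l m (ex (k + 1) (Function.update al m u)) be
          (pr k (xa (Function.update al m u) x)) = 0 →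
      ((pr k (xa (Function.update al m u') x) l : (ZMod p)ˣ) : ZMod p) * (((be l)⁻¹ : (ZMod p)ˣ) : ZMod p) +
        U12_P l m (ex (k + 1) (Function.update al m u')) be
          (pr k (xa (Function.update al m u') x)) = 0 → u = u' := by
    intro l m hl al x u u' h h'
    have hmk' : (m : ℕ) ≤ k := by
      have := m.2
      omega
    rcases Nat.lt_or_ge l m with hlt | hge
    · obtain ⟨a, b, hab⟩ := U12_aff al be x m hlt
      rw [hab, U12_pr al x m _ (by omega) hlt] at h h'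
      refine U12_uniq (a := a) (b := b + ((pr k (xa al x) l : (ZMod p)ˣ) : ZMod p) *
        (((be l)⁻¹ : (ZMod p)ˣ) : ZMod p)) ?_ ?_
      · linear_combination h
      · linear_combination h'
    · exfalso
      have h1 : Ioc l (m : ℕ) = ∅ := Ioc_eq_empty (by omega)
      unfold U12_P at h
      rw [h1, sum_empty, add_zero] at h
      exact U12_ne _ _ h
  rcases Nat.lt_or_ge (m₂ : ℕ) j with hjm | hjm
  · -- `j > k₂`
    have hG : ∀ al q : ℕ → (ZMod p)ˣ, U12_G m₁ m₂ j al be q = -U12_P m₁ m₂ al be q := by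
      intro al q
      unfold U12_G U12_P
      rw [if_neg (by omega), zero_sub]
      congr 2
      ext x
      rw [mem_filter, mem_range, mem_Ioc]
      omega
    have hsub : ((univ : Finset ((Fin (k + 1) → (ZMod p)ˣ) × (E → (ZMod p)ˣ))).filter fun w =>
      Mi (ex (k + 1) w.1) be (pr k (xa w.1 (sl c y w.2))) i *
        U12_P m₁ m₂ (ex (k + 1) w.1) be (pr k (xa w.1 (sl c' y' w.2))) -
      Sg (k + 1) (ex (k + 1) w.1) be (pr k (xa w.1 (sl c y w.2))) *
        U12_G m₁ m₂ j (ex (k + 1) w.1) be (pr k (xa w.1 (sl c' y' w.2))) = 0) ⊆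
        ((univ : Finset ((Fin (k + 1) → (ZMod p)ˣ) × (E → (ZMod p)ˣ))).filter fun w =>
          U12_P m₁ m₂ (ex (k + 1) w.1) be (pr k (xa w.1 (sl c' y' w.2))) = 0) ∪
        ((univ : Finset ((Fin (k + 1) → (ZMod p)ˣ) × (E → (ZMod p)ˣ))).filter fun w =>
          ((pr k (xa w.1 (sl c y w.2)) i : (ZMod p)ˣ) : ZMod p) * (((be i)⁻¹ : (ZMod p)ˣ) : ZMod p) +
          U12_P i (Fin.last k : Fin (k + 1)) (ex (k + 1) w.1) be
            (pr k (xa w.1 (sl c y w.2))) = 0) := by
      rintro ⟨al, s⟩ hw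
      rw [mem_filter] at hw
      rw [mem_union, mem_filter, mem_filter]
      have h1 := hw.2
      rw [hG] at h1
      have h2 := Ni_eq (k + 1) (ex (k + 1) al) be (pr k (xa al (sl c y s))) i (by omega)
      unfold Ni at h2
      have h3 : Ico (i + 1) (k + 1) = Ioc i ((Fin.last k : Fin (k + 1)) : ℕ) := by
        ext x
        rw [mem_Ico, mem_Ioc, Fin.val_last]
        omega
      rw [h3] at h2
      have h4 : (((pr k (xa al (sl c y s)) i : (ZMod p)ˣ) : ZMod p) * (((be i)⁻¹ : (ZMod p)ˣ) : ZMod p) +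
          U12_P i (Fin.last k : Fin (k + 1)) (ex (k + 1) al) be (pr k (xa al (sl c y s)))) *
          U12_P m₁ m₂ (ex (k + 1) al) be (pr k (xa al (sl c' y' s))) = 0 := by
        unfold U12_P at h1 ⊢
        rw [← h2]
        linear_combination h1
      rcases mul_eq_zero.mp h4 with h5 | h5
      · exact Or.inr ⟨mem_univ _, h5⟩
      · exact Or.inl ⟨mem_univ _, h5⟩
    refine (card_le_card hsub).trans ((card_union_le _ _).trans ?_)
    rw [two_mul]
    refine Nat.add_le_add ?_ ?_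
    · rw [← hH]
      exact U12_coord m₂ _ (fun al s u u' h h' => cP al _ u u' h h')
    · rw [← hH]
      exact U12_coord (Fin.last k) _ (fun al s u u' h h' =>
        cU i (Fin.last k) (by rw [Fin.val_last]; exact hi) al _ u u' h h')
  · -- `j ≤ k₂`
    have hsub : ((univ : Finset ((Fin (k + 1) → (ZMod p)ˣ) × (E → (ZMod p)ˣ))).filter fun w =>
      Mi (ex (k + 1) w.1) be (pr k (xa w.1 (sl c y w.2))) i *
        U12_P m₁ m₂ (ex (k + 1) w.1) be (pr k (xa w.1 (sl c' y' w.2))) -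
      Sg (k + 1) (ex (k + 1) w.1) be (pr k (xa w.1 (sl c y w.2))) *
        U12_G m₁ m₂ j (ex (k + 1) w.1) be (pr k (xa w.1 (sl c' y' w.2))) = 0) ⊆
        ((univ : Finset ((Fin (k + 1) → (ZMod p)ˣ) × (E → (ZMod p)ˣ))).filter fun w =>
          U12_P m₁ m₂ (ex (k + 1) w.1) be (pr k (xa w.1 (sl c' y' w.2))) +
          U12_G m₁ m₂ j (ex (k + 1) w.1) be (pr k (xa w.1 (sl c' y' w.2))) = 0) ∪
        ((univ : Finset ((Fin (k + 1) → (ZMod p)ˣ) × (E → (ZMod p)ˣ))).filter fun w =>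
          U12_P m₁ m₂ (ex (k + 1) w.1) be (pr k (xa w.1 (sl c' y' w.2))) +
          U12_G m₁ m₂ j (ex (k + 1) w.1) be (pr k (xa w.1 (sl c' y' w.2))) ≠ 0 ∧
      Mi (ex (k + 1) w.1) be (pr k (xa w.1 (sl c y w.2))) i *
        U12_P m₁ m₂ (ex (k + 1) w.1) be (pr k (xa w.1 (sl c' y' w.2))) -
      Sg (k + 1) (ex (k + 1) w.1) be (pr k (xa w.1 (sl c y w.2))) *
        U12_G m₁ m₂ j (ex (k + 1) w.1) be (pr k (xa w.1 (sl c' y' w.2))) = 0) := by
      rintro ⟨al, s⟩ hw
      rw [mem_filter] at hw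
      rw [mem_union, mem_filter, mem_filter]
      by_cases h0 : U12_P m₁ m₂ (ex (k + 1) al) be (pr k (xa al (sl c' y' s))) +
          U12_G m₁ m₂ j (ex (k + 1) al) be (pr k (xa al (sl c' y' s))) = 0
      · exact Or.inl ⟨mem_univ _, h0⟩
      · exact Or.inr ⟨mem_univ _, h0, hw.2⟩
    refine (card_le_card hsub).trans ((card_union_le _ _).trans ?_)
    rw [two_mul]
    refine Nat.add_le_add ?_ ?_
    · rw [← hH]
      rcases Nat.lt_or_ge (m₁ : ℕ) j with hj1 | hj1
      · -- `k₁ < j ≤ k₂`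
        have hHh : ∀ al q : ℕ → (ZMod p)ˣ, U12_P m₁ m₂ al be q + U12_G m₁ m₂ j al be q =
            (q j : ZMod p) * (((be j)⁻¹ : (ZMod p)ˣ) : ZMod p) + U12_P j m₂ al be q := by
          intro al q
          unfold U12_G U12_P
          rw [if_pos ⟨hj1, hjm⟩]
          have h1 : Ioc (m₁ : ℕ) m₂ = ((range j).filter
              (fun h => (m₁ : ℕ) < h ∧ h ≤ (m₂ : ℕ))) ∪ insert j (Ioc j (m₂ : ℕ)) := by
            ext x
            rw [mem_union, mem_insert, mem_filter, mem_range, mem_Ioc, mem_Ioc]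
            omega
          have h2 : Disjoint ((range j).filter (fun h => (m₁ : ℕ) < h ∧ h ≤ (m₂ : ℕ)))
              (insert j (Ioc j (m₂ : ℕ))) := by
            rw [disjoint_left]
            intro x hx hx'
            rw [mem_filter, mem_range] at hx
            rw [mem_insert, mem_Ioc] at hx'
            omega
          have h3 : j ∉ Ioc j (m₂ : ℕ) := by
            rw [mem_Ioc]
            omega
          rw [h1, sum_union h2, sum_insert h3]
          unfold et
          ring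
        refine U12_coord m₂ _ (fun al s u u' h h' => cU j m₂ hjm al (sl c' y' s) u u' ?_ ?_)
        · rw [← hHh]
          exact h
        · rw [← hHh]
          exact h'
      · have hG : ∀ al q : ℕ → (ZMod p)ˣ, U12_G m₁ m₂ j al be q = 0 := by
          intro al q
          unfold U12_G
          rw [if_neg (by omega)]
          have h1 : (range j).filter (fun h => (m₁ : ℕ) < h ∧ h ≤ (m₂ : ℕ)) = ∅ := by
            rw [eq_empty_iff_forall_notMem]
            intro x hx
            rw [mem_filter, mem_range] at hx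
            omega
          rw [h1, sum_empty, sub_zero]
        refine U12_coord m₂ _ (fun al s u u' h h' => cP al (sl c' y' s) u u' ?_ ?_)
        · rw [hG, add_zero] at h
          exact h
        · rw [hG, add_zero] at h'
          exact h'
    · -- the coordinate `0`
      rw [← hH]
      refine U12_coord 0 _ (fun al s u u' h h' => ?_)
      simp only at h h'
      rw [U12_pr0, U12_pr0] at h h'
      have hq0 : pr k (xa al (sl c y s)) 0 = 1 := pr_zero _
      obtain ⟨t₀, ht⟩ := U13_Mi (ex (k + 1) al) be (pr k (xa al (sl c y s))) hq0 i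
      have hS : ∀ u, Sg (k + 1) (Function.update (ex (k + 1) al) 0 u) be
          (pr k (xa al (sl c y s))) = _ :=
        fun u => U13_Sg (by omega) (ex (k + 1) al) be (pr k (xa al (sl c y s))) hq0 u
      obtain ⟨s₀, hs₀⟩ : ∃ s₀ : ZMod p, s₀ = ((((be 0)⁻¹ : (ZMod p)ˣ) : ZMod p) +
        ∑ j ∈ Ico 1 (k + 1), ((pr k (xa al (sl c y s)) j : (ZMod p)ˣ) : ZMod p) * et (ex (k + 1) al) be j) :=
        ⟨_, rfl⟩
      have hex : ∀ u, ex (k + 1) (Function.update al 0 u) =
          Function.update (ex (k + 1) al) 0 u := fun u => U12_ex al 0 u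
      have hPu : ∀ u, U12_P m₁ m₂ (Function.update (ex (k + 1) al) 0 u) be
          (pr k (xa al (sl c' y' s))) =
          U12_P m₁ m₂ (ex (k + 1) al) be (pr k (xa al (sl c' y' s))) := by
        intro u
        unfold U12_P et
        refine sum_congr rfl fun h hh => ?_
        rw [mem_Ioc] at hh
        rw [Function.update_of_ne (by omega)]
      have hGu : ∀ u, U12_G m₁ m₂ j (Function.update (ex (k + 1) al) 0 u) be
          (pr k (xa al (sl c' y' s))) =
          U12_G m₁ m₂ j (ex (k + 1) al) be (pr k (xa al (sl c' y' s))) := by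
        intro u
        unfold U12_G et
        congr 1
        · split_ifs with h0
          · rw [Function.update_of_ne (by omega)]
          · rfl
        · refine sum_congr rfl fun h hh => ?_
          rw [mem_filter] at hh
          rw [Function.update_of_ne (by omega)]
      rw [hex, hPu, hGu, ht, hS, ← hs₀] at h h'
      obtain ⟨P, hP⟩ : ∃ P : ZMod p, P = U12_P m₁ m₂ (ex (k + 1) al) be
        (pr k (xa al (sl c' y' s))) := ⟨_, rfl⟩
      obtain ⟨G, hG⟩ : ∃ G : ZMod p, G = U12_G m₁ m₂ j (ex (k + 1) al) be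
        (pr k (xa al (sl c' y' s))) := ⟨_, rfl⟩
      rw [← hP, ← hG] at h h'
      have h1 : (((u⁻¹ : (ZMod p)ˣ) : ZMod p) - ((u'⁻¹ : (ZMod p)ˣ) : ZMod p)) * (P + G) = 0 := by
        linear_combination h.2 - h'.2
      rcases mul_eq_zero.mp h1 with h2 | h2
      · have h3 : u⁻¹ = u'⁻¹ := Units.ext (sub_eq_zero.mp h2)
        exact inv_injective h3
      · exact absurd h2 h.1

theorem U12 {p k : ℕ} [Fact p.Prime] {E : Type*} [Fintype E] [DecidableEq E] (c c' : E → Fin (k + 1))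
    (hcc : ¬ ∃ ψ : Fin (k + 1) → Fin (k + 1), c' = ψ ∘ c) (y y' : Fin k → (ZMod p)ˣ) (be : ℕ → (ZMod p)ˣ) {i j : ℕ} (hi : i ≤ k) (hj : j ≤ k) :
    ((univ : Finset ((Fin (k + 1) → (ZMod p)ˣ) × (E → (ZMod p)ˣ))).filter fun w =>
      Mi (ex (k + 1) w.1) be (pr k (xa w.1 (sl c y w.2))) i * Sg (k + 1) (ex (k + 1) w.1) be (pr k (xa w.1 (sl c' y' w.2))) =
      Mi (ex (k + 1) w.1) be (pr k (xa w.1 (sl c' y' w.2))) j * Sg (k + 1) (ex (k + 1) w.1) be (pr k (xa w.1 (sl c y w.2)))).card ≤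
      3 * (p - 1) ^ (k + Fintype.card E) := by
  classical
  have hH : Fintype.card (ZMod p)ˣ = p - 1 := ZMod.card_units p
  have hp1 : 0 < p - 1 := by
    have := (Fact.out : p.Prime).two_le
    omega
  obtain ⟨f₁, f₂, hc1, hc2⟩ := T10_move k c c' hcc
  obtain ⟨m₁, hm₁⟩ : ∃ m₁, m₁ = c' f₁ := ⟨_, rfl⟩
  obtain ⟨m₂, hm₂⟩ : ∃ m₂, m₂ = c' f₂ := ⟨_, rfl⟩
  have hmk : (m₂ : ℕ) ≤ k := by
    have := m₂.2
    omega
  have h12 : m₁ < m₂ := by
    rw [hm₁, hm₂]
    exact hc2
  have hN1 := U12_a1 c c' y y' be hi hj h12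
  -- the difference and the coefficient
  obtain ⟨D, hD⟩ : ∃ D : (Fin (k + 1) → (ZMod p)ˣ) → (E → (ZMod p)ˣ) → ZMod p, ∀ al s, D al s =
      Mi (ex (k + 1) al) be (pr k (xa al (sl c y s))) i *
        Sg (k + 1) (ex (k + 1) al) be (pr k (xa al (sl c' y' s))) -
      Mi (ex (k + 1) al) be (pr k (xa al (sl c' y' s))) j *
        Sg (k + 1) (ex (k + 1) al) be (pr k (xa al (sl c y s))) := ⟨_, fun _ _ => rfl⟩
  obtain ⟨a1, ha1⟩ : ∃ a1 : (Fin (k + 1) → (ZMod p)ˣ) → (E → (ZMod p)ˣ) → ZMod p,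
      ∀ al s, a1 al s = Mi (ex (k + 1) al) be (pr k (xa al (sl c y s))) i *
        U12_P m₁ m₂ (ex (k + 1) al) be (pr k (xa al (sl c' y' s))) -
      Sg (k + 1) (ex (k + 1) al) be (pr k (xa al (sl c y s))) *
        U12_G m₁ m₂ j (ex (k + 1) al) be (pr k (xa al (sl c' y' s))) := ⟨_, fun _ _ => rfl⟩
  have hmove : ∀ al s (g : (ZMod p)ˣ), D al (fun e => s e * mv f₁ f₂ g e) =
      D al s + ((g : ZMod p) - 1) * a1 al s := by
    intro al s g
    have hq : ∀ h ≤ k, pr k (xa al (sl c' y' (fun e => s e * mv f₁ f₂ g e))) h =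
        (if (m₁ : ℕ) < h ∧ h ≤ (m₂ : ℕ) then g else 1) * pr k (xa al (sl c' y' s)) h := by
      intro h hh
      rw [U10_pr _ _ hh, U10_pr _ _ hh, U10_c' hc2 y' s g hh, ← hm₁, ← hm₂]
      exact mul_left_comm _ _ _
    rw [hD, hD, ha1, U10_c hc1, U12_Sg hmk _ be _ _ g hq, U12_Mi hj _ be _ _ g hq]
    ring
  have hfilt : ((univ : Finset ((Fin (k + 1) → (ZMod p)ˣ) × (E → (ZMod p)ˣ))).filter fun w =>
      Mi (ex (k + 1) w.1) be (pr k (xa w.1 (sl c y w.2))) i * Sg (k + 1) (ex (k + 1) w.1) be (pr k (xa w.1 (sl c' y' w.2))) =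
      Mi (ex (k + 1) w.1) be (pr k (xa w.1 (sl c' y' w.2))) j * Sg (k + 1) (ex (k + 1) w.1) be (pr k (xa w.1 (sl c y w.2)))) =
      ((univ : Finset ((Fin (k + 1) → (ZMod p)ˣ) × (E → (ZMod p)ˣ))).filter
        fun w => D w.1 w.2 = 0) := by
    refine filter_congr fun w _ => ?_
    rw [hD, sub_eq_zero]
  rw [hfilt]
  have hfilt1 : ((univ : Finset ((Fin (k + 1) → (ZMod p)ˣ) × (E → (ZMod p)ˣ))).filter
        fun w => a1 w.1 w.2 = 0).card ≤ 2 * (p - 1) ^ (k + Fintype.card E) := by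
    refine le_trans (le_of_eq ?_) hN1
    congr 1
    refine filter_congr fun w _ => ?_
    rw [ha1]
  -- the number of `g`
  have hg : ∀ al s, ∑ g : (ZMod p)ˣ,
      (if D al (fun e => s e * mv f₁ f₂ g e) = 0 then (1 : ℝ) else 0) ≤
      1 + (p - 1 : ℕ) * (if a1 al s = 0 then (1 : ℝ) else 0) := by
    intro al s
    by_cases h0 : a1 al s = 0
    · rw [if_pos h0, mul_one]
      have h1 : ∑ g : (ZMod p)ˣ, (if D al (fun e => s e * mv f₁ f₂ g e) = 0 then (1 : ℝ) else 0) ≤
          ∑ _g : (ZMod p)ˣ, (1 : ℝ) := by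
        refine sum_le_sum fun g _ => ?_
        split_ifs
        · exact le_rfl
        · exact zero_le_one
      rw [sum_const, card_univ, hH, nsmul_eq_mul, mul_one] at h1
      linarith
    · rw [if_neg h0, mul_zero, add_zero, ← Finset.sum_filter, sum_const, nsmul_eq_mul, mul_one]
      have h1 : ((univ : Finset (ZMod p)ˣ).filter
          fun g => D al (fun e => s e * mv f₁ f₂ g e) = 0).card ≤ 1 := by
        rw [card_le_one]
        intro g hg g' hg'
        rw [mem_filter, hmove] at hg hg'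
        have h2 : ((g : ZMod p) - g') * a1 al s = 0 := by
          linear_combination hg.2 - hg'.2
        rcases mul_eq_zero.mp h2 with h3 | h3
        · exact Units.ext (sub_eq_zero.mp h3)
        · exact absurd h3 h0
      exact_mod_cast h1
  obtain ⟨N, hN⟩ : ∃ N : ℕ, N = ((univ : Finset ((Fin (k + 1) → (ZMod p)ˣ) × (E → (ZMod p)ˣ))).filter
        fun w => D w.1 w.2 = 0).card := ⟨_, rfl⟩
  obtain ⟨N1, hN1'⟩ : ∃ N1 : ℕ, N1 = ((univ : Finset ((Fin (k + 1) → (ZMod p)ˣ) × (E → (ZMod p)ˣ))).filter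
        fun w => a1 w.1 w.2 = 0).card := ⟨_, rfl⟩
  rw [← hN]
  rw [← hN1'] at hfilt1
  have e1 : (N : ℝ) = ∑ al : Fin (k + 1) → (ZMod p)ˣ, ∑ s : E → (ZMod p)ˣ,
      (if D al s = 0 then (1 : ℝ) else 0) := by
    rw [hN, card_filter, ← univ_product_univ, sum_product]
    push_cast
    rfl
  have e2 : (N1 : ℝ) = ∑ al : Fin (k + 1) → (ZMod p)ˣ, ∑ s : E → (ZMod p)ˣ,
      (if a1 al s = 0 then (1 : ℝ) else 0) := by
    rw [hN1', card_filter, ← univ_product_univ, sum_product]
    push_cast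
    rfl
  have e3 : ((p - 1 : ℕ) : ℝ) * N ≤ ((p - 1 : ℕ) : ℝ) ^ (k + 1 + Fintype.card E) +
      ((p - 1 : ℕ) : ℝ) * N1 := by
    rw [e1, e2, mul_sum, mul_sum]
    have h1 : ∀ al : Fin (k + 1) → (ZMod p)ˣ, ((p - 1 : ℕ) : ℝ) * ∑ s : E → (ZMod p)ˣ,
        (if D al s = 0 then (1 : ℝ) else 0) ≤ ((p - 1 : ℕ) : ℝ) ^ Fintype.card E +
        ((p - 1 : ℕ) : ℝ) * ∑ s : E → (ZMod p)ˣ, (if a1 al s = 0 then (1 : ℝ) else 0) := by
      intro al
      have h2 := U10_sum (H := (ZMod p)ˣ) f₁ f₂ (fun s => if D al s = 0 then (1 : ℝ) else 0)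
      rw [hH] at h2
      rw [h2]
      refine (sum_le_sum fun s _ => hg al s).trans ?_
      rw [sum_add_distrib, ← mul_sum, sum_const, card_univ, Fintype.card_fun, hH, nsmul_eq_mul,
        mul_one]
      push_cast
      exact le_rfl
    refine (sum_le_sum fun al _ => h1 al).trans ?_
    rw [sum_add_distrib, sum_const, card_univ, Fintype.card_fun, hH, Fintype.card_fin,
      nsmul_eq_mul]
    push_cast
    rw [← pow_add]
  have hpR : (0 : ℝ) < ((p - 1 : ℕ) : ℝ) := by exact_mod_cast hp1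
  have e4 : (N1 : ℝ) ≤ 2 * ((p - 1 : ℕ) : ℝ) ^ (k + Fintype.card E) := by exact_mod_cast hfilt1
  have e5 : (N : ℝ) ≤ 3 * ((p - 1 : ℕ) : ℝ) ^ (k + Fintype.card E) := by
    have h1 : ((p - 1 : ℕ) : ℝ) * N ≤ ((p - 1 : ℕ) : ℝ) *
        (3 * ((p - 1 : ℕ) : ℝ) ^ (k + Fintype.card E)) := by
      have h2 : ((p - 1 : ℕ) : ℝ) ^ (k + 1 + Fintype.card E) =
          ((p - 1 : ℕ) : ℝ) * ((p - 1 : ℕ) : ℝ) ^ (k + Fintype.card E) := by
        rw [← pow_succ']
        congr 1
        omega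
      rw [h2] at e3
      have h3 := mul_le_mul_of_nonneg_left e4 hpR.le
      linarith
    exact le_of_mul_le_mul_left h1 hpR
  exact_mod_cast e5

end count

end Pool.Agent.Lib.TC
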