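import Pool.Agent.Lib.MP_7b7e48_nt.TC.LocP
import Pool.Agent.Lib.MP_7b7e48_nt.TC.U12

/-!
# L4: coinciding roots modulo `p` in the notation of `PDefs`

* `L4`: `U12`, `pj_eq`, `av_ind`; `|(ZMod p)ˣ| = p - 1`.
* `L4_zero`: `Ti = DN M_i - (x₀ - DN) Sg`, with `Sg = S₀ - 1/u`, `M_i = t + 1/u` (`U13_Sg`, `U13_Mi`): `Ti = x₀/u + (DN t - (x₀ - DN) S₀)`, at most one `u` if `x₀ ≠ 0`.
  (`pj` does not contain `al 0`; `Loc.ex (k+1) (update al 0 u) = update (Loc.ex (k+1) al) 0 u`.)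
-/

set_option autoImplicit false

open Finset

namespace Pool.Agent.Lib.TC

theorem L4 {p k : ℕ} [Fact p.Prime] {E : Type*} [Fintype E] [DecidableEq E] (c c' : E → Fin (k + 1))
    (hcc : ¬ ∃ ψ : Fin (k + 1) → Fin (k + 1), c' = ψ ∘ c) (be : ℕ → (ZMod p)ˣ) (y y' : Fin k → (ZMod p)ˣ) {i j : ℕ} (hi : i ≤ k) (hj : j ≤ k) :
    av (fun w : (Fin (k + 1) → (ZMod p)ˣ) × (E → (ZMod p)ˣ) => ind (
      Loc.Mi (Loc.ex (k + 1) w.1) be (pj c w.1 y w.2) i * Loc.Sg (k + 1) (Loc.ex (k + 1) w.1) be (pj c' w.1 y' w.2) =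
      Loc.Mi (Loc.ex (k + 1) w.1) be (pj c' w.1 y' w.2) j * Loc.Sg (k + 1) (Loc.ex (k + 1) w.1) be (pj c w.1 y w.2))) ≤
      3 / ((p : ℝ) - 1) := by
  have h1 := U12 c c' hcc y y' be hi hj
  rw [av_ind]
  have hp2 := (Fact.out : p.Prime).two_le
  have hH : Fintype.card (ZMod p)ˣ = p - 1 := ZMod.card_units p
  have hp1 : (0 : ℝ) < (p : ℝ) - 1 := by
    have : (2 : ℝ) ≤ p := by exact_mod_cast hp2
    linarith
  have hp3 : (((p - 1 : ℕ) : ℕ) : ℝ) = (p : ℝ) - 1 := by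
    rw [Nat.cast_sub (by omega)]
    norm_num
  rw [Fintype.card_prod, Fintype.card_fun, Fintype.card_fun, hH, Fintype.card_fin, ← pow_add,
    Nat.cast_pow, hp3, div_le_div_iff₀ (pow_pos hp1 _) hp1]
  have h2 : (((univ : Finset ((Fin (k + 1) → (ZMod p)ˣ) × (E → (ZMod p)ˣ))).filter fun w =>
      Loc.Mi (Loc.ex (k + 1) w.1) be (pj c w.1 y w.2) i * Loc.Sg (k + 1) (Loc.ex (k + 1) w.1) be (pj c' w.1 y' w.2) =
      Loc.Mi (Loc.ex (k + 1) w.1) be (pj c' w.1 y' w.2) j *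
        Loc.Sg (k + 1) (Loc.ex (k + 1) w.1) be (pj c w.1 y w.2)).card : ℝ) ≤
      3 * ((p : ℝ) - 1) ^ (k + Fintype.card E) := by
    rw [← hp3]
    exact_mod_cast h1
  have h3 : ((p : ℝ) - 1) ^ (k + 1 + Fintype.card E) = ((p : ℝ) - 1) ^ (k + Fintype.card E) * ((p : ℝ) - 1) := by
    rw [← pow_succ]
    congr 1
    omega
  rw [h3, ← mul_assoc]
  exact mul_le_mul_of_nonneg_right h2 hp1.le

private theorem L4_ex {H : Type*} [CommGroup H] {k : ℕ} (al : Fin (k + 1) → H) (w : H) :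
    Loc.ex (k + 1) (Function.update al 0 w) = Function.update (Loc.ex (k + 1) al) 0 w := by
  funext l
  rcases Nat.eq_zero_or_pos l with h | h
  · subst h
    rw [Function.update_self, Loc.ex_lt _ (Nat.succ_pos k)]
    exact Function.update_self (0 : Fin (k + 1)) w al
  · rw [Function.update_of_ne h.ne']
    by_cases hl : l < k + 1
    · rw [Loc.ex_lt _ hl, Loc.ex_lt _ hl, Function.update_of_ne]
      intro h'
      have := congrArg Fin.val h'
      simp at this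
      omega
    · rw [Loc.ex_ge _ (by omega), Loc.ex_ge _ (by omega)]

private theorem L4_pj {H E : Type*} [CommGroup H] [Fintype E] {k : ℕ} (c : E → Fin (k + 1)) (al : Fin (k + 1) → H)
    (y : Fin k → H) (s : E → H) (u : H) : pj c (Function.update al 0 u) y s = pj c al y s := by
  unfold pj
  congr 1

theorem L4_zero {p k : ℕ} [Fact p.Prime] {E : Type*} [Fintype E] [DecidableEq E] (c : E → Fin (k + 1)) (be : ℕ → (ZMod p)ˣ) (y : Fin k → (ZMod p)ˣ)
    (al : Fin (k + 1) → (ZMod p)ˣ) (s : E → (ZMod p)ˣ) {i : ℕ} (hi : i ≤ k) (DN x₀ : ZMod p) (hx : x₀ ≠ 0) :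
    av (fun u : (ZMod p)ˣ => ind (Loc.Ti (k + 1) (Loc.ex (k + 1) (Function.update al 0 u)) be (pj c (Function.update al 0 u) y s) DN (x₀ - DN) i = 0)) ≤
      1 / ((p : ℝ) - 1) := by
  have hp2 := (Fact.out : p.Prime).two_le
  have hH : Fintype.card (ZMod p)ˣ = p - 1 := ZMod.card_units p
  have hp1 : (0 : ℝ) < (p : ℝ) - 1 := by
    have : (2 : ℝ) ≤ p := by exact_mod_cast hp2
    linarith
  have hp3 : (((p - 1 : ℕ) : ℕ) : ℝ) = (p : ℝ) - 1 := by
    rw [Nat.cast_sub (by omega)]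
    norm_num
  rw [av_ind, hH, hp3]
  apply div_le_div_of_nonneg_right _ hp1.le
  have h1 : ((univ : Finset (ZMod p)ˣ).filter fun u =>
      Loc.Ti (k + 1) (Loc.ex (k + 1) (Function.update al 0 u)) be (pj c (Function.update al 0 u) y s) DN
        (x₀ - DN) i = 0).card ≤ 1 := by
    rw [Finset.card_le_one]
    intro u hu u' hu'
    rw [mem_filter, L4_ex, L4_pj] at hu hu'
    have hq : pj c al y s 0 = 1 := Loc.pr_zero _
    obtain ⟨t, ht⟩ := U13_Mi (Loc.ex (k + 1) al) be (pj c al y s) hq i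
    have h2 := hu.2
    have h3 := hu'.2
    unfold Loc.Ti at h2 h3
    rw [U13_Sg (by omega) _ _ _ hq, ht] at h2 h3
    have h4 : x₀ * (((u⁻¹ : (ZMod p)ˣ) : ZMod p) - ((u'⁻¹ : (ZMod p)ˣ) : ZMod p)) = 0 := by
      linear_combination h2 - h3
    rcases mul_eq_zero.1 h4 with h5 | h5
    · exact absurd h5 hx
    · exact inv_injective (Units.ext (sub_eq_zero.1 h5))
  exact_mod_cast h1

end Pool.Agent.Lib.TC
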