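import Pool.Agent.Lib.MP_7b7e48_nt.TC.Q08
import Pool.Agent.Lib.MP_7b7e48_nt.TC.POK
import Pool.Agent.Lib.MP_7b7e48_nt.TC.L4

/-!
# Q16: coinciding roots modulo `p1` (8.3)

`q = p1^(v+1) = p1` (`v = padicValNat p1 D = 0` as `p1 ∤ D`); transport everything to a prime modulus (generalise `q` with `q = p1`, `subst`). The first part of `coin` is the union over `i, j ≤ k` of the events of `U12`:
each has at most `3 (p-1)^(k+|E|)` of the `(p-1)^(k+1+|E|)` pairs `(α, s)`. The second part (only if `t2`, `x0 ≠ 0`): `Ti = D N M_i - (x0 - D N) Sg = 0` iff `M_i = k₀ Sg`, `k₀ = (x0 - D N)/(D N)`, `1 + k₀ = x0/(D N)` is a unit: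
for given `α_1, …, α_k`, `s` at most one `α_0` (`U13_k0`; the `p_j` do not contain `α_0`), proportion `1/(p-1)`, for each `i` and each of `c`, `c'`. Total `≤ (3 (k+1)² + 2 (k+1))/(p1 - 1)`.
-/

set_option autoImplicit false

open Finset

namespace Pool.Agent.Lib.TC

private theorem Q16_or (P Q : Prop) : ind (P ∨ Q) ≤ ind P + ind Q := by
  by_cases hP : P
  · rw [ind_true (Or.inl hP : P ∨ Q), ind_true hP]
    linarith [ind_nonneg Q]
  · by_cases hQ : Q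
    · rw [ind_true (Or.inr hQ : P ∨ Q), ind_true hQ]
      linarith [ind_nonneg P]
    · rw [ind_false (fun h : P ∨ Q => h.elim hP hQ)]
      exact add_nonneg (ind_nonneg P) (ind_nonneg Q)

private theorem Q16_ex (n : ℕ) (P : ℕ → Prop) : ind (∃ i ≤ n, P i) ≤ ∑ i ∈ range (n + 1), ind (P i) := by
  by_cases h : ∃ i ≤ n, P i
  · rw [ind_true h]
    obtain ⟨i, hi, hP⟩ := h
    rw [← ind_true hP]
    exact single_le_sum (f := fun i => ind (P i)) (fun j _ => ind_nonneg (P j)) (mem_range.2 (Nat.lt_succ_of_le hi))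
  · rw [ind_false h]
    exact sum_nonneg fun j _ => ind_nonneg (P j)

private theorem Q16_swap {α β : Type*} [Finite α] [Finite β] (f : α → β → ℝ) :
    av (fun a => av fun b => f a b) = av fun b => av fun a => f a b := by
  have h1 := av_fub (fun w : α × β => f w.1 w.2)
  have h2 := av_fub (fun w : β × α => f w.2 w.1)
  have h3 := av_equiv (Equiv.prodComm α β) (fun w : β × α => f w.2 w.1)
  exact h1.symm.trans (h3.trans h2)

/-- it suffices to average over the coordinate `0` -/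
private theorem Q16_upd {H : Type*} [Finite H] [Nonempty H] {k : ℕ} (F : (Fin (k + 1) → H) → ℝ) {C : ℝ}
    (h : ∀ al : Fin (k + 1) → H, av (fun u : H => F (Function.update al 0 u)) ≤ C) : av F ≤ C := by
  classical
  let u0 : H := Classical.arbitrary H
  have h1 := av_equiv (Fin.insertNthEquiv (fun _ : Fin (k + 1) => H) 0) F
  rw [← h1, av_fub, Q16_swap]
  have h2 : ∀ b : Fin k → H, av (fun a : H => F (Fin.insertNthEquiv (fun _ : Fin (k + 1) => H) 0 (a, b))) ≤ C := by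
    intro b
    refine le_trans (le_of_eq ?_) (h (Fin.insertNthEquiv (fun _ : Fin (k + 1) => H) 0 (u0, b)))
    refine av_congr fun a => congrArg F ?_
    funext i
    refine Fin.cases ?_ (fun j => ?_) i
    · simp [Fin.insertNthEquiv]
    · simp [Fin.insertNthEquiv]
  exact (av_mono h2).trans (le_of_eq (av_const C))

private theorem Q16_core {T : Dat} {k : ℕ} {E : Type*} [Fintype E] [DecidableEq E] {p : ℕ} [Fact p.Prime] {x0 : ℤ} {t2 : Prop}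
    (hx : t2 → x0 ≠ 0 → (x0 : ZMod p) ≠ 0) {c c' : E → Fin (k + 1)} (hcc : ¬ Fun c c') (y y' : Fin k → (ZMod p)ˣ) (be : ℕ → (ZMod p)ˣ) :
    av (fun α : Fin (k + 1) → (ZMod p)ˣ => av fun s : E → (ZMod p)ˣ =>
      ind (coin T k p x0 t2 (Loc.ex (k + 1) α) be (pj c α y s) (pj c' α y' s))) ≤
      5 * ((k + 1 : ℕ) : ℝ) ^ 2 / ((p : ℝ) - 1) := by
  have hp2 := (Fact.out : p.Prime).two_le
  have hp1 : (0 : ℝ) < (p : ℝ) - 1 := by
    have : (2 : ℝ) ≤ p := by exact_mod_cast hp2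
    linarith
  have hK1 : (1 : ℝ) ≤ ((k + 1 : ℕ) : ℝ) := by exact_mod_cast Nat.succ_le_succ (Nat.zero_le k)
  rw [← av_fub (fun w : (Fin (k + 1) → (ZMod p)ˣ) × (E → (ZMod p)ˣ) =>
      ind (coin T k p x0 t2 (Loc.ex (k + 1) w.1) be (pj c w.1 y w.2) (pj c' w.1 y' w.2)))]
  -- the second part, one colouring
  have hz : ∀ (d : E → Fin (k + 1)) (z : Fin k → (ZMod p)ˣ), t2 → x0 ≠ 0 → ∀ i ∈ range (k + 1),
      av (fun w : (Fin (k + 1) → (ZMod p)ˣ) × (E → (ZMod p)ˣ) => ind (Loc.Ti (k + 1) (Loc.ex (k + 1) w.1) be (pj d w.1 z w.2)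
        ((T.D : ZMod p) * T.N) ((x0 : ZMod p) - T.D * T.N) i = 0)) ≤ 1 / ((p : ℝ) - 1) := by
    intro d z ht hx0 i hi
    have hik : i ≤ k := Nat.lt_succ_iff.1 (mem_range.1 hi)
    rw [av_fub, Q16_swap]
    refine (av_mono (g := fun _ => 1 / ((p : ℝ) - 1)) fun s => ?_).trans (le_of_eq (av_const _))
    exact Q16_upd _ fun al => L4_zero d be z al s hik ((T.D : ZMod p) * T.N) (x0 : ZMod p) (hx ht hx0)
  have h2 : av (fun w : (Fin (k + 1) → (ZMod p)ˣ) × (E → (ZMod p)ˣ) => ind (t2 ∧ x0 ≠ 0 ∧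
      ((∃ i ≤ k, Loc.Ti (k + 1) (Loc.ex (k + 1) w.1) be (pj c w.1 y w.2) ((T.D : ZMod p) * T.N) ((x0 : ZMod p) - T.D * T.N) i = 0) ∨
      ∃ i ≤ k, Loc.Ti (k + 1) (Loc.ex (k + 1) w.1) be (pj c' w.1 y' w.2) ((T.D : ZMod p) * T.N) ((x0 : ZMod p) - T.D * T.N) i = 0))) ≤
      2 * ((k + 1 : ℕ) : ℝ) / ((p : ℝ) - 1) := by
    by_cases ht : t2 ∧ x0 ≠ 0
    · have hone : ∀ (d : E → Fin (k + 1)) (z : Fin k → (ZMod p)ˣ),
          ∑ i ∈ range (k + 1), av (fun w : (Fin (k + 1) → (ZMod p)ˣ) × (E → (ZMod p)ˣ) => ind (Loc.Ti (k + 1) (Loc.ex (k + 1) w.1) be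
            (pj d w.1 z w.2) ((T.D : ZMod p) * T.N) ((x0 : ZMod p) - T.D * T.N) i = 0)) ≤ ((k + 1 : ℕ) : ℝ) * (1 / ((p : ℝ) - 1)) := by
        intro d z
        refine (sum_le_sum (hz d z ht.1 ht.2)).trans (le_of_eq ?_)
        rw [sum_const, card_range, nsmul_eq_mul]
      calc _ ≤ av (fun w : (Fin (k + 1) → (ZMod p)ˣ) × (E → (ZMod p)ˣ) =>
            (∑ i ∈ range (k + 1), ind (Loc.Ti (k + 1) (Loc.ex (k + 1) w.1) be (pj c w.1 y w.2) ((T.D : ZMod p) * T.N)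
              ((x0 : ZMod p) - T.D * T.N) i = 0)) +
            ∑ i ∈ range (k + 1), ind (Loc.Ti (k + 1) (Loc.ex (k + 1) w.1) be (pj c' w.1 y' w.2) ((T.D : ZMod p) * T.N)
              ((x0 : ZMod p) - T.D * T.N) i = 0)) := by
            refine av_mono fun w => ?_
            refine (ind_mono fun h => h.2.2).trans ((Q16_or _ _).trans (add_le_add (Q16_ex k _) (Q16_ex k _)))
        _ ≤ ((k + 1 : ℕ) : ℝ) * (1 / ((p : ℝ) - 1)) + ((k + 1 : ℕ) : ℝ) * (1 / ((p : ℝ) - 1)) := by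
            rw [av_add, av_sum, av_sum]
            exact add_le_add (hone c y) (hone c' y')
        _ = 2 * ((k + 1 : ℕ) : ℝ) / ((p : ℝ) - 1) := by ring
    · have h0 : av (fun w : (Fin (k + 1) → (ZMod p)ˣ) × (E → (ZMod p)ˣ) => ind (t2 ∧ x0 ≠ 0 ∧
          ((∃ i ≤ k, Loc.Ti (k + 1) (Loc.ex (k + 1) w.1) be (pj c w.1 y w.2) ((T.D : ZMod p) * T.N)
            ((x0 : ZMod p) - T.D * T.N) i = 0) ∨
          ∃ i ≤ k, Loc.Ti (k + 1) (Loc.ex (k + 1) w.1) be (pj c' w.1 y' w.2) ((T.D : ZMod p) * T.N)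
            ((x0 : ZMod p) - T.D * T.N) i = 0))) = 0 := by
        rw [← av_const (α := (Fin (k + 1) → (ZMod p)ˣ) × (E → (ZMod p)ˣ)) (0 : ℝ)]
        exact av_congr fun w => ind_false fun h => ht ⟨h.1, h.2.1⟩
      rw [h0]
      positivity
  have h1 : av (fun w : (Fin (k + 1) → (ZMod p)ˣ) × (E → (ZMod p)ˣ) => ∑ i ∈ range (k + 1), ∑ j ∈ range (k + 1), ind (
      Loc.Mi (Loc.ex (k + 1) w.1) be (pj c w.1 y w.2) i * Loc.Sg (k + 1) (Loc.ex (k + 1) w.1) be (pj c' w.1 y' w.2) =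
      Loc.Mi (Loc.ex (k + 1) w.1) be (pj c' w.1 y' w.2) j * Loc.Sg (k + 1) (Loc.ex (k + 1) w.1) be (pj c w.1 y w.2))) ≤
      3 * ((k + 1 : ℕ) : ℝ) ^ 2 / ((p : ℝ) - 1) := by
    rw [av_sum]
    have hin : ∀ i ∈ range (k + 1), av (fun w : (Fin (k + 1) → (ZMod p)ˣ) × (E → (ZMod p)ˣ) => ∑ j ∈ range (k + 1), ind (
      Loc.Mi (Loc.ex (k + 1) w.1) be (pj c w.1 y w.2) i * Loc.Sg (k + 1) (Loc.ex (k + 1) w.1) be (pj c' w.1 y' w.2) =
      Loc.Mi (Loc.ex (k + 1) w.1) be (pj c' w.1 y' w.2) j * Loc.Sg (k + 1) (Loc.ex (k + 1) w.1) be (pj c w.1 y w.2))) ≤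
      ((k + 1 : ℕ) : ℝ) * (3 / ((p : ℝ) - 1)) := by
      intro i hi
      rw [av_sum]
      refine (sum_le_sum fun j hj => L4 c c' hcc be y y' (Nat.lt_succ_iff.1 (mem_range.1 hi)) (Nat.lt_succ_iff.1 (mem_range.1 hj))).trans
        (le_of_eq ?_)
      rw [sum_const, card_range, nsmul_eq_mul]
    refine (sum_le_sum hin).trans (le_of_eq ?_)
    rw [sum_const, card_range, nsmul_eq_mul]
    ring
  calc _ ≤ av (fun w : (Fin (k + 1) → (ZMod p)ˣ) × (E → (ZMod p)ˣ) => (∑ i ∈ range (k + 1), ∑ j ∈ range (k + 1), ind (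
      Loc.Mi (Loc.ex (k + 1) w.1) be (pj c w.1 y w.2) i * Loc.Sg (k + 1) (Loc.ex (k + 1) w.1) be (pj c' w.1 y' w.2) =
      Loc.Mi (Loc.ex (k + 1) w.1) be (pj c' w.1 y' w.2) j * Loc.Sg (k + 1) (Loc.ex (k + 1) w.1) be (pj c w.1 y w.2))) +
      ind (t2 ∧ x0 ≠ 0 ∧
      ((∃ i ≤ k, Loc.Ti (k + 1) (Loc.ex (k + 1) w.1) be (pj c w.1 y w.2) ((T.D : ZMod p) * T.N) ((x0 : ZMod p) - T.D * T.N) i = 0) ∨
      ∃ i ≤ k, Loc.Ti (k + 1) (Loc.ex (k + 1) w.1) be (pj c' w.1 y' w.2) ((T.D : ZMod p) * T.N) ((x0 : ZMod p) - T.D * T.N) i = 0))) := by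
        refine av_mono fun w => ?_
        unfold coin
        refine (Q16_or _ _).trans (add_le_add ?_ le_rfl)
        exact (Q16_ex k _).trans (sum_le_sum fun i _ => Q16_ex k _)
    _ ≤ 3 * ((k + 1 : ℕ) : ℝ) ^ 2 / ((p : ℝ) - 1) + 2 * ((k + 1 : ℕ) : ℝ) / ((p : ℝ) - 1) := by
        rw [av_add]
        exact add_le_add h1 h2
    _ ≤ 5 * ((k + 1 : ℕ) : ℝ) ^ 2 / ((p : ℝ) - 1) := by
        rw [← add_div]
        refine div_le_div_of_nonneg_right ?_ hp1.le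
        nlinarith

theorem Q16 {T : Dat} {k : ℕ} {E : Type*} [Fintype E] [DecidableEq E] {p1 : ℕ} (hp : p1.Prime) (hDN : ¬ p1 ∣ T.D * T.N) {x0 : ℤ} {t2 : Prop}
    (hx : t2 → x0 ≠ 0 → ¬ (p1 : ℤ) ∣ x0) {c c' : E → Fin (k + 1)} (hcc : ¬ Fun c c') (y y' : Fin k → HP T.D p1) (be : ℕ → HP T.D p1) :
    av (fun α : Fin (k + 1) → HP T.D p1 => av fun s : E → HP T.D p1 =>
      ind (coin T k (p1 ^ (padicValNat p1 T.D + 1)) x0 t2 (Loc.ex (k + 1) α) be (pj c α y s) (pj c' α y' s))) ≤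
      5 * ((k + 1 : ℕ) : ℝ) ^ 2 / ((p1 : ℝ) - 1) := by
  have hv : p1 ^ (padicValNat p1 T.D + 1) = p1 := by
    rw [padicValNat.eq_zero_of_not_dvd fun h => hDN (Dvd.dvd.mul_right h _), zero_add, pow_one]
  revert y y' be
  unfold HP
  rw [hv]
  intro y y' be
  have _ : Fact p1.Prime := ⟨hp⟩
  exact Q16_core (fun h1 h2 h3 => hx h1 h2 ((ZMod.intCast_zmod_eq_zero_iff_dvd x0 p1).1 h3)) hcc y y' be

end Pool.Agent.Lib.TC
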