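import Pool.Agent.Lib.MP_7b7e48_nt.TC.Q07
import Pool.Agent.Lib.MP_7b7e48_nt.TC.QAx
import Pool.Agent.Lib.MP_7b7e48_nt.TC.Q19
import Pool.Agent.Lib.MP_7b7e48_nt.TC.Q20

/-!
# Q21: the second moment with the mean values of the large sieve, one pair of colourings

Constants: `U4 = ∏_{PS} (1 + 24 m/p) 4^|base|`, `U5 = ∏_{PS} (1 + 8 m/p) 2^|base| 2^|base| W0/D`, `U6 = 2^|base| W0/D`, `MA = (3 Cα)^(k+1) 4^|base| τ(D)/D²` (`m = k + 1`).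
`TS c c' d d'` is the sum over good pairs of tuples and over `n` of `Om * G(X)`, `G x = ind (x coprime to W0) (FF c d - Pb d)(FF c' d' - Pb d')`, `|G| ≤ 1`, periodic modulo `q = qd (d ∪ d')` (`Q17_FF`, `Q17_Pb`, `Q17_qd`, `W0 ∣ q`).
`Q07a` for every good pair (`adm`): `|TS - W ∑_r gq ∑_{μ,ν} ind gp m1 G(xr r)| ≤ |MX| |MY| N^(-δ1) W q`, `q ≤ W0 y0^(24 b1)`; (`ms = W m1`, `ax q 1 = 1` (`Q07_one`), so a bound for all `x = xr r` coprime to `W0` gives the bound for the `r`-sum).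
* `Q21_conn`: replace `gp` by `Kp = adm0 ∧ ¬ badpair` (`gp → Kp`; the difference is `≤ ξ tot1` by `hξ`), then `Q20_conn`.
* `Q21_sum`: `ind gp ≤ ind (¬ badpair)`, `Q20_up` with `Kp = ¬ badpair` for each `d, d' ∈ DS b1`, then extend the sums to all `d, d' ⊆ PS` (all terms `≥ 0`): `Q18_a`, `Q18_Pb` (for pairs which are not bad), then `Q19` with `ϑ = 1` (`lco ≥ 0`) if `c'` is not a function
  of `c`, and `∏_{base} l2 ≤ ∏_{base} lav ≤ U6` (`Q18_l2_le`, `Q18_base`) in general.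
-/

set_option autoImplicit false

open Finset

namespace Pool.Agent.Lib.TC

noncomputable def U4 (S : MS) (T : Dat) : ℝ := (∏ p ∈ T.PS, (1 + 24 * ((S.k + 1 : ℕ) : ℝ) / p)) * 4 ^ T.base.card

noncomputable def U5 (S : MS) (T : Dat) (W0 : ℕ) : ℝ := (∏ p ∈ T.PS, (1 + 8 * ((S.k + 1 : ℕ) : ℝ) / p)) * (2 ^ T.base.card * (2 ^ T.base.card * W0 / T.D))

noncomputable def U6 (T : Dat) (W0 : ℕ) : ℝ := 2 ^ T.base.card * W0 / T.D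

noncomputable def MA (S : MS) (T : Dat) (Cα : ℝ) : ℝ := (3 * Cα) ^ (S.k + 1) * (4 ^ T.base.card * (T.D.divisors.card : ℝ) / (T.D : ℝ) ^ 2)

/-- the total mass of the tuples -/
noncomputable def Msr.tot1 {S : MS} (M : Msr S) : ℝ := ∑ μ ∈ S.MX, ∑ ν ∈ S.MY, M.m1 μ ν

noncomputable def Msr.TS {S : MS} (M : Msr S) (T : Dat) (W0 : ℕ) (c c' : S.Col) (d d' : Finset ℕ) : ℝ :=
  ∑ μ ∈ S.MX, ∑ ν ∈ S.MY, ind (M.gp T μ ν) * ∑ n ∈ range (M.nm + 1), M.Om μ ν n *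
    (ind (IsCoprime (M.X μ ν n : ℤ) (W0 : ℤ)) * ((S.FF T c μ ν (M.X μ ν n) d - S.Pb T μ ν (M.X μ ν n) d) *
      (S.FF T c' μ ν (M.X μ ν n) d' - S.Pb T μ ν (M.X μ ν n) d')))

/-- the additive error of one pair `d, d'` -/
noncomputable def Msr.er {S : MS} (M : Msr S) (T : Dat) (W0 b1 : ℕ) (δ1 : ℝ) : ℝ :=
  (S.MX.card : ℝ) * S.MY.card * ((T.N : ℝ) ^ (-δ1) * M.W * (W0 * (T.y0 : ℝ) ^ (24 * b1)))

variable {S : MS} {T : Dat} {W0 : ℕ} {Z : Fin (S.k + 1) → ℕ} {M : Msr S} {δ0 δ1 : ℝ} {p1 Q0 : ℕ} {η η' Cα ξ : ℝ} {c c' : S.Col} {b1 : ℕ}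

/-- the summand -/
private noncomputable def Q21_F (S : MS) (T : Dat) (c c' : S.Col) (d d' : Finset ℕ) (μ : S.TX) (ν : S.TY) (x : ℤ) : ℝ :=
  (S.FF T c μ ν x d - S.Pb T μ ν x d) * (S.FF T c' μ ν x d' - S.Pb T μ ν x d')

private theorem Q21_F_abs (d d' : Finset ℕ) (μ : S.TX) (ν : S.TY) (x : ℤ) : |Q21_F S T c c' d d' μ ν x| ≤ 1 :=
  QAx_prod_abs (QAx_FF c μ ν x d) (QAx_Pb μ ν x d) (QAx_FF c' μ ν x d') (QAx_Pb μ ν x d')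

private theorem Q21_sub {d : Finset ℕ} (hd : d ∈ T.DS b1) : d ⊆ T.PS := by
  unfold Dat.DS at hd
  exact mem_powerset.1 (mem_filter.1 hd).1

private theorem Q21_F_per (hT : T.OK W0) {d d' : Finset ℕ} (hd : d ∈ T.DS b1) (hd' : d' ∈ T.DS b1) (μ : S.TX) (ν : S.TY) {x x' : ℤ}
    (h : x ≡ x' [ZMOD T.qd W0 (d ∪ d')]) : Q21_F S T c c' d d' μ ν x = Q21_F S T c c' d d' μ ν x' := by
  have hu : d ∪ d' ⊆ T.PS := union_subset (Q21_sub hd) (Q21_sub hd')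
  unfold Q21_F
  rw [Q17_FF hT subset_union_left hu h, Q17_Pb hT subset_union_left hu h, Q17_FF hT subset_union_right hu h,
    Q17_Pb hT subset_union_right hu h]

private theorem Q21_G_per (hT : T.OK W0) {d d' : Finset ℕ} (hd : d ∈ T.DS b1) (hd' : d' ∈ T.DS b1) (μ : S.TX) (ν : S.TY) {x x' : ℤ}
    (h : x ≡ x' [ZMOD T.qd W0 (d ∪ d')]) : ind (IsCoprime x (W0 : ℤ)) * Q21_F S T c c' d d' μ ν x =
      ind (IsCoprime x' (W0 : ℤ)) * Q21_F S T c c' d d' μ ν x' := by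
  rw [Q21_F_per hT hd hd' μ ν h, propext (QAx_cop h)]

private theorem Q21_first (hT : T.OK W0) (hS : S.OK T W0 Z) (hM : M.OK T W0 δ0 δ1)
    (hq : (W0 : ℝ) * (T.y0 : ℝ) ^ (24 * b1) ≤ (T.N : ℝ) ^ δ0) {d d' : Finset ℕ} (hd : d ∈ T.DS b1) (hd' : d' ∈ T.DS b1) :
    |M.TS T W0 c c' d d' - M.W * M.ax (T.qd W0 (d ∪ d')) (fun x => ∑ μ ∈ S.MX, ∑ ν ∈ S.MY, M.m1 μ ν * (ind (M.gp T μ ν) *
      (ind (IsCoprime x (W0 : ℤ)) * Q21_F S T c c' d d' μ ν x)))| ≤ M.er T W0 b1 δ1 := by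
  obtain ⟨h1, h2, -, -⟩ := Q17_qd hT (union_subset (Q21_sub hd) (Q21_sub hd'))
  have h3 := QAx_DS hT hd hd'
  have h4 := QAx_first hT hS hM h1 h2 (h3.trans hq) (fun μ ν x => ind (IsCoprime x (W0 : ℤ)) * Q21_F S T c c' d d' μ ν x)
    (fun μ ν x x' h => Q21_G_per hT hd hd' μ ν h) (fun μ ν x => by
      rw [abs_mul, abs_of_nonneg (ind_nonneg _)]
      calc ind (IsCoprime x (W0 : ℤ)) * |Q21_F S T c c' d d' μ ν x| ≤ 1 * 1 :=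
            mul_le_mul (ind_le_one _) (Q21_F_abs _ _ _ _ _) (abs_nonneg _) zero_le_one
        _ = 1 := one_mul 1)
  refine h4.trans ?_
  unfold Msr.er
  refine mul_le_mul_of_nonneg_left ?_ (by positivity)
  exact mul_le_mul_of_nonneg_left h3 (mul_nonneg (Real.rpow_nonneg (Nat.cast_nonneg _) _) hM.W_pos.le)

private theorem Q21_tot (hS : S.OK T W0 Z) (hM : M.OK T W0 δ0 δ1) : 0 ≤ M.tot1 := by
  unfold Msr.tot1
  exact sum_nonneg fun μ hμ => sum_nonneg fun ν hν => QAx_m1 hS hM hμ hν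

private theorem Q21_sumle (hS : S.OK T W0 Z) (hM : M.OK T W0 δ0 δ1) {f g : S.TX → S.TY → ℝ}
    (h : ∀ μ ∈ S.MX, ∀ ν ∈ S.MY, f μ ν ≤ g μ ν) :
    ∑ μ ∈ S.MX, ∑ ν ∈ S.MY, M.m1 μ ν * f μ ν ≤ ∑ μ ∈ S.MX, ∑ ν ∈ S.MY, M.m1 μ ν * g μ ν :=
  sum_le_sum fun μ hμ => sum_le_sum fun ν hν => mul_le_mul_of_nonneg_left (h μ hμ ν hν) (QAx_m1 hS hM hμ hν)

private theorem Q21_const (C : ℝ) : ∑ μ ∈ S.MX, ∑ ν ∈ S.MY, M.m1 μ ν * C = M.tot1 * C := by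
  unfold Msr.tot1
  rw [sum_mul]
  exact sum_congr rfl fun μ _ => by rw [sum_mul]

theorem Q21_conn (hT : T.OK W0) (hS : S.OK T W0 Z) (hM : M.OK T W0 δ0 δ1) (hη : 0 ≤ η') (hsX : ∀ f, SWc T.N T.D M.hX η' Q0 (S.FX f))
    (hsY : ∀ f, SWc T.N T.D M.hY η' Q0 (S.FY f)) (hQ0 : ∀ d ∈ T.DS b1, ∀ d' ∈ T.DS b1, ∏ p ∈ T.base ∪ d ∪ d', p ^ (padicValNat p T.D + 1) ≤ Q0)
    (hq : (W0 : ℝ) * (T.y0 : ℝ) ^ (24 * b1) ≤ (T.N : ℝ) ^ δ0)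
    (hξ : ∑ μ ∈ S.MX, ∑ ν ∈ S.MY, M.m1 μ ν * ind (M.adm0 μ ν ∧ ¬ M.adm μ ν) ≤ ξ * M.tot1)
    (hc : c ∈ S.CC) (hc' : c' ∈ S.CC) (hcc : Conn S.k c c') {d d' : Finset ℕ} (hd : d ∈ T.DS b1) (hd' : d' ∈ T.DS b1) :
    |M.TS T W0 c c' d d'| ≤ M.W * M.tot1 * (((1 + η') ^ (2 * S.n0) - 1) + ξ) + M.er T W0 b1 δ1 := by
  have hη1 : (1 : ℝ) ≤ (1 + η') ^ (2 * S.n0) := one_le_pow₀ (by linarith)
  have htot := Q21_tot hS hM
  have hξ0 : 0 ≤ ξ * M.tot1 := by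
    refine le_trans ?_ hξ
    exact sum_nonneg fun μ hμ => sum_nonneg fun ν hν => mul_nonneg (QAx_m1 hS hM hμ hν) (ind_nonneg _)
  obtain ⟨h1, h2, -, -⟩ := Q17_qd hT (union_subset (Q21_sub hd) (Q21_sub hd'))
  have hK : ∀ x : ℤ, |∑ μ ∈ S.MX, ∑ ν ∈ S.MY, M.m1 μ ν * (ind (M.gp T μ ν) *
      (ind (IsCoprime x (W0 : ℤ)) * Q21_F S T c c' d d' μ ν x))| ≤ M.tot1 * (((1 + η') ^ (2 * S.n0) - 1) + ξ) := by
    intro x
    have hB : 0 ≤ M.tot1 * (((1 + η') ^ (2 * S.n0) - 1) + ξ) := by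
      have := mul_nonneg htot (sub_nonneg.2 hη1)
      nlinarith
    by_cases hx : IsCoprime x (W0 : ℤ)
    · have e1 := Q20_conn (X := x) hT hS hM hη hsX hsY hc hc' hcc (Q21_sub hd) (Q21_sub hd') (hQ0 d hd d' hd')
        (fun μ ν => M.adm0 μ ν ∧ ¬ S.badpair T 0 T.y0 μ ν) (fun μ μ' ν ν' h h' => QAx_Kadm μ μ' ν ν' h h')
      have e2 : ∑ μ ∈ S.MX, ∑ ν ∈ S.MY, M.m1 μ ν * (ind (M.gp T μ ν) * (ind (IsCoprime x (W0 : ℤ)) * Q21_F S T c c' d d' μ ν x)) =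
          ∑ μ ∈ S.MX, ∑ ν ∈ S.MY, M.m1 μ ν * (ind (M.adm0 μ ν ∧ ¬ S.badpair T 0 T.y0 μ ν) *
            ((S.FF T c μ ν x d - S.Pb T μ ν x d) * (S.FF T c' μ ν x d' - S.Pb T μ ν x d'))) -
          ∑ μ ∈ S.MX, ∑ ν ∈ S.MY, M.m1 μ ν * ((ind (M.adm0 μ ν ∧ ¬ S.badpair T 0 T.y0 μ ν) - ind (M.gp T μ ν)) *
            Q21_F S T c c' d d' μ ν x) := by
        rw [← sum_sub_distrib]
        refine sum_congr rfl fun μ _ => ?_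
        rw [← sum_sub_distrib]
        refine sum_congr rfl fun ν _ => ?_
        rw [ind_true hx]
        unfold Q21_F
        ring
      have e3 : |∑ μ ∈ S.MX, ∑ ν ∈ S.MY, M.m1 μ ν * ((ind (M.adm0 μ ν ∧ ¬ S.badpair T 0 T.y0 μ ν) - ind (M.gp T μ ν)) *
            Q21_F S T c c' d d' μ ν x)| ≤ ξ * M.tot1 := by
        refine le_trans ?_ hξ
        refine (abs_sum_le_sum_abs _ _).trans (sum_le_sum fun μ hμ => ?_)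
        refine (abs_sum_le_sum_abs _ _).trans (sum_le_sum fun ν hν => ?_)
        rw [abs_mul, abs_of_nonneg (QAx_m1 hS hM hμ hν)]
        refine mul_le_mul_of_nonneg_left ?_ (QAx_m1 hS hM hμ hν)
        rw [abs_mul]
        have e4 : |ind (M.adm0 μ ν ∧ ¬ S.badpair T 0 T.y0 μ ν) - ind (M.gp T μ ν)| ≤ ind (M.adm0 μ ν ∧ ¬ M.adm μ ν) := by
          by_cases hbad : S.badpair T 0 T.y0 μ ν
          · rw [ind_false (fun h => h.2 hbad), ind_false (fun h : M.gp T μ ν => h.2 hbad), sub_zero, abs_zero]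
            exact ind_nonneg _
          · by_cases had : M.adm μ ν
            · rw [ind_true ⟨QAx_adm had, hbad⟩, ind_true (show M.gp T μ ν from ⟨had, hbad⟩), sub_self, abs_zero]
              exact ind_nonneg _
            · rw [ind_false (fun h : M.gp T μ ν => had h.1), sub_zero, abs_of_nonneg (ind_nonneg _)]
              exact ind_mono fun h => ⟨h.1, had⟩
        calc |ind (M.adm0 μ ν ∧ ¬ S.badpair T 0 T.y0 μ ν) - ind (M.gp T μ ν)| * |Q21_F S T c c' d d' μ ν x| ≤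
              ind (M.adm0 μ ν ∧ ¬ M.adm μ ν) * 1 := mul_le_mul e4 (Q21_F_abs _ _ _ _ _) (abs_nonneg _) (ind_nonneg _)
          _ = _ := mul_one _
      rw [e2]
      refine (abs_sub _ _).trans ?_
      have e5 : ∑ μ ∈ S.MX, ∑ ν ∈ S.MY, M.m1 μ ν = M.tot1 := rfl
      rw [e5] at e1
      calc _ ≤ ((1 + η') ^ (2 * S.n0) - 1) * M.tot1 + ξ * M.tot1 := add_le_add e1 e3
        _ = _ := by ring
    · have e1 : ∑ μ ∈ S.MX, ∑ ν ∈ S.MY, M.m1 μ ν * (ind (M.gp T μ ν) *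
          (ind (IsCoprime x (W0 : ℤ)) * Q21_F S T c c' d d' μ ν x)) = 0 := by
        refine sum_eq_zero fun μ _ => sum_eq_zero fun ν _ => ?_
        rw [ind_false hx]
        ring
      rw [e1, abs_zero]
      exact hB
  have h3 := Q21_first (c := c) (c' := c') hT hS hM hq hd hd'
  have h4 : |M.ax (T.qd W0 (d ∪ d')) (fun x => ∑ μ ∈ S.MX, ∑ ν ∈ S.MY, M.m1 μ ν * (ind (M.gp T μ ν) *
      (ind (IsCoprime x (W0 : ℤ)) * Q21_F S T c c' d d' μ ν x)))| ≤ M.tot1 * (((1 + η') ^ (2 * S.n0) - 1) + ξ) :=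
    (QAx_abs (Q07_nonneg hM h1 h2) hK).trans (QAx_le hM h1 h2 (fun _ => le_rfl))
  have h5 := abs_sub_abs_le_abs_sub (M.TS T W0 c c' d d') (M.W * M.ax (T.qd W0 (d ∪ d')) (fun x => ∑ μ ∈ S.MX, ∑ ν ∈ S.MY,
    M.m1 μ ν * (ind (M.gp T μ ν) * (ind (IsCoprime x (W0 : ℤ)) * Q21_F S T c c' d d' μ ν x))))
  rw [abs_mul, abs_of_nonneg hM.W_pos.le] at h5
  have h6 := mul_le_mul_of_nonneg_left h4 hM.W_pos.le
  rw [← mul_assoc] at h6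
  linarith

/-- the sums over `d`, `d'` for one class of `X` -/
private theorem Q21_mid (hT : T.OK W0) (hS : S.OK T W0 Z) (hM : M.OK T W0 δ0 δ1) (hη : 0 ≤ η') (hsX : ∀ f, SWc T.N T.D M.hX η' Q0 (S.FX f))
    (hsY : ∀ f, SWc T.N T.D M.hY η' Q0 (S.FY f)) (hQ0 : ∀ d ∈ T.DS b1, ∀ d' ∈ T.DS b1, ∏ p ∈ T.base ∪ d ∪ d', p ^ (padicValNat p T.D + 1) ≤ Q0)
    (hc : c ∈ S.CC) (hc' : c' ∈ S.CC) {x : ℤ} (hx : IsCoprime x (W0 : ℤ)) :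
    ∑ z ∈ T.DS b1 ×ˢ T.DS b1, ∑ μ ∈ S.MX, ∑ ν ∈ S.MY, M.m1 μ ν * (ind (M.gp T μ ν) * |ind (IsCoprime x (W0 : ℤ)) * Q21_F S T c c' z.1 z.2 μ ν x|) ≤
      (1 + η') ^ (2 * S.n0) * ∑ μ ∈ S.MX, ∑ ν ∈ S.MY, M.m1 μ ν * (ind (¬ S.badpair T 0 T.y0 μ ν) *
        (U4 S T * (∏ p ∈ T.base, S.l2 T c c' μ ν x False False p) + 3 * U5 S T W0 ^ 2)) := by
  have hE : 0 ≤ (1 + η') ^ (2 * S.n0) := pow_nonneg (by linarith) _
  -- one pair `d, d'`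
  have h1 : ∀ z ∈ T.DS b1 ×ˢ T.DS b1, ∑ μ ∈ S.MX, ∑ ν ∈ S.MY, M.m1 μ ν * (ind (M.gp T μ ν) * |ind (IsCoprime x (W0 : ℤ)) * Q21_F S T c c' z.1 z.2 μ ν x|) ≤
      (1 + η') ^ (2 * S.n0) * ∑ μ ∈ S.MX, ∑ ν ∈ S.MY, M.m1 μ ν * (ind (¬ S.badpair T 0 T.y0 μ ν) *
        (∏ p ∈ T.base ∪ z.1 ∪ z.2, S.l2 T c c' μ ν x (p ∈ z.1) (p ∈ z.2) p + 3 * (S.Pb T μ ν x z.1 * S.Pb T μ ν x z.2))) := by
    intro z hz
    obtain ⟨hd, hd'⟩ := mem_product.1 hz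
    have h2 := Q20_up (X := x) hT hS hM hη hsX hsY hc hc' (Q21_sub hd) (Q21_sub hd') (hQ0 z.1 hd z.2 hd')
        (fun μ ν => ¬ S.badpair T 0 T.y0 μ ν) (fun μ μ' ν ν' h h' => QAx_Kbad μ μ' ν ν' h h')
    refine le_trans (Q21_sumle hS hM fun μ _ ν _ => ?_) h2
    rw [ind_true hx, one_mul]
    exact mul_le_mul_of_nonneg_right (ind_mono fun h => h.2) (abs_nonneg _)
  refine (sum_le_sum h1).trans ?_
  rw [← mul_sum]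
  refine mul_le_mul_of_nonneg_left ?_ hE
  rw [sum_comm]
  refine sum_le_sum fun μ hμ => ?_
  rw [sum_comm]
  refine sum_le_sum fun ν hν => ?_
  rw [← mul_sum]
  refine mul_le_mul_of_nonneg_left ?_ (QAx_m1 hS hM hμ hν)
  rw [← mul_sum]
  by_cases hb : S.badpair T 0 T.y0 μ ν
  · rw [ind_false (not_not.2 hb), zero_mul, zero_mul]
  · rw [ind_true hb, one_mul, one_mul, sum_add_distrib, ← mul_sum]
    have hsub : T.DS b1 ⊆ T.PS.powerset := by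
      unfold Dat.DS
      exact filter_subset _ _
    have h3 : ∑ z ∈ T.DS b1 ×ˢ T.DS b1, ∏ p ∈ T.base ∪ z.1 ∪ z.2, S.l2 T c c' μ ν x (p ∈ z.1) (p ∈ z.2) p ≤
        U4 S T * ∏ p ∈ T.base, S.l2 T c c' μ ν x False False p := by
      have h4 := Q18_a (X := x) hT hS hμ hν hb hc hc'
      rw [← sum_product'] at h4
      rw [← mul_assoc] at h4
      refine le_trans ?_ h4
      refine sum_le_sum_of_subset_of_nonneg (product_subset_product hsub hsub) fun z _ _ => ?_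
      exact prod_nonneg fun p _ => Q18_l2_nonneg _ _ _
    have h5 : ∑ z ∈ T.DS b1 ×ˢ T.DS b1, S.Pb T μ ν x z.1 * S.Pb T μ ν x z.2 ≤ U5 S T W0 ^ 2 := by
      have h6 : ∑ z ∈ T.DS b1 ×ˢ T.DS b1, S.Pb T μ ν x z.1 * S.Pb T μ ν x z.2 = (∑ d ∈ T.DS b1, S.Pb T μ ν x d) ^ 2 := by
        rw [sq, sum_mul_sum, sum_product]
      rw [h6]
      refine pow_le_pow_left₀ (sum_nonneg fun d _ => (QAx_Pb μ ν x d).1) ?_ 2
      refine le_trans ?_ (Q18_Pb (X := x) hT hS hμ hν hb hx)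
      exact sum_le_sum_of_subset_of_nonneg hsub fun d _ _ => (QAx_Pb μ ν x d).1
    linarith


private noncomputable def Q21_KK (M : Msr S) (T : Dat) (W0 : ℕ) (c c' : S.Col) (z : Finset ℕ × Finset ℕ) (x : ℤ) : ℝ :=
  ∑ μ ∈ S.MX, ∑ ν ∈ S.MY, M.m1 μ ν * (ind (M.gp T μ ν) * |ind (IsCoprime x (W0 : ℤ)) * Q21_F S T c c' z.1 z.2 μ ν x|)

private theorem Q21_KK_per (hT : T.OK W0) {z : Finset ℕ × Finset ℕ} (hz : z ∈ T.DS b1 ×ˢ T.DS b1) {x x' : ℤ}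
    (h : x ≡ x' [ZMOD T.qd W0 (z.1 ∪ z.2)]) : Q21_KK M T W0 c c' z x = Q21_KK M T W0 c c' z x' := by
  obtain ⟨hd, hd'⟩ := mem_product.1 hz
  unfold Q21_KK
  refine sum_congr rfl fun μ _ => sum_congr rfl fun ν _ => ?_
  rw [Q21_G_per hT hd hd' μ ν h]

private theorem Q21_KK_zero {x : ℤ} (hx : ¬ IsCoprime x (W0 : ℤ)) (z : Finset ℕ × Finset ℕ) : Q21_KK M T W0 c c' z x = 0 := by
  unfold Q21_KK
  refine sum_eq_zero fun μ _ => sum_eq_zero fun ν _ => ?_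
  rw [ind_false hx, zero_mul, abs_zero, mul_zero, mul_zero]

private theorem Q21_KK_sum (hT : T.OK W0) (hM : M.OK T W0 δ0 δ1) {B : ℝ} (hB0 : 0 ≤ B)
    (hB : ∀ x : ℤ, IsCoprime x (W0 : ℤ) → ∑ z ∈ T.DS b1 ×ˢ T.DS b1, Q21_KK M T W0 c c' z x ≤ B) :
    ∑ z ∈ T.DS b1 ×ˢ T.DS b1, M.ax (T.qd W0 (z.1 ∪ z.2)) (Q21_KK M T W0 c c' z) ≤ B := by
  obtain ⟨hPS1, hPS2, -, -⟩ := Q17_qd hT (subset_refl T.PS)
  have h1 : ∀ z ∈ T.DS b1 ×ˢ T.DS b1, T.qd W0 (z.1 ∪ z.2) ∣ T.qd W0 T.PS := by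
    intro z hz
    obtain ⟨hd, hd'⟩ := mem_product.1 hz
    exact QAx_qd_dvd (union_subset (Q21_sub hd) (Q21_sub hd'))
  have h2 : ∀ z ∈ T.DS b1 ×ˢ T.DS b1, ∀ x x' : ℤ, x ≡ x' [ZMOD T.qd W0 (z.1 ∪ z.2)] →
      Q21_KK M T W0 c c' z x = Q21_KK M T W0 c c' z x' := fun z hz x x' h => Q21_KK_per hT hz h
  have h3 : ∀ x : ℤ, ∑ z ∈ T.DS b1 ×ˢ T.DS b1, Q21_KK M T W0 c c' z x ≤ B := by
    intro x
    by_cases hx : IsCoprime x (W0 : ℤ)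
    · exact hB x hx
    · rw [sum_eq_zero fun z _ => Q21_KK_zero hx z]
      exact hB0
  exact QAx_sumle (M := M) (T := T) hM hPS1 hPS2 (T.DS b1 ×ˢ T.DS b1) (fun z : Finset ℕ × Finset ℕ => T.qd W0 (z.1 ∪ z.2)) h1
    (fun z => Q21_KK M T W0 c c' z) h2 h3

private theorem Q21_TS (hT : T.OK W0) (hS : S.OK T W0 Z) (hM : M.OK T W0 δ0 δ1)
    (hq : (W0 : ℝ) * (T.y0 : ℝ) ^ (24 * b1) ≤ (T.N : ℝ) ^ δ0) {z : Finset ℕ × Finset ℕ} (hz : z ∈ T.DS b1 ×ˢ T.DS b1) :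
    |M.TS T W0 c c' z.1 z.2| ≤ M.W * M.ax (T.qd W0 (z.1 ∪ z.2)) (Q21_KK M T W0 c c' z) + M.er T W0 b1 δ1 := by
  obtain ⟨hd, hd'⟩ := mem_product.1 hz
  obtain ⟨h1, h2, -, -⟩ := Q17_qd hT (union_subset (Q21_sub hd) (Q21_sub hd'))
  have h3 := Q21_first (c := c) (c' := c') hT hS hM hq hd hd'
  have h4 : |M.ax (T.qd W0 (z.1 ∪ z.2)) (fun x => ∑ μ ∈ S.MX, ∑ ν ∈ S.MY, M.m1 μ ν * (ind (M.gp T μ ν) *
      (ind (IsCoprime x (W0 : ℤ)) * Q21_F S T c c' z.1 z.2 μ ν x)))| ≤ M.ax (T.qd W0 (z.1 ∪ z.2)) (Q21_KK M T W0 c c' z) := by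
    refine QAx_abs (Q07_nonneg hM h1 h2) fun x => ?_
    unfold Q21_KK
    refine (abs_sum_le_sum_abs _ _).trans (sum_le_sum fun μ hμ => ?_)
    refine (abs_sum_le_sum_abs _ _).trans (sum_le_sum fun ν hν => ?_)
    rw [abs_mul, abs_mul, abs_of_nonneg (QAx_m1 hS hM hμ hν), abs_of_nonneg (ind_nonneg _)]
  have h5 := abs_sub_abs_le_abs_sub (M.TS T W0 c c' z.1 z.2) (M.W * M.ax (T.qd W0 (z.1 ∪ z.2)) (fun x => ∑ μ ∈ S.MX, ∑ ν ∈ S.MY,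
    M.m1 μ ν * (ind (M.gp T μ ν) * (ind (IsCoprime x (W0 : ℤ)) * Q21_F S T c c' z.1 z.2 μ ν x))))
  rw [abs_mul, abs_of_nonneg hM.W_pos.le] at h5
  have h6 := mul_le_mul_of_nonneg_left h4 hM.W_pos.le
  linarith

private theorem Q21_key (hT : T.OK W0) (hS : S.OK T W0 Z) (hM : M.OK T W0 δ0 δ1) (hη : 0 ≤ η') (hsX : ∀ f, SWc T.N T.D M.hX η' Q0 (S.FX f))
    (hsY : ∀ f, SWc T.N T.D M.hY η' Q0 (S.FY f)) (hQ0 : ∀ d ∈ T.DS b1, ∀ d' ∈ T.DS b1, ∏ p ∈ T.base ∪ d ∪ d', p ^ (padicValNat p T.D + 1) ≤ Q0)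
    (hq : (W0 : ℝ) * (T.y0 : ℝ) ^ (24 * b1) ≤ (T.N : ℝ) ^ δ0)
    (hc : c ∈ S.CC) (hc' : c' ∈ S.CC) (B : ℝ) (hB0 : 0 ≤ B)
    (hB : ∀ x : ℤ, IsCoprime x (W0 : ℤ) → ∑ μ ∈ S.MX, ∑ ν ∈ S.MY, M.m1 μ ν *
      (ind (¬ S.badpair T 0 T.y0 μ ν) * (U4 S T * (∏ p ∈ T.base, S.l2 T c c' μ ν x False False p) + 3 * U5 S T W0 ^ 2)) ≤ M.tot1 * B) :
    ∑ d ∈ T.DS b1, ∑ d' ∈ T.DS b1, |M.TS T W0 c c' d d'| ≤ M.W * M.tot1 * ((1 + η') ^ (2 * S.n0) * B) +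
        (T.DS b1).card ^ 2 * M.er T W0 b1 δ1 := by
  have hE : 0 ≤ (1 + η') ^ (2 * S.n0) := pow_nonneg (by linarith) _
  have htot := Q21_tot hS hM
  have h1 : ∑ d ∈ T.DS b1, ∑ d' ∈ T.DS b1, |M.TS T W0 c c' d d'| = ∑ z ∈ T.DS b1 ×ˢ T.DS b1, |M.TS T W0 c c' z.1 z.2| := by
    rw [sum_product]
  have h2 : ∑ z ∈ T.DS b1 ×ˢ T.DS b1, |M.TS T W0 c c' z.1 z.2| ≤
      ∑ z ∈ T.DS b1 ×ˢ T.DS b1, (M.W * M.ax (T.qd W0 (z.1 ∪ z.2)) (Q21_KK M T W0 c c' z) + M.er T W0 b1 δ1) :=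
    sum_le_sum fun z hz => Q21_TS hT hS hM hq hz
  have h3 : ∑ z ∈ T.DS b1 ×ˢ T.DS b1, (M.W * M.ax (T.qd W0 (z.1 ∪ z.2)) (Q21_KK M T W0 c c' z) + M.er T W0 b1 δ1) =
      M.W * ∑ z ∈ T.DS b1 ×ˢ T.DS b1, M.ax (T.qd W0 (z.1 ∪ z.2)) (Q21_KK M T W0 c c' z) +
        ((T.DS b1).card : ℝ) ^ 2 * M.er T W0 b1 δ1 := by
    rw [sum_add_distrib, ← mul_sum, sum_const, card_product, nsmul_eq_mul]
    push_cast
    ring
  have h4 : ∑ z ∈ T.DS b1 ×ˢ T.DS b1, M.ax (T.qd W0 (z.1 ∪ z.2)) (Q21_KK M T W0 c c' z) ≤ (1 + η') ^ (2 * S.n0) * (M.tot1 * B) := by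
    refine Q21_KK_sum hT hM (mul_nonneg hE (mul_nonneg htot hB0)) fun x hx => ?_
    exact (Q21_mid hT hS hM hη hsX hsY hQ0 hc hc' hx).trans (mul_le_mul_of_nonneg_left (hB x hx) hE)
  have h5 := mul_le_mul_of_nonneg_left h4 hM.W_pos.le
  have h6 : M.W * ((1 + η') ^ (2 * S.n0) * (M.tot1 * B)) = M.W * M.tot1 * ((1 + η') ^ (2 * S.n0) * B) := by ring
  rw [h1]
  rw [h6] at h5
  rw [h3] at h2
  linarith

theorem Q21_sum (hT : T.OK W0) (hS : S.OK T W0 Z) (hA : S.An T p1 Q0 η Cα) (hM : M.OK T W0 δ0 δ1) (hη : 0 ≤ η') (hsX : ∀ f, SWc T.N T.D M.hX η' Q0 (S.FX f))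
    (hsY : ∀ f, SWc T.N T.D M.hY η' Q0 (S.FY f)) (hQ0 : ∀ d ∈ T.DS b1, ∀ d' ∈ T.DS b1, (∏ p ∈ T.base ∪ d ∪ d', p ^ (padicValNat p T.D + 1)) * p1 ≤ Q0)
    (hq : (W0 : ℝ) * (T.y0 : ℝ) ^ (24 * b1) ≤ (T.N : ℝ) ^ δ0) (hc : c ∈ S.CC) (hc' : c' ∈ S.CC) :
    (¬ Fun c c' → ∑ d ∈ T.DS b1, ∑ d' ∈ T.DS b1, |M.TS T W0 c c' d d'| ≤
      M.W * M.tot1 * ((1 + η') ^ (2 * S.n0) * (U4 S T * (MA S T Cα * (1 + 5 * ((S.k + 1 : ℕ) : ℝ) ^ 2 / ((p1 : ℝ) - 1))) + 3 * U5 S T W0 ^ 2)) +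
        (T.DS b1).card ^ 2 * M.er T W0 b1 δ1) ∧
    ∑ d ∈ T.DS b1, ∑ d' ∈ T.DS b1, |M.TS T W0 c c' d d'| ≤
      M.W * M.tot1 * ((1 + η') ^ (2 * S.n0) * (U4 S T * U6 T W0 + 3 * U5 S T W0 ^ 2)) + (T.DS b1).card ^ 2 * M.er T W0 b1 δ1 := by
  classical
  have hp1 : 1 ≤ p1 := hA.p1_pr.pos
  have hη1 : (1 : ℝ) ≤ (1 + η') ^ (2 * S.n0) := one_le_pow₀ (by linarith)
  have hE : 0 ≤ (1 + η') ^ (2 * S.n0) := zero_le_one.trans hη1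
  have htot := Q21_tot hS hM
  have hU4 : 0 ≤ U4 S T := by
    unfold U4
    positivity
  have hU6 : 0 ≤ U6 T W0 := by
    unfold U6
    positivity
  have hMA : 0 ≤ MA S T Cα := by
    unfold MA
    have := hA.Cα_lo
    positivity
  have hp1' : (0 : ℝ) < (p1 : ℝ) - 1 := by
    have : (2 : ℝ) ≤ p1 := by exact_mod_cast hA.p1_pr.two_le
    linarith
  have hfr : 0 ≤ 5 * ((S.k + 1 : ℕ) : ℝ) ^ 2 / ((p1 : ℝ) - 1) := div_nonneg (by positivity) hp1'.le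
  have hQ0' : ∀ d ∈ T.DS b1, ∀ d' ∈ T.DS b1, ∏ p ∈ T.base ∪ d ∪ d', p ^ (padicValNat p T.D + 1) ≤ Q0 :=
    fun d hd d' hd' => (Nat.le_mul_of_pos_right _ hp1).trans (hQ0 d hd d' hd')
  have hempty : (∅ : Finset ℕ) ∈ T.DS b1 := by
    unfold Dat.DS
    rw [mem_filter]
    refine ⟨empty_mem_powerset _, ?_⟩
    rw [prod_empty]
    exact Nat.one_le_pow _ _ (by have := hT.D_le; have := hT.D_pos; omega)
  have hQb : (∏ p ∈ T.base, p ^ (padicValNat p T.D + 1)) * p1 ≤ Q0 := by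
    have := hQ0 ∅ hempty ∅ hempty
    rwa [union_empty, union_empty] at this
  obtain ⟨hPS1, hPS2, -, -⟩ := Q17_qd hT (subset_refl T.PS)
  have key := fun (B : ℝ) (hB0 : 0 ≤ B) (hB : ∀ x : ℤ, IsCoprime x (W0 : ℤ) → ∑ μ ∈ S.MX, ∑ ν ∈ S.MY, M.m1 μ ν *
      (ind (¬ S.badpair T 0 T.y0 μ ν) * (U4 S T * (∏ p ∈ T.base, S.l2 T c c' μ ν x False False p) + 3 * U5 S T W0 ^ 2)) ≤ M.tot1 * B) =>
    Q21_key hT hS hM hη hsX hsY hQ0' hq hc hc' B hB0 hB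
  refine ⟨fun hF => ?_, ?_⟩
  · refine key _ (by positivity) fun x hx => ?_
    have h1 : ∑ μ ∈ S.MX, ∑ ν ∈ S.MY, M.m1 μ ν * (ind (¬ S.badpair T 0 T.y0 μ ν) *
        (U4 S T * (∏ p ∈ T.base, S.l2 T c c' μ ν x False False p) + 3 * U5 S T W0 ^ 2)) ≤
        ∑ μ ∈ S.MX, ∑ ν ∈ S.MY, M.m1 μ ν * (U4 S T * ((∏ p ∈ T.base, S.l2 T c c' μ ν x False False p) * (1 + M.lco T p1 c c' μ ν)) +
          3 * U5 S T W0 ^ 2) := by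
      refine Q21_sumle hS hM fun μ hμ ν hν => ?_
      have hl : 0 ≤ ∏ p ∈ T.base, S.l2 T c c' μ ν x False False p := prod_nonneg fun p _ => Q18_l2_nonneg _ _ _
      have h2 := (QAx_lco (T := T) (M := M) p1 c c' μ ν).1
      have h3 : 0 ≤ U4 S T * (∏ p ∈ T.base, S.l2 T c c' μ ν x False False p) + 3 * U5 S T W0 ^ 2 := by positivity
      have h4 : ind (¬ S.badpair T 0 T.y0 μ ν) * (U4 S T * (∏ p ∈ T.base, S.l2 T c c' μ ν x False False p) + 3 * U5 S T W0 ^ 2) ≤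
          1 * (U4 S T * (∏ p ∈ T.base, S.l2 T c c' μ ν x False False p) + 3 * U5 S T W0 ^ 2) :=
        mul_le_mul_of_nonneg_right (ind_le_one _) h3
      have h5 : 0 ≤ U4 S T * ((∏ p ∈ T.base, S.l2 T c c' μ ν x False False p) * M.lco T p1 c c' μ ν) := mul_nonneg hU4 (mul_nonneg hl h2)
      linarith
    refine h1.trans ?_
    have h2 : ∑ μ ∈ S.MX, ∑ ν ∈ S.MY, M.m1 μ ν * (U4 S T * ((∏ p ∈ T.base, S.l2 T c c' μ ν x False False p) * (1 + M.lco T p1 c c' μ ν)) +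
          3 * U5 S T W0 ^ 2) = U4 S T * ∑ μ ∈ S.MX, ∑ ν ∈ S.MY, M.m1 μ ν * ((∏ p ∈ T.base, S.l2 T c c' μ ν x False False p) *
            (1 + M.lco T p1 c c' μ ν)) + M.tot1 * (3 * U5 S T W0 ^ 2) := by
      rw [← Q21_const, mul_sum, ← sum_add_distrib]
      refine sum_congr rfl fun μ _ => ?_
      rw [mul_sum, ← sum_add_distrib]
      exact sum_congr rfl fun ν _ => by ring
    rw [h2]
    have h3 := Q19 hT hS hA hM hQb hF hx (zero_le_one' ℝ)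
    have h4 := mul_le_mul_of_nonneg_left h3 hU4
    have h5 : U4 S T * ((3 * Cα) ^ (S.k + 1) * (4 ^ T.base.card * (T.D.divisors.card : ℝ) / (T.D : ℝ) ^ 2) *
        (1 + 5 * ((S.k + 1 : ℕ) : ℝ) ^ 2 / ((p1 : ℝ) - 1)) * ∑ μ ∈ S.MX, ∑ ν ∈ S.MY, M.m1 μ ν) =
        M.tot1 * (U4 S T * (MA S T Cα * (1 + 5 * ((S.k + 1 : ℕ) : ℝ) ^ 2 / ((p1 : ℝ) - 1)))) := by
      unfold MA Msr.tot1
      ring
    rw [h5] at h4
    linarith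
  · refine key _ (by positivity) fun x hx => ?_
    rw [← Q21_const]
    refine Q21_sumle hS hM fun μ hμ ν hν => ?_
    by_cases hb : S.badpair T 0 T.y0 μ ν
    · rw [ind_false (not_not.2 hb), zero_mul]
      positivity
    · rw [ind_true hb, one_mul]
      have h1 : ∏ p ∈ T.base, S.l2 T c c' μ ν x False False p ≤ U6 T W0 := by
        refine le_trans (prod_le_prod (fun p _ => Q18_l2_nonneg _ _ _) fun p _ => (Q18_l2_le hc hc' False False p).2.1) ?_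
        exact (Q18_base (X := x) hT hS hμ hν hb hx).1
      have h2 := mul_le_mul_of_nonneg_left h1 hU4
      linarith

end Pool.Agent.Lib.TC
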