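import Pool.Agent.Lib.MP_7b7e48_nt.TC.Q05
import Pool.Agent.Lib.MP_7b7e48_nt.TC.QAx
import Pool.Agent.Lib.MP_7b7e48_nt.TC.Q06
import Pool.Agent.Lib.MP_7b7e48_nt.TC.Q21

/-!
# Q22: the second moment of the large sieve, one pair of colourings

`TL` is the sum over good pairs of tuples and over `n` of `Om * G(X) * Ψ(n)`, `G x = ind (x coprime to W0) FF c d FF c' d'` (`0 ≤ G ≤ 1`, periodic modulo `q = qd (d ∪ d')`), `Ψ = (Ll s c - Ml s)(Ll s' c' - Ml s')`.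
`Q07b` with `Q06` (`q1 = q`, `Θ = Th c c'`): `|..| ≤ Th ms ax q G + q N^(-δ1) W (2 (NJ z + 1) z^(24 b2))²`. `Th ≤ Th0 * 1` always, and by `Q05` `Th ≤ Th0 (ϑ0 + ind co)` with `Th0 = 4 (NJ z + 1)² V3`, `ϑ0 = (300 m² log N + 1) (2 m/y0)`.
Then as in `Q21_sum` (`Q20_co` with `Kp = ¬ badpair`, `Q18_a`, `Q19`); for the second statement use `Th ≤ Th0 ≤ Th0 (1 + ind co)`, `Q20_co` with `ϑ = 1`, `lco ≤ 1`, `∏_{base} l2 ≤ U6`.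
-/

set_option autoImplicit false

open Finset
open Pool.Agent.Lib.GT (NJ)

namespace Pool.Agent.Lib.TC

noncomputable def Msr.TL {S : MS} (M : Msr S) (T : Dat) (W0 b2 : ℕ) (s s' : Bool) (c c' : S.Col) (d d' : Finset ℕ) : ℝ :=
  ∑ μ ∈ S.MX, ∑ ν ∈ S.MY, ind (M.gp T μ ν) * ∑ n ∈ range (M.nm + 1), M.Om μ ν n *
    (ind (IsCoprime (M.X μ ν n : ℤ) (W0 : ℤ)) * (S.FF T c μ ν (M.X μ ν n) d * S.FF T c' μ ν (M.X μ ν n) d') *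
      ((M.Ll T s b2 c μ ν (M.X μ ν n) - M.Ml T s b2) * (M.Ll T s' b2 c' μ ν (M.X μ ν n) - M.Ml T s' b2)))

noncomputable def Msr.Th0 {S : MS} (M : Msr S) (T : Dat) : ℝ := 4 * ((NJ T.z : ℝ) + 1) ^ 2 * M.V3 T

noncomputable def th0 (S : MS) (T : Dat) : ℝ := (300 * ((S.k + 1 : ℕ) : ℝ) ^ 2 * Real.log T.N + 1) * (2 * ((S.k + 1 : ℕ) : ℝ) / T.y0)

/-- the additive error of one pair `d, d'` -/
noncomputable def Msr.erL {S : MS} (M : Msr S) (T : Dat) (W0 b1 b2 : ℕ) (δ1 : ℝ) : ℝ :=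
  M.er T W0 b1 δ1 * (2 * ((NJ T.z : ℝ) + 1) * (T.z : ℝ) ^ (24 * b2)) ^ 2

variable {S : MS} {T : Dat} {W0 : ℕ} {Z : Fin (S.k + 1) → ℕ} {M : Msr S} {δ0 δ1 : ℝ} {p1 Q0 : ℕ} {η η' Cα : ℝ} {c c' : S.Col} {b1 b2 : ℕ}

private theorem Q22_sub {d : Finset ℕ} (hd : d ∈ T.DS b1) : d ⊆ T.PS := by
  unfold Dat.DS at hd
  exact mem_powerset.1 (mem_filter.1 hd).1

private theorem Q22_tot (hS : S.OK T W0 Z) (hM : M.OK T W0 δ0 δ1) : 0 ≤ M.tot1 := by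
  unfold Msr.tot1
  exact sum_nonneg fun μ hμ => sum_nonneg fun ν hν => QAx_m1 hS hM hμ hν

private theorem Q22_sumle (hS : S.OK T W0 Z) (hM : M.OK T W0 δ0 δ1) {f g : S.TX → S.TY → ℝ}
    (h : ∀ μ ∈ S.MX, ∀ ν ∈ S.MY, f μ ν ≤ g μ ν) :
    ∑ μ ∈ S.MX, ∑ ν ∈ S.MY, M.m1 μ ν * f μ ν ≤ ∑ μ ∈ S.MX, ∑ ν ∈ S.MY, M.m1 μ ν * g μ ν :=
  sum_le_sum fun μ hμ => sum_le_sum fun ν hν => mul_le_mul_of_nonneg_left (h μ hμ ν hν) (QAx_m1 hS hM hμ hν)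

private theorem Q22_const (C : ℝ) : ∑ μ ∈ S.MX, ∑ ν ∈ S.MY, M.m1 μ ν * C = M.tot1 * C := by
  unfold Msr.tot1
  rw [sum_mul]
  exact sum_congr rfl fun μ _ => by rw [sum_mul]

private theorem Q22_V3 (hM : M.OK T W0 δ0 δ1) : 0 ≤ M.V3 T := by
  unfold Msr.V3
  refine prod_nonneg fun p hp => ?_
  unfold Dat.PL at hp
  rw [mem_filter] at hp
  have h := (hM.g_large p hp.2.1 hp.2.2).1
  positivity

private theorem Q22_Th0 (hM : M.OK T W0 δ0 δ1) : 0 ≤ M.Th0 T := by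
  unfold Msr.Th0
  exact mul_nonneg (by positivity) (Q22_V3 hM)

private theorem Q22_Th (hM : M.OK T W0 δ0 δ1) (μ : S.TX) (ν : S.TY) : 0 ≤ M.Th T c c' μ ν ∧ M.Th T c c' μ ν ≤ M.Th0 T := by
  have hV := Q22_V3 hM
  have h1 : 0 ≤ min 1 ((3 * ((M.exc T c c' μ ν).card : ℝ) + 1) * (2 * ((S.k + 1 : ℕ) : ℝ) / T.y0)) :=
    le_min zero_le_one (by positivity)
  have h2 : min 1 ((3 * ((M.exc T c c' μ ν).card : ℝ) + 1) * (2 * ((S.k + 1 : ℕ) : ℝ) / T.y0)) ≤ 1 := min_le_left _ _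
  unfold Msr.Th Msr.Th0
  refine ⟨mul_nonneg (mul_nonneg (by positivity) h1) hV, ?_⟩
  refine mul_le_mul_of_nonneg_right ?_ hV
  exact mul_le_of_le_one_right (by positivity) h2

private theorem Q22_th0 (hT : T.OK W0) : 0 ≤ th0 S T := by
  have hN : (1 : ℝ) ≤ T.N := by
    have := hT.N_pos
    exact_mod_cast (by omega : 1 ≤ T.N)
  have h := Real.log_nonneg hN
  unfold th0
  positivity

private theorem Q22_Th1 (hT : T.OK W0) (hS : S.OK T W0 Z) (hA : S.An T p1 Q0 η Cα) (hM : M.OK T W0 δ0 δ1) (hc : c ∈ S.CC) (hc' : c' ∈ S.CC)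
    {μ : S.TX} {ν : S.TY} (hμ : μ ∈ S.MX) (hν : ν ∈ S.MY) :
    M.Th T c c' μ ν ≤ M.Th0 T * (th0 S T + ind (M.co T p1 c c' μ ν)) := by
  have hV := Q22_V3 hM
  have hth := Q22_th0 (S := S) hT
  have h1 : min 1 ((3 * ((M.exc T c c' μ ν).card : ℝ) + 1) * (2 * ((S.k + 1 : ℕ) : ℝ) / T.y0)) ≤
      th0 S T + ind (M.co T p1 c c' μ ν) := by
    by_cases hco : M.co T p1 c c' μ ν
    · rw [ind_true hco]
      exact (min_le_left _ _).trans (by linarith)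
    · rw [ind_false hco, add_zero]
      refine (min_le_right _ _).trans ?_
      unfold th0
      refine mul_le_mul_of_nonneg_right ?_ (by positivity)
      have h2 := Q05 hT hS hA hM hμ hν hc hc' hco
      linarith
  unfold Msr.Th Msr.Th0
  have h2 := mul_le_mul_of_nonneg_left h1 (show 0 ≤ 4 * ((NJ T.z : ℝ) + 1) ^ 2 * M.V3 T from mul_nonneg (by positivity) hV)
  calc _ = 4 * ((NJ T.z : ℝ) + 1) ^ 2 * M.V3 T * min 1 ((3 * ((M.exc T c c' μ ν).card : ℝ) + 1) * (2 * ((S.k + 1 : ℕ) : ℝ) / T.y0)) := by ring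
    _ ≤ _ := h2

private noncomputable def Q22_G (S : MS) (T : Dat) (W0 : ℕ) (c c' : S.Col) (z : Finset ℕ × Finset ℕ) (μ : S.TX) (ν : S.TY) (x : ℤ) : ℝ :=
  ind (IsCoprime x (W0 : ℤ)) * (S.FF T c μ ν x z.1 * S.FF T c' μ ν x z.2)

private theorem Q22_G_nn (z : Finset ℕ × Finset ℕ) (μ : S.TX) (ν : S.TY) (x : ℤ) : 0 ≤ Q22_G S T W0 c c' z μ ν x :=
  mul_nonneg (ind_nonneg _) (mul_nonneg (QAx_FF _ _ _ _ _).1 (QAx_FF _ _ _ _ _).1)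

private theorem Q22_G_le (z : Finset ℕ × Finset ℕ) (μ : S.TX) (ν : S.TY) (x : ℤ) : Q22_G S T W0 c c' z μ ν x ≤ 1 := by
  unfold Q22_G
  have h1 := QAx_FF (T := T) c μ ν x z.1
  have h2 := QAx_FF (T := T) c' μ ν x z.2
  calc ind (IsCoprime x (W0 : ℤ)) * (S.FF T c μ ν x z.1 * S.FF T c' μ ν x z.2) ≤ 1 * (1 * 1) :=
        mul_le_mul (ind_le_one _) (mul_le_mul h1.2 h2.2 h2.1 zero_le_one) (mul_nonneg h1.1 h2.1) zero_le_one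
    _ = 1 := by norm_num

private theorem Q22_G_per (hT : T.OK W0) {z : Finset ℕ × Finset ℕ} (hz : z ∈ T.DS b1 ×ˢ T.DS b1) (μ : S.TX) (ν : S.TY) {x x' : ℤ}
    (h : x ≡ x' [ZMOD T.qd W0 (z.1 ∪ z.2)]) : Q22_G S T W0 c c' z μ ν x = Q22_G S T W0 c c' z μ ν x' := by
  obtain ⟨hd, hd'⟩ := mem_product.1 hz
  have hu : z.1 ∪ z.2 ⊆ T.PS := union_subset (Q22_sub hd) (Q22_sub hd')
  unfold Q22_G
  rw [Q17_FF hT subset_union_left hu h, Q17_FF hT subset_union_right hu h, propext (QAx_cop h)]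

private noncomputable def Q22_KK (M : Msr S) (T : Dat) (W0 : ℕ) (c c' : S.Col) (z : Finset ℕ × Finset ℕ) (x : ℤ) : ℝ :=
  ∑ μ ∈ S.MX, ∑ ν ∈ S.MY, M.m1 μ ν * (ind (M.gp T μ ν) * (M.Th T c c' μ ν * Q22_G S T W0 c c' z μ ν x))

private theorem Q22_KK_sum (hT : T.OK W0) (hM : M.OK T W0 δ0 δ1) {B : ℝ} (hB0 : 0 ≤ B)
    (hB : ∀ x : ℤ, IsCoprime x (W0 : ℤ) → ∑ z ∈ T.DS b1 ×ˢ T.DS b1, Q22_KK M T W0 c c' z x ≤ B) :
    ∑ z ∈ T.DS b1 ×ˢ T.DS b1, M.ax (T.qd W0 (z.1 ∪ z.2)) (Q22_KK M T W0 c c' z) ≤ B := by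
  obtain ⟨hPS1, hPS2, -, -⟩ := Q17_qd hT (subset_refl T.PS)
  have h1 : ∀ z ∈ T.DS b1 ×ˢ T.DS b1, T.qd W0 (z.1 ∪ z.2) ∣ T.qd W0 T.PS := by
    intro z hz
    obtain ⟨hd, hd'⟩ := mem_product.1 hz
    exact QAx_qd_dvd (union_subset (Q22_sub hd) (Q22_sub hd'))
  have h2 : ∀ z ∈ T.DS b1 ×ˢ T.DS b1, ∀ x x' : ℤ, x ≡ x' [ZMOD T.qd W0 (z.1 ∪ z.2)] →
      Q22_KK M T W0 c c' z x = Q22_KK M T W0 c c' z x' := by
    intro z hz x x' h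
    unfold Q22_KK
    refine sum_congr rfl fun μ _ => sum_congr rfl fun ν _ => ?_
    rw [Q22_G_per hT hz μ ν h]
  have h3 : ∀ x : ℤ, ∑ z ∈ T.DS b1 ×ˢ T.DS b1, Q22_KK M T W0 c c' z x ≤ B := by
    intro x
    by_cases hx : IsCoprime x (W0 : ℤ)
    · exact hB x hx
    · have h4 : ∀ z ∈ T.DS b1 ×ˢ T.DS b1, Q22_KK M T W0 c c' z x = 0 := by
        intro z _
        unfold Q22_KK
        refine sum_eq_zero fun μ _ => sum_eq_zero fun ν _ => ?_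
        unfold Q22_G
        rw [ind_false hx, zero_mul, mul_zero, mul_zero, mul_zero]
      rw [sum_eq_zero h4]
      exact hB0
  exact QAx_sumle (M := M) (T := T) hM hPS1 hPS2 (T.DS b1 ×ˢ T.DS b1) (fun z : Finset ℕ × Finset ℕ => T.qd W0 (z.1 ∪ z.2)) h1
    (fun z => Q22_KK M T W0 c c' z) h2 h3

/-- the summand of one pair of tuples -/
private theorem Q22_one (hT : T.OK W0) (hS : S.OK T W0 Z) (hM : M.OK T W0 δ0 δ1) (hb : 1 ≤ b2)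
    (hq : (W0 : ℝ) * (T.y0 : ℝ) ^ (24 * b1) * (T.z : ℝ) ^ (24 * b2) ≤ (T.N : ℝ) ^ δ0) (s s' : Bool)
    {z : Finset ℕ × Finset ℕ} (hz : z ∈ T.DS b1 ×ˢ T.DS b1) {μ : S.TX} {ν : S.TY} (hμ : μ ∈ S.MX) (hν : ν ∈ S.MY) (hg : M.gp T μ ν) :
    |∑ n ∈ range (M.nm + 1), M.Om μ ν n *
      (ind (IsCoprime (M.X μ ν n : ℤ) (W0 : ℤ)) * (S.FF T c μ ν (M.X μ ν n) z.1 * S.FF T c' μ ν (M.X μ ν n) z.2) *
      ((M.Ll T s b2 c μ ν (M.X μ ν n) - M.Ml T s b2) * (M.Ll T s' b2 c' μ ν (M.X μ ν n) - M.Ml T s' b2)))| ≤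
    M.Th T c c' μ ν * M.ms μ ν * M.ax (T.qd W0 (z.1 ∪ z.2)) (Q22_G S T W0 c c' z μ ν) +
      (W0 * (T.y0 : ℝ) ^ (24 * b1)) * ((T.N : ℝ) ^ (-δ1) * M.W * (2 * ((NJ T.z : ℝ) + 1) * (T.z : ℝ) ^ (24 * b2)) ^ 2) := by
  obtain ⟨hd, hd'⟩ := mem_product.1 hz
  obtain ⟨h1, h2, -, -⟩ := Q17_qd hT (union_subset (Q22_sub hd) (Q22_sub hd'))
  have h3 := QAx_DS hT hd hd'
  have hE : 0 ≤ (T.N : ℝ) ^ (-δ1) * M.W * (2 * ((NJ T.z : ℝ) + 1) * (T.z : ℝ) ^ (24 * b2)) ^ 2 :=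
    mul_nonneg (mul_nonneg (Real.rpow_nonneg (Nat.cast_nonneg _) _) hM.W_pos.le) (by positivity)
  have h4 : (T.qd W0 (z.1 ∪ z.2) : ℝ) * (T.z : ℝ) ^ (24 * b2) ≤ (T.N : ℝ) ^ δ0 :=
    (mul_le_mul_of_nonneg_right h3 (by positivity)).trans hq
  have h5 := Q07b hT hS hM hμ hν h1 h2 (Q22_G S T W0 c c' z μ ν) (fun x x' h => Q22_G_per hT hz μ ν h) (Q22_G_nn z μ ν) 1 (Q22_G_le z μ ν)
    (fun n => (M.Ll T s b2 c μ ν (M.X μ ν n) - M.Ml T s b2) * (M.Ll T s' b2 c' μ ν (M.X μ ν n) - M.Ml T s' b2))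
    (M.Th T c c' μ ν) ((T.N : ℝ) ^ (-δ1) * M.W * (2 * ((NJ T.z : ℝ) + 1) * (T.z : ℝ) ^ (24 * b2)) ^ 2) hE
    (fun r hr => Q06 hT hS hM hμ hν hg.1 c c' s s' hb h1 h2 h4 r hr)
  have h6 : ∑ n ∈ range (M.nm + 1), M.Om μ ν n *
      (ind (IsCoprime (M.X μ ν n : ℤ) (W0 : ℤ)) * (S.FF T c μ ν (M.X μ ν n) z.1 * S.FF T c' μ ν (M.X μ ν n) z.2) *
      ((M.Ll T s b2 c μ ν (M.X μ ν n) - M.Ml T s b2) * (M.Ll T s' b2 c' μ ν (M.X μ ν n) - M.Ml T s' b2))) =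
      ∑ n ∈ range (M.nm + 1), M.Om μ ν n * Q22_G S T W0 c c' z μ ν (M.X μ ν n) *
      ((M.Ll T s b2 c μ ν (M.X μ ν n) - M.Ml T s b2) * (M.Ll T s' b2 c' μ ν (M.X μ ν n) - M.Ml T s' b2)) := by
    refine sum_congr rfl fun n _ => ?_
    unfold Q22_G
    exact (mul_assoc _ _ _).symm
  rw [h6]
  refine h5.trans ?_
  rw [mul_one]
  have h7 := mul_le_mul_of_nonneg_right h3 hE
  linarith

private theorem Q22_TL (hT : T.OK W0) (hS : S.OK T W0 Z) (hM : M.OK T W0 δ0 δ1) (hb : 1 ≤ b2)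
    (hq : (W0 : ℝ) * (T.y0 : ℝ) ^ (24 * b1) * (T.z : ℝ) ^ (24 * b2) ≤ (T.N : ℝ) ^ δ0) (s s' : Bool)
    {z : Finset ℕ × Finset ℕ} (hz : z ∈ T.DS b1 ×ˢ T.DS b1) :
    |M.TL T W0 b2 s s' c c' z.1 z.2| ≤ M.W * M.ax (T.qd W0 (z.1 ∪ z.2)) (Q22_KK M T W0 c c' z) + M.erL T W0 b1 b2 δ1 := by
  set E : ℝ := (W0 * (T.y0 : ℝ) ^ (24 * b1)) * ((T.N : ℝ) ^ (-δ1) * M.W * (2 * ((NJ T.z : ℝ) + 1) * (T.z : ℝ) ^ (24 * b2)) ^ 2) with hEdef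
  have hE : 0 ≤ E := by
    rw [hEdef]
    exact mul_nonneg (by positivity) (mul_nonneg (mul_nonneg (Real.rpow_nonneg (Nat.cast_nonneg _) _) hM.W_pos.le) (by positivity))
  have h1 : M.W * M.ax (T.qd W0 (z.1 ∪ z.2)) (Q22_KK M T W0 c c' z) =
      ∑ μ ∈ S.MX, ∑ ν ∈ S.MY, ind (M.gp T μ ν) * (M.Th T c c' μ ν * M.ms μ ν * M.ax (T.qd W0 (z.1 ∪ z.2)) (Q22_G S T W0 c c' z μ ν)) := by
    have h0 : Q22_KK M T W0 c c' z = fun x => ∑ μ ∈ S.MX, ∑ ν ∈ S.MY, M.m1 μ ν * (ind (M.gp T μ ν) * (M.Th T c c' μ ν * Q22_G S T W0 c c' z μ ν x)) := rfl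
    rw [h0, QAx_sum, mul_sum]
    refine sum_congr rfl fun μ _ => ?_
    rw [QAx_sum, mul_sum]
    refine sum_congr rfl fun ν _ => ?_
    have h2 : M.ax (T.qd W0 (z.1 ∪ z.2)) (fun x => M.m1 μ ν * (ind (M.gp T μ ν) * (M.Th T c c' μ ν * Q22_G S T W0 c c' z μ ν x))) =
        M.ax (T.qd W0 (z.1 ∪ z.2)) (fun x => (M.m1 μ ν * ind (M.gp T μ ν) * M.Th T c c' μ ν) * Q22_G S T W0 c c' z μ ν x) := by
      congr 1
      funext x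
      ring
    rw [h2, QAx_mul]
    unfold Msr.ms
    have h3 : M.ax (T.qd W0 (z.1 ∪ z.2)) (fun x => Q22_G S T W0 c c' z μ ν x) = M.ax (T.qd W0 (z.1 ∪ z.2)) (Q22_G S T W0 c c' z μ ν) := rfl
    rw [h3]
    ring
  have h2 : M.erL T W0 b1 b2 δ1 = (S.MX.card : ℝ) * (S.MY.card * E) := by
    unfold Msr.erL Msr.er
    rw [hEdef]
    ring
  rw [h1, h2, ← nsmul_eq_mul, ← sum_const, ← sum_add_distrib]
  unfold Msr.TL
  refine (abs_sum_le_sum_abs _ _).trans (sum_le_sum fun μ hμ => ?_)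
  rw [← nsmul_eq_mul, ← sum_const, ← sum_add_distrib]
  refine (abs_sum_le_sum_abs _ _).trans (sum_le_sum fun ν hν => ?_)
  rw [abs_mul, abs_of_nonneg (ind_nonneg _)]
  by_cases hg : M.gp T μ ν
  · rw [ind_true hg, one_mul, one_mul]
    exact Q22_one hT hS hM hb hq s s' hz hμ hν hg
  · rw [ind_false hg, zero_mul, zero_mul, zero_add]
    exact hE

/-- the sums over `d`, `d'` for one class of `X` -/
private theorem Q22_mid (hT : T.OK W0) (hS : S.OK T W0 Z) (hA : S.An T p1 Q0 η Cα) (hM : M.OK T W0 δ0 δ1) (hη : 0 ≤ η')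
    (hsX : ∀ f, SWc T.N T.D M.hX η' Q0 (S.FX f)) (hsY : ∀ f, SWc T.N T.D M.hY η' Q0 (S.FY f))
    (hQ0 : ∀ d ∈ T.DS b1, ∀ d' ∈ T.DS b1, (∏ p ∈ T.base ∪ d ∪ d', p ^ (padicValNat p T.D + 1)) * p1 ≤ Q0)
    (hc : c ∈ S.CC) (hc' : c' ∈ S.CC) {x : ℤ} (hx : IsCoprime x (W0 : ℤ)) {ϑ : ℝ} (hϑ : 0 ≤ ϑ)
    (hTh : ∀ μ ∈ S.MX, ∀ ν ∈ S.MY, M.Th T c c' μ ν ≤ M.Th0 T * (ϑ + ind (M.co T p1 c c' μ ν))) :
    ∑ z ∈ T.DS b1 ×ˢ T.DS b1, Q22_KK M T W0 c c' z x ≤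
      M.Th0 T * ((1 + η') ^ (2 * S.n0) * ∑ μ ∈ S.MX, ∑ ν ∈ S.MY, M.m1 μ ν * (ind (¬ S.badpair T 0 T.y0 μ ν) *
        (U4 S T * ((∏ p ∈ T.base, S.l2 T c c' μ ν x False False p) * (ϑ + M.lco T p1 c c' μ ν))))) := by
  have hE : 0 ≤ (1 + η') ^ (2 * S.n0) := pow_nonneg (by linarith) _
  have hTh0 := Q22_Th0 hM
  have h1 : ∀ z ∈ T.DS b1 ×ˢ T.DS b1, Q22_KK M T W0 c c' z x ≤
      M.Th0 T * ((1 + η') ^ (2 * S.n0) * ∑ μ ∈ S.MX, ∑ ν ∈ S.MY, M.m1 μ ν * (ind (¬ S.badpair T 0 T.y0 μ ν) *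
        ((∏ p ∈ T.base ∪ z.1 ∪ z.2, S.l2 T c c' μ ν x (p ∈ z.1) (p ∈ z.2) p) * (ϑ + M.lco T p1 c c' μ ν)))) := by
    intro z hz
    obtain ⟨hd, hd'⟩ := mem_product.1 hz
    have h2 := Q20_co (X := x) hT hS hA hM hη hsX hsY hc hc' (Q22_sub hd) (Q22_sub hd') (hQ0 z.1 hd z.2 hd')
        (fun μ ν => ¬ S.badpair T 0 T.y0 μ ν) (fun μ μ' ν ν' h h' => QAx_Kbad μ μ' ν ν' h h') hϑ
    refine le_trans ?_ (mul_le_mul_of_nonneg_left h2 hTh0)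
    have h3 : M.Th0 T * ∑ μ ∈ S.MX, ∑ ν ∈ S.MY, M.m1 μ ν * (ind (¬ S.badpair T 0 T.y0 μ ν) * (S.FF T c μ ν x z.1 * S.FF T c' μ ν x z.2 *
        (ϑ + ind (M.co T p1 c c' μ ν)))) = ∑ μ ∈ S.MX, ∑ ν ∈ S.MY, M.m1 μ ν * (M.Th0 T * (ind (¬ S.badpair T 0 T.y0 μ ν) *
          (S.FF T c μ ν x z.1 * S.FF T c' μ ν x z.2 * (ϑ + ind (M.co T p1 c c' μ ν))))) := by
      rw [mul_sum]
      refine sum_congr rfl fun μ _ => ?_
      rw [mul_sum]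
      exact sum_congr rfl fun ν _ => by ring
    rw [h3]
    unfold Q22_KK
    refine Q22_sumle hS hM fun μ hμ ν hν => ?_
    unfold Q22_G
    rw [ind_true hx, one_mul]
    have h4 := hTh μ hμ ν hν
    have h5 := mul_nonneg (QAx_FF (T := T) c μ ν x z.1).1 (QAx_FF (T := T) c' μ ν x z.2).1
    have h6 : ind (M.gp T μ ν) ≤ ind (¬ S.badpair T 0 T.y0 μ ν) := ind_mono fun h => h.2
    have h7 := (Q22_Th (c := c) (c' := c') hM μ ν).1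
    calc ind (M.gp T μ ν) * (M.Th T c c' μ ν * (S.FF T c μ ν x z.1 * S.FF T c' μ ν x z.2)) ≤
          ind (¬ S.badpair T 0 T.y0 μ ν) * ((M.Th0 T * (ϑ + ind (M.co T p1 c c' μ ν))) * (S.FF T c μ ν x z.1 * S.FF T c' μ ν x z.2)) :=
          mul_le_mul h6 (mul_le_mul_of_nonneg_right h4 h5) (mul_nonneg h7 h5) (ind_nonneg _)
      _ = _ := by ring
  refine (sum_le_sum h1).trans ?_
  rw [← mul_sum, ← mul_sum]
  refine mul_le_mul_of_nonneg_left (mul_le_mul_of_nonneg_left ?_ hE) hTh0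
  rw [sum_comm]
  refine sum_le_sum fun μ hμ => ?_
  rw [sum_comm]
  refine sum_le_sum fun ν hν => ?_
  rw [← mul_sum]
  refine mul_le_mul_of_nonneg_left ?_ (QAx_m1 hS hM hμ hν)
  rw [← mul_sum]
  by_cases hb : S.badpair T 0 T.y0 μ ν
  · rw [ind_false (not_not.2 hb), zero_mul, zero_mul]
  · rw [ind_true hb, one_mul, one_mul, ← sum_mul]
    have hsub : T.DS b1 ⊆ T.PS.powerset := by
      unfold Dat.DS
      exact filter_subset _ _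
    have h3 : ∑ z ∈ T.DS b1 ×ˢ T.DS b1, ∏ p ∈ T.base ∪ z.1 ∪ z.2, S.l2 T c c' μ ν x (p ∈ z.1) (p ∈ z.2) p ≤
        U4 S T * ∏ p ∈ T.base, S.l2 T c c' μ ν x False False p := by
      have h4 := Q18_a (X := x) hT hS hμ hν hb hc hc'
      rw [← sum_product'] at h4
      rw [← mul_assoc] at h4
      refine le_trans ?_ h4
      refine sum_le_sum_of_subset_of_nonneg (product_subset_product hsub hsub) fun z _ _ => ?_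
      exact prod_nonneg fun p _ => Q18_l2_nonneg _ _ _
    have h5 : 0 ≤ ϑ + M.lco T p1 c c' μ ν := add_nonneg hϑ (QAx_lco p1 c c' μ ν).1
    calc _ ≤ (U4 S T * ∏ p ∈ T.base, S.l2 T c c' μ ν x False False p) * (ϑ + M.lco T p1 c c' μ ν) := mul_le_mul_of_nonneg_right h3 h5
      _ = _ := by ring

private theorem Q22_key (hT : T.OK W0) (hS : S.OK T W0 Z) (hA : S.An T p1 Q0 η Cα) (hM : M.OK T W0 δ0 δ1) (hη : 0 ≤ η')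
    (hsX : ∀ f, SWc T.N T.D M.hX η' Q0 (S.FX f)) (hsY : ∀ f, SWc T.N T.D M.hY η' Q0 (S.FY f))
    (hQ0 : ∀ d ∈ T.DS b1, ∀ d' ∈ T.DS b1, (∏ p ∈ T.base ∪ d ∪ d', p ^ (padicValNat p T.D + 1)) * p1 ≤ Q0)
    (hb : 1 ≤ b2) (hq : (W0 : ℝ) * (T.y0 : ℝ) ^ (24 * b1) * (T.z : ℝ) ^ (24 * b2) ≤ (T.N : ℝ) ^ δ0) (hc : c ∈ S.CC) (hc' : c' ∈ S.CC) (s s' : Bool)
    {ϑ : ℝ} (hϑ : 0 ≤ ϑ) (hTh : ∀ μ ∈ S.MX, ∀ ν ∈ S.MY, M.Th T c c' μ ν ≤ M.Th0 T * (ϑ + ind (M.co T p1 c c' μ ν))) (B : ℝ) (hB0 : 0 ≤ B)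
    (hB : ∀ x : ℤ, IsCoprime x (W0 : ℤ) → ∑ μ ∈ S.MX, ∑ ν ∈ S.MY, M.m1 μ ν * (ind (¬ S.badpair T 0 T.y0 μ ν) *
        (U4 S T * ((∏ p ∈ T.base, S.l2 T c c' μ ν x False False p) * (ϑ + M.lco T p1 c c' μ ν)))) ≤ M.tot1 * B) :
    ∑ d ∈ T.DS b1, ∑ d' ∈ T.DS b1, |M.TL T W0 b2 s s' c c' d d'| ≤
      M.W * M.tot1 * (M.Th0 T * ((1 + η') ^ (2 * S.n0) * B)) + (T.DS b1).card ^ 2 * M.erL T W0 b1 b2 δ1 := by
  have hE : 0 ≤ (1 + η') ^ (2 * S.n0) := pow_nonneg (by linarith) _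
  have htot := Q22_tot hS hM
  have hTh0 := Q22_Th0 hM
  have h1 : ∑ d ∈ T.DS b1, ∑ d' ∈ T.DS b1, |M.TL T W0 b2 s s' c c' d d'| = ∑ z ∈ T.DS b1 ×ˢ T.DS b1, |M.TL T W0 b2 s s' c c' z.1 z.2| := by
    rw [sum_product]
  have h2 : ∑ z ∈ T.DS b1 ×ˢ T.DS b1, |M.TL T W0 b2 s s' c c' z.1 z.2| ≤
      ∑ z ∈ T.DS b1 ×ˢ T.DS b1, (M.W * M.ax (T.qd W0 (z.1 ∪ z.2)) (Q22_KK M T W0 c c' z) + M.erL T W0 b1 b2 δ1) :=
    sum_le_sum fun z hz => Q22_TL hT hS hM hb hq s s' hz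
  have h3 : ∑ z ∈ T.DS b1 ×ˢ T.DS b1, (M.W * M.ax (T.qd W0 (z.1 ∪ z.2)) (Q22_KK M T W0 c c' z) + M.erL T W0 b1 b2 δ1) =
      M.W * ∑ z ∈ T.DS b1 ×ˢ T.DS b1, M.ax (T.qd W0 (z.1 ∪ z.2)) (Q22_KK M T W0 c c' z) +
        ((T.DS b1).card : ℝ) ^ 2 * M.erL T W0 b1 b2 δ1 := by
    rw [sum_add_distrib, ← mul_sum, sum_const, card_product, nsmul_eq_mul]
    push_cast
    ring
  have h4 : ∑ z ∈ T.DS b1 ×ˢ T.DS b1, M.ax (T.qd W0 (z.1 ∪ z.2)) (Q22_KK M T W0 c c' z) ≤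
      M.Th0 T * ((1 + η') ^ (2 * S.n0) * (M.tot1 * B)) := by
    refine Q22_KK_sum hT hM (mul_nonneg hTh0 (mul_nonneg hE (mul_nonneg htot hB0))) fun x hx => ?_
    exact (Q22_mid hT hS hA hM hη hsX hsY hQ0 hc hc' hx hϑ hTh).trans
      (mul_le_mul_of_nonneg_left (mul_le_mul_of_nonneg_left (hB x hx) hE) hTh0)
  have h5 := mul_le_mul_of_nonneg_left h4 hM.W_pos.le
  have h6 : M.W * (M.Th0 T * ((1 + η') ^ (2 * S.n0) * (M.tot1 * B))) = M.W * M.tot1 * (M.Th0 T * ((1 + η') ^ (2 * S.n0) * B)) := by ring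
  rw [h1]
  rw [h6] at h5
  rw [h3] at h2
  linarith

theorem Q22 (hT : T.OK W0) (hS : S.OK T W0 Z) (hA : S.An T p1 Q0 η Cα) (hM : M.OK T W0 δ0 δ1) (hη : 0 ≤ η') (hsX : ∀ f, SWc T.N T.D M.hX η' Q0 (S.FX f))
    (hsY : ∀ f, SWc T.N T.D M.hY η' Q0 (S.FY f)) (hQ0 : ∀ d ∈ T.DS b1, ∀ d' ∈ T.DS b1, (∏ p ∈ T.base ∪ d ∪ d', p ^ (padicValNat p T.D + 1)) * p1 ≤ Q0)
    (hb : 1 ≤ b2) (hq : (W0 : ℝ) * (T.y0 : ℝ) ^ (24 * b1) * (T.z : ℝ) ^ (24 * b2) ≤ (T.N : ℝ) ^ δ0) (hc : c ∈ S.CC) (hc' : c' ∈ S.CC) (s s' : Bool) :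
    (¬ Fun c c' → ∑ d ∈ T.DS b1, ∑ d' ∈ T.DS b1, |M.TL T W0 b2 s s' c c' d d'| ≤
      M.W * M.tot1 * (M.Th0 T * ((1 + η') ^ (2 * S.n0) * (U4 S T * (MA S T Cα * (th0 S T + 5 * ((S.k + 1 : ℕ) : ℝ) ^ 2 / ((p1 : ℝ) - 1)))))) +
        (T.DS b1).card ^ 2 * M.erL T W0 b1 b2 δ1) ∧
    ∑ d ∈ T.DS b1, ∑ d' ∈ T.DS b1, |M.TL T W0 b2 s s' c c' d d'| ≤
      M.W * M.tot1 * (M.Th0 T * ((1 + η') ^ (2 * S.n0) * (U4 S T * (2 * U6 T W0)))) + (T.DS b1).card ^ 2 * M.erL T W0 b1 b2 δ1 := by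
  have hp1 : 1 ≤ p1 := hA.p1_pr.pos
  have htot := Q22_tot hS hM
  have hU4 : 0 ≤ U4 S T := by
    unfold U4
    positivity
  have hU6 : 0 ≤ U6 T W0 := by
    unfold U6
    positivity
  have hMA : 0 ≤ MA S T Cα := by
    unfold MA
    have := hA.Cα_lo
    positivity
  have hp1' : (0 : ℝ) < (p1 : ℝ) - 1 := by
    have : (2 : ℝ) ≤ p1 := by exact_mod_cast hA.p1_pr.two_le
    linarith
  have hfr : 0 ≤ 5 * ((S.k + 1 : ℕ) : ℝ) ^ 2 / ((p1 : ℝ) - 1) := div_nonneg (by positivity) hp1'.le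
  have hth := Q22_th0 (S := S) hT
  have hempty : (∅ : Finset ℕ) ∈ T.DS b1 := by
    unfold Dat.DS
    rw [mem_filter]
    refine ⟨empty_mem_powerset _, ?_⟩
    rw [prod_empty]
    exact Nat.one_le_pow _ _ (by have := hT.D_le; have := hT.D_pos; omega)
  have hQb : (∏ p ∈ T.base, p ^ (padicValNat p T.D + 1)) * p1 ≤ Q0 := by
    have := hQ0 ∅ hempty ∅ hempty
    rwa [union_empty, union_empty] at this
  refine ⟨fun hF => ?_, ?_⟩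
  · refine Q22_key hT hS hA hM hη hsX hsY hQ0 hb hq hc hc' s s' hth (fun μ hμ ν hν => Q22_Th1 hT hS hA hM hc hc' hμ hν) _
      (mul_nonneg hU4 (mul_nonneg hMA (add_nonneg hth hfr))) fun x hx => ?_
    have h1 : ∑ μ ∈ S.MX, ∑ ν ∈ S.MY, M.m1 μ ν * (ind (¬ S.badpair T 0 T.y0 μ ν) *
        (U4 S T * ((∏ p ∈ T.base, S.l2 T c c' μ ν x False False p) * (th0 S T + M.lco T p1 c c' μ ν)))) ≤
        ∑ μ ∈ S.MX, ∑ ν ∈ S.MY, M.m1 μ ν * (U4 S T * ((∏ p ∈ T.base, S.l2 T c c' μ ν x False False p) * (th0 S T + M.lco T p1 c c' μ ν))) := by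
      refine Q22_sumle hS hM fun μ hμ ν hν => ?_
      have hl : 0 ≤ ∏ p ∈ T.base, S.l2 T c c' μ ν x False False p := prod_nonneg fun p _ => Q18_l2_nonneg _ _ _
      have h2 := (QAx_lco (T := T) (M := M) p1 c c' μ ν).1
      exact mul_le_of_le_one_left (mul_nonneg hU4 (mul_nonneg hl (add_nonneg hth h2))) (ind_le_one _)
    refine h1.trans ?_
    have h2 : ∑ μ ∈ S.MX, ∑ ν ∈ S.MY, M.m1 μ ν * (U4 S T * ((∏ p ∈ T.base, S.l2 T c c' μ ν x False False p) * (th0 S T + M.lco T p1 c c' μ ν))) =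
        U4 S T * ∑ μ ∈ S.MX, ∑ ν ∈ S.MY, M.m1 μ ν * ((∏ p ∈ T.base, S.l2 T c c' μ ν x False False p) * (th0 S T + M.lco T p1 c c' μ ν)) := by
      rw [mul_sum]
      refine sum_congr rfl fun μ _ => ?_
      rw [mul_sum]
      exact sum_congr rfl fun ν _ => by ring
    rw [h2]
    have h3 := Q19 hT hS hA hM hQb hF hx hth
    refine (mul_le_mul_of_nonneg_left h3 hU4).trans (le_of_eq ?_)
    unfold MA Msr.tot1
    ring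
  · refine Q22_key hT hS hA hM hη hsX hsY hQ0 hb hq hc hc' s s' zero_le_one (fun μ hμ ν hν => ?_) _
      (mul_nonneg hU4 (mul_nonneg zero_le_two hU6)) fun x hx => ?_
    · refine (Q22_Th hM μ ν).2.trans ?_
      exact le_mul_of_one_le_right (Q22_Th0 hM) (by linarith [ind_nonneg (M.co T p1 c c' μ ν)])
    · rw [← Q22_const]
      refine Q22_sumle hS hM fun μ hμ ν hν => ?_
      by_cases hb : S.badpair T 0 T.y0 μ ν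
      · rw [ind_false (not_not.2 hb), zero_mul]
        positivity
      · rw [ind_true hb, one_mul]
        have h1 : ∏ p ∈ T.base, S.l2 T c c' μ ν x False False p ≤ U6 T W0 := by
          refine le_trans (prod_le_prod (fun p _ => Q18_l2_nonneg _ _ _) fun p _ => (Q18_l2_le hc hc' False False p).2.1) ?_
          exact (Q18_base (X := x) hT hS hμ hν hb hx).1
        have h2 := QAx_lco (T := T) (M := M) p1 c c' μ ν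
        refine mul_le_mul_of_nonneg_left ?_ hU4
        calc _ ≤ U6 T W0 * 2 := mul_le_mul h1 (by linarith [h2.2]) (add_nonneg zero_le_one h2.1) hU6
          _ = _ := mul_comm _ _

end Pool.Agent.Lib.TC
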