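import Pool.Agent.Lib.MP_7b7e48_nt.TC.Q17
import Pool.Agent.Lib.MP_7b7e48_nt.TC.Q18

/-!
# Q25: the mean values (5.3)

`m = k + 1`. `VL = ∏_{PL} (1 - m g)`, `VS = ∏_{PS} (1 - 8 m/p)`. For `p ∈ PL`: `m g p ≤ 2 m/p ≤ 2/3` (`p > y0 ≥ 64 m²`). `ε2 = flK (2m) 2^(-b2) ≤ 1/20`, `ε1 = flK (8m) 2^(-b1) ≤ 1/2`.
* `Q25_Ml`: `flUp_dens`, `flLo_dens` with `κ = 2 m`, `g r = m M.g r`.
* `Q25_kap`: `|wt false| ≤ NJ y0 + 1`, `|wt true| ≤ 1` (`abs_flLo_le`, `abs_flUp_le`), `|Ml true| ≤ 1.05 VL`, `|Ml true - Ml false| ≤ 0.1 VL`.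
* `Q25_wb`: `Q13_id` with `f p B = lav B` (`lav False = 1` off `base`, `> 0` on `base`: `Q14_small`, `Q14_D`): `wb = (∏_{base} lav False) (lo Ml true - up (Ml true - Ml false))`, `lo = ∑ wt false ∏ g_p`, `up = ∑ wt true ∏ g_p`,
  `g_p = lav True/lav False ≤ 8 m/p ≤ 2/3` (`Q14_bad`), so `lo ≥ (1 - ε1) V'`, `0 ≤ up ≤ (1 + ε1) V'`, `V' = ∏ (1 - g_p) ≥ VS`; `Ml true ≥ VL`, `Ml true - Ml false ≤ 0.1 VL`: the bracket is `≥ V' VL (1/2 - (3/2)(1/10)) ≥ VS VL/4`.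
-/

set_option autoImplicit false

open Finset
open Pool.Agent.Lib.GT (NJ)

namespace Pool.Agent.Lib.TC

noncomputable def Msr.VL {S : MS} (M : Msr S) (T : Dat) : ℝ := ∏ p ∈ T.PL, (1 - ((S.k + 1 : ℕ) : ℝ) * M.g p)

noncomputable def VS (S : MS) (T : Dat) : ℝ := ∏ p ∈ T.PS, (1 - 8 * ((S.k + 1 : ℕ) : ℝ) / p)

variable {S : MS} {T : Dat} {W0 : ℕ} {Z : Fin (S.k + 1) → ℕ} {M : Msr S} {δ0 δ1 : ℝ} {b1 b2 : ℕ}

private theorem Q25_m (hT : T.OK W0) (hS : S.OK T W0 Z) : (4 : ℝ) ≤ ((S.k + 1 : ℕ) : ℝ) ∧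
    64 * ((S.k + 1 : ℕ) : ℝ) ^ 2 ≤ T.p0 ∧ (T.p0 : ℝ) ≤ T.y0 ∧ 2 ≤ T.y0 ∧ 2 ≤ T.z := by
  have h1 := hS.k_lo
  have h2 := hS.p0_lo
  have h3 := hT.p0_le
  have h4 := hT.y_le
  have h5 := hT.y0_lt
  have h6 : 1 ≤ (S.k + 1) ^ 2 := Nat.one_le_pow _ _ (by omega)
  refine ⟨by exact_mod_cast (by omega : 4 ≤ S.k + 1), by exact_mod_cast h2,
    by exact_mod_cast (by omega : T.p0 ≤ T.y0), by omega, by omega⟩

/-- a density with `h p ≤ c m / p`, `c ≤ 8`, is at most `2 / 3` -/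
private theorem Q25_small {m p : ℝ} (hm : 4 ≤ m) (hp : 64 * m ^ 2 ≤ p) {c : ℝ} (hc : c ≤ 8) :
    c * m / p ≤ 2 / 3 := by
  have hp0 : 0 < p := by nlinarith
  rw [div_le_iff₀ hp0]
  nlinarith

private theorem Q25_PL {p : ℕ} (hp : p ∈ T.PL) : p.Prime ∧ T.y0 < p ∧ p ≤ T.z := by
  unfold Dat.PL at hp
  rw [mem_filter, mem_range] at hp
  exact ⟨hp.2.1, hp.2.2, by omega⟩

private theorem Q25_PS {p : ℕ} (hp : p ∈ T.PS) : p.Prime ∧ T.p0 ≤ p ∧ p ≤ T.y0 := by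
  unfold Dat.PS at hp
  rw [mem_filter, mem_range] at hp
  exact ⟨hp.2.1, hp.2.2, by omega⟩

private theorem Q25_g (hT : T.OK W0) (hS : S.OK T W0 Z) (hM : M.OK T W0 δ0 δ1) :
    ∀ r ∈ T.PL, 0 ≤ ((S.k + 1 : ℕ) : ℝ) * M.g r ∧
      ((S.k + 1 : ℕ) : ℝ) * M.g r ≤ (2 * ((S.k + 1 : ℕ) : ℝ)) / r ∧
      ((S.k + 1 : ℕ) : ℝ) * M.g r ≤ 2 / 3 := by
  intro r hr
  obtain ⟨h1, h2, h3⟩ := Q25_PL hr
  obtain ⟨m4, m5, m6, m7, m8⟩ := Q25_m hT hS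
  obtain ⟨g0, g1⟩ := hM.g_large r h1 h2
  have hr2 : (2 : ℝ) ≤ r := by exact_mod_cast h1.two_le
  have hr0 : (0 : ℝ) < r := by linarith
  have hry : (T.y0 : ℝ) < r := by exact_mod_cast h2
  have h4 : M.g r ≤ 2 / r := by
    have h5 := (abs_le.mp g1).2
    have h6 : 2 / (r : ℝ) ^ 2 ≤ 1 / r := by
      rw [div_le_div_iff₀ (by positivity) hr0]
      nlinarith
    have h7 : 2 / (r : ℝ) = 1 / r + 1 / r := by ring
    linarith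
  have h5 : ((S.k + 1 : ℕ) : ℝ) * M.g r ≤ (2 * ((S.k + 1 : ℕ) : ℝ)) / r := by
    calc ((S.k + 1 : ℕ) : ℝ) * M.g r ≤ ((S.k + 1 : ℕ) : ℝ) * (2 / r) :=
          mul_le_mul_of_nonneg_left h4 (by linarith)
      _ = _ := by ring
  exact ⟨mul_nonneg (by linarith) g0, h5,
    h5.trans (Q25_small m4 (by linarith) (by norm_num))⟩

theorem Q25_Ml (hT : T.OK W0) (hS : S.OK T W0 Z) (hM : M.OK T W0 δ0 δ1) (h2 : flK (2 * ((S.k + 1 : ℕ) : ℝ)) * (1 / 2) ^ b2 ≤ 1 / 20) :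
    0 < M.VL T ∧ M.VL T ≤ M.Ml T true b2 ∧ M.Ml T true b2 ≤ 21 / 20 * M.VL T ∧ 19 / 20 * M.VL T ≤ M.Ml T false b2 ∧ M.Ml T false b2 ≤ 21 / 20 * M.VL T := by
  have hg := Q25_g hT hS hM
  obtain ⟨m4, m5, m6, m7, m8⟩ := Q25_m hT hS
  have hV : 0 < M.VL T := by
    unfold Msr.VL
    exact prod_pos fun r hr => by linarith [(hg r hr).2.2]
  have hκ : (0 : ℝ) ≤ 2 * ((S.k + 1 : ℕ) : ℝ) := by positivity
  have hP : ∀ r ∈ T.PL, r.Prime ∧ r ≤ T.z := fun r hr => ⟨(Q25_PL hr).1, (Q25_PL hr).2.2⟩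
  have hU := flUp_dens hκ hP m8 hg b2
  have hL := flLo_dens hκ hP m8 hg b2
  have e1 : M.Ml T true b2 = ∑ d ∈ T.PL.powerset, flUp b2 T.z T.PL d *
      ∏ r ∈ d, (((S.k + 1 : ℕ) : ℝ) * M.g r) := by
    unfold Msr.Ml wt
    rfl
  have e2 : M.Ml T false b2 = ∑ d ∈ T.PL.powerset, flLo b2 T.z T.PL d *
      ∏ r ∈ d, (((S.k + 1 : ℕ) : ℝ) * M.g r) := by
    unfold Msr.Ml wt
    rfl
  have e3 : ∏ r ∈ T.PL, (1 - ((S.k + 1 : ℕ) : ℝ) * M.g r) = M.VL T := rfl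
  rw [e3, ← e1] at hU
  rw [e3, ← e2] at hL
  have h3 : (1 + flK (2 * ((S.k + 1 : ℕ) : ℝ)) * (1 / 2) ^ b2) * M.VL T ≤ 21 / 20 * M.VL T :=
    mul_le_mul_of_nonneg_right (by linarith) hV.le
  have h4 : 19 / 20 * M.VL T ≤ (1 - flK (2 * ((S.k + 1 : ℕ) : ℝ)) * (1 / 2) ^ b2) * M.VL T :=
    mul_le_mul_of_nonneg_right (by linarith) hV.le
  exact ⟨hV, hU.1, hU.2.trans h3, h4.trans hL.1, hL.2.trans h3⟩

theorem Q25_kap (hT : T.OK W0) (hS : S.OK T W0 Z) (hM : M.OK T W0 δ0 δ1) (h2 : flK (2 * ((S.k + 1 : ℕ) : ℝ)) * (1 / 2) ^ b2 ≤ 1 / 20)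
    {d : Finset ℕ} (hd : d ⊆ T.PS) : |M.kap T b1 b2 d| ≤ 2 * ((NJ T.y0 : ℝ) + 1) * M.VL T := by
  have _ := hd
  obtain ⟨hV, a1, a2, a3, a4⟩ := Q25_Ml hT hS hM h2
  have u1 : |wt true b1 T.y0 T.PS d| ≤ 1 := by
    unfold wt
    exact abs_flUp_le _ _ _ _
  have u2 : |wt false b1 T.y0 T.PS d| ≤ NJ T.y0 + 1 := by
    unfold wt
    exact abs_flLo_le _ _ _ _
  have u3 : |M.Ml T true b2| ≤ 21 / 20 * M.VL T := by
    rw [abs_of_nonneg (by linarith)]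
    exact a2
  have u4 : |M.Ml T true b2 - M.Ml T false b2| ≤ 1 / 10 * M.VL T := by
    rw [abs_le]
    constructor <;> linarith
  unfold Msr.kap
  have h1 := abs_sub (wt false b1 T.y0 T.PS d * M.Ml T true b2)
    (wt true b1 T.y0 T.PS d * (M.Ml T true b2 - M.Ml T false b2))
  rw [abs_mul, abs_mul] at h1
  have h3 : |wt false b1 T.y0 T.PS d| * |M.Ml T true b2| ≤
      ((NJ T.y0 : ℝ) + 1) * (21 / 20 * M.VL T) :=
    mul_le_mul u2 u3 (abs_nonneg _) (by positivity)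
  have h4 : |wt true b1 T.y0 T.PS d| * |M.Ml T true b2 - M.Ml T false b2| ≤
      1 * (1 / 10 * M.VL T) :=
    mul_le_mul u1 u4 (abs_nonneg _) zero_le_one
  have h5 : 1 * M.VL T ≤ ((NJ T.y0 : ℝ) + 1) * M.VL T :=
    mul_le_mul_of_nonneg_right (by linarith [(Nat.cast_nonneg (NJ T.y0) : (0 : ℝ) ≤ _)]) hV.le
  refine h1.trans ?_
  have h6 : ((NJ T.y0 : ℝ) + 1) * (21 / 20 * M.VL T) = 21 / 20 * (((NJ T.y0 : ℝ) + 1) * M.VL T) := by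
    ring
  have h7 : 2 * ((NJ T.y0 : ℝ) + 1) * M.VL T = 2 * (((NJ T.y0 : ℝ) + 1) * M.VL T) := by ring
  rw [h6] at h3
  rw [h7]
  linarith

theorem Q25_wb (hT : T.OK W0) (hS : S.OK T W0 Z) (hM : M.OK T W0 δ0 δ1) (h1 : flK (8 * ((S.k + 1 : ℕ) : ℝ)) * (1 / 2) ^ b1 ≤ 1 / 2)
    (h2 : flK (2 * ((S.k + 1 : ℕ) : ℝ)) * (1 / 2) ^ b2 ≤ 1 / 20) {μ : S.TX} {ν : S.TY} (hμ : μ ∈ S.MX) (hν : ν ∈ S.MY)
    (hb : ¬ S.badpair T 0 T.y0 μ ν) {X : ℤ} (hX : IsCoprime X (W0 : ℤ)) :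
    1 / 4 * (1 / (2 ^ T.base.card * (W0 : ℝ) ^ S.k * T.D)) * VS S T * M.VL T ≤ M.wb T b1 b2 μ ν X := by
  classical
  obtain ⟨hV, a1, a2, a3, a4⟩ := Q25_Ml hT hS hM h2
  obtain ⟨m4, m5, m6, m7, m8⟩ := Q25_m hT hS
  have h5 : 5 ≤ T.p0 := by
    have h6 := hS.p0_lo
    have h7 : 1 ≤ (S.k + 1) ^ 2 := Nat.one_le_pow _ _ (by omega)
    omega
  obtain ⟨f, hf⟩ : ∃ f : ℕ → Prop → ℝ, ∀ p B, f p B =
    lav T S.k p (ycl T p X) B (aq (p ^ (padicValNat p T.D + 1)) μ.1)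
      (aq (p ^ (padicValNat p T.D + 1)) ν.1) := ⟨_, fun _ _ => rfl⟩
  have hf0 : ∀ p B, 0 ≤ f p B := fun p B => by
    rw [hf]
    unfold lav
    exact av_nonneg fun P => ind_nonneg _
  have hf1 : ∀ p, p ∉ T.base → f p False = 1 := fun p hp => by
    rw [hf]
    exact Q14_one hp _ _ _
  have hbase : 1 / (2 ^ T.base.card * (W0 : ℝ) ^ S.k * T.D) ≤ ∏ p ∈ T.base, f p False := by
    have h6 := (Q18_base hT hS hμ hν hb hX).2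
    refine h6.trans (le_of_eq (prod_congr rfl fun p _ => ?_))
    rw [hf]
  have hW0 : 0 < W0 := Nat.pos_of_ne_zero hT.W0_sq.ne_zero
  have hbp : 0 < 1 / (2 ^ T.base.card * (W0 : ℝ) ^ S.k * T.D) := by
    have h6 : (0 : ℝ) < W0 := by exact_mod_cast hW0
    have h7 : (0 : ℝ) < T.D := by exact_mod_cast hT.D_pos
    positivity
  have hf2 : ∀ p ∈ T.base, f p False ≠ 0 := by
    have h6 : ∏ p ∈ T.base, f p False ≠ 0 := (hbp.trans_le hbase).ne'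
    rwa [prod_ne_zero_iff] at h6
  have hfp : ∀ p, 0 < f p False := by
    intro p
    by_cases hp : p ∈ T.base
    · exact lt_of_le_of_ne (hf0 p False) (hf2 p hp).symm
    · rw [hf1 p hp]
      exact one_pos
  -- the mean value
  have hwb : M.wb T b1 b2 μ ν X = (∏ p ∈ T.base, f p False) *
      ∑ d ∈ T.PS.powerset, M.kap T b1 b2 d * ∏ p ∈ d, (f p True / f p False) := by
    rw [← Q13_id T.PS T.base f hf1 hf2]
    unfold Msr.wb MS.Pb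
    refine sum_congr rfl fun d _ => ?_
    congr 1
    refine prod_congr rfl fun p _ => ?_
    rw [hf]
  obtain ⟨g, hg⟩ : ∃ g : ℕ → ℝ, ∀ p, g p = f p True / f p False := ⟨_, fun _ => rfl⟩
  have hg1 : ∀ r ∈ T.PS, 0 ≤ g r ∧ g r ≤ (8 * ((S.k + 1 : ℕ) : ℝ)) / r ∧ g r ≤ 2 / 3 := by
    intro r hr
    obtain ⟨c1, c2, c3⟩ := Q25_PS hr
    have h6 := Q14_bad hT h5 hr (Q14_good hT hS hμ hν hb hr) (ycl T r X)
    rw [← hf, ← hf] at h6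
    have h7 : g r ≤ (8 * ((S.k + 1 : ℕ) : ℝ)) / r := by
      rw [hg, div_le_iff₀ (hfp r)]
      exact h6
    have h8 : (T.p0 : ℝ) ≤ r := by exact_mod_cast c2
    refine ⟨?_, h7, h7.trans (Q25_small m4 (by linarith) (le_refl _))⟩
    rw [hg]
    exact div_nonneg (hf0 _ _) (hf0 _ _)
  have hP : ∀ r ∈ T.PS, r.Prime ∧ r ≤ T.y0 := fun r hr => ⟨(Q25_PS hr).1, (Q25_PS hr).2.2⟩
  have hκ : (0 : ℝ) ≤ 8 * ((S.k + 1 : ℕ) : ℝ) := by positivity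
  have hU := flUp_dens hκ hP m7 hg1 b1
  have hL := flLo_dens hκ hP m7 hg1 b1
  obtain ⟨V, hVd⟩ : ∃ V : ℝ, V = ∏ r ∈ T.PS, (1 - g r) := ⟨_, rfl⟩
  obtain ⟨U, hUd⟩ : ∃ U : ℝ, U = ∑ d ∈ T.PS.powerset, flUp b1 T.y0 T.PS d * ∏ r ∈ d, g r :=
    ⟨_, rfl⟩
  obtain ⟨L, hLd⟩ : ∃ L : ℝ, L = ∑ d ∈ T.PS.powerset, flLo b1 T.y0 T.PS d * ∏ r ∈ d, g r :=
    ⟨_, rfl⟩
  rw [← hVd, ← hUd] at hU
  rw [← hVd, ← hLd] at hL
  have hVS0 : 0 ≤ VS S T := by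
    unfold VS
    refine prod_nonneg fun r hr => ?_
    obtain ⟨c1, c2, c3⟩ := Q25_PS hr
    have h8 : (T.p0 : ℝ) ≤ r := by exact_mod_cast c2
    have h9 := Q25_small m4 (by linarith : 64 * ((S.k + 1 : ℕ) : ℝ) ^ 2 ≤ (r : ℝ)) (le_refl 8)
    linarith
  have hVS : VS S T ≤ V := by
    rw [hVd]
    unfold VS
    refine prod_le_prod (fun r hr => ?_) fun r hr => ?_
    · obtain ⟨c1, c2, c3⟩ := Q25_PS hr
      have h8 : (T.p0 : ℝ) ≤ r := by exact_mod_cast c2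
      have h9 := Q25_small m4 (by linarith : 64 * ((S.k + 1 : ℕ) : ℝ) ^ 2 ≤ (r : ℝ)) (le_refl 8)
      linarith
    · linarith [(hg1 r hr).2.1]
  have hV0 : 0 ≤ V := hVS0.trans hVS
  have hU1 : U ≤ 3 / 2 * V :=
    hU.2.trans (mul_le_mul_of_nonneg_right (by linarith) hV0)
  have hL1 : 1 / 2 * V ≤ L :=
    le_trans (mul_le_mul_of_nonneg_right (by linarith) hV0) hL.1
  have hU0 : 0 ≤ U := hV0.trans hU.1
  have hsum : ∑ d ∈ T.PS.powerset, M.kap T b1 b2 d * ∏ p ∈ d, (f p True / f p False) =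
      L * M.Ml T true b2 - U * (M.Ml T true b2 - M.Ml T false b2) := by
    rw [hLd, hUd, sum_mul, sum_mul, ← sum_sub_distrib]
    refine sum_congr rfl fun d _ => ?_
    have h6 : ∏ p ∈ d, (f p True / f p False) = ∏ p ∈ d, g p :=
      prod_congr rfl fun p _ => (hg p).symm
    rw [h6]
    unfold Msr.kap
    have h7 : wt false b1 T.y0 T.PS d = flLo b1 T.y0 T.PS d := rfl
    have h8 : wt true b1 T.y0 T.PS d = flUp b1 T.y0 T.PS d := rfl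
    rw [h7, h8]
    ring
  rw [hwb, hsum]
  have hbr : 1 / 4 * (VS S T * M.VL T) ≤
      L * M.Ml T true b2 - U * (M.Ml T true b2 - M.Ml T false b2) := by
    have k1 : (1 / 2 * V) * M.VL T ≤ L * M.Ml T true b2 :=
      mul_le_mul hL1 a1 hV.le (by linarith)
    have k2 : U * (M.Ml T true b2 - M.Ml T false b2) ≤ U * (1 / 10 * M.VL T) :=
      mul_le_mul_of_nonneg_left (by linarith) hU0
    have k3 : U * (1 / 10 * M.VL T) ≤ (3 / 2 * V) * (1 / 10 * M.VL T) :=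
      mul_le_mul_of_nonneg_right hU1 (by linarith)
    have k4 : VS S T * M.VL T ≤ V * M.VL T := mul_le_mul_of_nonneg_right hVS hV.le
    have k5 : 0 ≤ V * M.VL T := mul_nonneg hV0 hV.le
    have k6 : (1 / 2 * V) * M.VL T = 1 / 2 * (V * M.VL T) := by ring
    have k7 : (3 / 2 * V) * (1 / 10 * M.VL T) = 3 / 20 * (V * M.VL T) := by ring
    rw [k6] at k1
    rw [k7] at k3
    linarith
  have hbr0 : 0 ≤ 1 / 4 * (VS S T * M.VL T) := by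
    have := mul_nonneg hVS0 hV.le
    linarith
  calc 1 / 4 * (1 / (2 ^ T.base.card * (W0 : ℝ) ^ S.k * T.D)) * VS S T * M.VL T =
        (1 / (2 ^ T.base.card * (W0 : ℝ) ^ S.k * T.D)) * (1 / 4 * (VS S T * M.VL T)) := by ring
    _ ≤ _ := mul_le_mul hbase hbr hbr0 (hbp.le.trans hbase)

end Pool.Agent.Lib.TC
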