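import Pool.Agent.Lib.MP_7b7e48_nt.TC.PDefs

/-!
# S7Def: definitions for section 7 of TC_PAIR (forbidden primes)

Integer forms of the linear forms of a cycle: with `a = α`, `b = β`, `n = k + 1` slots,
`SmR n = ∑_{j<n} (a_j - b_j) ∏_{l<j} a_l A_l ∏_{j<l<n} b_l B_{l-1}` (the number `S`), `Hs n i` the part from slot `i` on,
`Rs n i = b_i ∏_{i<l<n} b_l B_{l-1}`, `Gs n i = ∏_{i<l<n} b_l B_{l-1} + A_i Hs n (i+1)`, `Us i = ∏_{l<i} a_l A_l - B_{i-1} SmR i`,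
`Ff n DN Y i = DN Us_i Rs_i - Y S`. For a cycle `Ff i = D (∏_{l<i} a_l A_l) a_i Rs_i t_i`.
-/

set_option autoImplicit false

open Finset

namespace Pool.Agent.Lib.TC

section forms
variable {R : Type*} [CommRing R]

/-- `∑_{j<n} (a_j - b_j) ∏_{l<j} a_l A_l ∏_{j<l<n} b_l B_{l-1}` -/
def SmR (A B a b : ℕ → R) : ℕ → R
  | 0 => 0
  | (n + 1) => SmR A B a b n * (b n * B (n - 1)) + (a n - b n) * ∏ l ∈ range n, a l * A l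

/-- the part of the sum from slot `i` on -/
def Hs (n : ℕ) (A B a b : ℕ → R) (i : ℕ) : R :=
  ∑ j ∈ Ico i n, (a j - b j) * (∏ l ∈ Ico i j, a l * A l) * ∏ l ∈ Ico (j + 1) n, b l * B (l - 1)

/-- `b_i ∏_{i<l<n} b_l B_{l-1}` -/
def Rs (n : ℕ) (B b : ℕ → R) (i : ℕ) : R := b i * ∏ l ∈ Ico (i + 1) n, b l * B (l - 1)

/-- `∏_{i<l<n} b_l B_{l-1} + A_i Hs (i+1)` -/
def Gs (n : ℕ) (A B a b : ℕ → R) (i : ℕ) : R := (∏ l ∈ Ico (i + 1) n, b l * B (l - 1)) + A i * Hs n A B a b (i + 1)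

/-- `∏_{l<i} a_l A_l - B_{i-1} SmR i` -/
def Us (A B a b : ℕ → R) (i : ℕ) : R := (∏ l ∈ range i, a l * A l) - B (i - 1) * SmR A B a b i

/-- the numerator of `t_i` -/
def Ff (n : ℕ) (A B a b : ℕ → R) (DN Y : R) (i : ℕ) : R := DN * (Us A B a b i * Rs n B b i) - Y * SmR A B a b n

end forms

/-! ### the integer vectors of a pair of tuples -/

/-- `α` as integers -/
def aI {n : ℕ} (α : Fin n → ℕ) (i : ℕ) : ℤ := (ext1 α i : ℕ)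

/-- short cofactors of `X` as integers (`1` from the ground slot on) -/
noncomputable def MS.AI (S : MS) (N : ℕ) (c : S.Col) (μ : S.TX) (ν : S.TY) (i : ℕ) : ℤ :=
  if i < S.k then ((S.AA N c μ ν 0 i : ℕ) : ℤ) else 1

/-- short cofactors of `Y` as integers -/
noncomputable def MS.BI (S : MS) (N : ℕ) (c : S.Col) (μ : S.TX) (ν : S.TY) (i : ℕ) : ℤ :=
  if i < S.k then ((S.BB N c μ ν 0 i : ℕ) : ℤ) else 1

/-- the numerator of `t_i`, `Y` is an integer (or a class) -/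
noncomputable def MS.FI (S : MS) (T : Dat) (c : S.Col) (μ : S.TX) (ν : S.TY) (Y : ℤ) (i : ℕ) : ℤ :=
  Ff (S.k + 1) (S.AI T.N c μ ν) (S.BI T.N c μ ν) (aI μ.1) (aI ν.1) ((T.D : ℤ) * T.N) Y i

noncomputable def MS.GI (S : MS) (N : ℕ) (c : S.Col) (μ : S.TX) (ν : S.TY) (i : ℕ) : ℤ :=
  Gs (S.k + 1) (S.AI N c μ ν) (S.BI N c μ ν) (aI μ.1) (aI ν.1) i

noncomputable def MS.HI (S : MS) (N : ℕ) (c : S.Col) (μ : S.TX) (ν : S.TY) (i : ℕ) : ℤ :=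
  Hs (S.k + 1) (S.AI N c μ ν) (S.BI N c μ ν) (aI μ.1) (aI ν.1) i

noncomputable def MS.UI (S : MS) (N : ℕ) (c : S.Col) (μ : S.TX) (ν : S.TY) (i : ℕ) : ℤ :=
  Us (S.AI N c μ ν) (S.BI N c μ ν) (aI μ.1) (aI ν.1) i

noncomputable def MS.RI (S : MS) (N : ℕ) (c : S.Col) (μ : S.TX) (ν : S.TY) (i : ℕ) : ℤ :=
  Rs (S.k + 1) (S.BI N c μ ν) (aI ν.1) i

/-! ### indices of the marks -/

/-- indices of the marks of `X` which are not windows -/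
abbrev MS.NX (S : MS) := Fin S.n0 ⊕ Fin S.nX

/-- indices of the marks of `Y` which are not windows -/
abbrev MS.NY (S : MS) := Fin S.n0 ⊕ Fin S.nY

/-- the mark -/
def MS.vX (S : MS) (μ : S.TX) : S.NX → ℕ := Sum.elim μ.2.1 μ.2.2

/-- the mark -/
def MS.vY (S : MS) (ν : S.TY) : S.NY → ℕ := Sum.elim ν.2.1 ν.2.2

/-- its colour -/
noncomputable def MS.lX (S : MS) (N : ℕ) (c : S.Col) (μ : S.TX) (ν : S.TY) : S.NX → ℕ :=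
  Sum.elim (fun f => (c (Sum.inl f) : ℕ)) (fun e => (S.kX N c μ ν e : ℕ))

/-- its colour -/
noncomputable def MS.lY (S : MS) (N : ℕ) (c : S.Col) (μ : S.TX) (ν : S.TY) : S.NY → ℕ :=
  Sum.elim (fun f => (c (Sum.inr f) : ℕ)) (fun e => (S.kY N c μ ν e : ℕ))

/-- The facts about the marks used in section 7. `Z i`: size of the windows `i`; `V`: `1 / V` is a lower bound for the mass of a window. -/
structure MS.Geo (S : MS) (T : Dat) (Z : ℕ → ℕ) (hX hY : ℕ → ℝ) (V : ℝ) : Prop where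
  k1 : 1 ≤ S.k
  N2 : 2 ≤ T.N
  D0 : 0 < T.D
  DN : T.D ≤ T.N
  Dy : ∀ p, p.Prime → p ∣ T.D → p ≤ T.y0
  y1 : 1 ≤ T.y0
  yz : T.y0 ≤ T.z
  zZ : ∀ i ≤ S.k, T.z * T.D ≤ Z i
  ZZ : ∀ i j, i < j → j ≤ S.k → 4 * Z i ≤ Z j
  ZN : Z S.k ≤ T.N
  wx : ∀ i, ∀ p ∈ S.WX i, p.Prime ∧ 3 * Z i < p ∧ p ≤ 4 * Z i ∧ ¬ p ∣ T.N
  wy : ∀ i, ∀ p ∈ S.WY i, p.Prime ∧ Z i < p ∧ p ≤ 2 * Z i ∧ ¬ p ∣ T.N
  fx : ∀ f, ∀ p ∈ S.FX f, p.Prime ∧ T.y0 < p ∧ p ≤ T.z ∧ ¬ p ∣ T.N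
  fy : ∀ f, ∀ p ∈ S.FY f, p.Prime ∧ T.y0 < p ∧ p ≤ T.z ∧ ¬ p ∣ T.N
  ox : ∀ f, ∀ p ∈ S.OX f, p.Prime ∧ T.y0 < p ∧ p ≤ T.z ∧ ¬ p ∣ T.N
  oy : ∀ f, ∀ p ∈ S.OY f, p.Prime ∧ T.y0 < p ∧ p ≤ T.z ∧ ¬ p ∣ T.N
  ix : ∀ μ ∈ S.MX, Function.Injective (Sum.elim μ.1 (S.vX μ))
  iy : ∀ ν ∈ S.MY, Function.Injective (Sum.elim ν.1 (S.vY ν))
  hX0 : ∀ p, p.Prime → 0 ≤ hX p ∧ hX p ≤ 2 / (p : ℝ)
  hY0 : ∀ p, p.Prime → 0 ≤ hY p ∧ hY p ≤ 2 / (p : ℝ)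
  V1 : 1 ≤ V
  lX : ∀ i, 1 ≤ V * ∑ p ∈ S.WX i, hX p
  lY : ∀ i, 1 ≤ V * ∑ p ∈ S.WY i, hY p
  comp : ∀ c ∈ S.CC, ∀ μ ∈ S.MX, ∀ ν ∈ S.MY, ∀ i < S.k,
    S.BB T.N c μ ν 0 i < S.AA T.N c μ ν 0 i ∧ (S.AA T.N c μ ν 0 i : ℝ) ≤ Real.exp 16 * S.BB T.N c μ ν 0 i

/-- coprime tuples -/
def MS.cop (S : MS) (μ : S.TX) (ν : S.TY) : Prop := (S.prX id μ).Coprime (S.prY id ν)

/-- the mass of a set of pairs of tuples -/
noncomputable def MS.mass (S : MS) (hX hY : ℕ → ℝ) (E : S.TX → S.TY → Prop) : ℝ := by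
  classical
  exact ∑ μ ∈ S.MX, ∑ ν ∈ S.MY, if E μ ν then S.prX hX μ * S.prY hY ν else 0

/-- the total mass -/
noncomputable def MS.full (S : MS) (hX hY : ℕ → ℝ) : ℝ := (∑ μ ∈ S.MX, S.prX hX μ) * ∑ ν ∈ S.MY, S.prY hY ν

/-- two tuples of `X` which agree except possibly in the window `i` -/
def MS.agX (S : MS) (i : Fin (S.k + 1)) (μ μ' : S.TX) : Prop := μ.2 = μ'.2 ∧ ∀ j, j ≠ i → μ.1 j = μ'.1 j

/-- two tuples of `Y` which agree except possibly in the window `i` -/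
def MS.agY (S : MS) (i : Fin (S.k + 1)) (ν ν' : S.TY) : Prop := ν.2 = ν'.2 ∧ ∀ j, j ≠ i → ν.1 j = ν'.1 j

/-- functions of the non-window marks -/
def MS.Inv (S : MS) (P : S.TX → S.TY → ℕ) : Prop := ∀ μ μ' ν ν', μ.2 = μ'.2 → ν.2 = ν'.2 → P μ ν = P μ' ν'

end Pool.Agent.Lib.TC
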