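import Pool.Agent.Lib.MP_7b7e48_nt.TC.Cyc

/-!
# U15: the slope of `t_i`

Two cycles with the same `al`, `be`, the same `A l`, `B l` (`l < m-1`), the same `e_{m-1}`; only the long cofactors `A_{m-1}`, `B_{m-1}` differ. Then
`(t'_i - t_i) (∏_{l≤i} al_l) (∏_{l<i} A_l) = - e_{m-1} (B'_{m-1} - B_{m-1}) ∏_{l<i} be_l B_l`.
Induction: `al_0 (t'_0 - t_0) = - e_{m-1} (B'_{m-1} - B_{m-1})` (`h.F (m-1)`); `A_i (e'_i - e_i) = - be_i (t'_i - t_i)` (`h.E i`, `i < m-1`) and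
`al_{i+1} (t'_{i+1} - t_{i+1}) = - B_i (e'_i - e_i)` (`h.F i`), so `al_{i+1} A_i (t'_{i+1} - t_{i+1}) = be_i B_i (t'_i - t_i)`.
`U15_Y`: multiply by `∏_{i≤l<m} be_l ∏_{i≤l<m-1} B_l`: the right side becomes `- e_{m-1} (Y' - Y)`, `Y = (∏_{l<m} be_l) ∏_{l<m} B_l`.
-/

set_option autoImplicit false

open Finset

namespace Pool.Agent.Lib.TC

theorem U15 {m N : ℕ} {A B A' B' al be e t e' t' : ℕ → ℕ} (h : Cyc N m A B al be e t) (h' : Cyc N m A' B' al be e' t')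
    (hAA : ∀ i < m - 1, A i = A' i ∧ B i = B' i) (hlast : e (m - 1) = e' (m - 1)) {i : ℕ} (hi : i < m) :
    ((t' i : ℤ) - t i) * ((∏ l ∈ range (i + 1), (al l : ℤ)) * ∏ l ∈ range i, (A l : ℤ)) =
      -(e (m - 1) : ℤ) * ((B' (m - 1) : ℤ) - B (m - 1)) * ∏ l ∈ range i, ((be l : ℤ) * B l) := by
  have hm : 0 < m := by omega
  have cast : ∀ {x y z w n : ℕ}, x * y + z * w = n → (x : ℤ) * y + z * w = n := by
    intro x y z w n hh
    exact_mod_cast hh
  induction i with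
  | zero =>
    have h1 := cast (h.F (m - 1) (by omega))
    have h2 := cast (h'.F (m - 1) (by omega))
    rw [Nat.sub_add_cancel hm, Nat.mod_self] at h1 h2
    rw [← hlast] at h2
    simp only [zero_add, prod_range_one, prod_range_zero, mul_one]
    linear_combination h2 - h1
  | succ i ih =>
    have ih := ih (by omega)
    obtain ⟨hA, hB⟩ := hAA i (by omega)
    have h1 := cast (h.E i (by omega))
    have h2 := cast (h'.E i (by omega))
    have h3 := cast (h.F i (by omega))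
    have h4 := cast (h'.F i (by omega))
    rw [Nat.mod_eq_of_lt hi] at h3 h4
    rw [← hA] at h2
    rw [← hB] at h4
    have h5 : ((t' (i + 1) : ℤ) - t (i + 1)) * ((al (i + 1) : ℤ) * A i) = ((t' i : ℤ) - t i) * ((be i : ℤ) * B i) := by
      linear_combination (A i : ℤ) * (h4 - h3) - (B i : ℤ) * (h2 - h1)
    rw [prod_range_succ _ (i + 1), prod_range_succ (fun l => (A l : ℤ)) i, prod_range_succ (fun l => (be l : ℤ) * B l) i]
    linear_combination ((∏ l ∈ range (i + 1), (al l : ℤ)) * ∏ l ∈ range i, (A l : ℤ)) * h5 + ((be i : ℤ) * B i) * ih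

theorem U15_Y {m N : ℕ} {A B A' B' al be e t e' t' : ℕ → ℕ} (h : Cyc N m A B al be e t) (h' : Cyc N m A' B' al be e' t')
    (hAA : ∀ i < m - 1, A i = A' i ∧ B i = B' i) (hlast : e (m - 1) = e' (m - 1)) {i : ℕ} (hi : i < m) :
    ((t' i : ℤ) - t i) * ((∏ l ∈ range (i + 1), (al l : ℤ)) * (∏ l ∈ range i, (A l : ℤ)) *
        ((∏ l ∈ Ico i m, (be l : ℤ)) * ∏ l ∈ Ico i (m - 1), (B l : ℤ))) =
      -(e (m - 1) : ℤ) * ((∏ l ∈ range m, ((be l : ℤ) * B' l)) - ∏ l ∈ range m, ((be l : ℤ) * B l)) := by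
  have hm : 0 < m := by omega
  have h1 := U15 h h' hAA hlast hi
  have e1 : (∏ l ∈ range m, (be l : ℤ)) = (∏ l ∈ range i, (be l : ℤ)) * ∏ l ∈ Ico i m, (be l : ℤ) :=
    (prod_range_mul_prod_Ico _ hi.le).symm
  have e2 : (∏ l ∈ range (m - 1), (B l : ℤ)) = (∏ l ∈ range i, (B l : ℤ)) * ∏ l ∈ Ico i (m - 1), (B l : ℤ) :=
    (prod_range_mul_prod_Ico _ (by omega)).symm
  have e3 : ∏ l ∈ range (m - 1), (B' l : ℤ) = ∏ l ∈ range (m - 1), (B l : ℤ) := by
    refine prod_congr rfl fun l hl => ?_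
    rw [(hAA l (mem_range.1 hl)).2]
  have e4 : (∏ l ∈ range m, ((be l : ℤ) * B' l)) - ∏ l ∈ range m, ((be l : ℤ) * B l) =
      (∏ l ∈ range m, (be l : ℤ)) * (∏ l ∈ range (m - 1), (B l : ℤ)) * ((B' (m - 1) : ℤ) - B (m - 1)) := by
    rw [prod_mul_distrib, prod_mul_distrib]
    obtain ⟨k, rfl⟩ : ∃ k, m = k + 1 := ⟨m - 1, by omega⟩
    rw [Nat.add_sub_cancel] at *
    rw [prod_range_succ (fun l => (B' l : ℤ)), prod_range_succ (fun l => (B l : ℤ)), e3]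
    ring
  rw [e4, e1, e2]
  rw [prod_mul_distrib] at h1
  linear_combination ((∏ l ∈ Ico i m, (be l : ℤ)) * ∏ l ∈ Ico i (m - 1), (B l : ℤ)) * h1

end Pool.Agent.Lib.TC
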