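import Pool.Agent.Lib.MP_7b7e48_nt.TC.S7G1
import Pool.Agent.Lib.MP_7b7e48_nt.TC.S7F3
import Pool.Agent.Lib.MP_7b7e48_nt.TC.S7E

/-!
# S7G4: a non-window mark `P = vY e` of `Y` divides `t_i`, `P ∤ S`

`P ∣ Y = X - D N`, `P ∤ D N`. Let `g = lY e` be the colour of `P`.
* `G4_k` (`g = k`): `P ∣ FI (X - D N) i`, so `P ∣ FI 0 i` (`FI_congr`), and `P ∤ (0 + D N) RI 0` (`fr_Y`: `P` divides no `B_l`, `β_l`). `S7F1X` with `Y0 = 0`, `q = D`, `Q = y0 * D`; `inv1`.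
* `G4_le` (`i ≤ g < k`): `E_mark` (`P ∣ B_g`), as `G3_gt`.
* `G4_gt` (`g < i`, `g < k`): `FI_Y`: `P ∣ UI i RI i`; `RI i = β_i ∏_{i<l≤k} β_l B_{l-1}` contains only `B_l` with `l ≥ i > g`: `P ∣ UI i`; `U_modB` (`h = g`): `P ∣ (∏_{l≤g} a_l A_l) Ut g i`, so `P ∣ Ut g i`. `i = g + 1`: `Ut_self`: impossible. `i > g + 1`:
  `S7F4` with `h = g`, `q = D`, `Q = D`, `Q1 = y0`; `inv3`.
* `G4`: sum over the colours.
-/

set_option autoImplicit false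

open Finset

namespace Pool.Agent.Lib.TC

variable {S : MS} {T : Dat} {M : Msr S} {W0 : ℕ} {δ0 δ1 : ℝ} {Z : ℕ → ℕ} {V : ℝ} {Cd : S.TX → S.TY → ℕ → Prop}

private theorem g4_Inv (e : S.NY) : S.Inv (fun _ ν => S.vY ν e) := by
  intro μ μ' ν ν' _ h
  show S.vY ν e = S.vY ν' e
  unfold MS.vY
  rw [h]

private theorem g4_InvD : S.Inv (fun _ _ => T.D) := fun _ _ _ _ _ _ => rfl

private theorem g4_dvd (ν : S.TY) (e : S.NY) : S.vY ν e ∣ S.prY id ν := by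
  unfold MS.prY
  rcases e with f | e
  · exact Dvd.dvd.mul_right (Dvd.dvd.mul_left (dvd_prod_of_mem (fun f => id (ν.2.1 f)) (mem_univ f)) _) _
  · exact Dvd.dvd.mul_left (dvd_prod_of_mem (fun e => id (ν.2.2 e)) (mem_univ e)) _

private theorem g4_copD (h : S.H7 T M W0 δ0 δ1 Z V Cd) (c : S.Col) {μ : S.TX} {ν : S.TY} (hμ : μ ∈ S.MX) (hν : ν ∈ S.MY) :
    IsCoprime ((T.D : ℕ) : ℤ) (S.RI T.N c μ ν 0) := by
  refine cop_RI c (fun p hp hpD => ?_) (by have := h.geo.D0; exact_mod_cast this.ne')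
  have hpn : p.natAbs.Prime := Int.prime_iff_natAbs_prime.mp hp
  have h1 : p.natAbs ∣ T.D := by
    have h2 := Int.natAbs_dvd_natAbs.mpr hpD
    rwa [Int.natAbs_natCast] at h2
  have h2 := fr_small h.geo c hμ hν hpn (h.geo.Dy _ hpn h1)
  exact ⟨fun l hl => h2.2.1 l (Int.natAbs_dvd.mpr hl), fun l hl => h2.2.2.2 l (Int.natAbs_dvd.mpr hl)⟩

private theorem g4_D (h : S.H7 T M W0 δ0 δ1 Z V Cd) {P : ℕ} (hp : P.Prime) (hy : T.y0 < P) : ¬ P ∣ T.D := by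
  intro h2
  have := h.geo.Dy P hp h2
  omega

private theorem g4_DN (h : S.H7 T M W0 δ0 δ1 Z V Cd) {P : ℕ} (hp : P.Prime) (hy : T.y0 < P) (hN : ¬ P ∣ T.N) :
    ¬ ((P : ℕ) : ℤ) ∣ (T.D : ℤ) * T.N := by
  intro hd
  have h1 : P ∣ T.D * T.N := by exact_mod_cast hd
  rcases (hp.dvd_mul).mp h1 with h2 | h2
  · exact g4_D h hp hy h2
  · exact hN h2

private theorem g4_pos (h : S.H7 T M W0 δ0 δ1 Z V Cd) : (0 : ℝ) < T.y0 ∧ (0 : ℝ) < T.D ∧ 1 ≤ V := by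
  have h1 := h.geo.y1
  have h2 := h.geo.D0
  exact ⟨by exact_mod_cast (by omega : 0 < T.y0), by exact_mod_cast h2, h.geo.V1⟩

private theorem g4_Wfull (h : S.H7 T M W0 δ0 δ1 Z V Cd) : M.tot = M.W * S.full M.hX M.hY ∧ 0 ≤ M.W * S.full M.hX M.hY :=
  ⟨rfl, mul_nonneg h.ok.W_pos.le (full_nonneg h.geo)⟩

private theorem g4_err (h : S.H7 T M W0 δ0 δ1 Z V Cd) : 0 ≤ M.err T δ1 := by
  unfold Msr.err
  exact mul_nonneg (Real.rpow_nonneg (Nat.cast_nonneg _) _) h.ok.W_pos.le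

private theorem g4_ub0 (h : S.H7 T M W0 δ0 δ1 Z V Cd) : 0 ≤ M.ub T V δ1 := by
  obtain ⟨h1, h2, h3⟩ := g4_pos h
  obtain ⟨h4, h5⟩ := g4_Wfull h
  have h6 := g4_err h
  unfold Msr.ub
  rw [h4]
  have : 0 ≤ 8 * V ^ 2 / (T.y0 * T.D) := by positivity
  exact add_nonneg (mul_nonneg this h5) (by positivity)

private theorem g4_ub (h : S.H7 T M W0 δ0 δ1 Z V Cd) {m c1 : ℝ} (hm : m ≤ c1 * S.full M.hX M.hY)
    (hc : c1 ≤ 8 * V ^ 2 / (T.y0 * T.D)) :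
    M.W * m + S.MX.card * S.MY.card * M.err T δ1 ≤ M.ub T V δ1 := by
  obtain ⟨h4, h5⟩ := g4_Wfull h
  unfold Msr.ub
  rw [h4]
  have h6 : M.W * m ≤ M.W * (c1 * S.full M.hX M.hY) := mul_le_mul_of_nonneg_left hm h.ok.W_pos.le
  have h7 : M.W * (c1 * S.full M.hX M.hY) = c1 * (M.W * S.full M.hX M.hY) := by ring
  have h8 := mul_le_mul_of_nonneg_right hc h5
  linarith

private theorem g4_ms (h : S.H7 T M W0 δ0 δ1 Z V Cd) {μ : S.TX} {ν : S.TY} (hμ : μ ∈ S.MX) (hν : ν ∈ S.MY) :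
    0 ≤ M.ms μ ν := by
  have hg := h.geo
  unfold Msr.ms Msr.m1
  refine mul_nonneg h.ok.W_pos.le (mul_nonneg ?_ ?_)
  · unfold MS.prX
    simp only [MS.MX, mem_product, Fintype.mem_piFinset] at hμ
    refine mul_nonneg (mul_nonneg (prod_nonneg fun i _ => ?_) (prod_nonneg fun i _ => ?_)) (prod_nonneg fun i _ => ?_)
    · exact (hg.hX0 _ (hg.wx i _ (hμ.1 i)).1).1
    · exact (hg.hX0 _ (hg.fx i _ (hμ.2.1 i)).1).1
    · exact (hg.hX0 _ (hg.ox i _ (hμ.2.2 i)).1).1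
  · unfold MS.prY
    simp only [MS.MY, mem_product, Fintype.mem_piFinset] at hν
    refine mul_nonneg (mul_nonneg (prod_nonneg fun i _ => ?_) (prod_nonneg fun i _ => ?_)) (prod_nonneg fun i _ => ?_)
    · exact (hg.hY0 _ (hg.wy i _ (hν.1 i)).1).1
    · exact (hg.hY0 _ (hg.fy i _ (hν.2.1 i)).1).1
    · exact (hg.hY0 _ (hg.oy i _ (hν.2.2 i)).1).1

private theorem g4_mass0 : S.mass M.hX M.hY (fun _ _ => False) = 0 := by
  unfold MS.mass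
  simp

/-- `P` divides `Y` and `FI` -/
private theorem g4_Y (h : S.H7 T M W0 δ0 δ1 Z V Cd) {c : S.Col} (hc : c ∈ S.CC) (e : S.NY) {i : ℕ} (hi : i ≤ S.k)
    {μ : S.TX} {ν : S.TY} (hμ : μ ∈ S.MX) (hν : ν ∈ S.MY) {n : ℕ} (hB : M.Bs T Cd c μ ν n)
    (ht : S.vY ν e ∣ S.tI T c μ ν (M.X μ ν n) i) :
    ((S.vY ν e : ℕ) : ℤ) ∣ (M.X μ ν n : ℤ) - T.D * T.N ∧
      ((S.vY ν e : ℕ) : ℤ) ∣ S.FI T c μ ν ((M.X μ ν n : ℤ) - T.D * T.N) i := by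
  obtain ⟨hcop, -, -, hY, hDX, -, hF⟩ := Bs_facts h hc hμ hν hB
  refine ⟨?_, (Int.natCast_dvd_natCast.mpr ht).trans (hF i (by omega)).2.2⟩
  have h1 : ((S.vY ν e : ℕ) : ℤ) ∣ ((M.X μ ν n - T.D * T.N : ℕ) : ℤ) :=
    Int.natCast_dvd_natCast.mpr ((g4_dvd ν e).trans hY)
  rw [Nat.cast_sub hDX.le] at h1
  push_cast at h1
  exact h1

/-- `P ∣ Ut g i` -/
private theorem g4_Ut (h : S.H7 T M W0 δ0 δ1 Z V Cd) {c : S.Col} (hc : c ∈ S.CC) (e : S.NY) {i g : ℕ} (hg : g < i) (hi : i ≤ S.k)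
    {μ : S.TX} {ν : S.TY} (hμ : μ ∈ S.MX) (hν : ν ∈ S.MY) {n : ℕ} (hB : M.Bs T Cd c μ ν n)
    (hl : S.lY T.N c μ ν e = g) (ht : S.vY ν e ∣ S.tI T c μ ν (M.X μ ν n) i) :
    ((S.vY ν e : ℕ) : ℤ) ∣ Ut (S.AI T.N c μ ν) (S.BI T.N c μ ν) (aI μ.1) (aI ν.1) g i := by
  obtain ⟨hcop, -⟩ := Bs_facts h hc hμ hν hB
  obtain ⟨hY, hF⟩ := g4_Y h hc e hi hμ hν hB ht
  obtain ⟨hp, hy, hz, hN, hlk, hB1, hB2, hA, ha, hb⟩ := fr_Y h.geo c hμ hν hcop e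
  have hpi : Prime ((S.vY ν e : ℕ) : ℤ) := Nat.prime_iff_prime_int.mp hp
  have h1 := FI_Y c μ ν hpi hY (g4_DN h hp hy hN) hF
  have h2 : ¬ ((S.vY ν e : ℕ) : ℤ) ∣ S.RI T.N c μ ν i := by
    intro hd
    rw [MS.RI, Rs] at hd
    rcases hpi.dvd_or_dvd hd with h3 | h3
    · exact hb i h3
    · rw [hpi.dvd_finsetProd_iff] at h3
      obtain ⟨l, hl1, hl2⟩ := h3
      rw [mem_Ico] at hl1
      rcases hpi.dvd_or_dvd hl2 with h4 | h4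
      · exact hb l h4
      · exact hB2 (l - 1) (by omega) h4
  have h3 := (hpi.dvd_or_dvd h1).resolve_right h2
  have hBg : ((S.vY ν e : ℕ) : ℤ) ∣ S.BI T.N c μ ν g := by
    have h4 := hB1 (by omega)
    rwa [hl] at h4
  have h4 := U_modB hg (A := S.AI T.N c μ ν) (B := S.BI T.N c μ ν) (a := aI μ.1) (b := aI ν.1) hBg
  have h5 : ((S.vY ν e : ℕ) : ℤ) ∣ (∏ l ∈ range (g + 1), aI μ.1 l * S.AI T.N c μ ν l) *
      Ut (S.AI T.N c μ ν) (S.BI T.N c μ ν) (aI μ.1) (aI ν.1) g i := by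
    rw [MS.UI] at h3
    have h6 := dvd_sub h3 h4
    rwa [sub_sub_cancel] at h6
  rcases hpi.dvd_or_dvd h5 with h6 | h6
  · exfalso
    rw [hpi.dvd_finsetProd_iff] at h6
    obtain ⟨l, -, hl2⟩ := h6
    rcases hpi.dvd_or_dvd hl2 with h7 | h7
    · exact ha l h7
    · exact hA l h7
  · exact h6

theorem G4_k (h : S.H7 T M W0 δ0 δ1 Z V Cd) {c : S.Col} (hc : c ∈ S.CC) (e : S.NY) {i : ℕ} (hi : i ≤ S.k) :
    M.cnt (fun μ ν n => M.Bs T Cd c μ ν n ∧ S.lY T.N c μ ν e = S.k ∧ S.vY ν e ∣ S.tI T c μ ν (M.X μ ν n) i) ≤ M.ub T V δ1 := by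
  have hg0 := h.geo
  have hy1 := hg0.y1
  have hD1 := hg0.D0
  have h1 := cnt_le h (fun μ ν n => M.Bs T Cd c μ ν n ∧ S.lY T.N c μ ν e = S.k ∧ S.vY ν e ∣ S.tI T c μ ν (M.X μ ν n) i)
    (fun μ ν => S.cop μ ν ∧ T.D ∣ S.SI T.N c μ ν ∧ S.lY T.N c μ ν e = S.k ∧ ((S.vY ν e : ℕ) : ℤ) ∣ S.FI T c μ ν 0 i)
    (fun μ hμ ν hν n _ hE => by
      obtain ⟨hB, hl, ht⟩ := hE
      have hf := Bs_facts h hc hμ hν hB
      obtain ⟨hY, hF⟩ := g4_Y h hc e hi hμ hν hB ht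
      exact ⟨hB.1, hf.1, hf.2.1, hl, (FI_congr c μ ν (by rw [sub_zero]; exact hY)).mp hF⟩)
  refine h1.trans ?_
  have h2 := S7F1X hg0 c (q := fun _ _ => T.D) (P := fun _ ν => S.vY ν e) g4_InvD (g4_Inv e) (Q := T.y0 * T.D)
    (Nat.mul_pos (by omega) (by omega)) (i := i) (by omega) 0
    (fun μ ν => S.cop μ ν ∧ T.D ∣ S.SI T.N c μ ν ∧ S.lY T.N c μ ν e = S.k ∧ ((S.vY ν e : ℕ) : ℤ) ∣ S.FI T c μ ν 0 i)
    (fun μ hμ ν hν hE => by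
      obtain ⟨hcop, hD, hl, hF⟩ := hE
      obtain ⟨hp, hy, hz, hN, hlk, hB1, hB2, hA, ha, hb⟩ := fr_Y hg0 c hμ hν hcop e
      have hpi : Prime ((S.vY ν e : ℕ) : ℤ) := Nat.prime_iff_prime_int.mp hp
      refine ⟨⟨hD, g4_copD h c hμ hν⟩, hp, ?_, Nat.mul_le_mul_right _ hy.le, hF, fun hd => ?_⟩
      · exact (Nat.Prime.coprime_iff_not_dvd hp).mpr (g4_D h hp hy)
      · rw [zero_add] at hd
        rcases hpi.dvd_or_dvd hd with h3 | h3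
        · exact g4_DN h hp hy hN h3
        · rw [MS.RI, Rs] at h3
          rcases hpi.dvd_or_dvd h3 with h4 | h4
          · exact hb 0 h4
          · rw [hpi.dvd_finsetProd_iff] at h4
            obtain ⟨l, hl1, hl2⟩ := h4
            rw [mem_Ico] at hl1
            rcases hpi.dvd_or_dvd hl2 with h5 | h5
            · exact hb l h5
            · exact hB2 (l - 1) (by omega) h5)
  exact g4_ub h h2 (inv1 h (Nat.zero_le S.k))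

theorem G4_le (h : S.H7 T M W0 δ0 δ1 Z V Cd) {c : S.Col} (hc : c ∈ S.CC) (e : S.NY) {i : ℕ} (hi : i ≤ S.k) :
    M.cnt (fun μ ν n => M.Bs T Cd c μ ν n ∧ i ≤ S.lY T.N c μ ν e ∧ S.lY T.N c μ ν e < S.k ∧ ¬ S.vY ν e ∣ S.SI T.N c μ ν ∧
      S.vY ν e ∣ S.tI T c μ ν (M.X μ ν n) i) ≤ M.ub T V δ1 := by
  classical
  have hg0 := h.geo
  obtain ⟨hy0, hD0, hV⟩ := g4_pos h
  have h1 := cnt_le' h (fun μ ν n => M.Bs T Cd c μ ν n ∧ i ≤ S.lY T.N c μ ν e ∧ S.lY T.N c μ ν e < S.k ∧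
      ¬ S.vY ν e ∣ S.SI T.N c μ ν ∧ S.vY ν e ∣ S.tI T c μ ν (M.X μ ν n) i)
    (fun μ ν => S.cop μ ν ∧ T.D ∣ S.SI T.N c μ ν) (θ := 4 / T.y0) (by positivity)
    (fun μ hμ ν hν n _ hE => ⟨hE.1.1, hE.1.1.2, (Bs_facts h hc hμ hν hE.1).2.1⟩)
    (fun μ hμ ν hν ha hE' => by
      obtain ⟨hp, hy, hz, hN, hlk, hB1, hB2, hA, ha', hb⟩ := fr_Y hg0 c hμ hν hE'.1 e
      have hPL : S.vY ν e ∈ T.PL := by
        unfold Dat.PL
        rw [mem_filter, mem_range]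
        exact ⟨by omega, hp, hy⟩
      have hdv : S.vY ν e ∣ S.prX id μ * S.prY id ν := Dvd.dvd.mul_left (g4_dvd ν e) _
      have hv : ¬ S.vY ν e ∣ M.v := by
        intro hd
        have h2 := Nat.dvd_gcd hdv hd
        rw [ha.1] at h2
        exact hp.one_lt.ne' (Nat.dvd_one.mp h2)
      refine (n_cls2 h hμ hν ha hPL hdv _ (fun n n' hn hn' _ _ => ?_)).trans ?_
      · exact E_mark h hc hμ hν hp (by omega) hn.2.2.2.1 hv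
          (Or.inr ⟨S.lY T.N c μ ν e, hn.2.1, hn.2.2.1, hB1 hn.2.2.1⟩) hn.1 hn'.1 hn.2.2.2.2 hn'.2.2.2.2
      · have h3 : 4 / ((S.vY ν e : ℕ) : ℝ) ≤ 4 / T.y0 := by
          apply div_le_div_of_nonneg_left (by norm_num) hy0
          exact_mod_cast hy.le
        have h4 := mul_le_mul_of_nonneg_right h3 (g4_ms h hμ hν)
        linarith)
  refine h1.trans ?_
  have h2 := S7F1 hg0 c (q := fun _ _ => T.D) g4_InvD (Q := T.D) hg0.D0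
    (fun μ ν => S.cop μ ν ∧ T.D ∣ S.SI T.N c μ ν)
    (fun μ hμ ν hν hE => ⟨hE.2, g4_copD h c hμ hν, le_rfl⟩)
  have h3 : 4 / (T.y0 : ℝ) * (M.W * S.mass M.hX M.hY (fun μ ν => S.cop μ ν ∧ T.D ∣ S.SI T.N c μ ν)) =
      M.W * (4 / T.y0 * S.mass M.hX M.hY (fun μ ν => S.cop μ ν ∧ T.D ∣ S.SI T.N c μ ν)) := by ring
  rw [h3]
  refine g4_ub h (c1 := 4 / T.y0 * (V * (1 / T.D + 1 / Z 0))) ?_ ?_
  · calc _ ≤ 4 / (T.y0 : ℝ) * (V * (1 / T.D + 1 / Z 0) * S.full M.hX M.hY) :=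
          mul_le_mul_of_nonneg_left h2 (by positivity)
      _ = _ := by ring
  · have h4 := inv2 h (Nat.zero_le S.k)
    have h5 : V * 1 ≤ V * V := mul_le_mul_of_nonneg_left hV (by linarith)
    calc 4 / (T.y0 : ℝ) * (V * (1 / T.D + 1 / Z 0)) ≤ 4 / T.y0 * (2 * V / T.D) :=
          mul_le_mul_of_nonneg_left h4 (by positivity)
      _ = 8 * (V * 1) / (T.y0 * T.D) := by field_simp; ring
      _ ≤ 8 * (V * V) / (T.y0 * T.D) := by gcongr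
      _ = _ := by ring

theorem G4_gt (h : S.H7 T M W0 δ0 δ1 Z V Cd) {c : S.Col} (hc : c ∈ S.CC) (e : S.NY) {i g : ℕ} (hg : g < i) (hi : i ≤ S.k) :
    M.cnt (fun μ ν n => M.Bs T Cd c μ ν n ∧ S.lY T.N c μ ν e = g ∧ S.vY ν e ∣ S.tI T c μ ν (M.X μ ν n) i) ≤ M.ub T V δ1 := by
  have hg0 := h.geo
  obtain ⟨hy0, hD0, hV⟩ := g4_pos h
  rcases Nat.lt_or_ge (g + 1) i with hgi | hgi
  · have h1 := cnt_le h (fun μ ν n => M.Bs T Cd c μ ν n ∧ S.lY T.N c μ ν e = g ∧ S.vY ν e ∣ S.tI T c μ ν (M.X μ ν n) i)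
      (fun μ ν => S.cop μ ν ∧ T.D ∣ S.SI T.N c μ ν ∧ S.lY T.N c μ ν e = g ∧
        ((S.vY ν e : ℕ) : ℤ) ∣ Ut (S.AI T.N c μ ν) (S.BI T.N c μ ν) (aI μ.1) (aI ν.1) g i)
      (fun μ hμ ν hν n _ hE => by
        obtain ⟨hB, hl, ht⟩ := hE
        have hf := Bs_facts h hc hμ hν hB
        exact ⟨hB.1, hf.1, hf.2.1, hl, g4_Ut h hc e hg hi hμ hν hB hl ht⟩)
    refine h1.trans ?_
    have h2 := S7F4 hg0 c (q := fun _ _ => T.D) (P := fun _ ν => S.vY ν e) g4_InvD (g4_Inv e) (Q := T.D) (Q1 := T.y0)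
      hg0.D0 hg0.y1 hgi hi
      (fun μ ν => S.cop μ ν ∧ T.D ∣ S.SI T.N c μ ν ∧ S.lY T.N c μ ν e = g ∧
        ((S.vY ν e : ℕ) : ℤ) ∣ Ut (S.AI T.N c μ ν) (S.BI T.N c μ ν) (aI μ.1) (aI ν.1) g i)
      (fun μ hμ ν hν hE => by
        obtain ⟨hcop, hD, hl, hU⟩ := hE
        obtain ⟨hp, hy, hz, hN, hlk, hB1, hB2, hA, ha, hb⟩ := fr_Y hg0 c hμ hν hcop e
        rw [hl] at hB2
        exact ⟨⟨hD, g4_copD h c hμ hν, le_rfl⟩, hp, hy.le, hU, hB2, hb⟩)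
    exact g4_ub h h2 (inv3 h (Nat.zero_le S.k) (by omega))
  · have hig : i = g + 1 := by omega
    have h1 := cnt_le h (fun μ ν n => M.Bs T Cd c μ ν n ∧ S.lY T.N c μ ν e = g ∧ S.vY ν e ∣ S.tI T c μ ν (M.X μ ν n) i)
      (fun _ _ => False)
      (fun μ hμ ν hν n _ hE => by
        obtain ⟨hB, hl, ht⟩ := hE
        refine ⟨hB.1, ?_⟩
        have hU := g4_Ut h hc e hg hi hμ hν hB hl ht
        have hf := Bs_facts h hc hμ hν hB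
        obtain ⟨hp, -⟩ := fr_Y hg0 c hμ hν hf.1 e
        have hpi : Prime ((S.vY ν e : ℕ) : ℤ) := Nat.prime_iff_prime_int.mp hp
        rw [hig, Ut_self] at hU
        exact hpi.not_dvd_one hU)
    refine h1.trans ?_
    rw [g4_mass0]
    refine g4_ub h (c1 := 0) (by rw [zero_mul]) ?_
    positivity

theorem G4 (h : S.H7 T M W0 δ0 δ1 Z V Cd) {c : S.Col} (hc : c ∈ S.CC) (e : S.NY) {i : ℕ} (hi : i ≤ S.k) :
    M.cnt (fun μ ν n => M.Bs T Cd c μ ν n ∧ ¬ S.vY ν e ∣ S.SI T.N c μ ν ∧ S.vY ν e ∣ S.tI T c μ ν (M.X μ ν n) i) ≤ (S.k + 3) * M.ub T V δ1 := by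
  have hg0 := h.geo
  have hub := g4_ub0 h
  have h1 := cnt_Un h (range (S.k + 3))
    (E := fun μ ν n => M.Bs T Cd c μ ν n ∧ ¬ S.vY ν e ∣ S.SI T.N c μ ν ∧ S.vY ν e ∣ S.tI T c μ ν (M.X μ ν n) i)
    (fun j μ ν n => if j < i then
        (M.Bs T Cd c μ ν n ∧ S.lY T.N c μ ν e = j ∧ S.vY ν e ∣ S.tI T c μ ν (M.X μ ν n) i)
      else if j = S.k + 1 then (M.Bs T Cd c μ ν n ∧ S.lY T.N c μ ν e = S.k ∧ S.vY ν e ∣ S.tI T c μ ν (M.X μ ν n) i)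
      else (M.Bs T Cd c μ ν n ∧ i ≤ S.lY T.N c μ ν e ∧ S.lY T.N c μ ν e < S.k ∧ ¬ S.vY ν e ∣ S.SI T.N c μ ν ∧
        S.vY ν e ∣ S.tI T c μ ν (M.X μ ν n) i))
    (fun μ hμ ν hν n _ hE => by
      obtain ⟨hB, hS, ht⟩ := hE
      have hf := Bs_facts h hc hμ hν hB
      obtain ⟨-, -, -, -, hlk, -⟩ := fr_Y hg0 c hμ hν hf.1 e
      rcases Nat.lt_or_ge (S.lY T.N c μ ν e) i with hl | hl
      · refine ⟨S.lY T.N c μ ν e, mem_range.mpr (by omega), ?_⟩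
        rw [if_pos hl]
        exact ⟨hB, rfl, ht⟩
      · rcases Nat.lt_or_ge (S.lY T.N c μ ν e) S.k with hl2 | hl2
        · refine ⟨S.k + 2, mem_range.mpr (by omega), ?_⟩
          rw [if_neg (by omega), if_neg (by omega)]
          exact ⟨hB, hl, hl2, hS, ht⟩
        · refine ⟨S.k + 1, mem_range.mpr (by omega), ?_⟩
          rw [if_neg (by omega), if_pos rfl]
          exact ⟨hB, by omega, ht⟩)
  refine h1.trans ?_
  have h2 : ∀ j ∈ range (S.k + 3), M.cnt (fun μ ν n => if j < i then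
        (M.Bs T Cd c μ ν n ∧ S.lY T.N c μ ν e = j ∧ S.vY ν e ∣ S.tI T c μ ν (M.X μ ν n) i)
      else if j = S.k + 1 then (M.Bs T Cd c μ ν n ∧ S.lY T.N c μ ν e = S.k ∧ S.vY ν e ∣ S.tI T c μ ν (M.X μ ν n) i)
      else (M.Bs T Cd c μ ν n ∧ i ≤ S.lY T.N c μ ν e ∧ S.lY T.N c μ ν e < S.k ∧ ¬ S.vY ν e ∣ S.SI T.N c μ ν ∧
        S.vY ν e ∣ S.tI T c μ ν (M.X μ ν n) i)) ≤ M.ub T V δ1 := by
    intro j _
    by_cases hj : j < i
    · simp only [if_pos hj]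
      exact G4_gt h hc e hj hi
    · by_cases hj2 : j = S.k + 1
      · simp only [if_neg hj, if_pos hj2]
        exact G4_k h hc e hi
      · simp only [if_neg hj, if_neg hj2]
        exact G4_le h hc e hi
  refine (sum_le_sum h2).trans ?_
  rw [sum_const, card_range, nsmul_eq_mul]
  push_cast
  exact le_refl _

end Pool.Agent.Lib.TC
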