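import Pool.Agent.Lib.MP_7b7e48_nt.TC.S7Def
import Pool.Agent.Lib.MP_7b7e48_nt.TC.S7C1

/-!
# S7C2: masses of sets of pairs of tuples with one or two restricted windows

Apply `pi_one`, `pi_two` (S7C1) with `ι = (Fin (k+1) ⊕ Fin n0 ⊕ Fin nX) ⊕ (Fin (k+1) ⊕ Fin n0 ⊕ Fin nY)`, the sets `WX, FX, OX, WY, FY, OY` and the weights
`hX`, `hY`. The map `(μ, ν) ↦` (the function on `ι`) is a bijection of `MX × MY` onto `piFinset` (`Fintype.piFinset` of a `Sum.elim`), `prX`, `prY` are the products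
(`Fintype.prod_sum_type`), and `full` is the product of the sums (`Finset.prod_univ_sum`). Window `i` of `X`: `a = 3 Z i`, length `Z i`, `hX p ≤ 2/p ≤ 1/Z i` (`C = 1`); window
`j` of `Y`: `a = Z j`, length `Z j`, `hY p ≤ 2/Z j` (`C = 2`). `Z i > 0` by `zZ`, `yz`, `y1`, `D0`.
-/

set_option autoImplicit false

open Finset

namespace Pool.Agent.Lib.TC

variable {S : MS} {T : Dat} {Z : ℕ → ℕ} {hX hY : ℕ → ℝ} {V : ℝ}

/-- the coordinates of a pair of tuples -/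
private abbrev S7C2I (S : MS) := (Fin (S.k + 1) ⊕ (Fin S.n0 ⊕ Fin S.nX)) ⊕ (Fin (S.k + 1) ⊕ (Fin S.n0 ⊕ Fin S.nY))

private def S7C2W (S : MS) : S7C2I S → Finset ℕ :=
  Sum.elim (Sum.elim S.WX (Sum.elim S.FX S.OX)) (Sum.elim S.WY (Sum.elim S.FY S.OY))

/-- the product set -/
private noncomputable abbrev S7C2P (S : MS) : Finset (S7C2I S → ℕ) :=
  @Fintype.piFinset (S7C2I S) (fun a b => Classical.propDecidable (a = b)) inferInstance (fun _ => ℕ) (S7C2W S)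

private def S7C2g (S : MS) (hX hY : ℕ → ℝ) : S7C2I S → ℕ → ℝ := Sum.elim (fun _ => hX) (fun _ => hY)

private theorem S7C2_mem {x : S7C2I S → ℕ} : x ∈ S7C2P S ↔ ∀ l, x l ∈ S7C2W S l :=
  @Fintype.mem_piFinset _ (fun a b => Classical.propDecidable (a = b)) _ _ _ _

open Classical in
private theorem S7C2_pus {ι : Type*} [Fintype ι] (W : ι → Finset ℕ) (g : ι → ℕ → ℝ) :
    ∏ l, ∑ p ∈ W l, g l p = ∑ x ∈ Fintype.piFinset W, ∏ l, g l (x l) := Finset.prod_univ_sum _ _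

private def S7C2X {S : MS} (x : S7C2I S → ℕ) : S.TX :=
  (fun i => x (Sum.inl (Sum.inl i)), fun f => x (Sum.inl (Sum.inr (Sum.inl f))), fun e => x (Sum.inl (Sum.inr (Sum.inr e))))

private def S7C2Y {S : MS} (x : S7C2I S → ℕ) : S.TY :=
  (fun i => x (Sum.inr (Sum.inl i)), fun f => x (Sum.inr (Sum.inr (Sum.inl f))), fun e => x (Sum.inr (Sum.inr (Sum.inr e))))

private def S7C2F {S : MS} (q : S.TX × S.TY) : S7C2I S → ℕ :=
  Sum.elim (Sum.elim q.1.1 (Sum.elim q.1.2.1 q.1.2.2)) (Sum.elim q.2.1 (Sum.elim q.2.2.1 q.2.2.2))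

private theorem S7C2X_mem {x : S7C2I S → ℕ} (hx : x ∈ S7C2P S) : S7C2X x ∈ S.MX := by
  rw [S7C2_mem] at hx
  rw [MS.MX, Finset.mem_product, Finset.mem_product, Fintype.mem_piFinset, Fintype.mem_piFinset, Fintype.mem_piFinset]
  exact ⟨fun i => hx (Sum.inl (Sum.inl i)), fun f => hx (Sum.inl (Sum.inr (Sum.inl f))), fun e => hx (Sum.inl (Sum.inr (Sum.inr e)))⟩

private theorem S7C2Y_mem {x : S7C2I S → ℕ} (hx : x ∈ S7C2P S) : S7C2Y x ∈ S.MY := by
  rw [S7C2_mem] at hx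
  rw [MS.MY, Finset.mem_product, Finset.mem_product, Fintype.mem_piFinset, Fintype.mem_piFinset, Fintype.mem_piFinset]
  exact ⟨fun i => hx (Sum.inr (Sum.inl i)), fun f => hx (Sum.inr (Sum.inr (Sum.inl f))), fun e => hx (Sum.inr (Sum.inr (Sum.inr e)))⟩

private theorem S7C2F_mem {q : S.TX × S.TY} (h1 : q.1 ∈ S.MX) (h2 : q.2 ∈ S.MY) :
    S7C2F q ∈ S7C2P S := by
  rw [MS.MX, Finset.mem_product, Finset.mem_product, Fintype.mem_piFinset, Fintype.mem_piFinset, Fintype.mem_piFinset] at h1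
  rw [MS.MY, Finset.mem_product, Finset.mem_product, Fintype.mem_piFinset, Fintype.mem_piFinset, Fintype.mem_piFinset] at h2
  rw [S7C2_mem]
  rintro ((i | (f | e)) | (i | (f | e)))
  · exact h1.1 i
  · exact h1.2.1 f
  · exact h1.2.2 e
  · exact h2.1 i
  · exact h2.2.1 f
  · exact h2.2.2 e

private theorem S7C2F_XY (x : S7C2I S → ℕ) : S7C2F (S7C2X x, S7C2Y x) = x := by
  funext l
  rcases l with ((i | (f | e)) | (i | (f | e))) <;> rfl

private theorem S7C2_prod (x : S7C2I S → ℕ) :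
    ∏ l, S7C2g S hX hY l (x l) = S.prX hX (S7C2X x) * S.prY hY (S7C2Y x) := by
  rw [Fintype.prod_sum_type, Fintype.prod_sum_type, Fintype.prod_sum_type, Fintype.prod_sum_type, Fintype.prod_sum_type]
  rw [MS.prX, MS.prY]
  simp only [mul_assoc]
  rfl

private theorem S7C2_sum (f : S.TX → S.TY → ℝ) :
    ∑ μ ∈ S.MX, ∑ ν ∈ S.MY, f μ ν = ∑ x ∈ S7C2P S, f (S7C2X x) (S7C2Y x) := by
  rw [← Finset.sum_product']
  apply Finset.sum_nbij' (fun q => S7C2F q) (fun x => (S7C2X x, S7C2Y x))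
  · intro q hq
    rw [Finset.mem_product] at hq
    exact S7C2F_mem hq.1 hq.2
  · intro x hx
    exact Finset.mem_product.mpr ⟨S7C2X_mem hx, S7C2Y_mem hx⟩
  · intro q _
    rfl
  · intro x _
    exact S7C2F_XY x
  · intro q _
    rfl

open Classical in
private theorem S7C2_mass (E : S.TX → S.TY → Prop) : S.mass hX hY E =
    ∑ x ∈ S7C2P S, (if E (S7C2X x) (S7C2Y x) then ∏ l, S7C2g S hX hY l (x l) else 0) := by
  rw [MS.mass, S7C2_sum]
  apply Finset.sum_congr rfl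
  intro x _
  rw [S7C2_prod]

private theorem S7C2_full : S.full hX hY = ∏ l, ∑ p ∈ S7C2W S l, S7C2g S hX hY l p := by
  rw [S7C2_pus, MS.full, Finset.sum_mul_sum, S7C2_sum (fun μ ν => S.prX hX μ * S.prY hY ν)]
  apply Finset.sum_congr rfl
  intro x _
  rw [S7C2_prod]

private theorem S7C2_nn (hG : S.Geo T Z hX hY V) : ∀ l, ∀ p ∈ S7C2W S l, 0 ≤ S7C2g S hX hY l p := by
  rintro ((i | (f | e)) | (i | (f | e))) p hp
  · exact (hG.hX0 p (hG.wx i p hp).1).1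
  · exact (hG.hX0 p (hG.fx f p hp).1).1
  · exact (hG.hX0 p (hG.ox e p hp).1).1
  · exact (hG.hY0 p (hG.wy i p hp).1).1
  · exact (hG.hY0 p (hG.fy f p hp).1).1
  · exact (hG.hY0 p (hG.oy e p hp).1).1

private theorem S7C2_Zpos (hG : S.Geo T Z hX hY V) (i : Fin (S.k + 1)) : 0 < Z i := by
  have h1 := hG.zZ i (Nat.le_of_lt_succ i.2)
  have h2 : 0 < T.z * T.D := Nat.mul_pos (by have := hG.yz; have := hG.y1; omega) hG.D0
  omega

private theorem S7C2_WX (hG : S.Geo T Z hX hY V) (i : Fin (S.k + 1)) :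
    ∀ p ∈ S7C2W S (Sum.inl (Sum.inl i)), 3 * Z i < p ∧ p ≤ 3 * Z i + Z i ∧
      S7C2g S hX hY (Sum.inl (Sum.inl i)) p ≤ 1 / (Z i : ℝ) := by
  intro p hp
  obtain ⟨h1, h2, h3, -⟩ := hG.wx i p hp
  refine ⟨h2, by omega, ?_⟩
  have hZ : (0 : ℝ) < Z i := by exact_mod_cast S7C2_Zpos hG i
  have h4 : (3 : ℝ) * Z i < p := by exact_mod_cast h2
  have h5 : S7C2g S hX hY (Sum.inl (Sum.inl i)) p ≤ 2 / (p : ℝ) := (hG.hX0 p h1).2
  refine h5.trans ?_
  rw [div_le_div_iff₀ (by linarith) hZ]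
  linarith

private theorem S7C2_WY (hG : S.Geo T Z hX hY V) (i : Fin (S.k + 1)) :
    ∀ p ∈ S7C2W S (Sum.inr (Sum.inl i)), Z i < p ∧ p ≤ Z i + Z i ∧
      S7C2g S hX hY (Sum.inr (Sum.inl i)) p ≤ 2 / (Z i : ℝ) := by
  intro p hp
  obtain ⟨h1, h2, h3, -⟩ := hG.wy i p hp
  refine ⟨h2, by omega, ?_⟩
  have hZ : (0 : ℝ) < Z i := by exact_mod_cast S7C2_Zpos hG i
  have h4 : (Z i : ℝ) < p := by exact_mod_cast h2
  have h5 : S7C2g S hX hY (Sum.inr (Sum.inl i)) p ≤ 2 / (p : ℝ) := (hG.hY0 p h1).2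
  refine h5.trans ?_
  rw [div_le_div_iff₀ (by linarith) hZ]
  linarith

private theorem S7C2_agX {i : Fin (S.k + 1)} {x y : S7C2I S → ℕ}
    (h : ∀ l, l ≠ Sum.inl (Sum.inl i) → x l = y l) : S.agX i (S7C2X x) (S7C2X y) := by
  refine ⟨?_, ?_⟩
  · apply Prod.ext
    · funext f
      exact h _ (by simp)
    · funext e
      exact h _ (by simp)
  · intro j hj
    exact h _ (by simpa using hj)

private theorem S7C2_eqY {i : Fin (S.k + 1)} {x y : S7C2I S → ℕ}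
    (h : ∀ l, l ≠ Sum.inl (Sum.inl i) → x l = y l) : S7C2Y x = S7C2Y y := by
  apply Prod.ext
  · funext f
    exact h _ (by simp)
  · apply Prod.ext
    · funext f
      exact h _ (by simp)
    · funext e
      exact h _ (by simp)

theorem mass_one (hG : S.Geo T Z hX hY V) (E : S.TX → S.TY → Prop) (i : Fin (S.k + 1)) {Q : ℕ} (hQ : 0 < Q)
    (sep : ∀ μ ∈ S.MX, ∀ μ' ∈ S.MX, ∀ ν ∈ S.MY, E μ ν → E μ' ν → S.agX i μ μ' → μ.1 i < μ'.1 i → μ.1 i + Q ≤ μ'.1 i) :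
    S.mass hX hY E ≤ V * (1 / Q + 1 / Z i) * S.full hX hY := by
  classical
  have h := pi_one (S7C2W S) (S7C2g S hX hY) (S7C2_nn hG) (Sum.inl (Sum.inl i)) (S7C2_Zpos hG i) hQ
    zero_le_one (zero_le_one.trans hG.V1) (S7C2_WX hG i) (hG.lX i) (fun x => E (S7C2X x) (S7C2Y x)) (by
      intro x hx y hy hEx hEy hxy hlt
      have he := S7C2_eqY hxy
      rw [← he] at hEy
      exact sep _ (S7C2X_mem hx) _ (S7C2X_mem hy) _ (S7C2Y_mem hx) hEx hEy (S7C2_agX hxy) hlt)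
  rw [S7C2_mass, S7C2_full]
  refine h.trans (le_of_eq ?_)
  ring

theorem mass_twoX (hG : S.Geo T Z hX hY V) (E : S.TX → S.TY → Prop) {i j : Fin (S.k + 1)} (hij : i ≠ j) {Q Q' : ℕ} (hQ : 0 < Q) (hQ' : 0 < Q')
    (sep : ∀ μ ∈ S.MX, ∀ μ' ∈ S.MX, ∀ ν ∈ S.MY, E μ ν → E μ' ν → S.agX i μ μ' → μ.1 i < μ'.1 i → μ.1 i + Q ≤ μ'.1 i)
    (sepj : ∀ μ ∈ S.MX, ∀ μ' ∈ S.MX, ∀ ν ∈ S.MY, E μ ν → E μ' ν → μ.2 = μ'.2 → (∀ l, l ≠ i → l ≠ j → μ.1 l = μ'.1 l) →
      μ.1 j < μ'.1 j → μ.1 j + Q' ≤ μ'.1 j) :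
    S.mass hX hY E ≤ V ^ 2 * (1 / Q + 1 / Z i) * (1 / Q' + 1 / Z j) * S.full hX hY := by
  classical
  have hij' : (Sum.inl (Sum.inl i) : S7C2I S) ≠ Sum.inl (Sum.inl j) := by
    intro h
    exact hij (Sum.inl_injective (Sum.inl_injective h))
  have h := pi_two (S7C2W S) (S7C2g S hX hY) (S7C2_nn hG) hij' (S7C2_Zpos hG i) hQ (S7C2_Zpos hG j) hQ'
    zero_le_one zero_le_one (zero_le_one.trans hG.V1) (S7C2_WX hG i) (S7C2_WX hG j) (hG.lX i) (hG.lX j)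
    (fun x => E (S7C2X x) (S7C2Y x)) (by
      intro x hx y hy hEx hEy hxy hlt
      have he := S7C2_eqY hxy
      rw [← he] at hEy
      exact sep _ (S7C2X_mem hx) _ (S7C2X_mem hy) _ (S7C2Y_mem hx) hEx hEy (S7C2_agX hxy) hlt) (by
      intro x hx y hy hEx hEy hxy hlt
      have he : S7C2Y x = S7C2Y y := by
        apply Prod.ext
        · funext f
          exact hxy _ (by simp) (by simp)
        · apply Prod.ext
          · funext f
            exact hxy _ (by simp) (by simp)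
          · funext e
            exact hxy _ (by simp) (by simp)
      rw [← he] at hEy
      refine sepj _ (S7C2X_mem hx) _ (S7C2X_mem hy) _ (S7C2Y_mem hx) hEx hEy ?_ ?_ hlt
      · apply Prod.ext
        · funext f
          exact hxy _ (by simp) (by simp)
        · funext e
          exact hxy _ (by simp) (by simp)
      · intro l hl hl'
        exact hxy _ (by simpa using hl) (by simpa using hl'))
  rw [S7C2_mass, S7C2_full]
  refine h.trans (le_of_eq ?_)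
  ring

theorem mass_twoY (hG : S.Geo T Z hX hY V) (E : S.TX → S.TY → Prop) {i j : Fin (S.k + 1)} {Q Q' : ℕ} (hQ : 0 < Q) (hQ' : 0 < Q')
    (sep : ∀ μ ∈ S.MX, ∀ μ' ∈ S.MX, ∀ ν ∈ S.MY, E μ ν → E μ' ν → S.agX i μ μ' → μ.1 i < μ'.1 i → μ.1 i + Q ≤ μ'.1 i)
    (sepj : ∀ μ ∈ S.MX, ∀ μ' ∈ S.MX, ∀ ν ∈ S.MY, ∀ ν' ∈ S.MY, E μ ν → E μ' ν' → S.agX i μ μ' → S.agY j ν ν' →
      ν.1 j < ν'.1 j → ν.1 j + Q' ≤ ν'.1 j) :
    S.mass hX hY E ≤ 2 * V ^ 2 * (1 / Q + 1 / Z i) * (1 / Q' + 1 / Z j) * S.full hX hY := by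
  classical
  have hij' : (Sum.inl (Sum.inl i) : S7C2I S) ≠ Sum.inr (Sum.inl j) := Sum.inl_ne_inr
  have h := pi_two (S7C2W S) (S7C2g S hX hY) (S7C2_nn hG) hij' (S7C2_Zpos hG i) hQ (S7C2_Zpos hG j) hQ'
    zero_le_one zero_le_two (zero_le_one.trans hG.V1) (S7C2_WX hG i) (S7C2_WY hG j) (hG.lX i) (hG.lY j)
    (fun x => E (S7C2X x) (S7C2Y x)) (by
      intro x hx y hy hEx hEy hxy hlt
      have he := S7C2_eqY hxy
      rw [← he] at hEy
      exact sep _ (S7C2X_mem hx) _ (S7C2X_mem hy) _ (S7C2Y_mem hx) hEx hEy (S7C2_agX hxy) hlt) (by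
      intro x hx y hy hEx hEy hxy hlt
      refine sepj _ (S7C2X_mem hx) _ (S7C2X_mem hy) _ (S7C2Y_mem hx) _ (S7C2Y_mem hy) hEx hEy ⟨?_, ?_⟩ ⟨?_, ?_⟩ hlt
      · apply Prod.ext
        · funext f
          exact hxy _ (by simp) (by simp)
        · funext e
          exact hxy _ (by simp) (by simp)
      · intro l hl
        exact hxy _ (by simpa using hl) (by simp)
      · apply Prod.ext
        · funext f
          exact hxy _ (by simp) (by simp)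
        · funext e
          exact hxy _ (by simp) (by simp)
      · intro l hl
        exact hxy _ (by simp) (by simpa using hl))
  rw [S7C2_mass, S7C2_full]
  refine h.trans (le_of_eq ?_)
  ring

theorem mass_mono (hG : S.Geo T Z hX hY V) {E E' : S.TX → S.TY → Prop} (h : ∀ μ ∈ S.MX, ∀ ν ∈ S.MY, E μ ν → E' μ ν) :
    S.mass hX hY E ≤ S.mass hX hY E' := by
  classical
  rw [S7C2_mass, S7C2_mass]
  apply Finset.sum_le_sum
  intro x hx
  have h0 : 0 ≤ ∏ l, S7C2g S hX hY l (x l) :=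
    Finset.prod_nonneg fun l _ => S7C2_nn hG l _ (S7C2_mem.mp hx l)
  by_cases hE : E (S7C2X x) (S7C2Y x)
  · rw [if_pos hE, if_pos (h _ (S7C2X_mem hx) _ (S7C2Y_mem hx) hE)]
  · rw [if_neg hE]
    split_ifs
    · exact h0
    · exact le_refl _

theorem mass_Un (hG : S.Geo T Z hX hY V) {ι : Type*} (s : Finset ι) {E : S.TX → S.TY → Prop} (E' : ι → S.TX → S.TY → Prop)
    (h : ∀ μ ∈ S.MX, ∀ ν ∈ S.MY, E μ ν → ∃ i ∈ s, E' i μ ν) : S.mass hX hY E ≤ ∑ i ∈ s, S.mass hX hY (E' i) := by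
  classical
  simp only [S7C2_mass]
  rw [Finset.sum_comm]
  apply Finset.sum_le_sum
  intro x hx
  have h0 : 0 ≤ ∏ l, S7C2g S hX hY l (x l) :=
    Finset.prod_nonneg fun l _ => S7C2_nn hG l _ (S7C2_mem.mp hx l)
  have h1 : ∀ i ∈ s, 0 ≤ (if E' i (S7C2X x) (S7C2Y x) then ∏ l, S7C2g S hX hY l (x l) else 0) := by
    intro i _
    split_ifs
    · exact h0
    · exact le_refl _
  by_cases hE : E (S7C2X x) (S7C2Y x)
  · obtain ⟨i, hi, hi'⟩ := h _ (S7C2X_mem hx) _ (S7C2Y_mem hx) hE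
    rw [if_pos hE]
    refine le_trans (le_of_eq ?_) (Finset.single_le_sum h1 hi)
    rw [if_pos hi']
  · rw [if_neg hE]
    exact Finset.sum_nonneg h1

theorem full_nonneg (hG : S.Geo T Z hX hY V) : 0 ≤ S.full hX hY := by
  rw [S7C2_full]
  exact Finset.prod_nonneg fun l _ => Finset.sum_nonneg fun p hp => S7C2_nn hG l p hp

end Pool.Agent.Lib.TC
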