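import Pool.Agent.Lib.MP_7b7e48_nt.TC.S7G6

/-!
# S7G8: the number of the forbidden primes, pointwise

`Bs`, `Om ≠ 0` (part of `Bs`). The three terms of `fm` (PDefs), with `[P] = ind P`:
* third term: a prime dividing `prX id μ * prY id ν` is a mark.
* first and second term: let `p ∈ spec`, `p ∣ tI i`. `p ∣ N`: then `p ∣ FI (X - DN) i = D N (…) - Y SI` (`Bs_facts`), so `p ∣ Y SI`, `p ∤ Y` (`X` coprime to `N`, `Y = X - D N`): `p ∣ SI`; these `p` are `≤ z`, those of the second term are `> z`: together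
  at most the first sum below. `p ∣ v`: second sum. `p ∣ prX prY`: `p ≤ z < 3 Z i < α_i`, `p ≤ z ≤ Z i < β_i` (`zZ`, `D0`), so `p` is no window, `p = vX e` or `vY e`, and it divides `SI` or not. Otherwise `p ∣ SI` (sum over `PL`, `p ∤ N`, no mark) or `t2` and
  `hit … x0 p`: `p ∈ HS`.
-/

set_option autoImplicit false

open Finset

namespace Pool.Agent.Lib.TC

variable {S : MS} {T : Dat} {M : Msr S} {W0 : ℕ} {δ0 δ1 : ℝ} {Z : ℕ → ℕ} {V : ℝ} {Cd : S.TX → S.TY → ℕ → Prop}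

private theorem g8_nn (P : Prop) : 0 ≤ ind P := by
  unfold ind
  split_ifs
  · exact zero_le_one
  · exact le_refl 0

private theorem g8_one {P : Prop} (h : P) : ind P = 1 := by
  unfold ind
  rw [if_pos h]

private theorem g8_cov {ι : Type*} (E : Finset ι) (f : ι → ℕ) (w : ι → ℝ) (F : Finset ℕ) (h0 : ∀ e ∈ E, 0 ≤ w e)
    (h : ∀ p ∈ F, ∃ e ∈ E, f e = p ∧ 1 ≤ w e) : (F.card : ℝ) ≤ ∑ e ∈ E, w e := by
  classical
  have h1 : F ⊆ (E.filter fun e => 1 ≤ w e).image f := by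
    intro p hp
    obtain ⟨e, he, hf, hw⟩ := h p hp
    exact mem_image.2 ⟨e, mem_filter.2 ⟨he, hw⟩, hf⟩
  have h2 : F.card ≤ (E.filter fun e => 1 ≤ w e).card := (card_le_card h1).trans card_image_le
  calc (F.card : ℝ) ≤ ((E.filter fun e => 1 ≤ w e).card : ℝ) := by exact_mod_cast h2
    _ = ∑ e ∈ E.filter (fun e => 1 ≤ w e), (1 : ℝ) := by rw [sum_const, nsmul_eq_mul, mul_one]
    _ ≤ ∑ e ∈ E.filter (fun e => 1 ≤ w e), w e := sum_le_sum fun e he => (mem_filter.1 he).2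
    _ ≤ ∑ e ∈ E, w e := sum_le_sum_of_subset_of_nonneg (filter_subset _ _) fun e he _ => h0 e he

private theorem g8_sum {n : ℕ} (Q : ℕ → Prop) (h : ∃ i < n, Q i) : 1 ≤ ∑ i ∈ range n, ind (Q i) := by
  obtain ⟨i, hi, hQ⟩ := h
  calc (1 : ℝ) = ind (Q i) := (g8_one hQ).symm
    _ ≤ _ := single_le_sum (f := fun i => ind (Q i)) (fun j _ => g8_nn _) (mem_range.2 hi)

private theorem g8_snn {n : ℕ} (Q : ℕ → Prop) : 0 ≤ ∑ i ∈ range n, ind (Q i) :=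
  sum_nonneg fun i _ => g8_nn _

private theorem g8_memX {μ : S.TX} (hμ : μ ∈ S.MX) :
    (∀ i, μ.1 i ∈ S.WX i) ∧ (∀ f, μ.2.1 f ∈ S.FX f) ∧ ∀ e, μ.2.2 e ∈ S.OX e := by
  rw [MS.MX, mem_product, mem_product, Fintype.mem_piFinset, Fintype.mem_piFinset, Fintype.mem_piFinset] at hμ
  exact ⟨hμ.1, hμ.2.1, hμ.2.2⟩

private theorem g8_memY {ν : S.TY} (hν : ν ∈ S.MY) :
    (∀ i, ν.1 i ∈ S.WY i) ∧ (∀ f, ν.2.1 f ∈ S.FY f) ∧ ∀ e, ν.2.2 e ∈ S.OY e := by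
  rw [MS.MY, mem_product, mem_product, Fintype.mem_piFinset, Fintype.mem_piFinset, Fintype.mem_piFinset] at hν
  exact ⟨hν.1, hν.2.1, hν.2.2⟩

private theorem g8_Z (hG : S.Geo T Z M.hX M.hY V) (i : Fin (S.k + 1)) : T.z ≤ Z i := by
  have h := hG.zZ i (by have := i.2; omega)
  have h1 := hG.D0
  have h3 : T.z * 1 ≤ T.z * T.D := Nat.mul_le_mul_left _ h1
  omega

private theorem g8_X (hG : S.Geo T Z M.hX M.hY V) {μ : S.TX} (hμ : μ ∈ S.MX) {p : ℕ} (hp : p.Prime) (h : p ∣ S.prX id μ) :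
    (∃ i, μ.1 i = p) ∨ ∃ e, S.vX μ e = p := by
  obtain ⟨h1, h2, h3⟩ := g8_memX hμ
  unfold MS.prX at h
  rw [hp.dvd_mul, hp.dvd_mul] at h
  rcases h with (h | h) | h
  · rw [hp.prime.dvd_finsetProd_iff] at h
    obtain ⟨i, -, hi⟩ := h
    exact Or.inl ⟨i, ((Nat.prime_dvd_prime_iff_eq hp (hG.wx i _ (h1 i)).1).1 hi).symm⟩
  · rw [hp.prime.dvd_finsetProd_iff] at h
    obtain ⟨f, -, hf⟩ := h
    exact Or.inr ⟨Sum.inl f, ((Nat.prime_dvd_prime_iff_eq hp (hG.fx f _ (h2 f)).1).1 hf).symm⟩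
  · rw [hp.prime.dvd_finsetProd_iff] at h
    obtain ⟨f, -, hf⟩ := h
    exact Or.inr ⟨Sum.inr f, ((Nat.prime_dvd_prime_iff_eq hp (hG.ox f _ (h3 f)).1).1 hf).symm⟩

private theorem g8_Y (hG : S.Geo T Z M.hX M.hY V) {ν : S.TY} (hν : ν ∈ S.MY) {p : ℕ} (hp : p.Prime) (h : p ∣ S.prY id ν) :
    (∃ i, ν.1 i = p) ∨ ∃ e, S.vY ν e = p := by
  obtain ⟨h1, h2, h3⟩ := g8_memY hν
  unfold MS.prY at h
  rw [hp.dvd_mul, hp.dvd_mul] at h
  rcases h with (h | h) | h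
  · rw [hp.prime.dvd_finsetProd_iff] at h
    obtain ⟨i, -, hi⟩ := h
    exact Or.inl ⟨i, ((Nat.prime_dvd_prime_iff_eq hp (hG.wy i _ (h1 i)).1).1 hi).symm⟩
  · rw [hp.prime.dvd_finsetProd_iff] at h
    obtain ⟨f, -, hf⟩ := h
    exact Or.inr ⟨Sum.inl f, ((Nat.prime_dvd_prime_iff_eq hp (hG.fy f _ (h2 f)).1).1 hf).symm⟩
  · rw [hp.prime.dvd_finsetProd_iff] at h
    obtain ⟨f, -, hf⟩ := h
    exact Or.inr ⟨Sum.inr f, ((Nat.prime_dvd_prime_iff_eq hp (hG.oy f _ (h3 f)).1).1 hf).symm⟩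

private theorem g8_PL {p : ℕ} (hp : p ∈ T.PL) : p.Prime ∧ T.y0 < p ∧ p ≤ T.z := by
  rw [Dat.PL, mem_filter, mem_range] at hp
  exact ⟨hp.2.1, hp.2.2, by omega⟩

private theorem g8_Xz (hG : S.Geo T Z M.hX M.hY V) {μ : S.TX} (hμ : μ ∈ S.MX) {p : ℕ} (hp : p ∈ T.PL) (h : p ∣ S.prX id μ) :
    ∃ e, S.vX μ e = p := by
  obtain ⟨h1, -, h2⟩ := g8_PL hp
  rcases g8_X hG hμ h1 h with ⟨i, hi⟩ | h
  · have h3 := (hG.wx i _ ((g8_memX hμ).1 i)).2.1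
    have h4 := g8_Z hG i
    omega
  · exact h

private theorem g8_Yz (hG : S.Geo T Z M.hX M.hY V) {ν : S.TY} (hν : ν ∈ S.MY) {p : ℕ} (hp : p ∈ T.PL) (h : p ∣ S.prY id ν) :
    ∃ e, S.vY ν e = p := by
  obtain ⟨h1, -, h2⟩ := g8_PL hp
  rcases g8_Y hG hν h1 h with ⟨i, hi⟩ | h
  · have h3 := (hG.wy i _ ((g8_memY hν).1 i)).2.1
    have h4 := g8_Z hG i
    omega
  · exact h

/-- a prime factor of `N` which divides some `t_i` divides `S` -/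
private theorem g8_N (h : S.H7 T M W0 δ0 δ1 Z V Cd) {c : S.Col} (hc : c ∈ S.CC) {μ : S.TX} {ν : S.TY} (hμ : μ ∈ S.MX) (hν : ν ∈ S.MY) {n : ℕ}
    (hB : M.Bs T Cd c μ ν n) {p : ℕ} (hp : p.Prime) (hN : p ∣ T.N) {i : ℕ} (hi : i < S.k + 1) (ht : p ∣ S.tI T c μ ν (M.X μ ν n) i) :
    p ∣ S.SI T.N c μ ν := by
  obtain ⟨-, -, -, -, -, hX, hF⟩ := Bs_facts h hc hμ hν hB
  obtain ⟨-, -, hF⟩ := hF i hi
  have h1 : (p : ℤ) ∣ S.FI T c μ ν ((M.X μ ν n : ℤ) - T.D * T.N) i := (Int.natCast_dvd_natCast.2 ht).trans hF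
  rw [MS.FI, Ff, ← SI_eq h.geo c hμ hν] at h1
  have h2 : (p : ℤ) ∣ (T.D : ℤ) * T.N := (Int.natCast_dvd_natCast.2 hN).mul_left _
  have h3 : (p : ℤ) ∣ ((M.X μ ν n : ℤ) - T.D * T.N) * (S.SI T.N c μ ν : ℤ) := (dvd_sub_right (h2.mul_right _)).1 h1
  rcases (Nat.prime_iff_prime_int.1 hp).dvd_or_dvd h3 with h4 | h4
  · have h5 : (p : ℤ) ∣ (M.X μ ν n : ℤ) := (dvd_sub_left h2).1 h4
    exact absurd hX (Nat.not_coprime_of_dvd_of_dvd hp.one_lt (Int.natCast_dvd_natCast.1 h5) hN)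
  · exact Int.natCast_dvd_natCast.1 h4

open Classical in
/-- the first two terms, primes dividing `N` -/
private theorem g8_a (h : S.H7 T M W0 δ0 δ1 Z V Cd) {c : S.Col} (hc : c ∈ S.CC) {μ : S.TX} {ν : S.TY} (hμ : μ ∈ S.MX) (hν : ν ∈ S.MY) {n : ℕ}
    (hB : M.Bs T Cd c μ ν n) (F : Finset ℕ) (hF : ∀ p ∈ F, p ∈ T.PL ∧ p ∣ T.N ∧ ∃ i < S.k + 1, p ∣ S.tI T c μ ν (M.X μ ν n) i) :
    (F.card : ℝ) + ((T.N.primeFactors.filter fun p => T.z < p ∧ p ∣ S.SI T.N c μ ν).card : ℝ) ≤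
      ∑ p ∈ T.N.primeFactors.filter (fun p => T.y0 < p), ind (p ∣ S.SI T.N c μ ν) := by
  have hN0 : T.N ≠ 0 := by
    have := h.geo.N2
    omega
  have hd : Disjoint F (T.N.primeFactors.filter fun p => T.z < p ∧ p ∣ S.SI T.N c μ ν) := by
    rw [disjoint_left]
    intro p hp hp'
    have h1 := (g8_PL (hF p hp).1).2.2
    have h2 := (mem_filter.1 hp').2.1
    omega
  rw [← Nat.cast_add, ← card_union_of_disjoint hd]
  refine g8_cov _ (fun p => p) _ _ (fun p _ => g8_nn _) fun p hp => ?_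
  rw [mem_union] at hp
  rcases hp with hp | hp
  · obtain ⟨h1, h2, i, hi, h3⟩ := hF p hp
    obtain ⟨h4, h5, h6⟩ := g8_PL h1
    refine ⟨p, mem_filter.2 ⟨Nat.mem_primeFactors.2 ⟨h4, h2, hN0⟩, h5⟩, rfl, ?_⟩
    rw [g8_one (g8_N h hc hμ hν hB h4 h2 hi h3)]
  · rw [mem_filter] at hp
    have h5 := h.geo.yz
    refine ⟨p, mem_filter.2 ⟨hp.1, by have := hp.2.1; omega⟩, rfl, ?_⟩
    rw [g8_one hp.2.2]

private theorem g8_vX (F : Finset ℕ) (μ : S.TX) (P : ℕ → Prop) (t : ℕ → ℕ) (n : ℕ)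
    (hF : ∀ p ∈ F, (∃ e, S.vX μ e = p) ∧ ∃ i < n, p ∣ t i) :
    (F.card : ℝ) ≤ ∑ e : S.NX, (ind (P (S.vX μ e)) + ∑ i ∈ range n, ind (¬ P (S.vX μ e) ∧ S.vX μ e ∣ t i)) := by
  refine g8_cov _ (S.vX μ) _ _ (fun e _ => add_nonneg (g8_nn _) (g8_snn _)) fun p hp => ?_
  obtain ⟨⟨e, rfl⟩, h⟩ := hF p hp
  refine ⟨e, mem_univ e, rfl, ?_⟩
  by_cases hP : P (S.vX μ e)
  · rw [g8_one hP]
    have := g8_snn (n := n) (fun i => ¬ P (S.vX μ e) ∧ S.vX μ e ∣ t i)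
    linarith
  · have h1 := g8_sum (n := n) (fun i => ¬ P (S.vX μ e) ∧ S.vX μ e ∣ t i) (by
      obtain ⟨i, hi, hd⟩ := h
      exact ⟨i, hi, hP, hd⟩)
    have := g8_nn (P (S.vX μ e))
    linarith

private theorem g8_vY (F : Finset ℕ) (ν : S.TY) (P : ℕ → Prop) (t : ℕ → ℕ) (n : ℕ)
    (hF : ∀ p ∈ F, (∃ e, S.vY ν e = p) ∧ ∃ i < n, p ∣ t i) :
    (F.card : ℝ) ≤ ∑ e : S.NY, (ind (P (S.vY ν e)) + ∑ i ∈ range n, ind (¬ P (S.vY ν e) ∧ S.vY ν e ∣ t i)) := by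
  refine g8_cov _ (S.vY ν) _ _ (fun e _ => add_nonneg (g8_nn _) (g8_snn _)) fun p hp => ?_
  obtain ⟨⟨e, rfl⟩, h⟩ := hF p hp
  refine ⟨e, mem_univ e, rfl, ?_⟩
  by_cases hP : P (S.vY ν e)
  · rw [g8_one hP]
    have := g8_snn (n := n) (fun i => ¬ P (S.vY ν e) ∧ S.vY ν e ∣ t i)
    linarith
  · have h1 := g8_sum (n := n) (fun i => ¬ P (S.vY ν e) ∧ S.vY ν e ∣ t i) (by
      obtain ⟨i, hi, hd⟩ := h
      exact ⟨i, hi, hP, hd⟩)
    have := g8_nn (P (S.vY ν e))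
    linarith

open Classical in
/-- the third term -/
private theorem g8_m (hG : S.Geo T Z M.hX M.hY V) {μ : S.TX} {ν : S.TY} (hμ : μ ∈ S.MX) (hν : ν ∈ S.MY) (P : ℕ → Prop) :
    (((S.prX id μ * S.prY id ν).primeFactors.filter fun p => P p).card : ℝ) ≤
      ((∑ e : S.NX, ind (P (S.vX μ e))) + ∑ e : S.NY, ind (P (S.vY ν e))) +
      ∑ j : Fin (S.k + 1), (ind (P (μ.1 j)) + ind (P (ν.1 j))) := by
  set F := (S.prX id μ * S.prY id ν).primeFactors.filter fun p => P p with hF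
  have h1 : F ⊆ (F.filter (fun p => ∃ e, S.vX μ e = p) ∪ F.filter (fun p => ∃ e, S.vY ν e = p)) ∪
      (F.filter (fun p => ∃ j, μ.1 j = p) ∪ F.filter (fun p => ∃ j, ν.1 j = p)) := by
    intro p hp
    have hp' := hp
    rw [hF, mem_filter, Nat.mem_primeFactors] at hp'
    obtain ⟨⟨h2, h3, -⟩, -⟩ := hp'
    rw [h2.dvd_mul] at h3
    rw [mem_union, mem_union, mem_union]
    rcases h3 with h3 | h3
    · rcases g8_X hG hμ h2 h3 with h4 | h4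
      · exact Or.inr (Or.inl (mem_filter.2 ⟨hp, h4⟩))
      · exact Or.inl (Or.inl (mem_filter.2 ⟨hp, h4⟩))
    · rcases g8_Y hG hν h2 h3 with h4 | h4
      · exact Or.inr (Or.inr (mem_filter.2 ⟨hp, h4⟩))
      · exact Or.inl (Or.inr (mem_filter.2 ⟨hp, h4⟩))
  have h2 : (F.card : ℝ) ≤ (((F.filter (fun p => ∃ e, S.vX μ e = p)).card : ℝ) + ((F.filter (fun p => ∃ e, S.vY ν e = p)).card : ℝ)) +
      (((F.filter (fun p => ∃ j, μ.1 j = p)).card : ℝ) + ((F.filter (fun p => ∃ j, ν.1 j = p)).card : ℝ)) := by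
    have h3 := (card_le_card h1).trans (card_union_le _ _)
    have h4 := card_union_le (F.filter (fun p => ∃ e, S.vX μ e = p)) (F.filter (fun p => ∃ e, S.vY ν e = p))
    have h5 := card_union_le (F.filter (fun p => ∃ j, μ.1 j = p)) (F.filter (fun p => ∃ j, ν.1 j = p))
    exact_mod_cast h3.trans (Nat.add_le_add h4 h5)
  have hP : ∀ p ∈ F, P p := fun p hp => (mem_filter.1 hp).2
  have h3 : ((F.filter (fun p => ∃ e, S.vX μ e = p)).card : ℝ) ≤ ∑ e : S.NX, ind (P (S.vX μ e)) := by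
    refine g8_cov _ (S.vX μ) _ _ (fun e _ => g8_nn _) fun p hp => ?_
    obtain ⟨hp, e, rfl⟩ := mem_filter.1 hp
    exact ⟨e, mem_univ e, rfl, (g8_one (hP _ hp)).ge⟩
  have h4 : ((F.filter (fun p => ∃ e, S.vY ν e = p)).card : ℝ) ≤ ∑ e : S.NY, ind (P (S.vY ν e)) := by
    refine g8_cov _ (S.vY ν) _ _ (fun e _ => g8_nn _) fun p hp => ?_
    obtain ⟨hp, e, rfl⟩ := mem_filter.1 hp
    exact ⟨e, mem_univ e, rfl, (g8_one (hP _ hp)).ge⟩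
  have h5 : ((F.filter (fun p => ∃ j, μ.1 j = p)).card : ℝ) ≤ ∑ j : Fin (S.k + 1), ind (P (μ.1 j)) := by
    refine g8_cov _ μ.1 _ _ (fun e _ => g8_nn _) fun p hp => ?_
    obtain ⟨hp, e, rfl⟩ := mem_filter.1 hp
    exact ⟨e, mem_univ e, rfl, (g8_one (hP _ hp)).ge⟩
  have h6 : ((F.filter (fun p => ∃ j, ν.1 j = p)).card : ℝ) ≤ ∑ j : Fin (S.k + 1), ind (P (ν.1 j)) := by
    refine g8_cov _ ν.1 _ _ (fun e _ => g8_nn _) fun p hp => ?_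
    obtain ⟨hp, e, rfl⟩ := mem_filter.1 hp
    exact ⟨e, mem_univ e, rfl, (g8_one (hP _ hp)).ge⟩
  rw [sum_add_distrib]
  linarith

open Classical in
theorem fm_le (h : S.H7 T M W0 δ0 δ1 Z V Cd) {c : S.Col} (hc : c ∈ S.CC) {μ : S.TX} {ν : S.TY} (hμ : μ ∈ S.MX) (hν : ν ∈ S.MY) {n : ℕ}
    (hB : M.Bs T Cd c μ ν n) :
    M.fm T c μ ν (M.X μ ν n) ≤
      (∑ p ∈ T.N.primeFactors.filter (fun p => T.y0 < p), ind (p ∣ S.SI T.N c μ ν)) +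
      (∑ p ∈ M.v.primeFactors.filter (fun p => T.y0 < p), ∑ i ∈ range (S.k + 1), ind (p ∣ S.tI T c μ ν (M.X μ ν n) i)) +
      (∑ e : S.NX, (2 * ind (S.vX μ e ∣ S.SI T.N c μ ν) +
        ∑ i ∈ range (S.k + 1), ind (¬ S.vX μ e ∣ S.SI T.N c μ ν ∧ S.vX μ e ∣ S.tI T c μ ν (M.X μ ν n) i))) +
      (∑ e : S.NY, (2 * ind (S.vY ν e ∣ S.SI T.N c μ ν) +
        ∑ i ∈ range (S.k + 1), ind (¬ S.vY ν e ∣ S.SI T.N c μ ν ∧ S.vY ν e ∣ S.tI T c μ ν (M.X μ ν n) i))) +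
      (∑ j : Fin (S.k + 1), (ind (μ.1 j ∣ S.SI T.N c μ ν) + ind (ν.1 j ∣ S.SI T.N c μ ν))) +
      (∑ p ∈ T.PL.filter (fun p => ¬ p ∣ T.N), ∑ i ∈ range (S.k + 1),
        ind (¬ p ∣ S.prX id μ * S.prY id ν ∧ p ∣ S.SI T.N c μ ν ∧ p ∣ S.tI T c μ ν (M.X μ ν n) i)) +
      (((M.HS T c μ ν).filter fun p => ∃ i < S.k + 1, p ∣ S.tI T c μ ν (M.X μ ν n) i).card : ℝ) := by
  have hG := h.geo
  set P : ℕ → Prop := fun p => p ∣ S.SI T.N c μ ν with hP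
  set t : ℕ → ℕ := S.tI T c μ ν (M.X μ ν n) with ht
  set F := (S.spec T M.v M.x0 M.t2 c μ ν).filter fun p => ∃ i < S.k + 1, p ∣ t i with hF
  have hv0 : M.v ≠ 0 := h.ok.v_pos.ne'
  have hFm : ∀ p ∈ F, p ∈ T.PL ∧ (p ∣ T.N * M.v * S.prX id μ * S.prY id ν * S.SI T.N c μ ν ∨ (M.t2 ∧ S.hit T c μ ν M.x0 p)) ∧
      ∃ i < S.k + 1, p ∣ t i := by
    intro p hp
    obtain ⟨h1, h2⟩ := mem_filter.1 hp
    rw [MS.spec, mem_filter] at h1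
    exact ⟨h1.1, h1.2, h2⟩
  -- the six parts of `F`
  have h1 : F ⊆ ((F.filter (fun p => p ∣ T.N) ∪ F.filter (fun p => p ∣ M.v)) ∪
      (F.filter (fun p => ∃ e, S.vX μ e = p) ∪ F.filter (fun p => ∃ e, S.vY ν e = p))) ∪
      (F.filter (fun p => ¬ p ∣ T.N ∧ ¬ p ∣ S.prX id μ * S.prY id ν ∧ P p) ∪
      ((M.HS T c μ ν).filter fun p => ∃ i < S.k + 1, p ∣ t i)) := by
    intro p hp
    obtain ⟨h1, h2, h3⟩ := hFm p hp
    obtain ⟨hpp, -, -⟩ := g8_PL h1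
    rw [mem_union, mem_union, mem_union, mem_union, mem_union]
    by_cases ha : p ∣ T.N
    · exact Or.inl (Or.inl (Or.inl (mem_filter.2 ⟨hp, ha⟩)))
    by_cases hb : p ∣ M.v
    · exact Or.inl (Or.inl (Or.inr (mem_filter.2 ⟨hp, hb⟩)))
    by_cases hx : p ∣ S.prX id μ
    · exact Or.inl (Or.inr (Or.inl (mem_filter.2 ⟨hp, g8_Xz hG hμ h1 hx⟩)))
    by_cases hy : p ∣ S.prY id ν
    · exact Or.inl (Or.inr (Or.inr (mem_filter.2 ⟨hp, g8_Yz hG hν h1 hy⟩)))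
    have hxy : ¬ p ∣ S.prX id μ * S.prY id ν := by
      rw [hpp.dvd_mul, not_or]
      exact ⟨hx, hy⟩
    by_cases hs : P p
    · exact Or.inr (Or.inl (mem_filter.2 ⟨hp, ha, hxy, hs⟩))
    have hn : ¬ p ∣ T.N * M.v * S.prX id μ * S.prY id ν * S.SI T.N c μ ν := by
      rw [hpp.dvd_mul, hpp.dvd_mul, hpp.dvd_mul, hpp.dvd_mul]
      rintro ((((h4 | h4) | h4) | h4) | h4)
      · exact ha h4
      · exact hb h4
      · exact hx h4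
      · exact hy h4
      · exact hs h4
    refine Or.inr (Or.inr (mem_filter.2 ⟨?_, h3⟩))
    rw [Msr.HS, mem_filter]
    exact ⟨h1, hn, (h2.resolve_left hn).2⟩
  have h2 : (F.card : ℝ) ≤ ((((F.filter (fun p => p ∣ T.N)).card : ℝ) + ((F.filter (fun p => p ∣ M.v)).card : ℝ)) +
      (((F.filter (fun p => ∃ e, S.vX μ e = p)).card : ℝ) + ((F.filter (fun p => ∃ e, S.vY ν e = p)).card : ℝ))) +
      (((F.filter (fun p => ¬ p ∣ T.N ∧ ¬ p ∣ S.prX id μ * S.prY id ν ∧ P p)).card : ℝ) +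
      (((M.HS T c μ ν).filter fun p => ∃ i < S.k + 1, p ∣ t i).card : ℝ)) := by
    have h3 := (card_le_card h1).trans (card_union_le _ _)
    have h4 := card_union_le (F.filter (fun p => p ∣ T.N) ∪ F.filter (fun p => p ∣ M.v))
      (F.filter (fun p => ∃ e, S.vX μ e = p) ∪ F.filter (fun p => ∃ e, S.vY ν e = p))
    have h5 := card_union_le (F.filter (fun p => ¬ p ∣ T.N ∧ ¬ p ∣ S.prX id μ * S.prY id ν ∧ P p))
      ((M.HS T c μ ν).filter fun p => ∃ i < S.k + 1, p ∣ t i)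
    have h6 := card_union_le (F.filter (fun p => p ∣ T.N)) (F.filter (fun p => p ∣ M.v))
    have h7 := card_union_le (F.filter (fun p => ∃ e, S.vX μ e = p)) (F.filter (fun p => ∃ e, S.vY ν e = p))
    exact_mod_cast h3.trans (Nat.add_le_add (h4.trans (Nat.add_le_add h6 h7)) h5)
  have ha := g8_a h hc hμ hν hB (F.filter (fun p => p ∣ T.N)) (by
    intro p hp
    obtain ⟨hp, h3⟩ := mem_filter.1 hp
    obtain ⟨h4, -, h5⟩ := hFm p hp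
    exact ⟨h4, h3, h5⟩)
  have hb : ((F.filter (fun p => p ∣ M.v)).card : ℝ) ≤
      ∑ p ∈ M.v.primeFactors.filter (fun p => T.y0 < p), ∑ i ∈ range (S.k + 1), ind (p ∣ t i) := by
    refine g8_cov _ (fun p => p) _ _ (fun e _ => g8_snn _) fun p hp => ?_
    obtain ⟨hp, h3⟩ := mem_filter.1 hp
    obtain ⟨h4, -, h5⟩ := hFm p hp
    obtain ⟨h6, h7, -⟩ := g8_PL h4
    exact ⟨p, mem_filter.2 ⟨Nat.mem_primeFactors.2 ⟨h6, h3, hv0⟩, h7⟩, rfl, g8_sum _ h5⟩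
  have hx := g8_vX (F.filter (fun p => ∃ e, S.vX μ e = p)) μ P t (S.k + 1) (by
    intro p hp
    obtain ⟨hp, h3⟩ := mem_filter.1 hp
    obtain ⟨-, -, h5⟩ := hFm p hp
    exact ⟨h3, h5⟩)
  have hy := g8_vY (F.filter (fun p => ∃ e, S.vY ν e = p)) ν P t (S.k + 1) (by
    intro p hp
    obtain ⟨hp, h3⟩ := mem_filter.1 hp
    obtain ⟨-, -, h5⟩ := hFm p hp
    exact ⟨h3, h5⟩)
  have hs : ((F.filter (fun p => ¬ p ∣ T.N ∧ ¬ p ∣ S.prX id μ * S.prY id ν ∧ P p)).card : ℝ) ≤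
      ∑ p ∈ T.PL.filter (fun p => ¬ p ∣ T.N), ∑ i ∈ range (S.k + 1), ind (¬ p ∣ S.prX id μ * S.prY id ν ∧ P p ∧ p ∣ t i) := by
    refine g8_cov _ (fun p => p) _ _ (fun e _ => g8_snn _) fun p hp => ?_
    obtain ⟨hp, h3, h4, h5⟩ := mem_filter.1 hp
    obtain ⟨h6, -, i, hi, h7⟩ := hFm p hp
    exact ⟨p, mem_filter.2 ⟨h6, h3⟩, rfl, g8_sum _ ⟨i, hi, h4, h5, h7⟩⟩
  have hm : (((S.prX id μ * S.prY id ν).primeFactors.filter fun p => P p).card : ℝ) ≤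
      ((∑ e : S.NX, ind (P (S.vX μ e))) + ∑ e : S.NY, ind (P (S.vY ν e))) +
      ∑ j : Fin (S.k + 1), (ind (P (μ.1 j)) + ind (P (ν.1 j))) := by
    convert g8_m hG hμ hν P
  rw [sum_add_distrib] at hx hy
  have key : (F.card : ℝ) + ((T.N.primeFactors.filter fun p => T.z < p ∧ p ∣ S.SI T.N c μ ν).card : ℝ) +
      (((S.prX id μ * S.prY id ν).primeFactors.filter fun p => P p).card : ℝ) ≤
      (∑ p ∈ T.N.primeFactors.filter (fun p => T.y0 < p), ind (p ∣ S.SI T.N c μ ν)) +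
      (∑ p ∈ M.v.primeFactors.filter (fun p => T.y0 < p), ∑ i ∈ range (S.k + 1), ind (p ∣ t i)) +
      (∑ e : S.NX, (2 * ind (P (S.vX μ e)) + ∑ i ∈ range (S.k + 1), ind (¬ P (S.vX μ e) ∧ S.vX μ e ∣ t i))) +
      (∑ e : S.NY, (2 * ind (P (S.vY ν e)) + ∑ i ∈ range (S.k + 1), ind (¬ P (S.vY ν e) ∧ S.vY ν e ∣ t i))) +
      (∑ j : Fin (S.k + 1), (ind (P (μ.1 j)) + ind (P (ν.1 j)))) +
      (∑ p ∈ T.PL.filter (fun p => ¬ p ∣ T.N), ∑ i ∈ range (S.k + 1), ind (¬ p ∣ S.prX id μ * S.prY id ν ∧ P p ∧ p ∣ t i)) +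
      (((M.HS T c μ ν).filter fun p => ∃ i < S.k + 1, p ∣ t i).card : ℝ) := by
    rw [sum_add_distrib (f := fun e : S.NX => 2 * ind (P (S.vX μ e))), sum_add_distrib (f := fun e : S.NY => 2 * ind (P (S.vY ν e))),
      ← mul_sum, ← mul_sum]
    linarith
  rw [Msr.fm, if_pos hB.2.2.2]
  exact key

end Pool.Agent.Lib.TC
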