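import Pool.Agent.Lib.MP_7b7e48_nt.TC.S7G2
import Pool.Agent.Lib.MP_7b7e48_nt.TC.S7G3
import Pool.Agent.Lib.MP_7b7e48_nt.TC.S7G4
import Pool.Agent.Lib.MP_7b7e48_nt.TC.S7G5
import Pool.Agent.Lib.MP_7b7e48_nt.TC.S7G7
import Pool.Agent.Lib.MP_7b7e48_nt.TC.S7G8

/-!
# S7M: section 7, the bound for the forbidden primes

If `LL` fails, `fm = 0`; so the sum is over the triples with `Bs` (`Om = 0` gives nothing). Insert `fm_le` (S7G8) and exchange the sums: every term is `cnt` of one of the sets bounded in S7G1 – S7G5, S7G7: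
`N`: at most `log₂ N ≤ 2 K` primes, `G1_N`; `v`: at most `log₂ v ≤ 2 K` primes (`v_le`), `k + 1` indices, `G5_v`; marks of `X`: `≤ K` of them: `2 G1_X + (k+1) (k+3) ub` (`G3`); marks of `Y`: `2 (k+1) ub + (k+1)(k+3) ub` (`G2`, `G4`);
windows `2 (k+1) ub` (`G1_WX`, `G1_WY`); `PL`: `(k+1) ∑_{p > y0} (4 V²/(p² D) tot + |MX| |MY| err) ≤ (k+1) (ub + z |MX| |MY| err)` (`∑_{n > y0} 1/n² ≤ 1/y0`, `|PL| ≤ z`); `HS`: `G7`.
Sum: `≤ (2K + 2K(k+1) + K (2 + (k+1)(k+3)) + K (2(k+1) + (k+1)(k+3)) + 2(k+1) + (k+1) + 200 (k+2)⁴ K) ub + …≤ 300 (k+2)⁴ K ub + (k+1) z |MX| |MY| err`.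
-/

set_option autoImplicit false

open Finset

namespace Pool.Agent.Lib.TC

variable {S : MS} {T : Dat} {M : Msr S} {W0 : ℕ} {δ0 δ1 : ℝ} {Z : ℕ → ℕ} {V : ℝ} {Cd : S.TX → S.TY → ℕ → Prop}

private theorem m7_Bs {c : S.Col} {μ : S.TX} {ν : S.TY} {n : ℕ} (hn : ¬ M.Bs T Cd c μ ν n) (ha : M.adm μ ν) (hC : Cd μ ν n) :
    M.Om μ ν n * M.fm T c μ ν (M.X μ ν n) = 0 := by
  classical
  by_cases hO : M.Om μ ν n = 0
  · rw [hO, zero_mul]
  · have hLL : ¬ S.LL T c μ ν (M.X μ ν n) := fun h => hn ⟨ha, hO, hC, h⟩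
    have : M.fm T c μ ν (M.X μ ν n) = 0 := by
      unfold Msr.fm
      rw [if_neg hLL]
    rw [this, mul_zero]

private theorem m7_add (E : S.TX → S.TY → ℕ → Prop) (f g : S.TX → S.TY → ℕ → ℝ) :
    M.cntf E (fun μ ν n => f μ ν n + g μ ν n) = M.cntf E f + M.cntf E g := by
  unfold Msr.cntf
  simp only [← sum_add_distrib]
  refine sum_congr rfl fun μ _ => sum_congr rfl fun ν _ => sum_congr rfl fun n _ => ?_
  split_ifs
  · ring
  · ring

private theorem m7_mul (E : S.TX → S.TY → ℕ → Prop) (a : ℝ) (f : S.TX → S.TY → ℕ → ℝ) :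
    M.cntf E (fun μ ν n => a * f μ ν n) = a * M.cntf E f := by
  unfold Msr.cntf
  simp only [mul_sum]
  refine sum_congr rfl fun μ _ => sum_congr rfl fun ν _ => sum_congr rfl fun n _ => ?_
  split_ifs
  · ring
  · ring

private theorem m7_sum (E : S.TX → S.TY → ℕ → Prop) {ι : Type*} (s : Finset ι) (f : ι → S.TX → S.TY → ℕ → ℝ) :
    M.cntf E (fun μ ν n => ∑ i ∈ s, f i μ ν n) = ∑ i ∈ s, M.cntf E (f i) := by
  unfold Msr.cntf
  symm
  rw [sum_comm]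
  refine sum_congr rfl fun μ _ => ?_
  rw [sum_comm]
  refine sum_congr rfl fun ν _ => ?_
  rw [sum_comm]
  refine sum_congr rfl fun n _ => ?_
  split_ifs
  · rw [mul_sum]
  · rw [sum_const_zero]

private theorem m7_ind (E Q : S.TX → S.TY → ℕ → Prop) :
    M.cntf E (fun μ ν n => ind (Q μ ν n)) = M.cnt (fun μ ν n => E μ ν n ∧ Q μ ν n) := by
  unfold Msr.cntf Msr.cnt ind
  refine sum_congr rfl fun μ _ => sum_congr rfl fun ν _ => sum_congr rfl fun n _ => ?_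
  by_cases h1 : E μ ν n
  · by_cases h2 : Q μ ν n
    · simp [h1, h2]
    · simp [h1, h2]
  · simp [h1]

private theorem m7_pf {n : ℕ} (hn : 0 < n) : (n.primeFactors.card : ℝ) ≤ 2 * Real.log n := by
  have h1 : 2 ^ n.primeFactors.card ≤ n := by
    calc 2 ^ n.primeFactors.card = ∏ p ∈ n.primeFactors, 2 := by rw [prod_const]
      _ ≤ ∏ p ∈ n.primeFactors, p := prod_le_prod' fun p hp => (Nat.prime_of_mem_primeFactors hp).two_le
      _ ≤ n := Nat.le_of_dvd hn (Nat.prod_primeFactors_dvd n)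
  have h2 : ((2 : ℝ) ^ n.primeFactors.card) ≤ n := by exact_mod_cast h1
  have h3 := Real.log_le_log (by positivity) h2
  rw [Real.log_pow] at h3
  have h4 := Real.log_two_gt_d9
  have h5 : (0 : ℝ) ≤ n.primeFactors.card := Nat.cast_nonneg _
  nlinarith

private theorem m7_sq (a b : ℕ) (ha : 0 < a) : ∑ p ∈ Ioc a b, 1 / ((p : ℝ) ^ 2) ≤ 1 / (a : ℝ) := by
  have key : ∀ b : ℕ, a ≤ b → ∑ p ∈ Ioc a b, 1 / ((p : ℝ) ^ 2) ≤ 1 / (a : ℝ) - 1 / (b : ℝ) := by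
    intro b hb
    induction b, hb using Nat.le_induction with
    | base => simp
    | succ b hb ih =>
      rw [Finset.sum_Ioc_succ_top hb]
      have hb0 : (0 : ℝ) < b := by exact_mod_cast (lt_of_lt_of_le ha hb)
      have h1 : 1 / (((b + 1 : ℕ) : ℝ) ^ 2) ≤ 1 / (b : ℝ) - 1 / ((b + 1 : ℕ) : ℝ) := by
        push_cast
        rw [div_sub_div _ _ hb0.ne' (by positivity), div_le_div_iff₀ (by positivity) (by positivity)]
        nlinarith
      linarith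
  rcases le_or_gt a b with h | h
  · have h1 := key b h
    have h2 : (0 : ℝ) ≤ 1 / (b : ℝ) := by positivity
    linarith
  · rw [Ioc_eq_empty (by omega), sum_empty]
    positivity

private theorem m7_cast (x y : ℕ) : ((x : ℝ) + y) = ((x + y : ℕ) : ℝ) := by push_cast; rfl

open Classical in
theorem S7_one (h : S.H7 T M W0 δ0 δ1 Z V Cd) {c : S.Col} (hc : c ∈ S.CC) (hL : ∀ μ ∈ S.MX, ∀ ν ∈ S.MY, ∀ l, (S.AI T.N c μ ν l : ℝ) ≤ T.N ∧ (S.BI T.N c μ ν l : ℝ) ≤ T.N)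
    (hW : (W0 : ℝ) ≤ T.N) (hK : 1 ≤ Real.log T.N) (hX : ((S.n0 + S.nX : ℕ) : ℝ) ≤ Real.log T.N) (hY : ((S.n0 + S.nY : ℕ) : ℝ) ≤ Real.log T.N)
    {p1 : ℕ} (hp1 : p1.Prime) (hy : T.y0 < p1) (hN : ¬ p1 ∣ T.N) (hno : ∀ μ ∈ S.MX, ∀ ν ∈ S.MY, ¬ p1 ∣ S.prX id μ * S.prY id ν) :
    ∑ μ ∈ S.MX, ∑ ν ∈ S.MY, ∑ n ∈ range (M.nm + 1), (if M.adm μ ν ∧ Cd μ ν n then M.Om μ ν n * M.fm T c μ ν (M.X μ ν n) else 0) ≤
      300 * (S.k + 2) ^ 4 * Real.log T.N * M.ub T V δ1 + (S.k + 1) * T.z * (S.MX.card * S.MY.card * M.err T δ1) := by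
  have hg := h.geo
  set K := Real.log T.N with hKd
  set k : ℝ := (S.k : ℝ) with hk
  have hk1 : (1 : ℝ) ≤ k := by rw [hk]; exact_mod_cast hg.k1
  have hful : 0 ≤ S.full M.hX M.hY := full_nonneg hg
  have htot : 0 ≤ M.tot := mul_nonneg h.ok.W_pos.le hful
  have herr : 0 ≤ M.err T δ1 := by
    unfold Msr.err
    exact mul_nonneg (Real.rpow_nonneg (Nat.cast_nonneg _) _) h.ok.W_pos.le
  set A : ℝ := S.MX.card * S.MY.card * M.err T δ1 with hA
  have hA0 : 0 ≤ A := by positivity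
  have hy1 : (1 : ℝ) ≤ T.y0 := by exact_mod_cast hg.y1
  have hD1 : (1 : ℝ) ≤ T.D := by exact_mod_cast hg.D0
  have hV := hg.V1
  set u := M.ub T V δ1 with hu
  have hu' : u = 8 * V ^ 2 / (T.y0 * T.D) * M.tot + A := rfl
  have hm0 : 0 ≤ 8 * V ^ 2 / ((T.y0 : ℝ) * T.D) * M.tot := by positivity
  have hu0 : 0 ≤ u := by rw [hu']; positivity
  set Bs : S.TX → S.TY → ℕ → Prop := fun μ ν n => M.Bs T Cd c μ ν n with hBs
  -- first step
  have h1 : ∑ μ ∈ S.MX, ∑ ν ∈ S.MY, ∑ n ∈ range (M.nm + 1), (if M.adm μ ν ∧ Cd μ ν n then M.Om μ ν n * M.fm T c μ ν (M.X μ ν n) else 0) ≤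
      M.cntf Bs (fun μ ν n =>
      (∑ p ∈ T.N.primeFactors.filter (fun p => T.y0 < p), ind (p ∣ S.SI T.N c μ ν)) +
      (∑ p ∈ M.v.primeFactors.filter (fun p => T.y0 < p), ∑ i ∈ range (S.k + 1), ind (p ∣ S.tI T c μ ν (M.X μ ν n) i)) +
      (∑ e : S.NX, (2 * ind (S.vX μ e ∣ S.SI T.N c μ ν) +
        ∑ i ∈ range (S.k + 1), ind (¬ S.vX μ e ∣ S.SI T.N c μ ν ∧ S.vX μ e ∣ S.tI T c μ ν (M.X μ ν n) i))) +
      (∑ e : S.NY, (2 * ind (S.vY ν e ∣ S.SI T.N c μ ν) +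
        ∑ i ∈ range (S.k + 1), ind (¬ S.vY ν e ∣ S.SI T.N c μ ν ∧ S.vY ν e ∣ S.tI T c μ ν (M.X μ ν n) i))) +
      (∑ j : Fin (S.k + 1), (ind (μ.1 j ∣ S.SI T.N c μ ν) + ind (ν.1 j ∣ S.SI T.N c μ ν))) +
      (∑ p ∈ T.PL.filter (fun p => ¬ p ∣ T.N), ∑ i ∈ range (S.k + 1),
        ind (¬ p ∣ S.prX id μ * S.prY id ν ∧ p ∣ S.SI T.N c μ ν ∧ p ∣ S.tI T c μ ν (M.X μ ν n) i)) +
      (((M.HS T c μ ν).filter fun p => ∃ i < S.k + 1, p ∣ S.tI T c μ ν (M.X μ ν n) i).card : ℝ)) := by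
    unfold Msr.cntf
    refine sum_le_sum fun μ hμ => sum_le_sum fun ν hν => sum_le_sum fun n _ => ?_
    by_cases hB : M.Bs T Cd c μ ν n
    · rw [if_pos ⟨hB.1, hB.2.2.1⟩, if_pos (show Bs μ ν n from hB)]
      exact mul_le_mul_of_nonneg_left (fm_le h hc hμ hν hB) (h.ok.Om_nonneg μ ν n)
    · rw [if_neg (show ¬ Bs μ ν n from hB)]
      split_ifs with hac
      · exact (m7_Bs hB hac.1 hac.2).le
      · exact le_rfl
  refine h1.trans ?_
  rw [m7_add, m7_add, m7_add, m7_add, m7_add, m7_add]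
  have hrange : ∀ i ∈ range (S.k + 1), i ≤ S.k := fun i hi => by rw [mem_range] at hi; omega
  have hNpos : 0 < T.N := by have := hg.N2; omega
  -- N
  have c1 : M.cntf Bs (fun μ ν _ => ∑ p ∈ T.N.primeFactors.filter (fun p => T.y0 < p), ind (p ∣ S.SI T.N c μ ν)) ≤ 2 * K * u := by
    rw [m7_sum]
    calc _ ≤ ∑ p ∈ T.N.primeFactors.filter (fun p => T.y0 < p), u := by
          refine sum_le_sum fun p hp => ?_
          rw [mem_filter] at hp
          rw [m7_ind Bs (fun μ ν _ => p ∣ S.SI T.N c μ ν)]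
          exact G1_N h hc (Nat.prime_of_mem_primeFactors hp.1) (Nat.dvd_of_mem_primeFactors hp.1) hp.2
      _ = ((T.N.primeFactors.filter (fun p => T.y0 < p)).card : ℝ) * u := by rw [sum_const, nsmul_eq_mul]
      _ ≤ 2 * K * u := by
          refine mul_le_mul_of_nonneg_right ?_ hu0
          exact le_trans (by exact_mod_cast card_filter_le _ _) (m7_pf hNpos)
  have c2 : M.cntf Bs (fun μ ν n => ∑ p ∈ M.v.primeFactors.filter (fun p => T.y0 < p), ∑ i ∈ range (S.k + 1),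
      ind (p ∣ S.tI T c μ ν (M.X μ ν n) i)) ≤ 2 * K * ((k + 1) * u) := by
    rw [m7_sum]
    calc _ ≤ ∑ p ∈ M.v.primeFactors.filter (fun p => T.y0 < p), (k + 1) * u := by
          refine sum_le_sum fun p hp => ?_
          rw [mem_filter] at hp
          rw [m7_sum]
          calc _ ≤ ∑ i ∈ range (S.k + 1), u := by
                refine sum_le_sum fun i hi => ?_
                rw [m7_ind Bs (fun μ ν n => p ∣ S.tI T c μ ν (M.X μ ν n) i)]
                exact G5_v h hc (Nat.prime_of_mem_primeFactors hp.1) hp.2 (Nat.dvd_of_mem_primeFactors hp.1) (hrange i hi)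
            _ = (k + 1) * u := by rw [sum_const, card_range, nsmul_eq_mul, hk]; push_cast; ring
      _ = ((M.v.primeFactors.filter (fun p => T.y0 < p)).card : ℝ) * ((k + 1) * u) := by rw [sum_const, nsmul_eq_mul]
      _ ≤ 2 * K * ((k + 1) * u) := by
          refine mul_le_mul_of_nonneg_right ?_ (by positivity)
          refine le_trans (by exact_mod_cast card_filter_le _ _) ((m7_pf h.ok.v_pos).trans ?_)
          have : Real.log M.v ≤ K := Real.log_le_log (by exact_mod_cast h.ok.v_pos) (by exact_mod_cast h.ok.v_le)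
          linarith
  have c3 : M.cntf Bs (fun μ ν n => ∑ e : S.NX, (2 * ind (S.vX μ e ∣ S.SI T.N c μ ν) +
        ∑ i ∈ range (S.k + 1), ind (¬ S.vX μ e ∣ S.SI T.N c μ ν ∧ S.vX μ e ∣ S.tI T c μ ν (M.X μ ν n) i))) ≤
      K * (2 * u + (k + 1) * ((k + 3) * u)) := by
    rw [m7_sum]
    calc _ ≤ ∑ e : S.NX, (2 * u + (k + 1) * ((k + 3) * u)) := by
          refine sum_le_sum fun e _ => ?_
          rw [m7_add, m7_mul, m7_sum, m7_ind Bs (fun μ ν _ => S.vX μ e ∣ S.SI T.N c μ ν)]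
          refine add_le_add (mul_le_mul_of_nonneg_left (G1_X h hc e) (by norm_num)) ?_
          calc _ ≤ ∑ i ∈ range (S.k + 1), (k + 3) * u := by
                refine sum_le_sum fun i hi => ?_
                rw [m7_ind Bs (fun μ ν n => ¬ S.vX μ e ∣ S.SI T.N c μ ν ∧ S.vX μ e ∣ S.tI T c μ ν (M.X μ ν n) i)]
                exact G3 h hc e (hrange i hi)
            _ = (k + 1) * ((k + 3) * u) := by rw [sum_const, card_range, nsmul_eq_mul, hk]; push_cast; ring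
      _ = ((S.n0 + S.nX : ℕ) : ℝ) * (2 * u + (k + 1) * ((k + 3) * u)) := by
          rw [sum_const, nsmul_eq_mul, card_univ, Fintype.card_sum, Fintype.card_fin, Fintype.card_fin]
      _ ≤ K * (2 * u + (k + 1) * ((k + 3) * u)) := mul_le_mul_of_nonneg_right hX (by positivity)
  have c4 : M.cntf Bs (fun μ ν n => ∑ e : S.NY, (2 * ind (S.vY ν e ∣ S.SI T.N c μ ν) +
        ∑ i ∈ range (S.k + 1), ind (¬ S.vY ν e ∣ S.SI T.N c μ ν ∧ S.vY ν e ∣ S.tI T c μ ν (M.X μ ν n) i))) ≤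
      K * (2 * ((k + 1) * u) + (k + 1) * ((k + 3) * u)) := by
    rw [m7_sum]
    calc _ ≤ ∑ e : S.NY, (2 * ((k + 1) * u) + (k + 1) * ((k + 3) * u)) := by
          refine sum_le_sum fun e _ => ?_
          rw [m7_add, m7_mul, m7_sum, m7_ind Bs (fun μ ν _ => S.vY ν e ∣ S.SI T.N c μ ν)]
          refine add_le_add (mul_le_mul_of_nonneg_left (G2 h hc e) (by norm_num)) ?_
          calc _ ≤ ∑ i ∈ range (S.k + 1), (k + 3) * u := by
                refine sum_le_sum fun i hi => ?_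
                rw [m7_ind Bs (fun μ ν n => ¬ S.vY ν e ∣ S.SI T.N c μ ν ∧ S.vY ν e ∣ S.tI T c μ ν (M.X μ ν n) i)]
                exact G4 h hc e (hrange i hi)
            _ = (k + 1) * ((k + 3) * u) := by rw [sum_const, card_range, nsmul_eq_mul, hk]; push_cast; ring
      _ = ((S.n0 + S.nY : ℕ) : ℝ) * (2 * ((k + 1) * u) + (k + 1) * ((k + 3) * u)) := by
          rw [sum_const, nsmul_eq_mul, card_univ, Fintype.card_sum, Fintype.card_fin, Fintype.card_fin]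
      _ ≤ K * (2 * ((k + 1) * u) + (k + 1) * ((k + 3) * u)) := mul_le_mul_of_nonneg_right hY (by positivity)
  have c5 : M.cntf Bs (fun μ ν _ => ∑ j : Fin (S.k + 1), (ind (μ.1 j ∣ S.SI T.N c μ ν) + ind (ν.1 j ∣ S.SI T.N c μ ν))) ≤
      (k + 1) * (2 * u) := by
    rw [m7_sum]
    calc _ ≤ ∑ j : Fin (S.k + 1), 2 * u := by
          refine sum_le_sum fun j _ => ?_
          rw [m7_add, m7_ind Bs (fun μ ν _ => μ.1 j ∣ S.SI T.N c μ ν), m7_ind Bs (fun μ ν _ => ν.1 j ∣ S.SI T.N c μ ν)]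
          have e1 := G1_WX h hc j
          have e2 := G1_WY h hc j
          linarith
      _ = (k + 1) * (2 * u) := by rw [sum_const, nsmul_eq_mul, card_univ, Fintype.card_fin, hk]; push_cast; ring
  have c6 : M.cntf Bs (fun μ ν n => ∑ p ∈ T.PL.filter (fun p => ¬ p ∣ T.N), ∑ i ∈ range (S.k + 1),
        ind (¬ p ∣ S.prX id μ * S.prY id ν ∧ p ∣ S.SI T.N c μ ν ∧ p ∣ S.tI T c μ ν (M.X μ ν n) i)) ≤
      (k + 1) * u + (k + 1) * T.z * A := by
    rw [m7_sum]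
    have hPL : ∀ p ∈ T.PL, T.y0 < p ∧ p ≤ T.z := fun p hp => by
      simp only [Dat.PL, mem_filter, mem_range] at hp
      exact ⟨hp.2.2, by omega⟩
    have hz1 : (1 : ℝ) ≤ T.z := by exact_mod_cast (le_trans hg.y1 hg.yz)
    calc _ ≤ ∑ p ∈ T.PL.filter (fun p => ¬ p ∣ T.N), (k + 1) * (4 * V ^ 2 / ((p : ℝ) ^ 2 * T.D) * M.tot + A) := by
          refine sum_le_sum fun p hp => ?_
          rw [mem_filter] at hp
          rw [m7_sum]
          calc _ ≤ ∑ i ∈ range (S.k + 1), (4 * V ^ 2 / ((p : ℝ) ^ 2 * T.D) * M.tot + A) := by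
                refine sum_le_sum fun i hi => ?_
                rw [m7_ind Bs (fun μ ν n => ¬ p ∣ S.prX id μ * S.prY id ν ∧ p ∣ S.SI T.N c μ ν ∧ p ∣ S.tI T c μ ν (M.X μ ν n) i)]
                exact G5_L h hc hp.1 hp.2 (hrange i hi)
            _ = (k + 1) * (4 * V ^ 2 / ((p : ℝ) ^ 2 * T.D) * M.tot + A) := by rw [sum_const, card_range, nsmul_eq_mul, hk]; push_cast; ring
      _ ≤ ∑ p ∈ Ioc T.y0 T.z, (k + 1) * (4 * V ^ 2 / ((p : ℝ) ^ 2 * T.D) * M.tot + A) := by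
          refine sum_le_sum_of_subset_of_nonneg ?_ fun p _ _ => by positivity
          intro p hp
          rw [mem_filter] at hp
          rw [mem_Ioc]
          exact hPL p hp.1
      _ = (k + 1) * (4 * V ^ 2 / T.D * M.tot * (∑ p ∈ Ioc T.y0 T.z, 1 / ((p : ℝ) ^ 2)) + ((Ioc T.y0 T.z).card : ℝ) * A) := by
          rw [← mul_sum, sum_add_distrib, sum_const, nsmul_eq_mul, mul_sum]
          congr 2
          refine sum_congr rfl fun p hp => ?_
          rw [mem_Ioc] at hp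
          have hp0 : (0 : ℝ) < p := by
            have : 0 < p := lt_of_le_of_lt (Nat.zero_le _) hp.1
            exact_mod_cast this
          have hD0 : (0 : ℝ) < T.D := by linarith
          field_simp
      _ ≤ (k + 1) * (4 * V ^ 2 / T.D * M.tot * (1 / T.y0) + T.z * A) := by
          refine mul_le_mul_of_nonneg_left (add_le_add ?_ ?_) (by positivity)
          · exact mul_le_mul_of_nonneg_left (m7_sq _ _ hg.y1) (by positivity)
          · refine mul_le_mul_of_nonneg_right ?_ hA0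
            rw [Nat.card_Ioc]
            exact_mod_cast Nat.sub_le _ _
      _ ≤ (k + 1) * u + (k + 1) * T.z * A := by
          have e1 : 4 * V ^ 2 / T.D * M.tot * (1 / T.y0) ≤ 8 * V ^ 2 / ((T.y0 : ℝ) * T.D) * M.tot := by
            have e2 : 4 * V ^ 2 / T.D * M.tot * (1 / T.y0) = (4 * V ^ 2 / ((T.y0 : ℝ) * T.D)) * M.tot := by
              have hD0 : (T.D : ℝ) ≠ 0 := by linarith
              have hy0 : (T.y0 : ℝ) ≠ 0 := by linarith
              field_simp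
            rw [e2]
            refine mul_le_mul_of_nonneg_right ?_ htot
            exact div_le_div_of_nonneg_right (by nlinarith [sq_nonneg V]) (by positivity)
          have e3 : 4 * V ^ 2 / T.D * M.tot * (1 / T.y0) ≤ u := by rw [hu']; linarith
          have e4 := mul_le_mul_of_nonneg_left e3 (show (0 : ℝ) ≤ k + 1 by linarith)
          nlinarith
  have c7 : M.cntf Bs (fun μ ν n => (((M.HS T c μ ν).filter fun p => ∃ i < S.k + 1, p ∣ S.tI T c μ ν (M.X μ ν n) i).card : ℝ)) ≤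
      200 * (k + 2) ^ 4 * K * u := G7 h hc hL hW hK hp1 hy hN hno
  have hKu : 0 ≤ K * u := mul_nonneg (by linarith) hu0
  have hfin : 2 * K * u + 2 * K * ((k + 1) * u) + K * (2 * u + (k + 1) * ((k + 3) * u)) +
      K * (2 * ((k + 1) * u) + (k + 1) * ((k + 3) * u)) + (k + 1) * (2 * u) + (k + 1) * u + 200 * (k + 2) ^ 4 * K * u ≤
      300 * (k + 2) ^ 4 * K * u := by
    have e1 : (k + 1) * (2 * u) + (k + 1) * u ≤ 3 * (k + 1) * (K * u) := by
      have : u ≤ K * u := by nlinarith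
      nlinarith
    have e2 : 2 * K * u + 2 * K * ((k + 1) * u) + K * (2 * u + (k + 1) * ((k + 3) * u)) +
      K * (2 * ((k + 1) * u) + (k + 1) * ((k + 3) * u)) + 3 * (k + 1) * (K * u) =
      (2 + 2 * (k + 1) + 2 + (k + 1) * (k + 3) + 2 * (k + 1) + (k + 1) * (k + 3) + 3 * (k + 1)) * (K * u) := by ring
    have e3 : (2 + 2 * (k + 1) + 2 + (k + 1) * (k + 3) + 2 * (k + 1) + (k + 1) * (k + 3) + 3 * (k + 1)) ≤ 100 * (k + 2) ^ 4 := by
      have : (k + 2) ^ 2 ≤ (k + 2) ^ 4 := pow_le_pow_right₀ (by linarith) (by norm_num)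
      nlinarith
    have e4 := mul_le_mul_of_nonneg_right e3 hKu
    have e5 : 300 * (k + 2) ^ 4 * K * u = 100 * (k + 2) ^ 4 * (K * u) + 200 * (k + 2) ^ 4 * K * u := by ring
    rw [e5]
    linarith
  linarith

open Classical in
theorem S7_main (h : S.H7 T M W0 δ0 δ1 Z V Cd) (hL : ∀ c ∈ S.CC, ∀ μ ∈ S.MX, ∀ ν ∈ S.MY, ∀ l, (S.AI T.N c μ ν l : ℝ) ≤ T.N ∧ (S.BI T.N c μ ν l : ℝ) ≤ T.N)
    (hW : (W0 : ℝ) ≤ T.N) (hK : 1 ≤ Real.log T.N) (hX : ((S.n0 + S.nX : ℕ) : ℝ) ≤ Real.log T.N) (hY : ((S.n0 + S.nY : ℕ) : ℝ) ≤ Real.log T.N)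
    {p1 : ℕ} (hp1 : p1.Prime) (hy : T.y0 < p1) (hN : ¬ p1 ∣ T.N) (hno : ∀ μ ∈ S.MX, ∀ ν ∈ S.MY, ¬ p1 ∣ S.prX id μ * S.prY id ν) :
    ∑ μ ∈ S.MX, ∑ ν ∈ S.MY, ∑ n ∈ range (M.nm + 1), (if M.adm μ ν ∧ Cd μ ν n then M.Om μ ν n * ∑ c ∈ S.CC, M.fm T c μ ν (M.X μ ν n) else 0) ≤
      S.CC.card * (300 * (S.k + 2) ^ 4 * Real.log T.N * M.ub T V δ1 + (S.k + 1) * T.z * (S.MX.card * S.MY.card * M.err T δ1)) := by
  have hpt : ∀ μ ν n, (if M.adm μ ν ∧ Cd μ ν n then M.Om μ ν n * ∑ c ∈ S.CC, M.fm T c μ ν (M.X μ ν n) else 0) =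
      ∑ c ∈ S.CC, (if M.adm μ ν ∧ Cd μ ν n then M.Om μ ν n * M.fm T c μ ν (M.X μ ν n) else 0) := by
    intro μ ν n
    split_ifs
    · rw [mul_sum]
    · simp
  simp only [hpt]
  have hsw : ∀ F : S.TX → S.TY → ℕ → S.Col → ℝ, ∑ μ ∈ S.MX, ∑ ν ∈ S.MY, ∑ n ∈ range (M.nm + 1), ∑ c ∈ S.CC, F μ ν n c =
      ∑ c ∈ S.CC, ∑ μ ∈ S.MX, ∑ ν ∈ S.MY, ∑ n ∈ range (M.nm + 1), F μ ν n c := by
    intro F
    rw [sum_comm (s := S.CC)]
    refine sum_congr rfl fun μ _ => ?_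
    rw [sum_comm (s := S.CC)]
    refine sum_congr rfl fun ν _ => ?_
    rw [sum_comm (s := S.CC)]
  rw [hsw]
  calc _ ≤ ∑ c ∈ S.CC, (300 * (S.k + 2) ^ 4 * Real.log T.N * M.ub T V δ1 + (S.k + 1) * T.z * (S.MX.card * S.MY.card * M.err T δ1)) :=
        sum_le_sum fun c hc => S7_one h hc (hL c hc) hW hK hX hY hp1 hy hN hno
    _ = _ := by rw [sum_const, nsmul_eq_mul]

end Pool.Agent.Lib.TC
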