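import Pool.Agent.Lib.MP_7b7e48_nt.TC.Q21
import Pool.Agent.Lib.MP_7b7e48_nt.TC.S7M
import Pool.Agent.Lib.MP_7b7e48_nt.TC.K2

/-!
# Q27: section 7 from the structures of POK

`S7_main` with `Z' i = Z ⟨i, _⟩` (`i ≤ k`), `V = 2 K²`, `Cd μ ν n`: `X` coprime to `N` and no prime `≤ y` divides `X` or `X - D N` (so `X` is coprime to `W0`: `p0 ≤ y`; `cD`: `L6`).
`Geo` (see the proof of `K2`, use `K2` where possible): windows, `T.z * T.D ≤ T.z * T.y0 ≤ z² ≤ Z`, `Z k < α_k ≤ prX ≤ N^(1/10) ≤ N`, `hX p ≤ 2/p`, `1 ≤ 2 K² ∑_{WX i} hX` (`An.W_mass`, `hX l ≥ 1/(2l)`), `comp` = `AB`. `AI, BI ≤ prX, prY ≤ N`; `W0 ≤ W0² ≤ D ≤ N`.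
`hno`: `p1` is no mark (`An`).
-/

set_option autoImplicit false

open Finset

namespace Pool.Agent.Lib.TC

/-- the condition on `n` -/
def Msr.Cd {S : MS} (M : Msr S) (T : Dat) (μ : S.TX) (ν : S.TY) (n : ℕ) : Prop :=
  (M.X μ ν n).Coprime T.N ∧ ∀ p : ℕ, p.Prime → p ≤ T.y → ¬ p ∣ M.X μ ν n ∧ ¬ p ∣ M.X μ ν n - T.D * T.N


private theorem Q27_memX {S : MS} {μ : S.TX} (hμ : μ ∈ S.MX) : (∀ i, μ.1 i ∈ S.WX i) ∧ (∀ f, μ.2.1 f ∈ S.FX f) ∧ ∀ e, μ.2.2 e ∈ S.OX e := by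
  simp only [MS.MX, mem_product, Fintype.mem_piFinset] at hμ
  exact hμ

private theorem Q27_memY {S : MS} {ν : S.TY} (hν : ν ∈ S.MY) : (∀ i, ν.1 i ∈ S.WY i) ∧ (∀ f, ν.2.1 f ∈ S.FY f) ∧ ∀ e, ν.2.2 e ∈ S.OY e := by
  simp only [MS.MY, mem_product, Fintype.mem_piFinset] at hν
  exact hν

private theorem Q27_z {S : MS} {T : Dat} {W0 : ℕ} {Z : Fin (S.k + 1) → ℕ} (hT : T.OK W0) (hS : S.OK T W0 Z) (i : Fin (S.k + 1)) :
    T.y0 < Z i ∧ 4 ≤ Z i := by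
  have h1 := hS.Z_lo i
  have h2 := hT.y0_lt
  have h3 := hT.D_pos
  have h4 := hT.D_le
  have h5 : 2 ≤ T.z := by omega
  have h6 : T.z * 2 ≤ T.z ^ 2 := by
    rw [sq]
    exact Nat.mul_le_mul_left _ h5
  constructor <;> omega

private theorem Q27_pX {S : MS} {T : Dat} {W0 : ℕ} {Z : Fin (S.k + 1) → ℕ} (hT : T.OK W0) (hS : S.OK T W0 Z) {μ : S.TX} (hμ : μ ∈ S.MX) :
    (∀ i, (μ.1 i).Prime ∧ T.y0 < μ.1 i) ∧ (∀ f, (μ.2.1 f).Prime ∧ T.y0 < μ.2.1 f) ∧ ∀ e, (μ.2.2 e).Prime ∧ T.y0 < μ.2.2 e := by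
  obtain ⟨h1, h2, h3⟩ := Q27_memX hμ
  refine ⟨fun i => ?_, fun f => ?_, fun e => ?_⟩
  · obtain ⟨a, _, b, _⟩ := hS.WX_mem i _ (h1 i)
    have := (Q27_z hT hS i).1
    exact ⟨a, by omega⟩
  · obtain ⟨a, _, b, _⟩ := hS.FX_mem f _ (h2 f)
    exact ⟨a, b⟩
  · obtain ⟨a, _, b, _⟩ := hS.OX_mem e _ (h3 e)
    exact ⟨a, b⟩

private theorem Q27_pY {S : MS} {T : Dat} {W0 : ℕ} {Z : Fin (S.k + 1) → ℕ} (hT : T.OK W0) (hS : S.OK T W0 Z) {ν : S.TY} (hν : ν ∈ S.MY) :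
    (∀ i, (ν.1 i).Prime ∧ T.y0 < ν.1 i) ∧ (∀ f, (ν.2.1 f).Prime ∧ T.y0 < ν.2.1 f) ∧ ∀ e, (ν.2.2 e).Prime ∧ T.y0 < ν.2.2 e := by
  obtain ⟨h1, h2, h3⟩ := Q27_memY hν
  refine ⟨fun i => ?_, fun f => ?_, fun e => ?_⟩
  · obtain ⟨a, _, b, _⟩ := hS.WY_mem i _ (h1 i)
    have := (Q27_z hT hS i).1
    exact ⟨a, by omega⟩
  · obtain ⟨a, _, b, _⟩ := hS.FY_mem f _ (h2 f)
    exact ⟨a, b⟩
  · obtain ⟨a, _, b, _⟩ := hS.OY_mem e _ (h3 e)
    exact ⟨a, b⟩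

private theorem Q27_mass {C : Finset ℕ} {hh : ℕ → ℝ} {K : ℝ} (hK : 1 ≤ K) (h1 : ∀ p : ℕ, p.Prime → 0 ≤ hh p ∧ |hh p - 1 / p| ≤ 2 / (p : ℝ) ^ 2)
    (h2 : ∀ p ∈ C, p.Prime ∧ 4 ≤ p) (h3 : 1 / K ^ 2 ≤ ∑ l ∈ C, 1 / (l : ℝ)) : 1 ≤ 2 * K ^ 2 * ∑ p ∈ C, hh p := by
  have h4 : ∀ p ∈ C, 1 / 2 * (1 / (p : ℝ)) ≤ hh p := by
    intro p hp
    obtain ⟨a, b⟩ := h2 p hp
    have b' : (4 : ℝ) ≤ p := by exact_mod_cast b
    have c := (abs_le.1 (h1 p a).2).1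
    have d : 2 / (p : ℝ) ^ 2 ≤ 1 / 2 * (1 / (p : ℝ)) := by
      have e : 1 / 2 * (1 / (p : ℝ)) = (1 / 2 * p) / (p : ℝ) ^ 2 := by
        field_simp
      rw [e]
      apply div_le_div_of_nonneg_right _ (by positivity)
      linarith
    linarith
  have h5 := sum_le_sum h4
  rw [← mul_sum] at h5
  have h6 : 0 < K ^ 2 := by positivity
  rw [div_le_iff₀ h6] at h3
  nlinarith

private theorem Q27_AX {S : MS} {N : ℕ} {c : S.Col} {μ : S.TX} {ν : S.TY} (l : ℕ) : S.fX id c μ l * S.oX N id c μ ν l ∣ S.prX id μ := by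
  unfold MS.fX MS.oX MS.prX
  apply mul_dvd_mul
  · apply Dvd.dvd.mul_left
    exact prod_dvd_prod_of_subset _ _ _ (filter_subset _ _)
  · exact prod_dvd_prod_of_subset _ _ _ (filter_subset _ _)

private theorem Q27_AY {S : MS} {N : ℕ} {c : S.Col} {μ : S.TX} {ν : S.TY} (l : ℕ) : S.fY id c ν l * S.oY N id c μ ν l ∣ S.prY id ν := by
  unfold MS.fY MS.oY MS.prY
  apply mul_dvd_mul
  · apply Dvd.dvd.mul_left
    exact prod_dvd_prod_of_subset _ _ _ (filter_subset _ _)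
  · exact prod_dvd_prod_of_subset _ _ _ (filter_subset _ _)

private theorem Q27_posX {S : MS} {T : Dat} {W0 : ℕ} {Z : Fin (S.k + 1) → ℕ} (hT : T.OK W0) (hS : S.OK T W0 Z) {μ : S.TX} (hμ : μ ∈ S.MX) :
    0 < S.prX id μ := by
  obtain ⟨h1, h2, h3⟩ := Q27_pX hT hS hμ
  unfold MS.prX
  refine Nat.mul_pos (Nat.mul_pos (prod_pos fun i _ => (h1 i).1.pos) (prod_pos fun i _ => (h2 i).1.pos)) (prod_pos fun i _ => (h3 i).1.pos)

private theorem Q27_posY {S : MS} {T : Dat} {W0 : ℕ} {Z : Fin (S.k + 1) → ℕ} (hT : T.OK W0) (hS : S.OK T W0 Z) {ν : S.TY} (hν : ν ∈ S.MY) :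
    0 < S.prY id ν := by
  obtain ⟨h1, h2, h3⟩ := Q27_pY hT hS hν
  unfold MS.prY
  refine Nat.mul_pos (Nat.mul_pos (prod_pos fun i _ => (h1 i).1.pos) (prod_pos fun i _ => (h2 i).1.pos)) (prod_pos fun i _ => (h3 i).1.pos)

private theorem Q27_ndX {S : MS} {μ : S.TX} {p : ℕ} (hp : p.Prime) (h1 : ∀ i, (μ.1 i).Prime ∧ p ≠ μ.1 i) (h2 : ∀ i, (μ.2.1 i).Prime ∧ p ≠ μ.2.1 i)
    (h3 : ∀ i, (μ.2.2 i).Prime ∧ p ≠ μ.2.2 i) : ¬ p ∣ S.prX id μ := by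
  intro h
  unfold MS.prX at h
  rcases (Nat.Prime.dvd_mul hp).1 h with h4 | h4
  · rcases (Nat.Prime.dvd_mul hp).1 h4 with h5 | h5
    · obtain ⟨i, _, hi⟩ := (Prime.dvd_finsetProd_iff hp.prime _).1 h5
      exact (h1 i).2 ((Nat.prime_dvd_prime_iff_eq hp (h1 i).1).1 hi)
    · obtain ⟨i, _, hi⟩ := (Prime.dvd_finsetProd_iff hp.prime _).1 h5
      exact (h2 i).2 ((Nat.prime_dvd_prime_iff_eq hp (h2 i).1).1 hi)
  · obtain ⟨i, _, hi⟩ := (Prime.dvd_finsetProd_iff hp.prime _).1 h4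
    exact (h3 i).2 ((Nat.prime_dvd_prime_iff_eq hp (h3 i).1).1 hi)

private theorem Q27_ndY {S : MS} {ν : S.TY} {p : ℕ} (hp : p.Prime) (h1 : ∀ i, (ν.1 i).Prime ∧ p ≠ ν.1 i) (h2 : ∀ i, (ν.2.1 i).Prime ∧ p ≠ ν.2.1 i)
    (h3 : ∀ i, (ν.2.2 i).Prime ∧ p ≠ ν.2.2 i) : ¬ p ∣ S.prY id ν := by
  intro h
  unfold MS.prY at h
  rcases (Nat.Prime.dvd_mul hp).1 h with h4 | h4
  · rcases (Nat.Prime.dvd_mul hp).1 h4 with h5 | h5
    · obtain ⟨i, _, hi⟩ := (Prime.dvd_finsetProd_iff hp.prime _).1 h5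
      exact (h1 i).2 ((Nat.prime_dvd_prime_iff_eq hp (h1 i).1).1 hi)
    · obtain ⟨i, _, hi⟩ := (Prime.dvd_finsetProd_iff hp.prime _).1 h5
      exact (h2 i).2 ((Nat.prime_dvd_prime_iff_eq hp (h2 i).1).1 hi)
  · obtain ⟨i, _, hi⟩ := (Prime.dvd_finsetProd_iff hp.prime _).1 h4
    exact (h3 i).2 ((Nat.prime_dvd_prime_iff_eq hp (h3 i).1).1 hi)

private theorem Q27_fm {S : MS} (M : Msr S) (T : Dat) (c : S.Col) (μ : S.TX) (ν : S.TY) (X : ℕ) : 0 ≤ M.fm T c μ ν X := by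
  unfold Msr.fm
  split_ifs
  · positivity
  · exact le_rfl

private theorem Q27_ind (P : Prop) : 0 ≤ ind P ∧ (ind P ≠ 0 → P) ∧ ind P ≤ 1 := by
  classical
  unfold ind
  split_ifs with h
  · exact ⟨zero_le_one, fun _ => h, le_rfl⟩
  · exact ⟨le_rfl, fun h => absurd rfl h, zero_le_one⟩

private theorem Q27_H7 {S : MS} {T : Dat} {W0 : ℕ} {Z : Fin (S.k + 1) → ℕ} {M : Msr S} {δ0 δ1 : ℝ} {p1 Q0 : ℕ} {η Cα : ℝ} (hT : T.OK W0) (hS : S.OK T W0 Z)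
    (hA : S.An T p1 Q0 η Cα) (hM : M.OK T W0 δ0 δ1) (hz : (T.z : ℝ) ≤ (T.N : ℝ) ^ δ0) (hδ : 0 ≤ δ0) (hK : 1 ≤ Real.log T.N)
    {μ0 : S.TX} {ν0 : S.TY} (hμ0 : μ0 ∈ S.MX) (hν0 : ν0 ∈ S.MY) :
    ∃ Z' : ℕ → ℕ, S.H7 T M W0 δ0 δ1 Z' (2 * Real.log T.N ^ 2) (M.Cd T) := by
  obtain ⟨Z', V, g, _⟩ := K2 hT hS hμ0 hν0
  have hp2 : ∀ p : ℕ, p.Prime → 2 / (p : ℝ) ^ 2 ≤ 1 / (p : ℝ) := by
    intro p hp
    have h2 : (2 : ℝ) ≤ p := by exact_mod_cast hp.two_le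
    have e : 1 / (p : ℝ) = (p : ℝ) / (p : ℝ) ^ 2 := by
      field_simp
    rw [e]
    exact div_le_div_of_nonneg_right h2 (by positivity)
  refine ⟨Z', ?_⟩
  refine
    { geo :=
        { k1 := g.k1
          N2 := g.N2
          D0 := g.D0
          DN := g.DN
          Dy := g.Dy
          y1 := g.y1
          yz := g.yz
          zZ := g.zZ
          ZZ := g.ZZ
          ZN := g.ZN
          wx := g.wx
          wy := g.wy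
          fx := g.fx
          fy := g.fy
          ox := g.ox
          oy := g.oy
          ix := g.ix
          iy := g.iy
          hX0 := ?_
          hY0 := ?_
          V1 := ?_
          lX := ?_
          lY := ?_
          comp := g.comp }
      ok := hM
      z0 := hz
      d0 := hδ
      w0 := ?_
      cN := ?_
      cD := ?_ }
  · intro p hp
    obtain ⟨h1, h2⟩ := hM.hX_nonneg p hp
    refine ⟨h1, ?_⟩
    have h3 := (abs_le.1 h2).2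
    have h4 := hp2 p hp
    have h5 : 2 / (p : ℝ) = 1 / p + 1 / p := by ring
    linarith
  · intro p hp
    obtain ⟨h1, h2⟩ := hM.hY_nonneg p hp
    refine ⟨h1, ?_⟩
    have h3 := (abs_le.1 h2).2
    have h4 := hp2 p hp
    have h5 : 2 / (p : ℝ) = 1 / p + 1 / p := by ring
    linarith
  · nlinarith
  · intro i
    refine Q27_mass hK hM.hX_nonneg (fun p hp => ?_) (hA.W_mass i).1
    obtain ⟨a, _, b, _⟩ := hS.WX_mem i _ hp
    have := (Q27_z hT hS i).2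
    exact ⟨a, by omega⟩
  · intro i
    refine Q27_mass hK hM.hY_nonneg (fun p hp => ?_) (hA.W_mass i).2
    obtain ⟨a, _, b, _⟩ := hS.WY_mem i _ hp
    have := (Q27_z hT hS i).2
    exact ⟨a, by omega⟩
  · intro p hp hpW
    have h1 := (hT.W0_pr p hp).1 hpW
    have h2 := hT.p0_le
    have h3 := hT.y_le
    omega
  · intro μ _ ν _ n _ hC
    exact hC.1
  · intro c _ μ hμ ν hν n _ hO hC hL
    obtain ⟨a1, a2, a3⟩ := Q27_pX hT hS hμ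
    obtain ⟨b1, b2, b3⟩ := Q27_pY hT hS hν
    have hD : ∀ p : ℕ, p.Prime → p ∣ T.D → p ≤ T.y0 := fun p _ hp => (Nat.le_of_dvd hT.D_pos hp).trans hT.D_le
    have hcop : ∀ p : ℕ, p.Prime → p ≤ T.y0 → ∀ l : ℕ, l.Prime ∧ T.y0 < l → l.Coprime p := by
      intro p hp h1 l hl
      rw [Nat.coprime_primes hl.1 hp]
      omega
    refine L6 S T hL hT.D_pos.ne' hD ?_ ?_ ?_
    · intro p hp hpD
      have hpy := hD p hp hpD
      refine ⟨fun i => ⟨hcop p hp hpy _ (a1 i), hcop p hp hpy _ (b1 i)⟩, fun i => ⟨hcop p hp hpy _ (a2 i), hcop p hp hpy _ (b2 i)⟩,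
        fun i => hcop p hp hpy _ (a3 i), fun i => hcop p hp hpy _ (b3 i)⟩
    · intro i
      obtain ⟨_, _, h1, _⟩ := hS.WX_mem i _ ((Q27_memX hμ).1 i)
      obtain ⟨_, _, _, h2, _⟩ := hS.WY_mem i _ ((Q27_memY hν).1 i)
      omega
    · intro p hp hp0 _ hd
      have h1 := hT.p0_le
      have h2 := (hC.2 p hp (by omega)).2
      have h3 := hM.Y_pos μ ν n hO
      apply h2
      rw [← Int.natCast_dvd_natCast, Nat.cast_sub h3.le]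
      push_cast
      exact hd

theorem Q27 {S : MS} {T : Dat} {W0 : ℕ} {Z : Fin (S.k + 1) → ℕ} {M : Msr S} {δ0 δ1 : ℝ} {p1 Q0 : ℕ} {η Cα : ℝ} (hT : T.OK W0) (hS : S.OK T W0 Z)
    (hA : S.An T p1 Q0 η Cα) (hM : M.OK T W0 δ0 δ1) (hz : (T.z : ℝ) ≤ (T.N : ℝ) ^ δ0) (hδ : 0 ≤ δ0) (hK : 1 ≤ Real.log T.N) :
    ∑ μ ∈ S.MX, ∑ ν ∈ S.MY, ind (M.gp T μ ν) * ∑ n ∈ range (M.nm + 1), M.Om μ ν n * (ind (M.Cd T μ ν n) * ∑ c ∈ S.CC, M.fm T c μ ν (M.X μ ν n)) ≤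
      S.CC.card * (300 * (S.k + 2) ^ 4 * Real.log T.N * (32 * (Real.log T.N) ^ 4 / (T.y0 * T.D) * (M.W * M.tot1) +
        S.MX.card * S.MY.card * ((T.N : ℝ) ^ (-δ1) * M.W)) + (S.k + 1) * T.z * (S.MX.card * S.MY.card * ((T.N : ℝ) ^ (-δ1) * M.W))) := by
  classical
  have hN1 : (1 : ℝ) ≤ T.N := by
    have := hT.N_pos
    exact_mod_cast (by omega : 1 ≤ T.N)
  have hE0 : 0 ≤ (T.N : ℝ) ^ (-δ1) * M.W := mul_nonneg (Real.rpow_nonneg (Nat.cast_nonneg _) _) hM.W_pos.le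
  by_cases hne : S.MX.Nonempty ∧ S.MY.Nonempty
  · obtain ⟨⟨μ0, hμ0⟩, ν0, hν0⟩ := hne
    obtain ⟨Z', H⟩ := Q27_H7 hT hS hA hM hz hδ hK hμ0 hν0
    have hprN : ∀ μ ∈ S.MX, ∀ ν ∈ S.MY, S.prX id μ ≤ T.N ∧ S.prY id ν ≤ T.N := by
      intro μ hμ ν hν
      have h1 := hS.small μ hμ ν hν
      have h2 : (T.N : ℝ) ^ (1 / 10 : ℝ) ≤ T.N := by
        calc (T.N : ℝ) ^ (1 / 10 : ℝ) ≤ (T.N : ℝ) ^ (1 : ℝ) := Real.rpow_le_rpow_of_exponent_le hN1 (by norm_num)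
          _ = T.N := Real.rpow_one _
      have h3 : S.prX id μ * S.prY id ν ≤ T.N := by exact_mod_cast h1.trans h2
      have h4 := Q27_posX hT hS hμ
      have h5 := Q27_posY hT hS hν
      exact ⟨(Nat.le_mul_of_pos_right _ h5).trans h3, (Nat.le_mul_of_pos_left _ h4).trans h3⟩
    have hL : ∀ c ∈ S.CC, ∀ μ ∈ S.MX, ∀ ν ∈ S.MY, ∀ l, (S.AI T.N c μ ν l : ℝ) ≤ T.N ∧ (S.BI T.N c μ ν l : ℝ) ≤ T.N := by
      intro c _ μ hμ ν hν l
      obtain ⟨h1, h2⟩ := hprN μ hμ ν hν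
      unfold MS.AI MS.BI MS.AA MS.BB
      split_ifs with hl
      · constructor
        · have h3 := Nat.le_of_dvd (Q27_posX hT hS hμ) (Q27_AX (N := T.N) (c := c) (μ := μ) (ν := ν) l)
          have h4 := h3.trans h1
          rw [Int.cast_natCast]
          exact_mod_cast h4
        · have h3 := Nat.le_of_dvd (Q27_posY hT hS hν) (Q27_AY (N := T.N) (c := c) (μ := μ) (ν := ν) l)
          have h4 := h3.trans h2
          rw [Int.cast_natCast]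
          exact_mod_cast h4
      · push_cast
        exact ⟨hN1, hN1⟩
    have hW : (W0 : ℝ) ≤ T.N := by
      have h1 := Nat.le_of_dvd hT.D_pos hT.W0_D
      have h2 := H.geo.DN
      have h3 : W0 ≤ W0 ^ 2 := Nat.le_self_pow (by norm_num) _
      exact_mod_cast h3.trans (h1.trans h2)
    have hnum := hS.num
    have hX : ((S.n0 + S.nX : ℕ) : ℝ) ≤ Real.log T.N := by
      refine le_trans ?_ hnum
      have : S.n0 + S.nX ≤ 2 * (S.k + 1) + 2 * S.n0 + S.nX + S.nY := by omega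
      exact_mod_cast this
    have hY : ((S.n0 + S.nY : ℕ) : ℝ) ≤ Real.log T.N := by
      refine le_trans ?_ hnum
      have : S.n0 + S.nY ≤ 2 * (S.k + 1) + 2 * S.n0 + S.nX + S.nY := by omega
      exact_mod_cast this
    have hno : ∀ μ ∈ S.MX, ∀ ν ∈ S.MY, ¬ p1 ∣ S.prX id μ * S.prY id ν := by
      intro μ hμ ν hν hd
      obtain ⟨a1, a2, a3⟩ := Q27_pX hT hS hμ
      obtain ⟨b1, b2, b3⟩ := Q27_pY hT hS hν
      obtain ⟨m1, m2, m3⟩ := Q27_memX hμ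
      obtain ⟨n1, n2, n3⟩ := Q27_memY hν
      rcases (Nat.Prime.dvd_mul hA.p1_pr).1 hd with h | h
      · refine Q27_ndX hA.p1_pr (fun i => ⟨(a1 i).1, ?_⟩) (fun i => ⟨(a2 i).1, ?_⟩) (fun i => ⟨(a3 i).1, ?_⟩) h
        · intro he
          exact (hA.p1_W i).1 (he ▸ m1 i)
        · intro he
          exact (hA.p1_F i).1 (he ▸ m2 i)
        · intro he
          exact hA.p1_OX i (he ▸ m3 i)
      · refine Q27_ndY hA.p1_pr (fun i => ⟨(b1 i).1, ?_⟩) (fun i => ⟨(b2 i).1, ?_⟩) (fun i => ⟨(b3 i).1, ?_⟩) h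
        · intro he
          exact (hA.p1_W i).2 (he ▸ n1 i)
        · intro he
          exact (hA.p1_F i).2 (he ▸ n2 i)
        · intro he
          exact hA.p1_OY i (he ▸ n3 i)
    have hmain := S7_main H hL hW hK hX hY hA.p1_pr hA.p1_lo hA.p1_N hno
    have hlhs : ∑ μ ∈ S.MX, ∑ ν ∈ S.MY, ind (M.gp T μ ν) * ∑ n ∈ range (M.nm + 1), M.Om μ ν n * (ind (M.Cd T μ ν n) * ∑ c ∈ S.CC, M.fm T c μ ν (M.X μ ν n)) ≤
        ∑ μ ∈ S.MX, ∑ ν ∈ S.MY, ∑ n ∈ range (M.nm + 1), (if M.adm μ ν ∧ M.Cd T μ ν n then M.Om μ ν n * ∑ c ∈ S.CC, M.fm T c μ ν (M.X μ ν n) else 0) := by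
      refine sum_le_sum fun μ _ => sum_le_sum fun ν _ => ?_
      rw [mul_sum]
      refine sum_le_sum fun n _ => ?_
      have hf : 0 ≤ ∑ c ∈ S.CC, M.fm T c μ ν (M.X μ ν n) := sum_nonneg fun c _ => Q27_fm M T c μ ν _
      have hO := hM.Om_nonneg μ ν n
      have hg := Q27_ind (M.gp T μ ν)
      have hc := Q27_ind (M.Cd T μ ν n)
      split_ifs with hh
      · calc ind (M.gp T μ ν) * (M.Om μ ν n * (ind (M.Cd T μ ν n) * ∑ c ∈ S.CC, M.fm T c μ ν (M.X μ ν n)))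
            ≤ 1 * (M.Om μ ν n * (1 * ∑ c ∈ S.CC, M.fm T c μ ν (M.X μ ν n))) := by
              refine mul_le_mul hg.2.2 ?_ (mul_nonneg hO (mul_nonneg hc.1 hf)) zero_le_one
              exact mul_le_mul_of_nonneg_left (mul_le_mul_of_nonneg_right hc.2.2 hf) hO
          _ = _ := by ring
      · have h0 : ind (M.gp T μ ν) * ind (M.Cd T μ ν n) = 0 := by
          by_contra hne
          have h1 := hg.2.1 (left_ne_zero_of_mul hne)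
          have h2 := hc.2.1 (right_ne_zero_of_mul hne)
          exact hh ⟨h1.1, h2⟩
        have h1 : ind (M.gp T μ ν) * (M.Om μ ν n * (ind (M.Cd T μ ν n) * ∑ c ∈ S.CC, M.fm T c μ ν (M.X μ ν n))) =
          (ind (M.gp T μ ν) * ind (M.Cd T μ ν n)) * (M.Om μ ν n * ∑ c ∈ S.CC, M.fm T c μ ν (M.X μ ν n)) := by ring
        rw [h1, h0, zero_mul]
    refine hlhs.trans (hmain.trans (le_of_eq ?_))
    have ht : M.tot = M.W * M.tot1 := by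
      unfold Msr.tot Msr.tot1 Msr.m1
      rw [sum_mul_sum]
    unfold Msr.ub Msr.err
    rw [ht]
    ring
  · have h0 : ∑ μ ∈ S.MX, ∑ ν ∈ S.MY, ind (M.gp T μ ν) * ∑ n ∈ range (M.nm + 1), M.Om μ ν n * (ind (M.Cd T μ ν n) * ∑ c ∈ S.CC, M.fm T c μ ν (M.X μ ν n)) = 0 := by
      rw [not_and_or, not_nonempty_iff_eq_empty, not_nonempty_iff_eq_empty] at hne
      rcases hne with h | h
      · rw [h, sum_empty]
      · rw [h]
        simp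
    have h1 : M.tot1 = 0 := by
      unfold Msr.tot1
      rw [not_and_or, not_nonempty_iff_eq_empty, not_nonempty_iff_eq_empty] at hne
      rcases hne with h | h
      · rw [h, sum_empty]
      · rw [h]
        simp
    rw [h0, h1]
    have h2 : 0 ≤ Real.log T.N := by linarith
    rw [mul_zero, mul_zero, zero_add]
    positivity

end Pool.Agent.Lib.TC
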