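import Pool.Agent.Lib.MP_7b7e48_nt.TC.Q25

/-!
# QN0 (version 2): the hypotheses of the pair theorem with exponents

`K = log N`. Constants: `k` (`m = k + 1`), `B` (precision), `CD` (`D ≤ K^CD`), `CY` (`y0 ≈ K^CY`), `Cf` (densities), `b1`, `b2` (sieves), `W1` (bound for `W0`), `A` (level of the equidistribution modulo small numbers), `Cη` (its precision), `Cα`.
-/

set_option autoImplicit false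

open Finset

namespace Pool.Agent.Lib.TC

/-- constants of the pair theorem -/
structure PC where
  k : ℕ
  B : ℕ
  CD : ℕ
  CY : ℕ
  Cf : ℕ
  b1 : ℕ
  b2 : ℕ
  W1 : ℕ
  A : ℕ
  Cη : ℕ
  Cα : ℝ
  δ0 : ℝ
  δ1 : ℝ
  ζ : ℝ

/-- relations between the constants -/
structure PC.OK (c : PC) : Prop where
  k1 : 4 * (c.B + 12) ≤ c.k + 1
  Y1 : c.CD + 12 * (c.k + 1) + c.B + 20 ≤ c.CY
  A1 : 2 * c.CD + 24 * c.b1 * (c.CY + 1) + 2 * c.CY + 10 ≤ c.A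
  η1 : 2 * c.CD + 24 * c.b1 * (c.CY + 1) + c.B + 20 ≤ c.Cη
  b1p : 1 ≤ c.b1
  b2p : 1 ≤ c.b2
  f1 : flK (8 * ((c.k + 1 : ℕ) : ℝ)) * (1 / 2) ^ c.b1 ≤ 1 / 2
  f2 : flK (2 * ((c.k + 1 : ℕ) : ℝ)) * (1 / 2) ^ c.b2 ≤ 1 / 20
  α1 : 1 ≤ c.Cα
  δ0p : 0 < c.δ0
  δ1p : 0 < c.δ1
  δ1l : c.δ1 ≤ 1
  ζp : 0 < c.ζ
  ζ0 : 50 * c.b2 * c.ζ ≤ c.δ0
  ζ1 : 800 * c.b2 * c.ζ ≤ c.δ1

/-- the hypotheses of the pair theorem -/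
structure PH (c : PC) (S : MS) (T : Dat) (M : Msr S) (W0 : ℕ) (Z : Fin (S.k + 1) → ℕ) (p1 Q0 pb : ℕ) (η : ℝ) : Prop where
  hT : T.OK W0
  hS : S.OK T W0 Z
  hA : S.An T p1 Q0 η c.Cα
  hM : M.OK T W0 c.δ0 c.δ1
  hk : S.k = c.k
  hW : W0 ≤ c.W1
  hD : (T.D : ℝ) ≤ (Real.log T.N) ^ c.CD
  hy1 : (Real.log T.N) ^ c.CY ≤ T.y0
  hy2 : (T.y0 : ℝ) ≤ (Real.log T.N) ^ (c.CY + 1)
  hz1 : Real.exp (Real.log T.N / (Real.log (Real.log T.N)) ^ 2) ≤ T.z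
  hz2 : (T.z : ℝ) ≤ (T.N : ℝ) ^ c.ζ
  hp2 : (p1 : ℝ) ≤ (Real.log T.N) ^ (2 * c.CY + 5)
  hQ : (Real.log T.N) ^ c.A ≤ Q0
  hη : η ≤ 1 / (Real.log T.N) ^ c.Cη
  hC1 : T.D * (Real.log T.N) ^ (5 * (c.k + 1) + c.B + 10) ≤ S.CC.card
  hC2 : ((c.k + 1 : ℕ) : ℝ) ^ (2 * S.n0) ≤ 2 * S.CC.card
  hC3 : 4 ^ c.k * ((c.k * (c.k + 1) : ℕ) : ℝ) ^ (2 * S.n0) * (Real.log T.N) ^ (c.B + 10) ≤ (S.CC.card : ℝ) ^ 2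
  hcard : (S.MX.card : ℝ) * S.MY.card ≤ (T.N : ℝ) ^ (c.δ1 / 8)
  hrX : 1 / (Real.log T.N) ^ c.Cf ≤ ∑ μ ∈ S.MX, S.prX (fun l => 1 / (l : ℝ)) μ
  hrY : 1 / (Real.log T.N) ^ c.Cf ≤ ∑ ν ∈ S.MY, S.prY (fun l => 1 / (l : ℝ)) ν
  hpb : Real.log T.N ≤ pb

end Pool.Agent.Lib.TC
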