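import Pool.Agent.Lib.MP_7b7e48_nt.TC.Q11
import Pool.Agent.Lib.MP_7b7e48_nt.TC.Q21

/-!
# Q26: masses of exceptional pairs of tuples

`K = log N`. For every set `P` of a coordinate: `∑_{l ∈ P} h l ≥ 1/(2 K²)` (`h = hX` or `hY`, `h l ≥ (1/l)(1 - 2/l) ≥ 1/(2 l)`, `An`), `h l ≤ 2/l`.
* `Q26_adm0` (`adm0` but not `adm`): some free prime divides `v` or is equal to a prime of the other tuple. Fix all other coordinates: the free prime lies in a set of at most `2 K + K` primes (`v ≤ N` has at most `2 log N` prime factors; the other tuple has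
  at most `K` primes, `hS.num`), each of weight `≤ 2/exp(K^(1/5))`, so the proportion is `≤ 3 K · 2 exp(-K^(1/5)) · 2 K²`; at most `K` free primes.
* `Q26_adm` (not `adm`): the same for any coordinate, weight of one prime `≤ 2/y0`.
* `Q26_bad` (bad at some `p ∈ PS`, `p > pb`): at least `k - 1` indices `i` with `α_i ≡ β_i (p)` (at most 2 of the `k + 1` are good). For fixed `β` and a fixed set `I` of `k - 1` indices (at most `(k+1)²` sets) the proportion of the `α` is at most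
  `(3 Cα/(p - 1))^(k-1)` (`Q11_bt`, `BTc` with `Q = {p}`: the class of `α_i` modulo `p` is the union of `p^v` of the `p^v (p-1)` classes modulo `p^(v+1)`; `p^(v+1) ≤ Q0`), other windows trivially.
  Sum over `p > pb`: `∑ (6 Cα/p)^(k-1) ≤ (6 Cα)^(k-1) · 2/pb^(k-2)` (`k ≥ 3`, `pb ≥ 1`).
-/

set_option autoImplicit false

open Finset

namespace Pool.Agent.Lib.TC

/-! ### general lemmas -/

private theorem Q26_pi {ι : Type*} [Fintype ι] [DecidableEq ι] (B : ι → Finset ℕ) (h : ι → ℕ → ℝ) (h0 : ∀ i, ∀ l ∈ B i, 0 ≤ h i l) (A : ι → ℕ → Prop)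
    (δ : ι → ℝ) (hA : ∀ i, ∑ l ∈ B i, h i l * ind (A i l) ≤ δ i * ∑ l ∈ B i, h i l) :
    ∑ f ∈ Fintype.piFinset B, (∏ i, h i (f i)) * ind (∀ i, A i (f i)) ≤ (∏ i, δ i) * ∑ f ∈ Fintype.piFinset B, ∏ i, h i (f i) := by
  have h1 : ∀ f ∈ Fintype.piFinset B, (∏ i, h i (f i)) * ind (∀ i, A i (f i)) = ∏ i, (h i (f i) * ind (A i (f i))) := by
    intro f _
    rw [prod_mul_distrib, ind_prod]
    simp only [mem_univ, true_implies]
  rw [sum_congr rfl h1, ← prod_univ_sum B (fun i l => h i l * ind (A i l)), ← prod_univ_sum B (fun i l => h i l), ← prod_mul_distrib]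
  exact prod_le_prod (fun i _ => sum_nonneg fun l hl => mul_nonneg (h0 i l hl) (ind_nonneg _)) fun i _ => hA i

private theorem Q26_or (P Q : Prop) : ind (P ∨ Q) ≤ ind P + ind Q := by
  by_cases hP : P
  · rw [ind_true (Or.inl hP : P ∨ Q), ind_true hP]
    linarith [ind_nonneg Q]
  · rw [ind_false hP, zero_add]
    exact ind_mono fun h => h.resolve_left hP

private theorem Q26_ex {ι : Type*} (s : Finset ι) (P : ι → Prop) : ind (∃ i ∈ s, P i) ≤ ∑ i ∈ s, ind (P i) := by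
  by_cases h : ∃ i ∈ s, P i
  · obtain ⟨i, hi, hP⟩ := h
    rw [ind_true ⟨i, hi, hP⟩, ← ind_true hP]
    exact single_le_sum (f := fun i => ind (P i)) (fun j _ => ind_nonneg _) hi
  · rw [ind_false h]
    exact sum_nonneg fun j _ => ind_nonneg _

private theorem Q26_one {ι : Type*} [Fintype ι] [DecidableEq ι] (B : ι → Finset ℕ) (h : ℕ → ℝ) (h0 : ∀ i, ∀ l ∈ B i, 0 ≤ h l) (x : ι) (V : Finset ℕ)
    {θ : ℝ} (hθ0 : 0 ≤ θ) (hθ : ∀ l ∈ B x, h l ≤ θ * ∑ l ∈ B x, h l) :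
    ∑ g ∈ Fintype.piFinset B, (∏ i, h (g i)) * ind (g x ∈ V) ≤ (V.card * θ) * ∑ g ∈ Fintype.piFinset B, ∏ i, h (g i) := by
  have h1 := Q26_pi B (fun _ => h) h0 (fun i l => i = x → l ∈ V) (fun i => if i = x then (V.card * θ) else 1) (by
    intro i
    by_cases hi : i = x
    · subst hi
      rw [if_pos rfl]
      have h2 : ∑ l ∈ B i, h l * ind (i = i → l ∈ V) = ∑ l ∈ (B i).filter (fun l => l ∈ V), h l := by
        rw [sum_filter]
        refine sum_congr rfl fun l _ => ?_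
        by_cases hl : l ∈ V
        · rw [if_pos hl, ind_true fun _ => hl, mul_one]
        · rw [if_neg hl, ind_false fun hh : i = i → l ∈ V => hl (hh rfl), mul_zero]
      rw [h2]
      have h3 : ∑ l ∈ (B i).filter (fun l => l ∈ V), h l ≤ ∑ l ∈ (B i).filter (fun l => l ∈ V), θ * ∑ l ∈ B i, h l :=
        sum_le_sum fun l hl => hθ l (mem_filter.1 hl).1
      refine h3.trans ?_
      rw [sum_const, nsmul_eq_mul, mul_assoc]
      refine mul_le_mul_of_nonneg_right ?_ (mul_nonneg hθ0 (sum_nonneg (h0 i)))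
      exact_mod_cast card_le_card fun l hl => (mem_filter.1 hl).2
    · rw [if_neg hi, one_mul]
      refine sum_le_sum fun l hl => ?_
      exact mul_le_of_le_one_right (h0 i l hl) (ind_le_one _))
  rw [prod_ite_eq' univ x (fun _ => (V.card : ℝ) * θ), if_pos (mem_univ x)] at h1
  refine le_trans (le_of_eq ?_) h1
  refine sum_congr rfl fun g _ => ?_
  congr 2
  exact propext ⟨fun hh i hi => hi ▸ hh, fun hh => hh x rfl⟩

/-- the master lemma -/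
private theorem Q26_ev {ι κ : Type*} [Fintype ι] [DecidableEq ι] [Fintype κ] [DecidableEq κ] (B : ι → Finset ℕ) (B' : κ → Finset ℕ) (h h' : ℕ → ℝ)
    (h0 : ∀ i, ∀ l ∈ B i, 0 ≤ h l) (h0' : ∀ i, ∀ l ∈ B' i, 0 ≤ h' l) (U : Finset ι) (U' : Finset κ) (V : Finset ℕ) {θ : ℝ} (hθ0 : 0 ≤ θ)
    (hθ : ∀ x ∈ U, ∀ l ∈ B x, h l ≤ θ * ∑ l ∈ B x, h l) (hθ' : ∀ x ∈ U', ∀ l ∈ B' x, h' l ≤ θ * ∑ l ∈ B' x, h' l) :
    ∑ g ∈ Fintype.piFinset B, ∑ g' ∈ Fintype.piFinset B', (∏ i, h (g i)) * (∏ i, h' (g' i)) *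
      ind ((∃ x ∈ U, g x ∈ V) ∨ (∃ y ∈ U', g' y ∈ V) ∨ (∃ x ∈ U, ∃ y ∈ (univ : Finset κ), g x = g' y) ∨ (∃ x ∈ (univ : Finset ι), ∃ y ∈ U', g x = g' y)) ≤
    θ * (V.card * (U.card + U'.card) + (U.card * Fintype.card κ + Fintype.card ι * U'.card)) *
      ((∑ g ∈ Fintype.piFinset B, ∏ i, h (g i)) * ∑ g' ∈ Fintype.piFinset B', ∏ i, h' (g' i)) := by
  set TX := ∑ g ∈ Fintype.piFinset B, ∏ i, h (g i) with hTX
  set TY := ∑ g' ∈ Fintype.piFinset B', ∏ i, h' (g' i) with hTY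
  have hg : ∀ g ∈ Fintype.piFinset B, 0 ≤ ∏ i, h (g i) := fun g hg => prod_nonneg fun i _ => h0 i _ (Fintype.mem_piFinset.1 hg i)
  have hg' : ∀ g' ∈ Fintype.piFinset B', 0 ≤ ∏ i, h' (g' i) := fun g hg => prod_nonneg fun i _ => h0' i _ (Fintype.mem_piFinset.1 hg i)
  have hTX0 : 0 ≤ TX := sum_nonneg hg
  have hTY0 : 0 ≤ TY := sum_nonneg hg'
  have e1 : ∀ x ∈ U, ∑ g ∈ Fintype.piFinset B, ∑ g' ∈ Fintype.piFinset B', (∏ i, h (g i)) * (∏ i, h' (g' i)) * ind (g x ∈ V) ≤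
      (V.card * θ) * (TX * TY) := by
    intro x hx
    have h2 : ∑ g ∈ Fintype.piFinset B, ∑ g' ∈ Fintype.piFinset B', (∏ i, h (g i)) * (∏ i, h' (g' i)) * ind (g x ∈ V) =
        (∑ g ∈ Fintype.piFinset B, (∏ i, h (g i)) * ind (g x ∈ V)) * TY := by
      rw [sum_mul]
      refine sum_congr rfl fun g _ => ?_
      rw [hTY, mul_sum]
      exact sum_congr rfl fun g' _ => by ring
    rw [h2, ← mul_assoc]
    exact mul_le_mul_of_nonneg_right (Q26_one B h h0 x V hθ0 (hθ x hx)) hTY0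
  have e2 : ∀ y ∈ U', ∑ g ∈ Fintype.piFinset B, ∑ g' ∈ Fintype.piFinset B', (∏ i, h (g i)) * (∏ i, h' (g' i)) * ind (g' y ∈ V) ≤
      (V.card * θ) * (TX * TY) := by
    intro y hy
    have h2 : ∑ g ∈ Fintype.piFinset B, ∑ g' ∈ Fintype.piFinset B', (∏ i, h (g i)) * (∏ i, h' (g' i)) * ind (g' y ∈ V) =
        TX * (∑ g' ∈ Fintype.piFinset B', (∏ i, h' (g' i)) * ind (g' y ∈ V)) := by
      rw [hTX, sum_mul]
      refine sum_congr rfl fun g _ => ?_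
      rw [mul_sum]
      exact sum_congr rfl fun g' _ => by ring
    rw [h2, mul_left_comm]
    exact mul_le_mul_of_nonneg_left (Q26_one B' h' h0' y V hθ0 (hθ' y hy)) hTX0
  have e3 : ∀ x ∈ U, ∀ y ∈ (univ : Finset κ), ∑ g ∈ Fintype.piFinset B, ∑ g' ∈ Fintype.piFinset B', (∏ i, h (g i)) * (∏ i, h' (g' i)) * ind (g x = g' y) ≤
      θ * (TX * TY) := by
    intro x hx y _
    rw [sum_comm]
    have h2 : ∀ g' ∈ Fintype.piFinset B', ∑ g ∈ Fintype.piFinset B, (∏ i, h (g i)) * (∏ i, h' (g' i)) * ind (g x = g' y) ≤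
        θ * TX * ∏ i, h' (g' i) := by
      intro g' hg2
      have h3 : ∑ g ∈ Fintype.piFinset B, (∏ i, h (g i)) * (∏ i, h' (g' i)) * ind (g x = g' y) =
          (∑ g ∈ Fintype.piFinset B, (∏ i, h (g i)) * ind (g x ∈ ({g' y} : Finset ℕ))) * ∏ i, h' (g' i) := by
        rw [sum_mul]
        refine sum_congr rfl fun g _ => ?_
        rw [show (g x ∈ ({g' y} : Finset ℕ)) = (g x = g' y) from propext mem_singleton]
        ring
      rw [h3]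
      refine mul_le_mul_of_nonneg_right ?_ (hg' g' hg2)
      have h4 := Q26_one B h h0 x {g' y} hθ0 (hθ x hx)
      rwa [card_singleton, Nat.cast_one, one_mul] at h4
    refine (sum_le_sum h2).trans (le_of_eq ?_)
    rw [← mul_sum, mul_assoc]
  have e4 : ∀ x ∈ (univ : Finset ι), ∀ y ∈ U', ∑ g ∈ Fintype.piFinset B, ∑ g' ∈ Fintype.piFinset B', (∏ i, h (g i)) * (∏ i, h' (g' i)) * ind (g x = g' y) ≤
      θ * (TX * TY) := by
    intro x _ y hy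
    have h2 : ∀ g ∈ Fintype.piFinset B, ∑ g' ∈ Fintype.piFinset B', (∏ i, h (g i)) * (∏ i, h' (g' i)) * ind (g x = g' y) ≤
        (∏ i, h (g i)) * (θ * TY) := by
      intro g hg2
      have h3 : ∑ g' ∈ Fintype.piFinset B', (∏ i, h (g i)) * (∏ i, h' (g' i)) * ind (g x = g' y) =
          (∏ i, h (g i)) * ∑ g' ∈ Fintype.piFinset B', (∏ i, h' (g' i)) * ind (g' y ∈ ({g x} : Finset ℕ)) := by
        rw [mul_sum]
        refine sum_congr rfl fun g' _ => ?_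
        rw [show (g' y ∈ ({g x} : Finset ℕ)) = (g x = g' y) from propext (mem_singleton.trans eq_comm)]
        ring
      rw [h3]
      refine mul_le_mul_of_nonneg_left ?_ (hg g hg2)
      have h4 := Q26_one B' h' h0' y {g x} hθ0 (hθ' y hy)
      rwa [card_singleton, Nat.cast_one, one_mul] at h4
    refine (sum_le_sum h2).trans (le_of_eq ?_)
    rw [← sum_mul]
    ring
  have e5 : ∀ g ∈ Fintype.piFinset B, ∀ g' ∈ Fintype.piFinset B', (∏ i, h (g i)) * (∏ i, h' (g' i)) *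
      ind ((∃ x ∈ U, g x ∈ V) ∨ (∃ y ∈ U', g' y ∈ V) ∨ (∃ x ∈ U, ∃ y ∈ (univ : Finset κ), g x = g' y) ∨ (∃ x ∈ (univ : Finset ι), ∃ y ∈ U', g x = g' y)) ≤
      (∑ x ∈ U, (∏ i, h (g i)) * (∏ i, h' (g' i)) * ind (g x ∈ V)) + (∑ y ∈ U', (∏ i, h (g i)) * (∏ i, h' (g' i)) * ind (g' y ∈ V)) +
      (∑ x ∈ U, ∑ y ∈ (univ : Finset κ), (∏ i, h (g i)) * (∏ i, h' (g' i)) * ind (g x = g' y)) +
      ∑ x ∈ (univ : Finset ι), ∑ y ∈ U', (∏ i, h (g i)) * (∏ i, h' (g' i)) * ind (g x = g' y) := by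
    intro g hg2 g' hg2'
    have h1 : ind ((∃ x ∈ U, g x ∈ V) ∨ (∃ y ∈ U', g' y ∈ V) ∨ (∃ x ∈ U, ∃ y ∈ (univ : Finset κ), g x = g' y) ∨
        (∃ x ∈ (univ : Finset ι), ∃ y ∈ U', g x = g' y)) ≤ (∑ x ∈ U, ind (g x ∈ V)) + (∑ y ∈ U', ind (g' y ∈ V)) +
        (∑ x ∈ U, ∑ y ∈ (univ : Finset κ), ind (g x = g' y)) + ∑ x ∈ (univ : Finset ι), ∑ y ∈ U', ind (g x = g' y) := by
      have a1 := Q26_or (∃ x ∈ U, g x ∈ V) ((∃ y ∈ U', g' y ∈ V) ∨ (∃ x ∈ U, ∃ y ∈ (univ : Finset κ), g x = g' y) ∨ (∃ x ∈ (univ : Finset ι), ∃ y ∈ U', g x = g' y))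
      have a2 := Q26_or (∃ y ∈ U', g' y ∈ V) ((∃ x ∈ U, ∃ y ∈ (univ : Finset κ), g x = g' y) ∨ (∃ x ∈ (univ : Finset ι), ∃ y ∈ U', g x = g' y))
      have a3 := Q26_or (∃ x ∈ U, ∃ y ∈ (univ : Finset κ), g x = g' y) (∃ x ∈ (univ : Finset ι), ∃ y ∈ U', g x = g' y)
      have a4 := Q26_ex U (fun x => g x ∈ V)
      have a5 := Q26_ex U' (fun y => g' y ∈ V)
      have a6 := (Q26_ex U (fun x => ∃ y ∈ (univ : Finset κ), g x = g' y)).trans (sum_le_sum fun x _ => Q26_ex univ (fun y => g x = g' y))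
      have a7 := (Q26_ex univ (fun x => ∃ y ∈ U', g x = g' y)).trans (sum_le_sum fun x _ => Q26_ex U' (fun y => g x = g' y))
      linarith
    refine (mul_le_mul_of_nonneg_left h1 (mul_nonneg (hg g hg2) (hg' g' hg2'))).trans (le_of_eq ?_)
    simp only [mul_add, mul_sum]
  refine (sum_le_sum fun g hg2 => sum_le_sum fun g' hg2' => e5 g hg2 g' hg2').trans ?_
  simp only [sum_add_distrib]
  have f1 : ∑ g ∈ Fintype.piFinset B, ∑ g' ∈ Fintype.piFinset B', ∑ x ∈ U, (∏ i, h (g i)) * (∏ i, h' (g' i)) * ind (g x ∈ V) ≤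
      U.card * ((V.card * θ) * (TX * TY)) := by
    rw [sum_congr rfl fun g _ => sum_comm, sum_comm, ← nsmul_eq_mul, ← sum_const]
    exact sum_le_sum e1
  have f2 : ∑ g ∈ Fintype.piFinset B, ∑ g' ∈ Fintype.piFinset B', ∑ y ∈ U', (∏ i, h (g i)) * (∏ i, h' (g' i)) * ind (g' y ∈ V) ≤
      U'.card * ((V.card * θ) * (TX * TY)) := by
    rw [sum_congr rfl fun g _ => sum_comm, sum_comm, ← nsmul_eq_mul, ← sum_const]
    exact sum_le_sum e2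
  have f3 : ∑ g ∈ Fintype.piFinset B, ∑ g' ∈ Fintype.piFinset B', ∑ x ∈ U, ∑ y ∈ (univ : Finset κ), (∏ i, h (g i)) * (∏ i, h' (g' i)) * ind (g x = g' y) ≤
      U.card * (Fintype.card κ * (θ * (TX * TY))) := by
    rw [sum_congr rfl fun g _ => sum_comm, sum_comm, ← nsmul_eq_mul, ← sum_const]
    refine sum_le_sum fun x hx => ?_
    rw [sum_congr rfl fun g _ => sum_comm, sum_comm, ← card_univ, ← nsmul_eq_mul, ← sum_const]
    exact sum_le_sum (e3 x hx)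
  have f4 : ∑ g ∈ Fintype.piFinset B, ∑ g' ∈ Fintype.piFinset B', ∑ x ∈ (univ : Finset ι), ∑ y ∈ U', (∏ i, h (g i)) * (∏ i, h' (g' i)) * ind (g x = g' y) ≤
      Fintype.card ι * (U'.card * (θ * (TX * TY))) := by
    rw [sum_congr rfl fun g _ => sum_comm, sum_comm, ← card_univ, ← nsmul_eq_mul, ← sum_const]
    refine sum_le_sum fun x hx => ?_
    rw [sum_congr rfl fun g _ => sum_comm, sum_comm, ← nsmul_eq_mul, ← sum_const]
    exact sum_le_sum (e4 x hx)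
  have f5 : θ * (V.card * (U.card + U'.card) + (U.card * Fintype.card κ + Fintype.card ι * U'.card)) * (TX * TY) =
      U.card * ((V.card * θ) * (TX * TY)) + U'.card * ((V.card * θ) * (TX * TY)) + U.card * (Fintype.card κ * (θ * (TX * TY))) +
        Fintype.card ι * (U'.card * (θ * (TX * TY))) := by ring
  rw [f5]
  exact add_le_add (add_le_add (add_le_add f1 f2) f3) f4

/-! ### coordinates -/

private def Q26_v {a b c : ℕ} (μ : (Fin a → ℕ) × (Fin b → ℕ) × (Fin c → ℕ)) : Fin a ⊕ (Fin b ⊕ Fin c) → ℕ := Sum.elim μ.1 (Sum.elim μ.2.1 μ.2.2)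

private def Q26_B {a b c : ℕ} (W : Fin a → Finset ℕ) (F : Fin b → Finset ℕ) (O : Fin c → Finset ℕ) : Fin a ⊕ (Fin b ⊕ Fin c) → Finset ℕ :=
  Sum.elim W (Sum.elim F O)

private theorem Q26_sum {a b c : ℕ} (W : Fin a → Finset ℕ) (F : Fin b → Finset ℕ) (O : Fin c → Finset ℕ) (Φ : (Fin a ⊕ (Fin b ⊕ Fin c) → ℕ) → ℝ) :
    ∑ μ ∈ Fintype.piFinset W ×ˢ (Fintype.piFinset F ×ˢ Fintype.piFinset O), Φ (Q26_v μ) = ∑ g ∈ Fintype.piFinset (Q26_B W F O), Φ g := by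
  refine sum_nbij' Q26_v (fun g => (fun i => g (Sum.inl i), fun f => g (Sum.inr (Sum.inl f)), fun e => g (Sum.inr (Sum.inr e)))) ?_ ?_ ?_ ?_ ?_
  · intro μ hμ
    rw [mem_product, mem_product, Fintype.mem_piFinset, Fintype.mem_piFinset, Fintype.mem_piFinset] at hμ
    rw [Fintype.mem_piFinset]
    rintro (i | f | e)
    · exact hμ.1 i
    · exact hμ.2.1 f
    · exact hμ.2.2 e
  · intro g hg
    rw [Fintype.mem_piFinset] at hg
    rw [mem_product, mem_product, Fintype.mem_piFinset, Fintype.mem_piFinset, Fintype.mem_piFinset]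
    exact ⟨fun i => hg (Sum.inl i), fun f => hg (Sum.inr (Sum.inl f)), fun e => hg (Sum.inr (Sum.inr e))⟩
  · intro μ _
    rfl
  · intro g _
    funext x
    rcases x with i | f | e <;> rfl
  · intro μ _
    rfl

private theorem Q26_prod {a b c : ℕ} {M : Type*} [CommMonoid M] (h : ℕ → M) (μ : (Fin a → ℕ) × (Fin b → ℕ) × (Fin c → ℕ)) :
    (∏ i, h (μ.1 i)) * (∏ f, h (μ.2.1 f)) * ∏ e, h (μ.2.2 e) = ∏ x, h (Q26_v μ x) := by
  rw [Fintype.prod_sum_type, Fintype.prod_sum_type, mul_assoc]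
  rfl


/-! ### one coordinate -/

private theorem Q26_h {h : ℕ → ℝ} (hh : ∀ p : ℕ, p.Prime → 0 ≤ h p ∧ |h p - 1 / p| ≤ 2 / (p : ℝ) ^ 2) {l : ℕ} (hl : l.Prime) (h4 : 4 ≤ l) :
    1 / (2 * (l : ℝ)) ≤ h l ∧ h l ≤ 2 / l := by
  have h1 := (hh l hl).2
  have hl0 : (4 : ℝ) ≤ l := by exact_mod_cast h4
  have hl1 : (0 : ℝ) < l := by linarith
  have h2 : 2 / (l : ℝ) ^ 2 ≤ 1 / (2 * (l : ℝ)) := by
    rw [div_le_div_iff₀ (by positivity) (by positivity)]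
    nlinarith
  have h3 : 1 / (l : ℝ) = 1 / (2 * (l : ℝ)) + 1 / (2 * (l : ℝ)) := by
    field_simp
    ring
  have h4 : 2 / (l : ℝ) = 4 * (1 / (2 * (l : ℝ))) := by
    field_simp
    ring
  have h5 : 0 < 1 / (2 * (l : ℝ)) := by positivity
  rw [abs_le] at h1
  constructor
  · linarith [h1.1]
  · linarith [h1.2]

private theorem Q26_th {h : ℕ → ℝ} (hh : ∀ p : ℕ, p.Prime → 0 ≤ h p ∧ |h p - 1 / p| ≤ 2 / (p : ℝ) ^ 2) {P : Finset ℕ} (hP : ∀ l ∈ P, l.Prime ∧ 4 ≤ l)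
    {K lam : ℝ} (hK : 0 < K) (hm : 1 / K ^ 2 ≤ ∑ l ∈ P, 1 / (l : ℝ)) (hl : ∀ l ∈ P, 1 / (l : ℝ) ≤ lam) :
    ∀ l ∈ P, h l ≤ (4 * K ^ 2 * lam) * ∑ l ∈ P, h l := by
  intro l hlP
  have h1 : 1 / (2 * K ^ 2) ≤ ∑ l ∈ P, h l := by
    have h2 : ∑ l ∈ P, 1 / (2 * (l : ℝ)) ≤ ∑ l ∈ P, h l := sum_le_sum fun l hl => (Q26_h hh (hP l hl).1 (hP l hl).2).1
    have h3 : ∑ l ∈ P, 1 / (2 * (l : ℝ)) = (1 / 2) * ∑ l ∈ P, 1 / (l : ℝ) := by
      rw [mul_sum]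
      refine sum_congr rfl fun l _ => ?_
      rw [one_div_mul_one_div]
    have h4 : 1 / (2 * K ^ 2) = (1 / 2) * (1 / K ^ 2) := by rw [one_div_mul_one_div]
    rw [h4]
    linarith
  have h2 := (Q26_h hh (hP l hlP).1 (hP l hlP).2).2
  have h3 := hl l hlP
  have h5 : 0 ≤ lam := le_trans (by positivity) h3
  have h6 : h l ≤ 2 * lam := by
    refine h2.trans ?_
    rw [show (2 : ℝ) / l = 2 * (1 / l) by ring]
    linarith
  refine h6.trans ?_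
  have h7 : 2 * lam = (4 * K ^ 2 * lam) * (1 / (2 * K ^ 2)) := by
    field_simp
    ring
  rw [h7]
  exact mul_le_mul_of_nonneg_left h1 (by positivity)

private theorem Q26_om {v N : ℕ} (hv : 0 < v) (hN : v ≤ N) : (v.primeFactors.card : ℝ) ≤ 2 * Real.log N := by
  have h1 : 2 ^ v.primeFactors.card ≤ v := by
    refine le_trans ?_ (Nat.le_of_dvd hv (Nat.prod_primeFactors_dvd v))
    rw [← prod_const]
    exact prod_le_prod (fun _ _ => Nat.zero_le _) fun p hp => (Nat.prime_of_mem_primeFactors hp).two_le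
  have h2 : ((2 : ℝ)) ^ v.primeFactors.card ≤ N := by exact_mod_cast h1.trans hN
  have h3 := Real.log_le_log (by positivity) h2
  rw [Real.log_pow] at h3
  have h4 : (1 / 2 : ℝ) ≤ Real.log 2 := by linarith [Real.log_two_gt_d9]
  nlinarith [(Nat.cast_nonneg v.primeFactors.card : (0 : ℝ) ≤ _)]


variable {S : MS} {T : Dat} {W0 : ℕ} {Z : Fin (S.k + 1) → ℕ} {M : Msr S} {δ0 δ1 : ℝ} {p1 Q0 : ℕ} {η Cα : ℝ}

private theorem Q26_y0 (hT : T.OK W0) (hS : S.OK T W0 Z) : 1024 ≤ T.y0 := by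
  have h1 := hS.p0_lo
  have h2 := hT.p0_le
  have h3 := hT.y_le
  have h4 := hS.k_lo
  nlinarith

private theorem Q26_K (hT : T.OK W0) : 0 < Real.log T.N := by
  have h1 := hT.N_pos
  exact Real.log_pos (by exact_mod_cast (by omega : 1 < T.N))

private theorem Q26_BX (hT : T.OK W0) (hS : S.OK T W0 Z) (hA : S.An T p1 Q0 η Cα) (x : Fin (S.k + 1) ⊕ (Fin S.n0 ⊕ Fin S.nX)) :
    (∀ l ∈ Q26_B S.WX S.FX S.OX x, l.Prime ∧ T.y0 < l) ∧ 1 / (Real.log T.N) ^ 2 ≤ ∑ l ∈ Q26_B S.WX S.FX S.OX x, 1 / (l : ℝ) := by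
  rcases x with i | f | e
  · refine ⟨fun l hl => ?_, (hA.W_mass i).1⟩
    obtain ⟨h1, -, h2, -⟩ := hS.WX_mem i l hl
    have h3 := hS.Z_lo i
    have h4 := hT.y0_lt
    exact ⟨h1, by nlinarith⟩
  · refine ⟨fun l hl => ?_, (hA.F_mass f).1⟩
    obtain ⟨h1, -, h2, -⟩ := hS.FX_mem f l hl
    exact ⟨h1, h2⟩
  · refine ⟨fun l hl => ?_, hA.OX_mass e⟩
    obtain ⟨h1, -, h2, -⟩ := hS.OX_mem e l hl
    exact ⟨h1, h2⟩

private theorem Q26_BY (hT : T.OK W0) (hS : S.OK T W0 Z) (hA : S.An T p1 Q0 η Cα) (x : Fin (S.k + 1) ⊕ (Fin S.n0 ⊕ Fin S.nY)) :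
    (∀ l ∈ Q26_B S.WY S.FY S.OY x, l.Prime ∧ T.y0 < l) ∧ 1 / (Real.log T.N) ^ 2 ≤ ∑ l ∈ Q26_B S.WY S.FY S.OY x, 1 / (l : ℝ) := by
  rcases x with i | f | e
  · refine ⟨fun l hl => ?_, (hA.W_mass i).2⟩
    obtain ⟨h1, -, h2, -⟩ := hS.WY_mem i l hl
    have h3 := hS.Z_lo i
    have h4 := hT.y0_lt
    exact ⟨h1, by nlinarith⟩
  · refine ⟨fun l hl => ?_, (hA.F_mass f).2⟩
    obtain ⟨h1, -, h2, -⟩ := hS.FY_mem f l hl
    exact ⟨h1, h2⟩
  · refine ⟨fun l hl => ?_, hA.OY_mass e⟩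
    obtain ⟨h1, -, h2, -⟩ := hS.OY_mem e l hl
    exact ⟨h1, h2⟩

private theorem Q26_memX {μ : S.TX} (hμ : μ ∈ S.MX) : ∀ x, Q26_v μ x ∈ Q26_B S.WX S.FX S.OX x := by
  unfold MS.MX at hμ
  rw [mem_product, mem_product, Fintype.mem_piFinset, Fintype.mem_piFinset, Fintype.mem_piFinset] at hμ
  rintro (i | f | e)
  · exact hμ.1 i
  · exact hμ.2.1 f
  · exact hμ.2.2 e

private theorem Q26_memY {ν : S.TY} (hν : ν ∈ S.MY) : ∀ x, Q26_v ν x ∈ Q26_B S.WY S.FY S.OY x := by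
  unfold MS.MY at hν
  rw [mem_product, mem_product, Fintype.mem_piFinset, Fintype.mem_piFinset, Fintype.mem_piFinset] at hν
  rintro (i | f | e)
  · exact hν.1 i
  · exact hν.2.1 f
  · exact hν.2.2 e

private theorem Q26_m1 (μ : S.TX) (ν : S.TY) : M.m1 μ ν = (∏ x, M.hX (Q26_v μ x)) * ∏ x, M.hY (Q26_v ν x) := by
  unfold Msr.m1 MS.prX MS.prY
  rw [Q26_prod, Q26_prod]

private theorem Q26_tot : M.tot1 = (∑ g ∈ Fintype.piFinset (Q26_B S.WX S.FX S.OX), ∏ x, M.hX (g x)) *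
    ∑ g ∈ Fintype.piFinset (Q26_B S.WY S.FY S.OY), ∏ x, M.hY (g x) := by
  unfold Msr.tot1
  rw [← Q26_sum S.WX S.FX S.OX (fun g => ∏ x, M.hX (g x)), ← Q26_sum S.WY S.FY S.OY (fun g => ∏ x, M.hY (g x)), sum_mul_sum]
  refine sum_congr rfl fun μ _ => sum_congr rfl fun ν _ => ?_
  exact Q26_m1 μ ν

private theorem Q26_main (hT : T.OK W0) (hS : S.OK T W0 Z) (hA : S.An T p1 Q0 η Cα) (hM : M.OK T W0 δ0 δ1)
    (U : Finset (Fin (S.k + 1) ⊕ (Fin S.n0 ⊕ Fin S.nX))) (U' : Finset (Fin (S.k + 1) ⊕ (Fin S.n0 ⊕ Fin S.nY))) {lam : ℝ} (hlam : 0 ≤ lam)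
    (hU : ∀ x ∈ U, ∀ l ∈ Q26_B S.WX S.FX S.OX x, 1 / (l : ℝ) ≤ lam) (hU' : ∀ x ∈ U', ∀ l ∈ Q26_B S.WY S.FY S.OY x, 1 / (l : ℝ) ≤ lam)
    (P : S.TX → S.TY → Prop)
    (hP : ∀ μ ∈ S.MX, ∀ ν ∈ S.MY, P μ ν → (∃ x ∈ U, Q26_v μ x ∈ M.v.primeFactors) ∨ (∃ y ∈ U', Q26_v ν y ∈ M.v.primeFactors) ∨
      (∃ x ∈ U, ∃ y ∈ (univ : Finset (Fin (S.k + 1) ⊕ (Fin S.n0 ⊕ Fin S.nY))), Q26_v μ x = Q26_v ν y) ∨
      (∃ x ∈ (univ : Finset (Fin (S.k + 1) ⊕ (Fin S.n0 ⊕ Fin S.nX))), ∃ y ∈ U', Q26_v μ x = Q26_v ν y)) :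
    ∑ μ ∈ S.MX, ∑ ν ∈ S.MY, M.m1 μ ν * ind (P μ ν) ≤ 12 * (Real.log T.N) ^ 4 * lam * M.tot1 := by
  have hK := Q26_K hT
  have hy := Q26_y0 hT hS
  have h0 : ∀ x, ∀ l ∈ Q26_B S.WX S.FX S.OX x, 0 ≤ M.hX l := fun x l hl => (hM.hX_nonneg l ((Q26_BX hT hS hA x).1 l hl).1).1
  have h0' : ∀ x, ∀ l ∈ Q26_B S.WY S.FY S.OY x, 0 ≤ M.hY l := fun x l hl => (hM.hY_nonneg l ((Q26_BY hT hS hA x).1 l hl).1).1
  have hθ : ∀ x ∈ U, ∀ l ∈ Q26_B S.WX S.FX S.OX x, M.hX l ≤ (4 * (Real.log T.N) ^ 2 * lam) * ∑ l ∈ Q26_B S.WX S.FX S.OX x, M.hX l :=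
    fun x hx => Q26_th hM.hX_nonneg (fun l hl => ⟨((Q26_BX hT hS hA x).1 l hl).1, by have := ((Q26_BX hT hS hA x).1 l hl).2; omega⟩) hK
      (Q26_BX hT hS hA x).2 (hU x hx)
  have hθ' : ∀ x ∈ U', ∀ l ∈ Q26_B S.WY S.FY S.OY x, M.hY l ≤ (4 * (Real.log T.N) ^ 2 * lam) * ∑ l ∈ Q26_B S.WY S.FY S.OY x, M.hY l :=
    fun x hx => Q26_th hM.hY_nonneg (fun l hl => ⟨((Q26_BY hT hS hA x).1 l hl).1, by have := ((Q26_BY hT hS hA x).1 l hl).2; omega⟩) hK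
      (Q26_BY hT hS hA x).2 (hU' x hx)
  have hθ0 : 0 ≤ 4 * (Real.log T.N) ^ 2 * lam := by positivity
  have h1 := Q26_ev (Q26_B S.WX S.FX S.OX) (Q26_B S.WY S.FY S.OY) M.hX M.hY h0 h0' U U' M.v.primeFactors hθ0 hθ hθ'
  rw [← Q26_tot] at h1
  have hpos : ∀ g ∈ Fintype.piFinset (Q26_B S.WX S.FX S.OX), 0 ≤ ∏ x, M.hX (g x) :=
    fun g hg => prod_nonneg fun x _ => h0 x _ (Fintype.mem_piFinset.1 hg x)
  have hpos' : ∀ g ∈ Fintype.piFinset (Q26_B S.WY S.FY S.OY), 0 ≤ ∏ x, M.hY (g x) :=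
    fun g hg => prod_nonneg fun x _ => h0' x _ (Fintype.mem_piFinset.1 hg x)
  have ht0 : 0 ≤ M.tot1 := by
    rw [Q26_tot]
    exact mul_nonneg (sum_nonneg hpos) (sum_nonneg hpos')
  have h2 : ∑ μ ∈ S.MX, ∑ ν ∈ S.MY, M.m1 μ ν * ind (P μ ν) ≤
      ∑ g ∈ Fintype.piFinset (Q26_B S.WX S.FX S.OX), ∑ g' ∈ Fintype.piFinset (Q26_B S.WY S.FY S.OY), (∏ i, M.hX (g i)) * (∏ i, M.hY (g' i)) *
      ind ((∃ x ∈ U, g x ∈ M.v.primeFactors) ∨ (∃ y ∈ U', g' y ∈ M.v.primeFactors) ∨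
        (∃ x ∈ U, ∃ y ∈ (univ : Finset (Fin (S.k + 1) ⊕ (Fin S.n0 ⊕ Fin S.nY))), g x = g' y) ∨
        (∃ x ∈ (univ : Finset (Fin (S.k + 1) ⊕ (Fin S.n0 ⊕ Fin S.nX))), ∃ y ∈ U', g x = g' y)) := by
    rw [← Q26_sum S.WX S.FX S.OX (fun g => ∑ g' ∈ Fintype.piFinset (Q26_B S.WY S.FY S.OY), (∏ i, M.hX (g i)) * (∏ i, M.hY (g' i)) *
      ind ((∃ x ∈ U, g x ∈ M.v.primeFactors) ∨ (∃ y ∈ U', g' y ∈ M.v.primeFactors) ∨
        (∃ x ∈ U, ∃ y ∈ (univ : Finset (Fin (S.k + 1) ⊕ (Fin S.n0 ⊕ Fin S.nY))), g x = g' y) ∨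
        (∃ x ∈ (univ : Finset (Fin (S.k + 1) ⊕ (Fin S.n0 ⊕ Fin S.nX))), ∃ y ∈ U', g x = g' y)))]
    refine sum_le_sum fun μ hμ => ?_
    rw [← Q26_sum S.WY S.FY S.OY (fun g' => (∏ i, M.hX (Q26_v μ i)) * (∏ i, M.hY (g' i)) *
      ind ((∃ x ∈ U, Q26_v μ x ∈ M.v.primeFactors) ∨ (∃ y ∈ U', g' y ∈ M.v.primeFactors) ∨
        (∃ x ∈ U, ∃ y ∈ (univ : Finset (Fin (S.k + 1) ⊕ (Fin S.n0 ⊕ Fin S.nY))), Q26_v μ x = g' y) ∨
        (∃ x ∈ (univ : Finset (Fin (S.k + 1) ⊕ (Fin S.n0 ⊕ Fin S.nX))), ∃ y ∈ U', Q26_v μ x = g' y)))]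
    refine sum_le_sum fun ν hν => ?_
    rw [Q26_m1]
    refine mul_le_mul_of_nonneg_left (ind_mono (hP μ hμ ν hν)) (mul_nonneg ?_ ?_)
    · exact prod_nonneg fun x _ => h0 x _ (Q26_memX hμ x)
    · exact prod_nonneg fun x _ => h0' x _ (Q26_memY hν x)
  refine h2.trans (h1.trans (mul_le_mul_of_nonneg_right ?_ ht0))
  have hv := Q26_om hM.v_pos hM.v_le
  have hnum := hS.num
  have c1 : (U.card : ℝ) ≤ Fintype.card (Fin (S.k + 1) ⊕ (Fin S.n0 ⊕ Fin S.nX)) := by exact_mod_cast card_le_univ U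
  have c2 : (U'.card : ℝ) ≤ Fintype.card (Fin (S.k + 1) ⊕ (Fin S.n0 ⊕ Fin S.nY)) := by exact_mod_cast card_le_univ U'
  have c3 : (Fintype.card (Fin (S.k + 1) ⊕ (Fin S.n0 ⊕ Fin S.nX)) : ℝ) + Fintype.card (Fin (S.k + 1) ⊕ (Fin S.n0 ⊕ Fin S.nY)) ≤ Real.log T.N := by
    refine le_trans (le_of_eq ?_) hnum
    simp only [Fintype.card_sum, Fintype.card_fin]
    push_cast
    ring
  set a : ℝ := (Fintype.card (Fin (S.k + 1) ⊕ (Fin S.n0 ⊕ Fin S.nX)) : ℝ) with ha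
  set b : ℝ := (Fintype.card (Fin (S.k + 1) ⊕ (Fin S.n0 ⊕ Fin S.nY)) : ℝ) with hb
  set K := Real.log T.N with hKdef
  have ha0 : 0 ≤ a := Nat.cast_nonneg _
  have hb0 : 0 ≤ b := Nat.cast_nonneg _
  have hu0 : (0 : ℝ) ≤ U.card := Nat.cast_nonneg _
  have hu0' : (0 : ℝ) ≤ U'.card := Nat.cast_nonneg _
  have hv0 : (0 : ℝ) ≤ M.v.primeFactors.card := Nat.cast_nonneg _
  have d1 : (M.v.primeFactors.card : ℝ) * (U.card + U'.card) ≤ (2 * K) * K := by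
    refine mul_le_mul hv (by linarith) (by linarith) (by linarith)
  have d2 : (U.card : ℝ) * b + a * U'.card ≤ K ^ 2 / 2 := by
    have d3 : (U.card : ℝ) * b ≤ a * b := mul_le_mul_of_nonneg_right c1 hb0
    have d4 : a * U'.card ≤ a * b := mul_le_mul_of_nonneg_left c2 ha0
    nlinarith [sq_nonneg (a - b), mul_self_le_mul_self (add_nonneg ha0 hb0) c3]
  have d3 : (M.v.primeFactors.card : ℝ) * (U.card + U'.card) + (U.card * b + a * U'.card) ≤ 3 * K ^ 2 := by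
    nlinarith [sq_nonneg K]
  calc 4 * K ^ 2 * lam * ((M.v.primeFactors.card : ℝ) * (U.card + U'.card) + (U.card * b + a * U'.card))
      ≤ 4 * K ^ 2 * lam * (3 * K ^ 2) := mul_le_mul_of_nonneg_left d3 hθ0
    _ = 12 * K ^ 4 * lam := by ring

private theorem Q26_dvd {ι : Type*} [Fintype ι] (g : ι → ℕ) (hg : ∀ x, (g x).Prime) {p : ℕ} (hp : p.Prime) (h : p ∣ ∏ x, id (g x)) : ∃ x, g x = p := by
  obtain ⟨x, _, hx⟩ := (hp.prime.dvd_finsetProd_iff _).1 h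
  exact ⟨x, ((Nat.prime_dvd_prime_iff_eq hp (hg x)).1 hx).symm⟩

private theorem Q26_nadm (hT : T.OK W0) (hS : S.OK T W0 Z) (hA : S.An T p1 Q0 η Cα) (hM : M.OK T W0 δ0 δ1) {μ : S.TX} (hμ : μ ∈ S.MX) {ν : S.TY} (hν : ν ∈ S.MY)
    (h : ¬ M.adm μ ν) : (∃ x, Q26_v μ x ∈ M.v.primeFactors) ∨ (∃ y, Q26_v ν y ∈ M.v.primeFactors) ∨ (∃ x y, Q26_v μ x = Q26_v ν y) := by
  have h1 : ∀ x, (Q26_v μ x).Prime := fun x => ((Q26_BX hT hS hA x).1 _ (Q26_memX hμ x)).1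
  have h2 : ∀ x, (Q26_v ν x).Prime := fun x => ((Q26_BY hT hS hA x).1 _ (Q26_memY hν x)).1
  unfold Msr.adm at h
  rw [not_and_or, Nat.Prime.not_coprime_iff_dvd, Nat.Prime.not_coprime_iff_dvd] at h
  unfold MS.prX MS.prY at h
  rw [Q26_prod, Q26_prod] at h
  rcases h with ⟨p, hp, h3, h4⟩ | ⟨p, hp, h3, h4⟩
  · rcases hp.dvd_mul.1 h3 with h3 | h3
    · obtain ⟨x, hx⟩ := Q26_dvd _ h1 hp h3
      exact Or.inl ⟨x, by rw [hx]; exact Nat.mem_primeFactors.2 ⟨hp, h4, hM.v_pos.ne'⟩⟩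
    · obtain ⟨x, hx⟩ := Q26_dvd _ h2 hp h3
      exact Or.inr (Or.inl ⟨x, by rw [hx]; exact Nat.mem_primeFactors.2 ⟨hp, h4, hM.v_pos.ne'⟩⟩)
  · obtain ⟨x, hx⟩ := Q26_dvd _ h1 hp h3
    obtain ⟨y, hy⟩ := Q26_dvd _ h2 hp h4
    exact Or.inr (Or.inr ⟨x, y, hx.trans hy.symm⟩)

theorem Q26_adm (hT : T.OK W0) (hS : S.OK T W0 Z) (hA : S.An T p1 Q0 η Cα) (hM : M.OK T W0 δ0 δ1) :
    ∑ μ ∈ S.MX, ∑ ν ∈ S.MY, M.m1 μ ν * ind (¬ M.adm μ ν) ≤ 12 * (Real.log T.N) ^ 4 / T.y0 * M.tot1 := by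
  have hy := Q26_y0 hT hS
  have hy0 : (0 : ℝ) < T.y0 := by exact_mod_cast (by omega : 0 < T.y0)
  have h1 := Q26_main hT hS hA hM univ univ (lam := 1 / (T.y0 : ℝ)) (by positivity)
    (fun x _ l hl => one_div_le_one_div_of_le hy0 (by exact_mod_cast ((Q26_BX hT hS hA x).1 l hl).2.le))
    (fun x _ l hl => one_div_le_one_div_of_le hy0 (by exact_mod_cast ((Q26_BY hT hS hA x).1 l hl).2.le))
    (fun μ ν => ¬ M.adm μ ν) (by
      intro μ hμ ν hν h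
      rcases Q26_nadm hT hS hA hM hμ hν h with ⟨x, hx⟩ | ⟨x, hx⟩ | ⟨x, y, hx⟩
      · exact Or.inl ⟨x, mem_univ _, hx⟩
      · exact Or.inr (Or.inl ⟨x, mem_univ _, hx⟩)
      · exact Or.inr (Or.inr (Or.inl ⟨x, mem_univ _, y, mem_univ _, hx⟩)))
  rwa [mul_one_div] at h1

/-- the free coordinates -/
private def Q26_U (a b c : ℕ) : Finset (Fin a ⊕ (Fin b ⊕ Fin c)) := (univ : Finset (Fin b)).image fun f => Sum.inr (Sum.inl f)

private theorem Q26_nf {a b c : ℕ} (μ : (Fin a → ℕ) × (Fin b → ℕ) × (Fin c → ℕ)) (x : Fin a ⊕ (Fin b ⊕ Fin c)) (hx : x ∉ Q26_U a b c) :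
    Q26_v μ x ∣ (∏ i, μ.1 i) * ∏ e, μ.2.2 e := by
  rcases x with i | f | e
  · exact (dvd_prod_of_mem μ.1 (mem_univ i)).mul_right _
  · exact absurd (mem_image.2 ⟨f, mem_univ _, rfl⟩) hx
  · exact (dvd_prod_of_mem μ.2.2 (mem_univ e)).mul_left _

theorem Q26_adm0 (hT : T.OK W0) (hS : S.OK T W0 Z) (hA : S.An T p1 Q0 η Cα) (hM : M.OK T W0 δ0 δ1) (hK : 4 ≤ Real.exp ((Real.log T.N) ^ (1 / 5 : ℝ))) :
    ∑ μ ∈ S.MX, ∑ ν ∈ S.MY, M.m1 μ ν * ind (M.adm0 μ ν ∧ ¬ M.adm μ ν) ≤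
      12 * (Real.log T.N) ^ 4 * Real.exp (-(Real.log T.N) ^ (1 / 5 : ℝ)) * M.tot1 := by
  refine Q26_main hT hS hA hM (Q26_U _ _ _) (Q26_U _ _ _) (lam := Real.exp (-(Real.log T.N) ^ (1 / 5 : ℝ))) (Real.exp_pos _).le ?_ ?_
    (fun μ ν => M.adm0 μ ν ∧ ¬ M.adm μ ν) ?_
  · intro x hx l hl
    obtain ⟨f, -, rfl⟩ := mem_image.1 hx
    rw [Real.exp_neg, ← one_div]
    exact one_div_le_one_div_of_le (Real.exp_pos _) (hA.F_lo f l (mem_union_left _ hl))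
  · intro x hx l hl
    obtain ⟨f, -, rfl⟩ := mem_image.1 hx
    rw [Real.exp_neg, ← one_div]
    exact one_div_le_one_div_of_le (Real.exp_pos _) (hA.F_lo f l (mem_union_right _ hl))
  · rintro μ hμ ν hν ⟨h0, h⟩
    have h1 : ∀ x, (Q26_v μ x).Prime := fun x => ((Q26_BX hT hS hA x).1 _ (Q26_memX hμ x)).1
    have h2 : ∀ x, (Q26_v ν x).Prime := fun x => ((Q26_BY hT hS hA x).1 _ (Q26_memY hν x)).1
    rcases Q26_nadm hT hS hA hM hμ hν h with ⟨x, hx⟩ | ⟨x, hx⟩ | ⟨x, y, hx⟩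
    · refine Or.inl ⟨x, ?_, hx⟩
      by_contra hxU
      exact Nat.not_coprime_of_dvd_of_dvd (h1 x).one_lt ((Q26_nf μ x hxU).mul_right _) (Nat.dvd_of_mem_primeFactors hx) h0.1
    · refine Or.inr (Or.inl ⟨x, ?_, hx⟩)
      by_contra hxU
      exact Nat.not_coprime_of_dvd_of_dvd (h2 x).one_lt ((Q26_nf ν x hxU).mul_left _) (Nat.dvd_of_mem_primeFactors hx) h0.1
    · by_cases hxU : x ∈ Q26_U (S.k + 1) S.n0 S.nX
      · exact Or.inr (Or.inr (Or.inl ⟨x, hxU, y, mem_univ _, hx⟩))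
      · refine Or.inr (Or.inr (Or.inr ⟨x, mem_univ _, y, ?_, hx⟩))
        by_contra hyU
        refine Nat.not_coprime_of_dvd_of_dvd (h1 x).one_lt (Q26_nf μ x hxU) ?_ h0.2
        rw [hx]
        exact Q26_nf ν y hyU


/-! ### bad pairs -/

/-- one class modulo `p` -/
private theorem Q26_cls (hT : T.OK W0) (hS : S.OK T W0 Z) (hA : S.An T p1 Q0 η Cα) (hM : M.OK T W0 δ0 δ1) (hQ0 : T.y0 * T.D ≤ Q0) {p : ℕ}
    (hp : p.Prime) (hpy : p ≤ T.y0) (i : Fin (S.k + 1)) (b : ℕ) :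
    ∑ l ∈ S.WX i, M.hX l * ind (l ≡ b [MOD p]) ≤ (3 * Cα / ((p : ℝ) - 1)) * ∑ l ∈ S.WX i, M.hX l := by
  classical
  have hy := Q26_y0 hT hS
  have hW : ∀ l ∈ S.WX i, l.Prime ∧ T.y0 < l := (Q26_BX hT hS hA (Sum.inl i)).1
  have h0 : ∀ l ∈ S.WX i, 0 ≤ M.hX l := fun l hl => (hM.hX_nonneg l (hW l hl).1).1
  have hH : 0 ≤ ∑ l ∈ S.WX i, M.hX l := sum_nonneg h0
  have hC := hA.Cα_lo
  have hp1 : (0 : ℝ) < (p : ℝ) - 1 := by
    have h2 : (1 : ℝ) < p := by exact_mod_cast hp.one_lt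
    linarith
  by_cases hb : b.Coprime p
  · -- the weights
    have hbt : BTc T.D M.hX (3 * Cα) Q0 (S.WX i) := by
      refine Q11_bt (ε := 1 / 2) (by linarith) (by norm_num) le_rfl (fun l hl => (hW l hl).1.pos) (fun l hl => ?_) (hA.bt i)
      refine (hM.hX_nonneg l (hW l hl).1).2.trans ?_
      have h3 : (4 : ℝ) ≤ l := by
        have h4 : 4 ≤ l := by
          have := (hW l hl).2
          omega
        exact_mod_cast h4
      rw [one_div_mul_one_div, div_le_div_iff₀ (by positivity) (by positivity)]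
      nlinarith
    have hQ : ∏ q ∈ ({p} : Finset ℕ), q ^ (padicValNat q T.D + 1) ≤ Q0 := by
      rw [prod_singleton, pow_succ]
      have h3 : p ^ padicValNat p T.D ≤ T.D := Nat.le_of_dvd hT.D_pos pow_padicValNat_dvd
      calc p ^ padicValNat p T.D * p ≤ T.D * T.y0 := Nat.mul_le_mul h3 hpy
        _ = T.y0 * T.D := mul_comm _ _
        _ ≤ Q0 := hQ0
    have hbt1 := hbt {p} (by simpa using hp) hQ
    -- the homomorphism
    have : NeZero p := ⟨hp.ne_zero⟩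
    have hNZ : NeZero (p ^ (padicValNat p T.D + 1)) := ⟨pow_ne_zero _ hp.ne_zero⟩
    let φ0 : HP T.D p →* (ZMod p)ˣ := ZMod.unitsMap (dvd_pow_self p (Nat.succ_ne_zero _))
    let Ψ : (∀ q : ({p} : Finset ℕ), HP T.D q) →* (ZMod p)ˣ := φ0.comp (Pi.evalMonoidHom (fun q : ({p} : Finset ℕ) => HP T.D q) ⟨p, mem_singleton_self p⟩)
    have hΨ : Function.Surjective Ψ := by
      intro y
      obtain ⟨z, hz⟩ := ZMod.unitsMap_surjective (dvd_pow_self p (Nat.succ_ne_zero (padicValNat p T.D))) y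
      refine ⟨Function.update 1 ⟨p, mem_singleton_self p⟩ z, ?_⟩
      show φ0 (Function.update (1 : ∀ q : ({p} : Finset ℕ), HP T.D q) ⟨p, mem_singleton_self p⟩ z ⟨p, mem_singleton_self p⟩) = y
      rw [Function.update_self]
      exact hz
    let u0 : (ZMod p)ˣ := ZMod.unitOfCoprime b hb
    have hav := av_hom Ψ hΨ 1 (fun y => ind (y = u0))
    let _ : Fintype (∀ q : ({p} : Finset ℕ), HP T.D q) := Fintype.ofFinite _
    have e1 : av (fun y : (ZMod p)ˣ => ind (y = u0)) = 1 / ((p : ℝ) - 1) := by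
      rw [av_eq, ZMod.card_units_eq_totient, Nat.totient_prime hp, Nat.cast_sub hp.one_lt.le, Nat.cast_one]
      congr 1
      rw [sum_eq_single u0]
      · exact ind_true rfl
      · intro y _ hy
        exact ind_false hy
      · intro h
        exact absurd (mem_univ _) h
    rw [e1, av_eq] at hav
    -- the sum
    have e2 : ∑ l ∈ S.WX i, M.hX l * ind (l ≡ b [MOD p]) ≤ ∑ u : (∀ q : ({p} : Finset ℕ), HP T.D q), ind (1 * Ψ u = u0) *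
        ∑ l ∈ (S.WX i).filter (fun l => ∀ q : ({p} : Finset ℕ), toU _ l = u q), M.hX l := by
      have e3 : ∀ u : (∀ q : ({p} : Finset ℕ), HP T.D q), ind (1 * Ψ u = u0) *
          ∑ l ∈ (S.WX i).filter (fun l => ∀ q : ({p} : Finset ℕ), toU _ l = u q), M.hX l =
          ∑ l ∈ S.WX i, if (∀ q : ({p} : Finset ℕ), toU _ l = u q) then ind (1 * Ψ u = u0) * M.hX l else 0 := by
        intro u
        rw [mul_sum, sum_filter]
      rw [sum_congr rfl fun u _ => e3 u, sum_comm]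
      refine sum_le_sum fun l hl => ?_
      by_cases hlb : l ≡ b [MOD p]
      · rw [ind_true hlb, mul_one]
        have e4 : 1 * Ψ (fun q : ({p} : Finset ℕ) => (toU _ l : HP T.D q)) = u0 := by
          rw [one_mul]
          show φ0 (toU (p ^ (padicValNat p T.D + 1)) l) = u0
          have hlc : l.Coprime (p ^ (padicValNat p T.D + 1)) := by
            have := (hW l hl).2
            exact ((Nat.coprime_primes (hW l hl).1 hp).2 (by omega)).pow_right _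
          unfold toU
          rw [dif_pos hlc]
          refine Units.ext ?_
          show (ZMod.castHom (dvd_pow_self p (Nat.succ_ne_zero (padicValNat p T.D))) (ZMod p)) ((ZMod.unitOfCoprime l hlc : (ZMod (p ^ (padicValNat p T.D + 1)))ˣ) :
            ZMod (p ^ (padicValNat p T.D + 1))) = ((ZMod.unitOfCoprime b hb : (ZMod p)ˣ) : ZMod p)
          rw [ZMod.coe_unitOfCoprime, ZMod.coe_unitOfCoprime, map_natCast]
          exact (ZMod.natCast_eq_natCast_iff _ _ _).2 hlb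
        have e5 := single_le_sum (s := (univ : Finset (∀ q : ({p} : Finset ℕ), HP T.D q)))
          (f := fun u => if (∀ q : ({p} : Finset ℕ), toU _ l = u q) then ind (1 * Ψ u = u0) * M.hX l else 0) (fun u _ => by
            split_ifs
            · exact mul_nonneg (ind_nonneg _) (h0 l hl)
            · exact le_rfl) (mem_univ (fun q : ({p} : Finset ℕ) => (toU _ l : HP T.D q)))
        refine le_trans (le_of_eq ?_) e5
        rw [if_pos fun q => rfl, ind_true e4, one_mul]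
      · rw [ind_false hlb, mul_zero]
        refine sum_nonneg fun u _ => ?_
        split_ifs
        · exact mul_nonneg (ind_nonneg _) (h0 l hl)
        · exact le_rfl
    refine e2.trans ?_
    have e6 : ∑ u : (∀ q : ({p} : Finset ℕ), HP T.D q), ind (1 * Ψ u = u0) *
        ∑ l ∈ (S.WX i).filter (fun l => ∀ q : ({p} : Finset ℕ), toU _ l = u q), M.hX l ≤
        ∑ u : (∀ q : ({p} : Finset ℕ), HP T.D q), ind (1 * Ψ u = u0) * (3 * Cα * ((∑ l ∈ S.WX i, M.hX l) / (Fintype.card (∀ q : ({p} : Finset ℕ), HP T.D q) : ℝ))) := by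
      refine sum_le_sum fun u _ => mul_le_mul_of_nonneg_left ?_ (ind_nonneg _)
      have h3 := hbt1 u
      rw [Nat.card_eq_fintype_card] at h3
      refine le_trans (le_of_eq ?_) h3
      refine sum_congr ?_ fun _ _ => rfl
      ext l
      simp only [mem_filter]
    refine e6.trans (le_of_eq ?_)
    rw [← sum_mul]
    have e7 : (∑ u : (∀ q : ({p} : Finset ℕ), HP T.D q), ind (1 * Ψ u = u0)) * (3 * Cα * ((∑ l ∈ S.WX i, M.hX l) /
        (Fintype.card (∀ q : ({p} : Finset ℕ), HP T.D q) : ℝ))) = (3 * Cα * ∑ l ∈ S.WX i, M.hX l) *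
        ((∑ u : (∀ q : ({p} : Finset ℕ), HP T.D q), ind (1 * Ψ u = u0)) / (Fintype.card (∀ q : ({p} : Finset ℕ), HP T.D q) : ℝ)) := by ring
    rw [e7, hav]
    ring
  · have h3 : ∑ l ∈ S.WX i, M.hX l * ind (l ≡ b [MOD p]) = 0 := by
      refine sum_eq_zero fun l hl => ?_
      rw [ind_false, mul_zero]
      intro h4
      refine hb ?_
      have h5 : l.Coprime p := by
        have := (hW l hl).2
        exact (Nat.coprime_primes (hW l hl).1 hp).2 (by omega)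
      unfold Nat.Coprime at h5 ⊢
      rw [← h5]
      exact h4.symm.gcd_eq
    rw [h3]
    exact mul_nonneg (div_nonneg (by linarith) hp1.le) hH

private theorem Q26_tail {pb y : ℕ} (hpb : 1 ≤ pb) (j : ℕ) : ∑ n ∈ Ioo pb y, 1 / (n : ℝ) ^ (j + 2) ≤ 2 / (pb : ℝ) ^ (j + 1) := by
  have hpb0 : (1 : ℝ) ≤ pb := by exact_mod_cast hpb
  have h1 : ∑ n ∈ Ioo pb y, 1 / (n : ℝ) ^ (j + 2) ≤ ∑ n ∈ Ioo pb y, (1 / (pb : ℝ) ^ j) * ((n : ℝ) ^ 2)⁻¹ := by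
    refine sum_le_sum fun n hn => ?_
    have h2 : (pb : ℝ) ≤ n := by exact_mod_cast (mem_Ioo.1 hn).1.le
    have h3 : (0 : ℝ) < n := by linarith
    rw [← one_div, one_div_mul_one_div, pow_add]
    refine one_div_le_one_div_of_le (by positivity) ?_
    exact mul_le_mul_of_nonneg_right (pow_le_pow_left₀ (by linarith) h2 j) (by positivity)
  refine h1.trans ?_
  rw [← mul_sum]
  have h2 := sum_Ioo_inv_sq_le (α := ℝ) pb y
  have h3 : 2 / ((pb : ℝ) + 1) ≤ 2 / pb := div_le_div_of_nonneg_left (by norm_num) (by linarith) (by linarith)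
  calc (1 / (pb : ℝ) ^ j) * ∑ n ∈ Ioo pb y, ((n : ℝ) ^ 2)⁻¹ ≤ (1 / (pb : ℝ) ^ j) * (2 / pb) :=
        mul_le_mul_of_nonneg_left (h2.trans h3) (by positivity)
    _ = 2 / (pb : ℝ) ^ (j + 1) := by
        rw [pow_succ]
        field_simp

theorem Q26_bad (hT : T.OK W0) (hS : S.OK T W0 Z) (hA : S.An T p1 Q0 η Cα) (hM : M.OK T W0 δ0 δ1) (hQ0 : T.y0 * T.D ≤ Q0) {pb : ℕ} (hpb : 1 ≤ pb) :
    ∑ μ ∈ S.MX, ∑ ν ∈ S.MY, M.m1 μ ν * ind (S.badpair T pb T.y0 μ ν) ≤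
      ((S.k + 1 : ℕ) : ℝ) ^ 2 * (6 * Cα) ^ (S.k - 1) * (2 / (pb : ℝ) ^ (S.k - 2)) * M.tot1 := by
  classical
  have hk := hS.k_lo
  have hC := hA.Cα_lo
  have h0 : ∀ x, ∀ l ∈ Q26_B S.WX S.FX S.OX x, 0 ≤ M.hX l := fun x l hl => (hM.hX_nonneg l ((Q26_BX hT hS hA x).1 l hl).1).1
  have h0' : ∀ x, ∀ l ∈ Q26_B S.WY S.FY S.OY x, 0 ≤ M.hY l := fun x l hl => (hM.hY_nonneg l ((Q26_BY hT hS hA x).1 l hl).1).1
  set TX := ∑ g ∈ Fintype.piFinset (Q26_B S.WX S.FX S.OX), ∏ x, M.hX (g x) with hTX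
  have hTX0 : 0 ≤ TX := sum_nonneg fun g hg => prod_nonneg fun x _ => h0 x _ (Fintype.mem_piFinset.1 hg x)
  -- one prime, one set
  have e1 : ∀ ν ∈ S.MY, ∀ p ∈ T.PS, ∀ I ∈ powersetCard (S.k - 1) (univ : Finset (Fin (S.k + 1))),
      ∑ μ ∈ S.MX, (∏ x, M.hX (Q26_v μ x)) * ind (∀ i ∈ I, μ.1 i ≡ ν.1 i [MOD p]) ≤ ((6 * Cα) ^ (S.k - 1) * (1 / (p : ℝ) ^ (S.k - 1))) * TX := by
    intro ν _ p hp I hI
    unfold Dat.PS at hp
    rw [mem_filter, mem_range] at hp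
    obtain ⟨hpy, hpp, -⟩ := hp
    have hp2 : (2 : ℝ) ≤ p := by exact_mod_cast hpp.two_le
    let A : (Fin (S.k + 1) ⊕ (Fin S.n0 ⊕ Fin S.nX)) → ℕ → Prop := Sum.elim (fun i l => i ∈ I → l ≡ ν.1 i [MOD p]) (fun _ _ => True)
    let δ : (Fin (S.k + 1) ⊕ (Fin S.n0 ⊕ Fin S.nX)) → ℝ := Sum.elim (fun i => if i ∈ I then 3 * Cα / ((p : ℝ) - 1) else 1) (fun _ => 1)
    have h1 := Q26_pi (Q26_B S.WX S.FX S.OX) (fun _ => M.hX) h0 A δ (by
      rintro (i | x)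
      · show ∑ l ∈ S.WX i, M.hX l * ind (i ∈ I → l ≡ ν.1 i [MOD p]) ≤ (if i ∈ I then 3 * Cα / ((p : ℝ) - 1) else 1) * ∑ l ∈ S.WX i, M.hX l
        by_cases hi : i ∈ I
        · rw [if_pos hi]
          refine le_trans (le_of_eq ?_) (Q26_cls hT hS hA hM hQ0 hpp (by omega) i (ν.1 i))
          refine sum_congr rfl fun l _ => ?_
          congr 2
          exact propext ⟨fun h => h hi, fun h _ => h⟩
        · rw [if_neg hi, one_mul]
          exact sum_le_sum fun l hl => mul_le_of_le_one_right (h0 (Sum.inl i) l hl) (ind_le_one _)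
      · show ∑ l ∈ Q26_B S.WX S.FX S.OX (Sum.inr x), M.hX l * ind True ≤ 1 * ∑ l ∈ Q26_B S.WX S.FX S.OX (Sum.inr x), M.hX l
        rw [one_mul]
        exact sum_le_sum fun l hl => mul_le_of_le_one_right (h0 (Sum.inr x) l hl) (ind_le_one _))
    have h2 : ∏ x, δ x = (3 * Cα / ((p : ℝ) - 1)) ^ (S.k - 1) := by
      rw [Fintype.prod_sum_type]
      show (∏ i, if i ∈ I then 3 * Cα / ((p : ℝ) - 1) else 1) * ∏ _x : Fin S.n0 ⊕ Fin S.nX, (1 : ℝ) = _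
      rw [prod_const_one, mul_one, prod_ite_mem, univ_inter, prod_const, (mem_powersetCard.1 hI).2]
    rw [h2] at h1
    have h3 : ∑ μ ∈ S.MX, (∏ x, M.hX (Q26_v μ x)) * ind (∀ i ∈ I, μ.1 i ≡ ν.1 i [MOD p]) =
        ∑ f ∈ Fintype.piFinset (Q26_B S.WX S.FX S.OX), (∏ x, M.hX (f x)) * ind (∀ x, A x (f x)) := by
      rw [← Q26_sum S.WX S.FX S.OX (fun f => (∏ x, M.hX (f x)) * ind (∀ x, A x (f x)))]
      refine sum_congr rfl fun μ _ => ?_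
      congr 2
      refine propext ⟨fun h => ?_, fun h i hi => h (Sum.inl i) hi⟩
      rintro (i | x)
      · exact h i
      · exact True.intro
    rw [h3]
    refine h1.trans (mul_le_mul_of_nonneg_right ?_ hTX0)
    rw [mul_one_div, ← div_pow]
    refine pow_le_pow_left₀ (div_nonneg (by linarith) (by linarith)) ?_ _
    rw [div_le_div_iff₀ (by linarith) (by linarith)]
    nlinarith
  -- the union bound
  have e2 : ∀ μ ∈ S.MX, ∀ ν ∈ S.MY, ind (S.badpair T pb T.y0 μ ν) ≤ ∑ p ∈ T.PS.filter (fun p => pb < p),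
      ∑ I ∈ powersetCard (S.k - 1) (univ : Finset (Fin (S.k + 1))), ind (∀ i ∈ I, μ.1 i ≡ ν.1 i [MOD p]) := by
    intro μ _ ν _
    refine le_trans (ind_mono (Q := ∃ p ∈ T.PS.filter (fun p => pb < p), ∃ I ∈ powersetCard (S.k - 1) (univ : Finset (Fin (S.k + 1))),
      ∀ i ∈ I, μ.1 i ≡ ν.1 i [MOD p]) ?_) ((Q26_ex _ _).trans (sum_le_sum fun p _ => Q26_ex _ _))
    rintro ⟨p, hp, h1, -, h2⟩
    refine ⟨p, mem_filter.2 ⟨hp, h1⟩, ?_⟩
    have h3 : (univ.filter fun i : Fin (S.k + 1) => ¬ (μ.1 i ≡ ν.1 i [MOD p])).card ≤ 2 := by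
      refine le_trans (le_of_eq ?_) h2
      congr 1
    have h4 := card_filter_add_card_filter_not (s := (univ : Finset (Fin (S.k + 1)))) (fun i : Fin (S.k + 1) => μ.1 i ≡ ν.1 i [MOD p])
    rw [card_univ, Fintype.card_fin] at h4
    obtain ⟨I, hI, hIc⟩ := exists_subset_card_eq (s := univ.filter fun i : Fin (S.k + 1) => μ.1 i ≡ ν.1 i [MOD p]) (n := S.k - 1) (by omega)
    exact ⟨I, mem_powersetCard.2 ⟨subset_univ _, hIc⟩, fun i hi => (mem_filter.1 (hI hi)).2⟩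
  have e3 : ∀ ν ∈ S.MY, ∑ μ ∈ S.MX, M.m1 μ ν * ind (S.badpair T pb T.y0 μ ν) ≤
      (∏ x, M.hY (Q26_v ν x)) * ((((S.k + 1 : ℕ) : ℝ) ^ 2 * (6 * Cα) ^ (S.k - 1) * (2 / (pb : ℝ) ^ (S.k - 2))) * TX) := by
    intro ν hν
    have hY0 : 0 ≤ ∏ x, M.hY (Q26_v ν x) := prod_nonneg fun x _ => h0' x _ (Q26_memY hν x)
    have f1 : ∑ μ ∈ S.MX, M.m1 μ ν * ind (S.badpair T pb T.y0 μ ν) ≤ (∏ x, M.hY (Q26_v ν x)) * ∑ p ∈ T.PS.filter (fun p => pb < p),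
        ∑ I ∈ powersetCard (S.k - 1) (univ : Finset (Fin (S.k + 1))), ∑ μ ∈ S.MX, (∏ x, M.hX (Q26_v μ x)) * ind (∀ i ∈ I, μ.1 i ≡ ν.1 i [MOD p]) := by
      have f2 : ∑ p ∈ T.PS.filter (fun p => pb < p), ∑ I ∈ powersetCard (S.k - 1) (univ : Finset (Fin (S.k + 1))),
          ∑ μ ∈ S.MX, (∏ x, M.hX (Q26_v μ x)) * ind (∀ i ∈ I, μ.1 i ≡ ν.1 i [MOD p]) =
          ∑ μ ∈ S.MX, (∏ x, M.hX (Q26_v μ x)) * ∑ p ∈ T.PS.filter (fun p => pb < p),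
            ∑ I ∈ powersetCard (S.k - 1) (univ : Finset (Fin (S.k + 1))), ind (∀ i ∈ I, μ.1 i ≡ ν.1 i [MOD p]) := by
        rw [sum_congr rfl fun p _ => sum_comm, sum_comm]
        refine sum_congr rfl fun μ _ => ?_
        rw [mul_sum]
        exact sum_congr rfl fun p _ => (mul_sum _ _ _).symm
      rw [f2, mul_sum]
      refine sum_le_sum fun μ hμ => ?_
      rw [Q26_m1]
      have hX0 : 0 ≤ ∏ x, M.hX (Q26_v μ x) := prod_nonneg fun x _ => h0 x _ (Q26_memX hμ x)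
      calc (∏ x, M.hX (Q26_v μ x)) * (∏ x, M.hY (Q26_v ν x)) * ind (S.badpair T pb T.y0 μ ν)
          ≤ (∏ x, M.hX (Q26_v μ x)) * (∏ x, M.hY (Q26_v ν x)) * ∑ p ∈ T.PS.filter (fun p => pb < p),
            ∑ I ∈ powersetCard (S.k - 1) (univ : Finset (Fin (S.k + 1))), ind (∀ i ∈ I, μ.1 i ≡ ν.1 i [MOD p]) :=
            mul_le_mul_of_nonneg_left (e2 μ hμ ν hν) (mul_nonneg hX0 hY0)
        _ = _ := by ring
    refine f1.trans (mul_le_mul_of_nonneg_left ?_ hY0)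
    have f3 : ∑ p ∈ T.PS.filter (fun p => pb < p), ∑ I ∈ powersetCard (S.k - 1) (univ : Finset (Fin (S.k + 1))),
        ∑ μ ∈ S.MX, (∏ x, M.hX (Q26_v μ x)) * ind (∀ i ∈ I, μ.1 i ≡ ν.1 i [MOD p]) ≤
        ∑ p ∈ T.PS.filter (fun p => pb < p), ((((S.k + 1 : ℕ) : ℝ) ^ 2 * (6 * Cα) ^ (S.k - 1)) * TX) * (1 / (p : ℝ) ^ (S.k - 1)) := by
      refine sum_le_sum fun p hp => ?_
      refine (sum_le_sum fun I hI => e1 ν hν p (mem_filter.1 hp).1 I hI).trans ?_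
      rw [sum_const, card_powersetCard, card_univ, Fintype.card_fin, nsmul_eq_mul]
      have g1 : (((S.k + 1).choose (S.k - 1) : ℕ) : ℝ) ≤ ((S.k + 1 : ℕ) : ℝ) ^ 2 := by
        rw [← Nat.choose_symm_of_eq_add (show S.k + 1 = 2 + (S.k - 1) by omega)]
        exact_mod_cast Nat.choose_le_pow (S.k + 1) 2
      have g2 : 0 ≤ ((6 * Cα) ^ (S.k - 1) * (1 / (p : ℝ) ^ (S.k - 1))) * TX := by positivity
      calc (((S.k + 1).choose (S.k - 1) : ℕ) : ℝ) * (((6 * Cα) ^ (S.k - 1) * (1 / (p : ℝ) ^ (S.k - 1))) * TX)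
          ≤ ((S.k + 1 : ℕ) : ℝ) ^ 2 * (((6 * Cα) ^ (S.k - 1) * (1 / (p : ℝ) ^ (S.k - 1))) * TX) := mul_le_mul_of_nonneg_right g1 g2
        _ = _ := by ring
    refine f3.trans ?_
    rw [← mul_sum]
    have f4 : ∑ p ∈ T.PS.filter (fun p => pb < p), 1 / (p : ℝ) ^ (S.k - 1) ≤ 2 / (pb : ℝ) ^ (S.k - 2) := by
      obtain ⟨j, hj⟩ : ∃ j, S.k = j + 3 := ⟨S.k - 3, by omega⟩
      rw [hj, show j + 3 - 1 = j + 2 by omega, show j + 3 - 2 = j + 1 by omega]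
      refine le_trans ?_ (Q26_tail (y := T.y0 + 1) hpb j)
      refine sum_le_sum_of_subset_of_nonneg ?_ fun n _ _ => by positivity
      intro p hp
      rw [mem_filter] at hp
      have hp1 := hp.1
      unfold Dat.PS at hp1
      rw [mem_filter, mem_range] at hp1
      exact mem_Ioo.2 ⟨hp.2, hp1.1⟩
    calc ((((S.k + 1 : ℕ) : ℝ) ^ 2 * (6 * Cα) ^ (S.k - 1)) * TX) * ∑ p ∈ T.PS.filter (fun p => pb < p), 1 / (p : ℝ) ^ (S.k - 1)
        ≤ ((((S.k + 1 : ℕ) : ℝ) ^ 2 * (6 * Cα) ^ (S.k - 1)) * TX) * (2 / (pb : ℝ) ^ (S.k - 2)) := mul_le_mul_of_nonneg_left f4 (by positivity)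
      _ = _ := by ring
  rw [sum_comm]
  refine (sum_le_sum e3).trans (le_of_eq ?_)
  rw [← sum_mul, Q26_tot, ← hTX]
  have e4 : ∑ ν ∈ S.MY, ∏ x, M.hY (Q26_v ν x) = ∑ g ∈ Fintype.piFinset (Q26_B S.WY S.FY S.OY), ∏ x, M.hY (g x) :=
    Q26_sum S.WY S.FY S.OY (fun g => ∏ x, M.hY (g x))
  rw [e4]
  ring

end Pool.Agent.Lib.TC
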