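import Pool.Agent.Lib.MP_7b7e48_nt.TC.S7G0
import Pool.Agent.Lib.MP_7b7e48_nt.TC.S7F5

/-!
# S7G1: primes dividing `S` which do not divide any `B_l`, `β_l`; window primes

* `G1`: for `μ, ν` with `E μ ν n` for some `n` put `E'`: `cop`, `D ∣ SI`, `P` prime, `P > y0`, `P ∣ SI`, `P ∤ B_l, β_l`. Then `D P ∣ SI` (`(D, P) = 1`: primes of `D` are `≤ y0`), `IsCoprime (D P) (RI 0)` (`cop_RI`,
  `fr_small` for the primes of `D`). `S7F1` with `q = D P`, `Q = D (y0)` (as a natural number `y0 * D`), `cnt_le`, `inv1`.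
* `G1_N`: a prime `p ∣ N`, `p > y0`: it is no mark. `G1_X`: a non-window mark of `X` (`fr_X`). `G1_Yk`: a non-window mark of `Y` of colour `k` (`fr_Y`).
* `G1_WX`, `G1_WY`: `S7F5X`, `S7F5Y`: `2 V/Z 0 ≤ 8 V²/(y0 D)`.
-/

set_option autoImplicit false

open Finset

namespace Pool.Agent.Lib.TC

variable {S : MS} {T : Dat} {M : Msr S} {W0 : ℕ} {δ0 δ1 : ℝ} {Z : ℕ → ℕ} {V : ℝ} {Cd : S.TX → S.TY → ℕ → Prop}

theorem G1 (h : S.H7 T M W0 δ0 δ1 Z V Cd) {c : S.Col} (hc : c ∈ S.CC) {P : S.TX → S.TY → ℕ} (hP : S.Inv P) (E : S.TX → S.TY → ℕ → Prop)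
    (hE : ∀ μ ∈ S.MX, ∀ ν ∈ S.MY, ∀ n, M.Om μ ν n ≠ 0 → E μ ν n → M.Bs T Cd c μ ν n ∧ (P μ ν).Prime ∧ T.y0 < P μ ν ∧ P μ ν ∣ S.SI T.N c μ ν ∧
      (∀ l, ¬ ((P μ ν : ℕ) : ℤ) ∣ S.BI T.N c μ ν l) ∧ ∀ l, ¬ ((P μ ν : ℕ) : ℤ) ∣ aI ν.1 l) : M.cnt E ≤ M.ub T V δ1 := by
  have hg := h.geo
  set E' : S.TX → S.TY → Prop := fun μ ν => ∃ n, M.Om μ ν n ≠ 0 ∧ E μ ν n with hE'
  have h1 := cnt_le h E E' (fun μ hμ ν hν n hO hEn => ⟨(hE μ hμ ν hν n hO hEn).1.1, n, hO, hEn⟩)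
  have h2 := S7F1 hg c (q := fun μ ν => T.D * P μ ν) (fun μ μ' ν ν' e1 e2 => by
      show T.D * P μ ν = T.D * P μ' ν'
      rw [hP μ μ' ν ν' e1 e2])
    (Q := T.y0 * T.D) (Nat.mul_pos hg.y1 hg.D0) E' (by
      rintro μ hμ ν hν ⟨n, hO, hEn⟩
      obtain ⟨hB, hPp, hPy, hPS, hPB, hPb⟩ := hE μ hμ ν hν n hO hEn
      obtain ⟨hcop, hDS, -⟩ := Bs_facts h hc hμ hν hB
      have hcopD : T.D.Coprime (P μ ν) := by
        refine ((Nat.Prime.coprime_iff_not_dvd hPp).mpr fun hd => ?_).symm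
        exact absurd (hg.Dy _ hPp hd) (not_le.mpr hPy)
      refine ⟨hcopD.mul_dvd_of_dvd_of_dvd hDS hPS, ?_, ?_⟩
      · refine cop_RI c (fun p hp hd => ?_) ?_
        · have hpn : p.natAbs.Prime := Int.prime_iff_natAbs_prime.mp hp
          have hd' : p.natAbs ∣ T.D * P μ ν := by
            have := Int.natAbs_dvd_natAbs.mpr hd
            rwa [Int.natAbs_natCast] at this
          rcases (Nat.Prime.dvd_mul hpn).mp hd' with h3 | h3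
          · have hfr := fr_small hg c hμ hν hpn (hg.Dy _ hpn h3)
            refine ⟨fun l hl => hfr.2.1 l (Int.natAbs_dvd.mpr hl), fun l hl => hfr.2.2.2 l (Int.natAbs_dvd.mpr hl)⟩
          · have h4 : p.natAbs = P μ ν := (Nat.prime_dvd_prime_iff_eq hpn hPp).mp h3
            refine ⟨fun l hl => hPB l ?_, fun l hl => hPb l ?_⟩
            · rw [← h4]; exact Int.natAbs_dvd.mpr hl
            · rw [← h4]; exact Int.natAbs_dvd.mpr hl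
        · have := Nat.mul_pos hg.D0 hPp.pos
          exact_mod_cast this.ne'
      · rw [mul_comm]
        exact Nat.mul_le_mul_left _ hPy.le)
  have h3 := inv1 h (i := 0) (Nat.zero_le _)
  have hful : 0 ≤ S.full M.hX M.hY := full_nonneg hg
  have h4 : S.mass M.hX M.hY E' ≤ 8 * V ^ 2 / (T.y0 * T.D) * S.full M.hX M.hY :=
    h2.trans (mul_le_mul_of_nonneg_right h3 hful)
  have h5 := mul_le_mul_of_nonneg_left h4 h.ok.W_pos.le
  unfold Msr.ub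
  have h6 : M.tot = M.W * S.full M.hX M.hY := rfl
  rw [h6]
  have h7 : 8 * V ^ 2 / (T.y0 * T.D) * (M.W * S.full M.hX M.hY) = M.W * (8 * V ^ 2 / (T.y0 * T.D) * S.full M.hX M.hY) := by ring
  rw [h7]
  linarith

theorem G1_N (h : S.H7 T M W0 δ0 δ1 Z V Cd) {c : S.Col} (hc : c ∈ S.CC) {p : ℕ} (hp : p.Prime) (hpN : p ∣ T.N) (hy : T.y0 < p) :
    M.cnt (fun μ ν n => M.Bs T Cd c μ ν n ∧ p ∣ S.SI T.N c μ ν) ≤ M.ub T V δ1 := by
  have hg := h.geo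
  refine G1 h hc (P := fun _ _ => p) (fun _ _ _ _ _ _ => rfl) _ ?_
  rintro μ hμ ν hν n hO ⟨hB, hS⟩
  have hnd : ¬ p ∣ S.prX id μ * S.prY id ν := by
    intro hd
    have hμ' := hμ
    have hν' := hν
    simp only [MS.MX, mem_product, Fintype.mem_piFinset] at hμ'
    simp only [MS.MY, mem_product, Fintype.mem_piFinset] at hν'
    have key : ∀ {q : ℕ}, q.Prime → ¬ q ∣ T.N → ¬ p ∣ q := by
      intro q hq hqN hpq
      have := (Nat.prime_dvd_prime_iff_eq hp hq).mp hpq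
      rw [← this] at hqN
      exact hqN hpN
    rcases (Nat.Prime.dvd_mul hp).mp hd with h1 | h1
    · unfold MS.prX at h1
      rcases (Nat.Prime.dvd_mul hp).mp h1 with h2 | h2
      · rcases (Nat.Prime.dvd_mul hp).mp h2 with h3 | h3
        · obtain ⟨i, _, h4⟩ := (Prime.dvd_finset_prod_iff hp.prime _).mp h3
          have := hg.wx i _ (hμ'.1 i)
          exact key this.1 this.2.2.2 h4
        · obtain ⟨i, _, h4⟩ := (Prime.dvd_finset_prod_iff hp.prime _).mp h3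
          have := hg.fx i _ (hμ'.2.1 i)
          exact key this.1 this.2.2.2 h4
      · obtain ⟨i, _, h4⟩ := (Prime.dvd_finset_prod_iff hp.prime _).mp h2
        have := hg.ox i _ (hμ'.2.2 i)
        exact key this.1 this.2.2.2 h4
    · unfold MS.prY at h1
      rcases (Nat.Prime.dvd_mul hp).mp h1 with h2 | h2
      · rcases (Nat.Prime.dvd_mul hp).mp h2 with h3 | h3
        · obtain ⟨i, _, h4⟩ := (Prime.dvd_finset_prod_iff hp.prime _).mp h3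
          have := hg.wy i _ (hν'.1 i)
          exact key this.1 this.2.2.2 h4
        · obtain ⟨i, _, h4⟩ := (Prime.dvd_finset_prod_iff hp.prime _).mp h3
          have := hg.fy i _ (hν'.2.1 i)
          exact key this.1 this.2.2.2 h4
      · obtain ⟨i, _, h4⟩ := (Prime.dvd_finset_prod_iff hp.prime _).mp h2
        have := hg.oy i _ (hν'.2.2 i)
        exact key this.1 this.2.2.2 h4
  have hfr := fr_of_not_dvd hg c hμ hν hp hnd
  exact ⟨hB, hp, hy, hS, hfr.2.1, hfr.2.2.2⟩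

theorem G1_X (h : S.H7 T M W0 δ0 δ1 Z V Cd) {c : S.Col} (hc : c ∈ S.CC) (e : S.NX) :
    M.cnt (fun μ ν n => M.Bs T Cd c μ ν n ∧ S.vX μ e ∣ S.SI T.N c μ ν) ≤ M.ub T V δ1 := by
  have hg := h.geo
  refine G1 h hc (P := fun μ _ => S.vX μ e) (fun μ μ' _ _ e1 _ => by
    show S.vX μ e = S.vX μ' e
    unfold MS.vX; rw [e1]) _ ?_
  rintro μ hμ ν hν n hO ⟨hB, hS⟩
  obtain ⟨hcop, -⟩ := Bs_facts h hc hμ hν hB
  obtain ⟨h1, h2, _, _, _, _, _, h3, _, h4⟩ := fr_X hg c hμ hν hcop e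
  exact ⟨hB, h1, h2, hS, h3, h4⟩

theorem G1_Yk (h : S.H7 T M W0 δ0 δ1 Z V Cd) {c : S.Col} (hc : c ∈ S.CC) (e : S.NY) :
    M.cnt (fun μ ν n => M.Bs T Cd c μ ν n ∧ S.vY ν e ∣ S.SI T.N c μ ν ∧ S.lY T.N c μ ν e = S.k) ≤ M.ub T V δ1 := by
  have hg := h.geo
  refine G1 h hc (P := fun _ ν => S.vY ν e) (fun _ _ ν ν' _ e2 => by
    show S.vY ν e = S.vY ν' e
    unfold MS.vY; rw [e2]) _ ?_
  rintro μ hμ ν hν n hO ⟨hB, hS, hk⟩
  obtain ⟨hcop, -⟩ := Bs_facts h hc hμ hν hB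
  obtain ⟨h1, h2, _, _, _, _, h3, _, _, h4⟩ := fr_Y hg c hμ hν hcop e
  refine ⟨hB, h1, h2, hS, fun l => ?_, h4⟩
  by_cases hl : l = S.k
  · subst hl
    unfold MS.BI
    rw [if_neg (lt_irrefl _)]
    intro hd
    have := Int.natAbs_dvd_natAbs.mpr hd
    rw [Int.natAbs_natCast] at this
    exact h1.one_lt.ne' (Nat.dvd_one.mp this)
  · exact h3 l (by rw [hk]; exact hl)

theorem G1_WX (h : S.H7 T M W0 δ0 δ1 Z V Cd) {c : S.Col} (hc : c ∈ S.CC) (j : Fin (S.k + 1)) :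
    M.cnt (fun μ ν n => M.Bs T Cd c μ ν n ∧ μ.1 j ∣ S.SI T.N c μ ν) ≤ M.ub T V δ1 := by
  have hg := h.geo
  set E' : S.TX → S.TY → Prop := fun μ ν => S.cop μ ν ∧ μ.1 j ∣ S.SI T.N c μ ν with hE'
  have h1 := cnt_le h (fun μ ν n => M.Bs T Cd c μ ν n ∧ μ.1 j ∣ S.SI T.N c μ ν) E' (by
    rintro μ hμ ν hν n hO ⟨hB, hS⟩
    exact ⟨hB.1, (Bs_facts h hc hμ hν hB).1, hS⟩)
  have h2 := S7F5X hg c j E' (fun μ _ ν _ hE => hE)
  obtain ⟨hz, h3⟩ := inv0 h (i := 0) (Nat.zero_le _)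
  have hV := hg.V1
  have hful : 0 ≤ S.full M.hX M.hY := full_nonneg hg
  have h4 : 2 * V / Z 0 ≤ 8 * V ^ 2 / ((T.y0 : ℝ) * T.D) := by
    have e1 : 2 * V / (Z 0 : ℝ) = 2 * V * (1 / Z 0) := by ring
    have e2 : 8 * V ^ 2 / ((T.y0 : ℝ) * T.D) = 8 * V ^ 2 * (1 / (T.y0 * T.D)) := by ring
    rw [e1, e2]
    exact mul_le_mul (by nlinarith) h3 (by positivity) (by positivity)
  have h5 := mul_le_mul_of_nonneg_left (h2.trans (mul_le_mul_of_nonneg_right h4 hful)) h.ok.W_pos.le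
  unfold Msr.ub
  have h6 : M.tot = M.W * S.full M.hX M.hY := rfl
  rw [h6]
  have h7 : 8 * V ^ 2 / (T.y0 * T.D) * (M.W * S.full M.hX M.hY) = M.W * (8 * V ^ 2 / (T.y0 * T.D) * S.full M.hX M.hY) := by ring
  rw [h7]
  linarith

theorem G1_WY (h : S.H7 T M W0 δ0 δ1 Z V Cd) {c : S.Col} (hc : c ∈ S.CC) (j : Fin (S.k + 1)) :
    M.cnt (fun μ ν n => M.Bs T Cd c μ ν n ∧ ν.1 j ∣ S.SI T.N c μ ν) ≤ M.ub T V δ1 := by
  have hg := h.geo
  set E' : S.TX → S.TY → Prop := fun μ ν => S.cop μ ν ∧ ν.1 j ∣ S.SI T.N c μ ν with hE'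
  have h1 := cnt_le h (fun μ ν n => M.Bs T Cd c μ ν n ∧ ν.1 j ∣ S.SI T.N c μ ν) E' (by
    rintro μ hμ ν hν n hO ⟨hB, hS⟩
    exact ⟨hB.1, (Bs_facts h hc hμ hν hB).1, hS⟩)
  have h2 := S7F5Y hg c j E' (fun μ _ ν _ hE => hE)
  obtain ⟨hz, h3⟩ := inv0 h (i := 0) (Nat.zero_le _)
  have hV := hg.V1
  have hful : 0 ≤ S.full M.hX M.hY := full_nonneg hg
  have h4 : 2 * V / Z 0 ≤ 8 * V ^ 2 / ((T.y0 : ℝ) * T.D) := by
    have e1 : 2 * V / (Z 0 : ℝ) = 2 * V * (1 / Z 0) := by ring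
    have e2 : 8 * V ^ 2 / ((T.y0 : ℝ) * T.D) = 8 * V ^ 2 * (1 / (T.y0 * T.D)) := by ring
    rw [e1, e2]
    exact mul_le_mul (by nlinarith) h3 (by positivity) (by positivity)
  have h5 := mul_le_mul_of_nonneg_left (h2.trans (mul_le_mul_of_nonneg_right h4 hful)) h.ok.W_pos.le
  unfold Msr.ub
  have h6 : M.tot = M.W * S.full M.hX M.hY := rfl
  rw [h6]
  have h7 : 8 * V ^ 2 / (T.y0 * T.D) * (M.W * S.full M.hX M.hY) = M.W * (8 * V ^ 2 / (T.y0 * T.D) * S.full M.hX M.hY) := by ring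
  rw [h7]
  linarith

end Pool.Agent.Lib.TC
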