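import Pool.Agent.Lib.MP_7b7e48_nt.TC.S7D1
import Pool.Agent.Lib.MP_7b7e48_nt.TC.S7D2
import Pool.Agent.Lib.MP_7b7e48_nt.TC.L5

/-!
# S7T: the integer forms and the unit forms

`S7T0` (any commutative ring, `a, b, A, B` units, `x_l = a_{l+1} A_l/(b_l B_l)` for `l + 1 < n`, `p_j = ∏_{l<j} x_l = pk x j`): `a_0 (∏_{l<j} b_l B_l) p_j = a_j ∏_{l<j} a_l A_l` (induction on `j`).
* `SmR n = a_0 Rs n 0 * Sg n a b p`: induction on `n` (`SmR_congr`-like); or: `(a_j - b_j) ∏_{l<j} a_l A_l ∏_{j<l<n} b_l B_{l-1} = a_j b_j (1/b_j - 1/a_j) …` and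
  `b_j (∏_{l<j} b_l B_l) ∏_{j<l<n} b_l B_{l-1} = Rs n 0`.
* `Us i Rs i = a_0 Rs n 0 * Mi a b p i` (`i < n`): `∏_{l<i} a_l A_l Rs i = a_0 (p_i/a_i) Rs n 0`, `B_{i-1} SmR i Rs i = a_0 Rs n 0 ∑_{j<i} p_j η_j`
  (`SmR i = a_0 Rs i 0 Sg i`, `B_{i-1} Rs i 0 Rs n i = Rs n 0`).
* so `Ff = a_0 Rs n 0 * Ti`.
`S7T`: reduce `FI` modulo `p` (`p` prime to all marks, so all residues are units, `fr_of_not_dvd`; `S.pq` is `pk` of the slot values: PDefs `pj`, `yy`, `fr`; see L5_pk of L5.lean, which may be cited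
when it is on main: `xs l = α_{l+1} AA_l/(β_l BB_l)`), `a_0 Rs n 0` is a unit.
-/

set_option autoImplicit false

open Finset

namespace Pool.Agent.Lib.TC

section
variable {R : Type*} [CommRing R]

/-- `a_0 (∏_{l<j} b_l B_l) p_j = a_j ∏_{l<j} a_l A_l` -/
private theorem S7T_key (a b A B x : ℕ → Rˣ) (j : ℕ)
    (hx : ∀ i < j, x i = a (i + 1) * A i * (b i)⁻¹ * (B i)⁻¹) :
    (a 0 : R) * (∏ l ∈ range j, (b l : R) * (B l : R)) * (Loc.pk x j : R) =
      (a j : R) * ∏ l ∈ range j, (a l : R) * (A l : R) := by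
  induction j with
  | zero => rw [Loc.pk_zero, prod_range_zero, prod_range_zero]; simp
  | succ j ih =>
    have ih' := ih fun i hi => hx i (by omega)
    rw [Loc.pk_succ, hx j (by omega), prod_range_succ, prod_range_succ]
    push_cast
    have hb : (b j : R) * (((b j)⁻¹ : Rˣ) : R) = 1 := Units.mul_inv _
    have hB : (B j : R) * (((B j)⁻¹ : Rˣ) : R) = 1 := Units.mul_inv _
    set bi : R := (((b j)⁻¹ : Rˣ) : R)
    set Bi : R := (((B j)⁻¹ : Rˣ) : R)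
    set P : R := ∏ l ∈ range j, (b l : R) * (B l : R)
    set Q : R := ∏ l ∈ range j, (a l : R) * (A l : R)
    linear_combination ((a (j + 1) : R) * (A j : R) * ((b j : R) * bi) * ((B j : R) * Bi)) * ih' +
      ((a j : R) * Q * (a (j + 1) : R) * (A j : R) * ((B j : R) * Bi)) * hb +
      ((a j : R) * Q * (a (j + 1) : R) * (A j : R)) * hB

private theorem S7T_Rs_succ {n : ℕ} (hn : 1 ≤ n) (B b : ℕ → R) :
    Rs (n + 1) B b 0 = Rs n B b 0 * (b n * B (n - 1)) := by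
  rw [Rs, Rs, Finset.prod_Ico_succ_top (show 0 + 1 ≤ n by omega)]
  ring

private theorem S7T_Rs_B {n : ℕ} (hn : 1 ≤ n) (B b : ℕ → R) :
    Rs n B b 0 * B (n - 1) = ∏ l ∈ range n, b l * B l := by
  induction n, hn using Nat.le_induction with
  | base => simp [Rs]
  | succ n hn ih =>
    rw [S7T_Rs_succ hn, prod_range_succ, ← ih, Nat.add_sub_cancel]
    ring

private theorem S7T_RR {n i : ℕ} (h0 : 1 ≤ i) (hi : i < n) (B b : ℕ → R) :
    Rs i B b 0 * B (i - 1) * Rs n B b i = Rs n B b 0 := by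
  have h1 : ∏ l ∈ Ico (0 + 1) n, b l * B (l - 1) =
      (∏ l ∈ Ico (0 + 1) i, b l * B (l - 1)) * (b i * B (i - 1) * ∏ l ∈ Ico (i + 1) n, b l * B (l - 1)) := by
    rw [← Finset.prod_eq_prod_Ico_succ_bot hi (fun l => b l * B (l - 1)),
      Finset.prod_Ico_consecutive _ (by omega) hi.le]
  rw [Rs, Rs, Rs, h1]
  ring

end

theorem S7T_S {R : Type*} [CommRing R] {n : ℕ} (hn : 1 ≤ n) (a b A B x : ℕ → Rˣ)
    (hx : ∀ i, i + 1 < n → x i = a (i + 1) * A i * (b i)⁻¹ * (B i)⁻¹) :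
    SmR (fun i => (A i : R)) (fun i => (B i : R)) (fun i => (a i : R)) (fun i => (b i : R)) n =
      (a 0 : R) * Rs n (fun i => (B i : R)) (fun i => (b i : R)) 0 * Loc.Sg n a b (Loc.pk x) := by
  induction n, hn using Nat.le_induction with
  | base =>
    simp only [SmR, Rs, Loc.Sg, Loc.et, Loc.pk_zero, prod_range_zero, Finset.sum_range_one]
    have ha : (a 0 : R) * (((a 0)⁻¹ : Rˣ) : R) = 1 := Units.mul_inv _
    have hb : (b 0 : R) * (((b 0)⁻¹ : Rˣ) : R) = 1 := Units.mul_inv _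
    rw [show Ico (0 + 1) 1 = (∅ : Finset ℕ) by simp, prod_empty]
    push_cast
    linear_combination (-(a 0 : R)) * hb + (b 0 : R) * ha
  | succ n hn ih =>
    have ih' := ih fun i hi => hx i (by omega)
    have hk := S7T_key a b A B x n fun i hi => hx i (by omega)
    have hR := S7T_Rs_B hn (fun i => (B i : R)) (fun i => (b i : R))
    have hS : Loc.Sg (n + 1) a b (Loc.pk x) = Loc.Sg n a b (Loc.pk x) +
        (Loc.pk x n : R) * ((((b n)⁻¹ : Rˣ) : R) - (((a n)⁻¹ : Rˣ) : R)) := by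
      rw [Loc.Sg, Loc.Sg, sum_range_succ]
      rfl
    rw [SmR, ih', S7T_Rs_succ hn, hS]
    have ha : (a n : R) * (((a n)⁻¹ : Rˣ) : R) = 1 := Units.mul_inv _
    have hb : (b n : R) * (((b n)⁻¹ : Rˣ) : R) = 1 := Units.mul_inv _
    rw [← hR] at hk
    set bi : R := (((b n)⁻¹ : Rˣ) : R)
    set ai : R := (((a n)⁻¹ : Rˣ) : R)
    set Rn : R := Rs n (fun i => (B i : R)) (fun i => (b i : R)) 0
    set Q : R := ∏ l ∈ range n, (a l : R) * (A l : R)
    linear_combination (-((b n : R) * (bi - ai))) * hk - ((a n : R) * Q) * hb + (b n : R) * Q * ha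

theorem S7T_U {R : Type*} [CommRing R] {n i : ℕ} (hi : i < n) (a b A B x : ℕ → Rˣ)
    (hx : ∀ i, i + 1 < n → x i = a (i + 1) * A i * (b i)⁻¹ * (B i)⁻¹) :
    Us (fun i => (A i : R)) (fun i => (B i : R)) (fun i => (a i : R)) (fun i => (b i : R)) i * Rs n (fun i => (B i : R)) (fun i => (b i : R)) i =
      (a 0 : R) * Rs n (fun i => (B i : R)) (fun i => (b i : R)) 0 * Loc.Mi a b (Loc.pk x) i := by
  have hk := S7T_key a b A B x i fun j hj => hx j (by omega)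
  have ha : (a i : R) * (((a i)⁻¹ : Rˣ) : R) = 1 := Units.mul_inv _
  rcases Nat.eq_zero_or_pos i with h0 | h0
  · subst h0
    simp only [Us, SmR, Loc.Mi, Loc.pk_zero, prod_range_zero, Finset.sum_range_zero]
    push_cast
    linear_combination (-(Rs n (fun i => (B i : R)) (fun i => (b i : R)) 0)) * ha
  · have hS := S7T_S h0 a b A B x fun j hj => hx j (by omega)
    have hR := S7T_Rs_B h0 (fun i => (B i : R)) (fun i => (b i : R))
    have hRR := S7T_RR h0 hi (fun i => (B i : R)) (fun i => (b i : R))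
    have hM : Loc.Mi a b (Loc.pk x) i = (Loc.pk x i : R) * (((a i)⁻¹ : Rˣ) : R) - Loc.Sg i a b (Loc.pk x) := rfl
    rw [Us, hS, hM, ← hRR]
    rw [← hR] at hk
    set ai : R := (((a i)⁻¹ : Rˣ) : R)
    set Ri : R := Rs i (fun i => (B i : R)) (fun i => (b i : R)) 0
    set Rn : R := Rs n (fun i => (B i : R)) (fun i => (b i : R)) i
    set Q : R := ∏ l ∈ range i, (a l : R) * (A l : R)
    linear_combination (-(ai * Rn)) * hk - Q * Rn * ha

variable {S : MS} {T : Dat} {Z : ℕ → ℕ} {hX hY : ℕ → ℝ} {V : ℝ}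

private theorem S7T_copM {μ : S.TX} {ν : S.TY} {p : ℕ} (hp : p.Prime)
    (hp1 : ¬ p ∣ S.prX id μ * S.prY id ν) : S.CopM p μ ν := by
  have hx : ∀ m : ℕ, m ∣ S.prX id μ → m.Coprime p := by
    intro m hm
    rw [Nat.coprime_comm, hp.coprime_iff_not_dvd]
    intro h
    exact hp1 (Dvd.dvd.mul_right (h.trans hm) _)
  have hy : ∀ m : ℕ, m ∣ S.prY id ν → m.Coprime p := by
    intro m hm
    rw [Nat.coprime_comm, hp.coprime_iff_not_dvd]
    intro h
    exact hp1 (Dvd.dvd.mul_left (h.trans hm) _)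
  have hX : S.prX id μ = (∏ i, μ.1 i) * (∏ f, μ.2.1 f) * ∏ e, μ.2.2 e := rfl
  have hY : S.prY id ν = (∏ i, ν.1 i) * (∏ f, ν.2.1 f) * ∏ e, ν.2.2 e := rfl
  refine ⟨fun i => ⟨hx _ ?_, hy _ ?_⟩, fun f => ⟨hx _ ?_, hy _ ?_⟩, fun e => hx _ ?_, fun e => hy _ ?_⟩
  · rw [hX]
    exact Dvd.dvd.mul_right (Dvd.dvd.mul_right (Finset.dvd_prod_of_mem _ (mem_univ i)) _) _
  · rw [hY]
    exact Dvd.dvd.mul_right (Dvd.dvd.mul_right (Finset.dvd_prod_of_mem _ (mem_univ i)) _) _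
  · rw [hX]
    exact Dvd.dvd.mul_right (Dvd.dvd.mul_left (Finset.dvd_prod_of_mem _ (mem_univ f)) _) _
  · rw [hY]
    exact Dvd.dvd.mul_right (Dvd.dvd.mul_left (Finset.dvd_prod_of_mem _ (mem_univ f)) _) _
  · rw [hX]
    exact Dvd.dvd.mul_left (Finset.dvd_prod_of_mem _ (mem_univ e)) _
  · rw [hY]
    exact Dvd.dvd.mul_left (Finset.dvd_prod_of_mem _ (mem_univ e)) _

private theorem S7T_SmR_cast {p : ℕ} (A B a b : ℕ → ℤ) (n : ℕ) :
    ((SmR A B a b n : ℤ) : ZMod p) = SmR (fun i => ((A i : ℤ) : ZMod p)) (fun i => ((B i : ℤ) : ZMod p))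
      (fun i => ((a i : ℤ) : ZMod p)) (fun i => ((b i : ℤ) : ZMod p)) n := by
  induction n with
  | zero => simp [SmR]
  | succ n ih =>
    rw [SmR, SmR]
    push_cast
    rw [ih]

private theorem S7T_Ff_cast {p : ℕ} (n : ℕ) (A B a b : ℕ → ℤ) (DN Y : ℤ) (i : ℕ) :
    ((Ff n A B a b DN Y i : ℤ) : ZMod p) = Ff n (fun i => ((A i : ℤ) : ZMod p)) (fun i => ((B i : ℤ) : ZMod p))
      (fun i => ((a i : ℤ) : ZMod p)) (fun i => ((b i : ℤ) : ZMod p)) (DN : ZMod p) (Y : ZMod p) i := by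
  rw [Ff, Ff, Us, Us, Rs, Rs]
  push_cast
  rw [S7T_SmR_cast, S7T_SmR_cast]

theorem S7T (hG : S.Geo T Z hX hY V) (c : S.Col) {μ : S.TX} {ν : S.TY} (hμ : μ ∈ S.MX) (hν : ν ∈ S.MY) {p : ℕ} (hp : p.Prime)
    (hp1 : ¬ p ∣ S.prX id μ * S.prY id ν) (X : ℤ) : S.hit T c μ ν X p ↔ ∃ i ≤ S.k, (p : ℤ) ∣ S.FI T c μ ν (X - T.D * T.N) i := by
  classical
  have hM : S.CopM p μ ν := S7T_copM hp hp1
  haveI : Fact p.Prime := ⟨hp⟩
  set uA : ℕ → (ZMod p)ˣ := fun l => if l < S.k then toU p (S.AA T.N c μ ν 0 l) else 1 with huA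
  set uB : ℕ → (ZMod p)ˣ := fun l => if l < S.k then toU p (S.BB T.N c μ ν 0 l) else 1 with huB
  have hA : (fun l => ((S.AI T.N c μ ν l : ℤ) : ZMod p)) = fun l => ((uA l : (ZMod p)ˣ) : ZMod p) := by
    funext l
    rw [huA, MS.AI]
    simp only
    split_ifs with h
    · rw [L0_val (L5_cop S hM 0 0 h).1]
      push_cast
      rfl
    · simp
  have hB : (fun l => ((S.BI T.N c μ ν l : ℤ) : ZMod p)) = fun l => ((uB l : (ZMod p)ˣ) : ZMod p) := by
    funext l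
    rw [huB, MS.BI]
    simp only
    split_ifs with h
    · rw [L0_val (L5_cop S hM 0 0 h).2]
      push_cast
      rfl
    · simp
  have hext : ∀ α : Fin (S.k + 1) → ℕ, (∀ i, (α i).Coprime p) →
      (fun l => ((aI α l : ℤ) : ZMod p)) = fun l => ((aq p α l : (ZMod p)ˣ) : ZMod p) := by
    intro α hα
    funext l
    unfold aI ext1 aq
    by_cases h : l < S.k + 1
    · rw [dif_pos h, Loc.ex_lt _ h]
      unfold rs
      rw [L0_val (hα _)]
      push_cast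
      rfl
    · rw [dif_neg h, Loc.ex_ge _ (by omega)]
      simp
  have ha := hext μ.1 fun i => (hM.1 i).1
  have hb := hext ν.1 fun i => (hM.1 i).2
  have hx : ∀ i, i + 1 < S.k + 1 → S.xs T.N p c μ ν i =
      aq p μ.1 (i + 1) * uA i * (aq p ν.1 i)⁻¹ * (uB i)⁻¹ := by
    intro i hi
    have hi' : i < S.k := by omega
    rw [huA, huB]
    simp only
    rw [if_pos hi', if_pos hi']
    rfl
  have hS := S7T_S (n := S.k + 1) (by omega) (aq p μ.1) (aq p ν.1) uA uB (S.xs T.N p c μ ν) hx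
  have hSg : Loc.Sg (S.k + 1) (aq p μ.1) (aq p ν.1) (Loc.pk (S.xs T.N p c μ ν)) =
      Loc.Sg (S.k + 1) (aq p μ.1) (aq p ν.1) (S.pq T.N p c μ ν) :=
    Loc.Sg_congr (fun _ _ => rfl) (fun _ _ => rfl) fun j hj => (L5_pk S hM (by omega)).symm
  -- the unit
  set R0 : ZMod p := Rs (S.k + 1) (fun i => ((uB i : (ZMod p)ˣ) : ZMod p)) (fun i => ((aq p ν.1 i : (ZMod p)ˣ) : ZMod p)) 0
    with hR0
  have hunit : IsUnit (((aq p μ.1 0 : (ZMod p)ˣ) : ZMod p) * R0) := by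
    refine (Units.isUnit _).mul ?_
    rw [hR0, Rs]
    refine (Units.isUnit _).mul ?_
    refine Finset.prod_induction _ IsUnit (fun _ _ h1 h2 => h1.mul h2) isUnit_one fun l _ => ?_
    exact (Units.isUnit _).mul (Units.isUnit _)
  have hmain : ∀ i ≤ S.k, ((S.FI T c μ ν (X - T.D * T.N) i : ℤ) : ZMod p) =
      ((aq p μ.1 0 : (ZMod p)ˣ) : ZMod p) * R0 *
        Loc.Ti (S.k + 1) (aq p μ.1) (aq p ν.1) (S.pq T.N p c μ ν) ((T.D : ZMod p) * T.N) ((X : ZMod p) - T.D * T.N) i := by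
    intro i hi
    have hU := S7T_U (n := S.k + 1) (i := i) (by omega) (aq p μ.1) (aq p ν.1) uA uB (S.xs T.N p c μ ν) hx
    have hMi : Loc.Mi (aq p μ.1) (aq p ν.1) (Loc.pk (S.xs T.N p c μ ν)) i =
        Loc.Mi (aq p μ.1) (aq p ν.1) (S.pq T.N p c μ ν) i :=
      Loc.Mi_congr (fun _ _ => rfl) (fun _ _ => rfl) fun j hj => (L5_pk S hM (by omega)).symm
    rw [MS.FI, S7T_Ff_cast, hA, hB, ha, hb, Ff, hU, hS, hSg, hMi, Loc.Ti]
    push_cast
    ring
  unfold MS.hit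
  constructor
  · rintro ⟨i, hi, h⟩
    refine ⟨i, hi, ?_⟩
    rw [← ZMod.intCast_zmod_eq_zero_iff_dvd, hmain i hi, h, mul_zero]
  · rintro ⟨i, hi, h⟩
    refine ⟨i, hi, ?_⟩
    rw [← ZMod.intCast_zmod_eq_zero_iff_dvd, hmain i hi] at h
    exact (hunit.mul_right_eq_zero).mp h

end Pool.Agent.Lib.TC
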