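import Pool.Agent.Lib.MP_7b7e48_nt.TC.S7A

/-!
# S7B4: positivity, sizes, the cast of `Sm`

* `Sm_cast`: induction on `n` (`Nat.cast_sub`).
* `Hs_nonneg`, `G_pos`: all terms are nonnegative.
* `F_pos`: `Ff n DN (-DN) i = DN (Us i Rs i + SmR n) = DN (∏_{l<i} a_l A_l) a_i Gs i` (`U_G`), positive.
* `F_le`: if `1 ≤ a, b, A, B ≤ L` (`L ≥ 1`), `n ≥ 1`: `|SmR n| ≤ n L^(2n+2)` (`0 ≤ a - b ≤ L`, at most `2n` further factors), `|Us i| ≤ L^(2n) + L (n L^(2n+2))`,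
  `|Rs i| ≤ L^(2n)`: everything together `≤ (|DN| + |Y|) 4 n L^(4n+4)`.
-/

set_option autoImplicit false

open Finset

namespace Pool.Agent.Lib.TC

theorem Sm_cast {n : ℕ} {A B a b : ℕ → ℕ} (h : ∀ i < n, b i ≤ a i) :
    ((Sm A B a b n : ℕ) : ℤ) = SmR (fun i => (A i : ℤ)) (fun i => (B i : ℤ)) (fun i => (a i : ℤ)) (fun i => (b i : ℤ)) n := by
  induction n with
  | zero => simp [Sm, SmR]
  | succ n ih =>
    rw [Sm, SmR, ← ih (fun i hi => h i (by omega)), Nat.cast_add, Nat.cast_mul, Nat.cast_mul, Nat.cast_mul,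
      Nat.cast_sub (h n (by omega)), Nat.cast_prod]
    simp only [Nat.cast_mul]

/-- `SmR n` depends only on `A_l`, `B_l` with `l + 1 < n` and on `a_l`, `b_l` with `l < n` -/
theorem SmR_congr {R : Type*} [CommRing R] {n : ℕ} {A B a b A' B' a' b' : ℕ → R} (hA : ∀ l, l + 1 < n → A l = A' l)
    (hB : ∀ l, l + 1 < n → B l = B' l) (ha : ∀ l < n, a l = a' l) (hb : ∀ l < n, b l = b' l) : SmR A B a b n = SmR A' B' a' b' n := by
  induction n with
  | zero => rfl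
  | succ n ih =>
    rw [SmR, SmR, ih (fun l hl => hA l (by omega)) (fun l hl => hB l (by omega)) (fun l hl => ha l (by omega))
      (fun l hl => hb l (by omega)), ha n (by omega), hb n (by omega)]
    have h1 : ∏ l ∈ range n, a l * A l = ∏ l ∈ range n, a' l * A' l := by
      apply prod_congr rfl
      intro l hl
      rw [mem_range] at hl
      rw [ha l (by omega), hA l (by omega)]
    rw [h1]
    rcases Nat.eq_zero_or_pos n with h0 | h0
    · subst h0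
      rw [SmR, zero_mul, zero_mul]
    · rw [hB (n - 1) (by omega)]

theorem Hs_nonneg {n : ℕ} {A B a b : ℕ → ℤ} (hA : ∀ i, 0 < A i) (hB : ∀ i, 0 < B i) (ha : ∀ i, 0 < a i) (hb : ∀ i, 0 < b i)
    (hab : ∀ i < n, b i < a i) (i : ℕ) : 0 ≤ Hs n A B a b i := by
  rw [Hs]
  apply sum_nonneg
  intro j hj
  rw [mem_Ico] at hj
  have h1 : 0 < a j - b j := by
    have := hab j hj.2
    omega
  have h2 : 0 < ∏ l ∈ Ico i j, a l * A l := prod_pos fun l _ => mul_pos (ha l) (hA l)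
  have h3 : 0 < ∏ l ∈ Ico (j + 1) n, b l * B (l - 1) := prod_pos fun l _ => mul_pos (hb l) (hB _)
  positivity

theorem F_pos {n i : ℕ} (hi : i < n) {A B a b : ℕ → ℤ} (hA : ∀ i, 0 < A i) (hB : ∀ i, 0 < B i) (ha : ∀ i, 0 < a i)
    (hb : ∀ i, 0 < b i) (hab : ∀ i < n, b i < a i) {DN : ℤ} (hD : 0 < DN) : 0 < Ff n A B a b DN (-DN) i := by
  have h1 : Ff n A B a b DN (-DN) i = DN * ((∏ l ∈ range i, a l * A l) * (a i * Gs n A B a b i)) := by
    rw [← U_G A B a b hi, Ff]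
    ring
  rw [h1]
  have h2 : 0 < ∏ l ∈ range i, a l * A l := prod_pos fun l _ => mul_pos (ha l) (hA l)
  have h3 : 0 < ∏ l ∈ Ico (i + 1) n, b l * B (l - 1) := prod_pos fun l _ => mul_pos (hb l) (hB _)
  have h4 : 0 ≤ Hs n A B a b (i + 1) := Hs_nonneg hA hB ha hb hab _
  have h5 : 0 < Gs n A B a b i := by
    rw [Gs]
    have := mul_nonneg (hA i).le h4
    linarith
  exact mul_pos hD (mul_pos h2 (mul_pos (ha i) h5))

private theorem S7B4_prod (s : Finset ℕ) (f : ℕ → ℤ) {M : ℤ} (h : ∀ l ∈ s, 0 ≤ f l ∧ f l ≤ M) :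
    0 ≤ ∏ l ∈ s, f l ∧ ∏ l ∈ s, f l ≤ M ^ s.card := by
  refine ⟨prod_nonneg fun l hl => (h l hl).1, ?_⟩
  rw [← prod_const]
  exact prod_le_prod (fun l hl => (h l hl).1) fun l hl => (h l hl).2

private theorem S7B4_Sm {n : ℕ} {A B a b : ℕ → ℤ} {L : ℤ} (hA : ∀ i, 1 ≤ A i ∧ A i ≤ L) (hB : ∀ i, 1 ≤ B i ∧ B i ≤ L)
    (ha : ∀ i, 1 ≤ a i ∧ a i ≤ L) (hb : ∀ i, 1 ≤ b i ∧ b i ≤ L) (hab : ∀ i < n, b i < a i) :
    0 ≤ SmR A B a b n ∧ SmR A B a b n ≤ n * L ^ (2 * n) := by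
  have hL : 1 ≤ L := (hA 0).1.trans (hA 0).2
  have hL0 : 0 < L := by omega
  induction n with
  | zero => simp [SmR]
  | succ n ih =>
    obtain ⟨h0, h1⟩ := ih fun i hi => hab i (by omega)
    have h2 := S7B4_prod (range n) (fun l => a l * A l) (M := L ^ 2) (fun l _ =>
      ⟨mul_nonneg (by have := (ha l).1; omega) (by have := (hA l).1; omega), by
        rw [sq]
        exact mul_le_mul (ha l).2 (hA l).2 (by have := (hA l).1; omega) hL0.le⟩)
    rw [card_range, ← pow_mul] at h2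
    have h3 : b n * B (n - 1) ≤ L ^ 2 := by
      rw [sq]
      exact mul_le_mul (hb n).2 (hB _).2 (by have := (hB (n - 1)).1; omega) hL0.le
    have h4 : 0 ≤ b n * B (n - 1) := mul_nonneg (by have := (hb n).1; omega) (by have := (hB (n - 1)).1; omega)
    have h5 : 0 ≤ a n - b n := by
      have := hab n (by omega)
      omega
    have h6 : a n - b n ≤ L := by
      have := (hb n).1
      have := (ha n).2
      omega
    rw [SmR]
    refine ⟨add_nonneg (mul_nonneg h0 h4) (mul_nonneg h5 h2.1), ?_⟩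
    have h7 : SmR A B a b n * (b n * B (n - 1)) ≤ (n * L ^ (2 * n)) * L ^ 2 :=
      mul_le_mul h1 h3 h4 (by positivity)
    have h8 : (a n - b n) * ∏ l ∈ range n, a l * A l ≤ L * L ^ (2 * n) :=
      mul_le_mul h6 h2.2 h2.1 hL0.le
    have h9 : L * L ^ (2 * n) ≤ L ^ 2 * L ^ (2 * n) := by
      apply mul_le_mul_of_nonneg_right _ (by positivity)
      nlinarith
    calc SmR A B a b n * (b n * B (n - 1)) + (a n - b n) * ∏ l ∈ range n, a l * A l
        ≤ (n * L ^ (2 * n)) * L ^ 2 + L ^ 2 * L ^ (2 * n) := add_le_add h7 (h8.trans h9)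
      _ = ((n + 1 : ℕ) : ℤ) * L ^ (2 * (n + 1)) := by
        push_cast
        ring

theorem F_le {n i : ℕ} (hi : i < n) {A B a b : ℕ → ℤ} {L : ℤ} (hA : ∀ i, 1 ≤ A i ∧ A i ≤ L) (hB : ∀ i, 1 ≤ B i ∧ B i ≤ L)
    (ha : ∀ i, 1 ≤ a i ∧ a i ≤ L) (hb : ∀ i, 1 ≤ b i ∧ b i ≤ L) (hab : ∀ i < n, b i < a i) (DN Y : ℤ) :
    |Ff n A B a b DN Y i| ≤ (|DN| + |Y|) * (4 * n * L ^ (4 * n + 4)) := by
  have hL : 1 ≤ L := (hA 0).1.trans (hA 0).2
  have hL0 : 0 < L := by omega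
  have hn : (1 : ℤ) ≤ n := by exact_mod_cast (by omega : 1 ≤ n)
  have hin : (i : ℤ) ≤ n := by exact_mod_cast hi.le
  have hpw : ∀ {x y : ℕ}, x ≤ y → L ^ x ≤ L ^ y := fun h => pow_le_pow_right₀ hL h
  obtain ⟨s0, s1⟩ := S7B4_Sm hA hB ha hb hab
  obtain ⟨t0, t1⟩ := S7B4_Sm (n := i) hA hB ha hb (fun j hj => hab j (by omega))
  have p1 := S7B4_prod (range i) (fun l => a l * A l) (M := L ^ 2) (fun l _ =>
      ⟨mul_nonneg (by have := (ha l).1; omega) (by have := (hA l).1; omega), by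
        rw [sq]
        exact mul_le_mul (ha l).2 (hA l).2 (by have := (hA l).1; omega) hL0.le⟩)
  rw [card_range, ← pow_mul] at p1
  have p2 := S7B4_prod (Ico (i + 1) n) (fun l => b l * B (l - 1)) (M := L ^ 2) (fun l _ =>
      ⟨mul_nonneg (by have := (hb l).1; omega) (by have := (hB (l - 1)).1; omega), by
        rw [sq]
        exact mul_le_mul (hb l).2 (hB _).2 (by have := (hB (l - 1)).1; omega) hL0.le⟩)
  rw [Nat.card_Ico, ← pow_mul] at p2
  -- `Us`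
  have u1 : |Us A B a b i| ≤ 2 * n * L ^ (2 * n + 1) := by
    rw [Us]
    have e1 : (∏ l ∈ range i, a l * A l) ≤ L ^ (2 * n + 1) := p1.2.trans (hpw (by omega))
    have e2 : B (i - 1) * SmR A B a b i ≤ L * (n * L ^ (2 * n)) := by
      apply mul_le_mul (hB _).2 _ t0 hL0.le
      refine t1.trans (mul_le_mul hin (hpw (by omega)) (by positivity) (by positivity))
    have e3 : 0 ≤ B (i - 1) * SmR A B a b i := mul_nonneg (by have := (hB (i - 1)).1; omega) t0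
    have e4 : L * (n * L ^ (2 * n)) = n * L ^ (2 * n + 1) := by ring
    have e5 : L ^ (2 * n + 1) ≤ n * L ^ (2 * n + 1) := by
      have : 0 ≤ L ^ (2 * n + 1) := by positivity
      nlinarith
    rw [abs_le]
    constructor <;> linarith [p1.1]
  -- `Rs`
  have r0 : 0 ≤ Rs n B b i := mul_nonneg (by have := (hb i).1; omega) p2.1
  have r1 : Rs n B b i ≤ L ^ (2 * n) := by
    have e1 : Rs n B b i ≤ L * L ^ (2 * (n - (i + 1))) := mul_le_mul (hb i).2 p2.2 p2.1 hL0.le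
    refine e1.trans ?_
    rw [← pow_succ']
    exact hpw (by omega)
  have k1 : |Us A B a b i * Rs n B b i| ≤ 2 * n * L ^ (2 * n + 1) * L ^ (2 * n) := by
    rw [abs_mul, abs_of_nonneg r0]
    exact mul_le_mul u1 r1 r0 (by positivity)
  have k2 : 2 * n * L ^ (2 * n + 1) * L ^ (2 * n) ≤ 4 * n * L ^ (4 * n + 4) := by
    have e1 : 2 * (n : ℤ) * L ^ (2 * n + 1) * L ^ (2 * n) = 2 * n * L ^ (4 * n + 1) := by ring
    rw [e1]
    have e2 : L ^ (4 * n + 1) ≤ L ^ (4 * n + 4) := hpw (by omega)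
    have e3 : 0 ≤ L ^ (4 * n + 4) := by positivity
    have e4 : (n : ℤ) * L ^ (4 * n + 1) ≤ n * L ^ (4 * n + 4) := mul_le_mul_of_nonneg_left e2 (by positivity)
    have e5 : 0 ≤ (n : ℤ) * L ^ (4 * n + 4) := by positivity
    nlinarith
  have k3 : |SmR A B a b n| ≤ 4 * n * L ^ (4 * n + 4) := by
    rw [abs_of_nonneg s0]
    have e2 : L ^ (2 * n) ≤ L ^ (4 * n + 4) := hpw (by omega)
    have e4 : (n : ℤ) * L ^ (2 * n) ≤ n * L ^ (4 * n + 4) := mul_le_mul_of_nonneg_left e2 (by positivity)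
    have e5 : 0 ≤ (n : ℤ) * L ^ (4 * n + 4) := by positivity
    nlinarith
  rw [Ff]
  calc |DN * (Us A B a b i * Rs n B b i) - Y * SmR A B a b n|
      ≤ |DN * (Us A B a b i * Rs n B b i)| + |Y * SmR A B a b n| := abs_sub _ _
    _ = |DN| * |Us A B a b i * Rs n B b i| + |Y| * |SmR A B a b n| := by rw [abs_mul DN, abs_mul Y]
    _ ≤ |DN| * (4 * n * L ^ (4 * n + 4)) + |Y| * (4 * n * L ^ (4 * n + 4)) :=
      add_le_add (mul_le_mul_of_nonneg_left (k1.trans k2) (abs_nonneg _)) (mul_le_mul_of_nonneg_left k3 (abs_nonneg _))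
    _ = (|DN| + |Y|) * (4 * n * L ^ (4 * n + 4)) := by ring

end Pool.Agent.Lib.TC
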