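import Pool.Agent.Lib.MP_7b7e48_nt.TC.QF
import Pool.Agent.Lib.MP_7b7e48_nt.BR.F1
import Pool.Agent.Lib.MP_7b7e48_nt.BR3.G
import Pool.Agent.Lib.MP_7b7e48_nt.BR3.PD
import Pool.Agent.Lib.MP_7b7e48_nt.BR3.WO
import Pool.Agent.Lib.MP_7b7e48_nt.BR3.W2

/-!
# Core: the concrete mark system satisfies all hypotheses of the frame except the input on the signs
-/

set_option autoImplicit false

open Finset Filter

namespace Pool.Agent.Lib.TC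

open Pool.Agent.Lib.TCB (famX famY LkS BdS wD datS PLem WinOk Brg Exps)
open Pool.Agent.Lib.TCF (rho Cnt Base PairIn ApIn)
open Pool.Agent.Lib.RH (Prm MM JJ)

namespace MPar

private theorem core_z (Q : MPar) (hQ : Q.Ok) : ∀ᶠ N : ℕ in atTop, ∀ z : ℕ, (z : ℝ) ≤ (N : ℝ) ^ (Q.e1 / 3) → z ^ 2 ≤ Q.Z N 0 := by
  have he := hQ.e0
  have h1 := (tendsto_rpow_atTop (by positivity : (0 : ℝ) < Q.e1 / 3)).comp (tendsto_natCast_atTop_atTop (R := ℝ))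
  filter_upwards [h1.eventually_ge_atTop 2, eventually_ge_atTop 1] with N h2 hN z hz
  have hN0 : (0 : ℝ) < N := by exact_mod_cast hN
  have h2' : (2 : ℝ) ≤ (N : ℝ) ^ (Q.e1 / 3) := h2
  have h3 : (N : ℝ) ^ Q.e1 = ((N : ℝ) ^ (Q.e1 / 3)) ^ 3 := by
    rw [← Real.rpow_natCast, ← Real.rpow_mul hN0.le]
    congr 1
    push_cast
    ring
  have hk : 0 < Q.k := by have := hQ.k3; omega
  have h4 : Q.Z N 0 = ⌊(N : ℝ) ^ Q.e1⌋₊ := by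
    unfold Z
    rw [if_pos hk]
    simp
  rw [h4]
  apply Nat.le_floor
  push_cast
  rw [h3]
  have hz0 : (0 : ℝ) ≤ z := Nat.cast_nonneg _
  calc (z : ℝ) ^ 2 ≤ ((N : ℝ) ^ (Q.e1 / 3)) ^ 2 := pow_le_pow_left₀ hz0 hz 2
    _ ≤ ((N : ℝ) ^ (Q.e1 / 3)) ^ 3 := pow_le_pow_right₀ (by linarith) (by norm_num)

/-- everything except the input on the signs -/
theorem core (P : Prm) (hP : P.Ok) (e0 : ℝ) (he0 : 0 < e0) : ∃ (Q : MPar) (p0 : ℕ) (δz : ℝ), Q.Ok ∧ 8 * ((Q.k : ℝ) + 1) * Q.e1 ≤ e0 ∧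
    40 * ((Q.k : ℝ) + 1) ^ 2 * Q.e1 ≤ e0 ∧
    0 < δz ∧ (∀ p : ℕ, p.Prime → p ∣ Q.W → p < p0) ∧ ∃ N0 : ℕ, ∀ N : ℕ, N0 ≤ N → Even N → Q.Lg N ∧ Q.W ^ 2 * J1 P Q N ≤ Q.y0 N ∧
    MM P (Q.W ^ 2 * N) ≤ Q.y0 N ∧ ∀ z : ℕ, Real.exp (Real.log N / (Real.log (Real.log N)) ^ 2) ≤ z → (z : ℝ) ≤ (N : ℝ) ^ δz →
    ∃ (T : Dat) (y1 : ℕ), T.N = N ∧ T.y = MM P (Q.W ^ 2 * N) ∧ T.y0 = Q.y0 N ∧ T.z = z ∧ Base P (Q.W ^ 2 * N) (fdat P Q N) ∧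
    PairIn P (Q.W ^ 2 * N) (fdat P Q N) (LkS (Q.sys N) T) (BdS (Q.sys N) T y1) 1 (1 / 80) := by
  obtain ⟨B, hB⟩ : ∃ B : ℕ, B = 1002 := ⟨_, rfl⟩
  obtain ⟨k0, hk0⟩ := ev_PD hP B
  obtain ⟨k, hk⟩ : ∃ k : ℕ, k = 2 * (k0 + 4 * (B + 12) + 5) + 1 := ⟨_, rfl⟩
  have hkodd : Odd k := ⟨k0 + 4 * (B + 12) + 5, hk⟩
  have hk5 : 5 ≤ k := by omega
  obtain ⟨p0, hp0⟩ : ∃ p0 : ℕ, p0 = 64 * (k + 1) ^ 2 + 64 := ⟨_, rfl⟩
  obtain ⟨Cf', hCf'⟩ : ∃ C : ℕ, C = (mk0 k 1 p0 1).Cf := ⟨_, rfl⟩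
  obtain ⟨CD, hCD⟩ : ∃ C : ℕ, C = Cf' + 2 * (k + 1) + 2 * P.C1 + 7011 := ⟨_, rfl⟩
  obtain ⟨Cp, hCp⟩ : ∃ C : ℕ, C = CD + 12 * (k + 1) + B + 21 + 6 * P.C1 + 11021 := ⟨_, rfl⟩
  have hκ0 := hP.kap0
  have hκ1 := hP.kap1
  have hk1 : (0 : ℝ) < (k : ℝ) + 1 := by positivity
  have hCp0 : (1 : ℝ) ≤ Cp := by
    have : 1 ≤ Cp := by omega
    exact_mod_cast this
  obtain ⟨δ1, hδ1⟩ : ∃ δ : ℝ, δ = min (1 / (600 * (Cp : ℝ))) (P.kap / 16) := ⟨_, rfl⟩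
  have hδ1p : 0 < δ1 := by rw [hδ1]; exact lt_min (by positivity) (by positivity)
  have hδ1a : δ1 ≤ 1 / (600 * (Cp : ℝ)) := by rw [hδ1]; exact min_le_left _ _
  have hδ1b : δ1 ≤ P.kap / 16 := by rw [hδ1]; exact min_le_right _ _
  have hW0 : 0 < Wp p0 := Wp_pos p0
  have hWr : (1 : ℝ) ≤ Wp p0 := by exact_mod_cast hW0
  obtain ⟨A, B', δz', hδz', N1, hpl⟩ := pair_lem k B CD Cp Cf' (Wp p0) (2 * (Wp p0 : ℝ) ^ 2) (1 / 400) δ1 1 (by omega)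
    (by omega) (by nlinarith) (by norm_num) hδ1p (by linarith)
  obtain ⟨e1, he1⟩ : ∃ e : ℝ, e = min (min (1 / (80 * ((k : ℝ) + 1))) (P.kap / (400 * ((k : ℝ) + 1))))
    (min (δ1 / (64 * ((k : ℝ) + 1))) (min (P.kap / (256 * ((k : ℝ) + 1))) (e0 / (40 * ((k : ℝ) + 1) ^ 2)))) := ⟨_, rfl⟩
  have he1p : 0 < e1 := by
    rw [he1]
    exact lt_min (lt_min (by positivity) (by positivity)) (lt_min (by positivity) (lt_min (by positivity) (by positivity)))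
  have hea : e1 ≤ 1 / (80 * ((k : ℝ) + 1)) := by rw [he1]; exact (min_le_left _ _).trans (min_le_left _ _)
  have heb : e1 ≤ P.kap / (400 * ((k : ℝ) + 1)) := by rw [he1]; exact (min_le_left _ _).trans (min_le_right _ _)
  have hec : e1 ≤ δ1 / (64 * ((k : ℝ) + 1)) := by rw [he1]; exact (min_le_right _ _).trans (min_le_left _ _)
  have hed : e1 ≤ P.kap / (256 * ((k : ℝ) + 1)) := by
    rw [he1]; exact (min_le_right _ _).trans ((min_le_right _ _).trans (min_le_left _ _))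
  have hee : e1 ≤ e0 / (40 * ((k : ℝ) + 1) ^ 2) := by
    rw [he1]; exact (min_le_right _ _).trans ((min_le_right _ _).trans (min_le_right _ _))
  clear he1
  rw [le_div_iff₀ (by positivity)] at hea heb hec hed hee
  obtain ⟨Q, hQd⟩ : ∃ Q : MPar, Q = mk0 k Cp p0 e1 := ⟨_, rfl⟩
  have hQ : Q.Ok := by
    rw [hQd]
    exact mk0_ok p0 hkodd (by omega) (by omega) he1p (by linarith)
  have hQk : Q.k = k := by rw [hQd]; rfl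
  have hQW : Q.W = Wp p0 := by rw [hQd]; rfl
  have hQC : Q.Cp = Cp := by rw [hQd]; rfl
  have hQe : Q.e1 = e1 := by rw [hQd]; rfl
  have hQf : Q.Cf = Cf' := by rw [hQd, hCf']; rfl
  clear hQd hCf'
  have hWpr : ∀ p : ℕ, p.Prime → (p ∣ Q.W ↔ p < p0) := by
    intro p hp
    rw [hQW]
    exact Wp_pr p0 hp
  have hWsq : Squarefree Q.W := by rw [hQW]; exact Wp_sq p0
  refine ⟨Q, p0, min δz' (min (1 / 400) (e1 / 3)), hQ, ?_, ?_, lt_min hδz' (lt_min (by norm_num) (by positivity)), fun p hp h => (hWpr p hp).1 h, ?_⟩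
  · rw [hQk, hQe]
    nlinarith
  · rw [hQk, hQe]
    linarith
  have hPD := hk0 Q p0 hQ (by omega) (by omega) (by omega) hWpr hWsq (by rw [hQk]; omega) A B' δ1 δz' (by rw [hQk, hQe]; linarith)
  have hfr := ev_frame hP hQ (by omega) (by rw [hQk, hQe]; linarith)
  obtain ⟨N2, hpi⟩ := TCB.pairIn P hP Q.W Cp hQ.W0 (δ0 := 1 / 400) (δ1 := δ1) (δm := P.kap / 32) (δ2 := 1)
    ⟨by omega, by norm_num, hδ1p, by positivity, one_pos, by linarith, hδ1a, hδ1b, le_rfl⟩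
  have hev : ∀ᶠ N : ℕ in atTop, Even N → Q.Lg N ∧ Q.W ^ 2 * J1 P Q N ≤ Q.y0 N ∧
    MM P (Q.W ^ 2 * N) ≤ Q.y0 N ∧ ∀ z : ℕ, Real.exp (Real.log N / (Real.log (Real.log N)) ^ 2) ≤ z →
      (z : ℝ) ≤ (N : ℝ) ^ (min δz' (min (1 / 400) (e1 / 3))) →
    ∃ (T : Dat) (y1 : ℕ), T.N = N ∧ T.y = MM P (Q.W ^ 2 * N) ∧ T.y0 = Q.y0 N ∧ T.z = z ∧ Base P (Q.W ^ 2 * N) (fdat P Q N) ∧
    PairIn P (Q.W ^ 2 * N) (fdat P Q N) (LkS (Q.sys N) T) (BdS (Q.sys N) T y1) 1 (1 / 80) := by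
    filter_upwards [ev_Lg hQ, hPD, hfr, ev_y1 hP hQ (by omega), ev_MM hP hQ p0, ev_D hP hQ (by omega), ev_winok hQ, core_z Q hQ,
      eventually_ge_atTop N1, eventually_ge_atTop N2, eventually_ge_atTop 1, Pool.Agent.Lib.RH.ev_log_ge 16]
      with N hLg g2 g3 g4 g5 g6 g7 g8 g9 g10 g11 g12 hNe
    have hfr' := g3 hLg
    obtain ⟨y1a, y1b, y1c, y1d, y1e⟩ := g4 hLg
    obtain ⟨m1, m2, m3, m4⟩ := g5
    have hJ1 := g6 hLg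
    obtain ⟨u1, u2, u3⟩ := y0_bd hQ hLg
    have hK0 : 0 < Real.log N := by linarith
    have hK1 : 1 ≤ Real.log N := by linarith
    have hMy : MM P (Q.W ^ 2 * N) ≤ Q.y0 N := by
      have h1 : (MM P (Q.W ^ 2 * N) : ℝ) ≤ Q.y0 N :=
        m1.trans ((pow_le_pow_right₀ hK1 (by omega)).trans u2)
      exact_mod_cast h1
    refine ⟨hLg, hJ1, hMy, fun z hz1 hz2 => ?_⟩
    have hN1 : (1 : ℝ) ≤ N := by exact_mod_cast g11
    have hza : (z : ℝ) ≤ (N : ℝ) ^ δz' := hz2.trans (Real.rpow_le_rpow_of_exponent_le hN1 (min_le_left _ _))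
    have hzb : (z : ℝ) ≤ (N : ℝ) ^ ((1 : ℝ) / 400) :=
      hz2.trans (Real.rpow_le_rpow_of_exponent_le hN1 ((min_le_right _ _).trans (min_le_left _ _)))
    have hzc : (z : ℝ) ≤ (N : ℝ) ^ (Q.e1 / 3) := by
      rw [hQe]
      exact hz2.trans (Real.rpow_le_rpow_of_exponent_le hN1 ((min_le_right _ _).trans (min_le_right _ _)))
    have hz0 := g8 z hzc
    refine ⟨dat P Q p0 N z 1, ⌈Real.log N⌉₊, rfl, rfl, rfl, rfl, hfr', ?_⟩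
    have hBrg : Brg P (Q.sys N) (dat P Q p0 N z 1) Q.W ⌈Real.log N⌉₊ (J0 P Q N) (J1 P Q N) (J2 P Q N) Cp (1 / 400) δ1 (P.kap / 32) 1
        (1 / (Real.log N) ^ B) := by
      refine ⟨hfr'.ok, hWsq, fun p hp hd => ?_, le_rfl, ?_, fun μ hμ ν hν => ?_, hzb, ?_, by positivity, ?_, fun D hD hWD hDJ hDp => ?_⟩
      · exact ((hWpr p hp).1 hd).le.trans (m2.trans hMy)
      · rw [← hQC]
        exact u1
      · refine (size_xy hQ hLg hμ hν).trans (Real.rpow_le_rpow_of_exponent_le hN1 ?_)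
        rw [hQk, hQe]
        linarith
      · exact m4
      · show 1 / (Real.log N) ^ B * (16 * (JJ (Q.W ^ 2 * N) : ℝ)) ≤ 1
        rw [one_div, inv_mul_le_iff₀ (by positivity), mul_one, hB]
        calc 16 * (JJ (Q.W ^ 2 * N) : ℝ) ≤ Real.log N * (Real.log N) ^ 1001 := by gcongr
          _ = (Real.log N) ^ 1002 := by ring
      · obtain ⟨p1, hpd⟩ := g2 hLg hNe z D hz1 hza hz0 hD hWD hDJ
        rw [hQk, hQC, hQf, hQW, ← hCD] at hpd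
        rw [hQW]
        exact hpl (Q.sys N) (dat P Q p0 N z D) (Wp p0) _ p1 _ _ _ hpd g9
    have hpos := hpi (Q.sys N) (dat P Q p0 N z 1) ⌈Real.log N⌉₊ (J0 P Q N) (J1 P Q N) (J2 P Q N) (1 / (Real.log N) ^ B) g10 hBrg
      (g7 (dat P Q p0 N z 1) rfl (fun p hp hd => (hWpr p hp).1 hd) _ y1b) y1c y1d ?_ ?_ y1e
    · exact hpos
    · show 5 ≤ Q.k
      omega
    · show 64 * (Q.k + 1) ^ 2 + 64 ≤ p0
      rw [hQk, hp0]
  obtain ⟨N0, hN0⟩ := eventually_atTop.1 hev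
  exact ⟨N0, fun N hN => hN0 N hN⟩

end MPar

end Pool.Agent.Lib.TC
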