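import Mathlib

/-!
# Cycles (TC1): existence

Indices are `0, …, m - 1`; the successor of `i` is `(i + 1) % m`. The long cofactors are `A (m - 1)` and `B (m - 1)`.
`Cyc N m A B al be e t`: all of `e i`, `t i` (`i < m`) are positive and
`e i * A i + t i * be i = N`, `e i * B i + t (i + 1) * al (i + 1) = N`.
`Sm A B al be k = ∑_{j<k} (al j - be j) ∏_{l<j} al l A l ∏_{j<l<k} be l B (l - 1)`.
-/

set_option autoImplicit false

open Finset

namespace Pool.Agent.Lib.TC

/-- the cycle system -/
structure Cyc (N m : ℕ) (A B al be e t : ℕ → ℕ) : Prop where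
  E : ∀ i < m, e i * A i + t i * be i = N
  F : ∀ i < m, e i * B i + t ((i + 1) % m) * al ((i + 1) % m) = N
  e0 : ∀ i < m, 0 < e i
  t0 : ∀ i < m, 0 < t i

/-- the integer `S` of a cycle -/
def Sm (A B al be : ℕ → ℕ) : ℕ → ℕ
  | 0 => 0
  | (k + 1) => Sm A B al be k * (be k * B (k - 1)) + (al k - be k) * ∏ l ∈ range k, al l * A l

/-- `B (i - 1)`, cyclically -/
def Bp (m : ℕ) (B : ℕ → ℕ) (i : ℕ) : ℕ := if i = 0 then B (m - 1) else B (i - 1)

theorem prod_cyc {M : Type*} [CommMonoid M] {m : ℕ} (hm : 0 < m) (f : ℕ → M) :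
    ∏ i ∈ range m, f ((i + 1) % m) = ∏ i ∈ range m, f i := by
  obtain ⟨k, rfl⟩ : ∃ k, m = k + 1 := ⟨m - 1, by omega⟩
  rw [prod_range_succ, prod_range_succ' f, Nat.mod_self]
  congr 1
  refine prod_congr rfl fun i hi => ?_
  rw [mem_range] at hi
  rw [Nat.mod_eq_of_lt (by omega)]

theorem prod_Bp {m : ℕ} (hm : 0 < m) (B : ℕ → ℕ) : ∏ i ∈ range m, Bp m B i = ∏ i ∈ range m, B i := by
  obtain ⟨k, rfl⟩ : ∃ k, m = k + 1 := ⟨m - 1, by omega⟩
  rw [prod_range_succ', prod_range_succ B]
  simp [Bp]

/-- `∏_{l<k} al l A l * e_{k-1} = N Sm k + ∏_{l<k} be l B (l-1) * e_{m-1}` is solved by this rational sequence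
(`gq k = e_{k-1}`). -/
noncomputable def gq (N m : ℕ) (A B al be : ℕ → ℕ) (g0 : ℚ) : ℕ → ℚ
  | 0 => g0
  | (i + 1) => (((al i : ℚ) - be i) * N + be i * Bp m B i * gq N m A B al be g0 i) / (al i * A i)

theorem gq_inv {N m : ℕ} {A B al be : ℕ → ℕ} (g0 : ℚ) (hA : ∀ i < m, 0 < A i) (hba : ∀ i < m, be i < al i) :
    ∀ i ≤ m, (∏ l ∈ range i, ((al l : ℚ) * A l)) * gq N m A B al be g0 i =
      N * Sm A B al be i + (∏ l ∈ range i, ((be l : ℚ) * Bp m B l)) * g0 := by
  intro i
  induction i with
  | zero => intro _; simp [gq, Sm]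
  | succ i ih =>
    intro hi
    have ih := ih (by omega)
    have h1 : (al i : ℚ) ≠ 0 := by
      have := hba i (by omega)
      have h : 0 < al i := by omega
      exact_mod_cast h.ne'
    have h2 : (A i : ℚ) ≠ 0 := by
      have := hA i (by omega)
      exact_mod_cast this.ne'
    have hsub : ((al i - be i : ℕ) : ℚ) = (al i : ℚ) - be i := by
      rw [Nat.cast_sub (hba i (by omega)).le]
    have hBS : (Sm A B al be i : ℚ) * ((be i : ℚ) * (B (i - 1) : ℕ)) = Sm A B al be i * ((be i : ℚ) * Bp m B i) := by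
      rcases Nat.eq_zero_or_pos i with h0 | h0
      · subst h0; simp [Sm]
      · simp [Bp, h0.ne']
    rw [prod_range_succ, prod_range_succ (fun l => (be l : ℚ) * Bp m B l)]
    have e1 : (∏ l ∈ range i, ((al l : ℚ) * A l)) * ((al i : ℚ) * A i) * gq N m A B al be g0 (i + 1)
        = (∏ l ∈ range i, ((al l : ℚ) * A l)) * (((al i : ℚ) - be i) * N) +
          be i * Bp m B i * ((∏ l ∈ range i, ((al l : ℚ) * A l)) * gq N m A B al be g0 i) := by
      rw [gq]
      field_simp
    rw [e1, ih]
    simp only [Sm]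
    push_cast
    rw [hsub, hBS]
    ring

/-- a rational number with two coprime multipliers into the integers is an integer -/
theorem int_of_two {q : ℚ} {a b : ℕ} (h : a.Coprime b) (ha : ∃ z : ℤ, (z : ℚ) = a * q) (hb : ∃ z : ℤ, (z : ℚ) = b * q) :
    ∃ z : ℤ, (z : ℚ) = q := by
  obtain ⟨x, hx⟩ := ha
  obtain ⟨y, hy⟩ := hb
  have hB : (1 : ℤ) = a * a.gcdA b + b * a.gcdB b := by
    have := Nat.gcd_eq_gcd_ab a b
    rw [Nat.Coprime] at h
    rw [h] at this
    exact_mod_cast this
  refine ⟨x * a.gcdA b + y * a.gcdB b, ?_⟩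
  push_cast
  rw [hx, hy]
  have hB' : (1 : ℚ) = a * (a.gcdA b : ℤ) + b * (a.gcdB b : ℤ) := by exact_mod_cast hB
  calc (a : ℚ) * q * (a.gcdA b : ℤ) + b * q * (a.gcdB b : ℤ) = q * (a * (a.gcdA b : ℤ) + b * (a.gcdB b : ℤ)) := by ring
    _ = q := by rw [← hB', mul_one]

theorem Sm_pos {A B al be : ℕ → ℕ} : ∀ k, 0 < k → (∀ i < k, 0 < A i) → (∀ i < k, be i < al i) → 0 < Sm A B al be k := by
  intro k hk hA hba
  obtain ⟨j, rfl⟩ : ∃ j, k = j + 1 := ⟨k - 1, by omega⟩
  simp only [Sm]
  have h1 : 0 < al j - be j := by have := hba j (by omega); omega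
  have h2 : 0 < ∏ l ∈ range j, al l * A l := by
    apply prod_pos
    intro l hl
    rw [mem_range] at hl
    have := hba l (by omega)
    have h3 := hA l (by omega)
    exact Nat.mul_pos (by omega) h3
  have h3 := Nat.mul_pos h1 h2
  omega

/-- **Existence of the cycle.** -/
theorem cyc_exists {N m : ℕ} {A B al be : ℕ → ℕ} {D : ℕ} (hm : 0 < m) (hN : 0 < N) (_hD : 0 < D)
    (hB : ∀ i < m, 0 < B i) (hAB : ∀ i < m, B i < A i) (hb : ∀ i < m, 0 < be i) (hba : ∀ i < m, be i < al i)
    (hXY : ∏ i ∈ range m, (al i * A i) = ∏ i ∈ range m, (be i * B i) + D * N)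
    (hS : D ∣ Sm A B al be m)
    (hcop : ((∏ i ∈ range m, al i) * ∏ i ∈ range (m - 1), A i).Coprime
      ((∏ i ∈ range m, be i) * ∏ i ∈ range (m - 1), B i)) :
    ∃ e t : ℕ → ℕ, Cyc N m A B al be e t ∧ D * e (m - 1) = Sm A B al be m ∧
      ∀ i ≤ m, (∏ l ∈ range i, (al l * A l)) * (if i = 0 then e (m - 1) else e (i - 1)) =
        N * Sm A B al be i + (∏ l ∈ range i, (be l * Bp m B l)) * e (m - 1) := by
  classical
  obtain ⟨g0, hg0⟩ := hS
  have hA : ∀ i < m, 0 < A i := fun i hi => by have := hAB i hi; omega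
  have hal : ∀ i < m, 0 < al i := fun i hi => by have := hba i hi; omega
  set g : ℕ → ℚ := gq N m A B al be (g0 : ℚ) with hg
  have hgz : g 0 = g0 := rfl
  have hinv := gq_inv (N := N) (m := m) (A := A) (B := B) (al := al) (be := be) (g0 : ℚ) hA hba
  have hBpos : ∀ i < m, 0 < Bp m B i := by
    intro i hi
    unfold Bp
    split_ifs
    · exact hB _ (by omega)
    · exact hB _ (by omega)
  have hrec : ∀ i < m, (al i : ℚ) * A i * g (i + 1) = ((al i : ℚ) - be i) * N + be i * Bp m B i * g i := by
    intro i hi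
    have h1 : (al i : ℚ) ≠ 0 := by exact_mod_cast (hal i hi).ne'
    have h2 : (A i : ℚ) ≠ 0 := by exact_mod_cast (hA i hi).ne'
    rw [hg, gq]
    field_simp
  -- closure
  have hclose : g m = g0 := by
    have h1 := hinv m le_rfl
    have hX : (∏ l ∈ range m, ((al l : ℚ) * A l)) = (∏ l ∈ range m, ((be l : ℚ) * B l)) + D * N := by
      exact_mod_cast hXY
    have hY : (∏ l ∈ range m, ((be l : ℚ) * Bp m B l)) = ∏ l ∈ range m, ((be l : ℚ) * B l) := by
      rw [prod_mul_distrib, prod_mul_distrib]
      congr 1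
      have := prod_Bp hm B
      exact_mod_cast this
    have hSD : (Sm A B al be m : ℚ) = D * g0 := by exact_mod_cast hg0
    rw [hY, hSD] at h1
    have hXpos : (0 : ℚ) < ∏ l ∈ range m, ((al l : ℚ) * A l) := by
      apply prod_pos
      intro l hl
      rw [mem_range] at hl
      have h1 : (0 : ℚ) < al l := by exact_mod_cast hal l hl
      have h2 : (0 : ℚ) < A l := by exact_mod_cast hA l hl
      positivity
    have h2 : (∏ l ∈ range m, ((al l : ℚ) * A l)) * g m = (∏ l ∈ range m, ((al l : ℚ) * A l)) * g0 := by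
      rw [h1, hX]; ring
    exact mul_left_cancel₀ hXpos.ne' h2
  have hg0pos : 0 < g0 := by
    have := Sm_pos (A := A) (B := B) (al := al) (be := be) m hm hA hba
    rw [hg0] at this
    exact Nat.pos_of_mul_pos_left this |> fun h => by
      rcases Nat.eq_zero_or_pos g0 with h0 | h0
      · subst h0; simp at this
      · exact h0
  have hgpos : ∀ i ≤ m, 0 < g i := by
    intro i
    induction i with
    | zero => intro _; rw [hgz]; exact_mod_cast hg0pos
    | succ i ih =>
      intro hi
      have ih := ih (by omega)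
      have h1 := hrec i (by omega)
      have h2 : (0 : ℚ) < al i := by exact_mod_cast hal i (by omega)
      have h3 : (0 : ℚ) < A i := by exact_mod_cast hA i (by omega)
      have h4 : (be i : ℚ) < al i := by exact_mod_cast hba i (by omega)
      have h5 : (0 : ℚ) < N := by exact_mod_cast hN
      have h6 : (0 : ℚ) < be i := by exact_mod_cast hb i (by omega)
      have h7 : (0 : ℚ) < Bp m B i := by exact_mod_cast hBpos i (by omega)
      have h8 : 0 < (al i : ℚ) * A i * g (i + 1) := by
        rw [h1]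
        have := mul_pos (sub_pos.2 h4) h5
        positivity
      by_contra hcon
      push Not at hcon
      have : (al i : ℚ) * A i * g (i + 1) ≤ 0 := mul_nonpos_of_nonneg_of_nonpos (by positivity) hcon
      linarith
  -- the numbers t
  set tq : ℕ → ℚ := fun i => (N - Bp m B i * g i) / al i with htq
  have hF : ∀ i < m, tq i * al i = N - Bp m B i * g i := by
    intro i hi
    have h1 : (al i : ℚ) ≠ 0 := by exact_mod_cast (hal i hi).ne'
    rw [htq]
    field_simp
  have hE : ∀ i < m, tq i * be i = N - A i * g (i + 1) := by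
    intro i hi
    have h1 : (al i : ℚ) ≠ 0 := by exact_mod_cast (hal i hi).ne'
    have h2 := hrec i hi
    have h3 := hF i hi
    have h4 : (al i : ℚ) * (tq i * be i) = al i * (N - A i * g (i + 1)) := by
      calc (al i : ℚ) * (tq i * be i) = (tq i * al i) * be i := by ring
        _ = (N - Bp m B i * g i) * be i := by rw [h3]
        _ = al i * N - (((al i : ℚ) - be i) * N + be i * Bp m B i * g i) := by ring
        _ = al i * N - al i * A i * g (i + 1) := by rw [h2]
        _ = al i * (N - A i * g (i + 1)) := by ring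
    exact mul_left_cancel₀ h1 h4
  -- positivity of t : minimum of w = al t
  have hnext : ∀ j < m, tq ((j + 1) % m) * al ((j + 1) % m) = N - B j * g (j + 1) := by
    intro j hj
    have h0 : (j + 1) % m < m := Nat.mod_lt _ hm
    rw [hF _ h0]
    rcases Nat.lt_or_ge (j + 1) m with h | h
    · rw [Nat.mod_eq_of_lt h]
      simp [Bp]
    · have h2 : j + 1 = m := by omega
      rw [h2, Nat.mod_self, hclose, hgz]
      have : j = m - 1 := by omega
      simp [Bp, this]
  have htpos : ∀ i < m, 0 < tq i := by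
    have hne : (range m).Nonempty := ⟨0, by rw [mem_range]; exact hm⟩
    obtain ⟨i0, hi0, hmin⟩ := exists_min_image (range m) (fun i => tq i * al i) hne
    rw [mem_range] at hi0
    -- predecessor
    obtain ⟨j, hj, hji⟩ : ∃ j < m, (j + 1) % m = i0 := by
      rcases Nat.eq_zero_or_pos i0 with h | h
      · exact ⟨m - 1, by omega, by rw [Nat.sub_add_cancel hm, Nat.mod_self, h]⟩
      · exact ⟨i0 - 1, by omega, by rw [Nat.sub_add_cancel h, Nat.mod_eq_of_lt hi0]⟩
    have h1 := hnext j hj
    rw [hji] at h1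
    have h2 := hmin j (by rw [mem_range]; exact hj)
    have h3 := hE j hj
    have hApos : (0 : ℚ) < A j := by exact_mod_cast hA j hj
    have hBA : (B j : ℚ) < A j := by exact_mod_cast hAB j hj
    have hBpos' : (0 : ℚ) < B j := by exact_mod_cast hB j hj
    have halp : (0 : ℚ) < al j := by exact_mod_cast hal j hj
    have hbea : (be j : ℚ) < al j := by exact_mod_cast hba j hj
    have hbep : (0 : ℚ) < be j := by exact_mod_cast hb j hj
    have hNp : (0 : ℚ) < N := by exact_mod_cast hN
    have hw : 0 < tq i0 * al i0 := by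
      by_contra hcon
      push Not at hcon
      -- A j * w = (A j - B j) N + B j be j t j
      have e1 : A j * (tq i0 * al i0) = (A j - B j) * N + B j * (tq j * be j) := by
        rw [h1, h3]; ring
      have e2 : 0 < (A j - B j : ℚ) * N := mul_pos (sub_pos.2 hBA) hNp
      -- al j * (B j be j t j) = B j be j (al j t j) ≥ B j be j w ≥ ...
      have e3 : al j * (A j * (tq i0 * al i0)) = al j * ((A j - B j) * N) + B j * be j * (tq j * al j) := by
        rw [e1]; ring
      have e4 : B j * be j * (tq i0 * al i0) ≤ B j * be j * (tq j * al j) :=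
        mul_le_mul_of_nonneg_left h2 (by positivity)
      have e5 : (B j : ℚ) * be j < al j * A j := by
        calc (B j : ℚ) * be j < A j * al j := by
              apply mul_lt_mul'' hBA hbea hBpos'.le hbep.le
          _ = al j * A j := by ring
      have e6 : 0 < (al j : ℚ) * ((A j - B j) * N) := mul_pos halp e2
      have e7 : (al j * A j - B j * be j : ℚ) * (tq i0 * al i0) ≤ 0 :=
        mul_nonpos_of_nonneg_of_nonpos (by linarith) hcon
      nlinarith [e3, e4, e6, e7]
    intro i hi
    have h4 := hmin i (by rw [mem_range]; exact hi)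
    have h5 : 0 < tq i * al i := lt_of_lt_of_le hw h4
    have h6 : (0 : ℚ) < al i := by exact_mod_cast hal i hi
    exact (pos_iff_pos_of_mul_pos h5).2 h6
  -- integrality of g
  have hP : ∀ i ≤ m, ∃ z : ℤ, (z : ℚ) = ((∏ l ∈ range i, (al l * A l) : ℕ) : ℚ) * g i := by
    intro i hi
    have h1 := hinv i hi
    refine ⟨N * Sm A B al be i + (∏ l ∈ range i, (be l * Bp m B l) : ℕ) * g0, ?_⟩
    push_cast
    rw [h1]
  have hQ : ∀ d ≤ m, ∃ z : ℤ, (z : ℚ) = ((∏ l ∈ Ico (m - d) m, (be l * Bp m B l) : ℕ) : ℚ) * g (m - d) := by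
    intro d
    induction d with
    | zero =>
      intro _
      refine ⟨g0, ?_⟩
      simp [hclose]
    | succ d ih =>
      intro hd
      obtain ⟨z, hz⟩ := ih (by omega)
      set i := m - (d + 1) with hi
      have him : i < m := by omega
      have hid : m - d = i + 1 := by omega
      rw [hid] at hz
      have hspl : (∏ l ∈ Ico i m, (be l * Bp m B l) : ℕ) = (be i * Bp m B i) * ∏ l ∈ Ico (i + 1) m, (be l * Bp m B l) :=
        prod_eq_prod_Ico_succ_bot him _
      have h1 := hrec i him
      refine ⟨(al i * A i : ℕ) * z - (∏ l ∈ Ico (i + 1) m, (be l * Bp m B l) : ℕ) * (((al i : ℤ) - be i) * N), ?_⟩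
      rw [hspl]
      push_cast
      rw [hz]
      push_cast
      have : (be i : ℚ) * Bp m B i * g i = al i * A i * g (i + 1) - ((al i : ℚ) - be i) * N := by rw [h1]; ring
      calc (al i : ℚ) * A i * ((∏ l ∈ Ico (i + 1) m, ((be l : ℚ) * Bp m B l)) * g (i + 1)) -
            (∏ l ∈ Ico (i + 1) m, ((be l : ℚ) * Bp m B l)) * (((al i : ℚ) - be i) * N)
          = (∏ l ∈ Ico (i + 1) m, ((be l : ℚ) * Bp m B l)) * (al i * A i * g (i + 1) - ((al i : ℚ) - be i) * N) := by ring
        _ = (∏ l ∈ Ico (i + 1) m, ((be l : ℚ) * Bp m B l)) * (be i * Bp m B i * g i) := by rw [this]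
        _ = _ := by ring
  have hgint : ∀ i ≤ m, ∃ z : ℤ, (z : ℚ) = g i := by
    intro i hi
    rcases Nat.eq_zero_or_pos i with h0 | h0
    · subst h0; exact ⟨g0, by rw [hgz]; norm_num⟩
    rcases Nat.lt_or_ge i m with h | h
    swap
    · have : i = m := by omega
      subst this
      exact ⟨g0, by rw [hclose]; norm_num⟩
    -- 1 ≤ i ≤ m - 1
    refine int_of_two (a := ∏ l ∈ range i, (al l * A l)) (b := ∏ l ∈ Ico i m, (be l * Bp m B l)) ?_ (hP i hi) ?_
    · refine Nat.Coprime.of_dvd ?_ ?_ hcop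
      · rw [prod_mul_distrib]
        exact mul_dvd_mul (prod_dvd_prod_of_subset _ _ _ (range_subset_range.2 hi))
          (prod_dvd_prod_of_subset _ _ _ (range_subset_range.2 (by omega)))
      · rw [prod_mul_distrib]
        refine mul_dvd_mul (prod_dvd_prod_of_subset _ _ _ ?_) ?_
        · intro l hl
          rw [mem_Ico] at hl
          rw [mem_range]
          exact hl.2
        · have h1 : ∏ l ∈ Ico i m, Bp m B l = ∏ l ∈ Ico (i - 1) (m - 1), B l := by
            have h2 : ∏ l ∈ Ico i m, Bp m B l = ∏ l ∈ Ico i m, B (l - 1) := by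
              refine prod_congr rfl fun l hl => ?_
              rw [mem_Ico] at hl
              simp [Bp, show l ≠ 0 by omega]
            rw [h2]
            refine prod_bij (fun l _ => l - 1) ?_ ?_ ?_ ?_
            · intro l hl
              rw [mem_Ico] at hl ⊢
              omega
            · intro a ha b hb' hab
              rw [mem_Ico] at ha hb'
              omega
            · intro b hb'
              rw [mem_Ico] at hb'
              exact ⟨b + 1, by rw [mem_Ico]; omega, by simp⟩
            · intro l hl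
              rfl
          rw [h1]
          refine prod_dvd_prod_of_subset _ _ _ ?_
          intro l hl
          rw [mem_Ico] at hl
          rw [mem_range]
          exact hl.2
    · have := hQ (m - i) (by omega)
      rwa [show m - (m - i) = i by omega] at this
  have htint : ∀ i < m, ∃ z : ℤ, (z : ℚ) = tq i := by
    intro i hi
    obtain ⟨u, hu⟩ := hgint i hi.le
    obtain ⟨v, hv⟩ := hgint (i + 1) hi
    refine int_of_two (a := al i) (b := be i) ?_ ⟨N - Bp m B i * u, ?_⟩ ⟨N - A i * v, ?_⟩
    · refine Nat.Coprime.of_dvd ?_ ?_ hcop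
      · exact Dvd.dvd.mul_right (dvd_prod_of_mem _ (mem_range.2 hi)) _
      · exact Dvd.dvd.mul_right (dvd_prod_of_mem _ (mem_range.2 hi)) _
    · push_cast
      rw [hu, mul_comm (al i : ℚ), hF i hi]
    · push_cast
      rw [hv, mul_comm (be i : ℚ), hE i hi]
  -- natural numbers
  have hgnat : ∀ i, i ≤ m → ∃ z : ℕ, (z : ℚ) = g i ∧ 0 < z := by
    intro i hi
    obtain ⟨z, hz⟩ := hgint i hi
    have h1 := hgpos i hi
    rw [← hz] at h1
    have h2 : 0 < z := by exact_mod_cast h1
    refine ⟨z.toNat, ?_, by omega⟩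
    rw [← hz]
    have : ((z.toNat : ℕ) : ℤ) = z := Int.toNat_of_nonneg h2.le
    exact_mod_cast this
  have htnat : ∀ i, i < m → ∃ z : ℕ, (z : ℚ) = tq i ∧ 0 < z := by
    intro i hi
    obtain ⟨z, hz⟩ := htint i hi
    have h1 := htpos i hi
    rw [← hz] at h1
    have h2 : 0 < z := by exact_mod_cast h1
    refine ⟨z.toNat, ?_, by omega⟩
    rw [← hz]
    have : ((z.toNat : ℕ) : ℤ) = z := Int.toNat_of_nonneg h2.le
    exact_mod_cast this
  choose! ge hge hgep using hgnat
  choose! te hte htep using htnat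
  have hgem : ge m = g0 := by
    have := hge m le_rfl
    rw [hclose] at this
    exact_mod_cast this
  have hge0 : ge 0 = g0 := by
    have := hge 0 (by omega)
    rw [hgz] at this
    exact_mod_cast this
  refine ⟨fun i => ge (i + 1), te, ⟨?_, ?_, ?_, ?_⟩, ?_, ?_⟩
  · intro i hi
    have h1 := hE i hi
    rw [← hte i hi, ← hge (i + 1) hi] at h1
    have : ((ge (i + 1) * A i + te i * be i : ℕ) : ℚ) = N := by
      push_cast
      rw [h1]; ring
    exact_mod_cast this
  · intro i hi
    have h1 := hnext i hi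
    rw [← hte _ (Nat.mod_lt _ hm), ← hge (i + 1) hi] at h1
    have : ((ge (i + 1) * B i + te ((i + 1) % m) * al ((i + 1) % m) : ℕ) : ℚ) = N := by
      push_cast
      rw [h1]; ring
    exact_mod_cast this
  · intro i hi
    exact hgep (i + 1) hi
  · intro i hi
    exact htep i hi
  · simp only [Nat.sub_add_cancel hm, hgem, hg0]
  · intro i hi
    have h1 := hinv i hi
    have h2 : (if i = 0 then ge (m - 1 + 1) else ge (i - 1 + 1)) = ge i := by
      split_ifs with h
      · rw [Nat.sub_add_cancel hm, hgem, h, hge0]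
      · rw [Nat.sub_add_cancel (by omega)]
    simp only [Nat.sub_add_cancel hm, hgem]
    rw [show (if i = 0 then g0 else ge (i - 1 + 1)) = ge i by
      split_ifs with h
      · rw [h, hge0]
      · rw [Nat.sub_add_cancel (by omega)]]
    have h3 : ((∏ l ∈ range i, ((al l : ℚ) * A l)) * (ge i : ℚ)) =
        N * Sm A B al be i + (∏ l ∈ range i, ((be l : ℚ) * Bp m B l)) * g0 := by
      rw [hge i hi]; exact h1
    exact_mod_cast h3

end Pool.Agent.Lib.TC
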