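import Pool.Agent.Lib.MP_7b7e48_nt.TC.Core
import Pool.Agent.Lib.MP_7b7e48_nt.BR3.V
import Pool.Agent.Lib.MP_7b7e48_nt.TCF.Frame
import Pool.Agent.Lib.MP_7b7e48_nt.TCF.CBT
import Pool.Agent.Lib.MP_7b7e48_nt.TCF.Apx

/-!
# Fin: theorem TC1+, both parities of `Ω(a) + Ω(N - a)`, `a` without prime factors `≤ (log N) ^ A`, `N - a` without prime factors `≤ N ^ δ`
-/

set_option autoImplicit false

open Finset Filter

namespace Pool.Agent.Lib.TC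

open Pool.Agent.Lib.TCB (famX famY LkS BdS wD datS PLem WinOk Brg Exps)
open Pool.Agent.Lib.TCF (rho Cnt Base PairIn ApIn)
open Pool.Agent.Lib.RH (Prm MM JJ)
open Pool.Agent.Lib.MP_45349e_nt.LS (lam)
open MPar (EX AFC J1 fdat)

open Classical in
/-- the `0 < a < N`, coprime to `N`, with `λ(a) λ(N - a) = κ`, `a` free of primes `≤ (log N) ^ A`, `N - a` free of primes `≤ N ^ δ` -/
noncomputable def fset (A : ℕ) (δ : ℝ) (κ : ℝ) (N : ℕ) : Finset ℕ :=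
  (Ioo 0 N).filter fun a => a.Coprime N ∧ lam a * lam (N - a) = κ ∧ (∀ p : ℕ, p.Prime → p ∣ a → (Real.log N) ^ A < p) ∧
    ∀ p : ℕ, p.Prime → p ∣ N - a → (N : ℝ) ^ δ < p

private theorem fin_EX {A : ℕ} {δ κ : ℝ} {T : Dat} (hz : ⌊(T.N : ℝ) ^ δ⌋₊ ≤ T.z) (hy : (Real.log T.N) ^ A ≤ (T.y : ℝ)) :
    EX T κ ⊆ fset A δ κ T.N := by
  classical
  intro n hn
  unfold EX at hn
  rw [mem_filter, mem_range] at hn
  obtain ⟨h1, ⟨h2, h3, h4, h5, h6⟩, h7⟩ := hn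
  unfold fset
  rw [mem_filter, mem_Ioo]
  refine ⟨⟨h2, h3⟩, h4, h7, fun p hp hd => ?_, fun p hp hd => ?_⟩
  · have h8 : T.y < p := by
      by_contra h8
      exact h5 p hp (not_lt.1 h8) hd
    exact hy.trans_lt (by exact_mod_cast h8)
  · have h8 : T.z < p := by
      by_contra h8
      exact h6 p hp (not_lt.1 h8) hd
    exact (Nat.floor_lt (Real.rpow_nonneg (Nat.cast_nonneg _) _)).1 (hz.trans_lt h8)

private theorem fin_z {δ : ℝ} (hδ : 0 < δ) : ∀ᶠ N : ℕ in atTop,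
    Real.exp (Real.log N / (Real.log (Real.log N)) ^ 2) ≤ ⌊(N : ℝ) ^ δ⌋₊ := by
  have h1 : Tendsto (fun N : ℕ => Real.log N) atTop atTop := Real.tendsto_log_atTop.comp tendsto_natCast_atTop_atTop
  have h2 : Tendsto (fun N : ℕ => Real.log (Real.log N)) atTop atTop := Real.tendsto_log_atTop.comp h1
  have h3 : Tendsto (fun N : ℕ => (Real.log (Real.log N)) ^ 2) atTop atTop := (tendsto_pow_atTop two_ne_zero).comp h2
  filter_upwards [h1.eventually_ge_atTop (2 / δ), h3.eventually_ge_atTop (2 / δ), eventually_ge_atTop 1] with N h4 h5 hN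
  have hN0 : (0 : ℝ) < N := by exact_mod_cast hN
  have hd : 0 < 2 / δ := by positivity
  have hK : 0 < Real.log N := lt_of_lt_of_le hd h4
  have h6 : Real.log N / (Real.log (Real.log N)) ^ 2 ≤ δ / 2 * Real.log N := by
    rw [div_le_iff₀ (lt_of_lt_of_le hd h5)]
    have h7 : 1 ≤ δ / 2 * (Real.log (Real.log N)) ^ 2 := by
      rw [div_le_iff₀ hδ] at h5
      linarith
    nlinarith
  have h8 : 1 ≤ δ / 2 * Real.log N := by
    rw [div_le_iff₀ hδ] at h4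
    linarith
  have h9 : (N : ℝ) ^ δ = Real.exp (δ / 2 * Real.log N) * Real.exp (δ / 2 * Real.log N) := by
    rw [← Real.exp_add, Real.rpow_def_of_pos hN0]
    congr 1
    ring
  have h10 : 2 ≤ Real.exp (δ / 2 * Real.log N) := by
    have := Real.add_one_le_exp (δ / 2 * Real.log N)
    linarith
  have h11 : (N : ℝ) ^ δ < ⌊(N : ℝ) ^ δ⌋₊ + 1 := Nat.lt_floor_add_one _
  have h12 : Real.exp (Real.log N / (Real.log (Real.log N)) ^ 2) ≤ Real.exp (δ / 2 * Real.log N) := Real.exp_le_exp.2 h6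
  nlinarith

/-- **Theorem TC1+** -/
theorem tc1 (A : ℕ) (ε : ℝ) (hε : 0 < ε) (hε1 : ε ≤ 1) : ∃ δ : ℝ, 0 < δ ∧ ∃ N0 : ℕ, ∀ N : ℕ, N0 ≤ N → Even N → ∀ κ : ℝ,
    (κ = 1 ∨ κ = -1) → (N : ℝ) ^ (1 - ε) < ((fset A δ κ N).card : ℝ) := by
  obtain ⟨κ0, hκ0, hκ1, F⟩ := Pool.Agent.Lib.TCF.frame
  obtain ⟨c0, hc0, A0, F2⟩ := F κ0 hκ0 le_rfl
  obtain ⟨P, hPd⟩ : ∃ P : Prm, P = ⟨κ0, min c0 (κ0 / 10000), max 10 (max A A0)⟩ := ⟨_, rfl⟩
  have hP : P.Ok := by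
    rw [hPd]
    exact ⟨hκ0, hκ1, lt_min hc0 (by positivity), min_le_right _ _, le_max_left _ _⟩
  have hPA : A ≤ P.C1 := by rw [hPd]; exact (le_max_left _ _).trans (le_max_right _ _)
  obtain ⟨N1, F3⟩ := F2 P hP (by rw [hPd]) (by rw [hPd]; exact min_le_left _ _) (by rw [hPd]; exact (le_max_right _ _).trans (le_max_right _ _))
  obtain ⟨Q, p0, δz, hQ, -, he, hδz, -, N2, hcore⟩ := MPar.core P hP ε hε
  obtain ⟨N3, hap⟩ := Pool.Agent.Lib.TCF.apin_of_rel P hP (ε / 2) (by positivity)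
  obtain ⟨N4, hsg⟩ := Pool.Agent.Lib.TCF.sgl P hP (ε / 2 / 4) (by positivity)
  obtain ⟨N5, hcnt⟩ := Pool.Agent.Lib.TCF.cnt P hP
  obtain ⟨N6, hnx⟩ := Pool.Agent.Lib.TCF.numx P hP
  have hW0 := hQ.W0
  have hev : ∀ᶠ N : ℕ in atTop, Even N → ∀ κ : ℝ, (κ = 1 ∨ κ = -1) → (N : ℝ) ^ (1 - ε) < ((fset A δz κ N).card : ℝ) := by
    filter_upwards [MPar.br4_ac hP hQ hε hε1 he, fin_z hδz, MPar.ev_J1 hP hQ,
      Pool.Agent.Lib.RH.ev_log_pow (Q.Cf + 2 * (Q.k + 1) + 2 * P.C1 + 7011) (ε / 2 / 16) (by positivity) 1 one_pos,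
      MPar.ev_logR Q.W hW0, Pool.Agent.Lib.RH.ev_log_ge 1,
      eventually_ge_atTop (max (max N1 N2) (max (max N3 N4) (max N5 (max N6 1))))] with N g1 g2 g3 g4 g5 g6 g7 hNe κ hκ
    simp only [max_le_iff] at g7
    obtain ⟨⟨n1, n2⟩, ⟨n3, n4⟩, n5, n6, n7⟩ := g7
    by_contra hcon
    rw [not_lt] at hcon
    obtain ⟨hLg, hJ1, hMy, hcz⟩ := hcore N n2 hNe
    have hN0 : (0 : ℝ) < N := by exact_mod_cast n7
    obtain ⟨T, y1, hTN, hTy, hTy0, hTz, hB, hPI⟩ := hcz ⌊(N : ℝ) ^ δz⌋₊ g2 (Nat.floor_le (Real.rpow_nonneg hN0.le _))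
    have hRpos : 0 < Q.W ^ 2 * N := by positivity
    haveI : NeZero (Q.W ^ 2 * N) := ⟨hRpos.ne'⟩
    have hRN : N ≤ Q.W ^ 2 * N := Nat.le_mul_of_pos_left _ (by positivity)
    have hRN' : (N : ℝ) ≤ ((Q.W ^ 2 * N : ℕ) : ℝ) := by exact_mod_cast hRN
    have hn := hnx (Q.W ^ 2 * N) (n6.trans hRN)
    have hy : (Real.log N) ^ A ≤ (T.y : ℝ) := by
      rw [hTy]
      calc (Real.log N) ^ A ≤ (Real.log N) ^ P.C1 := pow_le_pow_right₀ g6 hPA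
        _ ≤ (Real.log ((Q.W ^ 2 * N : ℕ) : ℝ)) ^ P.C1 := pow_le_pow_left₀ (by linarith) g5.1 _
        _ ≤ _ := hn.num.M1
    have hEX : ((EX T κ).card : ℝ) ≤ (N : ℝ) ^ (1 - ε) := by
      have h1 : EX T κ ⊆ fset A δz κ N := by
        have := @fin_EX A δz κ T (by rw [hTN, hTz]) (by rw [hTN]; exact hy)
        rwa [hTN] at this
      exact le_trans (by exact_mod_cast card_le_card h1) hcon
    have hJ : ((fdat P Q N).J1 : ℝ) ≤ ((Q.W ^ 2 * N : ℕ) : ℝ) ^ (ε / 2 / 16) := by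
      have h1 : (J1 P Q N : ℝ) ≤ ((Q.W ^ 2 * J1 P Q N : ℕ) : ℝ) := by
        exact_mod_cast Nat.le_mul_of_pos_left _ (by positivity)
      rw [one_mul] at g4
      exact h1.trans (g3.trans (g4.trans (Real.rpow_le_rpow hN0.le hRN' (by positivity))))
    exact F3 (Q.W ^ 2 * N) (n1.trans hRN) (fun D' hD' => hcnt (Q.W ^ 2 * N) (n5.trans hRN) D' hD') (fdat P Q N) hB _ _ hPI
      (hap (Q.W ^ 2 * N) (n3.trans hRN) hn (fdat P Q N) hB.ok hJ _ _ (AFC P Q N T (fdat P Q N).J1)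
        (g1 hLg T hTN _ κ hκ hEX) (MPar.br4_rel P Q N T) (fun χ h1 h2 => (hsg (Q.W ^ 2 * N) (n4.trans hRN) χ h1 h2).2))
  obtain ⟨N0, hN0⟩ := eventually_atTop.1 hev
  exact ⟨δz, hδz, N0, fun N hN => hN0 N hN⟩

end Pool.Agent.Lib.TC
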