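import Pool.Agent.Lib.MP_7b7e48_nt.TC.POK

/-!
# K1: the sieve weight is at most the indicator (5.1)

`P = T.PS` (primes `≤ y0`), `B = bad ⊆ PS`; `P = T.PL`, `B = hits ⊆ PL`. `le_sum_flUp`, `sum_flLo_le` (FLM): with `s = [bad = ∅]`, `l = [hits = ∅]`: `Ls false ≤ s ≤ Ls true`, `Ll false ≤ l ≤ Ll true`.
`Ls⁻ Ll⁺ ≤ s Ll⁺` (`Ll⁺ ≥ 0`), `Ls⁺ (Ll⁺ - Ll⁻) ≥ s (Ll⁺ - Ll⁻)` (`Ll⁺ ≥ Ll⁻`), so `w ≤ [LL] s Ll⁻ ≤ [LL] s l`.
-/

set_option autoImplicit false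

open Finset

namespace Pool.Agent.Lib.TC

theorem K1 {S : MS} (M : Msr S) (T : Dat) (b1 b2 : ℕ) (c : S.Col) (μ : S.TX) (ν : S.TY) (X : ℤ) :
    M.w T b1 b2 c μ ν X ≤ ind (S.LL T c μ ν X ∧ S.bad T c μ ν X = ∅ ∧ S.hits T M.v M.x0 M.t2 c μ ν X = ∅) := by
  classical
  have hPS : ∀ r ∈ T.PS, r.Prime ∧ r ≤ T.y0 := by
    intro r hr
    unfold Dat.PS at hr
    rw [mem_filter, mem_range] at hr
    exact ⟨hr.2.1, by omega⟩
  have hPL : ∀ r ∈ T.PL, r.Prime ∧ r ≤ T.z := by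
    intro r hr
    unfold Dat.PL at hr
    rw [mem_filter, mem_range] at hr
    exact ⟨hr.2.1, by omega⟩
  have hbs : S.bad T c μ ν X ⊆ T.PS := by
    unfold MS.bad
    exact filter_subset _ _
  have hhs : S.hits T M.v M.x0 M.t2 c μ ν X ⊆ T.PL := by
    unfold MS.hits
    exact (filter_subset _ _).trans sdiff_subset
  have s1 : (if S.bad T c μ ν X = ∅ then (1 : ℝ) else 0) ≤ S.Ls T true b1 c μ ν X := by
    have := le_sum_flUp hPS b1 hbs
    simpa [MS.Ls, wt] using this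
  have s2 : S.Ls T false b1 c μ ν X ≤ (if S.bad T c μ ν X = ∅ then (1 : ℝ) else 0) := by
    have := sum_flLo_le hPS b1 hbs
    simpa [MS.Ls, wt] using this
  have l1 : (if S.hits T M.v M.x0 M.t2 c μ ν X = ∅ then (1 : ℝ) else 0) ≤ M.Ll T true b2 c μ ν X := by
    have := le_sum_flUp hPL b2 hhs
    simpa [Msr.Ll, wt] using this
  have l2 : M.Ll T false b2 c μ ν X ≤ (if S.hits T M.v M.x0 M.t2 c μ ν X = ∅ then (1 : ℝ) else 0) := by
    have := sum_flLo_le hPL b2 hhs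
    simpa [Msr.Ll, wt] using this
  unfold Msr.w
  set s : ℝ := if S.bad T c μ ν X = ∅ then (1 : ℝ) else 0 with hs
  set l : ℝ := if S.hits T M.v M.x0 M.t2 c μ ν X = ∅ then (1 : ℝ) else 0 with hl
  have hs0 : 0 ≤ s := by rw [hs]; split_ifs <;> norm_num
  have hl0 : 0 ≤ l := by rw [hl]; split_ifs <;> norm_num
  have key : S.Ls T false b1 c μ ν X * M.Ll T true b2 c μ ν X -
      S.Ls T true b1 c μ ν X * (M.Ll T true b2 c μ ν X - M.Ll T false b2 c μ ν X) ≤ s * l := by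
    have e1 : S.Ls T false b1 c μ ν X * M.Ll T true b2 c μ ν X ≤ s * M.Ll T true b2 c μ ν X :=
      mul_le_mul_of_nonneg_right s2 (hl0.trans l1)
    have e2 : s * (M.Ll T true b2 c μ ν X - M.Ll T false b2 c μ ν X) ≤
        S.Ls T true b1 c μ ν X * (M.Ll T true b2 c μ ν X - M.Ll T false b2 c μ ν X) :=
      mul_le_mul_of_nonneg_right s1 (by linarith)
    have e3 : s * M.Ll T false b2 c μ ν X ≤ s * l := mul_le_mul_of_nonneg_left l2 hs0
    nlinarith [e1, e2, e3]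
  by_cases hLL : S.LL T c μ ν X
  · have i1 : ind (S.LL T c μ ν X) = 1 := by simp [ind, hLL]
    rw [i1, one_mul]
    refine key.trans ?_
    by_cases hb : S.bad T c μ ν X = ∅
    · by_cases hh : S.hits T M.v M.x0 M.t2 c μ ν X = ∅
      · simp [hs, hl, hb, hh, ind, hLL]
      · simp [hs, hl, hb, hh, ind]
    · simp [hs, hb, ind]
  · have i1 : ind (S.LL T c μ ν X) = 0 := by simp [ind, hLL]
    rw [i1, zero_mul]
    simp [ind, hLL]

end Pool.Agent.Lib.TC
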