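import Pool.Agent.Lib.MP_7b7e48_nt.TC.K1
import Pool.Agent.Lib.MP_7b7e48_nt.TC.K7

/-!
# K8: `w > fm` gives a link

`K1`: `w ≤ 1` and `w ≤ 0` unless `LL`, `bad = ∅`, `hits = ∅`; `fm ≥ 0`. So these hold, and `fm < w ≤ 1`; `fm` is a sum of three cardinalities (`LL`), all three are `0`. `K7`.
(`hits`, `bad`, `w` at the integer `(X : ℤ)`. The second filter of `fm` runs over `N.primeFactors`, the third over `(prX prY).primeFactors`; `prX prY ≠ 0`.)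
-/

set_option autoImplicit false

open Finset

namespace Pool.Agent.Lib.TC

theorem K8 {S : MS} (M : Msr S) {T : Dat} {W0 : ℕ} {Z : Fin (S.k + 1) → ℕ} (hT : T.OK W0) (hS : S.OK T W0 Z) (b1 b2 : ℕ) {c : S.Col} (hc : c ∈ S.CC)
    {μ : S.TX} {ν : S.TY} (hμ : μ ∈ S.MX) (hν : ν ∈ S.MY) (hcop : (S.prX id μ).Coprime (S.prY id ν)) {X : ℕ}
    (h1 : S.prX id μ ∣ X) (h2 : S.prY id ν ∣ X - T.D * T.N) (h3 : T.D * T.N < X)
    (h4 : Real.exp (18 * (S.k + 1)) * ((X : ℝ) - T.D * T.N) ≤ X) (hN : X.Coprime T.N)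
    (hR : ∀ p : ℕ, p.Prime → p ≤ T.y → ¬ p ∣ X ∧ ¬ p ∣ X - T.D * T.N)
    (hw : M.fm T c μ ν X < M.w T b1 b2 c μ ν X) : S.Linked T μ ν X := by
  classical
  have h0 : 0 ≤ M.fm T c μ ν X := by
    unfold Msr.fm
    split_ifs
    · positivity
    · exact le_rfl
  have hk := K1 M T b1 b2 c μ ν (X : ℤ)
  by_cases hall : S.LL T c μ ν (X : ℤ) ∧ S.bad T c μ ν (X : ℤ) = ∅ ∧ S.hits T M.v M.x0 M.t2 c μ ν (X : ℤ) = ∅
  swap
  · have : ind (S.LL T c μ ν (X : ℤ) ∧ S.bad T c μ ν (X : ℤ) = ∅ ∧ S.hits T M.v M.x0 M.t2 c μ ν (X : ℤ) = ∅) = 0 := by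
      simp only [ind, if_neg hall]
    linarith
  have h1' : ind (S.LL T c μ ν (X : ℤ) ∧ S.bad T c μ ν (X : ℤ) = ∅ ∧ S.hits T M.v M.x0 M.t2 c μ ν (X : ℤ) = ∅) = 1 := by
    simp only [ind, if_pos hall]
  obtain ⟨hLL, hbad, hhits⟩ := hall
  have hf : M.fm T c μ ν X < 1 := by linarith
  unfold Msr.fm at hf
  rw [if_pos hLL] at hf
  set c1 := ((S.spec T M.v M.x0 M.t2 c μ ν).filter fun p => ∃ i < S.k + 1, p ∣ S.tI T c μ ν X i).card with hc1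
  set c2 := (T.N.primeFactors.filter fun p => T.z < p ∧ p ∣ S.SI T.N c μ ν).card with hc2
  set c3 := ((S.prX id μ * S.prY id ν).primeFactors.filter fun p => p ∣ S.SI T.N c μ ν).card with hc3
  have hn : c1 + c2 + c3 < 1 := by exact_mod_cast hf
  have z1 : c1 = 0 := by omega
  have z2 : c2 = 0 := by omega
  have z3 : c3 = 0 := by omega
  rw [hc1, card_eq_zero, filter_eq_empty_iff] at z1
  rw [hc2, card_eq_zero, filter_eq_empty_iff] at z2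
  rw [hc3, card_eq_zero, filter_eq_empty_iff] at z3
  have hN0 : T.N ≠ 0 := by have := hT.N_pos; omega
  have hp0 : S.prX id μ * S.prY id ν ≠ 0 := by
    have hX0 : X ≠ 0 := by omega
    have hY0 : X - T.D * T.N ≠ 0 := by omega
    refine mul_ne_zero ?_ ?_
    · intro h; rw [h, zero_dvd_iff] at h1; exact hX0 h1
    · intro h; rw [h, zero_dvd_iff] at h2; exact hY0 h2
  refine K7 hT hS hc hμ hν hcop (v := M.v) (x0 := M.x0) (t2 := M.t2) h1 h2 h3 h4 hN hR hLL hbad hhits ?_ ?_ ?_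
  · intro p hp i hi hd
    exact z1 hp ⟨i, hi, hd⟩
  · intro p hp hpN hz hd
    exact z2 (Nat.mem_primeFactors.2 ⟨hp, hpN, hN0⟩) ⟨hz, hd⟩
  · intro p hp hpd hd
    exact z3 (Nat.mem_primeFactors.2 ⟨hp, hpd, hp0⟩) hd

/-- the same from the sum over all colourings -/
theorem K8_sum {S : MS} (M : Msr S) {T : Dat} {W0 : ℕ} {Z : Fin (S.k + 1) → ℕ} (hT : T.OK W0) (hS : S.OK T W0 Z) (b1 b2 : ℕ)
    {μ : S.TX} {ν : S.TY} (hμ : μ ∈ S.MX) (hν : ν ∈ S.MY) (hcop : (S.prX id μ).Coprime (S.prY id ν)) {X : ℕ}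
    (h1 : S.prX id μ ∣ X) (h2 : S.prY id ν ∣ X - T.D * T.N) (h3 : T.D * T.N < X)
    (h4 : Real.exp (18 * (S.k + 1)) * ((X : ℝ) - T.D * T.N) ≤ X) (hN : X.Coprime T.N)
    (hR : ∀ p : ℕ, p.Prime → p ≤ T.y → ¬ p ∣ X ∧ ¬ p ∣ X - T.D * T.N)
    (hw : ∑ c ∈ S.CC, M.fm T c μ ν X < M.RR T b1 b2 μ ν X) : S.Linked T μ ν X := by
  unfold Msr.RR at hw
  obtain ⟨c, hc, hlt⟩ := exists_lt_of_sum_lt hw
  exact K8 M hT hS b1 b2 hc hμ hν hcop h1 h2 h3 h4 hN hR hlt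

end Pool.Agent.Lib.TC
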