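import Pool.Agent.Lib.MP_7b7e48_nt.TC.KDef
import Pool.Agent.Lib.MP_7b7e48_nt.TC.L5

/-!
# KC: the identities of the cycle of a pair of tuples modulo `q`
-/

set_option autoImplicit false

open Finset

namespace Pool.Agent.Lib.TC

/-- `Sm (k+1)` depends on the cofactors `l < k` only -/
theorem Sm_congr' {A B A' B' al be : ℕ → ℕ} : ∀ k : ℕ, (∀ l < k, A l = A' l ∧ B l = B' l) → Sm A B al be (k + 1) = Sm A' B' al be (k + 1) := by
  intro k
  induction k with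
  | zero => intro _; simp [Sm]
  | succ k ih =>
    intro h
    rw [Sm, ih fun l hl => h l (by omega)]
    rw [show Sm A' B' al be (k + 1 + 1) = Sm A' B' al be (k + 1) * (be (k + 1) * B' (k + 1 - 1)) +
      (al (k + 1) - be (k + 1)) * ∏ l ∈ range (k + 1), al l * A' l from rfl]
    rw [show k + 1 - 1 = k by omega, (h k (by omega)).2]
    congr 1
    congr 1
    refine prod_congr rfl fun l hl => ?_
    rw [mem_range] at hl
    rw [(h l hl).1]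

theorem AA_short (S : MS) (N : ℕ) (c : S.Col) (μ : S.TX) (ν : S.TY) (X X' : ℕ) {l : ℕ} (hl : l < S.k) :
    S.AA N c μ ν X l = S.AA N c μ ν X' l := by
  unfold MS.AA
  rw [if_pos hl, if_pos hl]

theorem BB_short (S : MS) (N : ℕ) (c : S.Col) (μ : S.TX) (ν : S.TY) (X X' : ℕ) {l : ℕ} (hl : l < S.k) :
    S.BB N c μ ν X l = S.BB N c μ ν X' l := by
  unfold MS.BB
  rw [if_pos hl, if_pos hl]

theorem SI_eq_Sm (S : MS) (N : ℕ) (c : S.Col) (μ : S.TX) (ν : S.TY) (X Y : ℕ) :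
    S.SI N c μ ν = Sm (S.AA N c μ ν X) (S.BB N c μ ν Y) (ext1 μ.1) (ext1 ν.1) (S.k + 1) := by
  unfold MS.SI
  exact Sm_congr' S.k fun l hl => ⟨AA_short S N c μ ν 0 X hl, BB_short S N c μ ν 0 Y hl⟩

theorem aq_val {q n : ℕ} {α : Fin n → ℕ} (h : ∀ i, (α i).Coprime q) {i : ℕ} (hi : i < n) :
    ((aq q α i : (ZMod q)ˣ) : ZMod q) = (ext1 α i : ℕ) := by
  unfold aq ext1
  rw [Loc.ex_lt _ hi, dif_pos hi]
  exact L0_val (h _)

theorem KC {S : MS} {T : Dat} {c : S.Col} {μ : S.TX} {ν : S.TY} {X : ℕ} {e t : ℕ → ℕ} (h : S.CF T c μ ν X e t) {q : ℕ}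
    (hX : T.D * T.N < X) (hc : S.CopM q μ ν) (hab : ∀ i, ν.1 i < μ.1 i) {i : ℕ} (hi : i ≤ S.k) :
    (T.D : ZMod q) * ((S.pq T.N q c μ ν i : ZMod q) * (t i : ZMod q)) =
      Loc.Ti (S.k + 1) (aq q μ.1) (aq q ν.1) (S.pq T.N q c μ ν) ((T.D : ZMod q) * T.N) ((X : ZMod q) - T.D * T.N) i ∧
    (T.D : ZMod q) * ((S.pq T.N q c μ ν i : ZMod q) * ((e i : ZMod q) * (S.AA T.N c μ ν X i : ZMod q))) =
      (aq q ν.1 i : ZMod q) * Loc.Ei (S.k + 1) (aq q μ.1) (aq q ν.1) (S.pq T.N q c μ ν) ((T.D : ZMod q) * T.N) ((X : ZMod q) - T.D * T.N) i := by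
  have hlast : T.D * e (S.k + 1 - 1) = Sm (S.AA T.N c μ ν X) (S.BB T.N c μ ν (X - T.D * T.N)) (ext1 μ.1) (ext1 ν.1) (S.k + 1) := by
    rw [Nat.add_sub_cancel, h.last]
    exact SI_eq_Sm S T.N c μ ν X _
  have hxs : ∀ i < S.k + 1 - 1, S.xs T.N q c μ ν i =
      aq q μ.1 (i + 1) * toU q (S.AA T.N c μ ν X i) * (aq q ν.1 i)⁻¹ * (toU q (S.BB T.N c μ ν (X - T.D * T.N) i))⁻¹ := by
    intro i hi
    have hi' : i < S.k := by omega
    unfold MS.xs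
    rw [AA_short S T.N c μ ν 0 X hi', BB_short S T.N c μ ν 0 (X - T.D * T.N) hi']
  have h1 := U01 (R := ZMod q) (m := S.k + 1) (by omega) h.cyc (fun i hi => by
      unfold ext1
      rw [dif_pos hi, dif_pos hi]
      exact hab _) hlast
    (aq q μ.1) (aq q ν.1) (fun i => toU q (S.AA T.N c μ ν X i)) (fun i => toU q (S.BB T.N c μ ν (X - T.D * T.N) i))
    (S.xs T.N q c μ ν) (fun i hi => aq_val (fun j => (hc.1 j).1) hi) (fun i hi => aq_val (fun j => (hc.1 j).2) hi)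
    (fun i hi => L0_val (L5_cop S hc X 0 (by omega)).1) (fun i hi => L0_val (L5_cop S hc 0 _ (by omega)).2)
    hxs (i := i) (by omega)
  have hY : (∏ l ∈ range (S.k + 1), (((ext1 ν.1 l : ℕ) : ZMod q) * (S.BB T.N c μ ν (X - T.D * T.N) l : ZMod q))) = (X : ZMod q) - T.D * T.N := by
    have := congrArg (fun z : ℕ => (z : ZMod q)) h.prodB
    push_cast at this
    rw [this, Nat.cast_sub hX.le]
    push_cast
    rfl
  rw [hY] at h1
  have hp : ∀ j ≤ S.k, Loc.pk (S.xs T.N q c μ ν) j = S.pq T.N q c μ ν j := fun j hj => (L5_pk S hc hj).symm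
  have hSg : Loc.Sg (S.k + 1) (aq q μ.1) (aq q ν.1) (Loc.pk (S.xs T.N q c μ ν)) = Loc.Sg (S.k + 1) (aq q μ.1) (aq q ν.1) (S.pq T.N q c μ ν) :=
    Loc.Sg_congr (fun _ _ => rfl) (fun _ _ => rfl) fun j hj => hp j (by omega)
  have hMi : Loc.Mi (aq q μ.1) (aq q ν.1) (Loc.pk (S.xs T.N q c μ ν)) i = Loc.Mi (aq q μ.1) (aq q ν.1) (S.pq T.N q c μ ν) i :=
    Loc.Mi_congr (fun _ _ => rfl) (fun _ _ => rfl) fun j hj => hp j (by omega)
  have hpar : ∑ j ∈ range (i + 1), ((Loc.pk (S.xs T.N q c μ ν) j : (ZMod q)ˣ) : ZMod q) * Loc.et (aq q μ.1) (aq q ν.1) j =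
      ∑ j ∈ range (i + 1), ((S.pq T.N q c μ ν j : (ZMod q)ˣ) : ZMod q) * Loc.et (aq q μ.1) (aq q ν.1) j := by
    refine sum_congr rfl fun j hj => ?_
    rw [mem_range] at hj
    rw [hp j (by omega)]
  unfold Loc.Ti Loc.Ei at h1 ⊢
  rw [hp i hi, hSg, hMi, hpar] at h1
  exact h1

end Pool.Agent.Lib.TC
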