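import Pool.Agent.Lib.MP_7b7e48_nt.TC.POK

/-!
# KDef: the cycle facts of a pair of tuples
-/

set_option autoImplicit false

open Finset

namespace Pool.Agent.Lib.TC

/-- the cycle facts of a pair of tuples (conclusion of `tI_facts`) -/
structure MS.CF (S : MS) (T : Dat) (c : S.Col) (μ : S.TX) (ν : S.TY) (X : ℕ) (e t : ℕ → ℕ) : Prop where
  cyc : Cyc T.N (S.k + 1) (S.AA T.N c μ ν X) (S.BB T.N c μ ν (X - T.D * T.N)) (ext1 μ.1) (ext1 ν.1) e t
  last : T.D * e S.k = S.SI T.N c μ ν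
  prodA : ∏ i ∈ range (S.k + 1), ext1 μ.1 i * S.AA T.N c μ ν X i = X
  prodB : ∏ i ∈ range (S.k + 1), ext1 ν.1 i * S.BB T.N c μ ν (X - T.D * T.N) i = X - T.D * T.N

end Pool.Agent.Lib.TC
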