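import Pool.Agent.Lib.MP_7b7e48_nt.TC.LocP
import Pool.Agent.Lib.MP_7b7e48_nt.TC.U07

/-!
# L0: residues of natural numbers, three good indices

* `L0_val`: `toU q n` is the class of `n` if `n` is coprime to `q` (`ZMod.coe_unitOfCoprime`).
* `L0_mul`: `toU q` is multiplicative on numbers coprime to `q` (`Units.ext`, `L0_val`). `L0_prod`: for finite products.
* `L0_unit`: `p` prime, `α`, `β` coprime to `p`, `α ≢ β` modulo `p`: `1/β - 1/α` is a unit modulo `p^e` (`e ≥ 1`): times the unit `αβ` it is `α - β`, and the class of an integer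
  in `ZMod (p^e)` is a unit iff `p` does not divide it (`ZMod.isUnit_iff_coprime` for natural numbers: take `|α - β|`).
* `L0`: at least three indices `i` with `α_i ≢ β_i` modulo `p`; order them; `aq q α i = toU q (α i)` for `i ≤ k` (`Loc.ex_lt`).
-/

set_option autoImplicit false

open Finset

namespace Pool.Agent.Lib.TC

theorem L0_val {q n : ℕ} (h : n.Coprime q) : ((toU q n : (ZMod q)ˣ) : ZMod q) = n := by
  unfold toU
  rw [dif_pos h]
  exact ZMod.coe_unitOfCoprime n h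

theorem L0_mul {q n n' : ℕ} (h : n.Coprime q) (h' : n'.Coprime q) : toU q (n * n') = toU q n * toU q n' := by
  apply Units.ext
  rw [L0_val (Nat.Coprime.mul_left h h'), Units.val_mul, L0_val h, L0_val h']
  push_cast
  rfl

theorem L0_prod {q : ℕ} {ι : Type*} (s : Finset ι) (f : ι → ℕ) (h : ∀ i ∈ s, (f i).Coprime q) : toU q (∏ i ∈ s, f i) = ∏ i ∈ s, toU q (f i) := by
  classical
  apply Units.ext
  rw [L0_val (Nat.Coprime.prod_left h)]
  push_cast
  exact prod_congr rfl fun i hi => (L0_val (h i hi)).symm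

theorem L0_unit {p e α β : ℕ} (hp : p.Prime) (he : 1 ≤ e) (hα : α.Coprime p) (hβ : β.Coprime p) (h : ¬ α ≡ β [MOD p]) :
    IsUnit ((((toU (p ^ e) β)⁻¹ : (ZMod (p ^ e))ˣ) : ZMod (p ^ e)) - (((toU (p ^ e) α)⁻¹ : (ZMod (p ^ e))ˣ) : ZMod (p ^ e))) := by
  have ha : α.Coprime (p ^ e) := Nat.Coprime.pow_right e hα
  have hb : β.Coprime (p ^ e) := Nat.Coprime.pow_right e hβ
  have hda : IsUnit ((α : ZMod (p ^ e)) - β) := by
    rcases le_total β α with hle | hle
    · have h1 : ((α : ZMod (p ^ e)) - β) = ((α - β : ℕ) : ZMod (p ^ e)) := by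
        rw [Nat.cast_sub hle]
      rw [h1, ZMod.isUnit_iff_coprime]
      refine Nat.Coprime.pow_right e ?_
      rw [Nat.coprime_comm, hp.coprime_iff_not_dvd]
      intro hd
      exact h ((Nat.modEq_iff_dvd' hle).2 hd).symm
    · have h1 : ((α : ZMod (p ^ e)) - β) = -((β - α : ℕ) : ZMod (p ^ e)) := by
        rw [Nat.cast_sub hle]
        ring
      rw [h1, IsUnit.neg_iff, ZMod.isUnit_iff_coprime]
      refine Nat.Coprime.pow_right e ?_
      rw [Nat.coprime_comm, hp.coprime_iff_not_dvd]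
      intro hd
      exact h ((Nat.modEq_iff_dvd' hle).2 hd)
  have h2 : ((((toU (p ^ e) β)⁻¹ : (ZMod (p ^ e))ˣ) : ZMod (p ^ e)) - (((toU (p ^ e) α)⁻¹ : (ZMod (p ^ e))ˣ) : ZMod (p ^ e))) =
      ((((toU (p ^ e) β)⁻¹ * (toU (p ^ e) α)⁻¹ : (ZMod (p ^ e))ˣ)) : ZMod (p ^ e)) * ((α : ZMod (p ^ e)) - β) := by
    rw [← L0_val ha, ← L0_val hb, mul_sub]
    rw [← Units.val_mul, ← Units.val_mul]
    congr 1
    · congr 1
      group
    · congr 1
      rw [mul_comm (toU (p ^ e) β)⁻¹, mul_assoc, inv_mul_cancel, mul_one]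
  rw [h2]
  exact (Units.isUnit _).mul hda

theorem L0 {p e k : ℕ} (hp : p.Prime) (he : 1 ≤ e) {α β : Fin (k + 1) → ℕ} (hc : ∀ i, (α i).Coprime p ∧ (β i).Coprime p)
    (h : 3 ≤ (univ.filter fun i : Fin (k + 1) => ¬ (α i ≡ β i [MOD p])).card) : Good3 k (aq (p ^ e) α) (aq (p ^ e) β) := by
  classical
  obtain ⟨t, hts, ht⟩ := Finset.exists_subset_card_eq h
  set f := t.orderEmbOfFin ht with hf
  have hmem : ∀ i, ¬ (α (f i) ≡ β (f i) [MOD p]) := by
    intro i
    have h1 : f i ∈ t := t.orderEmbOfFin_mem ht i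
    have h2 := hts h1
    rw [mem_filter] at h2
    exact h2.2
  have hlt : ∀ i j : Fin 3, i < j → ((f i : Fin (k + 1)) : ℕ) < ((f j : Fin (k + 1)) : ℕ) := by
    intro i j hij
    have : f i < f j := f.strictMono hij
    exact this
  have hun : ∀ i, IsUnit (Loc.et (aq (p ^ e) α) (aq (p ^ e) β) ((f i : Fin (k + 1)) : ℕ)) := by
    intro i
    have h1 := L0_unit hp he (hc (f i)).1 (hc (f i)).2 (hmem i)
    unfold Loc.et aq
    rw [Loc.ex_lt _ (f i).isLt, Loc.ex_lt _ (f i).isLt]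
    exact h1
  refine ⟨f 0, f 1, f 2, hlt 0 1 (by decide), hlt 1 2 (by decide), ?_, hun 0, hun 1, hun 2⟩
  have := (f 2).isLt
  omega

end Pool.Agent.Lib.TC
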