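import Pool.Agent.Lib.MP_7b7e48_nt.TC.LocP
import Pool.Agent.Lib.MP_7b7e48_nt.TC.U05

/-!
# L1a: the local proportion at a small prime

`p < p0`, `a = v_p(D) ≥ 2`, `al_i ≡ 1`, `be_i ≡ 1 - (-1)^i p` modulo `p²`, `k + 1` even. `p ∈ base` (`p ≤ y0`), `p < p0`, so the set in `lav` is `{P : cS (pp k P)}`.
`p ∣ P_j - 1` iff `castHom (P_j) = 1` in `ZMod p` (`j = 0` is trivial, `pp k P (j+1) = P j`). `al_0 yn Sg = np D` iff `Sg = τ`, `τ = np D/(al_0 yn)` (`yn` is a unit because `p ∤ yn`);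
`p² ∣ p^a ∣ D ∣ τ`. `U05_et` (with `ε = (-1)^j`) and `U05` give `card p^(a-1) = p^(ak)`; `|HP| = φ(p^(a+1)) = p^a (p-1)` (`ZMod.card_units_eq_totient`). So the proportion is
`p^(ak-a+1)/(p^a (p-1))^k = 1/((p-1)^k p^(a-1))` (`av_ind`).
-/

set_option autoImplicit false

open Finset

namespace Pool.Agent.Lib.TC

private theorem L1a_dvd {p a : ℕ} [NeZero (p ^ (a + 1))] (x : ZMod (p ^ (a + 1))) :
    ZMod.castHom (dvd_pow_self p (Nat.succ_ne_zero a)) (ZMod p) x = 1 ↔ (p : ZMod (p ^ (a + 1))) ∣ x - 1 := by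
  have h0 : ZMod.castHom (dvd_pow_self p (Nat.succ_ne_zero a)) (ZMod p) x = 1 ↔
      ZMod.castHom (dvd_pow_self p (Nat.succ_ne_zero a)) (ZMod p) (x - 1) = 0 := by
    rw [map_sub, map_one, sub_eq_zero]
  rw [h0]
  generalize x - 1 = y
  constructor
  · intro h
    have hx : y = ((y.val : ℕ) : ZMod (p ^ (a + 1))) := (ZMod.natCast_zmod_val y).symm
    rw [hx, map_natCast, ZMod.natCast_eq_zero_iff] at h
    obtain ⟨t, ht⟩ := h
    rw [hx, ht, Nat.cast_mul]
    exact dvd_mul_right _ _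
  · rintro ⟨t, rfl⟩
    rw [map_mul, map_natCast, ZMod.natCast_self, zero_mul]

theorem L1a (T : Dat) {k p yn : ℕ} (hp : p.Prime) (hlt : p < T.p0) (hle : p ≤ T.y0) (hD : T.D ≠ 0) (ha : 2 ≤ padicValNat p T.D) (hk : Even (k + 1))
    (hk1 : 1 ≤ k) (hy : ¬ p ∣ yn) (al be : ℕ → HP T.D p)
    (haw : ∀ i ≤ k, (p : RP T.D p) ^ 2 ∣ (al i : RP T.D p) - 1)
    (hbw : ∀ i ≤ k, (p : RP T.D p) ^ 2 ∣ (be i : RP T.D p) - (1 - (-1) ^ i * (p : RP T.D p))) :
    lav T k p yn False al be = 1 / (((p : ℝ) - 1) ^ k * (p : ℝ) ^ (padicValNat p T.D - 1)) := by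
  classical
  have : Fact p.Prime := ⟨hp⟩
  have : NeZero (p ^ (padicValNat p T.D + 1)) := ⟨pow_ne_zero _ hp.ne_zero⟩
  have hcop : yn.Coprime (p ^ (padicValNat p T.D + 1)) :=
    Nat.Coprime.pow_right _ ((Nat.Prime.coprime_iff_not_dvd hp).2 hy).symm
  obtain ⟨w, hw⟩ : ∃ w : HP T.D p, (w : RP T.D p) = (al 0 : RP T.D p) * yn :=
    ⟨al 0 * ZMod.unitOfCoprime yn hcop, by rw [Units.val_mul, ZMod.coe_unitOfCoprime]⟩
  obtain ⟨τ, hτd⟩ : ∃ τ : RP T.D p, τ = ((w⁻¹ : HP T.D p) : RP T.D p) * ((T.np p : RP T.D p) * T.D) := ⟨_, rfl⟩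
  have hτ : (p : RP T.D p) ^ 2 ∣ τ := by
    have h1 : p ^ 2 ∣ T.D := (pow_dvd_pow p ha).trans pow_padicValNat_dvd
    have h2 : (p : RP T.D p) ^ 2 ∣ (T.D : RP T.D p) := by
      rw [← Nat.cast_pow]
      exact Nat.cast_dvd_cast h1
    rw [hτd]
    exact Dvd.dvd.mul_left (Dvd.dvd.mul_left h2 _) _
  have het : ∀ j ≤ k, ∃ c : RP T.D p, Loc.et al be j = (-1) ^ j * (p : RP T.D p) + (p : RP T.D p) ^ 2 * c := by
    intro j hj
    refine U05_et (p : RP T.D p) ((-1) ^ j) ?_ _ _ (haw j hj) (hbw j hj)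
    rw [← mul_pow, neg_one_mul, neg_neg, one_pow]
  have hcount := U05 (p := p) (a := padicValNat p T.D) ha hk hk1 al be het τ hτ
  have hbase : p ∈ T.base := by
    unfold Dat.base
    exact Finset.mem_filter.2 ⟨Finset.mem_range.2 (by omega), hp, Or.inl hlt⟩
  have hiff : ∀ P : Fin k → HP T.D p, cb T k p yn False al be (Loc.pp k P) ↔
      ((∀ j, ZMod.castHom (dvd_pow_self p (Nat.succ_ne_zero (padicValNat p T.D))) (ZMod p) (P j : RP T.D p) = 1) ∧
        Loc.Sg (k + 1) al be (Loc.pp k P) = τ) := by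
    intro P
    have h1 : cb T k p yn False al be (Loc.pp k P) ↔ cS T k p yn al be (Loc.pp k P) := by
      unfold cb cP
      rw [if_pos hlt]
      exact ⟨fun h => h.1 hbase, fun h => ⟨fun _ => h, fun h' => h'.elim⟩⟩
    rw [h1]
    unfold cS
    refine and_congr ?_ ?_
    · constructor
      · intro h j
        have h2 := h (j.val + 1) (by omega)
        rw [Loc.pp_succ P j.isLt] at h2
        exact (L1a_dvd _).2 h2
      · intro h j hj
        rcases j with _ | j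
        · have h3 : Loc.pp k P 0 = 1 := rfl
          rw [h3, Units.val_one, sub_self]
          exact dvd_zero _
        · rw [Loc.pp_succ P (show j < k by omega)]
          exact (L1a_dvd _).1 (h ⟨j, by omega⟩)
    · rw [← hw, hτd]
      constructor
      · intro h
        rw [← h, ← mul_assoc, Units.inv_mul, one_mul]
      · intro h
        rw [h, ← mul_assoc, Units.mul_inv, one_mul]
  unfold lav
  rw [av_congr (fun P => congrArg ind (propext (hiff P))), av_ind]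
  obtain ⟨C, hC⟩ : ∃ C : ℕ, C = ((univ : Finset (Fin k → HP T.D p)).filter fun P =>
      (∀ j, ZMod.castHom (dvd_pow_self p (Nat.succ_ne_zero (padicValNat p T.D))) (ZMod p) (P j : RP T.D p) = 1) ∧
        Loc.Sg (k + 1) al be (Loc.pp k P) = τ).card := ⟨_, rfl⟩
  have hcount' : C * p ^ (padicValNat p T.D - 1) = p ^ (padicValNat p T.D * k) := by
    rw [hC]
    exact hcount
  have hcard : Fintype.card (Fin k → HP T.D p) = (p ^ padicValNat p T.D * (p - 1)) ^ k := by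
    rw [Fintype.card_fun, Fintype.card_fin, ZMod.card_units_eq_totient, Nat.totient_prime_pow_succ hp]
  rw [hcard]
  have hgoal : ((((univ : Finset (Fin k → HP T.D p)).filter fun P =>
      (∀ j, ZMod.castHom (dvd_pow_self p (Nat.succ_ne_zero (padicValNat p T.D))) (ZMod p) (P j : RP T.D p) = 1) ∧
        Loc.Sg (k + 1) al be (Loc.pp k P) = τ).card : ℕ) : ℝ) = (C : ℝ) := by rw [hC]
  refine (congrArg (fun t : ℝ => t / (((p ^ padicValNat p T.D * (p - 1)) ^ k : ℕ) : ℝ)) (Eq.trans ?_ hgoal)).trans ?_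
  · congr 2
  generalize padicValNat p T.D = a at hcount'
  have hp1 : (1 : ℝ) < p := by exact_mod_cast hp.one_lt
  have hp0 : (0 : ℝ) < (p : ℝ) - 1 := by linarith
  have hcr : (C : ℝ) * (p : ℝ) ^ (a - 1) = (p : ℝ) ^ (a * k) := by exact_mod_cast hcount'
  have hpc : ((p - 1 : ℕ) : ℝ) = (p : ℝ) - 1 := by
    rw [Nat.cast_sub hp.one_lt.le, Nat.cast_one]
  push_cast
  rw [hpc, mul_pow, ← pow_mul, ← hcr]
  have h1 : (C : ℝ) ≠ 0 := by
    intro h
    rw [h, zero_mul] at hcr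
    have : (0 : ℝ) < (p : ℝ) ^ (a * k) := by positivity
    linarith
  have h2 : ((p : ℝ)) ^ (a - 1) ≠ 0 := by positivity
  have h3 : ((p : ℝ) - 1) ^ k ≠ 0 := pow_ne_zero _ hp0.ne'
  field_simp


end Pool.Agent.Lib.TC
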