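import Pool.Agent.Lib.MP_7b7e48_nt.TC.Loc

/-!
# U16: sharp count of the zeros of a linear form in units modulo `p`

* `U16_N`: `f(r)` = number of `u : Fin r → (ZMod p)ˣ` with `∑ u = 0`, `g(r, c)` = number with `∑ u = c`, `c ≠ 0` (independent of `c` by scaling). `p f(r) = (p-1)^r + (-1)^r (p-1)`,
  `p g(r) = (p-1)^r - (-1)^r`: `f(r+1) = (p-1)^r - f(r)` (the last variable is determined and nonzero iff the partial sum is not zero) and
  `g = ((p-1)^r - f)/(p-1)`; or by induction for all `c` at once: number `n_r(c)` of solutions of `∑ u = c`: `n_{r+1}(c) = (p-1)^r - n_r(c)`.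
* `U16`: `c : Fin k → ZMod p`, `c₀`. Let `r` be the number of `j` with `c j ≠ 0`. The variables with `c j = 0` are free: `(p-1)^(k-r)`; the others are scaled. So
  `|p Z - (p-1)^k| = (p-1)^(k-r) (p-1)` if `c₀ = 0` and `(p-1)^(k-r)` if `c₀ ≠ 0`. With `r + [c₀ ≠ 0] ≥ 3` both are at most `(p-1)^(k-2)`. In the product form
  `|p Z - (p-1)^k| (p-1)^2 ≤ (p-1)^k`.
* `U16_Sg`: for the form `Sg (k+1) al be (pp k P) = et 0 + ∑_{j<k} P_j et (j+1)` with three indices `≤ k` where `et ≠ 0`.
-/

set_option autoImplicit false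

open Finset
open Pool.Agent.Lib.TC.Loc

namespace Pool.Agent.Lib.TC

private theorem U16_gen {p : ℕ} [Fact p.Prime] (k : ℕ) (c : Fin k → ZMod p) (c₀ : ZMod p) :
    (p : ℤ) * ((univ : Finset (Fin k → (ZMod p)ˣ)).filter fun x => ∑ j, c j * (x j : ZMod p) = c₀).card =
      ((p : ℤ) - 1) ^ k + (∏ j, if c j = 0 then (p : ℤ) - 1 else -1) * (if c₀ = 0 then (p : ℤ) - 1 else -1) := by
  classical
  have hp : 2 ≤ p := (Fact.out : p.Prime).two_le
  have hU : (Fintype.card (ZMod p)ˣ : ℤ) = (p : ℤ) - 1 := by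
    rw [ZMod.card_units p]
    push_cast [Nat.cast_sub (show 1 ≤ p by omega)]
    ring
  induction k with
  | zero =>
    by_cases h : c₀ = 0
    · subst h
      simp
    · have : ((univ : Finset (Fin 0 → (ZMod p)ˣ)).filter fun x => ∑ j, c j * (x j : ZMod p) = c₀) = ∅ := by
        rw [filter_eq_empty_iff]
        intro x _
        simp only [univ_eq_empty, sum_empty]
        exact fun hh => h hh.symm
      rw [this]
      simp [h]
  | succ k ih =>
    have ih' := ih (fun j => c j.succ)
    rw [Fin.prod_univ_succ]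
    by_cases h0 : c 0 = 0
    · rw [if_pos h0]
      have h1 : ((univ : Finset (Fin (k + 1) → (ZMod p)ˣ)).filter fun x => ∑ j, c j * (x j : ZMod p) = c₀).card =
          ((univ : Finset (ZMod p)ˣ) ×ˢ ((univ : Finset (Fin k → (ZMod p)ˣ)).filter fun x =>
            ∑ j, c j.succ * (x j : ZMod p) = c₀)).card := by
        refine Finset.card_equiv (Fin.consEquiv (fun _ => (ZMod p)ˣ)).symm ?_
        intro x
        rw [mem_filter, mem_product, mem_filter, Fin.sum_univ_succ, h0, zero_mul, zero_add]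
        simp [Fin.consEquiv, Fin.tail]
      rw [h1, card_product, card_univ]
      push_cast
      rw [hU]
      have e : (p : ℤ) * (((p : ℤ) - 1) * (((univ : Finset (Fin k → (ZMod p)ˣ)).filter fun x =>
            ∑ j, c j.succ * (x j : ZMod p) = c₀).card : ℤ)) = ((p : ℤ) - 1) * ((p : ℤ) * (((univ : Finset (Fin k → (ZMod p)ˣ)).filter fun x =>
            ∑ j, c j.succ * (x j : ZMod p) = c₀).card : ℤ)) := by ring
      rw [e, ih' , pow_succ]
      ring
    · rw [if_neg h0]
      have h1 : ((univ : Finset (Fin (k + 1) → (ZMod p)ˣ)).filter fun x => ∑ j, c j * (x j : ZMod p) = c₀).card =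
          ((univ : Finset (Fin k → (ZMod p)ˣ)).filter fun x => ¬ ∑ j, c j.succ * (x j : ZMod p) = c₀).card := by
        refine Finset.card_bij (fun x _ => Fin.tail x) ?_ ?_ ?_
        · intro x hx
          rw [mem_filter, Fin.sum_univ_succ] at hx
          rw [mem_filter]
          refine ⟨mem_univ _, fun hc => ?_⟩
          have h2 : c 0 * (x 0 : ZMod p) = 0 := by
            have h3 := hx.2
            have h4 : ∑ j : Fin k, c j.succ * (x j.succ : ZMod p) = c₀ := hc
            rw [h4] at h3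
            exact add_eq_right.1 h3
          rcases mul_eq_zero.1 h2 with h3 | h3
          · exact h0 h3
          · exact (x 0).ne_zero h3
        · intro x hx y hy hxy
          rw [mem_filter, Fin.sum_univ_succ] at hx hy
          have h2 : ∀ j : Fin k, x j.succ = y j.succ := fun j => congrFun hxy j
          have h3 : ∑ j : Fin k, c j.succ * (x j.succ : ZMod p) = ∑ j : Fin k, c j.succ * (y j.succ : ZMod p) :=
            sum_congr rfl fun j _ => by rw [h2 j]
          have h4 : c 0 * (x 0 : ZMod p) = c 0 * (y 0 : ZMod p) := by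
            have h5 := hx.2.trans hy.2.symm
            rw [h3] at h5
            exact add_right_cancel h5
          have h5 : x 0 = y 0 := Units.ext (mul_left_cancel₀ h0 h4)
          funext j
          refine Fin.cases h5 (fun i => h2 i) j
        · intro v hv
          rw [mem_filter] at hv
          have h2 : (c 0)⁻¹ * (c₀ - ∑ j : Fin k, c j.succ * (v j : ZMod p)) ≠ 0 :=
            mul_ne_zero (inv_ne_zero h0) (sub_ne_zero.2 (Ne.symm hv.2))
          refine ⟨Fin.cons (Units.mk0 _ h2) v, ?_, ?_⟩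
          · rw [mem_filter, Fin.sum_univ_succ]
            refine ⟨mem_univ _, ?_⟩
            simp only [Fin.cons_zero, Fin.cons_succ, Units.val_mk0]
            rw [mul_inv_cancel_left₀ h0]
            ring
          · exact Fin.tail_cons _ _
      have h2 := Finset.card_filter_add_card_filter_not (s := (univ : Finset (Fin k → (ZMod p)ˣ)))
        (fun x => ∑ j, c j.succ * (x j : ZMod p) = c₀)
      rw [card_univ, Fintype.card_fun, Fintype.card_fin] at h2
      rw [← h1] at h2
      have h3 : ((((univ : Finset (Fin k → (ZMod p)ˣ)).filter fun x => ∑ j, c j.succ * (x j : ZMod p) = c₀).card : ℤ)) +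
          ((univ : Finset (Fin (k + 1) → (ZMod p)ˣ)).filter fun x => ∑ j, c j * (x j : ZMod p) = c₀).card =
          ((p : ℤ) - 1) ^ k := by
        rw [← hU]
        exact_mod_cast h2
      have h4 := ih' 
      rw [pow_succ]
      linear_combination (p : ℤ) * h3 - h4

theorem U16_N {p : ℕ} [Fact p.Prime] (r : ℕ) (c : ZMod p) :
    (p : ℤ) * ((univ : Finset (Fin r → (ZMod p)ˣ)).filter fun u => ∑ j, (u j : ZMod p) = c).card =
      ((p : ℤ) - 1) ^ r + (-1) ^ r * (if c = 0 then (p : ℤ) - 1 else -1) := by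
  have h := U16_gen r (fun _ => (1 : ZMod p)) c
  simp only [one_mul, one_ne_zero, if_false, prod_const, card_univ, Fintype.card_fin] at h
  exact h

theorem U16 {p k : ℕ} [Fact p.Prime] (c : Fin k → ZMod p) (c₀ : ZMod p)
    (h : 3 ≤ (univ.filter fun j => c j ≠ 0).card + (if c₀ = 0 then 0 else 1)) :
    |(p : ℤ) * ((univ : Finset (Fin k → (ZMod p)ˣ)).filter fun x => ∑ j, c j * (x j : ZMod p) = c₀).card - ((p : ℤ) - 1) ^ k| * ((p : ℤ) - 1) ^ 2 ≤
      ((p : ℤ) - 1) ^ k := by
  classical
  have hp : 2 ≤ p := (Fact.out : p.Prime).two_le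
  have hq : (1 : ℤ) ≤ (p : ℤ) - 1 := by
    have : (2 : ℤ) ≤ p := by exact_mod_cast hp
    linarith
  rw [U16_gen k c c₀, add_sub_cancel_left, abs_mul, Finset.abs_prod]
  have h1 : ∏ j, |if c j = 0 then (p : ℤ) - 1 else -1| = ((p : ℤ) - 1) ^ (univ.filter fun j => c j = 0).card := by
    rw [← Finset.prod_const, Finset.prod_filter]
    refine prod_congr rfl fun j _ => ?_
    by_cases hj : c j = 0
    · rw [if_pos hj, if_pos hj, abs_of_pos (by linarith)]
    · rw [if_neg hj, if_neg hj]
      simp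
  have h2 : |if c₀ = 0 then (p : ℤ) - 1 else -1| = ((p : ℤ) - 1) ^ (if c₀ = 0 then 1 else 0) := by
    by_cases hj : c₀ = 0
    · rw [if_pos hj, if_pos hj, abs_of_pos (by linarith), pow_one]
    · rw [if_neg hj, if_neg hj]
      simp
  rw [h1, h2, ← pow_add, ← pow_add]
  refine pow_le_pow_right₀ hq ?_
  have h3 := Finset.card_filter_add_card_filter_not (s := (univ : Finset (Fin k))) (fun j => c j = 0)
  rw [card_univ, Fintype.card_fin] at h3
  have h4 : (univ.filter fun j => c j ≠ 0).card = (univ.filter fun j => ¬ c j = 0).card := rfl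
  rw [h4] at h
  by_cases hj : c₀ = 0
  · rw [if_pos hj] at h ⊢
    omega
  · rw [if_neg hj] at h ⊢
    omega

theorem U16_Sg {p k : ℕ} [Fact p.Prime] (al be : ℕ → (ZMod p)ˣ) {j₁ j₂ j₃ : ℕ} (h12 : j₁ < j₂) (h23 : j₂ < j₃) (h3 : j₃ ≤ k)
    (hu1 : et al be j₁ ≠ 0) (hu2 : et al be j₂ ≠ 0) (hu3 : et al be j₃ ≠ 0) :
    |(p : ℤ) * ((univ : Finset (Fin k → (ZMod p)ˣ)).filter fun P => Sg (k + 1) al be (pp k P) = 0).card - ((p : ℤ) - 1) ^ k| * ((p : ℤ) - 1) ^ 2 ≤
      ((p : ℤ) - 1) ^ k := by
  classical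
  have h : ((univ : Finset (Fin k → (ZMod p)ˣ)).filter fun P => Sg (k + 1) al be (pp k P) = 0) =
      ((univ : Finset (Fin k → (ZMod p)ˣ)).filter fun P =>
        ∑ j, (fun i : Fin k => et al be (i + 1)) j * (P j : ZMod p) = - et al be 0) := by
    ext P
    simp only [mem_filter, mem_univ, true_and]
    have h1 : Sg (k + 1) al be (pp k P) = et al be 0 + ∑ j : Fin k, et al be (j + 1) * (P j : ZMod p) := by
      unfold Sg
      rw [sum_range_succ', add_comm]
      congr 1
      · simp [pp]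
      · rw [← Fin.sum_univ_eq_sum_range (fun j => ((pp k P (j + 1) : (ZMod p)ˣ) : ZMod p) * et al be (j + 1)) k]
        refine sum_congr rfl fun j _ => ?_
        rw [pp_succ P j.2, mul_comm]
    rw [h1, eq_neg_iff_add_eq_zero, add_comm]
  rw [h]
  apply U16
  have e2 : j₂ - 1 + 1 = j₂ := by omega
  have e3 : j₃ - 1 + 1 = j₃ := by omega
  have m2 : (⟨j₂ - 1, by omega⟩ : Fin k) ∈ univ.filter (fun j : Fin k => (fun i : Fin k => et al be (i + 1)) j ≠ 0) := by
    rw [mem_filter]
    refine ⟨mem_univ _, ?_⟩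
    show et al be (j₂ - 1 + 1) ≠ 0
    rw [e2]
    exact hu2
  have m3 : (⟨j₃ - 1, by omega⟩ : Fin k) ∈ univ.filter (fun j : Fin k => (fun i : Fin k => et al be (i + 1)) j ≠ 0) := by
    rw [mem_filter]
    refine ⟨mem_univ _, ?_⟩
    show et al be (j₃ - 1 + 1) ≠ 0
    rw [e3]
    exact hu3
  by_cases hj : j₁ = 0
  · have h0 : ¬ (- et al be 0 = 0) := by
      rw [neg_eq_zero, ← hj]
      exact hu1
    rw [if_neg h0]
    have h4 : ({(⟨j₂ - 1, by omega⟩ : Fin k), (⟨j₃ - 1, by omega⟩ : Fin k)} : Finset (Fin k)) ⊆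
        univ.filter (fun j : Fin k => (fun i : Fin k => et al be (i + 1)) j ≠ 0) := by
      intro x hx
      rw [mem_insert, mem_singleton] at hx
      rcases hx with rfl | rfl
      · exact m2
      · exact m3
    have h5 := card_le_card h4
    rw [card_pair (by rw [Ne, Fin.mk.injEq]; omega)] at h5
    exact Nat.add_le_add_right h5 1
  · have e1 : j₁ - 1 + 1 = j₁ := by omega
    have m1 : (⟨j₁ - 1, by omega⟩ : Fin k) ∈ univ.filter (fun j : Fin k => (fun i : Fin k => et al be (i + 1)) j ≠ 0) := by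
      rw [mem_filter]
      refine ⟨mem_univ _, ?_⟩
      show et al be (j₁ - 1 + 1) ≠ 0
      rw [e1]
      exact hu1
    have h4 : ({(⟨j₁ - 1, by omega⟩ : Fin k), (⟨j₂ - 1, by omega⟩ : Fin k), (⟨j₃ - 1, by omega⟩ : Fin k)} : Finset (Fin k)) ⊆
        univ.filter (fun j : Fin k => (fun i : Fin k => et al be (i + 1)) j ≠ 0) := by
      intro x hx
      rw [mem_insert, mem_insert, mem_singleton] at hx
      rcases hx with rfl | rfl | rfl
      · exact m1
      · exact m2
      · exact m3
    have h5 := card_le_card h4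
    rw [card_eq_three.2 ⟨_, _, _, by rw [Ne, Fin.mk.injEq]; omega, by rw [Ne, Fin.mk.injEq]; omega,
      by rw [Ne, Fin.mk.injEq]; omega, rfl⟩] at h5
    exact le_trans h5 (Nat.le_add_right _ _)

end Pool.Agent.Lib.TC
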