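import Pool.Agent.Lib.MP_7b7e48_nt.TC.LocP
import Pool.Agent.Lib.MP_7b7e48_nt.TC.U07
import Pool.Agent.Lib.MP_7b7e48_nt.TC.U16

/-!
# L1b, L1c: the local proportions at a prime `p ≥ p0`

`a = v_p(D)`, `R = ZMod (p^(a+1))`, `|HP| = p^a (p-1)`; `av_ind`.
* `L1b` (`a ≥ 1`, `p ∈ base`, `p ≥ p0`: the set is `{P : cD (pp k P)} = {p^a ∣ Sg}`): their number is `Z p^(ak)/p^(a-1)` (`U06_lift` for each zero modulo `p`; a `P` with
  `p^a ∣ Sg` reduces to a zero modulo `p`, `U06_Sg`), `|p Z - (p-1)^k| (p-1)² ≤ (p-1)^k` (`U16_Sg`; the reductions of unit `et` are nonzero), so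
  `lav = Z p^(ak-a+1)/(p^a (p-1))^k = p^(1-a) Z/(p-1)^k`, `|lav - p^(-a)| ≤ p^(-a) (p-1)^(-2) ≤ 4 p^(-a-2)`.
* `L1c`: `bP` is `cD` and `Bad` (`U07`, `Yn = yn`), so `U07` gives `#{bP} p ≤ 8 (k+1) #{cD}`. If `p ∣ D`: `p ∈ base`, the set for `True` is `{cD ∧ bP} = {bP}`, for `False` it is `{cD}`.
  If `p ∤ D`: `p ∉ base`; the set for `True` is `{bP}`, for `False` everything, and `cD` holds always (`p^0 = 1`).
-/

set_option autoImplicit false

open Finset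

open Pool.Agent.Lib.TC.Loc

namespace Pool.Agent.Lib.TC

open Classical in
private theorem L1b_cnt {p a k : ℕ} [Fact p.Prime] [NeZero (p ^ (a + 1))] (ha : 1 ≤ a)
    (al be : ℕ → (ZMod (p ^ (a + 1)))ˣ) (hg : Good3 k al be) : ∃ Z : ℕ,
    ((univ : Finset (Fin k → (ZMod (p ^ (a + 1)))ˣ)).filter fun P =>
      (p : ZMod (p ^ (a + 1))) ^ a ∣ Sg (k + 1) al be (pp k P)).card * p ^ (a - 1) = Z * p ^ (a * k) ∧
    |(p : ℤ) * Z - ((p : ℤ) - 1) ^ k| * ((p : ℤ) - 1) ^ 2 ≤ ((p : ℤ) - 1) ^ k := by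
  obtain ⟨j₁, j₂, j₃, h12, h23, h3, u1, u2, u3⟩ := hg
  obtain ⟨T, hT⟩ : ∃ T : Finset (Fin k → (ZMod (p ^ (a + 1)))ˣ), T = ((univ : Finset (Fin k → (ZMod (p ^ (a + 1)))ˣ)).filter fun P =>
      (p : ZMod (p ^ (a + 1))) ^ a ∣ Sg (k + 1) al be (pp k P)) := ⟨_, rfl⟩
  obtain ⟨Z, hZ⟩ : ∃ Z : Finset (Fin k → (ZMod p)ˣ), Z = ((univ : Finset (Fin k → (ZMod p)ˣ)).filter fun P =>
      Sg (k + 1) (fun j => rdu p a (al j)) (fun j => rdu p a (be j)) (pp k P) = 0) := ⟨_, rfl⟩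
  have het : ∀ i, rd p a (et al be i) = et (fun j => rdu p a (al j)) (fun j => rdu p a (be j)) i := by
    intro i
    unfold et
    rw [map_sub, ← map_inv (rdu p a), ← map_inv (rdu p a)]
    rfl
  have hpp : ∀ P : Fin k → (ZMod (p ^ (a + 1)))ˣ, (fun j => rdu p a (pp k P j)) = pp k (fun j => rdu p a (P j)) := by
    intro P
    funext j
    cases j with
    | zero => simp [pp]
    | succ j =>
      by_cases hj : j < k
      · rw [pp_succ P hj, pp_succ _ hj]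
      · simp [pp, ex, hj]
  refine ⟨Z.card, ?_, ?_⟩
  · rw [← hT]
    have hfb := Finset.card_eq_sum_card_fiberwise (s := T) (t := Z) (f := fun P => fun j => rdu p a (P j))
      (fun P hP => by
        rw [Finset.mem_coe] at hP ⊢
        rw [hT, mem_filter] at hP
        rw [hZ, mem_filter]
        refine ⟨mem_univ _, ?_⟩
        rw [← hpp, ← U06_Sg]
        obtain ⟨c, hc⟩ := hP.2
        rw [hc, map_mul, map_pow, map_natCast, ZMod.natCast_self, zero_pow (by omega), zero_mul])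
    rw [hfb, sum_mul, sum_congr rfl (g := fun _ => p ^ (a * k)), sum_const, smul_eq_mul]
    intro Q hQ
    rw [hZ, mem_filter] at hQ
    have h4 := U06_lift ha al be (show 1 ≤ j₂ by omega) (show j₂ ≤ k by omega) u2 Q hQ.2
    rw [← h4]
    congr 2
    rw [hT, filter_filter]
    ext P
    simp only [mem_filter, mem_univ, true_and]
    rw [and_comm]
    refine and_congr ?_ Iff.rfl
    constructor
    · intro h j
      exact congrFun h j
    · intro h
      funext j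
      exact h j
  · have hu : ∀ i, IsUnit (et al be i) →
        et (fun j => rdu p a (al j)) (fun j => rdu p a (be j)) i ≠ 0 := by
      intro i h
      rw [← het]
      exact (h.map (rd p a)).ne_zero
    have h4 := U16_Sg (fun j => rdu p a (al j)) (fun j => rdu p a (be j)) h12 h23 h3 (hu _ u1)
      (hu _ u2) (hu _ u3)
    have hZc : ((univ : Finset (Fin k → (ZMod p)ˣ)).filter fun P =>
        Sg (k + 1) (fun j => rdu p a (al j)) (fun j => rdu p a (be j)) (pp k P) = 0).card = Z.card := by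
      rw [hZ]
    rw [hZc] at h4
    exact h4

private theorem L1b_card {p a k : ℕ} [Fact p.Prime] [NeZero (p ^ (a + 1))] :
    Fintype.card (Fin k → (ZMod (p ^ (a + 1)))ˣ) = (p - 1) ^ k * p ^ (a * k) := by
  rw [Fintype.card_fun, Fintype.card_fin, ZMod.card_units_eq_totient,
    Nat.totient_prime_pow_succ (Fact.out : p.Prime), mul_pow, ← pow_mul]
  ring

private theorem L1b_num {p a k t Z : ℕ} (hp : 5 ≤ p) (ha : 1 ≤ a)
    (h1 : t * p ^ (a - 1) = Z * p ^ (a * k))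
    (h2 : |(p : ℤ) * Z - ((p : ℤ) - 1) ^ k| * ((p : ℤ) - 1) ^ 2 ≤ ((p : ℤ) - 1) ^ k) :
    |(t : ℝ) / (((p - 1) ^ k * p ^ (a * k) : ℕ) : ℝ) - 1 / (p : ℝ) ^ a| ≤ 4 / (p : ℝ) ^ (a + 2) := by
  have hp0 : (0 : ℝ) < p := by
    have : 0 < p := by omega
    exact_mod_cast this
  have hp5 : (5 : ℝ) ≤ p := by exact_mod_cast hp
  have hp1 : (0 : ℝ) < (p : ℝ) - 1 := by linarith
  have e1 : (((p - 1) ^ k * p ^ (a * k) : ℕ) : ℝ) = ((p : ℝ) - 1) ^ k * (p : ℝ) ^ (a * k) := by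
    rw [Nat.cast_mul, Nat.cast_pow, Nat.cast_pow, Nat.cast_sub (by omega)]
    simp
  have h1' : (t : ℝ) * (p : ℝ) ^ (a - 1) = Z * (p : ℝ) ^ (a * k) := by exact_mod_cast h1
  have h2' : |(p : ℝ) * Z - ((p : ℝ) - 1) ^ k| * ((p : ℝ) - 1) ^ 2 ≤ ((p : ℝ) - 1) ^ k := by
    exact_mod_cast h2
  obtain ⟨b, rfl⟩ : ∃ b, a = b + 1 := ⟨a - 1, by omega⟩
  rw [Nat.add_sub_cancel] at h1'
  have hE : (0 : ℝ) < ((p : ℝ) - 1) ^ k := pow_pos hp1 _
  have hG : (0 : ℝ) < (p : ℝ) ^ ((b + 1) * k) := pow_pos hp0 _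
  have hb : (0 : ℝ) < (p : ℝ) ^ b := pow_pos hp0 _
  have e2 : (t : ℝ) / (((p : ℝ) - 1) ^ k * (p : ℝ) ^ ((b + 1) * k)) =
      Z / ((p : ℝ) ^ b * ((p : ℝ) - 1) ^ k) := by
    rw [div_eq_div_iff (by positivity) (by positivity)]
    calc (t : ℝ) * ((p : ℝ) ^ b * ((p : ℝ) - 1) ^ k) = (t * (p : ℝ) ^ b) * ((p : ℝ) - 1) ^ k := by ring
      _ = (Z * (p : ℝ) ^ ((b + 1) * k)) * ((p : ℝ) - 1) ^ k := by rw [h1']
      _ = _ := by ring
  have e3 : (Z : ℝ) / ((p : ℝ) ^ b * ((p : ℝ) - 1) ^ k) - 1 / (p : ℝ) ^ (b + 1) =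
      ((p : ℝ) * Z - ((p : ℝ) - 1) ^ k) / ((p : ℝ) ^ (b + 1) * ((p : ℝ) - 1) ^ k) := by
    rw [pow_succ]
    field_simp
  rw [e1, e2, e3, abs_div, abs_of_pos (by positivity : (0 : ℝ) < (p : ℝ) ^ (b + 1) * ((p : ℝ) - 1) ^ k),
    div_le_div_iff₀ (by positivity) (by positivity)]
  have e4 : (p : ℝ) ^ 2 ≤ 4 * ((p : ℝ) - 1) ^ 2 := by nlinarith
  calc |(p : ℝ) * Z - ((p : ℝ) - 1) ^ k| * (p : ℝ) ^ (b + 1 + 2)
      = |(p : ℝ) * Z - ((p : ℝ) - 1) ^ k| * (p : ℝ) ^ 2 * (p : ℝ) ^ (b + 1) := by ring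
    _ ≤ |(p : ℝ) * Z - ((p : ℝ) - 1) ^ k| * (4 * ((p : ℝ) - 1) ^ 2) * (p : ℝ) ^ (b + 1) := by
        gcongr
    _ = 4 * (|(p : ℝ) * Z - ((p : ℝ) - 1) ^ k| * ((p : ℝ) - 1) ^ 2) * (p : ℝ) ^ (b + 1) := by ring
    _ ≤ 4 * ((p : ℝ) - 1) ^ k * (p : ℝ) ^ (b + 1) := by gcongr
    _ = _ := by ring

private theorem L1b_one {R : Type*} [CommRing R] (x y : R) {a : ℕ} (h : a = 0) : x ^ a ∣ y := by
  rw [h, pow_zero]
  exact one_dvd _

private theorem L1b_bP (T : Dat) (k p yn : ℕ) (al be P : ℕ → HP T.D p) : bP T k p yn al be P ↔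
    cD T k p al be P ∧ Bad p (padicValNat p T.D) k T.N T.D yn T.y al be P := by
  unfold bP Bad
  by_cases h : p ∣ T.N
  · rw [if_pos h]
    tauto
  · rw [if_neg h]
    simp only [h, false_and, not_false_eq_true, true_and, false_or]

theorem L1b (T : Dat) {k p : ℕ} (hp : p.Prime) (h5 : 5 ≤ p) (h0 : T.p0 ≤ p) (hle : p ≤ T.y0) (hD : T.D ≠ 0) (hpD : p ∣ T.D) (yn : ℕ)
    (al be : ℕ → HP T.D p) (h3 : Good3 k al be) :
    |lav T k p yn False al be - 1 / (p : ℝ) ^ padicValNat p T.D| ≤ 4 / (p : ℝ) ^ (padicValNat p T.D + 2) := by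
  classical
  have : Fact p.Prime := ⟨hp⟩
  have : NeZero (p ^ (padicValNat p T.D + 1)) := ⟨pow_ne_zero _ hp.ne_zero⟩
  have ha : 1 ≤ padicValNat p T.D := one_le_padicValNat_of_dvd hD hpD
  have hbase : p ∈ T.base := by
    unfold Dat.base
    rw [mem_filter, mem_range]
    exact ⟨by omega, hp, Or.inr hpD⟩
  obtain ⟨Z, hZ1, hZ2⟩ := L1b_cnt (p := p) (a := padicValNat p T.D) ha al be h3
  have h1 : lav T k p yn False al be =
      (((univ : Finset (Fin k → (ZMod (p ^ (padicValNat p T.D + 1)))ˣ)).filter fun P =>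
      (p : ZMod (p ^ (padicValNat p T.D + 1))) ^ padicValNat p T.D ∣ Sg (k + 1) al be (pp k P)).card : ℝ) /
      (Fintype.card (Fin k → (ZMod (p ^ (padicValNat p T.D + 1)))ˣ) : ℝ) := by
    rw [← av_ind]
    unfold lav
    refine av_congr fun P => ?_
    have h4 : cb T k p yn False al be (pp k P) ↔
        (p : ZMod (p ^ (padicValNat p T.D + 1))) ^ padicValNat p T.D ∣ Sg (k + 1) al be (pp k P) := by
      unfold cb cP cD
      rw [if_neg (by omega)]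
      exact ⟨fun h => h.1 hbase, fun h => ⟨fun _ => h, fun h => h.elim⟩⟩
    rw [propext h4]
  rw [h1, L1b_card (p := p) (a := padicValNat p T.D) (k := k)]
  exact L1b_num h5 ha hZ1 hZ2

theorem L1c (T : Dat) {k p : ℕ} (hp : p.Prime) (h5 : 5 ≤ p) (h0 : T.p0 ≤ p) (hle : p ≤ T.y0) (hD : T.D ≠ 0) (yn : ℕ)
    (al be : ℕ → HP T.D p) (h3 : Good3 k al be) :
    lav T k p yn True al be ≤ 8 * (k + 1) / p * lav T k p yn False al be := by
  classical
  have : Fact p.Prime := ⟨hp⟩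
  have : NeZero (p ^ (padicValNat p T.D + 1)) := ⟨pow_ne_zero _ hp.ne_zero⟩
  obtain ⟨u, hu⟩ : p ^ padicValNat p T.D ∣ T.D := pow_padicValNat_dvd
  have hu' : ¬ p ∣ u := by
    rintro ⟨w, rfl⟩
    refine pow_succ_padicValNat_not_dvd (p := p) hD ?_
    refine ⟨w, ?_⟩
    rw [pow_succ, mul_assoc]
    exact hu
  have hp0 : (0 : ℝ) < p := by exact_mod_cast hp.pos
  have hU := U07 (k := k) (N := T.N) (Yn := yn) (y := T.y) h5 hu hu' al be h3
  obtain ⟨cd, hcd⟩ : ∃ cd, cd = ((univ : Finset (Fin k → (ZMod (p ^ (padicValNat p T.D + 1)))ˣ)).filter fun P =>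
      (p : ZMod (p ^ (padicValNat p T.D + 1))) ^ padicValNat p T.D ∣ Sg (k + 1) al be (pp k P)).card :=
    ⟨_, rfl⟩
  have hF : lav T k p yn False al be =
      (cd : ℝ) / (Fintype.card (Fin k → (ZMod (p ^ (padicValNat p T.D + 1)))ˣ) : ℝ) := by
    rw [hcd, ← av_ind]
    unfold lav
    refine av_congr fun P => ?_
    have h4 : cb T k p yn False al be (pp k P) ↔
        (p : ZMod (p ^ (padicValNat p T.D + 1))) ^ padicValNat p T.D ∣ Sg (k + 1) al be (pp k P) := by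
      unfold cb cP cD
      rw [if_neg (by omega)]
      constructor
      · intro h
        by_cases hpD : p ∣ T.D
        · refine h.1 ?_
          unfold Dat.base
          rw [mem_filter, mem_range]
          exact ⟨by omega, hp, Or.inr hpD⟩
        · exact L1b_one _ _ (padicValNat.eq_zero_of_not_dvd hpD)
      · exact fun h => ⟨fun _ => h, fun h => h.elim⟩
    rw [propext h4]
  have hT : lav T k p yn True al be ≤
      (((univ : Finset (Fin k → (ZMod (p ^ (padicValNat p T.D + 1)))ˣ)).filter fun P =>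
      (p : ZMod (p ^ (padicValNat p T.D + 1))) ^ padicValNat p T.D ∣ Sg (k + 1) al be (pp k P) ∧
        Bad p (padicValNat p T.D) k T.N T.D yn T.y al be (pp k P)).card : ℝ) /
      (Fintype.card (Fin k → (ZMod (p ^ (padicValNat p T.D + 1)))ˣ) : ℝ) := by
    rw [← av_ind]
    unfold lav
    refine av_mono fun P => ?_
    have h4 : cb T k p yn True al be (pp k P) →
        ((p : ZMod (p ^ (padicValNat p T.D + 1))) ^ padicValNat p T.D ∣ Sg (k + 1) al be (pp k P) ∧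
        Bad p (padicValNat p T.D) k T.N T.D yn T.y al be (pp k P)) := fun h =>
      (L1b_bP T k p yn al be (pp k P)).1 (h.2 trivial)
    unfold ind
    by_cases h6 : cb T k p yn True al be (pp k P)
    · rw [if_pos h6, if_pos (h4 h6)]
    · rw [if_neg h6]
      split_ifs
      · exact zero_le_one
      · exact le_rfl
  refine hT.trans ?_
  rw [hF]
  obtain ⟨cb, hcb⟩ : ∃ cb, cb = ((univ : Finset (Fin k → (ZMod (p ^ (padicValNat p T.D + 1)))ˣ)).filter fun P =>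
      (p : ZMod (p ^ (padicValNat p T.D + 1))) ^ padicValNat p T.D ∣ Sg (k + 1) al be (pp k P) ∧
        Bad p (padicValNat p T.D) k T.N T.D yn T.y al be (pp k P)).card := ⟨_, rfl⟩
  rw [← hcb, ← hcd] at hU
  rw [← hcb]
  have hU' : (cb : ℝ) * p ≤ 8 * (k + 1) * cd := by exact_mod_cast hU
  have h7 : (cb : ℝ) ≤ 8 * (k + 1) / p * cd := by
    rw [div_mul_eq_mul_div, le_div_iff₀ hp0]
    exact hU'
  calc (cb : ℝ) / (Fintype.card (Fin k → (ZMod (p ^ (padicValNat p T.D + 1)))ˣ) : ℝ)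
      ≤ (8 * (k + 1) / p * cd) / (Fintype.card (Fin k → (ZMod (p ^ (padicValNat p T.D + 1)))ˣ) : ℝ) :=
        div_le_div_of_nonneg_right h7 (by positivity)
    _ = _ := by ring

end Pool.Agent.Lib.TC
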