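import Pool.Agent.Lib.MP_7b7e48_nt.TC.LocP
import Pool.Agent.Lib.MP_7b7e48_nt.TC.U11

/-!
# L3: the condition `cD` for one and for two colourings, average over all `α`

`A = v_p(D)`. For `A = 0` the conditions are void and the bounds are trivial (an average of an indicator is at most `1`). `A ≥ 1`: `cD` says that the image of `Sg` in `ZMod (p^A)` is zero
(`p^A ∣ z` in `ZMod (p^(A+1))` iff `castHom z = 0` in `ZMod (p^A)`); the reduction `HP → (ZMod (p^A))ˣ` is a surjective homomorphism (`ZMod.unitsMap_surjective`), all fibres have the same size; so the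
average over `(Fin (k+1) → HP) × (E → HP)` of a condition modulo `p^A` is the average over `(Fin (k+1) → (ZMod (p^A))ˣ) × (E → (ZMod (p^A))ˣ)`. `pj_eq`.
* `L3a`: `U11` with `n = p^A`, `H1 = univ`: `T ≤ φ^(k-1) φ^|E| (A+1)`, `φ = φ(p^A)` (`Nat.divisors_prime_pow`), the total number is `φ^(k+1+|E|)`, and `φ(p^A)² ≥ p^(2A)/4`.
  (`k ≥ 1` because `c'` is not a function of `c`.)
* `L3b`: for fixed `s` and `a_1, …, a_k`: `Sg = S₀ - 1/u` (`U13_Sg`; `pj` does not contain `al 0`, `Loc.ex (k+1) (update al 0 u) = update (Loc.ex (k+1) al) 0 u`), so `u` is determined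
  modulo `p^A`: at most `p` values among `p^A (p-1)`, and `p/(p^A (p-1)) ≤ 2/p^A`.
-/

set_option autoImplicit false

open Finset

namespace Pool.Agent.Lib.TC

private theorem L3_av {A B : Type*} [Group A] [Group B] [Fintype A] [Fintype B] (π : A →* B) (hπ : Function.Surjective π) (f : B → ℝ) :
    av (fun a => f (π a)) = av f := by
  classical
  rw [av_eq, av_eq]
  have h1 : ∀ b : B, (univ.filter fun a : A => π a = b).card = (univ.filter fun a : A => π a = 1).card := fun b =>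
    MonoidHom.card_fiber_eq_of_mem_range π (hπ b) (hπ 1)
  have h2 : (Fintype.card A : ℝ) = (Fintype.card B : ℝ) * ((univ.filter fun a : A => π a = 1).card : ℝ) := by
    have h := Finset.card_eq_sum_card_fiberwise (s := (univ : Finset A)) (t := (univ : Finset B)) (f := fun a => π a) (fun x _ => by simp)
    rw [Finset.sum_congr rfl (fun d _ => h1 d), Finset.sum_const, Finset.card_univ, Finset.card_univ, smul_eq_mul] at h
    exact_mod_cast h
  have h3 : ∑ a, f (π a) = ((univ.filter fun a : A => π a = 1).card : ℝ) * ∑ b, f b := by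
    rw [← sum_fiberwise univ (fun a => π a) (fun a => f (π a)), mul_sum]
    refine sum_congr rfl fun b _ => ?_
    have h4 : ∀ a ∈ univ.filter (fun a : A => π a = b), f (π a) = f b := by
      intro a ha
      rw [(mem_filter.1 ha).2]
    rw [sum_congr rfl h4, sum_const, nsmul_eq_mul, h1]
  have hc : (0 : ℝ) < ((univ.filter fun a : A => π a = 1).card : ℝ) := by
    have : 0 < (univ.filter fun a : A => π a = 1).card := card_pos.2 ⟨1, by simp⟩
    exact_mod_cast this
  rw [h2, h3, mul_comm (Fintype.card B : ℝ), mul_div_mul_left _ _ hc.ne']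

/-- the reduction modulo `p^A` -/
private def L3_pi (D p : ℕ) : HP D p →* (ZMod (p ^ padicValNat p D))ˣ :=
  ZMod.unitsMap (pow_dvd_pow p (Nat.le_succ (padicValNat p D)))

private theorem L3_pi_surj {D p : ℕ} (hp : p.Prime) : Function.Surjective (L3_pi D p) := by
  have : NeZero (p ^ (padicValNat p D + 1)) := ⟨(pow_pos hp.pos _).ne'⟩
  exact ZMod.unitsMap_surjective _

private theorem L3_pi_val {D p : ℕ} (u : HP D p) :
    ((L3_pi D p u : (ZMod (p ^ padicValNat p D))ˣ) : ZMod (p ^ padicValNat p D)) =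
      ZMod.castHom (pow_dvd_pow p (Nat.le_succ (padicValNat p D))) (ZMod (p ^ padicValNat p D)) (u : RP D p) := rfl

private theorem L3_Sg {D p : ℕ} (m : ℕ) (al be P : ℕ → HP D p) :
    ZMod.castHom (pow_dvd_pow p (Nat.le_succ (padicValNat p D))) (ZMod (p ^ padicValNat p D)) (Loc.Sg m al be P) =
      Loc.Sg m (fun j => L3_pi D p (al j)) (fun j => L3_pi D p (be j)) (fun j => L3_pi D p (P j)) := by
  unfold Loc.Sg Loc.et
  rw [map_sum]
  refine sum_congr rfl fun j _ => ?_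
  rw [map_mul, map_sub, ← map_inv, ← map_inv]
  rfl

private theorem L3_dvd {p A : ℕ} [NeZero (p ^ (A + 1))] (x : ZMod (p ^ (A + 1))) :
    (p : ZMod (p ^ (A + 1))) ^ A ∣ x ↔ ZMod.castHom (pow_dvd_pow p (Nat.le_succ A)) (ZMod (p ^ A)) x = 0 := by
  constructor
  · rintro ⟨t, rfl⟩
    rw [map_mul, map_pow, map_natCast, ← Nat.cast_pow, ZMod.natCast_self, zero_mul]
  · intro h
    have hx : x = ((x.val : ℕ) : ZMod (p ^ (A + 1))) := (ZMod.natCast_zmod_val x).symm
    rw [hx, map_natCast, ZMod.natCast_eq_zero_iff] at h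
    obtain ⟨t, ht⟩ := h
    rw [hx, ht, Nat.cast_mul, Nat.cast_pow]
    exact dvd_mul_right _ _

private theorem L3_cD (T : Dat) {k p : ℕ} (hp : p.Prime) (al be P : ℕ → HP T.D p) :
    cD T k p al be P ↔
      Loc.Sg (k + 1) (fun j => L3_pi T.D p (al j)) (fun j => L3_pi T.D p (be j)) (fun j => L3_pi T.D p (P j)) = 0 := by
  have : NeZero (p ^ (padicValNat p T.D + 1)) := ⟨(pow_pos hp.pos _).ne'⟩
  unfold cD
  rw [L3_dvd, L3_Sg]

private theorem L3_ex {H G : Type*} [CommGroup H] [CommGroup G] (f : H →* G) (m : ℕ) (al : Fin m → H) (j : ℕ) :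
    f (Loc.ex m al j) = Loc.ex m (fun i => f (al i)) j := by
  unfold Loc.ex
  by_cases h : j < m
  · rw [dif_pos h, dif_pos h]
  · rw [dif_neg h, dif_neg h, map_one]

private theorem L3_pj {H G E : Type*} [CommGroup H] [CommGroup G] [Fintype E] (f : H →* G) {k : ℕ} (c : E → Fin (k + 1))
    (al : Fin (k + 1) → H) (y : Fin k → H) (s : E → H) (j : ℕ) :
    f (pj c al y s j) = Loc.pr k (xa (fun i => f (al i)) (Loc.sl c (fun i => f (y i)) (fun e => f (s e)))) j := by
  rw [pj_eq]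
  unfold Loc.pr
  rw [map_prod]
  refine prod_congr rfl fun l _ => ?_
  rw [L3_ex]
  unfold Loc.ex
  by_cases h : l < k
  · rw [dif_pos h, dif_pos h]
    unfold xa Loc.sl
    beta_reduce
    rw [map_mul, map_mul, map_prod]
    congr 2
    refine prod_congr rfl fun e _ => ?_
    by_cases hc : c e = (⟨l, h⟩ : Fin k).castSucc
    · rw [if_pos hc, if_pos hc]
    · rw [if_neg hc, if_neg hc, map_one]
  · rw [dif_neg h, dif_neg h]

private theorem L3_phi {p : ℕ} (hp : p.Prime) (A : ℕ) : (p : ℝ) ^ A ≤ 2 * (Nat.totient (p ^ A) : ℝ) := by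
  rcases Nat.eq_zero_or_pos A with h0 | h0
  · subst h0
    simp
  · have h1 : p ^ A ≤ 2 * Nat.totient (p ^ A) := by
      rw [Nat.totient_prime_pow hp h0]
      obtain ⟨B, rfl⟩ : ∃ B, A = B + 1 := ⟨A - 1, by omega⟩
      rw [Nat.add_sub_cancel, pow_succ, mul_left_comm]
      have h2 := hp.two_le
      exact Nat.mul_le_mul_left _ (by omega)
    exact_mod_cast h1

private theorem L3_ind {P Q : Prop} (h : P ↔ Q) : ind P = ind Q := by rw [propext h]

private theorem L3_upd {H : Type*} [CommGroup H] {m : ℕ} (al : Fin (m + 1) → H) (v : H) :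
    Loc.ex (m + 1) (Function.update al 0 v) = Function.update (Loc.ex (m + 1) al) 0 v := by
  funext l
  by_cases hl : l < m + 1
  · rw [Loc.ex_lt _ hl]
    by_cases hi : l = 0
    · subst hi
      have h1 : (⟨0, hl⟩ : Fin (m + 1)) = 0 := rfl
      rw [h1, Function.update_self, Function.update_self]
    · have h1 : (⟨l, hl⟩ : Fin (m + 1)) ≠ 0 := by
        intro h
        exact hi (congrArg Fin.val h)
      rw [Function.update_of_ne h1, Function.update_of_ne hi, Loc.ex_lt _ hl]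
  · have hi : l ≠ 0 := by omega
    rw [Loc.ex_ge _ (Nat.not_lt.1 hl), Function.update_of_ne hi, Loc.ex_ge _ (Nat.not_lt.1 hl)]

private theorem L3_xa {k : ℕ} {H : Type*} [CommGroup H] (al : Fin (k + 1) → H) (x : Fin k → H) (v : H) :
    xa (Function.update al 0 v) x = xa al x := by
  funext l
  unfold xa
  rw [Function.update_of_ne (Fin.succ_ne_zero l)]

theorem L3a (T : Dat) {k p : ℕ} (hp : p.Prime) (hD : T.D ≠ 0) {E : Type*} [Fintype E] [DecidableEq E]
    (c c' : E → Fin (k + 1)) (hcc : ¬ ∃ ψ : Fin (k + 1) → Fin (k + 1), c' = ψ ∘ c) (be : ℕ → HP T.D p) (y y' : Fin k → HP T.D p) :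
    av (fun w : (Fin (k + 1) → HP T.D p) × (E → HP T.D p) =>
      ind (cD T k p (Loc.ex (k + 1) w.1) be (pj c w.1 y w.2) ∧ cD T k p (Loc.ex (k + 1) w.1) be (pj c' w.1 y' w.2))) ≤
      4 * ((padicValNat p T.D : ℝ) + 1) / (p : ℝ) ^ (2 * padicValNat p T.D) := by
  classical
  have hn1 : NeZero (p ^ (padicValNat p T.D + 1)) := ⟨(pow_pos hp.pos _).ne'⟩
  have hn2 : NeZero (p ^ padicValNat p T.D) := ⟨(pow_pos hp.pos _).ne'⟩
  set A := padicValNat p T.D with hA
  have hk : 1 ≤ k := by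
    by_contra hk
    have hk0 : k = 0 := by omega
    subst hk0
    exact hcc ⟨id, funext fun e => Fin.ext (by
      have h1 := (c' e).isLt
      have h2 := (c e).isLt
      show (c' e).val = (c e).val
      omega)⟩
  -- the homomorphism
  obtain ⟨F, hF⟩ : ∃ F : ((Fin (k + 1) → HP T.D p) × (E → HP T.D p)) →*
      ((Fin (k + 1) → (ZMod (p ^ padicValNat p T.D))ˣ) × (E → (ZMod (p ^ padicValNat p T.D))ˣ)),
      F = MonoidHom.prodMap ((L3_pi T.D p).compLeft (Fin (k + 1))) ((L3_pi T.D p).compLeft E) := ⟨_, rfl⟩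
  have hFe : ∀ w, F w = (fun i => L3_pi T.D p (w.1 i), fun e => L3_pi T.D p (w.2 e)) := by
    intro w
    rw [hF]
    rfl
  have hsurj : Function.Surjective F := by
    rintro ⟨u, v⟩
    choose u' hu' using fun i => L3_pi_surj (D := T.D) hp (u i)
    choose v' hv' using fun e => L3_pi_surj (D := T.D) hp (v e)
    refine ⟨(u', v'), ?_⟩
    rw [hFe]
    exact Prod.ext (funext hu') (funext hv')
  have h1 := L3_av F hsurj (fun w => ind (
      Loc.Sg (k + 1) (Loc.ex (k + 1) w.1) (fun j => L3_pi T.D p (be j)) (Loc.pr k (xa w.1 (Loc.sl c (fun i => L3_pi T.D p (y i)) w.2))) = 0 ∧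
      Loc.Sg (k + 1) (Loc.ex (k + 1) w.1) (fun j => L3_pi T.D p (be j)) (Loc.pr k (xa w.1 (Loc.sl c' (fun i => L3_pi T.D p (y' i)) w.2))) = 0))
  have h2 : av (fun w : (Fin (k + 1) → HP T.D p) × (E → HP T.D p) =>
      ind (cD T k p (Loc.ex (k + 1) w.1) be (pj c w.1 y w.2) ∧ cD T k p (Loc.ex (k + 1) w.1) be (pj c' w.1 y' w.2))) =
      av (fun w => ind (
      Loc.Sg (k + 1) (Loc.ex (k + 1) (F w).1) (fun j => L3_pi T.D p (be j)) (Loc.pr k (xa (F w).1 (Loc.sl c (fun i => L3_pi T.D p (y i)) (F w).2))) = 0 ∧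
      Loc.Sg (k + 1) (Loc.ex (k + 1) (F w).1) (fun j => L3_pi T.D p (be j)) (Loc.pr k (xa (F w).1 (Loc.sl c' (fun i => L3_pi T.D p (y' i)) (F w).2))) = 0)) := by
    refine av_congr fun w => L3_ind ?_
    rw [L3_cD T hp, L3_cD T hp, hFe]
    have e1 : (fun j => L3_pi T.D p (Loc.ex (k + 1) w.1 j)) = Loc.ex (k + 1) (fun i => L3_pi T.D p (w.1 i)) :=
      funext fun j => L3_ex _ _ _ _
    have e2 : (fun j => L3_pi T.D p (pj c w.1 y w.2 j)) =
        Loc.pr k (xa (fun i => L3_pi T.D p (w.1 i)) (Loc.sl c (fun i => L3_pi T.D p (y i)) (fun e => L3_pi T.D p (w.2 e)))) :=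
      funext fun j => L3_pj _ _ _ _ _ _
    have e3 : (fun j => L3_pi T.D p (pj c' w.1 y' w.2 j)) =
        Loc.pr k (xa (fun i => L3_pi T.D p (w.1 i)) (Loc.sl c' (fun i => L3_pi T.D p (y' i)) (fun e => L3_pi T.D p (w.2 e)))) :=
      funext fun j => L3_pj _ _ _ _ _ _
    rw [e1, e2, e3]
  rw [h2, h1, av_ind]
  have h3 := U11 (p ^ padicValNat p T.D) c c' hcc (fun i => L3_pi T.D p (y i)) (fun i => L3_pi T.D p (y' i))
    (fun j => L3_pi T.D p (be j)) univ
  have hcard : Fintype.card (ZMod (p ^ padicValNat p T.D))ˣ = Nat.totient (p ^ padicValNat p T.D) := ZMod.card_units_eq_totient _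
  rw [card_univ, hcard, Nat.divisors_prime_pow hp, card_map, card_range] at h3
  have h4 : Fintype.card ((Fin (k + 1) → (ZMod (p ^ padicValNat p T.D))ˣ) × (E → (ZMod (p ^ padicValNat p T.D))ˣ)) =
      Nat.totient (p ^ padicValNat p T.D) ^ (k + 1) * Nat.totient (p ^ padicValNat p T.D) ^ Fintype.card E := by
    rw [Fintype.card_prod, Fintype.card_fun, Fintype.card_fun, hcard, Fintype.card_fin]
  rw [h4]
  have hφ := L3_phi hp (padicValNat p T.D)
  have hφ0 : 0 < Nat.totient (p ^ padicValNat p T.D) := Nat.totient_pos.2 (pow_pos hp.pos _)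
  set φ := Nat.totient (p ^ padicValNat p T.D) with hφdef
  have hφ0' : (0 : ℝ) < (φ : ℝ) := by exact_mod_cast hφ0
  have hp0 : (0 : ℝ) < (p : ℝ) := by exact_mod_cast hp.pos
  have h5 : ((univ.filter fun w : (Fin (k + 1) → (ZMod (p ^ padicValNat p T.D))ˣ) × (E → (ZMod (p ^ padicValNat p T.D))ˣ) =>
      Loc.Sg (k + 1) (Loc.ex (k + 1) w.1) (fun j => L3_pi T.D p (be j)) (Loc.pr k (xa w.1 (Loc.sl c (fun i => L3_pi T.D p (y i)) w.2))) = 0 ∧
      Loc.Sg (k + 1) (Loc.ex (k + 1) w.1) (fun j => L3_pi T.D p (be j)) (Loc.pr k (xa w.1 (Loc.sl c' (fun i => L3_pi T.D p (y' i)) w.2))) = 0).card : ℝ) ≤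
      (φ : ℝ) ^ (k - 1) * (φ : ℝ) ^ Fintype.card E * ((padicValNat p T.D : ℝ) + 1) := by
    have h6 : (univ.filter fun w : (Fin (k + 1) → (ZMod (p ^ padicValNat p T.D))ˣ) × (E → (ZMod (p ^ padicValNat p T.D))ˣ) =>
      Loc.Sg (k + 1) (Loc.ex (k + 1) w.1) (fun j => L3_pi T.D p (be j)) (Loc.pr k (xa w.1 (Loc.sl c (fun i => L3_pi T.D p (y i)) w.2))) = 0 ∧
      Loc.Sg (k + 1) (Loc.ex (k + 1) w.1) (fun j => L3_pi T.D p (be j)) (Loc.pr k (xa w.1 (Loc.sl c' (fun i => L3_pi T.D p (y' i)) w.2))) = 0).card ≤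
      φ ^ (k - 1) * φ ^ Fintype.card E * (padicValNat p T.D + 1) := by
      refine le_trans (card_le_card ?_) h3
      intro w hw
      rw [mem_filter] at hw
      rw [mem_filter]
      exact ⟨mem_univ _, fun j => mem_univ _, hw.2⟩
    exact_mod_cast h6
  have hden : (0 : ℝ) < (φ : ℝ) ^ (k + 1) * (φ : ℝ) ^ Fintype.card E := by positivity
  have hP : (0 : ℝ) < (p : ℝ) ^ (2 * A) := by positivity
  have hcast : (((φ ^ (k + 1) * φ ^ Fintype.card E : ℕ)) : ℝ) = (φ : ℝ) ^ (k + 1) * (φ : ℝ) ^ Fintype.card E := by push_cast; ring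
  rw [hcast, div_le_div_iff₀ hden hP]
  have h7 : (p : ℝ) ^ (2 * A) ≤ 4 * (φ : ℝ) ^ 2 := by
    have h8 : (p : ℝ) ^ (2 * A) = ((p : ℝ) ^ A) ^ 2 := by rw [← pow_mul, mul_comm]
    rw [h8]
    calc ((p : ℝ) ^ A) ^ 2 ≤ (2 * (φ : ℝ)) ^ 2 := pow_le_pow_left₀ (by positivity) hφ 2
      _ = 4 * (φ : ℝ) ^ 2 := by ring
  have h9 : (φ : ℝ) ^ (k + 1) = (φ : ℝ) ^ (k - 1) * (φ : ℝ) ^ 2 := by
    rw [← pow_add]
    congr 1
    omega
  have hApos : (0 : ℝ) ≤ (A : ℝ) + 1 := by positivity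
  calc _ ≤ ((φ : ℝ) ^ (k - 1) * (φ : ℝ) ^ Fintype.card E * ((A : ℝ) + 1)) * (4 * (φ : ℝ) ^ 2) :=
        mul_le_mul h5 h7 hP.le (by positivity)
    _ = 4 * ((A : ℝ) + 1) * ((φ : ℝ) ^ (k + 1) * (φ : ℝ) ^ Fintype.card E) := by
        rw [h9]
        ring

theorem L3b (T : Dat) {k p : ℕ} (hp : p.Prime) (hD : T.D ≠ 0) {E : Type*} [Fintype E] [DecidableEq E]
    (c : E → Fin (k + 1)) (be : ℕ → HP T.D p) (y : Fin k → HP T.D p) (al : Fin (k + 1) → HP T.D p) (s : E → HP T.D p) :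
    av (fun u : HP T.D p => ind (cD T k p (Loc.ex (k + 1) (Function.update al 0 u)) be (pj c (Function.update al 0 u) y s))) ≤
      2 / (p : ℝ) ^ padicValNat p T.D := by
  classical
  have hn1 : NeZero (p ^ (padicValNat p T.D + 1)) := ⟨(pow_pos hp.pos _).ne'⟩
  have hn2 : NeZero (p ^ padicValNat p T.D) := ⟨(pow_pos hp.pos _).ne'⟩
  have h1 := L3_av (L3_pi T.D p) (L3_pi_surj hp) (fun u => ind (
      Loc.Sg (k + 1) (Function.update (Loc.ex (k + 1) (fun i => L3_pi T.D p (al i))) 0 u) (fun j => L3_pi T.D p (be j))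
        (Loc.pr k (xa (fun i => L3_pi T.D p (al i)) (Loc.sl c (fun i => L3_pi T.D p (y i)) (fun e => L3_pi T.D p (s e))))) = 0))
  have h2 : av (fun u : HP T.D p => ind (cD T k p (Loc.ex (k + 1) (Function.update al 0 u)) be (pj c (Function.update al 0 u) y s))) =
      av (fun u : HP T.D p => ind (
      Loc.Sg (k + 1) (Function.update (Loc.ex (k + 1) (fun i => L3_pi T.D p (al i))) 0 (L3_pi T.D p u)) (fun j => L3_pi T.D p (be j))
        (Loc.pr k (xa (fun i => L3_pi T.D p (al i)) (Loc.sl c (fun i => L3_pi T.D p (y i)) (fun e => L3_pi T.D p (s e))))) = 0)) := by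
    refine av_congr fun u => L3_ind ?_
    rw [L3_cD T hp]
    have e0 : (fun i => L3_pi T.D p (Function.update al 0 u i)) = Function.update (fun i => L3_pi T.D p (al i)) 0 (L3_pi T.D p u) := by
      funext i
      by_cases hi : i = 0
      · subst hi
        rw [Function.update_self, Function.update_self]
      · rw [Function.update_of_ne hi, Function.update_of_ne hi]
    have e1 : (fun j => L3_pi T.D p (Loc.ex (k + 1) (Function.update al 0 u) j)) =
        Function.update (Loc.ex (k + 1) (fun i => L3_pi T.D p (al i))) 0 (L3_pi T.D p u) := by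
      rw [← L3_upd, ← e0]
      exact funext fun j => L3_ex _ _ _ _
    have e2 : (fun j => L3_pi T.D p (pj c (Function.update al 0 u) y s j)) =
        Loc.pr k (xa (fun i => L3_pi T.D p (al i)) (Loc.sl c (fun i => L3_pi T.D p (y i)) (fun e => L3_pi T.D p (s e)))) := by
      funext j
      rw [L3_pj, e0, L3_xa]
    rw [e1, e2]
  rw [h2, h1, av_ind]
  have hcard : Fintype.card (ZMod (p ^ padicValNat p T.D))ˣ = Nat.totient (p ^ padicValNat p T.D) := ZMod.card_units_eq_totient _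
  rw [hcard]
  have hφ := L3_phi hp (padicValNat p T.D)
  have hφ0 : 0 < Nat.totient (p ^ padicValNat p T.D) := Nat.totient_pos.2 (pow_pos hp.pos _)
  have hφ0' : (0 : ℝ) < (Nat.totient (p ^ padicValNat p T.D) : ℝ) := by exact_mod_cast hφ0
  have hp0 : (0 : ℝ) < (p : ℝ) := by exact_mod_cast hp.pos
  have hP : (0 : ℝ) < (p : ℝ) ^ padicValNat p T.D := by positivity
  have h5 : ((univ.filter fun u : (ZMod (p ^ padicValNat p T.D))ˣ =>
      Loc.Sg (k + 1) (Function.update (Loc.ex (k + 1) (fun i => L3_pi T.D p (al i))) 0 u) (fun j => L3_pi T.D p (be j))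
        (Loc.pr k (xa (fun i => L3_pi T.D p (al i)) (Loc.sl c (fun i => L3_pi T.D p (y i)) (fun e => L3_pi T.D p (s e))))) = 0).card : ℝ) ≤ 1 := by
    have h6 : (univ.filter fun u : (ZMod (p ^ padicValNat p T.D))ˣ =>
      Loc.Sg (k + 1) (Function.update (Loc.ex (k + 1) (fun i => L3_pi T.D p (al i))) 0 u) (fun j => L3_pi T.D p (be j))
        (Loc.pr k (xa (fun i => L3_pi T.D p (al i)) (Loc.sl c (fun i => L3_pi T.D p (y i)) (fun e => L3_pi T.D p (s e))))) = 0).card ≤ 1 := by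
      rw [card_le_one]
      intro u hu u' hu'
      rw [mem_filter] at hu hu'
      exact U13_one (Nat.succ_pos k) _ _ _ (Loc.pr_zero _) hu.2 hu'.2
    exact_mod_cast h6
  rw [div_le_div_iff₀ hφ0' hP]
  calc _ ≤ 1 * (p : ℝ) ^ padicValNat p T.D := mul_le_mul_of_nonneg_right h5 hP.le
    _ ≤ 2 * (Nat.totient (p ^ padicValNat p T.D) : ℝ) := by rw [one_mul]; exact hφ

end Pool.Agent.Lib.TC
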