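import Pool.Agent.Lib.MP_7b7e48_nt.TC.Loc
import Pool.Agent.Lib.MP_7b7e48_nt.TC.T08
import Pool.Agent.Lib.MP_7b7e48_nt.TC.T09

/-!
# U08: uniformity laws (4.1), (4.2)

* `U08_hom`: `φ : G →* G'` surjective, finite groups: every fibre of `s ↦ t φ s` has `|G|/|G'|` elements. (`Σ_s F (t φ s)`: replace `s` by `s₀ s` with
  `φ s₀ = y`, average over `y ∈ G'`: `|G'| Σ_s F (t φ s) = Σ_y Σ_s F (t y φ s) = Σ_s Σ_y F (t y φ s) = |G| Σ_y F y`.)
* `U08_one`: `sl c y s = y * φ s` with `φ s j = ∏ e, if c e = j.castSucc then s e else 1`, a homomorphism `(E → H) →* (Fin k → H)`; surjective: choose one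
  `e_j` of each colour `j < k` and put `s (e_j) = u j`, `s = 1` elsewhere.
* `U08_two`: `φ s = (φ_c s, φ_{c'} s)`, surjective by `T08` with `V = Option (Fin k ⊕ Fin k)`, root `none`, `a e = vL k (c e)`, `b e = vR k (c' e)` (the cut condition is
  `Conn`): given `(u, u')` there is `x : T → H` with `inc x (some (inl j)) = u j`, `inc x (some (inr j)) = u' j`; put `s = x` on `T` and `1` off `T`.
  (`vL k (c e) = some (inl j)` iff `c e = j.castSucc`; `vL` is never `some (inr j)`, `vR` never `some (inl j)`.)
-/

set_option autoImplicit false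

open Finset
open Pool.Agent.Lib.TC.Loc

namespace Pool.Agent.Lib.TC

theorem U08_hom {G G' : Type*} [CommGroup G] [Fintype G] [CommGroup G'] [Fintype G'] (φ : G →* G') (hφ : Function.Surjective φ) (t : G')
    (F : G' → ℝ) : (Fintype.card G' : ℝ) * ∑ s : G, F (t * φ s) = (Fintype.card G : ℝ) * ∑ y : G', F y := by
  have h1 : (Fintype.card G' : ℝ) * ∑ s : G, F (t * φ s) =
      ∑ y : G', ∑ s : G, F (t * (y * φ s)) := by
    rw [← Finset.card_univ (α := G'), ← nsmul_eq_mul, ← Finset.sum_const]
    refine Finset.sum_congr rfl fun y _ => ?_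
    obtain ⟨s₀, rfl⟩ := hφ y
    rw [← Equiv.sum_comp (Equiv.mulLeft s₀) (fun s => F (t * φ s))]
    refine Finset.sum_congr rfl fun s _ => ?_
    rw [Equiv.coe_mulLeft, map_mul]
  rw [h1, Finset.sum_comm, ← Finset.card_univ (α := G), ← nsmul_eq_mul, ← Finset.sum_const]
  refine Finset.sum_congr rfl fun s _ => ?_
  rw [← Equiv.sum_comp ((Equiv.mulRight (φ s)).trans (Equiv.mulLeft t)) F]
  refine Finset.sum_congr rfl fun y _ => ?_
  rfl

/-- the homomorphism of a colouring -/
private def U08_phi {k : ℕ} {E : Type*} [Fintype E] {H : Type} [CommGroup H] (c : E → Fin (k + 1)) :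
    (E → H) →* (Fin k → H) where
  toFun s j := ∏ e, if c e = j.castSucc then s e else 1
  map_one' := by
    funext j
    exact Finset.prod_eq_one fun e _ => by rw [Pi.one_apply, ite_self]
  map_mul' s s' := by
    funext j
    rw [Pi.mul_apply, ← Finset.prod_mul_distrib]
    refine Finset.prod_congr rfl fun e _ => ?_
    by_cases h : c e = j.castSucc
    · rw [if_pos h, if_pos h, if_pos h, Pi.mul_apply]
    · rw [if_neg h, if_neg h, if_neg h, one_mul]

private theorem U08_phi_apply {k : ℕ} {E : Type*} [Fintype E] {H : Type} [CommGroup H] (c : E → Fin (k + 1))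
    (s : E → H) (j : Fin k) : U08_phi c s j = ∏ e, if c e = j.castSucc then s e else 1 := rfl

private theorem U08_sl {k : ℕ} {E : Type*} [Fintype E] {H : Type} [CommGroup H] (c : E → Fin (k + 1))
    (y : Fin k → H) (s : E → H) : sl c y s = y * U08_phi c s := rfl

theorem U08_one {k : ℕ} {E : Type*} [Fintype E] [DecidableEq E] {H : Type} [CommGroup H] [Fintype H] [DecidableEq H]
    (c : E → Fin (k + 1)) (hc : ∀ j : Fin k, ∃ e, c e = j.castSucc) (y : Fin k → H) (F : (Fin k → H) → ℝ) :
    (Fintype.card H : ℝ) ^ k * ∑ s : E → H, F (sl c y s) = (Fintype.card H : ℝ) ^ Fintype.card E * ∑ x : Fin k → H, F x := by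
  have hsurj : Function.Surjective (U08_phi (H := H) c) := by
    intro u
    choose e he using hc
    refine ⟨fun e' => ∏ j : Fin k, if e' = e j then u j else 1, ?_⟩
    funext j
    rw [U08_phi_apply, Finset.prod_eq_single (e j)]
    · rw [if_pos (he j), Finset.prod_eq_single j]
      · rw [if_pos rfl]
      · intro j' _ hj
        rw [if_neg]
        intro h
        apply hj
        have h1 := he j'
        rw [← h, he j] at h1
        exact (Fin.castSucc_injective k h1).symm
      · intro h
        exact absurd (Finset.mem_univ j) h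
    · intro e' _ he'
      by_cases h : c e' = j.castSucc
      · rw [if_pos h]
        refine Finset.prod_eq_one fun j' _ => ?_
        rw [if_neg]
        rintro rfl
        apply he'
        have h1 := he j'
        rw [h] at h1
        rw [Fin.castSucc_injective k h1]
      · rw [if_neg h]
    · intro h
      exact absurd (Finset.mem_univ _) h
  have h := U08_hom (U08_phi (H := H) c) hsurj y F
  rw [Fintype.card_fun, Fintype.card_fun, Fintype.card_fin, Nat.cast_pow, Nat.cast_pow] at h
  exact h

private theorem U08_vL {k : ℕ} (x : Fin (k + 1)) (j : Fin k) :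
    vL k x = some (Sum.inl j) ↔ x = j.castSucc := by
  unfold vL
  by_cases h : x.val < k
  · rw [dif_pos h]
    constructor
    · intro h1
      have h2 : (⟨x.val, h⟩ : Fin k) = j := Sum.inl_injective (Option.some_injective _ h1)
      rw [← h2]
      rfl
    · rintro rfl
      rfl
  · rw [dif_neg h]
    constructor
    · intro h1
      exact absurd h1 (by simp)
    · rintro rfl
      exact absurd j.2 h

private theorem U08_vR {k : ℕ} (x : Fin (k + 1)) (j : Fin k) :
    vR k x = some (Sum.inr j) ↔ x = j.castSucc := by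
  unfold vR
  by_cases h : x.val < k
  · rw [dif_pos h]
    constructor
    · intro h1
      have h2 : (⟨x.val, h⟩ : Fin k) = j := Sum.inr_injective (Option.some_injective _ h1)
      rw [← h2]
      rfl
    · rintro rfl
      rfl
  · rw [dif_neg h]
    constructor
    · intro h1
      exact absurd h1 (by simp)
    · rintro rfl
      exact absurd j.2 h

private theorem U08_vL' {k : ℕ} (x : Fin (k + 1)) (j : Fin k) : vL k x ≠ some (Sum.inr j) := by
  unfold vL
  by_cases h : x.val < k
  · rw [dif_pos h]
    simp
  · rw [dif_neg h]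
    simp

private theorem U08_vR' {k : ℕ} (x : Fin (k + 1)) (j : Fin k) : vR k x ≠ some (Sum.inl j) := by
  unfold vR
  by_cases h : x.val < k
  · rw [dif_pos h]
    simp
  · rw [dif_neg h]
    simp

private theorem U08_prod {E H : Type*} [Fintype E] [DecidableEq E] [CommGroup H] (T : Finset E)
    (x : T → H) (p : E → Prop) [DecidablePred p] :
    (∏ e : E, if p e then (if h : e ∈ T then x ⟨e, h⟩ else 1) else 1) =
      ∏ e : T, if p e then x e else 1 := by
  have h1 : ∀ e : T, (if p e then x e else 1) =
      (fun e : E => if p e then (if h : e ∈ T then x ⟨e, h⟩ else 1) else 1) e := by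
    intro e
    have h2 : (if h : e.1 ∈ T then x ⟨e.1, h⟩ else 1) = x e := dif_pos e.2
    simp only [h2]
  rw [Finset.prod_congr rfl fun e _ => h1 e, Finset.prod_coe_sort T
    (fun e : E => if p e then (if h : e ∈ T then x ⟨e, h⟩ else 1) else 1)]
  symm
  refine Finset.prod_subset (Finset.subset_univ _) fun e _ he => ?_
  rw [dif_neg he, ite_self]

theorem U08_two {k : ℕ} {E : Type*} [Fintype E] [DecidableEq E] {H : Type} [CommGroup H] [Fintype H] [DecidableEq H]
    (c c' : E → Fin (k + 1)) (h : Conn k c c') (y y' : Fin k → H) (F : (Fin k → H) → (Fin k → H) → ℝ) :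
    (Fintype.card H : ℝ) ^ (2 * k) * ∑ s : E → H, F (sl c y s) (sl c' y' s) =
      (Fintype.card H : ℝ) ^ Fintype.card E * ∑ x : Fin k → H, ∑ x' : Fin k → H, F x x' := by
  have hsurj : Function.Surjective ((U08_phi (H := H) c).prod (U08_phi (H := H) c')) := by
    rintro ⟨u, u'⟩
    obtain ⟨T, -, hT⟩ := T08 (none : Option (Fin k ⊕ Fin k)) (fun e => vL k (c e)) (fun e => vR k (c' e)) h
    obtain ⟨x, hx⟩ := (hT H).2 (fun v => match v.1 with
      | none => 1
      | some (Sum.inl j) => u j
      | some (Sum.inr j) => u' j)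
    refine ⟨fun e => if h : e ∈ T then x ⟨e, h⟩ else 1, ?_⟩
    have hL : ∀ j : Fin k, U08_phi c (fun e => if h : e ∈ T then x ⟨e, h⟩ else 1) j = u j := by
      intro j
      have h1 := congrFun hx ⟨some (Sum.inl j), by simp⟩
      simp only at h1
      rw [← h1, U08_phi_apply, U08_prod]
      unfold inc
      refine Finset.prod_congr rfl fun e _ => ?_
      simp only
      rw [if_neg (U08_vR' (c' e) j), mul_one]
      by_cases h2 : c e = j.castSucc
      · rw [if_pos h2, if_pos ((U08_vL _ _).2 h2)]
      · rw [if_neg h2, if_neg fun h3 => h2 ((U08_vL _ _).1 h3)]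
    have hR : ∀ j : Fin k, U08_phi c' (fun e => if h : e ∈ T then x ⟨e, h⟩ else 1) j = u' j := by
      intro j
      have h1 := congrFun hx ⟨some (Sum.inr j), by simp⟩
      simp only at h1
      rw [← h1, U08_phi_apply, U08_prod]
      unfold inc
      refine Finset.prod_congr rfl fun e _ => ?_
      simp only
      rw [if_neg (U08_vL' (c e) j), one_mul]
      by_cases h2 : c' e = j.castSucc
      · rw [if_pos h2, if_pos ((U08_vR _ _).2 h2)]
      · rw [if_neg h2, if_neg fun h3 => h2 ((U08_vR _ _).1 h3)]
    exact Prod.ext (funext hL) (funext hR)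
  have h1 := U08_hom ((U08_phi (H := H) c).prod (U08_phi (H := H) c')) hsurj (y, y') (fun z => F z.1 z.2)
  rw [Fintype.card_prod, Fintype.card_fun, Fintype.card_fun, Fintype.card_fin, Nat.cast_mul, Nat.cast_pow,
    Nat.cast_pow, Fintype.sum_prod_type] at h1
  rw [two_mul, pow_add]
  exact h1

end Pool.Agent.Lib.TC
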