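import Pool.Agent.Lib.MP_7b7e48_nt.TC.LocP
import Pool.Agent.Lib.MP_7b7e48_nt.TC.U04
import Pool.Agent.Lib.MP_7b7e48_nt.TC.U08

/-!
# L8: the laws of `pj`

`pj c α y s = pr k (fun l => α l.succ * sl c y s l) = pr k (sl c y₁ s)` with `y₁ l = α l.succ * y l` (`mul_assoc` in `sl`). `U08_one` / `U08_two` with these `y₁`, and `U04_pr`, `U04_pp`
(`f` depends only on the indices `≤ k`): the sum over `x` of `f (pr k x)` is the sum over `P` of `f (pp k P)`. `av_eq`, `Fintype.card (Fin k → H) = |H|^k`. (`H` finite: take `Fintype.ofFinite`, `Classical.decEq`.)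
-/

set_option autoImplicit false

open Finset

namespace Pool.Agent.Lib.TC

private theorem L8_pj {H E : Type*} [CommGroup H] [Fintype E] {k : ℕ} (c : E → Fin (k + 1)) (α : Fin (k + 1) → H)
    (y : Fin k → H) (s : E → H) : pj c α y s = Loc.pr k (Loc.sl c (fun l => α l.succ * y l) s) := by
  unfold pj
  congr 1
  funext l
  unfold Loc.sl
  rw [mul_assoc]

private theorem L8_av {α : Type*} [Fintype α] (f : α → ℝ) : av f = (∑ a, f a) / (Fintype.card α : ℝ) := by
  unfold av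
  rw [finsum_eq_sum_of_fintype, Nat.card_eq_fintype_card]

private theorem L8_sum {k : ℕ} {H : Type} [CommGroup H] [Fintype H] [DecidableEq H] (f : (ℕ → H) → ℝ)
    (hf : ∀ P P' : ℕ → H, (∀ j ≤ k, P j = P' j) → f P = f P') :
    ∑ x : Fin k → H, f (Loc.pr k x) = ∑ P : Fin k → H, f (Loc.pp k P) := by
  rw [← U04_pr k (fun P => f (Loc.pp k P))]
  refine Finset.sum_congr rfl fun x _ => ?_
  exact hf _ _ fun j hj => (U04_pp k x hj).symm

theorem L8_one {k : ℕ} {E : Type*} [Fintype E] {H : Type} [CommGroup H] [Finite H] (c : E → Fin (k + 1))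
    (hc : ∀ j : Fin k, ∃ e, c e = j.castSucc) (α : Fin (k + 1) → H) (y : Fin k → H) (f : (ℕ → H) → ℝ)
    (hf : ∀ P P' : ℕ → H, (∀ j ≤ k, P j = P' j) → f P = f P') :
    av (fun s : E → H => f (pj c α y s)) = av (fun P : Fin k → H => f (Loc.pp k P)) := by
  classical
  let _ : Fintype H := Fintype.ofFinite H
  have h1 := U08_one c hc (fun l => α l.succ * y l) (fun x => f (Loc.pr k x))
  rw [L8_av, L8_av, ← L8_sum f hf, Finset.sum_congr rfl fun s _ => by rw [L8_pj c α y s]]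
  have h0 : (0 : ℝ) < Fintype.card H := by exact_mod_cast Fintype.card_pos_iff.2 ⟨(1 : H)⟩
  rw [Fintype.card_fun, Fintype.card_fun, Fintype.card_fin, Nat.cast_pow, Nat.cast_pow,
    div_eq_div_iff (pow_pos h0 _).ne' (pow_pos h0 _).ne']
  linarith

theorem L8_two {k : ℕ} {E : Type*} [Fintype E] {H : Type} [CommGroup H] [Finite H] (c c' : E → Fin (k + 1)) (h : Conn k c c')
    (α α' : Fin (k + 1) → H) (y y' : Fin k → H) (f : (ℕ → H) → (ℕ → H) → ℝ)
    (hf : ∀ P P' Q Q' : ℕ → H, (∀ j ≤ k, P j = P' j) → (∀ j ≤ k, Q j = Q' j) → f P Q = f P' Q') :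
    av (fun s : E → H => f (pj c α y s) (pj c' α' y' s)) =
      av (fun P : (Fin k → H) × (Fin k → H) => f (Loc.pp k P.1) (Loc.pp k P.2)) := by
  classical
  let _ : Fintype H := Fintype.ofFinite H
  have h1 := U08_two c c' h (fun l => α l.succ * y l) (fun l => α' l.succ * y' l)
    (fun x x' => f (Loc.pr k x) (Loc.pr k x'))
  have h2 : ∑ x : Fin k → H, ∑ x' : Fin k → H, f (Loc.pr k x) (Loc.pr k x') =
      ∑ P : (Fin k → H) × (Fin k → H), f (Loc.pp k P.1) (Loc.pp k P.2) := by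
    rw [Fintype.sum_prod_type]
    have h3 : ∀ x : Fin k → H, ∑ x' : Fin k → H, f (Loc.pr k x) (Loc.pr k x') =
        ∑ Q : Fin k → H, f (Loc.pr k x) (Loc.pp k Q) := fun x =>
      L8_sum (fun Q => f (Loc.pr k x) Q) fun Q Q' hQ => hf _ _ _ _ (fun _ _ => rfl) hQ
    rw [Finset.sum_congr rfl fun x _ => h3 x]
    exact L8_sum (fun P => ∑ Q : Fin k → H, f P (Loc.pp k Q)) fun P P' hP =>
      Finset.sum_congr rfl fun Q _ => hf _ _ _ _ hP (fun _ _ => rfl)
  rw [L8_av, L8_av, ← h2, Finset.sum_congr rfl fun s _ => by rw [L8_pj c α y s, L8_pj c' α' y' s]]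
  have h0 : (0 : ℝ) < Fintype.card H := by exact_mod_cast Fintype.card_pos_iff.2 ⟨(1 : H)⟩
  rw [Fintype.card_prod, Fintype.card_fun, Fintype.card_fun, Fintype.card_fin, Nat.cast_mul, Nat.cast_pow,
    Nat.cast_pow, div_eq_div_iff (pow_pos h0 _).ne' (mul_pos (pow_pos h0 _) (pow_pos h0 _)).ne']
  rw [two_mul, pow_add] at h1
  linarith

end Pool.Agent.Lib.TC
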