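import Pool.Agent.Lib.MP_7b7e48_nt.TC.PDefs
import Pool.Agent.Lib.MP_7b7e48_nt.TC.U10

/-!
# LocP: `pj` in the form of `U10` to `U12`; averages over `Fintype`s
-/

set_option autoImplicit false

open Finset

namespace Pool.Agent.Lib.TC

theorem pj_eq {H E : Type*} [CommGroup H] [Fintype E] {k : ℕ} (c : E → Fin (k + 1)) (α : Fin (k + 1) → H) (y : Fin k → H) (s : E → H) :
    pj c α y s = Loc.pr k (xa α (Loc.sl c y s)) := rfl

theorem av_eq {α : Type*} [Fintype α] (f : α → ℝ) : av f = (∑ a, f a) / (Fintype.card α : ℝ) := by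
  unfold av
  rw [finsum_eq_sum_of_fintype, Nat.card_eq_fintype_card]

theorem av_ind {α : Type*} [Fintype α] (Q : α → Prop) [DecidablePred Q] :
    av (fun a => ind (Q a)) = ((univ.filter Q).card : ℝ) / (Fintype.card α : ℝ) := by
  rw [av_eq]
  congr 1
  rw [card_filter]
  push_cast
  refine sum_congr rfl fun a _ => ?_
  unfold ind
  by_cases h : Q a
  · simp [h]
  · simp [h]

theorem av_congr {α : Type*} [Finite α] {f g : α → ℝ} (h : ∀ a, f a = g a) : av f = av g := by
  have : f = g := funext h
  rw [this]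

theorem av_mono {α : Type*} [Finite α] {f g : α → ℝ} (h : ∀ a, f a ≤ g a) : av f ≤ av g := by
  classical
  have := Fintype.ofFinite α
  rw [av_eq, av_eq]
  exact div_le_div_of_nonneg_right (sum_le_sum fun a _ => h a) (by positivity)

end Pool.Agent.Lib.TC
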