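import Pool.Agent.Lib.MP_7b7e48_nt.TC.Cyc
import Pool.Agent.Lib.MP_7b7e48_nt.TC.T09
import Pool.Agent.Lib.MP_7b7e48_nt.TC.FLM
import Pool.Agent.Lib.MP_7b7e48_nt.TC.Loc

/-!
# PDefs (version 2): definitions for the pair lemma (TC_PAIR.md)

Slots `0, …, k` (`m = k + 1` of them), ground slot `k`. `K = log N`. Text index `i` is `i - 1` here. The local forms are those of `Loc`.
Version 2: all local conditions depend on `X` only through the class `ycl T p X` of `Y = X - D N` modulo `p`; the averages `av` need only `Finite`;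
`Msr.OK.eq` only for the moduli `q` squarefree whose primes are `< p0` or do not divide `N`.
-/

set_option autoImplicit false

open Finset

namespace Pool.Agent.Lib.TC

/-- the average of a function over a finite type -/
noncomputable def av {α : Type*} [Finite α] (f : α → ℝ) : ℝ := (∑ᶠ a, f a) / (Nat.card α : ℝ)

/-- the indicator of a proposition -/
noncomputable def ind (P : Prop) : ℝ := by
  classical
  exact if P then 1 else 0

/-! ### marks -/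

/-- the cell of a prime -/
noncomputable def cell (N l : ℕ) : ℕ := ⌊Real.log N * Real.log l⌋₊

/-- the free elements: `inl f` = free prime number `f` of `X`, `inr f` = free prime number `f` of `Y` -/
abbrev FE (n0 : ℕ) := Fin n0 ⊕ Fin n0

/-- A system of marks: windows `WX i`, `WY i` of the `α_i`, `β_i`, free pieces `FX`, `FY`, other marks `OX`, `OY`, and the completion of a
colouring of the free elements: the colours `cX`, `cY` of the other marks depend on the colouring, on the cells of the free primes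
(of `X`, of `Y`) and on the other marks. -/
structure MS where
  k : ℕ
  n0 : ℕ
  nX : ℕ
  nY : ℕ
  WX : Fin (k + 1) → Finset ℕ
  WY : Fin (k + 1) → Finset ℕ
  FX : Fin n0 → Finset ℕ
  FY : Fin n0 → Finset ℕ
  OX : Fin nX → Finset ℕ
  OY : Fin nY → Finset ℕ
  cX : (FE n0 → Fin (k + 1)) → (Fin n0 → ℕ) → (Fin n0 → ℕ) → (Fin nX → ℕ) → (Fin nY → ℕ) → Fin nX → Fin (k + 1)
  cY : (FE n0 → Fin (k + 1)) → (Fin n0 → ℕ) → (Fin n0 → ℕ) → (Fin nX → ℕ) → (Fin nY → ℕ) → Fin nY → Fin (k + 1)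

/-- colourings -/
abbrev MS.Col (S : MS) := FE S.n0 → Fin (S.k + 1)

/-- tuples of `X`: windows, free primes, other marks -/
abbrev MS.TX (S : MS) := (Fin (S.k + 1) → ℕ) × (Fin S.n0 → ℕ) × (Fin S.nX → ℕ)

/-- tuples of `Y` -/
abbrev MS.TY (S : MS) := (Fin (S.k + 1) → ℕ) × (Fin S.n0 → ℕ) × (Fin S.nY → ℕ)

/-- the set of the tuples of `X` -/
def MS.MX (S : MS) : Finset S.TX := Fintype.piFinset S.WX ×ˢ (Fintype.piFinset S.FX ×ˢ Fintype.piFinset S.OX)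

/-- the set of the tuples of `Y` -/
def MS.MY (S : MS) : Finset S.TY := Fintype.piFinset S.WY ×ˢ (Fintype.piFinset S.FY ×ˢ Fintype.piFinset S.OY)

/-- the product of a function over the primes of a tuple of `X` -/
def MS.prX {M : Type*} [CommMonoid M] (S : MS) (h : ℕ → M) (μ : S.TX) : M := (∏ i, h (μ.1 i)) * (∏ f, h (μ.2.1 f)) * ∏ e, h (μ.2.2 e)

/-- the product of a function over the primes of a tuple of `Y` -/
def MS.prY {M : Type*} [CommMonoid M] (S : MS) (h : ℕ → M) (ν : S.TY) : M := (∏ i, h (ν.1 i)) * (∏ f, h (ν.2.1 f)) * ∏ e, h (ν.2.2 e)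

/-- a finite sequence extended by `1` -/
def ext1 {M : Type*} [One M] {n : ℕ} (a : Fin n → M) (i : ℕ) : M := if h : i < n then a ⟨i, h⟩ else 1

/-- the colours of the other marks of `X` -/
noncomputable def MS.kX (S : MS) (N : ℕ) (c : S.Col) (μ : S.TX) (ν : S.TY) : Fin S.nX → Fin (S.k + 1) :=
  S.cX c (fun f => cell N (μ.2.1 f)) (fun f => cell N (ν.2.1 f)) μ.2.2 ν.2.2

/-- the colours of the other marks of `Y` -/
noncomputable def MS.kY (S : MS) (N : ℕ) (c : S.Col) (μ : S.TX) (ν : S.TY) : Fin S.nY → Fin (S.k + 1) :=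
  S.cY c (fun f => cell N (μ.2.1 f)) (fun f => cell N (ν.2.1 f)) μ.2.2 ν.2.2

/-- the product of a function over the free primes of `X` of colour `i` -/
def MS.fX {M : Type*} [CommMonoid M] (S : MS) (h : ℕ → M) (c : S.Col) (μ : S.TX) (i : ℕ) : M :=
  ∏ f ∈ univ.filter (fun f => (c (Sum.inl f) : ℕ) = i), h (μ.2.1 f)

/-- the product of a function over the free primes of `Y` of colour `i` -/
def MS.fY {M : Type*} [CommMonoid M] (S : MS) (h : ℕ → M) (c : S.Col) (ν : S.TY) (i : ℕ) : M :=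
  ∏ f ∈ univ.filter (fun f => (c (Sum.inr f) : ℕ) = i), h (ν.2.1 f)

/-- the product of a function over the other marks of `X` of colour `i` -/
noncomputable def MS.oX {M : Type*} [CommMonoid M] (S : MS) (N : ℕ) (h : ℕ → M) (c : S.Col) (μ : S.TX) (ν : S.TY) (i : ℕ) : M :=
  ∏ e ∈ univ.filter (fun e => (S.kX N c μ ν e : ℕ) = i), h (μ.2.2 e)

/-- the product of a function over the other marks of `Y` of colour `i` -/
noncomputable def MS.oY {M : Type*} [CommMonoid M] (S : MS) (N : ℕ) (h : ℕ → M) (c : S.Col) (μ : S.TX) (ν : S.TY) (i : ℕ) : M :=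
  ∏ e ∈ univ.filter (fun e => (S.kY N c μ ν e : ℕ) = i), h (ν.2.2 e)

/-- the short cofactors `A_i`, `i < k`; the long cofactor `A_k` is `X` divided by all the rest -/
noncomputable def MS.AA (S : MS) (N : ℕ) (c : S.Col) (μ : S.TX) (ν : S.TY) (X : ℕ) (i : ℕ) : ℕ :=
  if i < S.k then S.fX id c μ i * S.oX N id c μ ν i
  else X / ((∏ i, μ.1 i) * ∏ i ∈ range S.k, S.fX id c μ i * S.oX N id c μ ν i)

/-- the short cofactors `B_i`, `i < k`; the long cofactor `B_k` is `Y` divided by all the rest -/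
noncomputable def MS.BB (S : MS) (N : ℕ) (c : S.Col) (μ : S.TX) (ν : S.TY) (Y : ℕ) (i : ℕ) : ℕ :=
  if i < S.k then S.fY id c ν i * S.oY N id c μ ν i
  else Y / ((∏ i, ν.1 i) * ∏ i ∈ range S.k, S.fY id c ν i * S.oY N id c μ ν i)

/-- the integer `S` of a colouring (it does not depend on the long cofactors) -/
noncomputable def MS.SI (S : MS) (N : ℕ) (c : S.Col) (μ : S.TX) (ν : S.TY) : ℕ :=
  Sm (S.AA N c μ ν 0) (S.BB N c μ ν 0) (ext1 μ.1) (ext1 ν.1) (S.k + 1)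

/-- all colours `< k` are used -/
def MS.CC (S : MS) : Finset S.Col := by
  classical
  exact univ.filter fun c => ∀ j : Fin S.k, ∃ e, c e = j.castSucc

/-! ### residues -/

/-- the class of a natural number in the group of units modulo `q` (`1` if it is not coprime to `q`) -/
noncomputable def toU (q n : ℕ) : (ZMod q)ˣ := by
  classical
  exact if h : n.Coprime q then ZMod.unitOfCoprime n h else 1

/-- the sequence `p_j = ∏_{l<j} x_l`, `x_l = α_{l+1} y_l ∏_{c e = l} s_e` -/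
def pj {H E : Type*} [CommGroup H] [Fintype E] {k : ℕ} (c : E → Fin (k + 1)) (α : Fin (k + 1) → H) (y : Fin k → H) (s : E → H) : ℕ → H :=
  Loc.pr k (fun l => α l.succ * Loc.sl c y s l)

/-- the residues of the `α` -/
noncomputable def rs (q : ℕ) {n : ℕ} (α : Fin n → ℕ) : Fin n → (ZMod q)ˣ := fun i => toU q (α i)

/-- the part of the slots which comes from the `β` and from the other marks -/
noncomputable def MS.yy (S : MS) (N q : ℕ) (c : S.Col) (μ : S.TX) (ν : S.TY) : Fin S.k → (ZMod q)ˣ := fun j =>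
  (toU q (ν.1 j.castSucc))⁻¹ * (S.oX N (toU q) c μ ν j * (S.oY N (toU q) c μ ν j)⁻¹)

/-- the residues of the free primes -/
noncomputable def MS.fr (S : MS) (q : ℕ) (μ : S.TX) (ν : S.TY) : FE S.n0 → (ZMod q)ˣ :=
  Sum.elim (fun f => toU q (μ.2.1 f)) (fun f => (toU q (ν.2.1 f))⁻¹)

/-- the `α` modulo `q`, extended by `1` -/
noncomputable def aq (q : ℕ) {n : ℕ} (α : Fin n → ℕ) : ℕ → (ZMod q)ˣ := Loc.ex n (rs q α)

/-- the vector `(p_j)` of a colouring modulo `q` -/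
noncomputable def MS.pq (S : MS) (N q : ℕ) (c : S.Col) (μ : S.TX) (ν : S.TY) : ℕ → (ZMod q)ˣ :=
  pj c (rs q μ.1) (S.yy N q c μ ν) (S.fr q μ ν)

/-! ### local conditions: modulus `p ^ (v_p(D) + 1)` -/

/-- the local ring -/
abbrev RP (D p : ℕ) := ZMod (p ^ (padicValNat p D + 1))

/-- the local group -/
abbrev HP (D p : ℕ) := (ZMod (p ^ (padicValNat p D + 1)))ˣ

/-- the numerical data of the problem: `D`, `p0` (small primes), `y` (roughness of `a`), `y0`, `z` (roughness of `b`), `np` (class of `a` modulo the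
small primes) -/
structure Dat where
  N : ℕ
  D : ℕ
  p0 : ℕ
  y : ℕ
  y0 : ℕ
  z : ℕ
  np : ℕ → ℕ

/-- the class of `Y = X - D N` modulo `p` -/
def ycl (T : Dat) (p : ℕ) (X : ℤ) : ℕ := ((X - T.D * T.N) % p).toNat

/-- the condition at `p < p0`; `yn` is the class of `Y` modulo `p` -/
def cS (T : Dat) (k p yn : ℕ) (al be P : ℕ → HP T.D p) : Prop :=
  (∀ j ≤ k, (p : RP T.D p) ∣ (P j : RP T.D p) - 1) ∧
    (al 0 : RP T.D p) * yn * Loc.Sg (k + 1) al be P = (T.np p : RP T.D p) * T.D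

/-- `p^a ∣ Sg` -/
def cD (T : Dat) (k p : ℕ) (al be P : ℕ → HP T.D p) : Prop := (p : RP T.D p) ^ padicValNat p T.D ∣ Loc.Sg (k + 1) al be P

/-- the condition at `p` (only for `p < p0` or `p ∣ D`) -/
def cP (T : Dat) (k p yn : ℕ) (al be P : ℕ → HP T.D p) : Prop := if p < T.p0 then cS T k p yn al be P else cD T k p al be P

/-- `p` is bad (for `p0 ≤ p ≤ y0`): it divides some `t_i`, or (`p ≤ y`) some `e_i` -/
def bP (T : Dat) (k p yn : ℕ) (al be P : ℕ → HP T.D p) : Prop :=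
  cD T k p al be P ∧
  if p ∣ T.N then Loc.Sg (k + 1) al be P = 0
  else (∃ i ≤ k, Loc.Ti (k + 1) al be P ((T.D : RP T.D p) * T.N) yn i = 0) ∨
    (p ≤ T.y ∧ ¬ p ∣ yn ∧ ¬ p ∣ yn + T.D * T.N ∧ ∃ i ≤ k, Loc.Ei (k + 1) al be P ((T.D : RP T.D p) * T.N) yn i = 0)

/-- the primes with a condition -/
def Dat.base (T : Dat) : Finset ℕ := (range (T.y0 + 1)).filter fun p => p.Prime ∧ (p < T.p0 ∨ p ∣ T.D)

/-- the primes of the small sieve -/
def Dat.PS (T : Dat) : Finset ℕ := (range (T.y0 + 1)).filter fun p => p.Prime ∧ T.p0 ≤ p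

/-- the primes of the large sieve -/
def Dat.PL (T : Dat) : Finset ℕ := (range (T.z + 1)).filter fun p => p.Prime ∧ T.y0 < p

/-- all conditions hold -/
def MS.LL (S : MS) (T : Dat) (c : S.Col) (μ : S.TX) (ν : S.TY) (X : ℤ) : Prop :=
  ∀ p ∈ T.base, cP T S.k p (ycl T p X) (aq _ μ.1) (aq _ ν.1) (S.pq T.N _ c μ ν)

/-- the bad primes of the small sieve -/
noncomputable def MS.bad (S : MS) (T : Dat) (c : S.Col) (μ : S.TX) (ν : S.TY) (X : ℤ) : Finset ℕ := by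
  classical
  exact T.PS.filter fun p => bP T S.k p (ycl T p X) (aq _ μ.1) (aq _ ν.1) (S.pq T.N _ c μ ν)

/-- `p` (a prime not dividing `D` and the marks) divides some `t_i` -/
def MS.hit (S : MS) (T : Dat) (c : S.Col) (μ : S.TX) (ν : S.TY) (X : ℤ) (p : ℕ) : Prop :=
  ∃ i ≤ S.k, Loc.Ti (S.k + 1) (aq p μ.1) (aq p ν.1) (S.pq T.N p c μ ν) ((T.D : ZMod p) * T.N) ((X : ZMod p) - T.D * T.N) i = 0

/-- the special primes of the large sieve; `v` is a modulus, `x0` the exceptional class of the type 2 measures (`t2`) -/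
noncomputable def MS.spec (S : MS) (T : Dat) (v : ℕ) (x0 : ℤ) (t2 : Prop) (c : S.Col) (μ : S.TX) (ν : S.TY) : Finset ℕ := by
  classical
  exact T.PL.filter fun p => p ∣ T.N * v * S.prX id μ * S.prY id ν * S.SI T.N c μ ν ∨ (t2 ∧ S.hit T c μ ν x0 p)

/-- the hit primes of the large sieve -/
noncomputable def MS.hits (S : MS) (T : Dat) (v : ℕ) (x0 : ℤ) (t2 : Prop) (c : S.Col) (μ : S.TX) (ν : S.TY) (X : ℤ) : Finset ℕ := by
  classical
  exact (T.PL \ S.spec T v x0 t2 c μ ν).filter fun p => S.hit T c μ ν X p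

/-! ### the cycle as integers -/

/-- `g 0 = e_k`, `g (i+1) = e_i`: going round the cycle -/
noncomputable def MS.gI (S : MS) (T : Dat) (c : S.Col) (μ : S.TX) (ν : S.TY) (X : ℕ) : ℕ → ℕ
  | 0 => S.SI T.N c μ ν / T.D
  | (i + 1) => (T.N - (T.N - MS.gI S T c μ ν X i * Bp (S.k + 1) (S.BB T.N c μ ν (X - T.D * T.N)) i) / ext1 μ.1 i * ext1 ν.1 i) /
      S.AA T.N c μ ν X i

/-- `t_i` -/
noncomputable def MS.tI (S : MS) (T : Dat) (c : S.Col) (μ : S.TX) (ν : S.TY) (X i : ℕ) : ℕ :=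
  (T.N - S.gI T c μ ν X i * Bp (S.k + 1) (S.BB T.N c μ ν (X - T.D * T.N)) i) / ext1 μ.1 i

/-- the set of the admissible `n`: coprime to `N`, free of primes `≤ y`, and `N - n` free of primes `≤ z` -/
def Dat.SSet (T : Dat) (n : ℕ) : Prop :=
  0 < n ∧ n < T.N ∧ n.Coprime T.N ∧ (∀ p, p.Prime → p ≤ T.y → ¬ p ∣ n) ∧ ∀ p, p.Prime → p ≤ T.z → ¬ p ∣ T.N - n

/-- a good cycle -/
structure MS.Good (S : MS) (T : Dat) (c : S.Col) (μ : S.TX) (ν : S.TY) (X : ℕ) (e t : ℕ → ℕ) : Prop where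
  cyc : Cyc T.N (S.k + 1) (S.AA T.N c μ ν X) (S.BB T.N c μ ν (X - T.D * T.N)) (ext1 μ.1) (ext1 ν.1) e t
  col : c ∈ S.CC
  last : T.D * e S.k = S.SI T.N c μ ν
  cop : (S.SI T.N c μ ν).Coprime (S.prX id μ * S.prY id ν)
  setA : ∀ i < S.k + 1, T.SSet (e i * S.AA T.N c μ ν X i)
  setB : ∀ i < S.k + 1, T.SSet (e i * S.BB T.N c μ ν (X - T.D * T.N) i)
  prodA : ∏ i ∈ range (S.k + 1), ext1 μ.1 i * S.AA T.N c μ ν X i = X
  prodB : ∏ i ∈ range (S.k + 1), ext1 ν.1 i * S.BB T.N c μ ν (X - T.D * T.N) i = X - T.D * T.N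

/-- the pair `(X, μ)`, `(X - D N, ν)` is linked -/
def MS.Linked (S : MS) (T : Dat) (μ : S.TX) (ν : S.TY) (X : ℕ) : Prop := ∃ c e t, S.Good T c μ ν X e t

/-! ### measures -/

/-- A measure: numbers `n` with weights `Om μ ν n`, `X = v τ n + x0` (`τ = 1`, or the product of the averaged tuple), `t2`: type 2 (weights supported on
`n` without prime factor `≤ y0`, equidistributed only in the classes of units). `hX`, `hY`, `g`: local densities. -/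
structure Msr (S : MS) where
  v : ℕ
  x0 : ℤ
  t2 : Prop
  nm : ℕ
  tau : S.TX → S.TY → ℕ
  X : S.TX → S.TY → ℕ → ℕ
  Om : S.TX → S.TY → ℕ → ℝ
  W : ℝ
  hX : ℕ → ℝ
  hY : ℕ → ℝ
  g : ℕ → ℝ

/-- the density of one class modulo `q` -/
noncomputable def Msr.gq {S : MS} (M : Msr S) (q : ℕ) : ℝ := ∏ p ∈ q.primeFactors, M.g p

/-- admissible pairs of tuples -/
def Msr.adm {S : MS} (M : Msr S) (μ : S.TX) (ν : S.TY) : Prop :=
  (S.prX id μ * S.prY id ν).Coprime M.v ∧ (S.prX id μ).Coprime (S.prY id ν)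

/-- the part of the admissibility which does not concern the free primes -/
def Msr.adm0 {S : MS} (M : Msr S) (μ : S.TX) (ν : S.TY) : Prop :=
  (((∏ i, μ.1 i) * ∏ e, μ.2.2 e) * ((∏ i, ν.1 i) * ∏ e, ν.2.2 e)).Coprime M.v ∧
    ((∏ i, μ.1 i) * ∏ e, μ.2.2 e).Coprime ((∏ i, ν.1 i) * ∏ e, ν.2.2 e)

/-- the mass of a pair of tuples, divided by `W` -/
noncomputable def Msr.m1 {S : MS} (M : Msr S) (μ : S.TX) (ν : S.TY) : ℝ := S.prX M.hX μ * S.prY M.hY ν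

/-- the mass of a pair of tuples -/
noncomputable def Msr.ms {S : MS} (M : Msr S) (μ : S.TX) (ν : S.TY) : ℝ := M.W * M.m1 μ ν

/-- the total mass -/
noncomputable def Msr.tot {S : MS} (M : Msr S) : ℝ := M.W * ((∑ μ ∈ S.MX, S.prX M.hX μ) * ∑ ν ∈ S.MY, S.prY M.hY ν)

/-- the sum over the `n` in the class `r` modulo `q` -/
noncomputable def Msr.cl {S : MS} (M : Msr S) (μ : S.TX) (ν : S.TY) (q r : ℕ) : ℝ :=
  ∑ n ∈ (range (M.nm + 1)).filter (fun n => n ≡ r [MOD q]), M.Om μ ν n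

/-- the value of `X` (up to a unit factor `τ` of `n`) -/
def Msr.xr {S : MS} (M : Msr S) (r : ℕ) : ℤ := M.v * r + M.x0

/-- The properties of a measure; `W0` is the small modulus `W`, `δ0` the level exponent, `δ1` the saving exponent. -/
structure Msr.OK {S : MS} (M : Msr S) (T : Dat) (W0 : ℕ) (δ0 δ1 : ℝ) : Prop where
  W_pos : 0 < M.W
  v_pos : 0 < M.v
  v_le : M.v ≤ T.N
  v_cop : M.v.Coprime (W0 * T.N)
  tau_cases : (∀ μ ν, M.tau μ ν = 1) ∨ ((∀ μ ν, M.tau μ ν = S.prX id μ) ∧ M.x0 = 0)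
  x0_form : ∃ c' : ℤ, c'.natAbs ≤ T.y0 ∧ M.x0 = c' * (W0 ^ 2 * T.N : ℕ)
  x0_t2 : M.t2 → (M.x0 = 0 ∧ ∀ μ ν, M.tau μ ν = S.prX id μ) ∨ (M.x0 ≠ 0 ∧ M.x0 ≠ T.D * T.N)
  Om_nonneg : ∀ μ ν n, 0 ≤ M.Om μ ν n
  nm_bd : ∀ μ ν n, M.Om μ ν n ≠ 0 → n ≤ M.nm
  nm_le : M.nm ≤ T.N ^ 3
  X_eq : ∀ μ ν n, M.Om μ ν n ≠ 0 → (M.X μ ν n : ℤ) = M.v * M.tau μ ν * n + M.x0
  X_dvd : ∀ μ ν n, M.Om μ ν n ≠ 0 → S.prX id μ ∣ M.X μ ν n
  Y_dvd : ∀ μ ν n, M.Om μ ν n ≠ 0 → S.prY id ν ∣ M.X μ ν n - T.D * T.N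
  Y_pos : ∀ μ ν n, M.Om μ ν n ≠ 0 → T.D * T.N < M.X μ ν n
  X_big : ∀ μ ν n, M.Om μ ν n ≠ 0 → Real.exp (18 * (S.k + 1)) * ((M.X μ ν n : ℝ) - T.D * T.N) ≤ M.X μ ν n
  X_le : ∀ μ ν n, M.Om μ ν n ≠ 0 → M.X μ ν n ≤ T.N ^ 2
  hX_nonneg : ∀ p : ℕ, p.Prime → 0 ≤ M.hX p ∧ |M.hX p - 1 / p| ≤ 2 / (p : ℝ) ^ 2
  hY_nonneg : ∀ p : ℕ, p.Prime → 0 ≤ M.hY p ∧ |M.hY p - 1 / p| ≤ 2 / (p : ℝ) ^ 2
  g_small : ∀ p : ℕ, p.Prime → p ≤ T.y0 → (¬ M.t2 → M.g p = 1 / p) ∧ (M.t2 → M.g p = 1 / ((p : ℝ) - 1))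
  g_large : ∀ p : ℕ, p.Prime → T.y0 < p → 0 ≤ M.g p ∧ |M.g p - 1 / p| ≤ 2 / (p : ℝ) ^ 2
  t2_small : M.t2 → ∀ μ ν n, M.Om μ ν n ≠ 0 → ∀ p : ℕ, p.Prime → p ≤ T.y0 → ¬ p ∣ n
  up : ∀ μ ∈ S.MX, ∀ ν ∈ S.MY, M.cl μ ν 1 0 ≤ 2 * M.ms μ ν + (T.N : ℝ) ^ (-δ1) * M.W
  eq : ∀ μ ∈ S.MX, ∀ ν ∈ S.MY, M.adm μ ν → ∀ q : ℕ, Squarefree q → (q : ℝ) ≤ (T.N : ℝ) ^ δ0 → q.Coprime (S.prX id μ * S.prY id ν) →
    (∀ p : ℕ, p.Prime → p ∣ q → p ∣ W0 ∨ ¬ p ∣ T.N) →
    ∀ r : ℕ, (M.t2 → r.Coprime q) → |M.cl μ ν q r - M.ms μ ν * M.gq q| ≤ (T.N : ℝ) ^ (-δ1) * M.W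
  eq0 : M.t2 → ∀ μ ∈ S.MX, ∀ ν ∈ S.MY, M.adm μ ν → ∀ q : ℕ, Squarefree q → (q : ℝ) ≤ (T.N : ℝ) ^ δ0 → q.Coprime (S.prX id μ * S.prY id ν) →
    (∀ p : ℕ, p.Prime → p ∣ q → p ∣ W0 ∨ ¬ p ∣ T.N) →
    ∀ p ∈ T.PL, ¬ p ∣ q * (S.prX id μ * S.prY id ν) → ∀ r : ℕ, r.Coprime q →
    ∑ n ∈ (range (M.nm + 1)).filter (fun n => n ≡ r [MOD q] ∧ p ∣ n), M.Om μ ν n ≤
      4 / p * M.ms μ ν * M.gq q + (T.N : ℝ) ^ (-δ1) * M.W
  eq2 : ∀ μ ∈ S.MX, ∀ ν ∈ S.MY, M.adm μ ν → ∀ p ∈ T.PL, p ∣ S.prX id μ * S.prY id ν → ∀ r : ℕ,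
    (if p ∣ M.tau μ ν then M.cl μ ν p r else M.cl μ ν (p ^ 2) r) ≤ 4 / p * M.ms μ ν + (T.N : ℝ) ^ (-δ1) * M.W

/-! ### the sums -/

/-- upper (`true`) and lower (`false`) weights -/
noncomputable def wt (s : Bool) (b z : ℕ) (P : Finset ℕ) (d : Finset ℕ) : ℝ := if s then flUp b z P d else flLo b z P d

noncomputable def MS.Ls (S : MS) (T : Dat) (s : Bool) (b : ℕ) (c : S.Col) (μ : S.TX) (ν : S.TY) (X : ℤ) : ℝ :=
  ∑ d ∈ (S.bad T c μ ν X).powerset, wt s b T.y0 T.PS d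

noncomputable def Msr.Ll {S : MS} (M : Msr S) (T : Dat) (s : Bool) (b : ℕ) (c : S.Col) (μ : S.TX) (ν : S.TY) (X : ℤ) : ℝ :=
  ∑ e ∈ (S.hits T M.v M.x0 M.t2 c μ ν X).powerset, wt s b T.z T.PL e

/-- the mean value of the large sieve -/
noncomputable def Msr.Ml {S : MS} (M : Msr S) (T : Dat) (s : Bool) (b : ℕ) : ℝ :=
  ∑ e ∈ T.PL.powerset, wt s b T.z T.PL e * ∏ p ∈ e, (((S.k + 1 : ℕ) : ℝ) * M.g p)

/-- the sieve weight of a colouring -/
noncomputable def Msr.w {S : MS} (M : Msr S) (T : Dat) (b1 b2 : ℕ) (c : S.Col) (μ : S.TX) (ν : S.TY) (X : ℤ) : ℝ :=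
  ind (S.LL T c μ ν X) * (S.Ls T false b1 c μ ν X * M.Ll T true b2 c μ ν X -
      S.Ls T true b1 c μ ν X * (M.Ll T true b2 c μ ν X - M.Ll T false b2 c μ ν X))

/-- all conditions hold and all primes of `d` are bad -/
noncomputable def MS.FF (S : MS) (T : Dat) (c : S.Col) (μ : S.TX) (ν : S.TY) (X : ℤ) (d : Finset ℕ) : ℝ :=
  ind (S.LL T c μ ν X ∧ d ⊆ S.bad T c μ ν X)

/-- the coefficient of `d` in the mean value of the weight -/
noncomputable def Msr.kap {S : MS} (M : Msr S) (T : Dat) (b1 b2 : ℕ) (d : Finset ℕ) : ℝ :=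
  wt false b1 T.y0 T.PS d * M.Ml T true b2 - wt true b1 T.y0 T.PS d * (M.Ml T true b2 - M.Ml T false b2)

/-- the same weight with the mean values of the large sieve -/
noncomputable def Msr.w1 {S : MS} (M : Msr S) (T : Dat) (b1 b2 : ℕ) (c : S.Col) (μ : S.TX) (ν : S.TY) (X : ℤ) : ℝ :=
  ∑ d ∈ T.PS.powerset, M.kap T b1 b2 d * S.FF T c μ ν X d

/-- the condition at `p` (if `p` is a base prime), and bad (if `B`) -/
def cb (T : Dat) (k p yn : ℕ) (B : Prop) (al be P : ℕ → HP T.D p) : Prop :=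
  (p ∈ T.base → cP T k p yn al be P) ∧ (B → bP T k p yn al be P)

/-- the proportion of the slot vectors with this condition -/
noncomputable def lav (T : Dat) (k p yn : ℕ) (B : Prop) (al be : ℕ → HP T.D p) : ℝ :=
  av fun P : Fin k → HP T.D p => ind (cb T k p yn B al be (Loc.pp k P))

/-- `P(LL and all p in d bad)` -/
noncomputable def MS.Pb (S : MS) (T : Dat) (μ : S.TX) (ν : S.TY) (X : ℤ) (d : Finset ℕ) : ℝ :=
  ∏ p ∈ T.base ∪ d, lav T S.k p (ycl T p X) (p ∈ d) (aq _ μ.1) (aq _ ν.1)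

noncomputable def MS.Es (S : MS) (T : Dat) (s : Bool) (b : ℕ) (μ : S.TX) (ν : S.TY) (X : ℤ) : ℝ :=
  ∑ d ∈ T.PS.powerset, wt s b T.y0 T.PS d * S.Pb T μ ν X d

/-- the mean value of `w1` over the colourings -/
noncomputable def Msr.wb {S : MS} (M : Msr S) (T : Dat) (b1 b2 : ℕ) (μ : S.TX) (ν : S.TY) (X : ℤ) : ℝ :=
  ∑ d ∈ T.PS.powerset, M.kap T b1 b2 d * S.Pb T μ ν X d

/-- the number of the forbidden primes of a colouring -/
noncomputable def Msr.fm {S : MS} (M : Msr S) (T : Dat) (c : S.Col) (μ : S.TX) (ν : S.TY) (X : ℕ) : ℝ := by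
  classical
  exact if S.LL T c μ ν X then
    (((S.spec T M.v M.x0 M.t2 c μ ν).filter fun p => ∃ i < S.k + 1, p ∣ S.tI T c μ ν X i).card : ℝ) +
    ((T.N.primeFactors.filter fun p => T.z < p ∧ p ∣ S.SI T.N c μ ν).card : ℝ) +
    (((S.prX id μ * S.prY id ν).primeFactors.filter fun p => p ∣ S.SI T.N c μ ν).card : ℝ) else 0

/-- the pair of tuples is bad at a prime of `(a, b]`: at most two indices `i` have `p ∤ α_i - β_i` -/
def MS.badpair (S : MS) (T : Dat) (a b : ℕ) (μ : S.TX) (ν : S.TY) : Prop :=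
  ∃ p ∈ T.PS, a < p ∧ p ≤ b ∧ (univ.filter fun i : Fin (S.k + 1) => ¬ (μ.1 i ≡ ν.1 i [MOD p])).card ≤ 2

/-- the main term -/
noncomputable def E0 (S : MS) (T : Dat) : ℝ := (S.CC.card : ℝ) / (T.D * (Real.log T.N) ^ (S.k + 4))

end Pool.Agent.Lib.TC
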