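import Mathlib

/-!
# Q01: the main term of the large sieve (9.1), combinatorial part

For `e, e' ⊆ PL` put `G = H - b(e) a'(e') - a(e) b(e') + b(e) b(e')`, `H = ∏_{e \ e'} a ∏_{e' \ e} a' ∏_{e ∩ e'} c`, `b(e) = ∏_{p ∈ e} b p` etc. Let `u = e ∪ e'`.
* Always `|G| ≤ 4 b(u)`: each of the four products is `≤ b(u)` (all factors are in `[0, b p]`, and `b p ≤ gY ≤ 1`; `b(e) b(e') = b(u) b(e ∩ e')`).
* If `u` contains no element of `Exc`: then `a = a' = b` and `c = 0` on `u`. If `e ∩ e' = ∅` then `G = 0`; otherwise `H = 0`, `G = - b(e) b(e') = - b(u) b(e ∩ e')`, `|G| ≤ gY b(u)`.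
* Sums: `∑_{e,e'} b(e ∪ e') = ∏_{p ∈ PL} (1 + 3 b p)` (each `p` lies in none, only `e`, only `e'`, or both; prove `∑_{e ⊆ P} ∑_{e' ⊆ P} ∏_{p ∈ e ∪ e'} b p = ∏_{p ∈ P} (1 + 3 b p)` by
  induction on `P` with `Finset.sum_powerset_insert`), and for `p₀ ∈ PL` the part with `p₀ ∈ e ∪ e'` is `3 b p₀ ∏_{p ≠ p₀} (1 + 3 b p) ≤ 3 gY ∏ (1 + 3 b p)`.
So `∑ |G| ≤ 4 ∏`, and `∑ |G| ≤ (12 |Exc ∩ PL| + 1) gY ∏`.
-/

set_option autoImplicit false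

open Finset

namespace Pool.Agent.Lib.TC

private theorem Q01_ins {P : Finset ℕ} {q : ℕ} (hq : q ∉ P) (F : Finset ℕ → ℝ) :
    ∑ e ∈ (insert q P).powerset, ∑ e' ∈ (insert q P).powerset, F (e ∪ e') =
      ∑ e ∈ P.powerset, ∑ e' ∈ P.powerset, (F (e ∪ e') + 3 * F (insert q (e ∪ e'))) := by
  rw [sum_powerset_insert hq]
  have h1 : ∀ e, ∑ e' ∈ (insert q P).powerset, F (e ∪ e') =
      ∑ e' ∈ P.powerset, (F (e ∪ e') + F (insert q (e ∪ e'))) := by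
    intro e
    rw [sum_powerset_insert hq, ← sum_add_distrib]
    refine sum_congr rfl fun e' _ => ?_
    rw [union_insert]
  have h2 : ∀ e, ∑ e' ∈ (insert q P).powerset, F (insert q e ∪ e') =
      ∑ e' ∈ P.powerset, (2 * F (insert q (e ∪ e'))) := by
    intro e
    rw [h1]
    refine sum_congr rfl fun e' _ => ?_
    rw [insert_union, insert_idem]
    ring
  rw [sum_congr rfl fun e _ => h1 e, sum_congr rfl fun e _ => h2 e, ← sum_add_distrib]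
  refine sum_congr rfl fun e _ => ?_
  rw [← sum_add_distrib]
  refine sum_congr rfl fun e' _ => ?_
  ring

private theorem Q01_nm {P e e' : Finset ℕ} {q : ℕ} (hq : q ∉ P) (he : e ∈ P.powerset) (he' : e' ∈ P.powerset) :
    q ∉ e ∪ e' := by
  rw [mem_powerset] at he he'
  intro h
  rcases mem_union.1 h with h | h
  · exact hq (he h)
  · exact hq (he' h)

theorem Q01_sum (P : Finset ℕ) (b : ℕ → ℝ) :
    ∑ e ∈ P.powerset, ∑ e' ∈ P.powerset, ∏ p ∈ e ∪ e', b p = ∏ p ∈ P, (1 + 3 * b p) := by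
  induction P using Finset.induction_on with
  | empty => simp
  | insert q P hq ih =>
    rw [Q01_ins hq (fun u => ∏ p ∈ u, b p), prod_insert hq, ← ih, mul_sum]
    refine sum_congr rfl fun e he => ?_
    rw [mul_sum]
    refine sum_congr rfl fun e' he' => ?_
    rw [prod_insert (Q01_nm hq he he')]
    ring

private theorem Q01_mem {P : Finset ℕ} {q : ℕ} (hq : q ∈ P) (b : ℕ → ℝ) :
    ∑ e ∈ P.powerset, ∑ e' ∈ P.powerset, (if q ∈ e ∪ e' then ∏ p ∈ e ∪ e', b p else 0) =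
      3 * b q * ∏ p ∈ P.erase q, (1 + 3 * b p) := by
  have h1 := Q01_ins (notMem_erase q P) (fun u => if q ∈ u then ∏ p ∈ u, b p else 0)
  rw [insert_erase hq] at h1
  rw [h1, ← Q01_sum, mul_sum]
  refine sum_congr rfl fun e he => ?_
  rw [mul_sum]
  refine sum_congr rfl fun e' he' => ?_
  have h2 := Q01_nm (notMem_erase q P) he he'
  rw [if_neg h2, if_pos (mem_insert_self q _), prod_insert h2]
  ring

private theorem Q01_split (e e' : Finset ℕ) (f : ℕ → ℝ) :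
    (∏ p ∈ e \ e', f p) * (∏ p ∈ e' \ e, f p) * (∏ p ∈ e ∩ e', f p) = ∏ p ∈ e ∪ e', f p := by
  rw [← union_sdiff_self_eq_union, prod_union disjoint_sdiff, ← prod_inter_mul_prod_sdiff e e' f]
  ring

private theorem Q01_pt (PL : Finset ℕ) (a a' b c : ℕ → ℝ) (gY : ℝ) (hgY : gY ≤ 1)
    (h0 : ∀ p ∈ PL, 0 ≤ a p ∧ a p ≤ b p ∧ 0 ≤ a' p ∧ a' p ≤ b p ∧ 0 ≤ c p ∧ c p ≤ b p ∧ b p ≤ gY)
    {e e' : Finset ℕ} (he : e ⊆ PL) (he' : e' ⊆ PL) :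
    0 ≤ ∏ p ∈ e ∪ e', b p ∧ 0 ≤ ∏ p ∈ e ∩ e', b p ∧ ∏ p ∈ e ∩ e', b p ≤ 1 ∧
    |(∏ p ∈ e \ e', a p) * (∏ p ∈ e' \ e, a' p) * (∏ p ∈ e ∩ e', c p) - (∏ p ∈ e, b p) * (∏ p ∈ e', a' p) -
        (∏ p ∈ e, a p) * (∏ p ∈ e', b p) + (∏ p ∈ e, b p) * ∏ p ∈ e', b p| ≤ 4 * ∏ p ∈ e ∪ e', b p := by
  have hb0 : ∀ p ∈ PL, 0 ≤ b p := fun p hp => (h0 p hp).1.trans (h0 p hp).2.1
  have hb1 : ∀ p ∈ PL, b p ≤ 1 := fun p hp => (h0 p hp).2.2.2.2.2.2.trans hgY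
  have hu : e ∪ e' ⊆ PL := union_subset he he'
  have hi : e ∩ e' ⊆ PL := inter_subset_left.trans he
  have hd : e \ e' ⊆ PL := sdiff_subset.trans he
  have hd' : e' \ e ⊆ PL := sdiff_subset.trans he'
  have hbu : 0 ≤ ∏ p ∈ e ∪ e', b p := prod_nonneg fun p hp => hb0 p (hu hp)
  have hbi0 : 0 ≤ ∏ p ∈ e ∩ e', b p := prod_nonneg fun p hp => hb0 p (hi hp)
  have hbi1 : ∏ p ∈ e ∩ e', b p ≤ 1 := prod_le_one (fun p hp => hb0 p (hi hp)) fun p hp => hb1 p (hi hp)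
  refine ⟨hbu, hbi0, hbi1, ?_⟩
  have hbe0 : 0 ≤ ∏ p ∈ e, b p := prod_nonneg fun p hp => hb0 p (he hp)
  have hbe0' : 0 ≤ ∏ p ∈ e', b p := prod_nonneg fun p hp => hb0 p (he' hp)
  have hae0 : 0 ≤ ∏ p ∈ e, a p := prod_nonneg fun p hp => (h0 p (he hp)).1
  have hae0' : 0 ≤ ∏ p ∈ e', a' p := prod_nonneg fun p hp => (h0 p (he' hp)).2.2.1
  have hae : ∏ p ∈ e, a p ≤ ∏ p ∈ e, b p :=
    prod_le_prod (fun p hp => (h0 p (he hp)).1) fun p hp => (h0 p (he hp)).2.1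
  have hae' : ∏ p ∈ e', a' p ≤ ∏ p ∈ e', b p :=
    prod_le_prod (fun p hp => (h0 p (he' hp)).2.2.1) fun p hp => (h0 p (he' hp)).2.2.2.1
  have hC : (∏ p ∈ e, b p) * ∏ p ∈ e', b p ≤ ∏ p ∈ e ∪ e', b p := by
    rw [← prod_union_inter]
    exact mul_le_of_le_one_right hbu hbi1
  have hA : (∏ p ∈ e, b p) * (∏ p ∈ e', a' p) ≤ ∏ p ∈ e ∪ e', b p :=
    (mul_le_mul_of_nonneg_left hae' hbe0).trans hC
  have hB : (∏ p ∈ e, a p) * (∏ p ∈ e', b p) ≤ ∏ p ∈ e ∪ e', b p :=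
    (mul_le_mul_of_nonneg_right hae hbe0').trans hC
  have hA0 := mul_nonneg hbe0 hae0'
  have hB0 := mul_nonneg hae0 hbe0'
  have hC0 := mul_nonneg hbe0 hbe0'
  have d1 : 0 ≤ ∏ p ∈ e \ e', a p := prod_nonneg fun p hp => (h0 p (hd hp)).1
  have d2 : 0 ≤ ∏ p ∈ e' \ e, a' p := prod_nonneg fun p hp => (h0 p (hd' hp)).2.2.1
  have d3 : 0 ≤ ∏ p ∈ e ∩ e', c p := prod_nonneg fun p hp => (h0 p (hi hp)).2.2.2.2.1
  have d4 : ∏ p ∈ e \ e', a p ≤ ∏ p ∈ e \ e', b p :=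
    prod_le_prod (fun p hp => (h0 p (hd hp)).1) fun p hp => (h0 p (hd hp)).2.1
  have d5 : ∏ p ∈ e' \ e, a' p ≤ ∏ p ∈ e' \ e, b p :=
    prod_le_prod (fun p hp => (h0 p (hd' hp)).2.2.1) fun p hp => (h0 p (hd' hp)).2.2.2.1
  have d6 : ∏ p ∈ e ∩ e', c p ≤ ∏ p ∈ e ∩ e', b p :=
    prod_le_prod (fun p hp => (h0 p (hi hp)).2.2.2.2.1) fun p hp => (h0 p (hi hp)).2.2.2.2.2.1
  have hH : (∏ p ∈ e \ e', a p) * (∏ p ∈ e' \ e, a' p) * (∏ p ∈ e ∩ e', c p) ≤ ∏ p ∈ e ∪ e', b p := by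
    rw [← Q01_split e e' b]
    exact mul_le_mul (mul_le_mul d4 d5 d2 (d1.trans d4)) d6 d3 (mul_nonneg (d1.trans d4) (d2.trans d5))
  have hH0 := mul_nonneg (mul_nonneg d1 d2) d3
  rw [abs_le]
  constructor
  · linarith
  · linarith

private theorem Q01_pt2 (PL : Finset ℕ) (a a' b c : ℕ → ℝ) (gY : ℝ) (hgY : gY ≤ 1) (hgY0 : 0 ≤ gY)
    (h0 : ∀ p ∈ PL, 0 ≤ a p ∧ a p ≤ b p ∧ 0 ≤ a' p ∧ a' p ≤ b p ∧ 0 ≤ c p ∧ c p ≤ b p ∧ b p ≤ gY)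
    {e e' : Finset ℕ} (he : e ⊆ PL) (he' : e' ⊆ PL)
    (hE : ∀ p ∈ e ∪ e', a p = b p ∧ a' p = b p ∧ c p = 0) :
    |(∏ p ∈ e \ e', a p) * (∏ p ∈ e' \ e, a' p) * (∏ p ∈ e ∩ e', c p) - (∏ p ∈ e, b p) * (∏ p ∈ e', a' p) -
        (∏ p ∈ e, a p) * (∏ p ∈ e', b p) + (∏ p ∈ e, b p) * ∏ p ∈ e', b p| ≤ gY * ∏ p ∈ e ∪ e', b p := by
  have hb0 : ∀ p ∈ PL, 0 ≤ b p := fun p hp => (h0 p hp).1.trans (h0 p hp).2.1
  have hb1 : ∀ p ∈ PL, b p ≤ 1 := fun p hp => (h0 p hp).2.2.2.2.2.2.trans hgY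
  obtain ⟨hbu, hbi0, hbi1, -⟩ := Q01_pt PL a a' b c gY hgY h0 he he'
  have e1 : ∏ p ∈ e, a p = ∏ p ∈ e, b p := prod_congr rfl fun p hp => (hE p (mem_union_left _ hp)).1
  have e2 : ∏ p ∈ e', a' p = ∏ p ∈ e', b p := prod_congr rfl fun p hp => (hE p (mem_union_right _ hp)).2.1
  have e3 : ∏ p ∈ e \ e', a p = ∏ p ∈ e \ e', b p :=
    prod_congr rfl fun p hp => (hE p (mem_union_left _ (mem_sdiff.1 hp).1)).1
  have e4 : ∏ p ∈ e' \ e, a' p = ∏ p ∈ e' \ e, b p :=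
    prod_congr rfl fun p hp => (hE p (mem_union_right _ (mem_sdiff.1 hp).1)).2.1
  rw [e1, e2, e3, e4]
  rcases (e ∩ e').eq_empty_or_nonempty with hi | ⟨q, hq⟩
  · have h1 := Q01_split e e' b
    have h2 := prod_union_inter (s₁ := e) (s₂ := e') (f := b)
    rw [hi, prod_empty, mul_one] at h1 h2
    rw [hi, prod_empty, mul_one, h1, ← h2]
    have h3 : ∏ p ∈ e ∪ e', b p - ∏ p ∈ e ∪ e', b p - ∏ p ∈ e ∪ e', b p + ∏ p ∈ e ∪ e', b p = 0 := by ring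
    rw [h3, abs_zero]
    exact mul_nonneg hgY0 hbu
  · have h1 : ∏ p ∈ e ∩ e', c p = 0 :=
      prod_eq_zero hq (hE q (mem_union_left _ (mem_inter.1 hq).1)).2.2
    have h2 : ∏ p ∈ e ∩ e', b p ≤ gY := by
      rw [← mul_prod_erase _ _ hq]
      have h3 : ∏ p ∈ (e ∩ e').erase q, b p ≤ 1 :=
        prod_le_one (fun p hp => hb0 p (he (mem_inter.1 (mem_of_mem_erase hp)).1))
          fun p hp => hb1 p (he (mem_inter.1 (mem_of_mem_erase hp)).1)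
      exact (mul_le_of_le_one_right (hb0 q (he (mem_inter.1 hq).1)) h3).trans
        (h0 q (he (mem_inter.1 hq).1)).2.2.2.2.2.2
    have h4 := prod_union_inter (s₁ := e) (s₂ := e') (f := b)
    rw [h1, ← h4]
    have h5 : (∏ p ∈ e \ e', b p) * (∏ p ∈ e' \ e, b p) * 0 - (∏ p ∈ e ∪ e', b p) * ∏ p ∈ e ∩ e', b p -
        (∏ p ∈ e ∪ e', b p) * ∏ p ∈ e ∩ e', b p + (∏ p ∈ e ∪ e', b p) * ∏ p ∈ e ∩ e', b p =
        -((∏ p ∈ e ∩ e', b p) * ∏ p ∈ e ∪ e', b p) := by ring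
    rw [h5, abs_neg, abs_of_nonneg (mul_nonneg hbi0 hbu)]
    exact mul_le_mul_of_nonneg_right h2 hbu

theorem Q01 (PL : Finset ℕ) (a a' b c : ℕ → ℝ) (gY : ℝ) (hgY : gY ≤ 1) (hgY0 : 0 ≤ gY)
    (h0 : ∀ p ∈ PL, 0 ≤ a p ∧ a p ≤ b p ∧ 0 ≤ a' p ∧ a' p ≤ b p ∧ 0 ≤ c p ∧ c p ≤ b p ∧ b p ≤ gY)
    (Exc : Finset ℕ) (hE : ∀ p ∈ PL, p ∉ Exc → a p = b p ∧ a' p = b p ∧ c p = 0)
    (w1 w2 : Finset ℕ → ℝ) (Cw : ℝ) (hw : ∀ e, |w1 e| ≤ Cw ∧ |w2 e| ≤ Cw) :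
    |∑ e ∈ PL.powerset, ∑ e' ∈ PL.powerset, w1 e * w2 e' *
      ((∏ p ∈ e \ e', a p) * (∏ p ∈ e' \ e, a' p) * (∏ p ∈ e ∩ e', c p) - (∏ p ∈ e, b p) * (∏ p ∈ e', a' p) -
        (∏ p ∈ e, a p) * (∏ p ∈ e', b p) + (∏ p ∈ e, b p) * ∏ p ∈ e', b p)| ≤
    4 * Cw ^ 2 * min 1 ((3 * (Exc.card : ℝ) + 1) * gY) * ∏ p ∈ PL, (1 + 3 * b p) := by
  have hb0 : ∀ p ∈ PL, 0 ≤ b p := fun p hp => (h0 p hp).1.trans (h0 p hp).2.1
  have hCw : 0 ≤ Cw := (abs_nonneg _).trans (hw ∅).1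
  have hPi : 0 ≤ ∏ p ∈ PL, (1 + 3 * b p) := prod_nonneg fun p hp => by linarith [hb0 p hp]
  set G : Finset ℕ → Finset ℕ → ℝ := fun e e' =>
    (∏ p ∈ e \ e', a p) * (∏ p ∈ e' \ e, a' p) * (∏ p ∈ e ∩ e', c p) - (∏ p ∈ e, b p) * (∏ p ∈ e', a' p) -
        (∏ p ∈ e, a p) * (∏ p ∈ e', b p) + (∏ p ∈ e, b p) * ∏ p ∈ e', b p with hG
  have hstep : |∑ e ∈ PL.powerset, ∑ e' ∈ PL.powerset, w1 e * w2 e' * G e e'| ≤
      Cw ^ 2 * ∑ e ∈ PL.powerset, ∑ e' ∈ PL.powerset, |G e e'| := by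
    refine (abs_sum_le_sum_abs _ _).trans ?_
    rw [mul_sum]
    refine sum_le_sum fun e _ => ?_
    refine (abs_sum_le_sum_abs _ _).trans ?_
    rw [mul_sum]
    refine sum_le_sum fun e' _ => ?_
    rw [abs_mul, abs_mul, sq]
    exact mul_le_mul_of_nonneg_right (mul_le_mul (hw e).1 (hw e').2 (abs_nonneg _) hCw) (abs_nonneg _)
  have hone : ∑ e ∈ PL.powerset, ∑ e' ∈ PL.powerset, |G e e'| ≤ 4 * ∏ p ∈ PL, (1 + 3 * b p) := by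
    rw [← Q01_sum, mul_sum]
    refine sum_le_sum fun e he => ?_
    rw [mul_sum]
    refine sum_le_sum fun e' he' => ?_
    rw [mem_powerset] at he he'
    exact (Q01_pt PL a a' b c gY hgY h0 he he').2.2.2
  have htwo : ∑ e ∈ PL.powerset, ∑ e' ∈ PL.powerset, |G e e'| ≤
      4 * ((3 * (Exc.card : ℝ) + 1) * gY) * ∏ p ∈ PL, (1 + 3 * b p) := by
    have h1 : ∀ e ∈ PL.powerset, ∀ e' ∈ PL.powerset, |G e e'| ≤ gY * ∏ p ∈ e ∪ e', b p +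
        ∑ q ∈ Exc ∩ PL, 4 * (if q ∈ e ∪ e' then ∏ p ∈ e ∪ e', b p else 0) := by
      intro e he e' he'
      rw [mem_powerset] at he he'
      obtain ⟨hbu, -, -, h4⟩ := Q01_pt PL a a' b c gY hgY h0 he he'
      have hnn : ∀ q ∈ Exc ∩ PL, 0 ≤ 4 * (if q ∈ e ∪ e' then ∏ p ∈ e ∪ e', b p else 0) := by
        intro q _
        split_ifs
        · exact mul_nonneg (by norm_num) hbu
        · rw [mul_zero]
      by_cases hx : ∃ q ∈ e ∪ e', q ∈ Exc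
      · obtain ⟨q, hq, hqE⟩ := hx
        have hqP : q ∈ Exc ∩ PL := mem_inter.2 ⟨hqE, (union_subset he he') hq⟩
        have h5 := single_le_sum hnn hqP
        rw [if_pos hq] at h5
        exact h4.trans (h5.trans (le_add_of_nonneg_left (mul_nonneg hgY0 hbu)))
      · have h6 : ∀ p ∈ e ∪ e', a p = b p ∧ a' p = b p ∧ c p = 0 := fun p hp =>
          hE p ((union_subset he he') hp) fun h => hx ⟨p, hp, h⟩
        exact (Q01_pt2 PL a a' b c gY hgY hgY0 h0 he he' h6).trans (le_add_of_nonneg_right (sum_nonneg hnn))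
    have h2 : ∑ e ∈ PL.powerset, ∑ e' ∈ PL.powerset, |G e e'| ≤
        gY * ∏ p ∈ PL, (1 + 3 * b p) + ∑ q ∈ Exc ∩ PL, 4 * (3 * b q * ∏ p ∈ PL.erase q, (1 + 3 * b p)) := by
      refine (sum_le_sum fun e he => sum_le_sum fun e' he' => h1 e he e' he').trans (le_of_eq ?_)
      simp only [sum_add_distrib]
      congr 1
      · rw [← Q01_sum, mul_sum]
        exact sum_congr rfl fun e _ => (mul_sum _ _ _).symm
      · have h3 : ∀ e ∈ PL.powerset, ∑ e' ∈ PL.powerset, ∑ q ∈ Exc ∩ PL, 4 * (if q ∈ e ∪ e' then ∏ p ∈ e ∪ e', b p else 0) =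
            ∑ q ∈ Exc ∩ PL, ∑ e' ∈ PL.powerset, 4 * (if q ∈ e ∪ e' then ∏ p ∈ e ∪ e', b p else 0) := fun e _ => sum_comm
        rw [sum_congr rfl h3, sum_comm]
        refine sum_congr rfl fun q hq => ?_
        rw [← Q01_mem (mem_inter.1 hq).2 b, mul_sum]
        exact sum_congr rfl fun e _ => (mul_sum _ _ _).symm
    refine h2.trans ?_
    have h3 : ∀ q ∈ Exc ∩ PL, 4 * (3 * b q * ∏ p ∈ PL.erase q, (1 + 3 * b p)) ≤ 12 * gY * ∏ p ∈ PL, (1 + 3 * b p) := by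
      intro q hq
      have hqP := (mem_inter.1 hq).2
      have h5 : 0 ≤ ∏ p ∈ PL.erase q, (1 + 3 * b p) :=
        prod_nonneg fun p hp => by linarith [hb0 p (mem_of_mem_erase hp)]
      have h6 : ∏ p ∈ PL.erase q, (1 + 3 * b p) ≤ ∏ p ∈ PL, (1 + 3 * b p) := by
        rw [← mul_prod_erase PL _ hqP]
        exact le_mul_of_one_le_left h5 (by linarith [hb0 q hqP])
      have h7 : b q * ∏ p ∈ PL.erase q, (1 + 3 * b p) ≤ gY * ∏ p ∈ PL, (1 + 3 * b p) :=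
        mul_le_mul (h0 q hqP).2.2.2.2.2.2 h6 h5 hgY0
      linarith
    have h4 := sum_le_card_nsmul (Exc ∩ PL) _ _ h3
    rw [nsmul_eq_mul] at h4
    have h5 : (((Exc ∩ PL).card : ℕ) : ℝ) ≤ (Exc.card : ℝ) := Nat.cast_le.2 (card_le_card inter_subset_left)
    have h6 : 0 ≤ gY * ∏ p ∈ PL, (1 + 3 * b p) := mul_nonneg hgY0 hPi
    have h7 := mul_le_mul_of_nonneg_right h5 h6
    nlinarith
  refine hstep.trans ?_
  have hC2 : 0 ≤ Cw ^ 2 := sq_nonneg _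
  rcases le_total 1 ((3 * (Exc.card : ℝ) + 1) * gY) with h | h
  · rw [min_eq_left h]
    have := mul_le_mul_of_nonneg_left hone hC2
    linarith
  · rw [min_eq_right h]
    have := mul_le_mul_of_nonneg_left htwo hC2
    linarith

end Pool.Agent.Lib.TC
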