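import Pool.Agent.Lib.MP_7b7e48_nt.TC.Q01

/-!
# Q02: the large sieve (9.1), abstract form

`n ∈ I` with weights `Om n`; for `e ⊆ PL` with `∏ e ≤ Z²` and residues `r p ∈ Ω p ∪ Ω' p` the weight of the `n ≡ r p (p ∈ e)` is `m0 ∏_{p ∈ e} g p` up to `ε`.

Proof. `∑_{e ⊆ {p : n % p ∈ Ω p}} w1 e = ∑_{e ⊆ PL} w1 e 1[∀ p ∈ e, n % p ∈ Ω p]`, so the left side is `∑_{e,e'} w1 e w2 e' (A₁ - A₂ - A₃ + A₄)`,
`A₁ = ∑_n Om 1[n % p ∈ Ω p on e] 1[n % p ∈ Ω' p on e']`, `A₂ = b(e) ∑_n Om 1[n % p ∈ Ω' p on e']`, `A₃ = b(e') ∑_n Om 1[.. Ω p on e]`, `A₄ = b(e) b(e') ∑_n Om`, `b(e) = ∏_{p ∈ e} m g p ≤ 1`.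
Only `e, e'` with `w1 e ≠ 0`, `w2 e' ≠ 0` matter: `∏ e ≤ Z`, `∏ e' ≤ Z`. In `A₁` the admissible residue vectors on `u = e ∪ e'` are the product of the sets `Ω p` (`p ∈ e \ e'`), `Ω' p`
(`e' \ e`), `Ω p ∩ Ω' p` (`e ∩ e'`); their number is at most `m^|e| m^|e'| ≤ ∏ e ∏ e' ≤ Z²` (`m ≤ p`), each contributes `m0 ∏_{p ∈ u} g p ± ε` by `heq` (`∏ u ≤ Z²`). So
`|A₁ - m0 H| ≤ Z² ε` with `a p = |Ω p| g p`, `a' p = |Ω' p| g p`, `c p = |Ω p ∩ Ω' p| g p`; in the same way `A₂`, `A₃`, `A₄` up to `Z² ε` each. The number of the `e ⊆ PL` with `∏ e ≤ Z` is at most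
`Z` (`e ↦ ∏ e` is injective on sets of primes, values in `[1, Z]`). Total error `≤ Z² Cw² 4 Z² ε ≤ ε (2 Cw Z²)²`. The main term is `m0` times the sum of `Q01` with `b p = m g p`.
-/

set_option autoImplicit false

open Finset

namespace Pool.Agent.Lib.TC

private theorem Q02_split (e e' : Finset ℕ) (F : ℕ → ℝ) :
    ∏ p ∈ e ∪ e', F p = (∏ p ∈ e \ e', F p) * (∏ p ∈ e' \ e, F p) * ∏ p ∈ e ∩ e', F p := by
  rw [← sdiff_union_self_eq_union, prod_union sdiff_disjoint, ← prod_inter_mul_prod_diff e' e F, inter_comm e' e]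
  ring

private theorem Q02_prodle (e e' : Finset ℕ) (h : ∀ p ∈ e ∪ e', 0 < p) :
    ∏ p ∈ e ∪ e', p ≤ (∏ p ∈ e, p) * ∏ p ∈ e', p := by
  rw [← sdiff_union_self_eq_union, prod_union sdiff_disjoint]
  refine Nat.mul_le_mul_right _ (Nat.le_of_dvd ?_ (prod_dvd_prod_of_subset _ _ _ sdiff_subset))
  exact prod_pos fun p hp => h p (mem_union_left _ hp)

/-- sums over residue vectors -/
private theorem Q02_res (u : Finset ℕ) (R : ℕ → Finset ℕ) (I : Finset ℕ) (Om : ℕ → ℝ) (G ε : ℝ) (hε : 0 ≤ ε) (C : ℕ)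
    (hC : ∏ p ∈ u, (R p).card ≤ C)
    (h : ∀ r : ℕ → ℕ, (∀ p ∈ u, r p ∈ R p) → |∑ n ∈ I.filter (fun n => ∀ p ∈ u, n % p = r p), Om n - G| ≤ ε) :
    |∑ n ∈ I.filter (fun n => ∀ p ∈ u, n % p ∈ R p), Om n - (∏ p ∈ u, ((R p).card : ℝ)) * G| ≤ C * ε := by
  classical
  have h1 : ∑ n ∈ I.filter (fun n => ∀ p ∈ u, n % p ∈ R p), Om n =
      ∑ f ∈ u.pi R, ∑ n ∈ (I.filter (fun n => ∀ p ∈ u, n % p ∈ R p)).filter
        (fun n => (fun p (_ : p ∈ u) => n % p) = f), Om n := by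
    refine (sum_fiberwise_of_maps_to (g := fun n p (_ : p ∈ u) => n % p) ?_ _).symm
    intro n hn
    rw [mem_filter] at hn
    rw [mem_pi]
    exact fun p hp => hn.2 p hp
  have h2 : (∏ p ∈ u, ((R p).card : ℝ)) * G = ∑ f ∈ u.pi R, G := by
    rw [sum_const, card_pi, nsmul_eq_mul, Nat.cast_prod]
  rw [h1, h2, ← sum_sub_distrib]
  refine (abs_sum_le_sum_abs _ _).trans ?_
  have h3 : ∑ f ∈ u.pi R, |∑ n ∈ (I.filter (fun n => ∀ p ∈ u, n % p ∈ R p)).filter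
        (fun n => (fun p (_ : p ∈ u) => n % p) = f), Om n - G| ≤ ∑ f ∈ u.pi R, ε := by
    refine sum_le_sum fun f hf => ?_
    rw [mem_pi] at hf
    obtain ⟨r, hr⟩ : ∃ r : ℕ → ℕ, ∀ p (hp : p ∈ u), r p = f p hp :=
      ⟨fun p => if hp : p ∈ u then f p hp else 0, fun p hp => dif_pos hp⟩
    have e1 : (I.filter (fun n => ∀ p ∈ u, n % p ∈ R p)).filter (fun n => (fun p (_ : p ∈ u) => n % p) = f) =
        I.filter (fun n => ∀ p ∈ u, n % p = r p) := by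
      ext n
      rw [mem_filter, mem_filter, mem_filter]
      constructor
      · rintro ⟨⟨a1, _⟩, a3⟩
        refine ⟨a1, fun p hp => ?_⟩
        rw [hr p hp]
        exact congrFun (congrFun a3 p) hp
      · rintro ⟨a1, a2⟩
        refine ⟨⟨a1, fun p hp => ?_⟩, ?_⟩
        · rw [a2 p hp, hr p hp]
          exact hf p hp
        · funext p hp
          rw [a2 p hp, hr p hp]
    rw [e1]
    exact h r fun p hp => by rw [hr p hp]; exact hf p hp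
  refine h3.trans ?_
  rw [sum_const, card_pi, nsmul_eq_mul]
  exact mul_le_mul_of_nonneg_right (by exact_mod_cast hC) hε

open Classical in
/-- the estimate for one pair `(e, e')` -/
private theorem Q02_pair (PL : Finset ℕ) (m : ℕ) (hPL : ∀ p ∈ PL, p.Prime ∧ m ≤ p) (g : ℕ → ℝ)
    (Ω Ω' : ℕ → Finset ℕ) (hΩ : ∀ p ∈ PL, Ω p ⊆ range p ∧ (Ω p).card ≤ m)
    (hΩ' : ∀ p ∈ PL, Ω' p ⊆ range p ∧ (Ω' p).card ≤ m) (Z : ℕ)
    (I : Finset ℕ) (Om : ℕ → ℝ) (m0 ε : ℝ) (hε : 0 ≤ ε)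
    (heq : ∀ e ⊆ PL, ∏ p ∈ e, p ≤ Z ^ 2 → ∀ r : ℕ → ℕ, (∀ p ∈ e, r p ∈ Ω p ∪ Ω' p) →
      |∑ n ∈ I.filter (fun n => ∀ p ∈ e, n % p = r p), Om n - m0 * ∏ p ∈ e, g p| ≤ ε)
    {e e' : Finset ℕ} (he : e ⊆ PL) (he' : e' ⊆ PL) (hZe : ∏ p ∈ e, p ≤ Z) (hZe' : ∏ p ∈ e', p ≤ Z) :
    |∑ n ∈ I, Om n * ((if ∀ p ∈ e, n % p ∈ Ω p then (1 : ℝ) else 0) * (if ∀ p ∈ e', n % p ∈ Ω' p then (1 : ℝ) else 0)) -
      m0 * ((∏ p ∈ e \ e', (((Ω p).card : ℝ) * g p)) * (∏ p ∈ e' \ e, (((Ω' p).card : ℝ) * g p)) *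
        ∏ p ∈ e ∩ e', (((Ω p ∩ Ω' p).card : ℝ) * g p))| ≤ (Z : ℝ) ^ 2 * ε := by
  have hu : e ∪ e' ⊆ PL := union_subset he he'
  have hpos : ∀ p ∈ e ∪ e', 0 < p := fun p hp => (hPL p (hu hp)).1.pos
  obtain ⟨R, hR⟩ : ∃ R : ℕ → Finset ℕ, R = fun p => if p ∈ e then (if p ∈ e' then Ω p ∩ Ω' p else Ω p) else Ω' p :=
    ⟨_, rfl⟩
  have hR1 : ∀ p ∈ e \ e', R p = Ω p := by
    intro p hp
    rw [mem_sdiff] at hp
    rw [hR]
    simp only [if_pos hp.1, if_neg hp.2]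
  have hR2 : ∀ p ∈ e' \ e, R p = Ω' p := by
    intro p hp
    rw [mem_sdiff] at hp
    rw [hR]
    simp only [if_neg hp.2]
  have hR3 : ∀ p ∈ e ∩ e', R p = Ω p ∩ Ω' p := by
    intro p hp
    rw [mem_inter] at hp
    rw [hR]
    simp only [if_pos hp.1, if_pos hp.2]
  have hRs : ∀ p ∈ e ∪ e', R p ⊆ Ω p ∪ Ω' p ∧ (R p).card ≤ m := by
    intro p hp
    have hpP := hu hp
    rw [hR]
    dsimp only
    split_ifs
    · exact ⟨inter_subset_left.trans subset_union_left, (card_le_card inter_subset_left).trans (hΩ p hpP).2⟩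
    · exact ⟨subset_union_left, (hΩ p hpP).2⟩
    · exact ⟨subset_union_right, (hΩ' p hpP).2⟩
  have hmem : ∀ n : ℕ, (∀ p ∈ e ∪ e', n % p ∈ R p) ↔ (∀ p ∈ e, n % p ∈ Ω p) ∧ ∀ p ∈ e', n % p ∈ Ω' p := by
    intro n
    constructor
    · intro h
      refine ⟨fun p hp => ?_, fun p hp => ?_⟩
      · by_cases hp' : p ∈ e'
        · have h1 := h p (mem_union_left _ hp)
          rw [hR3 p (mem_inter.2 ⟨hp, hp'⟩), mem_inter] at h1
          exact h1.1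
        · have h1 := h p (mem_union_left _ hp)
          rwa [hR1 p (mem_sdiff.2 ⟨hp, hp'⟩)] at h1
      · by_cases hp' : p ∈ e
        · have h1 := h p (mem_union_right _ hp)
          rw [hR3 p (mem_inter.2 ⟨hp', hp⟩), mem_inter] at h1
          exact h1.2
        · have h1 := h p (mem_union_right _ hp)
          rwa [hR2 p (mem_sdiff.2 ⟨hp, hp'⟩)] at h1
    · rintro ⟨h1, h2⟩ p hp
      by_cases a : p ∈ e
      · by_cases b : p ∈ e'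
        · rw [hR3 p (mem_inter.2 ⟨a, b⟩), mem_inter]
          exact ⟨h1 p a, h2 p b⟩
        · rw [hR1 p (mem_sdiff.2 ⟨a, b⟩)]
          exact h1 p a
      · have b : p ∈ e' := (mem_union.1 hp).resolve_left a
        rw [hR2 p (mem_sdiff.2 ⟨b, a⟩)]
        exact h2 p b
  have hA : ∑ n ∈ I, Om n * ((if ∀ p ∈ e, n % p ∈ Ω p then (1 : ℝ) else 0) *
      (if ∀ p ∈ e', n % p ∈ Ω' p then (1 : ℝ) else 0)) = ∑ n ∈ I.filter (fun n => ∀ p ∈ e ∪ e', n % p ∈ R p), Om n := by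
    rw [sum_filter]
    refine sum_congr rfl fun n _ => ?_
    by_cases h1 : ∀ p ∈ e, n % p ∈ Ω p
    · by_cases h2 : ∀ p ∈ e', n % p ∈ Ω' p
      · rw [if_pos h1, if_pos h2, if_pos ((hmem n).2 ⟨h1, h2⟩)]
        ring
      · rw [if_pos h1, if_neg h2, if_neg fun h => h2 ((hmem n).1 h).2]
        ring
    · rw [if_neg h1, if_neg fun h => h1 ((hmem n).1 h).1]
      ring
  have hprod : ∏ p ∈ e ∪ e', p ≤ Z ^ 2 := by
    refine (Q02_prodle e e' hpos).trans ?_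
    rw [pow_two]
    exact Nat.mul_le_mul hZe hZe'
  have hcard : ∏ p ∈ e ∪ e', (R p).card ≤ Z ^ 2 := by
    refine le_trans (prod_le_prod (fun p _ => Nat.zero_le _) fun p hp => ?_) hprod
    exact (hRs p hp).2.trans (hPL p (hu hp)).2
  have hres := Q02_res (e ∪ e') R I Om (m0 * ∏ p ∈ e ∪ e', g p) ε hε (Z ^ 2) hcard (by
    intro r hr
    have h1 := heq (e ∪ e') hu hprod r fun p hp => (hRs p hp).1 (hr p hp)
    convert h1 using 4)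
  have hH : (∏ p ∈ e ∪ e', ((R p).card : ℝ)) * (m0 * ∏ p ∈ e ∪ e', g p) =
      m0 * ((∏ p ∈ e \ e', (((Ω p).card : ℝ) * g p)) * (∏ p ∈ e' \ e, (((Ω' p).card : ℝ) * g p)) *
        ∏ p ∈ e ∩ e', (((Ω p ∩ Ω' p).card : ℝ) * g p)) := by
    have h1 : (∏ p ∈ e ∪ e', ((R p).card : ℝ)) * (m0 * ∏ p ∈ e ∪ e', g p) =
        m0 * ∏ p ∈ e ∪ e', (((R p).card : ℝ) * g p) := by
      rw [prod_mul_distrib]
      ring
    rw [h1, Q02_split]
    congr 2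
    · congr 1
      · exact prod_congr rfl fun p hp => by rw [hR1 p hp]
      · exact prod_congr rfl fun p hp => by rw [hR2 p hp]
    · exact prod_congr rfl fun p hp => by rw [hR3 p hp]
  rw [hA, ← hH]
  push_cast at hres
  exact hres

/-- the number of the sets of primes with small product -/
private theorem Q02_num (PL : Finset ℕ) (hPL : ∀ p ∈ PL, p.Prime) (Z : ℕ) :
    (PL.powerset.filter fun e => ∏ p ∈ e, p ≤ Z).card ≤ Z := by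
  have h1 : (PL.powerset.filter fun e => ∏ p ∈ e, p ≤ Z).card ≤ (Icc 1 Z).card := by
    refine card_le_card_of_injOn (fun e => ∏ p ∈ e, p) ?_ ?_
    · intro e he
      rw [mem_coe, mem_filter, mem_powerset] at he
      rw [mem_coe, mem_Icc]
      exact ⟨prod_pos fun p hp => (hPL p (he.1 hp)).pos, he.2⟩
    · intro e he e' he' h
      rw [mem_coe, mem_filter, mem_powerset] at he he'
      have h2 := congrArg Nat.primeFactors h
      rwa [Nat.primeFactors_prod fun p hp => hPL p (he.1 hp),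
        Nat.primeFactors_prod fun p hp => hPL p (he'.1 hp)] at h2
  rwa [Nat.card_Icc, Nat.add_sub_cancel] at h1

theorem Q02 (PL : Finset ℕ) (m : ℕ) (hm : 1 ≤ m) (hPL : ∀ p ∈ PL, p.Prime ∧ m ≤ p) (g : ℕ → ℝ) (gY : ℝ) (hgY : gY ≤ 1) (hgY0 : 0 ≤ gY)
    (hg : ∀ p ∈ PL, 0 ≤ g p ∧ (m : ℝ) * g p ≤ gY) (Ω Ω' : ℕ → Finset ℕ) (hΩ : ∀ p ∈ PL, Ω p ⊆ range p ∧ (Ω p).card ≤ m)
    (hΩ' : ∀ p ∈ PL, Ω' p ⊆ range p ∧ (Ω' p).card ≤ m)
    (w1 w2 : Finset ℕ → ℝ) (Cw : ℝ) (hw : ∀ e, |w1 e| ≤ Cw ∧ |w2 e| ≤ Cw) (Z : ℕ) (hZ : ∀ e ⊆ PL, w1 e ≠ 0 ∨ w2 e ≠ 0 → ∏ p ∈ e, p ≤ Z)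
    (I : Finset ℕ) (Om : ℕ → ℝ) (m0 ε : ℝ) (hm0 : 0 ≤ m0) (hε : 0 ≤ ε)
    (heq : ∀ e ⊆ PL, ∏ p ∈ e, p ≤ Z ^ 2 → ∀ r : ℕ → ℕ, (∀ p ∈ e, r p ∈ Ω p ∪ Ω' p) →
      |∑ n ∈ I.filter (fun n => ∀ p ∈ e, n % p = r p), Om n - m0 * ∏ p ∈ e, g p| ≤ ε)
    (Exc : Finset ℕ) (hExc : ∀ p ∈ PL, p ∉ Exc → (Ω p).card = m ∧ (Ω' p).card = m ∧ Disjoint (Ω p) (Ω' p)) :
    |∑ n ∈ I, Om n * ((∑ e ∈ (PL.filter fun p => n % p ∈ Ω p).powerset, w1 e - ∑ e ∈ PL.powerset, w1 e * ∏ p ∈ e, ((m : ℝ) * g p)) *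
      (∑ e ∈ (PL.filter fun p => n % p ∈ Ω' p).powerset, w2 e - ∑ e ∈ PL.powerset, w2 e * ∏ p ∈ e, ((m : ℝ) * g p)))| ≤
    m0 * (4 * Cw ^ 2 * min 1 ((3 * (Exc.card : ℝ) + 1) * gY) * ∏ p ∈ PL, (1 + 3 * ((m : ℝ) * g p))) + ε * (2 * Cw * (Z : ℝ) ^ 2) ^ 2 := by
  classical
  have hCw : 0 ≤ Cw := (abs_nonneg _).trans (hw ∅).1
  obtain ⟨b, hb⟩ : ∃ b : Finset ℕ → ℝ, b = fun e => ∏ p ∈ e, ((m : ℝ) * g p) := ⟨_, rfl⟩
  have hb0 : ∀ e ⊆ PL, 0 ≤ b e ∧ b e ≤ 1 := by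
    intro e he
    rw [hb]
    refine ⟨prod_nonneg fun p hp => mul_nonneg (Nat.cast_nonneg _) (hg p (he hp)).1, ?_⟩
    exact prod_le_one (fun p hp => mul_nonneg (Nat.cast_nonneg _) (hg p (he hp)).1)
      fun p hp => (hg p (he hp)).2.trans hgY
  obtain ⟨i1, hi1⟩ : ∃ i1 : Finset ℕ → ℕ → ℝ, i1 = fun e n => if ∀ p ∈ e, n % p ∈ Ω p then (1 : ℝ) else 0 := ⟨_, rfl⟩
  obtain ⟨i2, hi2⟩ : ∃ i2 : Finset ℕ → ℕ → ℝ, i2 = fun e n => if ∀ p ∈ e, n % p ∈ Ω' p then (1 : ℝ) else 0 := ⟨_, rfl⟩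
  obtain ⟨A, hA⟩ : ∃ A : Finset ℕ → Finset ℕ → ℝ, A = fun e e' => ∑ n ∈ I, Om n * (i1 e n * i2 e' n) := ⟨_, rfl⟩
  obtain ⟨H, hH⟩ : ∃ H : Finset ℕ → Finset ℕ → ℝ, H = fun e e' =>
      (∏ p ∈ e \ e', (((Ω p).card : ℝ) * g p)) * (∏ p ∈ e' \ e, (((Ω' p).card : ℝ) * g p)) *
        ∏ p ∈ e ∩ e', (((Ω p ∩ Ω' p).card : ℝ) * g p) := ⟨_, rfl⟩
  have hi10 : ∀ n, i1 ∅ n = 1 := by
    intro n
    rw [hi1]
    simp
  have hi20 : ∀ n, i2 ∅ n = 1 := by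
    intro n
    rw [hi2]
    simp
  have hpair : ∀ e ⊆ PL, ∀ e' ⊆ PL, ∏ p ∈ e, p ≤ Z → ∏ p ∈ e', p ≤ Z → |A e e' - m0 * H e e'| ≤ (Z : ℝ) ^ 2 * ε := by
    intro e he e' he' h1 h2
    have h3 := Q02_pair PL m hPL g Ω Ω' hΩ hΩ' Z I Om m0 ε hε heq he he' h1 h2
    rw [hA, hH, hi1, hi2]
    exact h3
  -- the left side
  have hs1 : ∀ n, ∑ e ∈ (PL.filter fun p => n % p ∈ Ω p).powerset, w1 e -
      ∑ e ∈ PL.powerset, w1 e * ∏ p ∈ e, ((m : ℝ) * g p) = ∑ e ∈ PL.powerset, w1 e * (i1 e n - b e) := by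
    intro n
    have h1 : (PL.filter fun p => n % p ∈ Ω p).powerset = PL.powerset.filter fun e => ∀ p ∈ e, n % p ∈ Ω p := by
      ext e
      rw [mem_powerset, mem_filter, mem_powerset]
      constructor
      · intro h
        exact ⟨fun p hp => (mem_filter.1 (h hp)).1, fun p hp => (mem_filter.1 (h hp)).2⟩
      · rintro ⟨h2, h3⟩ p hp
        exact mem_filter.2 ⟨h2 hp, h3 p hp⟩
    rw [h1, sum_filter, ← sum_sub_distrib]
    refine sum_congr rfl fun e _ => ?_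
    rw [hi1, hb]
    dsimp only
    split_ifs <;> ring
  have hs2 : ∀ n, ∑ e ∈ (PL.filter fun p => n % p ∈ Ω' p).powerset, w2 e -
      ∑ e ∈ PL.powerset, w2 e * ∏ p ∈ e, ((m : ℝ) * g p) = ∑ e ∈ PL.powerset, w2 e * (i2 e n - b e) := by
    intro n
    have h1 : (PL.filter fun p => n % p ∈ Ω' p).powerset = PL.powerset.filter fun e => ∀ p ∈ e, n % p ∈ Ω' p := by
      ext e
      rw [mem_powerset, mem_filter, mem_powerset]
      constructor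
      · intro h
        exact ⟨fun p hp => (mem_filter.1 (h hp)).1, fun p hp => (mem_filter.1 (h hp)).2⟩
      · rintro ⟨h2, h3⟩ p hp
        exact mem_filter.2 ⟨h2 hp, h3 p hp⟩
    rw [h1, sum_filter, ← sum_sub_distrib]
    refine sum_congr rfl fun e _ => ?_
    rw [hi2, hb]
    dsimp only
    split_ifs <;> ring
  have hL : ∑ n ∈ I, Om n * ((∑ e ∈ (PL.filter fun p => n % p ∈ Ω p).powerset, w1 e -
      ∑ e ∈ PL.powerset, w1 e * ∏ p ∈ e, ((m : ℝ) * g p)) *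
      (∑ e ∈ (PL.filter fun p => n % p ∈ Ω' p).powerset, w2 e - ∑ e ∈ PL.powerset, w2 e * ∏ p ∈ e, ((m : ℝ) * g p))) =
      ∑ e ∈ PL.powerset, ∑ e' ∈ PL.powerset, w1 e * w2 e' *
        (A e e' - b e * A ∅ e' - b e' * A e ∅ + b e * b e' * A ∅ ∅) := by
    have h1 : ∀ n ∈ I, Om n * ((∑ e ∈ (PL.filter fun p => n % p ∈ Ω p).powerset, w1 e -
        ∑ e ∈ PL.powerset, w1 e * ∏ p ∈ e, ((m : ℝ) * g p)) *
        (∑ e ∈ (PL.filter fun p => n % p ∈ Ω' p).powerset, w2 e - ∑ e ∈ PL.powerset, w2 e * ∏ p ∈ e, ((m : ℝ) * g p))) =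
        ∑ e ∈ PL.powerset, ∑ e' ∈ PL.powerset, w1 e * w2 e' * (Om n * ((i1 e n - b e) * (i2 e' n - b e'))) := by
      intro n _
      rw [hs1, hs2, sum_mul_sum, mul_sum]
      refine sum_congr rfl fun e _ => ?_
      rw [mul_sum]
      exact sum_congr rfl fun e' _ => by ring
    rw [sum_congr rfl h1, sum_comm]
    refine sum_congr rfl fun e _ => ?_
    rw [sum_comm]
    refine sum_congr rfl fun e' _ => ?_
    rw [← mul_sum]
    congr 1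
    rw [hA]
    dsimp only
    rw [mul_sum, mul_sum, mul_sum, ← sum_sub_distrib, ← sum_sub_distrib, ← sum_add_distrib]
    refine sum_congr rfl fun n _ => ?_
    rw [hi10, hi20]
    ring
  rw [hL]
  -- the main term
  have hQ := Q01 PL (fun p => ((Ω p).card : ℝ) * g p) (fun p => ((Ω' p).card : ℝ) * g p) (fun p => (m : ℝ) * g p)
    (fun p => ((Ω p ∩ Ω' p).card : ℝ) * g p) gY hgY hgY0 (by
      intro p hp
      have h1 := (hg p hp).1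
      have h2 : ((Ω p).card : ℝ) ≤ m := by exact_mod_cast (hΩ p hp).2
      have h3 : ((Ω' p).card : ℝ) ≤ m := by exact_mod_cast (hΩ' p hp).2
      have h4 : ((Ω p ∩ Ω' p).card : ℝ) ≤ m := by
        exact_mod_cast (card_le_card inter_subset_left).trans (hΩ p hp).2
      exact ⟨mul_nonneg (Nat.cast_nonneg _) h1, mul_le_mul_of_nonneg_right h2 h1, mul_nonneg (Nat.cast_nonneg _) h1,
        mul_le_mul_of_nonneg_right h3 h1, mul_nonneg (Nat.cast_nonneg _) h1, mul_le_mul_of_nonneg_right h4 h1,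
        (hg p hp).2⟩) Exc (by
      intro p hp hpE
      obtain ⟨h1, h2, h3⟩ := hExc p hp hpE
      refine ⟨by rw [h1], by rw [h2], ?_⟩
      rw [disjoint_iff_inter_eq_empty.1 h3, card_empty, Nat.cast_zero, zero_mul]) w1 w2 Cw hw
  have hH1 : ∀ e, H e ∅ = ∏ p ∈ e, (((Ω p).card : ℝ) * g p) := by
    intro e
    rw [hH]
    simp
  have hH2 : ∀ e', H ∅ e' = ∏ p ∈ e', (((Ω' p).card : ℝ) * g p) := by
    intro e
    rw [hH]
    simp
  have hH3 : H ∅ ∅ = 1 := by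
    rw [hH]
    simp
  have hmain : |∑ e ∈ PL.powerset, ∑ e' ∈ PL.powerset, w1 e * w2 e' *
      (H e e' - b e * H ∅ e' - b e' * H e ∅ + b e * b e' * H ∅ ∅)| ≤
      4 * Cw ^ 2 * min 1 ((3 * (Exc.card : ℝ) + 1) * gY) * ∏ p ∈ PL, (1 + 3 * ((m : ℝ) * g p)) := by
    refine le_trans (le_of_eq ?_) hQ
    congr 1
    refine sum_congr rfl fun e _ => sum_congr rfl fun e' _ => ?_
    rw [hH1, hH2, hH3, hH, hb]
    ring
  -- the error
  have herr : |∑ e ∈ PL.powerset, ∑ e' ∈ PL.powerset, w1 e * w2 e' *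
      ((A e e' - b e * A ∅ e' - b e' * A e ∅ + b e * b e' * A ∅ ∅) -
        m0 * (H e e' - b e * H ∅ e' - b e' * H e ∅ + b e * b e' * H ∅ ∅))| ≤ ε * (2 * Cw * (Z : ℝ) ^ 2) ^ 2 := by
    have hterm : ∀ e ∈ PL.powerset, ∀ e' ∈ PL.powerset, |w1 e * w2 e' *
        ((A e e' - b e * A ∅ e' - b e' * A e ∅ + b e * b e' * A ∅ ∅) -
        m0 * (H e e' - b e * H ∅ e' - b e' * H e ∅ + b e * b e' * H ∅ ∅))| ≤
        (if ∏ p ∈ e, p ≤ Z then (1 : ℝ) else 0) * (if ∏ p ∈ e', p ≤ Z then (1 : ℝ) else 0) *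
          (Cw ^ 2 * (4 * ((Z : ℝ) ^ 2 * ε))) := by
      intro e he e' he'
      rw [mem_powerset] at he he'
      have hrhs : 0 ≤ (if ∏ p ∈ e, p ≤ Z then (1 : ℝ) else 0) * (if ∏ p ∈ e', p ≤ Z then (1 : ℝ) else 0) *
          (Cw ^ 2 * (4 * ((Z : ℝ) ^ 2 * ε))) := by
        refine mul_nonneg (mul_nonneg ?_ ?_) (by positivity)
        · split_ifs <;> norm_num
        · split_ifs <;> norm_num
      by_cases h1 : w1 e = 0
      · rw [h1, zero_mul, zero_mul, abs_zero]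
        exact hrhs
      by_cases h2 : w2 e' = 0
      · rw [h2, mul_zero, zero_mul, abs_zero]
        exact hrhs
      have z1 := hZ e he (Or.inl h1)
      have z2 := hZ e' he' (Or.inr h2)
      have z0 : ∏ p ∈ (∅ : Finset ℕ), p ≤ Z := by
        rw [prod_empty]
        refine le_trans ?_ z1
        exact prod_pos fun p hp => (hPL p (he hp)).1.pos
      rw [if_pos z1, if_pos z2, one_mul, one_mul, abs_mul, abs_mul]
      have p1 := hpair e he e' he' z1 z2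
      have p2 := hpair ∅ (empty_subset _) e' he' z0 z2
      have p3 := hpair e he ∅ (empty_subset _) z1 z0
      have p4 := hpair ∅ (empty_subset _) ∅ (empty_subset _) z0 z0
      have b1 := hb0 e he
      have b2 := hb0 e' he'
      have hq : 0 ≤ (Z : ℝ) ^ 2 * ε := by positivity
      have q2 : |b e * (A ∅ e' - m0 * H ∅ e')| ≤ (Z : ℝ) ^ 2 * ε := by
        rw [abs_mul, abs_of_nonneg b1.1]
        calc b e * |A ∅ e' - m0 * H ∅ e'| ≤ 1 * ((Z : ℝ) ^ 2 * ε) :=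
              mul_le_mul b1.2 p2 (abs_nonneg _) zero_le_one
          _ = _ := one_mul _
      have q3 : |b e' * (A e ∅ - m0 * H e ∅)| ≤ (Z : ℝ) ^ 2 * ε := by
        rw [abs_mul, abs_of_nonneg b2.1]
        calc b e' * |A e ∅ - m0 * H e ∅| ≤ 1 * ((Z : ℝ) ^ 2 * ε) :=
              mul_le_mul b2.2 p3 (abs_nonneg _) zero_le_one
          _ = _ := one_mul _
      have q4 : |b e * b e' * (A ∅ ∅ - m0 * H ∅ ∅)| ≤ (Z : ℝ) ^ 2 * ε := by
        rw [abs_mul, abs_of_nonneg (mul_nonneg b1.1 b2.1)]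
        calc b e * b e' * |A ∅ ∅ - m0 * H ∅ ∅| ≤ 1 * ((Z : ℝ) ^ 2 * ε) :=
              mul_le_mul (mul_le_one₀ b1.2 b2.1 b2.2) p4 (abs_nonneg _) zero_le_one
          _ = _ := one_mul _
      have q5 : |(A e e' - b e * A ∅ e' - b e' * A e ∅ + b e * b e' * A ∅ ∅) -
          m0 * (H e e' - b e * H ∅ e' - b e' * H e ∅ + b e * b e' * H ∅ ∅)| ≤ 4 * ((Z : ℝ) ^ 2 * ε) := by
        have e1 : (A e e' - b e * A ∅ e' - b e' * A e ∅ + b e * b e' * A ∅ ∅) -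
            m0 * (H e e' - b e * H ∅ e' - b e' * H e ∅ + b e * b e' * H ∅ ∅) =
            (A e e' - m0 * H e e') - b e * (A ∅ e' - m0 * H ∅ e') - b e' * (A e ∅ - m0 * H e ∅) +
              b e * b e' * (A ∅ ∅ - m0 * H ∅ ∅) := by ring
        rw [e1, abs_le]
        rw [abs_le] at p1 q2 q3 q4
        constructor <;> linarith [p1.1, p1.2, q2.1, q2.2, q3.1, q3.2, q4.1, q4.2]
      calc |w1 e| * |w2 e'| * |(A e e' - b e * A ∅ e' - b e' * A e ∅ + b e * b e' * A ∅ ∅) -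
          m0 * (H e e' - b e * H ∅ e' - b e' * H e ∅ + b e * b e' * H ∅ ∅)|
          ≤ (Cw * Cw) * (4 * ((Z : ℝ) ^ 2 * ε)) :=
            mul_le_mul (mul_le_mul (hw e).1 (hw e').2 (abs_nonneg _) hCw) q5 (abs_nonneg _) (mul_nonneg hCw hCw)
        _ = Cw ^ 2 * (4 * ((Z : ℝ) ^ 2 * ε)) := by ring
    have hsum : |∑ e ∈ PL.powerset, ∑ e' ∈ PL.powerset, w1 e * w2 e' *
        ((A e e' - b e * A ∅ e' - b e' * A e ∅ + b e * b e' * A ∅ ∅) -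
        m0 * (H e e' - b e * H ∅ e' - b e' * H e ∅ + b e * b e' * H ∅ ∅))| ≤
        ∑ e ∈ PL.powerset, ∑ e' ∈ PL.powerset, (if ∏ p ∈ e, p ≤ Z then (1 : ℝ) else 0) *
          (if ∏ p ∈ e', p ≤ Z then (1 : ℝ) else 0) * (Cw ^ 2 * (4 * ((Z : ℝ) ^ 2 * ε))) := by
      refine (abs_sum_le_sum_abs _ _).trans (sum_le_sum fun e he => ?_)
      exact (abs_sum_le_sum_abs _ _).trans (sum_le_sum fun e' he' => hterm e he e' he')
    refine hsum.trans ?_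
    have h5 : ∑ e ∈ PL.powerset, ∑ e' ∈ PL.powerset, (if ∏ p ∈ e, p ≤ Z then (1 : ℝ) else 0) *
          (if ∏ p ∈ e', p ≤ Z then (1 : ℝ) else 0) * (Cw ^ 2 * (4 * ((Z : ℝ) ^ 2 * ε))) =
        (∑ e ∈ PL.powerset, (if ∏ p ∈ e, p ≤ Z then (1 : ℝ) else 0)) *
        (∑ e ∈ PL.powerset, (if ∏ p ∈ e, p ≤ Z then (1 : ℝ) else 0)) * (Cw ^ 2 * (4 * ((Z : ℝ) ^ 2 * ε))) := by
      rw [sum_mul_sum, sum_mul]
      refine sum_congr rfl fun e _ => ?_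
      rw [sum_mul]
    rw [h5, sum_boole]
    have h6 : ((PL.powerset.filter fun e => ∏ p ∈ e, p ≤ Z).card : ℝ) ≤ Z := by
      exact_mod_cast Q02_num PL (fun p hp => (hPL p hp).1) Z
    have h7 : 0 ≤ Cw ^ 2 * (4 * ((Z : ℝ) ^ 2 * ε)) := by positivity
    calc ((PL.powerset.filter fun e => ∏ p ∈ e, p ≤ Z).card : ℝ) *
        ((PL.powerset.filter fun e => ∏ p ∈ e, p ≤ Z).card : ℝ) * (Cw ^ 2 * (4 * ((Z : ℝ) ^ 2 * ε)))
        ≤ ((Z : ℝ) * Z) * (Cw ^ 2 * (4 * ((Z : ℝ) ^ 2 * ε))) :=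
          mul_le_mul_of_nonneg_right (mul_le_mul h6 h6 (Nat.cast_nonneg _) (Nat.cast_nonneg _)) h7
      _ = ε * (2 * Cw * (Z : ℝ) ^ 2) ^ 2 := by ring
  have hfin : ∑ e ∈ PL.powerset, ∑ e' ∈ PL.powerset, w1 e * w2 e' *
      (A e e' - b e * A ∅ e' - b e' * A e ∅ + b e * b e' * A ∅ ∅) =
      m0 * ∑ e ∈ PL.powerset, ∑ e' ∈ PL.powerset, w1 e * w2 e' *
      (H e e' - b e * H ∅ e' - b e' * H e ∅ + b e * b e' * H ∅ ∅) +
      ∑ e ∈ PL.powerset, ∑ e' ∈ PL.powerset, w1 e * w2 e' *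
      ((A e e' - b e * A ∅ e' - b e' * A e ∅ + b e * b e' * A ∅ ∅) -
        m0 * (H e e' - b e * H ∅ e' - b e' * H e ∅ + b e * b e' * H ∅ ∅)) := by
    rw [mul_sum, ← sum_add_distrib]
    refine sum_congr rfl fun e _ => ?_
    rw [mul_sum, ← sum_add_distrib]
    refine sum_congr rfl fun e' _ => ?_
    ring
  rw [hfin]
  refine (abs_add_le _ _).trans (add_le_add ?_ herr)
  rw [abs_mul, abs_of_nonneg hm0]
  exact mul_le_mul_of_nonneg_left hmain hm0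

end Pool.Agent.Lib.TC
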