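import Pool.Agent.Lib.MP_7b7e48_nt.TC.LocP

/-!
# Q08: averages

`av f = (∑ᶠ a, f a) / Nat.card α` for a finite type. For a `Fintype` it is `(∑ a, f a) / Fintype.card α` (`finsum_eq_sum_of_fintype`, `Nat.card_eq_fintype_card`); start every proof with
`classical; letI := Fintype.ofFinite α; rw [av_eq]`. `av_pi`: functions on `E` with values in a product: swap the arguments (`Equiv.piComm`), then `Finset.prod_univ_sum`, `Fintype.piFinset_univ`.
-/

set_option autoImplicit false

open Finset

namespace Pool.Agent.Lib.TC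

theorem av_const {α : Type*} [Finite α] [Nonempty α] (c : ℝ) : av (fun _ : α => c) = c := by
  classical
  let _ := Fintype.ofFinite α
  rw [av_eq, sum_const, card_univ, nsmul_eq_mul]
  exact mul_div_cancel_left₀ c (Nat.cast_ne_zero.2 Fintype.card_ne_zero)

theorem av_nonneg {α : Type*} [Finite α] {f : α → ℝ} (h : ∀ a, 0 ≤ f a) : 0 ≤ av f := by
  classical
  let _ := Fintype.ofFinite α
  rw [av_eq]
  exact div_nonneg (sum_nonneg fun a _ => h a) (Nat.cast_nonneg _)

theorem av_add {α : Type*} [Finite α] (f g : α → ℝ) : av (fun a => f a + g a) = av f + av g := by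
  classical
  let _ := Fintype.ofFinite α
  rw [av_eq, av_eq, av_eq, sum_add_distrib, add_div]

theorem av_sub {α : Type*} [Finite α] (f g : α → ℝ) : av (fun a => f a - g a) = av f - av g := by
  classical
  let _ := Fintype.ofFinite α
  rw [av_eq, av_eq, av_eq, sum_sub_distrib, sub_div]

theorem av_mul_left {α : Type*} [Finite α] (c : ℝ) (f : α → ℝ) : av (fun a => c * f a) = c * av f := by
  classical
  let _ := Fintype.ofFinite α
  rw [av_eq, av_eq, ← mul_sum, mul_div_assoc]

theorem av_sum {α ι : Type*} [Finite α] (s : Finset ι) (f : ι → α → ℝ) : av (fun a => ∑ i ∈ s, f i a) = ∑ i ∈ s, av (f i) := by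
  classical
  let _ := Fintype.ofFinite α
  rw [av_eq, sum_comm, sum_div]
  exact sum_congr rfl fun i _ => (av_eq _).symm

theorem abs_av_le {α : Type*} [Finite α] (f : α → ℝ) : |av f| ≤ av (fun a => |f a|) := by
  classical
  let _ := Fintype.ofFinite α
  rw [av_eq, av_eq, abs_div, abs_of_nonneg (Nat.cast_nonneg (α := ℝ) (Fintype.card α))]
  exact div_le_div_of_nonneg_right (abs_sum_le_sum_abs _ _) (Nat.cast_nonneg _)

theorem av_equiv {α β : Type*} [Finite α] [Finite β] (e : α ≃ β) (f : β → ℝ) : av (fun a => f (e a)) = av f := by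
  classical
  let _ := Fintype.ofFinite α
  let _ := Fintype.ofFinite β
  rw [av_eq, av_eq, Equiv.sum_comp e f, Fintype.card_congr e]

theorem av_fub {α β : Type*} [Finite α] [Finite β] (f : α × β → ℝ) : av f = av fun a => av fun b => f (a, b) := by
  classical
  let _ := Fintype.ofFinite α
  let _ := Fintype.ofFinite β
  rw [av_eq, av_eq, Fintype.sum_prod_type, Fintype.card_prod, Nat.cast_mul, mul_comm (Fintype.card α : ℝ), ← div_div, sum_div]
  exact congrArg (fun z : ℝ => z / (Fintype.card α : ℝ)) (sum_congr rfl fun a _ => (av_eq _).symm)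

/-- the average of a function of the image under a surjective homomorphism, translated -/
theorem av_hom {G G' : Type*} [CommGroup G] [Finite G] [CommGroup G'] [Finite G'] (φ : G →* G') (hφ : Function.Surjective φ) (t : G') (F : G' → ℝ) :
    av (fun s : G => F (t * φ s)) = av F := by
  classical
  let _ := Fintype.ofFinite G
  let _ := Fintype.ofFinite G'
  have h0 : (Fintype.card G' : ℝ) * ∑ s : G, F (t * φ s) = (Fintype.card G : ℝ) * ∑ y : G', F y := by
    have h1 : (Fintype.card G' : ℝ) * ∑ s : G, F (t * φ s) =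
        ∑ y : G', ∑ s : G, F (t * (y * φ s)) := by
      rw [← Finset.card_univ (α := G'), ← nsmul_eq_mul, ← Finset.sum_const]
      refine Finset.sum_congr rfl fun y _ => ?_
      obtain ⟨s₀, rfl⟩ := hφ y
      rw [← Equiv.sum_comp (Equiv.mulLeft s₀) (fun s => F (t * φ s))]
      refine Finset.sum_congr rfl fun s _ => ?_
      rw [Equiv.coe_mulLeft, map_mul]
    rw [h1, Finset.sum_comm, ← Finset.card_univ (α := G), ← nsmul_eq_mul, ← Finset.sum_const]
    refine Finset.sum_congr rfl fun s _ => ?_
    rw [← Equiv.sum_comp ((Equiv.mulRight (φ s)).trans (Equiv.mulLeft t)) F]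
    refine Finset.sum_congr rfl fun y _ => ?_
    rfl
  have hG : (Fintype.card G : ℝ) ≠ 0 := Nat.cast_ne_zero.2 Fintype.card_ne_zero
  have hG' : (Fintype.card G' : ℝ) ≠ 0 := Nat.cast_ne_zero.2 Fintype.card_ne_zero
  rw [av_eq, av_eq, div_eq_div_iff hG hG', mul_comm, h0, mul_comm]

/-- product formula -/
theorem av_pi {E : Type*} [Finite E] {ι : Type*} [Fintype ι] (G : ι → Type*) [∀ i, Finite (G i)] (φ : ∀ i, (E → G i) → ℝ) :
    av (fun s : E → ∀ i, G i => ∏ i, φ i (fun e => s e i)) = ∏ i, av (φ i) := by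
  classical
  let _ := Fintype.ofFinite E
  let _ : ∀ i, Fintype (G i) := fun i => Fintype.ofFinite (G i)
  have h1 : av (fun s : E → ∀ i, G i => ∏ i, φ i (fun e => s e i)) = av (fun t : ∀ i, E → G i => ∏ i, φ i (t i)) :=
    av_equiv (Equiv.piComm (fun (_ : E) (i : ι) => G i)) (fun t : ∀ i, E → G i => ∏ i, φ i (t i))
  rw [h1, av_eq, prod_congr rfl fun i _ => av_eq (φ i), prod_div_distrib, Finset.prod_univ_sum, Fintype.piFinset_univ,
    Fintype.card_pi, Nat.cast_prod]

/-- the indicator -/
theorem ind_nonneg (P : Prop) : 0 ≤ ind P := by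
  unfold ind
  split_ifs
  · exact zero_le_one
  · exact le_rfl

theorem ind_le_one (P : Prop) : ind P ≤ 1 := by
  unfold ind
  split_ifs
  · exact le_rfl
  · exact zero_le_one

theorem ind_true {P : Prop} (h : P) : ind P = 1 := by
  unfold ind
  rw [if_pos h]

theorem ind_false {P : Prop} (h : ¬ P) : ind P = 0 := by
  unfold ind
  rw [if_neg h]

theorem ind_mono {P Q : Prop} (h : P → Q) : ind P ≤ ind Q := by
  by_cases hP : P
  · rw [ind_true hP, ind_true (h hP)]
  · rw [ind_false hP]
    exact ind_nonneg Q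

theorem ind_mul (P Q : Prop) : ind P * ind Q = ind (P ∧ Q) := by
  by_cases hP : P
  · by_cases hQ : Q
    · rw [ind_true hP, ind_true hQ, ind_true ⟨hP, hQ⟩, one_mul]
    · rw [ind_false hQ, ind_false fun h : P ∧ Q => hQ h.2, mul_zero]
  · rw [ind_false hP, ind_false fun h : P ∧ Q => hP h.1, zero_mul]

theorem ind_prod {ι : Type*} (s : Finset ι) (P : ι → Prop) : ∏ i ∈ s, ind (P i) = ind (∀ i ∈ s, P i) := by
  by_cases h : ∀ i ∈ s, P i
  · rw [ind_true h]
    exact prod_eq_one fun i hi => ind_true (h i hi)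
  · rw [ind_false h]
    simp only [not_forall] at h
    obtain ⟨i, hi, h⟩ := h
    exact prod_eq_zero hi (ind_false h)

end Pool.Agent.Lib.TC
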