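import Pool.Agent.Lib.MP_7b7e48_nt.TC.Q08

/-!
# Q09: transfer of an approximately uniform product weight to the uniform distribution

`W i u = ∑_{l ∈ P i, res i l = u} w i l` is `(m i / |H|)(1 + η')` with `|η'| ≤ η` (`m i` the total). The left sum is `∑_{h : ι → H} (∏ i, W i (h i)) Φ h` (group the `x` by their residues), and
`|∏ i, W i (h i) - ∏ i, m i/|H|| ≤ ((1 + η)^|ι| - 1) ∏ i, m i/|H|` (induction over the factors: `|∏ (1 + x_i) - 1| ≤ (1 + η)^n - 1` for `|x_i| ≤ η`; if `m i = 0` all `W i u` vanish). Sum over `h`.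
`Q09_up`: upper bound only: if `W i u ≤ C m i/|H|` then the sum with `Φ ≥ 0` is at most `C^|ι| ∏ m i * av Φ`.
-/

set_option autoImplicit false

open Finset

namespace Pool.Agent.Lib.TC

private theorem group_res {ι H : Type*} [Fintype ι] [DecidableEq ι] [Fintype H] [DecidableEq H] (P : ι → Finset ℕ)
    (w : ι → ℕ → ℝ) (res : ι → ℕ → H) (Φ : (ι → H) → ℝ) :
    ∑ x ∈ Fintype.piFinset P, (∏ i, w i (x i)) * Φ (fun i => res i (x i)) =
      ∑ s : ι → H, (∏ i, ∑ l ∈ (P i).filter (fun l => res i l = s i), w i l) * Φ s := by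
  rw [← Finset.sum_fiberwise (Fintype.piFinset P) (fun x => fun i => res i (x i))
    (fun x => (∏ i, w i (x i)) * Φ (fun i => res i (x i)))]
  refine Finset.sum_congr rfl fun s _ => ?_
  rw [Finset.prod_univ_sum, Finset.sum_mul]
  refine Finset.sum_congr ?_ ?_
  · ext x
    simp only [Finset.mem_filter, Fintype.mem_piFinset, funext_iff]
    exact forall_and.symm
  · intro x hx
    have hs : (fun i => res i (x i)) = s := by
      funext i
      exact (Finset.mem_filter.1 (Fintype.mem_piFinset.1 hx i)).2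
    rw [hs]

private theorem main_eq {ι H : Type*} [Fintype ι] [DecidableEq ι] [Fintype H] [DecidableEq H] (m : ι → ℝ) (Φ : (ι → H) → ℝ) :
    (∏ i, m i) * av Φ = ∑ s : ι → H, (∏ i, m i / (Fintype.card H : ℝ)) * Φ s := by
  rw [av_eq, Fintype.card_fun, Finset.prod_div_distrib, Finset.prod_const, Finset.card_univ, ← Finset.mul_sum, Nat.cast_pow]
  ring

private theorem prod_close {ι : Type*} [DecidableEq ι] (t : Finset ι) (a u : ι → ℝ) (η : ℝ) (hη : 0 ≤ η)
    (hu : ∀ i ∈ t, 0 ≤ u i) (h : ∀ i ∈ t, |a i - u i| ≤ η * u i) :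
    |∏ i ∈ t, a i - ∏ i ∈ t, u i| ≤ ((1 + η) ^ t.card - 1) * ∏ i ∈ t, u i := by
  induction t using Finset.induction_on with
  | empty => simp
  | insert j t hj ih =>
    have ih' := ih (fun i hi => hu i (Finset.mem_insert_of_mem hi)) (fun i hi => h i (Finset.mem_insert_of_mem hi))
    have huj := hu j (Finset.mem_insert_self j t)
    have hj' := h j (Finset.mem_insert_self j t)
    have hU : 0 ≤ ∏ i ∈ t, u i := Finset.prod_nonneg fun i hi => hu i (Finset.mem_insert_of_mem hi)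
    rw [Finset.prod_insert hj, Finset.prod_insert hj, Finset.card_insert_of_notMem hj]
    have haj : |a j| ≤ (1 + η) * u j := by
      have h1 : |a j| ≤ |a j - u j| + |u j| := by
        have := abs_add_le (a j - u j) (u j)
        rwa [sub_add_cancel] at this
      rw [abs_of_nonneg huj] at h1
      nlinarith
    have he : a j * ∏ i ∈ t, a i - u j * ∏ i ∈ t, u i =
        a j * (∏ i ∈ t, a i - ∏ i ∈ t, u i) + (a j - u j) * ∏ i ∈ t, u i := by ring
    rw [he]
    refine (abs_add_le _ _).trans ?_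
    rw [abs_mul, abs_mul, abs_of_nonneg hU]
    have h2 : |a j| * |∏ i ∈ t, a i - ∏ i ∈ t, u i| ≤ ((1 + η) * u j) * (((1 + η) ^ t.card - 1) * ∏ i ∈ t, u i) :=
      mul_le_mul haj ih' (abs_nonneg _) (mul_nonneg (by linarith) huj)
    have h3 : |a j - u j| * ∏ i ∈ t, u i ≤ (η * u j) * ∏ i ∈ t, u i := mul_le_mul_of_nonneg_right hj' hU
    refine (add_le_add h2 h3).trans (le_of_eq ?_)
    rw [pow_succ]
    ring

theorem Q09 {ι H : Type*} [Fintype ι] [DecidableEq ι] [Finite H] [DecidableEq H] (P : ι → Finset ℕ) (w : ι → ℕ → ℝ) (hw : ∀ i, ∀ l ∈ P i, 0 ≤ w i l)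
    (res : ι → ℕ → H) (η : ℝ) (hη : 0 ≤ η)
    (h : ∀ i (u : H), |∑ l ∈ (P i).filter (fun l => res i l = u), w i l - (∑ l ∈ P i, w i l) / (Nat.card H : ℝ)| ≤
      η * ((∑ l ∈ P i, w i l) / (Nat.card H : ℝ))) (Φ : (ι → H) → ℝ) :
    |∑ x ∈ Fintype.piFinset P, (∏ i, w i (x i)) * Φ (fun i => res i (x i)) - (∏ i, ∑ l ∈ P i, w i l) * av Φ| ≤
      ((1 + η) ^ Fintype.card ι - 1) * ((∏ i, ∑ l ∈ P i, w i l) * av (fun s => |Φ s|)) := by
  classical
  let _ := Fintype.ofFinite H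
  rw [Nat.card_eq_fintype_card] at h
  have hN : (0 : ℝ) ≤ Fintype.card H := Nat.cast_nonneg _
  have hu : ∀ i ∈ (Finset.univ : Finset ι), 0 ≤ (∑ l ∈ P i, w i l) / (Fintype.card H : ℝ) := fun i _ =>
    div_nonneg (Finset.sum_nonneg (hw i)) hN
  rw [group_res P w res Φ, main_eq, main_eq, ← Finset.sum_sub_distrib, Finset.mul_sum]
  refine (Finset.abs_sum_le_sum_abs _ _).trans (Finset.sum_le_sum fun s _ => ?_)
  rw [← sub_mul, abs_mul, ← mul_assoc]
  refine mul_le_mul_of_nonneg_right ?_ (abs_nonneg _)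
  have h1 := prod_close Finset.univ (fun i => ∑ l ∈ (P i).filter (fun l => res i l = s i), w i l)
    (fun i => (∑ l ∈ P i, w i l) / (Fintype.card H : ℝ)) η hη hu (fun i _ => h i (s i))
  rwa [Finset.card_univ] at h1

theorem Q09_up {ι H : Type*} [Fintype ι] [DecidableEq ι] [Finite H] [DecidableEq H] (P : ι → Finset ℕ) (w : ι → ℕ → ℝ) (hw : ∀ i, ∀ l ∈ P i, 0 ≤ w i l)
    (res : ι → ℕ → H) (C : ℝ) (hC : 0 ≤ C)
    (h : ∀ i (u : H), ∑ l ∈ (P i).filter (fun l => res i l = u), w i l ≤ C * ((∑ l ∈ P i, w i l) / (Nat.card H : ℝ))) (Φ : (ι → H) → ℝ)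
    (hΦ : ∀ s, 0 ≤ Φ s) :
    ∑ x ∈ Fintype.piFinset P, (∏ i, w i (x i)) * Φ (fun i => res i (x i)) ≤ C ^ Fintype.card ι * ((∏ i, ∑ l ∈ P i, w i l) * av Φ) := by
  classical
  let _ := Fintype.ofFinite H
  rw [Nat.card_eq_fintype_card] at h
  rw [group_res P w res Φ, main_eq, Finset.mul_sum]
  refine Finset.sum_le_sum fun s _ => ?_
  rw [← mul_assoc]
  refine mul_le_mul_of_nonneg_right ?_ (hΦ s)
  have h1 : ∏ i, ∑ l ∈ (P i).filter (fun l => res i l = s i), w i l ≤
      ∏ i, C * ((∑ l ∈ P i, w i l) / (Fintype.card H : ℝ)) :=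
    Finset.prod_le_prod (fun i _ => Finset.sum_nonneg fun l hl => hw i l (Finset.mem_filter.1 hl).1) (fun i _ => h i (s i))
  refine h1.trans (le_of_eq ?_)
  rw [Finset.prod_mul_distrib, Finset.prod_const, Finset.card_univ]

end Pool.Agent.Lib.TC
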