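import Pool.Agent.Lib.MP_7b7e48_nt.TC.Q21

/-!
# Q23: the second moment with the mean values of the large sieve, sum over the colourings (10, part 1)

`RR1 - |CC| wb = ∑_{c ∈ CC} ∑_{d ⊆ PS} kap d (FF c d - Pb d)`; `kap d = 0` unless `d ∈ DS b1` (`flUp_support`, `flLo_support`). Square and sum: the left side is
`∑_{c,c' ∈ CC} ∑_{d,d' ∈ DS} kap d kap d' TS c c' d d'`, and `|kap d| ≤ κ`. Split the pairs `(c, c')`: connected (`Q21_conn` for each `d, d'`), function pairs (`Q21_sum`, second part), all others (`Q21_sum`, first part).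
`nD` bounds the number of the pairs which are not connected (`hD`), `nF` the number of the function pairs (`hF`).
-/

set_option autoImplicit false

open Finset

namespace Pool.Agent.Lib.TC

private theorem Q23_sq {ι κ' : Type*} (I : Finset ι) (J : Finset κ') (k : κ' → ℝ) (h : ι → κ' → ℝ) :
    (∑ i ∈ I, ∑ j ∈ J, k j * h i j) ^ 2 = ∑ x ∈ (I ×ˢ I) ×ˢ (J ×ˢ J), (k x.2.1 * k x.2.2) * (h x.1.1 x.2.1 * h x.1.2 x.2.2) := by
  rw [sum_product, sum_product, sq, sum_mul_sum]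
  refine sum_congr rfl fun i _ => sum_congr rfl fun i' _ => ?_
  rw [sum_product, sum_mul_sum]
  exact sum_congr rfl fun j _ => sum_congr rfl fun j' _ => by ring

private theorem Q23_lin {ι α β γ : Type*} (A : Finset α) (B : Finset β) (g : α → β → ℝ) (R : Finset γ) (Om : α → β → γ → ℝ) (X : Finset ι)
    (a : ι → ℝ) (F : ι → α → β → γ → ℝ) :
    ∑ μ ∈ A, ∑ ν ∈ B, g μ ν * ∑ n ∈ R, Om μ ν n * ∑ x ∈ X, a x * F x μ ν n =
      ∑ x ∈ X, a x * ∑ μ ∈ A, ∑ ν ∈ B, g μ ν * ∑ n ∈ R, Om μ ν n * F x μ ν n := by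
  simp only [mul_sum]
  symm
  rw [sum_comm]
  refine sum_congr rfl fun μ _ => ?_
  rw [sum_comm]
  refine sum_congr rfl fun ν _ => ?_
  rw [sum_comm]
  exact sum_congr rfl fun n _ => sum_congr rfl fun x _ => by ring

private theorem Q23_m1 {S : MS} {T : Dat} {W0 : ℕ} {Z : Fin (S.k + 1) → ℕ} {M : Msr S} {δ0 δ1 : ℝ} (hS : S.OK T W0 Z) (hM : M.OK T W0 δ0 δ1)
    {μ : S.TX} {ν : S.TY} (hμ : μ ∈ S.MX) (hν : ν ∈ S.MY) : 0 ≤ M.m1 μ ν := by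
  unfold MS.MX at hμ
  rw [mem_product, mem_product, Fintype.mem_piFinset, Fintype.mem_piFinset, Fintype.mem_piFinset] at hμ
  unfold MS.MY at hν
  rw [mem_product, mem_product, Fintype.mem_piFinset, Fintype.mem_piFinset, Fintype.mem_piFinset] at hν
  unfold Msr.m1 MS.prX MS.prY
  refine mul_nonneg (mul_nonneg (mul_nonneg ?_ ?_) ?_) (mul_nonneg (mul_nonneg ?_ ?_) ?_)
  · exact prod_nonneg fun i _ => (hM.hX_nonneg _ (hS.WX_mem i _ (hμ.1 i)).1).1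
  · exact prod_nonneg fun i _ => (hM.hX_nonneg _ (hS.FX_mem i _ (hμ.2.1 i)).1).1
  · exact prod_nonneg fun i _ => (hM.hX_nonneg _ (hS.OX_mem i _ (hμ.2.2 i)).1).1
  · exact prod_nonneg fun i _ => (hM.hY_nonneg _ (hS.WY_mem i _ (hν.1 i)).1).1
  · exact prod_nonneg fun i _ => (hM.hY_nonneg _ (hS.FY_mem i _ (hν.2.1 i)).1).1
  · exact prod_nonneg fun i _ => (hM.hY_nonneg _ (hS.OY_mem i _ (hν.2.2 i)).1).1

private theorem Q23_tot {S : MS} {T : Dat} {W0 : ℕ} {Z : Fin (S.k + 1) → ℕ} {M : Msr S} {δ0 δ1 : ℝ} (hS : S.OK T W0 Z) (hM : M.OK T W0 δ0 δ1) :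
    0 ≤ M.W * M.tot1 := by
  refine mul_nonneg hM.W_pos.le ?_
  unfold Msr.tot1
  exact sum_nonneg fun μ hμ => sum_nonneg fun ν hν => Q23_m1 hS hM hμ hν

private theorem Q23_er {S : MS} {T : Dat} {W0 : ℕ} {M : Msr S} {δ0 δ1 : ℝ} (hM : M.OK T W0 δ0 δ1) (b1 : ℕ) : 0 ≤ M.er T W0 b1 δ1 := by
  unfold Msr.er
  have h1 : (0 : ℝ) ≤ (T.N : ℝ) ^ (-δ1) := Real.rpow_nonneg (Nat.cast_nonneg _) _
  have h2 := hM.W_pos.le
  positivity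

private theorem Q23_U4 (S : MS) (T : Dat) : 0 ≤ U4 S T := by
  unfold U4
  exact mul_nonneg (prod_nonneg fun p _ => by positivity) (by positivity)

private theorem Q23_U6 (T : Dat) (W0 : ℕ) : 0 ≤ U6 T W0 := by
  unfold U6
  positivity

private theorem Q23_MA {S : MS} {T : Dat} {p1 Q0 : ℕ} {η Cα : ℝ} (hA : S.An T p1 Q0 η Cα) : 0 ≤ MA S T Cα := by
  unfold MA
  have h1 := hA.Cα_lo
  have h2 : 0 ≤ 3 * Cα := by linarith
  exact mul_nonneg (pow_nonneg h2 _) (by positivity)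

private theorem Q23_p1 {S : MS} {T : Dat} {p1 Q0 : ℕ} {η Cα : ℝ} (hA : S.An T p1 Q0 η Cα) : 0 ≤ 5 * ((S.k + 1 : ℕ) : ℝ) ^ 2 / ((p1 : ℝ) - 1) := by
  have h1 : (2 : ℝ) ≤ p1 := by exact_mod_cast hA.p1_pr.two_le
  exact div_nonneg (by positivity) (by linarith)

private theorem Q23_y0 {S : MS} {T : Dat} {W0 : ℕ} {Z : Fin (S.k + 1) → ℕ} (hT : T.OK W0) (hS : S.OK T W0 Z) : 2 ≤ T.y0 := by
  have h1 := hS.p0_lo
  have h2 := hT.p0_le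
  have h3 := hT.y_le
  have h4 : 1 ≤ (S.k + 1) ^ 2 := Nat.one_le_pow _ _ (by omega)
  omega

private theorem Q23_wt {S : MS} {T : Dat} {W0 : ℕ} {Z : Fin (S.k + 1) → ℕ} (hT : T.OK W0) (hS : S.OK T W0 Z) {b1 : ℕ} (hb1 : 1 ≤ b1) {d : Finset ℕ}
    (hd : d ⊆ T.PS) (hd' : d ∉ T.DS b1) (s : Bool) : wt s b1 T.y0 T.PS d = 0 := by
  have hP : ∀ r ∈ T.PS, r.Prime ∧ r ≤ T.y0 := by
    intro r hr
    unfold Dat.PS at hr
    rw [mem_filter, mem_range] at hr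
    exact ⟨hr.2.1, by omega⟩
  have h2 := Q23_y0 hT hS
  by_contra h
  apply hd'
  unfold Dat.DS
  rw [mem_filter, mem_powerset]
  refine ⟨hd, ?_⟩
  have h3 : ((∏ r ∈ d, r : ℕ) : ℝ) ≤ (T.y0 : ℝ) ^ (12 * b1) := by
    cases s with
    | true =>
      have h4 : flUp b1 T.y0 T.PS d ≠ 0 := by simpa [wt] using h
      exact flUp_support hP h2 hb1 hd h4
    | false =>
      have h4 : flLo b1 T.y0 T.PS d ≠ 0 := by simpa [wt] using h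
      exact flLo_support hP h2 hb1 hd h4
  exact_mod_cast h3

theorem Q23 {S : MS} {T : Dat} {W0 : ℕ} {Z : Fin (S.k + 1) → ℕ} {M : Msr S} {δ0 δ1 : ℝ} {p1 Q0 : ℕ} {η η' Cα ξ : ℝ} {b1 b2 : ℕ} (hT : T.OK W0)
    (hS : S.OK T W0 Z) (hA : S.An T p1 Q0 η Cα) (hM : M.OK T W0 δ0 δ1) (hη : 0 ≤ η') (hsX : ∀ f, SWc T.N T.D M.hX η' Q0 (S.FX f))
    (hsY : ∀ f, SWc T.N T.D M.hY η' Q0 (S.FY f)) (hQ0 : ∀ d ∈ T.DS b1, ∀ d' ∈ T.DS b1, (∏ p ∈ T.base ∪ d ∪ d', p ^ (padicValNat p T.D + 1)) * p1 ≤ Q0)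
    (hb1 : 1 ≤ b1) (hq : (W0 : ℝ) * (T.y0 : ℝ) ^ (24 * b1) ≤ (T.N : ℝ) ^ δ0) (hξ0 : 0 ≤ ξ)
    (hξ : ∑ μ ∈ S.MX, ∑ ν ∈ S.MY, M.m1 μ ν * ind (M.adm0 μ ν ∧ ¬ M.adm μ ν) ≤ ξ * M.tot1)
    (κ : ℝ) (hκ : ∀ d ⊆ T.PS, |M.kap T b1 b2 d| ≤ κ) (nD nF : ℝ)
    (hD : open Classical in (((S.CC ×ˢ S.CC).filter fun q => ¬ Conn S.k q.1 q.2).card : ℝ) ≤ nD)
    (hF : open Classical in (((S.CC ×ˢ S.CC).filter fun q => Fun q.1 q.2).card : ℝ) ≤ nF) :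
    ∑ μ ∈ S.MX, ∑ ν ∈ S.MY, ind (M.gp T μ ν) * ∑ n ∈ range (M.nm + 1), M.Om μ ν n *
      (ind (IsCoprime (M.X μ ν n : ℤ) (W0 : ℤ)) * (M.RR1 T b1 b2 μ ν (M.X μ ν n) - (S.CC.card : ℝ) * M.wb T b1 b2 μ ν (M.X μ ν n)) ^ 2) ≤
    κ ^ 2 * (M.W * M.tot1 * ((S.CC.card : ℝ) ^ 2 * (T.DS b1).card ^ 2 * (((1 + η') ^ (2 * S.n0) - 1) + ξ) +
      (1 + η') ^ (2 * S.n0) * (nD * (U4 S T * (MA S T Cα * (1 + 5 * ((S.k + 1 : ℕ) : ℝ) ^ 2 / ((p1 : ℝ) - 1))) + 3 * U5 S T W0 ^ 2) +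
        nF * (U4 S T * U6 T W0 + 3 * U5 S T W0 ^ 2))) + (S.CC.card : ℝ) ^ 2 * (2 * (T.DS b1).card ^ 2 * M.er T W0 b1 δ1)) := by
  classical
  have hWt : 0 ≤ M.W * M.tot1 := Q23_tot hS hM
  have her : 0 ≤ M.er T W0 b1 δ1 := Q23_er hM b1
  have hU4 := Q23_U4 S T
  have hU6 := Q23_U6 T W0
  have hMA := Q23_MA hA
  have hp1 := Q23_p1 hA
  have hDS : T.DS b1 ⊆ T.PS.powerset := by
    unfold Dat.DS
    exact filter_subset _ _
  have hkap : ∀ d ∈ T.PS.powerset, d ∉ T.DS b1 → M.kap T b1 b2 d = 0 := by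
    intro d hd hd'
    rw [mem_powerset] at hd
    unfold Msr.kap
    rw [Q23_wt hT hS hb1 hd hd' false, Q23_wt hT hS hb1 hd hd' true]
    ring
  have hκ0 : 0 ≤ κ := (abs_nonneg _).trans (hκ ∅ (empty_subset _))
  -- the difference
  have hdiff : ∀ μ ν (x : ℤ), M.RR1 T b1 b2 μ ν x - (S.CC.card : ℝ) * M.wb T b1 b2 μ ν x =
      ∑ c ∈ S.CC, ∑ d ∈ T.DS b1, M.kap T b1 b2 d * (S.FF T c μ ν x d - S.Pb T μ ν x d) := by
    intro μ ν x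
    unfold Msr.RR1 Msr.wb Msr.w1
    rw [← nsmul_eq_mul, ← sum_const, ← sum_sub_distrib]
    refine sum_congr rfl fun c _ => ?_
    rw [← sum_sub_distrib, ← sum_subset hDS]
    · exact sum_congr rfl fun d _ => by ring
    · intro d hd hd'
      rw [hkap d hd hd']
      ring
  have hTS : ∑ μ ∈ S.MX, ∑ ν ∈ S.MY, ind (M.gp T μ ν) * ∑ n ∈ range (M.nm + 1), M.Om μ ν n *
      (ind (IsCoprime (M.X μ ν n : ℤ) (W0 : ℤ)) * (M.RR1 T b1 b2 μ ν (M.X μ ν n) - (S.CC.card : ℝ) * M.wb T b1 b2 μ ν (M.X μ ν n)) ^ 2) =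
      ∑ x ∈ (S.CC ×ˢ S.CC) ×ˢ (T.DS b1 ×ˢ T.DS b1), (M.kap T b1 b2 x.2.1 * M.kap T b1 b2 x.2.2) * M.TS T W0 x.1.1 x.1.2 x.2.1 x.2.2 := by
    unfold Msr.TS
    rw [← Q23_lin S.MX S.MY (fun μ ν => ind (M.gp T μ ν)) (range (M.nm + 1)) M.Om ((S.CC ×ˢ S.CC) ×ˢ (T.DS b1 ×ˢ T.DS b1))
      (fun x => M.kap T b1 b2 x.2.1 * M.kap T b1 b2 x.2.2) (fun x μ ν n => (ind (IsCoprime (M.X μ ν n : ℤ) (W0 : ℤ)) *
      ((S.FF T x.1.1 μ ν (M.X μ ν n) x.2.1 - S.Pb T μ ν (M.X μ ν n) x.2.1) *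
      (S.FF T x.1.2 μ ν (M.X μ ν n) x.2.2 - S.Pb T μ ν (M.X μ ν n) x.2.2))))]
    refine sum_congr rfl fun μ _ => sum_congr rfl fun ν _ => ?_
    congr 1
    refine sum_congr rfl fun n _ => ?_
    congr 1
    rw [hdiff, Q23_sq, mul_sum]
    exact sum_congr rfl fun x _ => by ring
  rw [hTS]
  have hstep : ∑ x ∈ (S.CC ×ˢ S.CC) ×ˢ (T.DS b1 ×ˢ T.DS b1), (M.kap T b1 b2 x.2.1 * M.kap T b1 b2 x.2.2) * M.TS T W0 x.1.1 x.1.2 x.2.1 x.2.2 ≤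
      κ ^ 2 * ∑ q ∈ S.CC ×ˢ S.CC, ∑ d ∈ T.DS b1, ∑ d' ∈ T.DS b1, |M.TS T W0 q.1 q.2 d d'| := by
    rw [sum_product, mul_sum]
    refine sum_le_sum fun q _ => ?_
    rw [sum_product, mul_sum]
    refine sum_le_sum fun d hd => ?_
    rw [mul_sum]
    refine sum_le_sum fun d' hd' => ?_
    have h1 := hκ d (mem_powerset.1 (hDS hd))
    have h2 := hκ d' (mem_powerset.1 (hDS hd'))
    refine (le_abs_self _).trans ?_
    rw [abs_mul, abs_mul]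
    refine mul_le_mul_of_nonneg_right ?_ (abs_nonneg _)
    rw [sq]
    exact mul_le_mul h1 h2 (abs_nonneg _) hκ0
  refine hstep.trans (mul_le_mul_of_nonneg_left ?_ (sq_nonneg _))
  obtain ⟨E, hE⟩ : ∃ E, E = (1 + η') ^ (2 * S.n0) := ⟨_, rfl⟩
  obtain ⟨A1, hA1⟩ : ∃ A1, A1 = U4 S T * (MA S T Cα * (1 + 5 * ((S.k + 1 : ℕ) : ℝ) ^ 2 / ((p1 : ℝ) - 1))) + 3 * U5 S T W0 ^ 2 := ⟨_, rfl⟩
  obtain ⟨A2, hA2⟩ : ∃ A2, A2 = U4 S T * U6 T W0 + 3 * U5 S T W0 ^ 2 := ⟨_, rfl⟩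
  have hE1 : 1 ≤ E := by
    rw [hE]
    exact one_le_pow₀ (by linarith)
  have hA10 : 0 ≤ A1 := by
    rw [hA1]
    have h1 : 0 ≤ U4 S T * (MA S T Cα * (1 + 5 * ((S.k + 1 : ℕ) : ℝ) ^ 2 / ((p1 : ℝ) - 1))) := mul_nonneg hU4 (mul_nonneg hMA (by linarith))
    have h2 : 0 ≤ 3 * U5 S T W0 ^ 2 := by positivity
    linarith
  have hA20 : 0 ≤ A2 := by
    rw [hA2]
    have h1 := mul_nonneg hU4 hU6
    have h2 : 0 ≤ 3 * U5 S T W0 ^ 2 := by positivity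
    linarith
  have hQ0' : ∀ d ∈ T.DS b1, ∀ d' ∈ T.DS b1, ∏ p ∈ T.base ∪ d ∪ d', p ^ (padicValNat p T.D + 1) ≤ Q0 := by
    intro d hd d' hd'
    refine le_trans ?_ (hQ0 d hd d' hd')
    exact Nat.le_mul_of_pos_right _ hA.p1_pr.pos
  have hsum : ∀ q ∈ S.CC ×ˢ S.CC, ∑ d ∈ T.DS b1, ∑ d' ∈ T.DS b1, |M.TS T W0 q.1 q.2 d d'| ≤
      M.W * M.tot1 * ((T.DS b1).card ^ 2 * ((E - 1) + ξ) + E * ((if ¬ Conn S.k q.1 q.2 then 1 else 0) * A1 + (if Fun q.1 q.2 then 1 else 0) * A2)) +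
        2 * (T.DS b1).card ^ 2 * M.er T W0 b1 δ1 := by
    intro q hqm
    rw [mem_product] at hqm
    have hn : (0 : ℝ) ≤ (T.DS b1).card ^ 2 := by positivity
    have hnx : 0 ≤ ((T.DS b1).card : ℝ) ^ 2 * ((E - 1) + ξ) := mul_nonneg hn (by linarith)
    have hne : 0 ≤ ((T.DS b1).card : ℝ) ^ 2 * M.er T W0 b1 δ1 := mul_nonneg hn her
    have hEA1 : 0 ≤ E * A1 := mul_nonneg (by linarith) hA10
    have hEA2 : 0 ≤ E * A2 := mul_nonneg (by linarith) hA20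
    by_cases hC : Conn S.k q.1 q.2
    · have h1 : ∑ d ∈ T.DS b1, ∑ d' ∈ T.DS b1, |M.TS T W0 q.1 q.2 d d'| ≤
          ∑ d ∈ T.DS b1, ∑ d' ∈ T.DS b1, (M.W * M.tot1 * ((E - 1) + ξ) + M.er T W0 b1 δ1) := by
        refine sum_le_sum fun d hd => sum_le_sum fun d' hd' => ?_
        have h2 := Q21_conn hT hS hM hη hsX hsY hQ0' hq hξ hqm.1 hqm.2 hC hd hd'
        rw [← hE] at h2
        exact h2
      refine h1.trans ?_
      rw [sum_const, sum_const, nsmul_eq_mul, nsmul_eq_mul, if_neg (not_not.2 hC)]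
      have h3 : 0 ≤ M.W * M.tot1 * (E * ((if Fun q.1 q.2 then 1 else 0) * A2)) := by
        refine mul_nonneg hWt ?_
        split_ifs
        · rw [one_mul]
          exact hEA2
        · simp
      nlinarith [h3, hne]
    · rw [if_pos hC]
      by_cases hFn : Fun q.1 q.2
      · have h1 := (Q21_sum hT hS hA hM hη hsX hsY hQ0 hq hqm.1 hqm.2).2
        rw [← hE, ← hA2] at h1
        rw [if_pos hFn]
        refine h1.trans ?_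
        have h4 : M.W * M.tot1 * (E * A2) ≤ M.W * M.tot1 * (((T.DS b1).card : ℝ) ^ 2 * ((E - 1) + ξ) + E * (1 * A1 + 1 * A2)) :=
          mul_le_mul_of_nonneg_left (by linarith) hWt
        linarith
      · have h1 := (Q21_sum hT hS hA hM hη hsX hsY hQ0 hq hqm.1 hqm.2).1 hFn
        rw [← hE, ← hA1] at h1
        rw [if_neg hFn]
        refine h1.trans ?_
        have h4 : M.W * M.tot1 * (E * A1) ≤ M.W * M.tot1 * (((T.DS b1).card : ℝ) ^ 2 * ((E - 1) + ξ) + E * (1 * A1 + 0 * A2)) :=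
          mul_le_mul_of_nonneg_left (by linarith) hWt
        linarith
  refine (sum_le_sum hsum).trans ?_
  rw [← hE, ← hA1, ← hA2, sum_add_distrib, sum_const, nsmul_eq_mul, card_product, ← mul_sum, sum_add_distrib, sum_const, nsmul_eq_mul, card_product,
    ← mul_sum, sum_add_distrib, ← sum_mul, ← sum_mul, sum_boole, sum_boole]
  push_cast
  have h5 : (((S.CC ×ˢ S.CC).filter fun q => ¬ Conn S.k q.1 q.2).card : ℝ) * A1 + (((S.CC ×ˢ S.CC).filter fun q => Fun q.1 q.2).card : ℝ) * A2 ≤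
      nD * A1 + nF * A2 := add_le_add (mul_le_mul_of_nonneg_right hD hA10) (mul_le_mul_of_nonneg_right hF hA20)
  have h6 := mul_le_mul_of_nonneg_left h5 (show 0 ≤ E by linarith)
  have h7 : M.W * M.tot1 * ((S.CC.card : ℝ) * S.CC.card * (((T.DS b1).card : ℝ) ^ 2 * (E - 1 + ξ)) +
      E * ((((S.CC ×ˢ S.CC).filter fun q => ¬ Conn S.k q.1 q.2).card : ℝ) * A1 + (((S.CC ×ˢ S.CC).filter fun q => Fun q.1 q.2).card : ℝ) * A2)) ≤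
      M.W * M.tot1 * ((S.CC.card : ℝ) ^ 2 * (T.DS b1).card ^ 2 * (E - 1 + ξ) + E * (nD * A1 + nF * A2)) := by
    refine mul_le_mul_of_nonneg_left ?_ hWt
    have h8 : (S.CC.card : ℝ) * S.CC.card * (((T.DS b1).card : ℝ) ^ 2 * (E - 1 + ξ)) = (S.CC.card : ℝ) ^ 2 * (T.DS b1).card ^ 2 * (E - 1 + ξ) := by ring
    linarith
  have h9 : (S.CC.card : ℝ) * S.CC.card * (2 * ((T.DS b1).card : ℝ) ^ 2 * M.er T W0 b1 δ1) =
      (S.CC.card : ℝ) ^ 2 * (2 * (T.DS b1).card ^ 2 * M.er T W0 b1 δ1) := by ring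
  linarith

end Pool.Agent.Lib.TC
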