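import Pool.Agent.Lib.MP_7b7e48_nt.TC.Q22

/-!
# Q24: the second moment of the large sieve, sum over the colourings (10, part 2)

`RR - RR1 = ∑_{c ∈ CC} ∑_{d ⊆ PS} FF c d ∑_s κ_s d (Ll s c - Ml s)` (`Q17_w`), `κ_true = wt false - wt true`, `κ_false = wt true` (weights of the small sieve), `|κ_s d| ≤ NJ y0 + 2` (`abs_flUp_le`, `abs_flLo_le`), zero unless `d ∈ DS b1`.
Square and sum: `∑_{c,c'} ∑_{d,d' ∈ DS} ∑_{s,s'} κ κ' TL s s' c c' d d'`; `Q22` for each `c, c'`, `s, s'` (four sign pairs).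
-/

set_option autoImplicit false

open Finset
open Pool.Agent.Lib.GT (NJ)

namespace Pool.Agent.Lib.TC

private theorem Q24_sq {ι κ' : Type*} (I : Finset ι) (J : Finset κ') (k : κ' → ℝ) (h : ι → κ' → ℝ) :
    (∑ i ∈ I, ∑ j ∈ J, k j * h i j) ^ 2 = ∑ x ∈ (I ×ˢ I) ×ˢ (J ×ˢ J), (k x.2.1 * k x.2.2) * (h x.1.1 x.2.1 * h x.1.2 x.2.2) := by
  rw [sum_product, sum_product, sq, sum_mul_sum]
  refine sum_congr rfl fun i _ => sum_congr rfl fun i' _ => ?_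
  rw [sum_product, sum_mul_sum]
  exact sum_congr rfl fun j _ => sum_congr rfl fun j' _ => by ring

private theorem Q24_lin {ι α β γ : Type*} (A : Finset α) (B : Finset β) (g : α → β → ℝ) (R : Finset γ) (Om : α → β → γ → ℝ) (X : Finset ι)
    (a : ι → ℝ) (F : ι → α → β → γ → ℝ) :
    ∑ μ ∈ A, ∑ ν ∈ B, g μ ν * ∑ n ∈ R, Om μ ν n * ∑ x ∈ X, a x * F x μ ν n =
      ∑ x ∈ X, a x * ∑ μ ∈ A, ∑ ν ∈ B, g μ ν * ∑ n ∈ R, Om μ ν n * F x μ ν n := by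
  simp only [mul_sum]
  symm
  rw [sum_comm]
  refine sum_congr rfl fun μ _ => ?_
  rw [sum_comm]
  refine sum_congr rfl fun ν _ => ?_
  rw [sum_comm]
  exact sum_congr rfl fun n _ => sum_congr rfl fun x _ => by ring

private theorem Q24_m1 {S : MS} {T : Dat} {W0 : ℕ} {Z : Fin (S.k + 1) → ℕ} {M : Msr S} {δ0 δ1 : ℝ} (hS : S.OK T W0 Z) (hM : M.OK T W0 δ0 δ1)
    {μ : S.TX} {ν : S.TY} (hμ : μ ∈ S.MX) (hν : ν ∈ S.MY) : 0 ≤ M.m1 μ ν := by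
  unfold MS.MX at hμ
  rw [mem_product, mem_product, Fintype.mem_piFinset, Fintype.mem_piFinset, Fintype.mem_piFinset] at hμ
  unfold MS.MY at hν
  rw [mem_product, mem_product, Fintype.mem_piFinset, Fintype.mem_piFinset, Fintype.mem_piFinset] at hν
  unfold Msr.m1 MS.prX MS.prY
  refine mul_nonneg (mul_nonneg (mul_nonneg ?_ ?_) ?_) (mul_nonneg (mul_nonneg ?_ ?_) ?_)
  · exact prod_nonneg fun i _ => (hM.hX_nonneg _ (hS.WX_mem i _ (hμ.1 i)).1).1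
  · exact prod_nonneg fun i _ => (hM.hX_nonneg _ (hS.FX_mem i _ (hμ.2.1 i)).1).1
  · exact prod_nonneg fun i _ => (hM.hX_nonneg _ (hS.OX_mem i _ (hμ.2.2 i)).1).1
  · exact prod_nonneg fun i _ => (hM.hY_nonneg _ (hS.WY_mem i _ (hν.1 i)).1).1
  · exact prod_nonneg fun i _ => (hM.hY_nonneg _ (hS.FY_mem i _ (hν.2.1 i)).1).1
  · exact prod_nonneg fun i _ => (hM.hY_nonneg _ (hS.OY_mem i _ (hν.2.2 i)).1).1

private theorem Q24_tot {S : MS} {T : Dat} {W0 : ℕ} {Z : Fin (S.k + 1) → ℕ} {M : Msr S} {δ0 δ1 : ℝ} (hS : S.OK T W0 Z) (hM : M.OK T W0 δ0 δ1) :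
    0 ≤ M.W * M.tot1 := by
  refine mul_nonneg hM.W_pos.le ?_
  unfold Msr.tot1
  exact sum_nonneg fun μ hμ => sum_nonneg fun ν hν => Q24_m1 hS hM hμ hν

private theorem Q24_er {S : MS} {T : Dat} {W0 : ℕ} {M : Msr S} {δ0 δ1 : ℝ} (hM : M.OK T W0 δ0 δ1) (b1 : ℕ) : 0 ≤ M.er T W0 b1 δ1 := by
  unfold Msr.er
  have h1 : (0 : ℝ) ≤ (T.N : ℝ) ^ (-δ1) := Real.rpow_nonneg (Nat.cast_nonneg _) _
  have h2 := hM.W_pos.le
  positivity

private theorem Q24_U4 (S : MS) (T : Dat) : 0 ≤ U4 S T := by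
  unfold U4
  exact mul_nonneg (prod_nonneg fun p _ => by positivity) (by positivity)

private theorem Q24_U6 (T : Dat) (W0 : ℕ) : 0 ≤ U6 T W0 := by
  unfold U6
  positivity

private theorem Q24_MA {S : MS} {T : Dat} {p1 Q0 : ℕ} {η Cα : ℝ} (hA : S.An T p1 Q0 η Cα) : 0 ≤ MA S T Cα := by
  unfold MA
  have h1 := hA.Cα_lo
  have h2 : 0 ≤ 3 * Cα := by linarith
  exact mul_nonneg (pow_nonneg h2 _) (by positivity)

private theorem Q24_p1 {S : MS} {T : Dat} {p1 Q0 : ℕ} {η Cα : ℝ} (hA : S.An T p1 Q0 η Cα) : 0 ≤ 5 * ((S.k + 1 : ℕ) : ℝ) ^ 2 / ((p1 : ℝ) - 1) := by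
  have h1 : (2 : ℝ) ≤ p1 := by exact_mod_cast hA.p1_pr.two_le
  exact div_nonneg (by positivity) (by linarith)

private theorem Q24_y0 {S : MS} {T : Dat} {W0 : ℕ} {Z : Fin (S.k + 1) → ℕ} (hT : T.OK W0) (hS : S.OK T W0 Z) : 2 ≤ T.y0 := by
  have h1 := hS.p0_lo
  have h2 := hT.p0_le
  have h3 := hT.y_le
  have h4 : 1 ≤ (S.k + 1) ^ 2 := Nat.one_le_pow _ _ (by omega)
  omega

private theorem Q24_wt {S : MS} {T : Dat} {W0 : ℕ} {Z : Fin (S.k + 1) → ℕ} (hT : T.OK W0) (hS : S.OK T W0 Z) {b1 : ℕ} (hb1 : 1 ≤ b1) {d : Finset ℕ}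
    (hd : d ⊆ T.PS) (hd' : d ∉ T.DS b1) (s : Bool) : wt s b1 T.y0 T.PS d = 0 := by
  have hP : ∀ r ∈ T.PS, r.Prime ∧ r ≤ T.y0 := by
    intro r hr
    unfold Dat.PS at hr
    rw [mem_filter, mem_range] at hr
    exact ⟨hr.2.1, by omega⟩
  have h2 := Q24_y0 hT hS
  by_contra h
  apply hd'
  unfold Dat.DS
  rw [mem_filter, mem_powerset]
  refine ⟨hd, ?_⟩
  have h3 : ((∏ r ∈ d, r : ℕ) : ℝ) ≤ (T.y0 : ℝ) ^ (12 * b1) := by
    cases s with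
    | true =>
      have h4 : flUp b1 T.y0 T.PS d ≠ 0 := by simpa [wt] using h
      exact flUp_support hP h2 hb1 hd h4
    | false =>
      have h4 : flLo b1 T.y0 T.PS d ≠ 0 := by simpa [wt] using h
      exact flLo_support hP h2 hb1 hd h4
  exact_mod_cast h3

private noncomputable def Q24_ks (T : Dat) (b1 : ℕ) (s : Bool) (d : Finset ℕ) : ℝ :=
  if s then wt false b1 T.y0 T.PS d - wt true b1 T.y0 T.PS d else wt true b1 T.y0 T.PS d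

private theorem Q24_ks_le (T : Dat) (b1 : ℕ) (s : Bool) (d : Finset ℕ) : |Q24_ks T b1 s d| ≤ (NJ T.y0 : ℝ) + 2 := by
  have h1 : |flUp b1 T.y0 T.PS d| ≤ 1 := abs_flUp_le _ _ _ _
  have h2 : |flLo b1 T.y0 T.PS d| ≤ NJ T.y0 + 1 := abs_flLo_le _ _ _ _
  have h3 : (0 : ℝ) ≤ NJ T.y0 := Nat.cast_nonneg _
  cases s with
  | true =>
    have h4 : Q24_ks T b1 true d = flLo b1 T.y0 T.PS d - flUp b1 T.y0 T.PS d := by
      unfold Q24_ks wt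
      simp
    rw [h4]
    refine (abs_sub _ _).trans ?_
    linarith
  | false =>
    have h4 : Q24_ks T b1 false d = flUp b1 T.y0 T.PS d := by
      unfold Q24_ks wt
      simp
    rw [h4]
    linarith

theorem Q24 {S : MS} {T : Dat} {W0 : ℕ} {Z : Fin (S.k + 1) → ℕ} {M : Msr S} {δ0 δ1 : ℝ} {p1 Q0 : ℕ} {η η' Cα : ℝ} {b1 b2 : ℕ} (hT : T.OK W0)
    (hS : S.OK T W0 Z) (hA : S.An T p1 Q0 η Cα) (hM : M.OK T W0 δ0 δ1) (hη : 0 ≤ η') (hsX : ∀ f, SWc T.N T.D M.hX η' Q0 (S.FX f))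
    (hsY : ∀ f, SWc T.N T.D M.hY η' Q0 (S.FY f)) (hQ0 : ∀ d ∈ T.DS b1, ∀ d' ∈ T.DS b1, (∏ p ∈ T.base ∪ d ∪ d', p ^ (padicValNat p T.D + 1)) * p1 ≤ Q0)
    (hb1 : 1 ≤ b1) (hb2 : 1 ≤ b2) (hq : (W0 : ℝ) * (T.y0 : ℝ) ^ (24 * b1) * (T.z : ℝ) ^ (24 * b2) ≤ (T.N : ℝ) ^ δ0) (nF : ℝ)
    (hF : open Classical in (((S.CC ×ˢ S.CC).filter fun q => Fun q.1 q.2).card : ℝ) ≤ nF) :
    ∑ μ ∈ S.MX, ∑ ν ∈ S.MY, ind (M.gp T μ ν) * ∑ n ∈ range (M.nm + 1), M.Om μ ν n *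
      (ind (IsCoprime (M.X μ ν n : ℤ) (W0 : ℤ)) * (M.RR T b1 b2 μ ν (M.X μ ν n) - M.RR1 T b1 b2 μ ν (M.X μ ν n)) ^ 2) ≤
    4 * ((NJ T.y0 : ℝ) + 2) ^ 2 * (M.W * M.tot1 * (M.Th0 T * ((1 + η') ^ (2 * S.n0) *
      ((S.CC.card : ℝ) ^ 2 * (U4 S T * (MA S T Cα * (th0 S T + 5 * ((S.k + 1 : ℕ) : ℝ) ^ 2 / ((p1 : ℝ) - 1)))) + nF * (U4 S T * (2 * U6 T W0))))) +
      (S.CC.card : ℝ) ^ 2 * ((T.DS b1).card ^ 2 * M.erL T W0 b1 b2 δ1) * 2) := by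
  classical
  have hWt : 0 ≤ M.W * M.tot1 := Q24_tot hS hM
  have her : 0 ≤ M.erL T W0 b1 b2 δ1 := by
    unfold Msr.erL
    exact mul_nonneg (Q24_er hM b1) (sq_nonneg _)
  have hU4 := Q24_U4 S T
  have hU6 := Q24_U6 T W0
  have hMA := Q24_MA hA
  have hp1 := Q24_p1 hA
  have hDS : T.DS b1 ⊆ T.PS.powerset := by
    unfold Dat.DS
    exact filter_subset _ _
  have hks : ∀ d ∈ T.PS.powerset, d ∉ T.DS b1 → ∀ s, Q24_ks T b1 s d = 0 := by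
    intro d hd hd' s
    rw [mem_powerset] at hd
    unfold Q24_ks
    rw [Q24_wt hT hS hb1 hd hd' false, Q24_wt hT hS hb1 hd hd' true]
    simp
  have hκ0 : (0 : ℝ) ≤ (NJ T.y0 : ℝ) + 2 := by positivity
  obtain ⟨κ, hκ⟩ : ∃ κ, κ = (NJ T.y0 : ℝ) + 2 := ⟨_, rfl⟩
  rw [← hκ] at hκ0
  have hkb : ∀ s d, |Q24_ks T b1 s d| ≤ κ := by
    intro s d
    rw [hκ]
    exact Q24_ks_le T b1 s d
  -- the difference
  have hdiff : ∀ μ ν (x : ℤ), M.RR T b1 b2 μ ν x - M.RR1 T b1 b2 μ ν x =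
      ∑ c ∈ S.CC, ∑ e ∈ T.DS b1 ×ˢ (univ : Finset Bool), Q24_ks T b1 e.2 e.1 * (S.FF T c μ ν x e.1 * (M.Ll T e.2 b2 c μ ν x - M.Ml T e.2 b2)) := by
    intro μ ν x
    unfold Msr.RR Msr.RR1
    rw [← sum_sub_distrib]
    refine sum_congr rfl fun c _ => ?_
    rw [Q17_w, sum_product, ← sum_subset hDS]
    · refine sum_congr rfl fun d _ => ?_
      rw [Fintype.sum_bool]
      unfold Q24_ks
      simp only [if_true, Bool.false_eq_true, if_false]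
      ring
    · intro d hd hd'
      have h1 := hks d hd hd' true
      have h2 := hks d hd hd' false
      unfold Q24_ks at h1 h2
      simp only [if_true, Bool.false_eq_true, if_false] at h1 h2
      rw [h1, h2]
      ring
  have hTS : ∑ μ ∈ S.MX, ∑ ν ∈ S.MY, ind (M.gp T μ ν) * ∑ n ∈ range (M.nm + 1), M.Om μ ν n *
      (ind (IsCoprime (M.X μ ν n : ℤ) (W0 : ℤ)) * (M.RR T b1 b2 μ ν (M.X μ ν n) - M.RR1 T b1 b2 μ ν (M.X μ ν n)) ^ 2) =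
      ∑ x ∈ (S.CC ×ˢ S.CC) ×ˢ ((T.DS b1 ×ˢ (univ : Finset Bool)) ×ˢ (T.DS b1 ×ˢ (univ : Finset Bool))),
        (Q24_ks T b1 x.2.1.2 x.2.1.1 * Q24_ks T b1 x.2.2.2 x.2.2.1) * M.TL T W0 b2 x.2.1.2 x.2.2.2 x.1.1 x.1.2 x.2.1.1 x.2.2.1 := by
    unfold Msr.TL
    rw [← Q24_lin S.MX S.MY (fun μ ν => ind (M.gp T μ ν)) (range (M.nm + 1)) M.Om
      ((S.CC ×ˢ S.CC) ×ˢ ((T.DS b1 ×ˢ (univ : Finset Bool)) ×ˢ (T.DS b1 ×ˢ (univ : Finset Bool))))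
      (fun x => Q24_ks T b1 x.2.1.2 x.2.1.1 * Q24_ks T b1 x.2.2.2 x.2.2.1) (fun x μ ν n => (ind (IsCoprime (M.X μ ν n : ℤ) (W0 : ℤ)) *
      (S.FF T x.1.1 μ ν (M.X μ ν n) x.2.1.1 * S.FF T x.1.2 μ ν (M.X μ ν n) x.2.2.1) *
      ((M.Ll T x.2.1.2 b2 x.1.1 μ ν (M.X μ ν n) - M.Ml T x.2.1.2 b2) * (M.Ll T x.2.2.2 b2 x.1.2 μ ν (M.X μ ν n) - M.Ml T x.2.2.2 b2))))]
    refine sum_congr rfl fun μ _ => sum_congr rfl fun ν _ => ?_
    congr 1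
    refine sum_congr rfl fun n _ => ?_
    congr 1
    rw [hdiff, Q24_sq S.CC (T.DS b1 ×ˢ (univ : Finset Bool)) (fun e => Q24_ks T b1 e.2 e.1)
      (fun c e => S.FF T c μ ν (M.X μ ν n) e.1 * (M.Ll T e.2 b2 c μ ν (M.X μ ν n) - M.Ml T e.2 b2)), mul_sum]
    exact sum_congr rfl fun x _ => by ring
  rw [hTS]
  obtain ⟨E, hE⟩ : ∃ E, E = (1 + η') ^ (2 * S.n0) := ⟨_, rfl⟩
  obtain ⟨A1, hA1⟩ : ∃ A1, A1 = U4 S T * (MA S T Cα * (th0 S T + 5 * ((S.k + 1 : ℕ) : ℝ) ^ 2 / ((p1 : ℝ) - 1))) := ⟨_, rfl⟩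
  obtain ⟨A2, hA2⟩ : ∃ A2, A2 = U4 S T * (2 * U6 T W0) := ⟨_, rfl⟩
  have hE1 : 1 ≤ E := by
    rw [hE]
    exact one_le_pow₀ (by linarith)
  have hth : 0 ≤ th0 S T := by
    unfold th0
    have h1 : 0 ≤ Real.log T.N := Real.log_natCast_nonneg _
    positivity
  have hTh : 0 ≤ M.Th0 T := by
    unfold Msr.Th0 Msr.V3
    have h2 := Q24_y0 hT hS
    refine mul_nonneg (by positivity) (prod_nonneg fun p hp => ?_)
    unfold Dat.PL at hp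
    rw [mem_filter] at hp
    have h3 := (hM.g_large p hp.2.1 hp.2.2).1
    positivity
  have hA10 : 0 ≤ A1 := by
    rw [hA1]
    exact mul_nonneg hU4 (mul_nonneg hMA (by linarith))
  have hA20 : 0 ≤ A2 := by
    rw [hA2]
    exact mul_nonneg hU4 (by linarith)
  have hsum : ∀ q ∈ S.CC ×ˢ S.CC, ∀ s s' : Bool, ∑ d ∈ T.DS b1, ∑ d' ∈ T.DS b1, |M.TL T W0 b2 s s' q.1 q.2 d d'| ≤
      M.W * M.tot1 * (M.Th0 T * (E * (A1 + (if Fun q.1 q.2 then 1 else 0) * A2))) + (T.DS b1).card ^ 2 * M.erL T W0 b1 b2 δ1 := by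
    intro q hqm s s'
    rw [mem_product] at hqm
    have hE0 : 0 ≤ E := by linarith
    by_cases hFn : Fun q.1 q.2
    · have h1 := (Q22 hT hS hA hM hη hsX hsY hQ0 hb2 hq hqm.1 hqm.2 s s').2
      rw [← hE, ← hA2] at h1
      rw [if_pos hFn]
      refine h1.trans ?_
      have h4 : M.W * M.tot1 * (M.Th0 T * (E * A2)) ≤ M.W * M.tot1 * (M.Th0 T * (E * (A1 + 1 * A2))) :=
        mul_le_mul_of_nonneg_left (mul_le_mul_of_nonneg_left (mul_le_mul_of_nonneg_left (by linarith) hE0) hTh) hWt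
      linarith
    · have h1 := (Q22 hT hS hA hM hη hsX hsY hQ0 hb2 hq hqm.1 hqm.2 s s').1 hFn
      rw [← hE, ← hA1] at h1
      rw [if_neg hFn]
      refine h1.trans ?_
      have h4 : M.W * M.tot1 * (M.Th0 T * (E * A1)) ≤ M.W * M.tot1 * (M.Th0 T * (E * (A1 + 0 * A2))) :=
        mul_le_mul_of_nonneg_left (mul_le_mul_of_nonneg_left (mul_le_mul_of_nonneg_left (by linarith) hE0) hTh) hWt
      linarith
  have hstep : ∑ x ∈ (S.CC ×ˢ S.CC) ×ˢ ((T.DS b1 ×ˢ (univ : Finset Bool)) ×ˢ (T.DS b1 ×ˢ (univ : Finset Bool))),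
        (Q24_ks T b1 x.2.1.2 x.2.1.1 * Q24_ks T b1 x.2.2.2 x.2.2.1) * M.TL T W0 b2 x.2.1.2 x.2.2.2 x.1.1 x.1.2 x.2.1.1 x.2.2.1 ≤
      κ ^ 2 * ∑ q ∈ S.CC ×ˢ S.CC, ∑ s : Bool, ∑ s' : Bool, ∑ d ∈ T.DS b1, ∑ d' ∈ T.DS b1, |M.TL T W0 b2 s s' q.1 q.2 d d'| := by
    rw [sum_product, mul_sum]
    refine sum_le_sum fun q _ => ?_
    have h0 : ∑ s : Bool, ∑ s' : Bool, ∑ d ∈ T.DS b1, ∑ d' ∈ T.DS b1, |M.TL T W0 b2 s s' q.1 q.2 d d'| =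
        ∑ e ∈ T.DS b1 ×ˢ (univ : Finset Bool), ∑ e' ∈ T.DS b1 ×ˢ (univ : Finset Bool), |M.TL T W0 b2 e.2 e'.2 q.1 q.2 e.1 e'.1| := by
      rw [sum_product_right]
      refine sum_congr rfl fun s _ => ?_
      rw [sum_comm]
      refine sum_congr rfl fun d _ => ?_
      rw [sum_product_right]
    rw [h0, sum_product, mul_sum]
    refine sum_le_sum fun e _ => ?_
    rw [mul_sum]
    refine sum_le_sum fun e' _ => ?_
    have h1 := hkb e.2 e.1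
    have h2 := hkb e'.2 e'.1
    refine (le_abs_self _).trans ?_
    rw [abs_mul, abs_mul]
    refine mul_le_mul_of_nonneg_right ?_ (abs_nonneg _)
    rw [sq]
    exact mul_le_mul h1 h2 (abs_nonneg _) hκ0
  refine hstep.trans ?_
  rw [← hκ, mul_comm (4 : ℝ), mul_assoc]
  refine mul_le_mul_of_nonneg_left ?_ (sq_nonneg _)
  have hsum4 : ∀ q ∈ S.CC ×ˢ S.CC, ∑ s : Bool, ∑ s' : Bool, ∑ d ∈ T.DS b1, ∑ d' ∈ T.DS b1, |M.TL T W0 b2 s s' q.1 q.2 d d'| ≤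
      4 * (M.W * M.tot1 * (M.Th0 T * (E * (A1 + (if Fun q.1 q.2 then 1 else 0) * A2))) + (T.DS b1).card ^ 2 * M.erL T W0 b1 b2 δ1) := by
    intro q hqm
    have h1 := hsum q hqm true true
    have h2 := hsum q hqm true false
    have h3 := hsum q hqm false true
    have h4 := hsum q hqm false false
    rw [Fintype.sum_bool, Fintype.sum_bool, Fintype.sum_bool]
    linarith
  refine (sum_le_sum hsum4).trans ?_
  rw [← mul_sum]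
  refine mul_le_mul_of_nonneg_left ?_ (by norm_num)
  rw [← hE, ← hA1, ← hA2, sum_add_distrib, sum_const, nsmul_eq_mul, card_product, ← mul_sum, ← mul_sum, ← mul_sum, sum_add_distrib, sum_const,
    nsmul_eq_mul, card_product, ← sum_mul, sum_boole]
  push_cast
  have hE0 : 0 ≤ E := by linarith
  have h5 : (((S.CC ×ˢ S.CC).filter fun q => Fun q.1 q.2).card : ℝ) * A2 ≤ nF * A2 := mul_le_mul_of_nonneg_right hF hA20
  have h7 : M.W * M.tot1 * (M.Th0 T * (E * ((S.CC.card : ℝ) * S.CC.card * A1 + (((S.CC ×ˢ S.CC).filter fun q => Fun q.1 q.2).card : ℝ) * A2))) ≤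
      M.W * M.tot1 * (M.Th0 T * (E * ((S.CC.card : ℝ) ^ 2 * A1 + nF * A2))) := by
    refine mul_le_mul_of_nonneg_left (mul_le_mul_of_nonneg_left (mul_le_mul_of_nonneg_left ?_ hE0) hTh) hWt
    have h8 : (S.CC.card : ℝ) * S.CC.card * A1 = (S.CC.card : ℝ) ^ 2 * A1 := by ring
    linarith
  have h9 : (S.CC.card : ℝ) * S.CC.card * (((T.DS b1).card : ℝ) ^ 2 * M.erL T W0 b1 b2 δ1) ≤
      (S.CC.card : ℝ) ^ 2 * ((T.DS b1).card ^ 2 * M.erL T W0 b1 b2 δ1) * 2 := by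
    have h10 : 0 ≤ (S.CC.card : ℝ) ^ 2 * ((T.DS b1).card ^ 2 * M.erL T W0 b1 b2 δ1) := by positivity
    nlinarith [h10]
  linarith

end Pool.Agent.Lib.TC
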