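import Pool.Agent.Lib.MP_7b7e48_nt.TC.Q23
import Pool.Agent.Lib.MP_7b7e48_nt.TC.Q24
import Pool.Agent.Lib.MP_7b7e48_nt.TC.Q25
import Pool.Agent.Lib.MP_7b7e48_nt.TC.Q26
import Pool.Agent.Lib.MP_7b7e48_nt.TC.Q27
import Pool.Agent.Lib.MP_7b7e48_nt.TC.K8

/-!
# Q28: the pair theorem from the second moments (Chebyshev, Markov)

`e0` is any positive number with `2 e0 ≤ |CC| wb` for good pairs of tuples and `X` coprime to `W0`. `SS`, `SL`, `SF` bound the three sums of `Q23`, `Q24`, `Q27`.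
Good pairs (`gp`), `Om n ≠ 0`, `Cd`: `X` is coprime to `W0` (`p0 ≤ y`). If not `Linked`, then `RR ≤ ∑ fm` (`K8_sum`; its hypotheses: `adm`, `hM.X_dvd`, `Y_dvd`, `Y_pos`, `X_big`). If `∑ fm < e0` then `|CC| wb - RR > e0`, so
`e0² ≤ (RR - |CC| wb)² ≤ 2 (RR - RR1)² + 2 (RR1 - |CC| wb)²`. Hence `ind (¬ Linked) ≤ ∑ fm/e0 + 2 ((RR - RR1)² + (RR1 - |CC| wb)²)/e0²` (all terms `≥ 0`; `fm ≥ 0`).
Pairs which are not good, and not bad at `p ≤ pb`: not `adm`, or bad at some `p ∈ (pb, y0]`: `∑_n Om ≤ 2 ms + N^(-δ1) W` (`hM.up`; the sum over all `n` is `cl 1 0`), `mN` bounds the mass of these pairs.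
-/

set_option autoImplicit false

open Finset

namespace Pool.Agent.Lib.TC

private theorem Q28_m1 {S : MS} {T : Dat} {W0 : ℕ} {Z : Fin (S.k + 1) → ℕ} {M : Msr S} {δ0 δ1 : ℝ} (hS : S.OK T W0 Z) (hM : M.OK T W0 δ0 δ1)
    {μ : S.TX} {ν : S.TY} (hμ : μ ∈ S.MX) (hν : ν ∈ S.MY) : 0 ≤ M.m1 μ ν := by
  unfold MS.MX at hμ
  rw [mem_product, mem_product, Fintype.mem_piFinset, Fintype.mem_piFinset, Fintype.mem_piFinset] at hμ
  unfold MS.MY at hν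
  rw [mem_product, mem_product, Fintype.mem_piFinset, Fintype.mem_piFinset, Fintype.mem_piFinset] at hν
  unfold Msr.m1 MS.prX MS.prY
  refine mul_nonneg (mul_nonneg (mul_nonneg ?_ ?_) ?_) (mul_nonneg (mul_nonneg ?_ ?_) ?_)
  · exact prod_nonneg fun i _ => (hM.hX_nonneg _ (hS.WX_mem i _ (hμ.1 i)).1).1
  · exact prod_nonneg fun i _ => (hM.hX_nonneg _ (hS.FX_mem i _ (hμ.2.1 i)).1).1
  · exact prod_nonneg fun i _ => (hM.hX_nonneg _ (hS.OX_mem i _ (hμ.2.2 i)).1).1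
  · exact prod_nonneg fun i _ => (hM.hY_nonneg _ (hS.WY_mem i _ (hν.1 i)).1).1
  · exact prod_nonneg fun i _ => (hM.hY_nonneg _ (hS.FY_mem i _ (hν.2.1 i)).1).1
  · exact prod_nonneg fun i _ => (hM.hY_nonneg _ (hS.OY_mem i _ (hν.2.2 i)).1).1

private theorem Q28_fm {S : MS} (M : Msr S) (T : Dat) (c : S.Col) (μ : S.TX) (ν : S.TY) (X : ℕ) : 0 ≤ M.fm T c μ ν X := by
  unfold Msr.fm
  split_ifs
  · positivity
  · exact le_rfl

private theorem Q28_cop {T : Dat} {W0 : ℕ} (hT : T.OK W0) {X : ℕ} (h : ∀ p : ℕ, p.Prime → p ≤ T.y → ¬ p ∣ X) : IsCoprime (X : ℤ) (W0 : ℤ) := by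
  rw [Nat.isCoprime_iff_coprime]
  refine Nat.coprime_of_dvd fun p hp h1 h2 => ?_
  have h3 := (hT.W0_pr p hp).1 h2
  have h4 := hT.p0_le
  exact h p hp (by omega) h1

/-- one number `n` of a good pair -/
private theorem Q28_one {e0 f r r1 w : ℝ} (he0 : 0 < e0) (hf : 0 ≤ f) (h : 2 * e0 ≤ w) (hr : r ≤ f) :
    1 ≤ f / e0 + 2 / e0 ^ 2 * ((r - r1) ^ 2 + (r1 - w) ^ 2) := by
  have h0 : 0 ≤ 2 / e0 ^ 2 * ((r - r1) ^ 2 + (r1 - w) ^ 2) := by positivity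
  by_cases h1 : e0 ≤ f
  · have h2 : 1 ≤ f / e0 := (one_le_div he0).2 h1
    linarith
  · push Not at h1
    have h2 : 0 ≤ f / e0 := div_nonneg hf he0.le
    have h3 : e0 ^ 2 ≤ (w - r) ^ 2 := by
      have h4 : e0 ≤ w - r := by linarith
      nlinarith
    have h5 : (w - r) ^ 2 ≤ 2 * ((r - r1) ^ 2 + (r1 - w) ^ 2) := by nlinarith [sq_nonneg ((r - r1) - (r1 - w))]
    have h6 : 1 ≤ 2 / e0 ^ 2 * ((r - r1) ^ 2 + (r1 - w) ^ 2) := by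
      rw [div_mul_eq_mul_div, one_le_div (by positivity)]
      exact h3.trans h5
    linarith

theorem Q28 {S : MS} {T : Dat} {W0 : ℕ} {Z : Fin (S.k + 1) → ℕ} {M : Msr S} {δ0 δ1 : ℝ} {p1 Q0 : ℕ} {η Cα : ℝ} {b1 b2 pb : ℕ} (hT : T.OK W0)
    (hS : S.OK T W0 Z) (hM : M.OK T W0 δ0 δ1) (e0 : ℝ) (he0 : 0 < e0)
    (hwb : ∀ μ ∈ S.MX, ∀ ν ∈ S.MY, ¬ S.badpair T 0 T.y0 μ ν → ∀ X : ℤ, IsCoprime X (W0 : ℤ) → 2 * e0 ≤ S.CC.card * M.wb T b1 b2 μ ν X)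
    (SS SL SF mN : ℝ)
    (hSS : ∑ μ ∈ S.MX, ∑ ν ∈ S.MY, ind (M.gp T μ ν) * ∑ n ∈ range (M.nm + 1), M.Om μ ν n *
      (ind (IsCoprime (M.X μ ν n : ℤ) (W0 : ℤ)) * (M.RR1 T b1 b2 μ ν (M.X μ ν n) - (S.CC.card : ℝ) * M.wb T b1 b2 μ ν (M.X μ ν n)) ^ 2) ≤ SS)
    (hSL : ∑ μ ∈ S.MX, ∑ ν ∈ S.MY, ind (M.gp T μ ν) * ∑ n ∈ range (M.nm + 1), M.Om μ ν n *
      (ind (IsCoprime (M.X μ ν n : ℤ) (W0 : ℤ)) * (M.RR T b1 b2 μ ν (M.X μ ν n) - M.RR1 T b1 b2 μ ν (M.X μ ν n)) ^ 2) ≤ SL)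
    (hSF : ∑ μ ∈ S.MX, ∑ ν ∈ S.MY, ind (M.gp T μ ν) * ∑ n ∈ range (M.nm + 1), M.Om μ ν n *
      (ind (M.Cd T μ ν n) * ∑ c ∈ S.CC, M.fm T c μ ν (M.X μ ν n)) ≤ SF)
    (hmN : ∑ μ ∈ S.MX, ∑ ν ∈ S.MY, M.m1 μ ν * ind (¬ M.adm μ ν) + ∑ μ ∈ S.MX, ∑ ν ∈ S.MY, M.m1 μ ν * ind (S.badpair T pb T.y0 μ ν) ≤ mN) :
    ∑ μ ∈ S.MX, ∑ ν ∈ S.MY, ind (¬ S.badpair T 0 pb μ ν) * ∑ n ∈ range (M.nm + 1), M.Om μ ν n *
      (ind (M.Cd T μ ν n) * ind (¬ S.Linked T μ ν (M.X μ ν n))) ≤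
    SF / e0 + 2 * (SL + SS) / e0 ^ 2 + (2 * M.W * mN + S.MX.card * S.MY.card * ((T.N : ℝ) ^ (-δ1) * M.W)) := by
  classical
  have hind1 : ∀ P : Prop, P → ind P = 1 := fun P h => by unfold ind; exact if_pos h
  have hind0 : ∀ P : Prop, ¬ P → ind P = 0 := fun P h => by unfold ind; exact if_neg h
  have hindn : ∀ P : Prop, 0 ≤ ind P := fun P => by
    by_cases h : P
    · rw [hind1 P h]
      norm_num
    · rw [hind0 P h]
  have hind_le : ∀ P : Prop, ind P ≤ 1 := fun P => by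
    by_cases h : P
    · rw [hind1 P h]
    · rw [hind0 P h]
      norm_num
  have hWn : 0 ≤ (T.N : ℝ) ^ (-δ1) * M.W := mul_nonneg (Real.rpow_nonneg (Nat.cast_nonneg _) _) hM.W_pos.le
  -- abbreviations for one pair
  obtain ⟨F1, hF1⟩ : ∃ F1 : S.TX → S.TY → ℝ, F1 = fun μ ν => ind (M.gp T μ ν) * ∑ n ∈ range (M.nm + 1), M.Om μ ν n *
      (ind (M.Cd T μ ν n) * ∑ c ∈ S.CC, M.fm T c μ ν (M.X μ ν n)) := ⟨_, rfl⟩
  obtain ⟨F2, hF2⟩ : ∃ F2 : S.TX → S.TY → ℝ, F2 = fun μ ν => ind (M.gp T μ ν) * ∑ n ∈ range (M.nm + 1), M.Om μ ν n *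
      (ind (IsCoprime (M.X μ ν n : ℤ) (W0 : ℤ)) * (M.RR T b1 b2 μ ν (M.X μ ν n) - M.RR1 T b1 b2 μ ν (M.X μ ν n)) ^ 2) := ⟨_, rfl⟩
  obtain ⟨F3, hF3⟩ : ∃ F3 : S.TX → S.TY → ℝ, F3 = fun μ ν => ind (M.gp T μ ν) * ∑ n ∈ range (M.nm + 1), M.Om μ ν n *
      (ind (IsCoprime (M.X μ ν n : ℤ) (W0 : ℤ)) * (M.RR1 T b1 b2 μ ν (M.X μ ν n) - (S.CC.card : ℝ) * M.wb T b1 b2 μ ν (M.X μ ν n)) ^ 2) := ⟨_, rfl⟩
  have hF1n : ∀ μ ν, 0 ≤ F1 μ ν := by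
    intro μ ν
    rw [hF1]
    exact mul_nonneg (hindn _) (sum_nonneg fun n _ => mul_nonneg (hM.Om_nonneg _ _ _) (mul_nonneg (hindn _)
      (sum_nonneg fun c _ => Q28_fm M T c μ ν _)))
  have hF2n : ∀ μ ν, 0 ≤ F2 μ ν := by
    intro μ ν
    rw [hF2]
    exact mul_nonneg (hindn _) (sum_nonneg fun n _ => mul_nonneg (hM.Om_nonneg _ _ _) (mul_nonneg (hindn _) (sq_nonneg _)))
  have hF3n : ∀ μ ν, 0 ≤ F3 μ ν := by
    intro μ ν
    rw [hF3]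
    exact mul_nonneg (hindn _) (sum_nonneg fun n _ => mul_nonneg (hM.Om_nonneg _ _ _) (mul_nonneg (hindn _) (sq_nonneg _)))
  have key : ∀ μ ∈ S.MX, ∀ ν ∈ S.MY, ind (¬ S.badpair T 0 pb μ ν) * ∑ n ∈ range (M.nm + 1), M.Om μ ν n *
      (ind (M.Cd T μ ν n) * ind (¬ S.Linked T μ ν (M.X μ ν n))) ≤
      F1 μ ν / e0 + 2 / e0 ^ 2 * (F2 μ ν + F3 μ ν) + (2 * M.W * (M.m1 μ ν * ind (¬ M.adm μ ν) + M.m1 μ ν * ind (S.badpair T pb T.y0 μ ν)) +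
        (T.N : ℝ) ^ (-δ1) * M.W) := by
    intro μ hμ ν hν
    have hm := Q28_m1 hS hM hμ hν
    have hlast : 0 ≤ 2 * M.W * (M.m1 μ ν * ind (¬ M.adm μ ν) + M.m1 μ ν * ind (S.badpair T pb T.y0 μ ν)) :=
      mul_nonneg (by linarith [hM.W_pos]) (add_nonneg (mul_nonneg hm (hindn _)) (mul_nonneg hm (hindn _)))
    have h1n : 0 ≤ F1 μ ν / e0 := div_nonneg (hF1n μ ν) he0.le
    have h23n : 0 ≤ 2 / e0 ^ 2 * (F2 μ ν + F3 μ ν) := mul_nonneg (by positivity) (add_nonneg (hF2n μ ν) (hF3n μ ν))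
    by_cases hbp : S.badpair T 0 pb μ ν
    · rw [hind0 _ (not_not.2 hbp), zero_mul]
      linarith
    · rw [hind1 _ hbp, one_mul]
      by_cases hgp : M.gp T μ ν
      · -- good pair
        have hgp' := hgp
        obtain ⟨hadm, hnb⟩ := hgp'
        have hmain : ∑ n ∈ range (M.nm + 1), M.Om μ ν n * (ind (M.Cd T μ ν n) * ind (¬ S.Linked T μ ν (M.X μ ν n))) ≤
            F1 μ ν / e0 + 2 / e0 ^ 2 * (F2 μ ν + F3 μ ν) := by
          rw [hF1, hF2, hF3]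
          simp only [hind1 _ hgp, one_mul]
          rw [← sum_add_distrib, sum_div, mul_sum, ← sum_add_distrib]
          refine sum_le_sum fun n _ => ?_
          have hOm := hM.Om_nonneg μ ν n
          by_cases hO : M.Om μ ν n = 0
          · rw [hO]
            simp
          · have hfm : 0 ≤ ∑ c ∈ S.CC, M.fm T c μ ν (M.X μ ν n) := sum_nonneg fun c _ => Q28_fm M T c μ ν _
            have hpt : ind (M.Cd T μ ν n) * ind (¬ S.Linked T μ ν (M.X μ ν n)) ≤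
                (ind (M.Cd T μ ν n) * ∑ c ∈ S.CC, M.fm T c μ ν (M.X μ ν n)) / e0 + 2 / e0 ^ 2 *
                  (ind (IsCoprime (M.X μ ν n : ℤ) (W0 : ℤ)) * (M.RR T b1 b2 μ ν (M.X μ ν n) - M.RR1 T b1 b2 μ ν (M.X μ ν n)) ^ 2 +
                  ind (IsCoprime (M.X μ ν n : ℤ) (W0 : ℤ)) *
                    (M.RR1 T b1 b2 μ ν (M.X μ ν n) - (S.CC.card : ℝ) * M.wb T b1 b2 μ ν (M.X μ ν n)) ^ 2) := by
              have hr1 : 0 ≤ (ind (M.Cd T μ ν n) * ∑ c ∈ S.CC, M.fm T c μ ν (M.X μ ν n)) / e0 :=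
                div_nonneg (mul_nonneg (hindn _) hfm) he0.le
              have hr2 : 0 ≤ 2 / e0 ^ 2 *
                  (ind (IsCoprime (M.X μ ν n : ℤ) (W0 : ℤ)) * (M.RR T b1 b2 μ ν (M.X μ ν n) - M.RR1 T b1 b2 μ ν (M.X μ ν n)) ^ 2 +
                  ind (IsCoprime (M.X μ ν n : ℤ) (W0 : ℤ)) *
                    (M.RR1 T b1 b2 μ ν (M.X μ ν n) - (S.CC.card : ℝ) * M.wb T b1 b2 μ ν (M.X μ ν n)) ^ 2) :=
                mul_nonneg (by positivity) (add_nonneg (mul_nonneg (hindn _) (sq_nonneg _)) (mul_nonneg (hindn _) (sq_nonneg _)))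
              by_cases hCd : M.Cd T μ ν n
              · by_cases hL : S.Linked T μ ν (M.X μ ν n)
                · rw [hind0 _ (not_not.2 hL), mul_zero]
                  linarith
                · have hCd' := hCd
                  obtain ⟨hc1, hc2⟩ := hCd'
                  have hcop : IsCoprime (M.X μ ν n : ℤ) (W0 : ℤ) := Q28_cop hT fun p hp hpy => (hc2 p hp hpy).1
                  rw [hind1 _ hCd, hind1 _ hL, hind1 _ hcop, one_mul, one_mul, one_mul, one_mul]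
                  have hRf : M.RR T b1 b2 μ ν (M.X μ ν n) ≤ ∑ c ∈ S.CC, M.fm T c μ ν (M.X μ ν n) := by
                    by_contra hlt
                    push Not at hlt
                    exact hL (K8_sum M hT hS b1 b2 hμ hν hadm.2 (hM.X_dvd μ ν n hO) (hM.Y_dvd μ ν n hO) (hM.Y_pos μ ν n hO)
                      (hM.X_big μ ν n hO) hc1 hc2 hlt)
                  exact Q28_one he0 hfm (hwb μ hμ ν hν hnb _ hcop) hRf
              · rw [hind0 _ hCd, zero_mul, zero_mul, zero_div]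
                linarith
            refine (mul_le_mul_of_nonneg_left hpt hOm).trans (le_of_eq ?_)
            ring
        linarith
      · have hup := hM.up μ hμ ν hν
        have hcl : M.cl μ ν 1 0 = ∑ n ∈ range (M.nm + 1), M.Om μ ν n := by
          unfold Msr.cl
          rw [filter_true_of_mem fun n _ => Nat.modEq_one]
        rw [hcl] at hup
        have h1 : ∑ n ∈ range (M.nm + 1), M.Om μ ν n * (ind (M.Cd T μ ν n) * ind (¬ S.Linked T μ ν (M.X μ ν n))) ≤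
            ∑ n ∈ range (M.nm + 1), M.Om μ ν n := by
          refine sum_le_sum fun n _ => ?_
          have h2 : ind (M.Cd T μ ν n) * ind (¬ S.Linked T μ ν (M.X μ ν n)) ≤ 1 :=
            mul_le_one₀ (hind_le _) (hindn _) (hind_le _)
          exact mul_le_of_le_one_right (hM.Om_nonneg _ _ _) h2
        have h3 : 1 ≤ ind (¬ M.adm μ ν) + ind (S.badpair T pb T.y0 μ ν) := by
          by_cases hadm : M.adm μ ν
          · have hb0 : S.badpair T 0 T.y0 μ ν := by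
              by_contra hb0
              exact hgp ⟨hadm, hb0⟩
            have hb1 : S.badpair T pb T.y0 μ ν := by
              obtain ⟨p, hp1, hp2, hp3, hp4⟩ := hb0
              refine ⟨p, hp1, ?_, hp3, hp4⟩
              by_contra hlt
              exact hbp ⟨p, hp1, hp2, by omega, hp4⟩
            rw [hind1 _ hb1]
            linarith [hindn (¬ M.adm μ ν)]
          · rw [hind1 _ hadm]
            linarith [hindn (S.badpair T pb T.y0 μ ν)]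
        have h4 : 2 * M.ms μ ν ≤ 2 * M.W * (M.m1 μ ν * ind (¬ M.adm μ ν) + M.m1 μ ν * ind (S.badpair T pb T.y0 μ ν)) := by
          unfold Msr.ms
          have h5 : M.W * M.m1 μ ν * 1 ≤ M.W * M.m1 μ ν * (ind (¬ M.adm μ ν) + ind (S.badpair T pb T.y0 μ ν)) :=
            mul_le_mul_of_nonneg_left h3 (mul_nonneg hM.W_pos.le hm)
          linarith
        linarith
  refine (sum_le_sum fun μ hμ => sum_le_sum fun ν hν => key μ hμ ν hν).trans ?_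
  have e1 : ∑ μ ∈ S.MX, ∑ ν ∈ S.MY, F1 μ ν ≤ SF := by
    rw [hF1]
    exact hSF
  have e2 : ∑ μ ∈ S.MX, ∑ ν ∈ S.MY, F2 μ ν ≤ SL := by
    rw [hF2]
    exact hSL
  have e3 : ∑ μ ∈ S.MX, ∑ ν ∈ S.MY, F3 μ ν ≤ SS := by
    rw [hF3]
    exact hSS
  have e4 : ∑ μ ∈ S.MX, ∑ ν ∈ S.MY, (F1 μ ν / e0 + 2 / e0 ^ 2 * (F2 μ ν + F3 μ ν) +
      (2 * M.W * (M.m1 μ ν * ind (¬ M.adm μ ν) + M.m1 μ ν * ind (S.badpair T pb T.y0 μ ν)) + (T.N : ℝ) ^ (-δ1) * M.W)) =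
      (∑ μ ∈ S.MX, ∑ ν ∈ S.MY, F1 μ ν) / e0 + 2 / e0 ^ 2 * (∑ μ ∈ S.MX, ∑ ν ∈ S.MY, F2 μ ν + ∑ μ ∈ S.MX, ∑ ν ∈ S.MY, F3 μ ν) +
      (2 * M.W * (∑ μ ∈ S.MX, ∑ ν ∈ S.MY, M.m1 μ ν * ind (¬ M.adm μ ν) + ∑ μ ∈ S.MX, ∑ ν ∈ S.MY, M.m1 μ ν * ind (S.badpair T pb T.y0 μ ν)) +
        S.MX.card * S.MY.card * ((T.N : ℝ) ^ (-δ1) * M.W)) := by
    simp only [sum_add_distrib, ← sum_div, ← mul_sum, sum_const, nsmul_eq_mul]
    ring
  rw [e4]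
  have g1 : (∑ μ ∈ S.MX, ∑ ν ∈ S.MY, F1 μ ν) / e0 ≤ SF / e0 := div_le_div_of_nonneg_right e1 he0.le
  have g2 : 2 / e0 ^ 2 * (∑ μ ∈ S.MX, ∑ ν ∈ S.MY, F2 μ ν + ∑ μ ∈ S.MX, ∑ ν ∈ S.MY, F3 μ ν) ≤ 2 / e0 ^ 2 * (SL + SS) :=
    mul_le_mul_of_nonneg_left (add_le_add e2 e3) (by positivity)
  have g3 : 2 / e0 ^ 2 * (SL + SS) = 2 * (SL + SS) / e0 ^ 2 := by ring
  have g4 : 2 * M.W * (∑ μ ∈ S.MX, ∑ ν ∈ S.MY, M.m1 μ ν * ind (¬ M.adm μ ν) + ∑ μ ∈ S.MX, ∑ ν ∈ S.MY, M.m1 μ ν * ind (S.badpair T pb T.y0 μ ν)) ≤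
      2 * M.W * mN := mul_le_mul_of_nonneg_left hmN (by linarith [hM.W_pos])
  linarith

end Pool.Agent.Lib.TC
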