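import Pool.Agent.Lib.MP_7b7e48_nt.TC.QN1
import Pool.Agent.Lib.MP_7b7e48_nt.TC.QN2
import Pool.Agent.Lib.MP_7b7e48_nt.TC.Q25

/-!
# QN5a (part of the proof of the pair theorem; common plan of QN5a - QN5e, QN6)

`K = log N`, `m = k + 1`, `e0 = E0 = |CC|/(D K^(k+4))`. Combine `Q28` with `Q23`, `Q24`, `Q26`, `Q27`, `Q25` and the numerics. `nF = (k+1)^(k+1) (k+1)^(2 n0) ≤ 2 (k+1)^(k+1) |CC|` (`T10_card`, `hC2`), `nD = 4^k (k (k+1))^(2 n0)` (`T09`; `card (FE n0) = 2 n0`), `nD ≤ |CC|²/K^(B+10)` (`hC3`),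
`D ≤ |CC|/K^(5m+B+10)` (`hC1`), `κ = 2 (NJ y0 + 1) VL ≤ K^(-m + 1/10)`.
* `hwb`: `wb ≥ (1/4) 1/(2^|base| W0^k D) VS VL ≥ K^(-m - 1/5)/(4 D) ≥ 2/(D K^(k+4))`.
* `QN5_S`: `SS/e0² ≤ W tot1 / K^(B+3)`: `κ²/e0² ≤ K^(-2m + 1/5) D² K^(2k+8)/|CC|² = D² K^(6 + 1/5)/|CC|²`; the three terms: `|DS|² ((1+η')^(2n0) - 1 + ξ) D² K^7 ≤ K^(24 b1 (CY+1) + 2 CD + 10 - Cη)`; `nD`-term `≤ K^7 K^(1/4) · 8/K^(B+10)`; `nF`-term `≤ 8 nF D K^7/|CC|² ≤ K^8 D/|CC|`; errors by `QN4` with `E` large.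
  (`ξ = 12 K^4 exp(-K^(1/5))` is smaller than any power of `1/K`.)
* `QN5_L`: `SL/e0² ≤ W tot1/K^(B+3)`: `4 (NJ y0 + 2)² Th0 ≤ K^(3m + 1/5)`; first term: `K^(3m + 2/5) K^(2k+8) (th0 + 5 m²/(p1-1))`, `th0 + 5m²/(p1 - 1) ≤ K^(5/4)/y0 ≤ K^(5/4 - CY)` (`p1 > y0`), `CY ≥ 5 m + B + 11`; second: `K^(3m + 1/2) nF D K^(2k+8)/|CC|² ≤ K^(5m + 7) D/|CC|`.
* `QN5_F`: `SF/e0 ≤ 300 (k+2)^4 · 32 K^(k+9)/y0 W tot1 + errors ≤ W tot1/K^(B+2)`.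
* masses: `12 K^4/y0 + m² (6 Cα)^(k-1) 2/pb^(k-2) ≤ 1/K^(B+2)` (`pb ≥ K`, `k - 2 ≥ B + 3`).
-/

set_option autoImplicit false

open Finset

namespace Pool.Agent.Lib.TC

theorem QN5_wb (c : PC) (hc : c.OK) : ∃ N0 : ℕ, ∀ (S : MS) (T : Dat) (M : Msr S) (W0 : ℕ) (Z : Fin (S.k + 1) → ℕ) (p1 Q0 pb : ℕ) (η : ℝ),
    PH c S T M W0 Z p1 Q0 pb η → N0 ≤ T.N → 0 < E0 S T ∧ ∀ μ ∈ S.MX, ∀ ν ∈ S.MY, ¬ S.badpair T 0 T.y0 μ ν → ∀ X : ℤ, IsCoprime X (W0 : ℤ) →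
      2 * E0 S T ≤ S.CC.card * M.wb T c.b1 c.b2 μ ν X := by
  obtain ⟨N1, h1⟩ := QN1 c hc
  obtain ⟨N2, h2⟩ := QN2 c hc
  refine ⟨max (max N1 N2) ⌈Real.exp 8⌉₊, ?_⟩
  intro S T M W0 Z p1 Q0 pb η H hN
  obtain ⟨g1, -, -, g2, g3, -, -, -⟩ := h1 S T M W0 Z p1 Q0 pb η H
    ((le_max_left _ _).trans ((le_max_left _ _).trans hN))
  obtain ⟨v1, -, -, -⟩ := h2 S T M W0 Z p1 Q0 pb η H
    ((le_max_right _ _).trans ((le_max_left _ _).trans hN))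
  have hN0 : (0 : ℝ) < T.N := by
    have := H.hT.N_pos
    have h3 : 0 < T.N := by omega
    exact_mod_cast h3
  have hK : 8 ≤ Real.log T.N := by
    rw [Real.le_log_iff_exp_le hN0]
    exact (Nat.le_ceil _).trans (by exact_mod_cast (le_max_right _ _).trans hN)
  set K : ℝ := Real.log T.N with hKd
  have hK0 : 0 < K := by linarith
  have hK1 : 1 ≤ K := by linarith
  have hD : (0 : ℝ) < T.D := by exact_mod_cast H.hT.D_pos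
  have hCC : (0 : ℝ) < S.CC.card := by
    refine lt_of_lt_of_le ?_ H.hC1
    rw [← hKd]
    positivity
  have hE : 0 < E0 S T := by
    unfold E0
    rw [← hKd]
    positivity
  refine ⟨hE, ?_⟩
  intro μ hμ ν hν hb X hX
  have hk := H.hk
  have hwb := Q25_wb H.hT H.hS H.hM (b1 := c.b1) (b2 := c.b2) (by rw [hk]; exact hc.f1)
    (by rw [hk]; exact hc.f2) hμ hν hb hX
  have hW0 : 0 < W0 := Nat.pos_of_ne_zero H.hT.W0_sq.ne_zero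
  have hW1 : (1 : ℝ) ≤ W0 := by exact_mod_cast hW0
  have b1 : (2 : ℝ) ^ T.base.card ≤ K ^ (1 / 100 : ℝ) :=
    (pow_le_pow_left₀ (by norm_num) (by norm_num) _).trans g1
  have b2 : (W0 : ℝ) ^ S.k ≤ K ^ (1 / 100 : ℝ) :=
    (pow_le_pow_right₀ hW1 (Nat.le_succ _)).trans g3
  have b3 : (2 : ℝ) ^ T.base.card * (W0 : ℝ) ^ S.k * T.D ≤ K ^ (1 / 50 : ℝ) * T.D := by
    apply mul_le_mul_of_nonneg_right _ hD.le
    calc (2 : ℝ) ^ T.base.card * (W0 : ℝ) ^ S.k ≤ K ^ (1 / 100 : ℝ) * K ^ (1 / 100 : ℝ) :=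
          mul_le_mul b1 b2 (by positivity) (by positivity)
      _ = K ^ (1 / 50 : ℝ) := by
          rw [← Real.rpow_add hK0]
          norm_num
  have b4 : K ^ (-(1 / 50) : ℝ) / T.D ≤ 1 / ((2 : ℝ) ^ T.base.card * (W0 : ℝ) ^ S.k * T.D) := by
    have e1 : K ^ (-(1 / 50) : ℝ) / T.D = 1 / (K ^ (1 / 50 : ℝ) * T.D) := by
      rw [Real.rpow_neg hK0.le]
      field_simp
    rw [e1]
    have : (0 : ℝ) < W0 := by linarith
    exact one_div_le_one_div_of_le (by positivity) b3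
  have hV0 : 0 ≤ VS S T := le_trans (by positivity) g2
  have b5 : 1 / 4 * (K ^ (-(1 / 50) : ℝ) / T.D) * K ^ (-(1 / 100) : ℝ) *
      K ^ (-((c.k : ℝ) + 1) - 1 / 20) ≤ M.wb T c.b1 c.b2 μ ν X := by
    refine le_trans ?_ hwb
    have : (0 : ℝ) < W0 := by linarith
    apply mul_le_mul _ v1 (by positivity) (by positivity)
    apply mul_le_mul _ g2 (by positivity) (by positivity)
    exact mul_le_mul_of_nonneg_left b4 (by norm_num)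
  have b6 : 2 / (T.D * K ^ (S.k + 4)) ≤ 1 / 4 * (K ^ (-(1 / 50) : ℝ) / T.D) * K ^ (-(1 / 100) : ℝ) *
      K ^ (-((c.k : ℝ) + 1) - 1 / 20) := by
    have e1 : 1 / 4 * (K ^ (-(1 / 50) : ℝ) / T.D) * K ^ (-(1 / 100) : ℝ) *
        K ^ (-((c.k : ℝ) + 1) - 1 / 20) = 1 / 4 * K ^ (-((c.k : ℝ) + 1) - 2 / 25) / T.D := by
      have e2 : K ^ (-((c.k : ℝ) + 1) - 2 / 25) =
          K ^ (-(1 / 50) : ℝ) * K ^ (-(1 / 100) : ℝ) * K ^ (-((c.k : ℝ) + 1) - 1 / 20) := by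
        rw [← Real.rpow_add hK0, ← Real.rpow_add hK0]
        congr 1
        ring
      rw [e2]
      ring
    have e3 : K ^ (-((c.k : ℝ) + 1) - 2 / 25) * K ^ (S.k + 4) = K ^ (73 / 25 : ℝ) := by
      rw [← Real.rpow_natCast K (S.k + 4), ← Real.rpow_add hK0, hk]
      congr 1
      push_cast
      ring
    have e4 : 8 ≤ K ^ (73 / 25 : ℝ) := by
      calc (8 : ℝ) ≤ K := hK
        _ = K ^ (1 : ℝ) := (Real.rpow_one _).symm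
        _ ≤ K ^ (73 / 25 : ℝ) := Real.rpow_le_rpow_of_exponent_le hK1 (by norm_num)
    rw [e1, div_le_div_iff₀ (by positivity) hD]
    calc 2 * (T.D : ℝ) = (1 / 4 * 8) * T.D := by ring
      _ ≤ (1 / 4 * K ^ (73 / 25 : ℝ)) * T.D := by
          apply mul_le_mul_of_nonneg_right _ hD.le
          linarith
      _ = 1 / 4 * K ^ (-((c.k : ℝ) + 1) - 2 / 25) * (T.D * K ^ (S.k + 4)) := by
          rw [← e3]
          ring
  calc 2 * E0 S T = S.CC.card * (2 / (T.D * K ^ (S.k + 4))) := by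
        unfold E0
        rw [← hKd]
        ring
    _ ≤ _ := mul_le_mul_of_nonneg_left (b6.trans b5) hCC.le

end Pool.Agent.Lib.TC
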