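import Pool.Agent.Lib.MP_7b7e48_nt.TC.QN1
import Pool.Agent.Lib.MP_7b7e48_nt.TC.QN2
import Pool.Agent.Lib.MP_7b7e48_nt.TC.QN3
import Pool.Agent.Lib.MP_7b7e48_nt.TC.QN4
import Pool.Agent.Lib.MP_7b7e48_nt.TC.Q24
import Pool.Agent.Lib.MP_7b7e48_nt.TC.T10

/-!
# QN5c (part of the proof of the pair theorem; common plan of QN5a - QN5e, QN6)

`K = log N`, `m = k + 1`, `e0 = E0 = |CC|/(D K^(k+4))`. Combine `Q28` with `Q23`, `Q24`, `Q26`, `Q27`, `Q25` and the numerics. `nF = (k+1)^(k+1) (k+1)^(2 n0) ≤ 2 (k+1)^(k+1) |CC|` (`T10_card`, `hC2`), `nD = 4^k (k (k+1))^(2 n0)` (`T09`; `card (FE n0) = 2 n0`), `nD ≤ |CC|²/K^(B+10)` (`hC3`),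
`D ≤ |CC|/K^(5m+B+10)` (`hC1`), `κ = 2 (NJ y0 + 1) VL ≤ K^(-m + 1/10)`.
* `hwb`: `wb ≥ (1/4) 1/(2^|base| W0^k D) VS VL ≥ K^(-m - 1/5)/(4 D) ≥ 2/(D K^(k+4))`.
* `QN5_S`: `SS/e0² ≤ W tot1 / K^(B+3)`: `κ²/e0² ≤ K^(-2m + 1/5) D² K^(2k+8)/|CC|² = D² K^(6 + 1/5)/|CC|²`; the three terms: `|DS|² ((1+η')^(2n0) - 1 + ξ) D² K^7 ≤ K^(24 b1 (CY+1) + 2 CD + 10 - Cη)`; `nD`-term `≤ K^7 K^(1/4) · 8/K^(B+10)`; `nF`-term `≤ 8 nF D K^7/|CC|² ≤ K^8 D/|CC|`; errors by `QN4` with `E` large.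
  (`ξ = 12 K^4 exp(-K^(1/5))` is smaller than any power of `1/K`.)
* `QN5_L`: `SL/e0² ≤ W tot1/K^(B+3)`: `4 (NJ y0 + 2)² Th0 ≤ K^(3m + 1/5)`; first term: `K^(3m + 2/5) K^(2k+8) (th0 + 5 m²/(p1-1))`, `th0 + 5m²/(p1 - 1) ≤ K^(5/4)/y0 ≤ K^(5/4 - CY)` (`p1 > y0`), `CY ≥ 5 m + B + 11`; second: `K^(3m + 1/2) nF D K^(2k+8)/|CC|² ≤ K^(5m + 7) D/|CC|`.
* `QN5_F`: `SF/e0 ≤ 300 (k+2)^4 · 32 K^(k+9)/y0 W tot1 + errors ≤ W tot1/K^(B+2)`.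
* masses: `12 K^4/y0 + m² (6 Cα)^(k-1) 2/pb^(k-2) ≤ 1/K^(B+2)` (`pb ≥ K`, `k - 2 ≥ B + 3`).
-/

set_option autoImplicit false

open Finset
open Pool.Agent.Lib.GT (NJ)

namespace Pool.Agent.Lib.TC

private theorem qn5c_T1 {K s D C P : ℝ} {m CY B CD : ℕ} (hK1 : 96 ≤ K) (hs1 : 1 ≤ s) (hs : s ^ 16 ≤ K) (hD : 0 < D)
    (hP : 0 ≤ P) (hCY : CD + 12 * m + B + 20 ≤ CY) :
    4 * s ^ 2 * (P * (4 * s ^ 2 * (K ^ (3 * m) * s ^ 5) * (2 * (C ^ 2 * (s ^ 2 * ((s ^ 5 / D ^ 2) * (K ^ 2 / K ^ CY))))))) ≤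
      (C / (D * K ^ (m + 3))) ^ 2 * (P / K ^ (B + 2)) / 3 := by
  have hK0 : 0 < K := by linarith
  have hK1' : 1 ≤ K := by linarith
  have e : 4 * s ^ 2 * (P * (4 * s ^ 2 * (K ^ (3 * m) * s ^ 5) * (2 * (C ^ 2 * (s ^ 2 * ((s ^ 5 / D ^ 2) * (K ^ 2 / K ^ CY))))))) =
      (C / (D * K ^ (m + 3))) ^ 2 * (P / K ^ (B + 2)) * (32 * s ^ 16 * (K ^ (3 * m) * K ^ 2 * (K ^ (m + 3)) ^ 2 * K ^ (B + 2)) / K ^ CY) := by
    field_simp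
    ring
  rw [e, div_eq_mul_inv _ (3 : ℝ)]
  refine mul_le_mul_of_nonneg_left ?_ (by positivity)
  rw [div_le_iff₀ (by positivity)]
  have h1 : K ^ (3 * m) * K ^ 2 * (K ^ (m + 3)) ^ 2 * K ^ (B + 2) = K ^ (5 * m + B + 10) := by
    rw [← pow_mul, ← pow_add, ← pow_add, ← pow_add]
    congr 1
    ring
  rw [h1]
  have h2 : K ^ (5 * m + B + 10) * K ^ 2 ≤ K ^ CY := by
    rw [← pow_add]
    exact pow_le_pow_right₀ hK1' (by omega)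
  have h3 : 32 * s ^ 16 * K ^ (5 * m + B + 10) ≤ (1 / 3) * (K ^ (5 * m + B + 10) * K ^ 2) := by
    have h4 : 32 * s ^ 16 ≤ (1 / 3) * K ^ 2 := by nlinarith
    have h5 : 0 ≤ K ^ (5 * m + B + 10) := by positivity
    nlinarith
  have h6 : (3 : ℝ)⁻¹ = 1 / 3 := by norm_num
  rw [h6]
  linarith

private theorem qn5c_T2 {K s D C P : ℝ} {m B : ℕ} (hK1 : 192 ≤ K) (hs1 : 1 ≤ s) (hs : s ^ 14 ≤ K) (hD : 0 < D)
    (hP : 0 ≤ P) (hC : 0 < C) (hCD : D * K ^ (5 * m + B + 10) ≤ C) :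
    4 * s ^ 2 * (P * (4 * s ^ 2 * (K ^ (3 * m) * s ^ 5) * (2 * ((s * C) * (s ^ 2 * (2 * (s ^ 2 / D))))))) ≤
      (C / (D * K ^ (m + 3))) ^ 2 * (P / K ^ (B + 2)) / 3 := by
  have hK0 : 0 < K := by linarith
  have hK1' : 1 ≤ K := by linarith
  have e : 4 * s ^ 2 * (P * (4 * s ^ 2 * (K ^ (3 * m) * s ^ 5) * (2 * ((s * C) * (s ^ 2 * (2 * (s ^ 2 / D))))))) =
      (C / (D * K ^ (m + 3))) ^ 2 * (P / K ^ (B + 2)) * (64 * s ^ 14 * (K ^ (3 * m) * (K ^ (m + 3)) ^ 2 * K ^ (B + 2)) * D / C) := by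
    field_simp
    ring
  rw [e, div_eq_mul_inv _ (3 : ℝ)]
  refine mul_le_mul_of_nonneg_left ?_ (by positivity)
  rw [div_le_iff₀ hC]
  have h1 : K ^ (3 * m) * (K ^ (m + 3)) ^ 2 * K ^ (B + 2) = K ^ (5 * m + B + 8) := by
    rw [← pow_mul, ← pow_add, ← pow_add]
    congr 1
    ring
  rw [h1]
  have h2 : K ^ (5 * m + B + 10) = K ^ (5 * m + B + 8) * K ^ 2 := by rw [← pow_add]
  rw [h2] at hCD
  have h4 : 64 * s ^ 14 ≤ (1 / 3) * K ^ 2 := by nlinarith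
  have h5 : 0 ≤ K ^ (5 * m + B + 8) * D := by positivity
  have h6 : (3 : ℝ)⁻¹ = 1 / 3 := by norm_num
  rw [h6]
  calc 64 * s ^ 14 * K ^ (5 * m + B + 8) * D = 64 * s ^ 14 * (K ^ (5 * m + B + 8) * D) := by ring
    _ ≤ (1 / 3) * K ^ 2 * (K ^ (5 * m + B + 8) * D) := mul_le_mul_of_nonneg_right h4 h5
    _ = (1 / 3) * (D * (K ^ (5 * m + B + 8) * K ^ 2)) := by ring
    _ ≤ (1 / 3) * C := mul_le_mul_of_nonneg_left hCD (by norm_num)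

private theorem qn5c_T3 {K s D C P : ℝ} {m B e1 E CD : ℕ} (hK1 : 96 ≤ K) (hs1 : 1 ≤ s) (hs : s ^ 2 ≤ K) (hD : 0 < D)
    (hP : 0 ≤ P) (hDK : D ≤ K ^ CD) (hE : E = 2 * e1 + 2 * CD + 2 * m + B + 10) :
    4 * s ^ 2 * (C ^ 2 * ((2 * K ^ e1) ^ 2 * (P / K ^ E)) * 2) ≤
      (C / (D * K ^ (m + 3))) ^ 2 * (P / K ^ (B + 2)) / 3 := by
  have hK0 : 0 < K := by linarith
  have hK1' : 1 ≤ K := by linarith
  have e : 4 * s ^ 2 * (C ^ 2 * ((2 * K ^ e1) ^ 2 * (P / K ^ E)) * 2) =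
      (C / (D * K ^ (m + 3))) ^ 2 * (P / K ^ (B + 2)) * (32 * s ^ 2 * (K ^ e1 * K ^ e1 * (K ^ (m + 3)) ^ 2 * K ^ (B + 2)) * D ^ 2 / K ^ E) := by
    field_simp
    ring
  rw [e, div_eq_mul_inv _ (3 : ℝ)]
  refine mul_le_mul_of_nonneg_left ?_ (by positivity)
  rw [div_le_iff₀ (by positivity)]
  have h1 : K ^ e1 * K ^ e1 * (K ^ (m + 3)) ^ 2 * K ^ (B + 2) = K ^ (2 * e1 + 2 * m + B + 8) := by
    rw [← pow_mul, ← pow_add, ← pow_add, ← pow_add]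
    congr 1
    ring
  rw [h1]
  have h2 : D ^ 2 ≤ K ^ (2 * CD) := by
    calc D ^ 2 ≤ (K ^ CD) ^ 2 := pow_le_pow_left₀ hD.le hDK 2
      _ = K ^ (2 * CD) := by rw [← pow_mul, mul_comm]
  have h3 : K ^ E = K ^ (2 * e1 + 2 * m + B + 8) * K ^ (2 * CD) * K ^ 2 := by
    rw [← pow_add, ← pow_add, hE]
    congr 1
    ring
  rw [h3]
  have h4 : 32 * s ^ 2 ≤ (1 / 3) * K ^ 2 := by nlinarith
  have h5 : 0 ≤ K ^ (2 * e1 + 2 * m + B + 8) := by positivity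
  have h6 : (3 : ℝ)⁻¹ = 1 / 3 := by norm_num
  rw [h6]
  calc 32 * s ^ 2 * K ^ (2 * e1 + 2 * m + B + 8) * D ^ 2
      ≤ (1 / 3) * K ^ 2 * K ^ (2 * e1 + 2 * m + B + 8) * K ^ (2 * CD) := by
        refine mul_le_mul ?_ h2 (by positivity) (by positivity)
        exact mul_le_mul_of_nonneg_right h4 h5
    _ = 1 / 3 * (K ^ (2 * e1 + 2 * m + B + 8) * K ^ (2 * CD) * K ^ 2) := by ring

open Classical in
private theorem qn5c_nF {S : MS} {k : ℕ} (hk : S.k = k) (hC2 : ((k + 1 : ℕ) : ℝ) ^ (2 * S.n0) ≤ 2 * S.CC.card) :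
    (((S.CC ×ˢ S.CC).filter fun q => Fun q.1 q.2).card : ℝ) ≤ 2 * ((k + 1 : ℕ) : ℝ) ^ (k + 1) * S.CC.card := by
  subst hk
  have h1 : ((S.CC ×ˢ S.CC).filter fun q => Fun q.1 q.2).card ≤
      ((univ : Finset ((FE S.n0 → Fin (S.k + 1)) × (FE S.n0 → Fin (S.k + 1)))).filter
        fun q => ∃ ψ : Fin (S.k + 1) → Fin (S.k + 1), q.2 = ψ ∘ q.1).card := by
    refine card_le_card ?_
    intro q hq
    rw [mem_filter] at hq ⊢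
    exact ⟨mem_univ _, hq.2⟩
  have h2 := h1.trans (T10_card S.k (E := FE S.n0))
  have h3 : Fintype.card (FE S.n0) = 2 * S.n0 := by
    rw [Fintype.card_sum, Fintype.card_fin]
    ring
  rw [h3] at h2
  have h4 : (((S.CC ×ˢ S.CC).filter fun q => Fun q.1 q.2).card : ℝ) ≤
      ((S.k + 1 : ℕ) : ℝ) ^ (S.k + 1) * ((S.k + 1 : ℕ) : ℝ) ^ (2 * S.n0) := by exact_mod_cast h2
  refine h4.trans ?_
  calc ((S.k + 1 : ℕ) : ℝ) ^ (S.k + 1) * ((S.k + 1 : ℕ) : ℝ) ^ (2 * S.n0) ≤ ((S.k + 1 : ℕ) : ℝ) ^ (S.k + 1) * (2 * S.CC.card) :=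
        mul_le_mul_of_nonneg_left hC2 (by positivity)
    _ = _ := by ring

theorem QN5_L (c : PC) (hc : c.OK) : ∃ N0 : ℕ, ∀ (S : MS) (T : Dat) (M : Msr S) (W0 : ℕ) (Z : Fin (S.k + 1) → ℕ) (p1 Q0 pb : ℕ) (η : ℝ),
    PH c S T M W0 Z p1 Q0 pb η → N0 ≤ T.N →
    ∑ μ ∈ S.MX, ∑ ν ∈ S.MY, ind (M.gp T μ ν) * ∑ n ∈ range (M.nm + 1), M.Om μ ν n *
      (ind (IsCoprime (M.X μ ν n : ℤ) (W0 : ℤ)) * (M.RR T c.b1 c.b2 μ ν (M.X μ ν n) - M.RR1 T c.b1 c.b2 μ ν (M.X μ ν n)) ^ 2) ≤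
    E0 S T ^ 2 * (M.W * M.tot1 / (Real.log T.N) ^ (c.B + 2)) := by
  have hkk : ∀ e : ℕ, Filter.Tendsto (fun N : ℕ => (Real.log N) ^ (1 / 100 : ℝ)) Filter.atTop Filter.atTop :=
    fun _ => (tendsto_rpow_atTop (by norm_num)).comp (Real.tendsto_log_atTop.comp tendsto_natCast_atTop_atTop)
  obtain ⟨n1, h1⟩ := QN1 c hc
  obtain ⟨n1', h1'⟩ := QN1_U c hc
  obtain ⟨n2, h2⟩ := QN2 c hc
  obtain ⟨n3, h3⟩ := QN3 c hc
  obtain ⟨n4, h4⟩ := QN4 c hc (2 * (12 * c.b1 * (c.CY + 1)) + 2 * c.CD + 2 * (c.k + 1) + c.B + 10)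
  obtain ⟨n5, h5⟩ := ((hkk 0).eventually_ge_atTop (2 * ((c.k + 1 : ℕ) : ℝ) ^ (c.k + 1) + 200 +
    (602 * ((c.k + 1 : ℕ) : ℝ) ^ 3 + 5 * ((c.k + 1 : ℕ) : ℝ) ^ 2))).exists_forall_of_atTop
  refine ⟨n1 + n1' + n2 + n3 + n4 + n5, ?_⟩
  intro S T M W0 Z p1 Q0 pb η hPH hN
  obtain ⟨-, -, -, -, -, -, hNJy, hNJz⟩ := h1 S T M W0 Z p1 Q0 pb η hPH (by omega)
  obtain ⟨hU40, hU4, -, -, hU60, hU6, hMA0, hMA⟩ := h1' S T M W0 Z p1 Q0 pb η hPH (by omega)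
  obtain ⟨-, -, hV30, hV3⟩ := h2 S T M W0 Z p1 Q0 pb η hPH (by omega)
  obtain ⟨hQ0, -, hDS, hq, -, -, η', hη0, hsX, hsY, hη2, -⟩ := h3 S T M W0 Z p1 Q0 pb η hPH (by omega)
  obtain ⟨htot, -, -, herL0, herL, -⟩ := h4 S T M W0 Z p1 Q0 pb η hPH (by omega)
  have hbig := h5 T.N (by omega)
  have hnF := qn5c_nF hPH.hk hPH.hC2
  have hQ24 := Q24 hPH.hT hPH.hS hPH.hA hPH.hM hη0 hsX hsY hQ0 hc.b1p hc.b2p hq _ hnF
  refine hQ24.trans ?_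
  -- numbers
  have hk := hPH.hk
  obtain ⟨m, hm⟩ : ∃ m : ℕ, m = c.k + 1 := ⟨_, rfl⟩
  rw [hk, ← hm]
  rw [← hm] at hbig
  set K := Real.log T.N with hK
  set s := K ^ (1 / 100 : ℝ) with hs
  have hmm : (0 : ℝ) ≤ 2 * (m : ℝ) ^ m := by positivity
  have hm3 : (0 : ℝ) ≤ 602 * (m : ℝ) ^ 3 + 5 * (m : ℝ) ^ 2 := by positivity
  have hs200 : 200 ≤ s := by linarith
  have hs1 : 1 ≤ s := by linarith
  have hK0 : 0 ≤ K := Real.log_natCast_nonneg _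
  have hsK : s ^ 100 = K := by
    rw [hs, ← Real.rpow_natCast, ← Real.rpow_mul hK0]
    norm_num
  have hsle : ∀ j : ℕ, j ≤ 100 → s ^ j ≤ K := fun j hj => by
    rw [← hsK]
    exact pow_le_pow_right₀ hs1 hj
  have hK200 : 200 ≤ K := by
    have := hsle 1 (by norm_num)
    rw [pow_one] at this
    linarith
  have hKpos : 0 < K := by linarith
  have hK1 : 1 ≤ K := by linarith
  have hs2 : K ^ (1 / 50 : ℝ) = s ^ 2 := by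
    rw [hs, ← Real.rpow_natCast, ← Real.rpow_mul hK0]
    norm_num
  have hs5 : K ^ (1 / 20 : ℝ) = s ^ 5 := by
    rw [hs, ← Real.rpow_natCast, ← Real.rpow_mul hK0]
    norm_num
  have hs3m : K ^ (3 * ((c.k : ℝ) + 1) + 1 / 20) = K ^ (3 * m) * s ^ 5 := by
    rw [Real.rpow_add hKpos, hs5]
    congr 1
    rw [← Real.rpow_natCast]
    congr 1
    rw [hm]
    push_cast
    ring
  rw [hs2] at hU4 hU6
  rw [hs5] at hMA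
  rw [hs3m] at hV3
  have hD0 : (0 : ℝ) < T.D := by exact_mod_cast hPH.hT.D_pos
  obtain ⟨P, hP⟩ : ∃ P, P = M.W * M.tot1 := ⟨_, rfl⟩
  have hP0 : 0 ≤ P := by
    rw [hP]
    exact (mul_pos hPH.hM.W_pos htot).le
  rw [← hP]
  rw [← hP] at herL
  obtain ⟨C, hC⟩ : ∃ C : ℝ, C = (S.CC.card : ℝ) := ⟨_, rfl⟩
  have hCD := hPH.hC1
  rw [← hK, ← hm, ← hC] at hCD
  have hCpos : 0 < C := lt_of_lt_of_le (by positivity) hCD
  have hE0 : E0 S T = C / (T.D * K ^ (m + 3)) := by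
    unfold E0
    rw [hk, ← hC, ← hK, hm]
  rw [hE0, ← hC]
  -- the small quantities
  have hy0 : K ^ c.CY ≤ T.y0 := hPH.hy1
  have hKY : 0 < K ^ c.CY := by positivity
  have hy0p : (0 : ℝ) < T.y0 := lt_of_lt_of_le hKY hy0
  have hth : th0 S T + 5 * ((m : ℕ) : ℝ) ^ 2 / ((p1 : ℝ) - 1) ≤ K ^ 2 / K ^ c.CY := by
    have a1 : th0 S T ≤ 602 * (m : ℝ) ^ 3 * K / K ^ c.CY := by
      unfold th0
      rw [hk, ← hm, ← hK]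
      have b1 : 300 * (m : ℝ) ^ 2 * K + 1 ≤ 301 * (m : ℝ) ^ 2 * K := by
        have b2 : (1 : ℝ) ≤ m := by
          rw [hm]
          exact_mod_cast (by omega : 1 ≤ c.k + 1)
        have b3 : 1 ≤ (m : ℝ) ^ 2 * K := by
          have : 1 ≤ (m : ℝ) ^ 2 := one_le_pow₀ b2
          nlinarith
        linarith
      calc (300 * (m : ℝ) ^ 2 * K + 1) * (2 * (m : ℝ) / T.y0) ≤ (301 * (m : ℝ) ^ 2 * K) * (2 * (m : ℝ) / K ^ c.CY) := by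
            refine mul_le_mul b1 ?_ (by positivity) (by positivity)
            exact div_le_div_of_nonneg_left (by positivity) hKY hy0
        _ = 602 * (m : ℝ) ^ 3 * K / K ^ c.CY := by ring
    have a2 : 5 * (m : ℝ) ^ 2 / ((p1 : ℝ) - 1) ≤ 5 * (m : ℝ) ^ 2 * K / K ^ c.CY := by
      have b1 : (T.y0 : ℝ) ≤ (p1 : ℝ) - 1 := by
        have : T.y0 + 1 ≤ p1 := hPH.hA.p1_lo
        have : ((T.y0 + 1 : ℕ) : ℝ) ≤ p1 := by exact_mod_cast this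
        push_cast at this
        linarith
      calc 5 * (m : ℝ) ^ 2 / ((p1 : ℝ) - 1) ≤ 5 * (m : ℝ) ^ 2 / K ^ c.CY :=
            div_le_div_of_nonneg_left (by positivity) hKY (hy0.trans b1)
        _ ≤ _ := by
            refine div_le_div_of_nonneg_right ?_ hKY.le
            exact le_mul_of_one_le_right (by positivity) hK1
    have a3 : (602 * (m : ℝ) ^ 3 + 5 * (m : ℝ) ^ 2) * K ≤ K ^ 2 := by
      have b1 := hsle 1 (by norm_num)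
      rw [pow_one] at b1
      rw [sq K]
      exact mul_le_mul_of_nonneg_right (by linarith) hK0
    calc th0 S T + 5 * ((m : ℕ) : ℝ) ^ 2 / ((p1 : ℝ) - 1) ≤ 602 * (m : ℝ) ^ 3 * K / K ^ c.CY + 5 * (m : ℝ) ^ 2 * K / K ^ c.CY :=
          add_le_add a1 a2
      _ = (602 * (m : ℝ) ^ 3 + 5 * (m : ℝ) ^ 2) * K / K ^ c.CY := by ring
      _ ≤ _ := div_le_div_of_nonneg_right a3 hKY.le
  have hth0 : 0 ≤ th0 S T + 5 * ((m : ℕ) : ℝ) ^ 2 / ((p1 : ℝ) - 1) := by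
    have b0 : 0 ≤ th0 S T := by
      unfold th0
      rw [← hK]
      positivity
    have b1 : (2 : ℝ) ≤ p1 := by exact_mod_cast hPH.hA.p1_pr.two_le
    have b2 : 0 ≤ 5 * ((m : ℕ) : ℝ) ^ 2 / ((p1 : ℝ) - 1) := div_nonneg (by positivity) (by linarith)
    linarith
  have hX1 : C ^ 2 * (U4 S T * (MA S T c.Cα * (th0 S T + 5 * ((m : ℕ) : ℝ) ^ 2 / ((p1 : ℝ) - 1)))) ≤
      C ^ 2 * (s ^ 2 * ((s ^ 5 / (T.D : ℝ) ^ 2) * (K ^ 2 / K ^ c.CY))) := by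
    refine mul_le_mul_of_nonneg_left ?_ (by positivity)
    refine mul_le_mul hU4 ?_ (mul_nonneg hMA0 hth0) (by positivity)
    exact mul_le_mul hMA hth hth0 (by positivity)
  have hX2 : 2 * ((m : ℕ) : ℝ) ^ m * C * (U4 S T * (2 * U6 T W0)) ≤ (s * C) * (s ^ 2 * (2 * (s ^ 2 / T.D))) := by
    refine mul_le_mul ?_ ?_ (mul_nonneg hU40 (by linarith)) (by positivity)
    · exact mul_le_mul_of_nonneg_right (by linarith) hCpos.le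
    · exact mul_le_mul hU4 (by linarith) (by linarith) (by positivity)
  have hX10 : 0 ≤ C ^ 2 * (U4 S T * (MA S T c.Cα * (th0 S T + 5 * ((m : ℕ) : ℝ) ^ 2 / ((p1 : ℝ) - 1)))) := by positivity
  have hX20 : 0 ≤ 2 * ((m : ℕ) : ℝ) ^ m * C * (U4 S T * (2 * U6 T W0)) := by positivity
  have hTh : M.Th0 T ≤ 4 * s ^ 2 * (K ^ (3 * m) * s ^ 5) := by
    unfold Msr.Th0
    refine mul_le_mul ?_ hV3 hV30 (by positivity)
    refine mul_le_mul_of_nonneg_left ?_ (by norm_num)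
    exact pow_le_pow_left₀ (by positivity) hNJz 2
  have hTh0 : 0 ≤ M.Th0 T := by
    unfold Msr.Th0
    positivity
  have hη1 : 0 ≤ (1 + η') ^ (2 * S.n0) := by positivity
  have hNJ2 : ((NJ T.y0 : ℝ) + 2) ^ 2 ≤ s ^ 2 := pow_le_pow_left₀ (by positivity) hNJy 2
  have hDS2 : ((T.DS c.b1).card : ℝ) ^ 2 ≤ (2 * K ^ (12 * c.b1 * (c.CY + 1))) ^ 2 := pow_le_pow_left₀ (by positivity) hDS 2
  have hmain : 4 * ((NJ T.y0 : ℝ) + 2) ^ 2 * (P * (M.Th0 T * ((1 + η') ^ (2 * S.n0) *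
      (C ^ 2 * (U4 S T * (MA S T c.Cα * (th0 S T + 5 * ((m : ℕ) : ℝ) ^ 2 / ((p1 : ℝ) - 1)))) +
        2 * ((m : ℕ) : ℝ) ^ m * C * (U4 S T * (2 * U6 T W0))))) +
      C ^ 2 * ((T.DS c.b1).card ^ 2 * M.erL T W0 c.b1 c.b2 c.δ1) * 2) ≤
      4 * s ^ 2 * (P * (4 * s ^ 2 * (K ^ (3 * m) * s ^ 5) * (2 *
      (C ^ 2 * (s ^ 2 * ((s ^ 5 / (T.D : ℝ) ^ 2) * (K ^ 2 / K ^ c.CY))) + (s * C) * (s ^ 2 * (2 * (s ^ 2 / T.D)))))) +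
      C ^ 2 * ((2 * K ^ (12 * c.b1 * (c.CY + 1))) ^ 2 *
        (P / K ^ (2 * (12 * c.b1 * (c.CY + 1)) + 2 * c.CD + 2 * (c.k + 1) + c.B + 10))) * 2) := by
    refine mul_le_mul (mul_le_mul_of_nonneg_left hNJ2 (by norm_num)) ?_ (by positivity) (by positivity)
    refine add_le_add ?_ ?_
    · refine mul_le_mul_of_nonneg_left ?_ hP0
      refine mul_le_mul hTh ?_ (by positivity) (by positivity)
      exact mul_le_mul hη2 (add_le_add hX1 hX2) (by positivity) (by norm_num)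
    · refine mul_le_mul_of_nonneg_right ?_ (by norm_num)
      refine mul_le_mul_of_nonneg_left ?_ (by positivity)
      exact mul_le_mul hDS2 herL herL0 (by positivity)
  refine hmain.trans ?_
  have t1 := qn5c_T1 (C := C) (m := m) (CY := c.CY) (B := c.B) (CD := c.CD) (by linarith) hs1 (hsle 16 (by norm_num)) hD0 hP0
    (by have := hc.Y1; rw [hm]; omega)
  have t2 := qn5c_T2 (m := m) (B := c.B) (by linarith) hs1 (hsle 14 (by norm_num)) hD0 hP0 hCpos hCD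
  have t3 := qn5c_T3 (C := C) (m := m) (B := c.B) (e1 := 12 * c.b1 * (c.CY + 1)) (CD := c.CD) (by linarith) hs1
    (hsle 2 (by norm_num)) hD0 hP0 hPH.hD (E := 2 * (12 * c.b1 * (c.CY + 1)) + 2 * c.CD + 2 * (c.k + 1) + c.B + 10) (by rw [hm])
  have e1 : 4 * s ^ 2 * (P * (4 * s ^ 2 * (K ^ (3 * m) * s ^ 5) * (2 *
      (C ^ 2 * (s ^ 2 * ((s ^ 5 / (T.D : ℝ) ^ 2) * (K ^ 2 / K ^ c.CY))) + (s * C) * (s ^ 2 * (2 * (s ^ 2 / T.D)))))) +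
      C ^ 2 * ((2 * K ^ (12 * c.b1 * (c.CY + 1))) ^ 2 *
        (P / K ^ (2 * (12 * c.b1 * (c.CY + 1)) + 2 * c.CD + 2 * (c.k + 1) + c.B + 10))) * 2) =
      4 * s ^ 2 * (P * (4 * s ^ 2 * (K ^ (3 * m) * s ^ 5) * (2 * (C ^ 2 * (s ^ 2 * ((s ^ 5 / (T.D : ℝ) ^ 2) * (K ^ 2 / K ^ c.CY))))))) +
      4 * s ^ 2 * (P * (4 * s ^ 2 * (K ^ (3 * m) * s ^ 5) * (2 * ((s * C) * (s ^ 2 * (2 * (s ^ 2 / T.D))))))) +
      4 * s ^ 2 * (C ^ 2 * ((2 * K ^ (12 * c.b1 * (c.CY + 1))) ^ 2 *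
        (P / K ^ (2 * (12 * c.b1 * (c.CY + 1)) + 2 * c.CD + 2 * (c.k + 1) + c.B + 10))) * 2) := by ring
  rw [e1]
  linarith

end Pool.Agent.Lib.TC
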