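
import Pool.Agent.Lib.MP_7b7e48_nt.TC.QN4
import Pool.Agent.Lib.MP_7b7e48_nt.TC.Q27

/-!
# QN5d (part of the proof of the pair theorem; common plan of QN5a - QN5e, QN6)

`K = log N`, `m = k + 1`, `e0 = E0 = |CC|/(D K^(k+4))`. Combine `Q28` with `Q23`, `Q24`, `Q26`, `Q27`, `Q25` and the numerics. `nF = (k+1)^(k+1) (k+1)^(2 n0) ≤ 2 (k+1)^(k+1) |CC|` (`T10_card`, `hC2`), `nD = 4^k (k (k+1))^(2 n0)` (`T09`; `card (FE n0) = 2 n0`), `nD ≤ |CC|²/K^(B+10)` (`hC3`),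
`D ≤ |CC|/K^(5m+B+10)` (`hC1`), `κ = 2 (NJ y0 + 1) VL ≤ K^(-m + 1/10)`.
* `hwb`: `wb ≥ (1/4) 1/(2^|base| W0^k D) VS VL ≥ K^(-m - 1/5)/(4 D) ≥ 2/(D K^(k+4))`.
* `QN5_S`: `SS/e0² ≤ W tot1 / K^(B+3)`: `κ²/e0² ≤ K^(-2m + 1/5) D² K^(2k+8)/|CC|² = D² K^(6 + 1/5)/|CC|²`; the three terms: `|DS|² ((1+η')^(2n0) - 1 + ξ) D² K^7 ≤ K^(24 b1 (CY+1) + 2 CD + 10 - Cη)`; `nD`-term `≤ K^7 K^(1/4) · 8/K^(B+10)`; `nF`-term `≤ 8 nF D K^7/|CC|² ≤ K^8 D/|CC|`; errors by `QN4` with `E` large.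
  (`ξ = 12 K^4 exp(-K^(1/5))` is smaller than any power of `1/K`.)
* `QN5_L`: `SL/e0² ≤ W tot1/K^(B+3)`: `4 (NJ y0 + 2)² Th0 ≤ K^(3m + 1/5)`; first term: `K^(3m + 2/5) K^(2k+8) (th0 + 5 m²/(p1-1))`, `th0 + 5m²/(p1 - 1) ≤ K^(5/4)/y0 ≤ K^(5/4 - CY)` (`p1 > y0`), `CY ≥ 5 m + B + 11`; second: `K^(3m + 1/2) nF D K^(2k+8)/|CC|² ≤ K^(5m + 7) D/|CC|`.
* `QN5_F`: `SF/e0 ≤ 300 (k+2)^4 · 32 K^(k+9)/y0 W tot1 + errors ≤ W tot1/K^(B+2)`.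
* masses: `12 K^4/y0 + m² (6 Cα)^(k-1) 2/pb^(k-2) ≤ 1/K^(B+2)` (`pb ≥ K`, `k - 2 ≥ B + 3`).
-/

set_option autoImplicit false

open Finset

namespace Pool.Agent.Lib.TC

private theorem QN5d_num {K D y z X R C m : ℝ} {k B CD CY : ℕ} (hC : 1 ≤ C) (hm : m ≤ C) (hK : 100 * C ≤ K)
    (hD0 : 0 < D) (hD : D ≤ K ^ CD) (hy : K ^ CY ≤ y) (hz : 1 ≤ z) (hX : 0 < X) (hR : 0 ≤ R)
    (hRz : R * z ≤ X / K ^ (CD + k + B + 9)) (hCY : k + B + 12 ≤ CY) :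
    C * K * (32 * K ^ 4 / (y * D) * X + R) + m * z * R ≤ 1 / (D * K ^ (k + 4)) * (X / K ^ (B + 2)) := by
  have hK0 : 0 < K := by linarith
  have hK1 : 1 ≤ K := by linarith
  have hCK : C / K ≤ 1 / 100 := by
    rw [div_le_div_iff₀ hK0 (by norm_num)]
    linarith
  have hP0 : 0 < X / (D * K ^ (k + B + 6)) := by positivity
  have hy0 : 0 < y := lt_of_lt_of_le (by positivity) hy
  have h1 : C * K * (32 * K ^ 4 / (y * D) * X) ≤ 32 / 100 * (X / (D * K ^ (k + B + 6))) := by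
    have e1 : K ^ (k + B + 12) ≤ y := (pow_le_pow_right₀ hK1 hCY).trans hy
    calc C * K * (32 * K ^ 4 / (y * D) * X) = 32 * C * K ^ 5 * X / (y * D) := by ring
      _ ≤ 32 * C * K ^ 5 * X / (K ^ (k + B + 12) * D) := by gcongr
      _ = 32 * (C / K) * (X / (D * K ^ (k + B + 6))) := by
          have e2 : K ^ (k + B + 12) = K ^ (k + B + 6) * K ^ 5 * K := by ring
          rw [e2]
          field_simp
      _ ≤ 32 * (1 / 100) * (X / (D * K ^ (k + B + 6))) := by gcongr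
      _ = 32 / 100 * (X / (D * K ^ (k + B + 6))) := by ring
  have h2 : C * K * (R * z) ≤ 1 / 100 * (X / (D * K ^ (k + B + 6))) := by
    calc C * K * (R * z) ≤ C * K * (X / K ^ (CD + k + B + 9)) := by gcongr
      _ = C / K ^ 2 * (X / (K ^ CD * K ^ (k + B + 6))) := by
          have e2 : K ^ (CD + k + B + 9) = K ^ CD * K ^ (k + B + 6) * K ^ 3 := by ring
          rw [e2]
          field_simp
      _ ≤ C / K * (X / (D * K ^ (k + B + 6))) := by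
          gcongr
          nlinarith
      _ ≤ 1 / 100 * (X / (D * K ^ (k + B + 6))) := by gcongr
  have h3 : C * K * R ≤ C * K * (R * z) := by
    have e1 : R ≤ R * z := by nlinarith
    gcongr
  have h4 : m * z * R ≤ C * K * (R * z) := by
    have e1 : 0 ≤ R * z := by positivity
    have e2 : m ≤ C * K := by nlinarith
    calc m * z * R = m * (R * z) := by ring
      _ ≤ C * K * (R * z) := mul_le_mul_of_nonneg_right e2 e1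
  have h5 : 1 / (D * K ^ (k + 4)) * (X / K ^ (B + 2)) = X / (D * K ^ (k + B + 6)) := by
    have e2 : K ^ (k + B + 6) = K ^ (k + 4) * K ^ (B + 2) := by ring
    rw [e2]
    field_simp
  rw [h5, mul_add]
  linarith

theorem QN5_F (c : PC) (hc : c.OK) : ∃ N0 : ℕ, ∀ (S : MS) (T : Dat) (M : Msr S) (W0 : ℕ) (Z : Fin (S.k + 1) → ℕ) (p1 Q0 pb : ℕ) (η : ℝ),
    PH c S T M W0 Z p1 Q0 pb η → N0 ≤ T.N →
    ∑ μ ∈ S.MX, ∑ ν ∈ S.MY, ind (M.gp T μ ν) * ∑ n ∈ range (M.nm + 1), M.Om μ ν n *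
      (ind (M.Cd T μ ν n) * ∑ x ∈ S.CC, M.fm T x μ ν (M.X μ ν n)) ≤
    E0 S T * (M.W * M.tot1 / (Real.log T.N) ^ (c.B + 2)) := by
  obtain ⟨N1, hN1⟩ := QN4 c hc (c.CD + c.k + c.B + 9)
  set C : ℝ := 300 * ((c.k : ℝ) + 2) ^ 4 with hCdef
  refine ⟨N1 + ⌈Real.exp (100 * C)⌉₊ + 3, ?_⟩
  intro S T M W0 Z p1 Q0 pb η h hN
  obtain ⟨h1, -, -, -, -, h2⟩ := hN1 S T M W0 Z p1 Q0 pb η h (by omega)
  have hk := h.hk
  have hkr : (S.k : ℝ) = c.k := by exact_mod_cast hk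
  have hC1 : 1 ≤ C := by
    have e1 : (1 : ℝ) ≤ ((c.k : ℝ) + 2) ^ 4 := one_le_pow₀ (by
      have : (0 : ℝ) ≤ c.k := Nat.cast_nonneg _
      linarith)
    rw [hCdef]
    linarith
  have hNpos : (0 : ℝ) < T.N := by exact_mod_cast (by omega : 0 < T.N)
  have hN1' : (1 : ℝ) ≤ T.N := by exact_mod_cast (by omega : 1 ≤ T.N)
  have hK : 100 * C ≤ Real.log T.N := by
    rw [Real.le_log_iff_exp_le hNpos]
    refine (Nat.le_ceil _).trans ?_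
    exact_mod_cast (by omega : ⌈Real.exp (100 * C)⌉₊ ≤ T.N)
  have hζ : c.ζ ≤ c.δ0 := by
    have e1 := hc.ζ0
    have e2 := hc.ζp
    have e3 : (1 : ℝ) ≤ c.b2 := by exact_mod_cast hc.b2p
    nlinarith
  have hz : (T.z : ℝ) ≤ (T.N : ℝ) ^ c.δ0 :=
    h.hz2.trans (Real.rpow_le_rpow_of_exponent_le hN1' hζ)
  have hmain := Q27 h.hT h.hS h.hA h.hM hz hc.δ0p.le (by linarith)
  refine hmain.trans ?_
  have hD0 : (0 : ℝ) < T.D := by exact_mod_cast h.hT.D_pos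
  have hz1 : (1 : ℝ) ≤ T.z := by
    have e1 := h.hT.y0_lt
    exact_mod_cast (by omega : 1 ≤ T.z)
  have hW := h.hM.W_pos
  have hR : 0 ≤ (S.MX.card : ℝ) * S.MY.card * ((T.N : ℝ) ^ (-c.δ1) * M.W) := by positivity
  have hCY : S.k + c.B + 12 ≤ c.CY := by
    have := hc.Y1
    omega
  have hm : (S.k : ℝ) + 1 ≤ C := by
    rw [hkr, hCdef]
    have e0 : (0 : ℝ) ≤ c.k := Nat.cast_nonneg _
    have e1 : (c.k : ℝ) + 2 ≤ ((c.k : ℝ) + 2) ^ 4 := le_self_pow₀ (by linarith) (by norm_num)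
    linarith
  rw [← hk] at h2
  have hnum := QN5d_num (k := S.k) (B := c.B) (y := T.y0) hC1 hm hK hD0 h.hD h.hy1 hz1
    (mul_pos hW h1) hR h2 hCY
  unfold E0
  have e1 : (S.CC.card : ℝ) / (T.D * Real.log T.N ^ (S.k + 4)) * (M.W * M.tot1 / Real.log T.N ^ (c.B + 2)) =
      S.CC.card * (1 / (T.D * Real.log T.N ^ (S.k + 4)) * (M.W * M.tot1 / Real.log T.N ^ (c.B + 2))) := by ring
  rw [e1]
  refine mul_le_mul_of_nonneg_left ?_ (Nat.cast_nonneg _)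
  refine le_trans (le_of_eq ?_) hnum
  rw [hCdef, ← hkr]

end Pool.Agent.Lib.TC
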