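import Pool.Agent.Lib.MP_7b7e48_nt.TC.QN3
import Pool.Agent.Lib.MP_7b7e48_nt.TC.QN4
import Pool.Agent.Lib.MP_7b7e48_nt.TC.Q26

/-!
# QN5e (part of the proof of the pair theorem; common plan of QN5a - QN5e, QN6)

`K = log N`, `m = k + 1`, `e0 = E0 = |CC|/(D K^(k+4))`. Combine `Q28` with `Q23`, `Q24`, `Q26`, `Q27`, `Q25` and the numerics. `nF = (k+1)^(k+1) (k+1)^(2 n0) ≤ 2 (k+1)^(k+1) |CC|` (`T10_card`, `hC2`), `nD = 4^k (k (k+1))^(2 n0)` (`T09`; `card (FE n0) = 2 n0`), `nD ≤ |CC|²/K^(B+10)` (`hC3`),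
`D ≤ |CC|/K^(5m+B+10)` (`hC1`), `κ = 2 (NJ y0 + 1) VL ≤ K^(-m + 1/10)`.
* `hwb`: `wb ≥ (1/4) 1/(2^|base| W0^k D) VS VL ≥ K^(-m - 1/5)/(4 D) ≥ 2/(D K^(k+4))`.
* `QN5_S`: `SS/e0² ≤ W tot1 / K^(B+3)`: `κ²/e0² ≤ K^(-2m + 1/5) D² K^(2k+8)/|CC|² = D² K^(6 + 1/5)/|CC|²`; the three terms: `|DS|² ((1+η')^(2n0) - 1 + ξ) D² K^7 ≤ K^(24 b1 (CY+1) + 2 CD + 10 - Cη)`; `nD`-term `≤ K^7 K^(1/4) · 8/K^(B+10)`; `nF`-term `≤ 8 nF D K^7/|CC|² ≤ K^8 D/|CC|`; errors by `QN4` with `E` large.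
  (`ξ = 12 K^4 exp(-K^(1/5))` is smaller than any power of `1/K`.)
* `QN5_L`: `SL/e0² ≤ W tot1/K^(B+3)`: `4 (NJ y0 + 2)² Th0 ≤ K^(3m + 1/5)`; first term: `K^(3m + 2/5) K^(2k+8) (th0 + 5 m²/(p1-1))`, `th0 + 5m²/(p1 - 1) ≤ K^(5/4)/y0 ≤ K^(5/4 - CY)` (`p1 > y0`), `CY ≥ 5 m + B + 11`; second: `K^(3m + 1/2) nF D K^(2k+8)/|CC|² ≤ K^(5m + 7) D/|CC|`.
* `QN5_F`: `SF/e0 ≤ 300 (k+2)^4 · 32 K^(k+9)/y0 W tot1 + errors ≤ W tot1/K^(B+2)`.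
* masses: `12 K^4/y0 + m² (6 Cα)^(k-1) 2/pb^(k-2) ≤ 1/K^(B+2)` (`pb ≥ K`, `k - 2 ≥ B + 3`).
-/

set_option autoImplicit false

open Finset

namespace Pool.Agent.Lib.TC

private theorem QN5e_tot1 {S : MS} {T : Dat} {W0 : ℕ} {Z : Fin (S.k + 1) → ℕ} {M : Msr S} {δ0 δ1 : ℝ} (hS : S.OK T W0 Z)
    (hM : M.OK T W0 δ0 δ1) : 0 ≤ M.tot1 := by
  unfold Msr.tot1
  exact sum_nonneg fun μ hμ => sum_nonneg fun ν hν => QAx_m1 hS hM hμ hν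

theorem QN5_m (c : PC) (hc : c.OK) : ∃ N0 : ℕ, ∀ (S : MS) (T : Dat) (M : Msr S) (W0 : ℕ) (Z : Fin (S.k + 1) → ℕ) (p1 Q0 pb : ℕ) (η : ℝ),
    PH c S T M W0 Z p1 Q0 pb η → N0 ≤ T.N →
    ∑ μ ∈ S.MX, ∑ ν ∈ S.MY, M.m1 μ ν * ind (¬ M.adm μ ν) + ∑ μ ∈ S.MX, ∑ ν ∈ S.MY, M.m1 μ ν * ind (S.badpair T pb T.y0 μ ν) ≤
      M.tot1 / (Real.log T.N) ^ (c.B + 2) := by
  set C : ℝ := ((c.k + 1 : ℕ) : ℝ) ^ 2 * (6 * c.Cα) ^ (c.k - 1) * 2 with hC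
  have hα := hc.α1
  have hC0 : 0 ≤ C := by positivity
  obtain ⟨N0, hN0⟩ := Filter.eventually_atTop.1
    ((Real.tendsto_log_atTop.comp (tendsto_natCast_atTop_atTop (R := ℝ))).eventually_ge_atTop (24 + 2 * C))
  refine ⟨N0, fun S T M W0 Z p1 Q0 pb η h hN => ?_⟩
  have hK : 24 + 2 * C ≤ Real.log T.N := hN0 T.N hN
  set K := Real.log (T.N : ℝ) with hKd
  have hK24 : 24 ≤ K := by linarith
  have hK1 : 1 ≤ K := by linarith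
  have hK0 : 0 < K := by linarith
  have hk := hc.k1
  have hY := hc.Y1
  have hA := hc.A1
  have hy0 : 0 < (T.y0 : ℝ) := lt_of_lt_of_le (by positivity) h.hy1
  have htot := QN5e_tot1 h.hS h.hM
  have hpb0 : 1 ≤ pb := by
    have h1 : (1 : ℝ) ≤ pb := hK1.trans h.hpb
    exact_mod_cast h1
  have hQ : T.y0 * T.D ≤ Q0 := by
    have h1 : (T.y0 : ℝ) * T.D ≤ Q0 := by
      calc (T.y0 : ℝ) * T.D ≤ K ^ (c.CY + 1) * K ^ c.CD := by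
            apply mul_le_mul h.hy2 h.hD (Nat.cast_nonneg _) (by positivity)
        _ = K ^ (c.CY + 1 + c.CD) := (pow_add K (c.CY + 1) c.CD).symm
        _ ≤ K ^ c.A := pow_le_pow_right₀ hK1 (by omega)
        _ ≤ Q0 := h.hQ
    exact_mod_cast h1
  have h1 := Q26_adm h.hT h.hS h.hA h.hM
  have h2 := Q26_bad h.hT h.hS h.hA h.hM hQ hpb0
  have e1 : 12 * K ^ 4 / (T.y0 : ℝ) ≤ 1 / 2 * (1 / K ^ (c.B + 2)) := by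
    have h3 : 12 * K ^ 4 / (T.y0 : ℝ) ≤ 12 * K ^ 4 / K ^ c.CY := by
      apply div_le_div_of_nonneg_left (by positivity) (by positivity) h.hy1
    refine h3.trans ?_
    rw [div_le_iff₀ (by positivity)]
    have h4 : K ^ (c.B + 2 + 4 + 1) ≤ K ^ c.CY := pow_le_pow_right₀ hK1 (by omega)
    have h5 : 1 / 2 * (1 / K ^ (c.B + 2)) * K ^ (c.B + 2 + 4 + 1) = 1 / 2 * (K ^ 4 * K) := by
      have h6 : K ^ (c.B + 2 + 4 + 1) = K ^ (c.B + 2) * (K ^ 4 * K) := by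
        rw [pow_add, pow_add, pow_one]
        ring
      have h7 : K ^ (c.B + 2) ≠ 0 := by positivity
      rw [h6, mul_assoc, ← mul_assoc (1 / K ^ (c.B + 2)), one_div_mul_cancel h7, one_mul]
    calc 12 * K ^ 4 ≤ 1 / 2 * (K ^ 4 * K) := by nlinarith [pow_pos hK0 4]
      _ = 1 / 2 * (1 / K ^ (c.B + 2)) * K ^ (c.B + 2 + 4 + 1) := h5.symm
      _ ≤ _ := by gcongr
  have e2 : ((S.k + 1 : ℕ) : ℝ) ^ 2 * (6 * c.Cα) ^ (S.k - 1) * (2 / (pb : ℝ) ^ (S.k - 2)) ≤ 1 / 2 * (1 / K ^ (c.B + 2)) := by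
    rw [h.hk]
    have h3 : K ^ (c.B + 3) ≤ (pb : ℝ) ^ (c.k - 2) :=
      (pow_le_pow_right₀ hK1 (by omega)).trans (pow_le_pow_left₀ hK0.le h.hpb _)
    have h4 : 2 / (pb : ℝ) ^ (c.k - 2) ≤ 2 / K ^ (c.B + 3) := div_le_div_of_nonneg_left (by norm_num) (by positivity) h3
    calc ((c.k + 1 : ℕ) : ℝ) ^ 2 * (6 * c.Cα) ^ (c.k - 1) * (2 / (pb : ℝ) ^ (c.k - 2)) ≤
          ((c.k + 1 : ℕ) : ℝ) ^ 2 * (6 * c.Cα) ^ (c.k - 1) * (2 / K ^ (c.B + 3)) := by gcongr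
      _ = C / K ^ (c.B + 3) := by rw [hC]; ring
      _ ≤ 1 / 2 * (1 / K ^ (c.B + 2)) := by
          rw [div_le_iff₀ (by positivity)]
          have h5 : 1 / 2 * (1 / K ^ (c.B + 2)) * K ^ (c.B + 3) = K / 2 := by
            have h7 : K ^ (c.B + 2) ≠ 0 := by positivity
            have h6 : K ^ (c.B + 3) = K ^ (c.B + 2) * K := pow_succ K (c.B + 2)
            rw [h6, mul_assoc, ← mul_assoc (1 / K ^ (c.B + 2)), one_div_mul_cancel h7, one_mul]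
            ring
          rw [h5]
          linarith
  calc ∑ μ ∈ S.MX, ∑ ν ∈ S.MY, M.m1 μ ν * ind (¬ M.adm μ ν) + ∑ μ ∈ S.MX, ∑ ν ∈ S.MY, M.m1 μ ν * ind (S.badpair T pb T.y0 μ ν)
      ≤ 12 * K ^ 4 / T.y0 * M.tot1 + ((S.k + 1 : ℕ) : ℝ) ^ 2 * (6 * c.Cα) ^ (S.k - 1) * (2 / (pb : ℝ) ^ (S.k - 2)) * M.tot1 := add_le_add h1 h2
    _ ≤ 1 / 2 * (1 / K ^ (c.B + 2)) * M.tot1 + 1 / 2 * (1 / K ^ (c.B + 2)) * M.tot1 := by gcongr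
    _ = M.tot1 / K ^ (c.B + 2) := by ring

end Pool.Agent.Lib.TC
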