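import Pool.Agent.Lib.MP_7b7e48_nt.TC.QN5a
import Pool.Agent.Lib.MP_7b7e48_nt.TC.QN5b
import Pool.Agent.Lib.MP_7b7e48_nt.TC.QN5c
import Pool.Agent.Lib.MP_7b7e48_nt.TC.QN5d
import Pool.Agent.Lib.MP_7b7e48_nt.TC.QN5e
import Pool.Agent.Lib.MP_7b7e48_nt.TC.Q28

/-!
# QN6 (part of the proof of the pair theorem; common plan of QN5a - QN5e, QN6)

`K = log N`, `m = k + 1`, `e0 = E0 = |CC|/(D K^(k+4))`. Combine `Q28` with `Q23`, `Q24`, `Q26`, `Q27`, `Q25` and the numerics. `nF = (k+1)^(k+1) (k+1)^(2 n0) ≤ 2 (k+1)^(k+1) |CC|` (`T10_card`, `hC2`), `nD = 4^k (k (k+1))^(2 n0)` (`T09`; `card (FE n0) = 2 n0`), `nD ≤ |CC|²/K^(B+10)` (`hC3`),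
`D ≤ |CC|/K^(5m+B+10)` (`hC1`), `κ = 2 (NJ y0 + 1) VL ≤ K^(-m + 1/10)`.
* `hwb`: `wb ≥ (1/4) 1/(2^|base| W0^k D) VS VL ≥ K^(-m - 1/5)/(4 D) ≥ 2/(D K^(k+4))`.
* `QN5_S`: `SS/e0² ≤ W tot1 / K^(B+3)`: `κ²/e0² ≤ K^(-2m + 1/5) D² K^(2k+8)/|CC|² = D² K^(6 + 1/5)/|CC|²`; the three terms: `|DS|² ((1+η')^(2n0) - 1 + ξ) D² K^7 ≤ K^(24 b1 (CY+1) + 2 CD + 10 - Cη)`; `nD`-term `≤ K^7 K^(1/4) · 8/K^(B+10)`; `nF`-term `≤ 8 nF D K^7/|CC|² ≤ K^8 D/|CC|`; errors by `QN4` with `E` large.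
  (`ξ = 12 K^4 exp(-K^(1/5))` is smaller than any power of `1/K`.)
* `QN5_L`: `SL/e0² ≤ W tot1/K^(B+3)`: `4 (NJ y0 + 2)² Th0 ≤ K^(3m + 1/5)`; first term: `K^(3m + 2/5) K^(2k+8) (th0 + 5 m²/(p1-1))`, `th0 + 5m²/(p1 - 1) ≤ K^(5/4)/y0 ≤ K^(5/4 - CY)` (`p1 > y0`), `CY ≥ 5 m + B + 11`; second: `K^(3m + 1/2) nF D K^(2k+8)/|CC|² ≤ K^(5m + 7) D/|CC|`.
* `QN5_F`: `SF/e0 ≤ 300 (k+2)^4 · 32 K^(k+9)/y0 W tot1 + errors ≤ W tot1/K^(B+2)`.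
* masses: `12 K^4/y0 + m² (6 Cα)^(k-1) 2/pb^(k-2) ≤ 1/K^(B+2)` (`pb ≥ K`, `k - 2 ≥ B + 3`).
-/

set_option autoImplicit false

open Finset

namespace Pool.Agent.Lib.TC

private theorem QN6_num {e x w m K a z t : ℝ} {B : ℕ} (he : 0 < e) (hK : 3 ≤ K) (hx : x = w * t / K ^ (B + 2))
    (hx0 : 0 ≤ w * t) (hz : 1 ≤ z) (ha0 : 0 ≤ a) (ha : a * z ≤ x) (hm : m = t / K ^ (B + 2)) :
    e * x / e + 2 * (e ^ 2 * x + e ^ 2 * x) / e ^ 2 + (2 * w * m + a) ≤ w * t / K ^ B := by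
  have h1 : e * x / e = x := mul_div_cancel_left₀ _ he.ne'
  have h2 : 2 * (e ^ 2 * x + e ^ 2 * x) / e ^ 2 = 4 * x := by
    field_simp
    ring
  have h3 : 2 * w * m = 2 * x := by
    rw [hm, hx]
    ring
  have h4 : a ≤ x := by
    refine le_trans ?_ ha
    calc a = a * 1 := (mul_one a).symm
      _ ≤ a * z := mul_le_mul_of_nonneg_left hz ha0
  have hK0 : 0 < K := by linarith
  have h5 : 9 * x ≤ w * t / K ^ B := by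
    have h6 : w * t / K ^ B = K ^ 2 * x := by
      rw [hx, pow_add]
      field_simp
    have h7 : 0 ≤ x := by
      rw [hx]
      positivity
    have h8 : 9 ≤ K ^ 2 := by nlinarith
    rw [h6]
    exact mul_le_mul_of_nonneg_right h8 h7
  have h7 : 0 ≤ x := by
    rw [hx]
    positivity
  rw [h1, h2, h3]
  linarith

/-- **the pair theorem** -/
theorem PAIR (c : PC) (hc : c.OK) : ∃ N0 : ℕ, ∀ (S : MS) (T : Dat) (M : Msr S) (W0 : ℕ) (Z : Fin (S.k + 1) → ℕ) (p1 Q0 pb : ℕ) (η : ℝ),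
    PH c S T M W0 Z p1 Q0 pb η → N0 ≤ T.N →
    ∑ μ ∈ S.MX, ∑ ν ∈ S.MY, ind (¬ S.badpair T 0 pb μ ν) * ∑ n ∈ range (M.nm + 1), M.Om μ ν n *
      (ind (M.Cd T μ ν n) * ind (¬ S.Linked T μ ν (M.X μ ν n))) ≤ M.tot / (Real.log T.N) ^ c.B := by
  obtain ⟨N1, h1⟩ := QN5_wb c hc
  obtain ⟨N2, h2⟩ := QN5_S c hc
  obtain ⟨N3, h3⟩ := QN5_L c hc
  obtain ⟨N4, h4⟩ := QN5_F c hc
  obtain ⟨N5, h5⟩ := QN5_m c hc
  obtain ⟨N6, h6⟩ := QN4 c hc (c.B + 2)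
  refine ⟨N1 + N2 + N3 + N4 + N5 + N6 + ⌈Real.exp 3⌉₊, ?_⟩
  intro S T M W0 Z p1 Q0 pb η hP hN
  obtain ⟨he, hwb⟩ := h1 S T M W0 Z p1 Q0 pb η hP (by omega)
  have hSS := h2 S T M W0 Z p1 Q0 pb η hP (by omega)
  have hSL := h3 S T M W0 Z p1 Q0 pb η hP (by omega)
  have hSF := h4 S T M W0 Z p1 Q0 pb η hP (by omega)
  have hmN := h5 S T M W0 Z p1 Q0 pb η hP (by omega)
  obtain ⟨ht, -, -, -, -, hz⟩ := h6 S T M W0 Z p1 Q0 pb η hP (by omega)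
  have hNe : Real.exp 3 ≤ T.N := by
    refine (Nat.le_ceil _).trans ?_
    exact_mod_cast (by omega : ⌈Real.exp 3⌉₊ ≤ T.N)
  have hN0 : (0 : ℝ) < T.N := lt_of_lt_of_le (Real.exp_pos _) hNe
  have hK : 3 ≤ Real.log T.N := (Real.le_log_iff_exp_le hN0).2 hNe
  have hz1 : (1 : ℝ) ≤ T.z := by
    refine le_trans (Real.one_le_exp ?_) hP.hz1
    positivity
  have hW := hP.hM.W_pos
  have htot : M.tot = M.W * M.tot1 := by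
    unfold Msr.tot Msr.tot1 Msr.m1
    rw [Finset.sum_mul_sum]
  have hQ := Q28 (Cα := 0) (η := η) (Q0 := Q0) (p1 := p1) (b1 := c.b1) (b2 := c.b2) (pb := pb) hP.hT hP.hS hP.hM (E0 S T) he hwb _ _ _ _ hSS hSL hSF hmN
  refine hQ.trans ?_
  rw [htot]
  exact QN6_num (z := (T.z : ℝ)) he hK rfl (mul_pos hW ht).le hz1 (by positivity) hz rfl

end Pool.Agent.Lib.TC
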