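import Pool.Agent.Lib.MP_7b7e48_nt.TC.S7A

/-!
# S7B1: the window `a_0`

`a`, `a'` agree except at `0`; `n ≥ 1`.
* `th_unique`: `SmR n = Hs n 0 = a_0 G - R` (`Sm_Hs`, `Hs_G`) with `G = Gs n 0`, which does not contain `a_0` (it contains `a_l`, `1 ≤ l < n`, only), `R = Rs n 0`.
  `q ∣ a_0 G - R`, `(q, R) = 1`: so `(q, a_0 G) = 1`, `(q, G) = 1`; `q ∣ (a_0 - a'_0) G`.
* `X_unique`: `Us i Rs i = (∏_{l<i} a_l A_l) a_i Gs i - SmR n` (`U_G`), so `Ff = DN (a_0 J' - a_0 G + R) - Y (a_0 G - R) = (Y + DN) R - a_0 J`,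
  `J = (Y + DN) G - DN J'`, where `J' = G` for `i = 0` and `J' = A_0 (∏_{1≤l<i} a_l A_l) a_i Gs n i` for `i ≥ 1`; `J` does not contain `a_0`.
  `p ∤ (Y+DN) R`: so `p ∤ J`, and `p ∣ (a_0 - a'_0) J`.
-/

set_option autoImplicit false

open Finset

namespace Pool.Agent.Lib.TC

private theorem S7B1_congr {R : Type*} [CommRing R] {n i : ℕ} {A B a a' b b' : ℕ → R} (ha : ∀ j, i ≤ j → a j = a' j)
    (hb : ∀ j, i ≤ j → b j = b' j) : Hs n A B a b i = Hs n A B a' b' i := by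
  rw [Hs, Hs]
  apply sum_congr rfl
  intro j hj
  rw [mem_Ico] at hj
  have h1 : ∏ l ∈ Ico i j, a l * A l = ∏ l ∈ Ico i j, a' l * A l := by
    apply prod_congr rfl
    intro l hl
    rw [mem_Ico] at hl
    rw [ha l hl.1]
  have h2 : ∏ l ∈ Ico (j + 1) n, b l * B (l - 1) = ∏ l ∈ Ico (j + 1) n, b' l * B (l - 1) := by
    apply prod_congr rfl
    intro l hl
    rw [mem_Ico] at hl
    rw [hb l (by omega)]
  rw [h1, h2, ha j hj.1, hb j hj.1]

theorem th_unique {n : ℕ} (hn : 1 ≤ n) {A B a a' b : ℕ → ℤ} {q : ℤ} (ha : ∀ j, j ≠ 0 → a j = a' j)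
    (hq : IsCoprime q (Rs n B b 0)) (h : q ∣ SmR A B a b n) (h' : q ∣ SmR A B a' b n) : q ∣ a 0 - a' 0 := by
  have hG : Gs n A B a' b 0 = Gs n A B a b 0 := by
    rw [Gs, Gs, S7B1_congr (a := a') (a' := a) (b := b) (b' := b) (fun j hj => (ha j (by omega)).symm) (fun _ _ => rfl)]
  rw [Sm_Hs, Hs_G A B a b hn] at h
  rw [Sm_Hs, Hs_G A B a' b hn, hG] at h'
  have h1 : q ∣ (a 0 - a' 0) * Gs n A B a b 0 := by
    have := dvd_sub h h'
    rwa [show a 0 * Gs n A B a b 0 - Rs n B b 0 - (a' 0 * Gs n A B a b 0 - Rs n B b 0) =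
      (a 0 - a' 0) * Gs n A B a b 0 by ring] at this
  obtain ⟨k, hk⟩ := h
  have h2 : IsCoprime q (a 0 * Gs n A B a b 0) := by
    have h3 := hq.add_mul_left_right k
    rwa [show Rs n B b 0 + q * k = a 0 * Gs n A B a b 0 by linear_combination -hk] at h3
  exact (h2.of_mul_right_right).dvd_of_dvd_mul_right h1

private theorem S7B1_J {n i : ℕ} (hi : i < n) {A B a b : ℕ → ℤ} {DN Y : ℤ} : Ff n A B a b DN Y i =
    (Y + DN) * Rs n B b 0 - a 0 * (if i = 0 then Y * Gs n A B a b 0 else (Y + DN) * Gs n A B a b 0 -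
      DN * (A 0 * (∏ l ∈ Ico 1 i, a l * A l) * (a i * Gs n A B a b i))) := by
  have hn : 0 < n := by omega
  have h1 : SmR A B a b n = a 0 * Gs n A B a b 0 - Rs n B b 0 := by rw [Sm_Hs, Hs_G A B a b hn]
  have h2 := U_G A B a b hi
  have h3 : Us A B a b i * Rs n B b i = (∏ l ∈ range i, a l * A l) * (a i * Gs n A B a b i) - SmR A B a b n := by
    linear_combination h2
  rw [Ff, h3, h1]
  split_ifs with h0
  · subst h0
    rw [prod_range_zero]
    ring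
  · have h4 : ∏ l ∈ range i, a l * A l = a 0 * A 0 * ∏ l ∈ Ico 1 i, a l * A l := by
      rw [range_eq_Ico, prod_eq_prod_Ico_succ_bot (by omega : 0 < i)]
    rw [h4]
    ring

theorem X_unique {n i : ℕ} (hi : i < n) {A B a a' b : ℕ → ℤ} {p : ℤ} (hp : Prime p) {DN Y : ℤ} (ha : ∀ j, j ≠ 0 → a j = a' j)
    (hX : ¬ p ∣ (Y + DN) * Rs n B b 0) (h : p ∣ Ff n A B a b DN Y i) (h' : p ∣ Ff n A B a' b DN Y i) : p ∣ a 0 - a' 0 := by
  have hG : ∀ j, Gs n A B a' b j = Gs n A B a b j := by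
    intro j
    rw [Gs, Gs, S7B1_congr (a := a') (a' := a) (b := b) (b' := b) (fun j hj => (ha j (by omega)).symm) (fun _ _ => rfl)]
  have hP : ∏ l ∈ Ico 1 i, a' l * A l = ∏ l ∈ Ico 1 i, a l * A l := by
    apply prod_congr rfl
    intro l hl
    rw [mem_Ico] at hl
    rw [ha l (by omega)]
  have hJ : (if i = 0 then Y * Gs n A B a' b 0 else (Y + DN) * Gs n A B a' b 0 -
      DN * (A 0 * (∏ l ∈ Ico 1 i, a' l * A l) * (a' i * Gs n A B a' b i))) =
      (if i = 0 then Y * Gs n A B a b 0 else (Y + DN) * Gs n A B a b 0 -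
      DN * (A 0 * (∏ l ∈ Ico 1 i, a l * A l) * (a i * Gs n A B a b i))) := by
    split_ifs with h0
    · rw [hG]
    · rw [hG, hG, hP, ha i h0]
  rw [S7B1_J hi] at h h'
  rw [hJ] at h'
  set J := (if i = 0 then Y * Gs n A B a b 0 else (Y + DN) * Gs n A B a b 0 -
      DN * (A 0 * (∏ l ∈ Ico 1 i, a l * A l) * (a i * Gs n A B a b i))) with hJd
  have h1 : ¬ p ∣ J := by
    intro h1
    apply hX
    have h2 := dvd_add h (h1.mul_left (a 0))
    rwa [sub_add_cancel] at h2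
  have h2 : p ∣ (a 0 - a' 0) * J := by
    have h3 := dvd_sub h' h
    rwa [show (Y + DN) * Rs n B b 0 - a' 0 * J - ((Y + DN) * Rs n B b 0 - a 0 * J) = (a 0 - a' 0) * J by ring] at h3
  exact (hp.dvd_or_dvd h2).resolve_right h1

end Pool.Agent.Lib.TC
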