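import Pool.Agent.Lib.MP_7b7e48_nt.TC.TDefs

/-!
# T01: the rational solution of the cycle equations

Write `p = pq`, `s = sg`, `Y = XX m be B`, `X = XX m al A`. All letters are positive rationals (cast of positive naturals), `p i > 0`,
`p (i+1) = p i * al (i+1) * A i / (be i * B i)` (`Finset.prod_range_succ`), `s (i+1) = s i + p i * eta i` (`Finset.sum_range_succ`).

* `T01_E`: `ev i * A i = (be i / p i) (N s(i+1) + Y/D s(m))`, `tv i * be i = N be i/al i - N be i s(i)/p i - Y s(m) be i/(D p i)`;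
  the sum is `N be i (1/al i + eta i) = N` because `s(i+1) - s(i) = p i eta i` and `1/al i + eta i = 1/be i`.
* `T01_F` (`i + 1 < m`): `be i * B i/(A i * p i) = al (i+1)/p (i+1)`, so `ev i * B i = (al (i+1)/p (i+1)) (N s(i+1) + Y/D s(m))`, and
  `tv (i+1) * al (i+1) = N - N al (i+1) s(i+1)/p (i+1) - al (i+1) Y s(m)/(D p (i+1))`. The sum is `N`.
* `T01_G` (closing equation): `p (m-1) = X be(m-1) B(m-1)/(Y al 0 A(m-1))`: the product over `l < m-1` of `al (l+1) A l/(be l B l)` is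
  `(∏_{1 ≤ l < m} al l)(∏_{l < m-1} A l)/((∏_{l<m-1} be l)(∏_{l<m-1} B l))` (`Finset.prod_range_succ'` for the shifted product). Hence
  `be(m-1) B(m-1)/(A(m-1) p(m-1)) = Y al 0/X`, `ev (m-1) * B (m-1) = (Y al 0/X) s(m) (N + Y/D) = Y al 0 s(m)/D` because `X = Y + D N`,
  and `tv 0 * al 0 = N - al 0 Y s(m)/D` (`p 0 = 1`, `s 0 = 0`).
-/

set_option autoImplicit false

open Finset

namespace Pool.Agent.Lib.TC

private lemma t01_pq_pos {m : ℕ} {A B al be : ℕ → ℕ} (hA : ∀ i < m, 0 < A i) (hB : ∀ i < m, 0 < B i)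
    (hal : ∀ i < m, 0 < al i) (hbe : ∀ i < m, 0 < be i) {i : ℕ} (hi : i < m) : 0 < pq A B al be i := by
  rw [pq]
  refine Finset.prod_pos fun l hl => ?_
  rw [mem_range] at hl
  have h1 : (0 : ℚ) < al (l + 1) := by exact_mod_cast hal (l + 1) (by omega)
  have h2 : (0 : ℚ) < A l := by exact_mod_cast hA l (by omega)
  have h3 : (0 : ℚ) < be l := by exact_mod_cast hbe l (by omega)
  have h4 : (0 : ℚ) < B l := by exact_mod_cast hB l (by omega)
  positivity

theorem T01_E {m N D : ℕ} {A B al be : ℕ → ℕ} (hA : ∀ i < m, 0 < A i) (hB : ∀ i < m, 0 < B i) (hal : ∀ i < m, 0 < al i)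
    (hbe : ∀ i < m, 0 < be i) (hD : 0 < D) {i : ℕ} (hi : i < m) :
    ev m N D A B al be i * A i + tv m N D A B al be i * be i = N := by
  have h1 : (al i : ℚ) ≠ 0 := by exact_mod_cast (hal i hi).ne'
  have h2 : (A i : ℚ) ≠ 0 := by exact_mod_cast (hA i hi).ne'
  have h3 : (be i : ℚ) ≠ 0 := by exact_mod_cast (hbe i hi).ne'
  have h4 : (D : ℚ) ≠ 0 := by exact_mod_cast hD.ne'
  have h5 : pq A B al be i ≠ 0 := (t01_pq_pos hA hB hal hbe hi).ne'
  have h6 : sg A B al be (i + 1) = sg A B al be i + pq A B al be i * eta al be i := by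
    rw [sg, sg, sum_range_succ]
  rw [ev, tv, h6, eta]
  generalize sg A B al be i = s0
  generalize sg A B al be m = s1
  generalize (XX m be B : ℚ) = Y
  generalize hp : pq A B al be i = p at *
  field_simp
  ring

theorem T01_F {m N D : ℕ} {A B al be : ℕ → ℕ} (hA : ∀ i < m, 0 < A i) (hB : ∀ i < m, 0 < B i) (hal : ∀ i < m, 0 < al i)
    (hbe : ∀ i < m, 0 < be i) (hD : 0 < D) {i : ℕ} (hi : i + 1 < m) :
    ev m N D A B al be i * B i + tv m N D A B al be (i + 1) * al (i + 1) = N := by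
  have h1 : (al (i + 1) : ℚ) ≠ 0 := by exact_mod_cast (hal (i + 1) hi).ne'
  have h2 : (A i : ℚ) ≠ 0 := by exact_mod_cast (hA i (by omega)).ne'
  have h3 : (be i : ℚ) ≠ 0 := by exact_mod_cast (hbe i (by omega)).ne'
  have h7 : (B i : ℚ) ≠ 0 := by exact_mod_cast (hB i (by omega)).ne'
  have h4 : (D : ℚ) ≠ 0 := by exact_mod_cast hD.ne'
  have h5 : pq A B al be i ≠ 0 := (t01_pq_pos hA hB hal hbe (i := i) (by omega)).ne'
  have h6 : pq A B al be (i + 1) = pq A B al be i * (((al (i + 1) : ℚ) * A i) / ((be i : ℚ) * B i)) := by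
    rw [pq, pq, prod_range_succ]
  rw [ev, tv, h6]
  generalize sg A B al be (i + 1) = s0
  generalize sg A B al be m = s1
  generalize (XX m be B : ℚ) = Y
  generalize hp : pq A B al be i = p at *
  field_simp
  ring

theorem T01_p {m : ℕ} {A B al be : ℕ → ℕ} (hm : 1 ≤ m) (hA : ∀ i < m, 0 < A i) (hB : ∀ i < m, 0 < B i) (hal : ∀ i < m, 0 < al i)
    (hbe : ∀ i < m, 0 < be i) :
    pq A B al be (m - 1) * ((XX m be B : ℚ) * al 0 * A (m - 1)) = (XX m al A : ℚ) * be (m - 1) * B (m - 1) := by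
  obtain ⟨n, rfl⟩ : ∃ n, m = n + 1 := ⟨m - 1, by omega⟩
  rw [Nat.add_sub_cancel, pq, prod_div_distrib, XX, XX]
  push_cast
  have h1 : (∏ l ∈ range n, ((be l : ℚ) * B l)) ≠ 0 := by
    refine prod_ne_zero_iff.2 fun l hl => ?_
    rw [mem_range] at hl
    have h3 : (0 : ℚ) < be l := by exact_mod_cast hbe l (by omega)
    have h4 : (0 : ℚ) < B l := by exact_mod_cast hB l (by omega)
    positivity
  have h2 : (∏ l ∈ range (n + 1), ((al l : ℚ) * A l)) =
      (∏ l ∈ range n, ((al (l + 1) : ℚ) * A l)) * al 0 * A n := by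
    rw [prod_mul_distrib, prod_mul_distrib, prod_range_succ' (fun l => (al l : ℚ)), prod_range_succ]
    ring
  rw [h2, prod_range_succ (fun l => (be l : ℚ) * B l)]
  field_simp

theorem T01_G {m N D : ℕ} {A B al be : ℕ → ℕ} (hm : 1 ≤ m) (hA : ∀ i < m, 0 < A i) (hB : ∀ i < m, 0 < B i) (hal : ∀ i < m, 0 < al i)
    (hbe : ∀ i < m, 0 < be i) (hD : 0 < D) (hXY : XX m al A = XX m be B + D * N) :
    ev m N D A B al be (m - 1) * B (m - 1) = (al 0 : ℚ) * XX m be B * sg A B al be m / D ∧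
    ev m N D A B al be (m - 1) * B (m - 1) + tv m N D A B al be 0 * al 0 = N := by
  have hm' : m - 1 < m := by omega
  have h1 : (al 0 : ℚ) ≠ 0 := by exact_mod_cast (hal 0 (by omega)).ne'
  have h2 : (A (m - 1) : ℚ) ≠ 0 := by exact_mod_cast (hA (m - 1) hm').ne'
  have h4 : (D : ℚ) ≠ 0 := by exact_mod_cast hD.ne'
  have h5 : pq A B al be (m - 1) ≠ 0 := (t01_pq_pos hA hB hal hbe (i := m - 1) hm').ne'
  have h6 := T01_p hm hA hB hal hbe
  have h7 : (XX m al A : ℚ) = (XX m be B : ℚ) + D * N := by exact_mod_cast hXY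
  have h8 : ev m N D A B al be (m - 1) * B (m - 1) = (al 0 : ℚ) * XX m be B * sg A B al be m / D := by
    rw [ev, Nat.sub_add_cancel hm]
    have e1 : (N : ℚ) * sg A B al be m + (XX m be B : ℚ) / D * sg A B al be m =
        (XX m al A : ℚ) * sg A B al be m / D := by
      rw [h7]
      field_simp
      ring
    rw [e1]
    have e2 : (be (m - 1) : ℚ) / (A (m - 1) * pq A B al be (m - 1)) *
        ((XX m al A : ℚ) * sg A B al be m / D) * B (m - 1) =
        ((XX m al A : ℚ) * be (m - 1) * B (m - 1)) * sg A B al be m / (A (m - 1) * pq A B al be (m - 1) * D) := by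
      ring
    rw [e2, ← h6]
    field_simp
  refine ⟨h8, ?_⟩
  rw [h8, tv]
  have h9 : sg A B al be 0 = 0 := by rw [sg, sum_range_zero]
  have h10 : pq A B al be 0 = 1 := by rw [pq, prod_range_zero]
  rw [h9, h10]
  field_simp
  ring

end Pool.Agent.Lib.TC
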