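import Pool.Agent.Lib.MP_7b7e48_nt.TC.T01

/-!
# T02: the numerator `SS`

`SS = ∑_{k<m} (al k - be k) ∏_{l<k} al l A l ∏_{k<l<m} be l B(l-1)`. As rationals (`be k < al k`, so the truncated subtraction is exact)
`(al k - be k) = al k be k eta k`. The claim `SS = al 0 (∏_{l<m} be l)(∏_{l<m-1} B l) ∑_k p_k eta_k` holds term by term:
`(∏_{l<m} be l)(∏_{l<m-1} B l) = (∏_{l≤k} be l)(∏_{l<k} B l) ∏_{k<l<m} be l B(l-1)` and
`al 0 p_k (∏_{l≤k} be l)(∏_{l<k} B l) = al 0 (∏_{l<k} al (l+1) A l) be k = al k be k ∏_{l<k} al l A l`.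
(`∏_{l<k} B l` times `∏_{l ∈ Ico (k+1) m} B (l-1) = ∏_{l ∈ Ico k (m-1)} B l` is `∏_{l<m-1} B l`.)
`T02_e`: from `T01_G`: `ev (m-1) B(m-1) = al 0 Y s(m)/D` and `Y = (∏_{l<m} be l)(∏_{l<m-1} B l) B(m-1)`, so `ev (m-1) = SS/D`.
-/

set_option autoImplicit false

open Finset

namespace Pool.Agent.Lib.TC

private theorem T02_term {m : ℕ} {A B al be : ℕ → ℕ} (hB : ∀ i < m, 0 < B i)
    (hbe : ∀ i < m, 0 < be i) (hab : ∀ i < m, be i < al i) {k : ℕ} (hk : k < m) :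
    (((al k - be k : ℕ) : ℚ)) * (∏ l ∈ range k, (al l : ℚ) * A l) *
      ∏ l ∈ Ico (k + 1) m, (be l : ℚ) * B (l - 1) =
    al 0 * (∏ l ∈ range m, (be l : ℚ)) * (∏ l ∈ range (m - 1), (B l : ℚ)) *
      (pq A B al be k * eta al be k) := by
  have hshift : ∏ l ∈ Ico (k + 1) m, (B (l - 1) : ℚ) = ∏ l ∈ Ico k (m - 1), (B l : ℚ) := by
    have h := Finset.prod_Ico_add' (fun l => (B (l - 1) : ℚ)) k (m - 1) 1
    rw [Nat.sub_add_cancel (by omega : 1 ≤ m)] at h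
    rw [← h]
    refine Finset.prod_congr rfl fun l _ => ?_
    simp
  have f1 : (al 0 : ℚ) * ∏ l ∈ range k, (al (l + 1) : ℚ) = (∏ l ∈ range k, (al l : ℚ)) * al k := by
    rw [← Finset.prod_range_succ, Finset.prod_range_succ' (fun l => (al l : ℚ)) k, mul_comm]
  have f2 : ∏ l ∈ range m, (be l : ℚ) =
      (∏ l ∈ range k, (be l : ℚ)) * be k * ∏ l ∈ Ico (k + 1) m, (be l : ℚ) := by
    rw [← Finset.prod_range_succ, Finset.prod_range_mul_prod_Ico _ (by omega : k + 1 ≤ m)]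
  have f3 : ∏ l ∈ range (m - 1), (B l : ℚ) =
      (∏ l ∈ range k, (B l : ℚ)) * ∏ l ∈ Ico k (m - 1), (B l : ℚ) := by
    rw [Finset.prod_range_mul_prod_Ico _ (by omega : k ≤ m - 1)]
  unfold pq eta
  rw [Finset.prod_div_distrib, Finset.prod_mul_distrib, Finset.prod_mul_distrib,
    Finset.prod_mul_distrib, Finset.prod_mul_distrib, hshift, f2, f3,
    Nat.cast_sub (hab k hk).le]
  have hQ1 : (∏ l ∈ range k, (be l : ℚ)) ≠ 0 := by
    rw [Finset.prod_ne_zero_iff]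
    intro l hl
    rw [mem_range] at hl
    have := hbe l (by omega)
    exact_mod_cast this.ne'
  have hQ2 : (∏ l ∈ range k, (B l : ℚ)) ≠ 0 := by
    rw [Finset.prod_ne_zero_iff]
    intro l hl
    rw [mem_range] at hl
    have := hB l (by omega)
    exact_mod_cast this.ne'
  have hbk : (be k : ℚ) ≠ 0 := by exact_mod_cast (hbe k hk).ne'
  have hak : (al k : ℚ) ≠ 0 := by
    have := (hbe k hk).trans (hab k hk)
    exact_mod_cast this.ne'
  generalize (∏ l ∈ range k, (be l : ℚ)) = Q1 at *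
  generalize (∏ l ∈ range k, (B l : ℚ)) = Q2 at *
  generalize (∏ l ∈ range k, (al l : ℚ)) = P1 at *
  generalize (∏ l ∈ range k, (A l : ℚ)) = P2 at *
  generalize (∏ l ∈ Ico (k + 1) m, (be l : ℚ)) = R1 at *
  generalize (∏ l ∈ Ico k (m - 1), (B l : ℚ)) = R2 at *
  generalize (∏ l ∈ range k, (al (l + 1) : ℚ)) = S at *
  have e1 : (al 0 : ℚ) * (Q1 * be k * R1) * (Q2 * R2) *
      (S * P2 / (Q1 * Q2) * (1 / (be k : ℚ) - 1 / (al k : ℚ))) =
      ((al 0 : ℚ) * S) * P2 * R1 * R2 * ((al k : ℚ) - be k) / al k := by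
    field_simp
  rw [e1, f1]
  field_simp

theorem T02_S {m : ℕ} {A B al be : ℕ → ℕ} (hm : 1 ≤ m) (hA : ∀ i < m, 0 < A i) (hB : ∀ i < m, 0 < B i) (hbe : ∀ i < m, 0 < be i)
    (hab : ∀ i < m, be i < al i) :
    (SS m A B al be : ℚ) = al 0 * (∏ l ∈ range m, (be l : ℚ)) * (∏ l ∈ range (m - 1), (B l : ℚ)) * sg A B al be m := by
  have _ := hm
  have _ := hA
  unfold SS sg
  rw [Finset.mul_sum, Nat.cast_sum]
  refine Finset.sum_congr rfl fun k hk => ?_
  rw [mem_range] at hk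
  rw [← T02_term hB hbe hab hk]
  push_cast
  rfl

theorem T02_e {m N D : ℕ} {A B al be : ℕ → ℕ} (hm : 1 ≤ m) (hA : ∀ i < m, 0 < A i) (hB : ∀ i < m, 0 < B i) (hbe : ∀ i < m, 0 < be i)
    (hab : ∀ i < m, be i < al i) (hD : 0 < D) (hXY : XX m al A = XX m be B + D * N) :
    ev m N D A B al be (m - 1) = (SS m A B al be : ℚ) / D := by
  have hal : ∀ i < m, 0 < al i := fun i hi => (hbe i hi).trans (hab i hi)
  have h := (T01_G hm hA hB hal hbe hD hXY).1
  have hBm : (B (m - 1) : ℚ) ≠ 0 := by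
    have := hB (m - 1) (by omega)
    exact_mod_cast this.ne'
  have hY : (XX m be B : ℚ) =
      (∏ l ∈ range m, (be l : ℚ)) * (∏ l ∈ range (m - 1), (B l : ℚ)) * B (m - 1) := by
    unfold XX
    push_cast
    rw [Finset.prod_mul_distrib]
    have e : ∏ l ∈ range m, (B l : ℚ) = (∏ l ∈ range (m - 1), (B l : ℚ)) * B (m - 1) := by
      rw [← Finset.prod_range_succ, Nat.sub_add_cancel hm]
    rw [e]
    ring
  apply mul_right_cancel₀ hBm
  rw [h, T02_S hm hA hB hbe hab, hY]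
  ring

/-- `SS` is positive -/
theorem T02_pos {m : ℕ} {A B al be : ℕ → ℕ} (hm : 1 ≤ m) (hA : ∀ i < m, 0 < A i) (hB : ∀ i < m, 0 < B i) (hbe : ∀ i < m, 0 < be i)
    (hab : ∀ i < m, be i < al i) : 0 < SS m A B al be := by
  unfold SS
  refine Finset.sum_pos (fun k hk => ?_) ⟨0, mem_range.mpr hm⟩
  rw [mem_range] at hk
  refine Nat.mul_pos (Nat.mul_pos (Nat.sub_pos_of_lt (hab k hk)) ?_) ?_
  · refine Finset.prod_pos fun l hl => ?_
    rw [mem_range] at hl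
    exact Nat.mul_pos ((hbe l (by omega)).trans (hab l (by omega))) (hA l (by omega))
  · refine Finset.prod_pos fun l hl => ?_
    rw [mem_Ico] at hl
    exact Nat.mul_pos (hbe l hl.2) (hB (l - 1) (by omega))

end Pool.Agent.Lib.TC
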