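import Mathlib

/-!
# T12: linear equations in units

`k` unit variables `x_j`, coefficients `c_j`, constant `c₀`.
* `T12_p`: `p` prime, some `c_{j₀} ≠ 0`: at most `(p-1)^{k-1}` solutions of `∑ c_j x_j = c₀` in units of `ZMod p` (fix all `x_j`, `j ≠ j₀`).
* `T12_low`: `p` prime, `c_{j₁} ≠ 0`, `c_{j₂} ≠ 0`, `j₁ ≠ j₂`: at least `(p-1)^{k-2} (p-2)` solutions (fix the other variables; for each of the `p - 1` values of
  `x_{j₁}` the value `x_{j₂} = (t - c_{j₁} x_{j₁})/c_{j₂}` is a unit unless `x_{j₁} = t/c_{j₁}`).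
* `T12_pp`: prime power `p^(a+1)`: `F` a function of the residues modulo `p` of the variables, `c_{j₀}` a unit: at most `φ(p^(a+1))^{k-1}` solutions of
  `∑ c_j x_j = F(x mod p)` such that moreover `F` takes values divisible by `p` (then `x_{j₀}` mod `p` is determined by the other variables, hence `F`
  is determined, hence `x_{j₀}`).
-/

set_option autoImplicit false

open Finset

namespace Pool.Agent.Lib.TC

private theorem T12_card {ι M : Type*} [Fintype ι] [DecidableEq ι] [Fintype M] [DecidableEq M] (j₀ : ι)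
    (S : Finset (ι → M)) (h : ∀ x ∈ S, ∀ y ∈ S, (∀ j, j ≠ j₀ → x j = y j) → x j₀ = y j₀) :
    S.card ≤ Fintype.card M ^ (Fintype.card ι - 1) := by
  have h1 : S.card ≤ (univ : Finset ({j : ι // j ≠ j₀} → M)).card := by
    refine Finset.card_le_card_of_injOn (fun x j => x j.1) (fun x _ => Finset.mem_coe.2 (mem_univ _)) ?_
    intro x hx y hy hxy
    have h2 : ∀ j, j ≠ j₀ → x j = y j := fun j hj => congrFun hxy ⟨j, hj⟩
    funext j
    by_cases hj : j = j₀
    · rw [hj]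
      exact h x hx y hy h2
    · exact h2 j hj
  rw [Finset.card_univ, Fintype.card_fun] at h1
  have h3 : Fintype.card {j : ι // j ≠ j₀} = Fintype.card ι - 1 := by
    rw [Fintype.card_subtype_compl, Fintype.card_subtype_eq]
  rwa [h3] at h1

private theorem T12_sub {ι R : Type*} [Fintype ι] [DecidableEq ι] [CommRing R] {c : ι → R} {j₀ : ι} {x y : ι → R}
    (h : ∑ j, c j * x j = ∑ j, c j * y j) (hxy : ∀ j, j ≠ j₀ → x j = y j) : c j₀ * x j₀ = c j₀ * y j₀ := by
  rw [Fintype.sum_eq_add_sum_subtype_ne _ j₀, Fintype.sum_eq_add_sum_subtype_ne (fun j => c j * y j) j₀] at h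
  have h1 : ∑ j : {j // j ≠ j₀}, c j.1 * x j.1 = ∑ j : {j // j ≠ j₀}, c j.1 * y j.1 :=
    Finset.sum_congr rfl fun j _ => by rw [hxy j.1 j.2]
  rw [h1] at h
  exact add_right_cancel h

private theorem T12_gen {ι : Type*} [Fintype ι] [DecidableEq ι] {p : ℕ} [Fact p.Prime] (c : ι → ZMod p) (c₀ : ZMod p)
    (j₀ : ι) (h : c j₀ ≠ 0) :
    ((univ : Finset (ι → (ZMod p)ˣ)).filter fun x => ∑ j, c j * (x j : ZMod p) = c₀).card ≤
      (p - 1) ^ (Fintype.card ι - 1) := by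
  rw [← ZMod.card_units p]
  refine T12_card j₀ _ ?_
  intro x hx y hy hxy
  rw [mem_filter] at hx hy
  have h1 := T12_sub (c := c) (j₀ := j₀) (x := fun j => (x j : ZMod p)) (y := fun j => (y j : ZMod p))
    (hx.2.trans hy.2.symm) (fun j hj => by rw [hxy j hj])
  exact Units.ext (mul_left_cancel₀ h h1)

theorem T12_p {p k : ℕ} [Fact p.Prime] (c : Fin k → ZMod p) (c₀ : ZMod p) (j₀ : Fin k) (h : c j₀ ≠ 0) :
    ((univ : Finset (Fin k → (ZMod p)ˣ)).filter fun x => ∑ j, c j * (x j : ZMod p) = c₀).card ≤ (p - 1) ^ (k - 1) := by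
  have h1 := T12_gen c c₀ j₀ h
  rwa [Fintype.card_fin] at h1

theorem T12_low {p k : ℕ} [Fact p.Prime] (c : Fin k → ZMod p) (c₀ : ZMod p) (j₁ j₂ : Fin k) (hj : j₁ ≠ j₂) (h₁ : c j₁ ≠ 0)
    (h₂ : c j₂ ≠ 0) :
    (p - 1) ^ (k - 2) * (p - 2) ≤ ((univ : Finset (Fin k → (ZMod p)ˣ)).filter fun x => ∑ j, c j * (x j : ZMod p) = c₀).card := by
  classical
  have hp : 2 ≤ p := (Fact.out : p.Prime).two_le
  have hk : 2 ≤ k := by
    by_contra hk
    apply hj
    apply Fin.ext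
    have a1 := j₁.2
    have a2 := j₂.2
    omega
  have hcard : Fintype.card {j : Fin k // j ≠ j₂} = k - 1 := by
    rw [Fintype.card_subtype_compl, Fintype.card_subtype_eq, Fintype.card_fin]
  -- the bad choices of the other variables
  have hbad := T12_gen (fun j : {j : Fin k // j ≠ j₂} => c j.1) c₀ ⟨j₁, hj⟩ h₁
  rw [hcard] at hbad
  have htot := Finset.card_filter_add_card_filter_not (s := (univ : Finset ({j : Fin k // j ≠ j₂} → (ZMod p)ˣ)))
    (p := fun x => ∑ j, c j.1 * (x j : ZMod p) = c₀)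
  rw [Finset.card_univ, Fintype.card_fun, hcard, ZMod.card_units] at htot
  obtain ⟨g, hg⟩ : ∃ g : ZMod p → (ZMod p)ˣ, ∀ t, t ≠ 0 → (g t : ZMod p) = t :=
    ⟨fun t => if h : t = 0 then 1 else Units.mk0 t h, fun t ht => by simp [ht]⟩
  have hinj : ((univ : Finset ({j : Fin k // j ≠ j₂} → (ZMod p)ˣ)).filter
      fun x => ¬ ∑ j, c j.1 * (x j : ZMod p) = c₀).card ≤
      ((univ : Finset (Fin k → (ZMod p)ˣ)).filter fun x => ∑ j, c j * (x j : ZMod p) = c₀).card := by
    refine Finset.card_le_card_of_injOn (fun y j => if h : j = j₂ then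
      g ((c₀ - ∑ i : {j : Fin k // j ≠ j₂}, c i.1 * (y i : ZMod p)) / c j₂) else y ⟨j, h⟩) ?_ ?_
    · intro y hy
      rw [Finset.mem_coe, mem_filter] at hy ⊢
      refine ⟨mem_univ _, ?_⟩
      rw [Fintype.sum_eq_add_sum_subtype_ne _ j₂]
      have ht : (c₀ - ∑ i : {j : Fin k // j ≠ j₂}, c i.1 * (y i : ZMod p)) / c j₂ ≠ 0 :=
        div_ne_zero (sub_ne_zero.2 fun e => hy.2 e.symm) h₂
      have hs : ∑ i : {j : Fin k // j ≠ j₂}, c i.1 * (((if h : i.1 = j₂ then
          g ((c₀ - ∑ i : {j : Fin k // j ≠ j₂}, c i.1 * (y i : ZMod p)) / c j₂) else y ⟨i.1, h⟩ :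
            (ZMod p)ˣ)) : ZMod p) = ∑ i : {j : Fin k // j ≠ j₂}, c i.1 * (y i : ZMod p) := by
        refine Finset.sum_congr rfl fun i _ => ?_
        rw [dif_neg i.2]
      have hs2 : (((if h : j₂ = j₂ then
          g ((c₀ - ∑ i : {j : Fin k // j ≠ j₂}, c i.1 * (y i : ZMod p)) / c j₂) else y ⟨j₂, h⟩ :
            (ZMod p)ˣ)) : ZMod p) = (c₀ - ∑ i : {j : Fin k // j ≠ j₂}, c i.1 * (y i : ZMod p)) / c j₂ := by
        rw [dif_pos rfl, hg _ ht]
      refine (congrArg₂ (fun u v => c j₂ * u + v) hs2 hs).trans ?_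
      show c j₂ * ((c₀ - ∑ i : {j : Fin k // j ≠ j₂}, c i.1 * (y i : ZMod p)) / c j₂) +
        ∑ i : {j : Fin k // j ≠ j₂}, c i.1 * (y i : ZMod p) = c₀
      rw [mul_div_cancel₀ _ h₂]
      ring
    · intro x _ y _ hxy
      funext j
      have h3 := congrFun hxy j.1
      simp only [dif_neg j.2] at h3
      exact h3
  have e1 : (p - 1) ^ (k - 1) = (p - 1) ^ (k - 2) * (p - 2) + (p - 1) ^ (k - 2) := by
    have e2 : k - 1 = (k - 2) + 1 := by omega
    have e3 : p - 1 = (p - 2) + 1 := by omega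
    rw [e2, pow_succ]
    conv_lhs => rw [show (p - 1) ^ (k - 2) * (p - 1) = (p - 1) ^ (k - 2) * ((p - 2) + 1) by rw [← e3]]
    ring
  have e4 : k - 1 - 1 = k - 2 := by omega
  rw [e4] at hbad
  omega

theorem T12_pp {p k a : ℕ} [Fact p.Prime] [NeZero (p ^ (a + 1))] (c : Fin k → ZMod (p ^ (a + 1))) (j₀ : Fin k) (h : IsUnit (c j₀))
    (F : (Fin k → ZMod p) → ZMod (p ^ (a + 1)))
    (hF : ∀ y, ZMod.castHom (dvd_pow_self p (Nat.succ_ne_zero a)) (ZMod p) (F y) = 0) :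
    ((univ : Finset (Fin k → (ZMod (p ^ (a + 1)))ˣ)).filter fun x =>
      ∑ j, c j * (x j : ZMod (p ^ (a + 1))) =
        F (fun j => ZMod.castHom (dvd_pow_self p (Nat.succ_ne_zero a)) (ZMod p) (x j : ZMod (p ^ (a + 1))))).card ≤
      Nat.totient (p ^ (a + 1)) ^ (k - 1) := by
  obtain ⟨π, hπ⟩ : ∃ π : ZMod (p ^ (a + 1)) →+* ZMod p, π = ZMod.castHom (dvd_pow_self p (Nat.succ_ne_zero a)) (ZMod p) :=
    ⟨_, rfl⟩
  rw [← hπ] at hF ⊢
  have h0 := T12_card (M := (ZMod (p ^ (a + 1)))ˣ) j₀ ((univ : Finset (Fin k → (ZMod (p ^ (a + 1)))ˣ)).filter fun x =>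
      ∑ j, c j * (x j : ZMod (p ^ (a + 1))) = F (fun j => π (x j : ZMod (p ^ (a + 1))))) ?_
  · rwa [ZMod.card_units_eq_totient, Fintype.card_fin] at h0
  · intro x hx y hy hxy
    rw [mem_filter] at hx hy
    have hx1 : ∑ j, π (c j) * π (x j : ZMod (p ^ (a + 1))) = 0 := by
      have e := congrArg π hx.2
      rw [hF, map_sum] at e
      rw [← e]
      exact Finset.sum_congr rfl fun j _ => (map_mul π _ _).symm
    have hy1 : ∑ j, π (c j) * π (y j : ZMod (p ^ (a + 1))) = 0 := by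
      have e := congrArg π hy.2
      rw [hF, map_sum] at e
      rw [← e]
      exact Finset.sum_congr rfl fun j _ => (map_mul π _ _).symm
    have h1 := T12_sub (c := fun j => π (c j)) (j₀ := j₀) (x := fun j => π (x j : ZMod (p ^ (a + 1))))
      (y := fun j => π (y j : ZMod (p ^ (a + 1)))) (hx1.trans hy1.symm) (fun j hj => by rw [hxy j hj])
    have h2 : π (x j₀ : ZMod (p ^ (a + 1))) = π (y j₀ : ZMod (p ^ (a + 1))) :=
      (h.map π).mul_left_cancel h1
    have h3 : (fun j => π (x j : ZMod (p ^ (a + 1)))) = fun j => π (y j : ZMod (p ^ (a + 1))) := by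
      funext j
      by_cases hj : j = j₀
      · rw [hj]
        exact h2
      · rw [hxy j hj]
    have h4 := T12_sub (c := c) (j₀ := j₀) (x := fun j => (x j : ZMod (p ^ (a + 1))))
      (y := fun j => (y j : ZMod (p ^ (a + 1)))) (by rw [hx.2, hy.2, h3]) (fun j hj => by rw [hxy j hj])
    exact Units.ext (h.mul_left_cancel h4)

end Pool.Agent.Lib.TC
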