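import Mathlib

/-!
# m-cycles: definitions

A cycle of length `m` for `N`: `e_i A_i + t_i β_i = N` and `e_i B_i + t_{i+1} α_{i+1} = N` (indices modulo `m`). The slot `m - 1` is the
ground slot (it contains the long cofactors `A_{m-1}`, `B_{m-1}`); the structure `Cyc` is in the file `Cyc.lean`. `XX = ∏ α_i A_i`, `YY = ∏ β_i B_i`.
-/

set_option autoImplicit false

open Finset

namespace Pool.Agent.Lib.TC

/-- the product of the `α_i A_i` -/
def XX (m : ℕ) (al A : ℕ → ℕ) : ℕ := ∏ i ∈ range m, al i * A i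

/-- the numerator of `e_{m-1}` -/
def SS (m : ℕ) (A B al be : ℕ → ℕ) : ℕ :=
  ∑ k ∈ range m, (al k - be k) * (∏ l ∈ range k, al l * A l) * ∏ l ∈ Ico (k + 1) m, be l * B (l - 1)

/-- `p_k = ∏_{l < k} α_{l+1} A_l / (β_l B_l)` -/
def pq (A B al be : ℕ → ℕ) (k : ℕ) : ℚ := ∏ l ∈ range k, ((al (l + 1) : ℚ) * A l) / ((be l : ℚ) * B l)

/-- `η_k = 1/β_k - 1/α_k` -/
def eta (al be : ℕ → ℕ) (k : ℕ) : ℚ := 1 / (be k : ℚ) - 1 / (al k : ℚ)

/-- the partial sums `∑_{j < k} p_j η_j` -/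
def sg (A B al be : ℕ → ℕ) (k : ℕ) : ℚ := ∑ j ∈ range k, pq A B al be j * eta al be j

/-- the rational solution `t_i` -/
def tv (m N D : ℕ) (A B al be : ℕ → ℕ) (i : ℕ) : ℚ :=
  N * (1 / (al i : ℚ) - sg A B al be i / pq A B al be i) - (XX m be B : ℚ) * sg A B al be m / (D * pq A B al be i)

/-- the rational solution `e_i` -/
def ev (m N D : ℕ) (A B al be : ℕ → ℕ) (i : ℕ) : ℚ :=
  (be i : ℚ) / (A i * pq A B al be i) * (N * sg A B al be (i + 1) + (XX m be B : ℚ) / D * sg A B al be m)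

end Pool.Agent.Lib.TC
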